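import Pool.Agent.TLA.ChainFacts

/-! Generators of subgroups along the chain (block B6). -/

set_option autoImplicit false

namespace Pool.Agent.TLA

variable {p : ℕ} {Γ : Type} [Group Γ]

private theorem Active_one {E : Subgroup Γ} {φ : Γ → ZMod p}
    (hφ : ∀ x ∈ E, ∀ y ∈ E, φ (x * y) = φ x + φ y) : φ 1 = 0 := by
  have h := hφ 1 E.one_mem 1 E.one_mem
  rw [mul_one] at h
  simpa using h

private theorem Active_inv {E : Subgroup Γ} {φ : Γ → ZMod p}
    (hφ : ∀ x ∈ E, ∀ y ∈ E, φ (x * y) = φ x + φ y) {x : Γ} (hx : x ∈ E) : φ x⁻¹ = - φ x := by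
  have h := hφ x hx x⁻¹ (E.inv_mem hx)
  rw [mul_inv_cancel, Active_one hφ] at h
  exact (neg_eq_of_add_eq_zero_right h.symm).symm

private theorem Active_pow {E : Subgroup Γ} {φ : Γ → ZMod p}
    (hφ : ∀ x ∈ E, ∀ y ∈ E, φ (x * y) = φ x + φ y) {x : Γ} (hx : x ∈ E) (n : ℕ) :
    φ (x ^ n) = n * φ x := by
  induction n with
  | zero => simp [Active_one hφ]
  | succ n ih =>
    rw [pow_succ, hφ (x ^ n) (E.pow_mem hx n) x hx, ih]
    push_cast
    ring

/-- The auxiliary system of a family. -/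
private noncomputable def Active_sys {ι : Type} [Fintype ι] [DecidableEq ι] (X : ι → Γ) :
    WSys Γ where
  T := ι
  fin := inferInstance
  dec := inferInstance
  v := X
  w := fun _ => 1 / 2
  w_pos := fun _ => by norm_num
  w_lt := fun _ => by norm_num

private theorem Active_n_z (S : WSys Γ) (S₁ : WSys Γ) (t₁ t : S₁.T) (hH : S₁.H ≤ S.H) (k : ℕ) :
    S₁.z t₁ t k ∈ S.H ∧ S.n p (S₁.z t₁ t k) ≤ S.n p (S₁.v t) * S.n p (S₁.v t₁) ^ k := by
  have h1 : S₁.v t₁ ∈ S.H := hH (S₁.v_mem_H t₁)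
  induction k with
  | zero =>
    refine ⟨hH (S₁.v_mem_H t), ?_⟩
    rw [pow_zero, mul_one]
    exact le_refl _
  | succ k ih =>
    obtain ⟨h2, h3⟩ := ih
    have e : S₁.z t₁ t (k + 1) =
        (S₁.z t₁ t k)⁻¹ * S₁.v t₁ * ((S₁.z t₁ t k)⁻¹)⁻¹ * (S₁.v t₁)⁻¹ := by
      show (S₁.z t₁ t k)⁻¹ * (S₁.v t₁ * S₁.z t₁ t k * (S₁.v t₁)⁻¹) = _
      group
    rw [e]
    refine ⟨S.H.mul_mem (S.H.mul_mem (S.H.mul_mem (S.H.inv_mem h2) h1)
      (S.H.inv_mem (S.H.inv_mem h2))) (S.H.inv_mem h1), ?_⟩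
    refine (S.n_comm_le p (S.H.inv_mem h2) h1).trans ?_
    rw [S.n_inv p h2, pow_succ, ← mul_assoc]
    exact mul_le_mul_of_nonneg_right h3 (S.n_nonneg p _)

/-- The weighted Schreier inequality: an active step. -/
theorem active_step [Fact p.Prime] (S : WSys Γ) (E : Subgroup Γ) (hE : E ≤ S.H)
    (φ : Γ → ZMod p) (hφ : ∀ x ∈ E, ∀ y ∈ E, φ (x * y) = φ x + φ y) {c : ℝ} (hc : 0 ≤ c)
    (hn : ∀ x ∈ E, S.n p x ≤ c) (hne : ∀ x ∈ E, φ x ≠ 0 → S.n p x = c)
    {ι : Type} [Fintype ι] (X : ι → Γ) (hX : ∀ i, X i ∈ E) (hex : ∃ i, φ (X i) ≠ 0) :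
    ∃ (ι' : Type) (_ : Fintype ι') (X' : ι' → Γ),
      (∀ x, x ∈ Subgroup.closure (Set.range X') ↔
        x ∈ Subgroup.closure (Set.range X) ∧ φ x = 0) ∧
      ∑ i, S.n p (X' i) - 1 ≤ (∑ i, S.n p (X i) - 1) * tau p c := by
  classical
  obtain ⟨i₁, hi₁⟩ := hex
  set S₀ : WSys Γ := Active_sys X with hS₀
  have hcl : Subgroup.closure (Set.range X) ≤ E := by
    refine (Subgroup.closure_le _).2 ?_
    rintro _ ⟨i, rfl⟩
    exact hX i
  have hS₀H : S₀.H = Subgroup.closure (Set.range X) := rfl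
  set ψ : Γ → ZMod p := fun x => (φ (X i₁))⁻¹ * φ x with hψ
  have hψadd : ∀ x ∈ E, ∀ y ∈ E, ψ (x * y) = ψ x + ψ y := by
    intro x hx y hy
    simp only [hψ]
    rw [hφ x hx y hy]
    ring
  have hψ1 : ψ (X i₁) = 1 := by
    simp only [hψ]
    exact inv_mul_cancel₀ hi₁
  have hψ0 : ∀ x, ψ x = 0 ↔ φ x = 0 := by
    intro x
    simp only [hψ, mul_eq_zero, inv_eq_zero]
    exact ⟨fun h => h.resolve_left hi₁, fun h => Or.inr h⟩
  set k : S₀.T → ℕ := fun i => (ψ (X i)).val with hk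
  let t₁ : S₀.T := i₁
  set S₁ : WSys Γ := S₀.bc t₁ k with hS₁
  have hS₁H : S₁.H = Subgroup.closure (Set.range X) := (S₀.bc_H t₁ k).trans hS₀H
  have hS₁E : S₁.H ≤ E := hS₁H.le.trans hcl
  have hadd : S₁.AddOn p ψ := fun x hx y hy => hψadd x (hS₁E hx) y (hS₁E hy)
  let s₁ : S₁.T := i₁
  have hv₁ : S₁.v s₁ = X i₁ := by
    show (if i₁ = i₁ then X i₁ else _) = X i₁
    rw [if_pos rfl]
  have hv : ∀ t : S₁.T, t ≠ s₁ → S₁.v t = X t * (X i₁ ^ (ψ (X t)).val)⁻¹ := by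
    intro t ht
    show (if t = i₁ then X t else X t * (X i₁ ^ (ψ (X t)).val)⁻¹) = _
    rw [if_neg ht]
  have h1 : ψ (S₁.v s₁) = 1 := by rw [hv₁]; exact hψ1
  have h0 : ∀ t, t ≠ s₁ → ψ (S₁.v t) = 0 := by
    intro t ht
    rw [hv t ht, hψadd _ (hX t) _ (E.inv_mem (E.pow_mem (hX i₁) _)),
      Active_inv hψadd (E.pow_mem (hX i₁) _), Active_pow hψadd (hX i₁), hψ1, mul_one,
      ZMod.natCast_val, ZMod.cast_id', id, add_neg_cancel]
  have hnv : ∀ t : S₁.T, t ≠ s₁ → S.n p (S₁.v t) ≤ S.n p (X t) := by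
    intro t ht
    rw [hv t ht]
    by_cases hz : ψ (X t) = 0
    · rw [hz, ZMod.val_zero, pow_zero, inv_one, mul_one]
    · have h2 : φ (X t) ≠ 0 := fun h => hz ((hψ0 _).2 h)
      rw [hne _ (hX t) h2]
      exact hn _ (E.mul_mem (hX t) (E.inv_mem (E.pow_mem (hX i₁) _)))
  have hn₁ : S.n p (X i₁) = c := hne _ (hX i₁) hi₁
  refine ⟨(S₁.rs p s₁).T, (S₁.rs p s₁).fin, (S₁.rs p s₁).v, ?_, ?_⟩
  · intro x
    have h3 := S₁.mem_rs_H p s₁ ψ hadd h1 h0 x
    rw [hS₁H, hψ0] at h3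
    exact h3
  · have hτ : 0 ≤ tau p c := (tau_pos p hc).le
    have hsum : ∑ q, S.n p ((S₁.rs p s₁).v q) =
        S.n p (S₁.v s₁ ^ p) + ∑ t : {t : S₁.T // t ≠ s₁}, ∑ k : Fin p,
          S.n p (S₁.z s₁ t k) := by
      have e1 : ∑ q : Option ({t : S₁.T // t ≠ s₁} × Fin p), S.n p ((S₁.rs p s₁).v q) =
          S.n p (S₁.v s₁ ^ p) + ∑ q : {t : S₁.T // t ≠ s₁} × Fin p,
            S.n p (S₁.z s₁ q.1 q.2) := by
        rw [Fintype.sum_option]
        rfl
      rw [Fintype.sum_prod_type] at e1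
      exact e1
    have hE' : S₁.H ≤ S.H := hS₁E.trans hE
    have hb1 : S.n p (S₁.v s₁ ^ p) ≤ c ^ p := by
      have := S.n_pow_le p (hE' (S₁.v_mem_H s₁))
      rw [hv₁, hn₁] at this
      rw [hv₁]
      exact this
    have hb2 : ∀ t : {t : S₁.T // t ≠ s₁}, ∑ k : Fin p, S.n p (S₁.z s₁ t k) ≤
        S.n p (X t.1) * tau p c := by
      intro t
      unfold tau
      rw [Finset.mul_sum, ← Fin.sum_univ_eq_sum_range (fun k => S.n p (X t.1) * c ^ k)]
      refine Finset.sum_le_sum fun k _ => ?_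
      refine (Active_n_z S S₁ s₁ t.1 hE' k).2.trans ?_
      rw [hv₁, hn₁]
      exact mul_le_mul_of_nonneg_right (hnv t.1 t.2) (pow_nonneg hc _)
    have hb3 : ∑ t : {t : S₁.T // t ≠ s₁}, S.n p (X t.1) = ∑ i, S.n p (X i) - c := by
      have e2 : ∑ i, S.n p (X i) = ∑ t : S₁.T, S.n p (X t) := rfl
      rw [e2, ← hn₁, ← Finset.sum_erase_eq_sub (Finset.mem_univ s₁)]
      rw [← Finset.sum_subtype (Finset.univ.erase s₁) (fun t => by simp)
        (fun t => S.n p (X t))]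
    rw [hsum]
    have hb4 : ∑ t : {t : S₁.T // t ≠ s₁}, ∑ k : Fin p, S.n p (S₁.z s₁ t k) ≤
        (∑ i, S.n p (X i) - c) * tau p c := by
      rw [← hb3, Finset.sum_mul]
      exact Finset.sum_le_sum fun t _ => hb2 t
    have h5 := sub_one_mul_tau p c
    nlinarith [hb1, hb4, h5]

open Classical in
/-- Generators of `M ⊓ E n`. -/
theorem sub_chain [Fact p.Prime] {S : WSys Γ} {D : ℝ} (C : Chain p S D) (M : Subgroup Γ)
    (hM : M ≤ S.H) {ι : Type} [Fintype ι] (X : ι → Γ)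
    (hX : Subgroup.closure (Set.range X) = M) (n : ℕ) :
    ∃ (ι' : Type) (_ : Fintype ι') (X' : ι' → Γ),
      Subgroup.closure (Set.range X') = M ⊓ C.E n ∧
      ∑ i, S.n p (X' i) - 1 ≤ (∑ i, S.n p (X i) - 1) *
        ∏ j ∈ Finset.range n, (if C.Act M j then tau p (C.c j) else 1) := by
  induction n with
  | zero =>
    refine ⟨ι, inferInstance, X, ?_, ?_⟩
    · rw [C.E_zero, hX]
      exact (inf_eq_left.2 hM).symm
    · simp
  | succ n ih =>
    obtain ⟨ι', hι', X', h1, h2⟩ := ih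
    by_cases hA : C.Act M n
    · have hXE : ∀ i, X' i ∈ M ⊓ C.E n := by
        intro i
        rw [← h1]
        exact Subgroup.subset_closure ⟨i, rfl⟩
      have hex : ∃ i, C.φ n (X' i) ≠ 0 := by
        by_contra hcon
        push Not at hcon
        obtain ⟨x, hxM, hxE, hx⟩ := hA
        have hx' : x ∈ Subgroup.closure (Set.range X') := by
          rw [h1]
          exact ⟨hxM, hxE⟩
        have hle : Subgroup.closure (Set.range X') ≤ C.E (n + 1) := by
          refine (Subgroup.closure_le _).2 ?_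
          rintro _ ⟨i, rfl⟩
          exact (C.mem_succ n _).2 ⟨(hXE i).2, hcon i⟩
        exact hx ((C.mem_succ n x).1 (hle hx')).2
      obtain ⟨ι'', hι'', X'', h3, h4⟩ := active_step S (C.E n) (C.le_H n) (C.φ n) (C.add n)
        (C.c_pos n).le (C.n_le n) (C.n_eq n) X' (fun i => (hXE i).2) hex
      refine ⟨ι'', hι'', X'', ?_, ?_⟩
      · ext x
        rw [h3, h1]
        constructor
        · rintro ⟨⟨hxM, hxE⟩, hx0⟩
          exact ⟨hxM, (C.mem_succ n x).2 ⟨hxE, hx0⟩⟩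
        · rintro ⟨hxM, hxE⟩
          have := (C.mem_succ n x).1 hxE
          exact ⟨⟨hxM, this.1⟩, this.2⟩
      · rw [Finset.prod_range_succ, if_pos hA, ← mul_assoc]
        refine h4.trans ?_
        exact mul_le_mul_of_nonneg_right h2 (tau_pos p (C.c_pos n).le).le
    · refine ⟨ι', hι', X', ?_, ?_⟩
      · rw [h1]
        ext x
        constructor
        · rintro ⟨hxM, hxE⟩
          refine ⟨hxM, (C.mem_succ n x).2 ⟨hxE, ?_⟩⟩
          by_contra hx
          exact hA ⟨x, hxM, hxE, hx⟩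
        · rintro ⟨hxM, hxE⟩
          exact ⟨hxM, ((C.mem_succ n x).1 hxE).1⟩
      · rw [Finset.prod_range_succ, if_neg hA, mul_one]
        exact h2

private theorem Active_prod_ge (f : ℕ → ℝ) (hf : ∀ j, 0 ≤ f j) (n : ℕ) :
    ∑ j ∈ Finset.range n, f j ≤ ∏ j ∈ Finset.range n, (1 + f j) ∧
      1 ≤ ∏ j ∈ Finset.range n, (1 + f j) := by
  induction n with
  | zero => simp
  | succ n ih =>
    rw [Finset.sum_range_succ, Finset.prod_range_succ]
    have h := hf n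
    constructor
    · nlinarith [ih.1, ih.2]
    · nlinarith [ih.1, ih.2]

open Classical in
/-- If the total norm of the generators is less than one, the active norms are summable. -/
theorem active_summable [Fact p.Prime] {S : WSys Γ} {D : ℝ} (C : Chain p S D) (M : Subgroup Γ)
    (hM : M ≤ S.H) {ι : Type} [Fintype ι] (X : ι → Γ)
    (hX : Subgroup.closure (Set.range X) = M) (h1 : ∑ i, S.n p (X i) < 1) :
    Summable (fun j => if C.Act M j then C.c j else 0) := by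
  set f : ℕ → ℝ := fun j => if C.Act M j then C.c j else 0 with hf
  have hf0 : ∀ j, 0 ≤ f j := by
    intro j
    simp only [hf]
    split_ifs
    · exact (C.c_pos j).le
    · exact le_refl _
  refine summable_of_sum_range_le (c := 1 / (1 - ∑ i, S.n p (X i))) hf0 ?_
  intro n
  obtain ⟨ι', hι', X', -, h3⟩ := sub_chain C M hM X hX n
  have h4 : 0 ≤ ∑ i, S.n p (X' i) := Finset.sum_nonneg fun i _ => S.n_nonneg p _
  have h5 : ∏ j ∈ Finset.range n, (1 + f j) ≤
      ∏ j ∈ Finset.range n, (if C.Act M j then tau p (C.c j) else 1) := by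
    refine Finset.prod_le_prod (fun j _ => by linarith [hf0 j]) fun j _ => ?_
    simp only [hf]
    split_ifs
    · exact one_add_le_tau p (C.c_pos j).le
    · rw [add_zero]
  have h6 := (Active_prod_ge f hf0 n).1
  rw [le_div_iff₀ (by linarith)]
  nlinarith [h3, h4, h5, h6]

end Pool.Agent.TLA
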