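import Pool.Agent.TLA.BallB

/-! Norms. -/

set_option autoImplicit false

namespace Pool.Agent.TLA

variable (p : ℕ) {Γ : Type} [Group Γ]

namespace WSys

variable (S : WSys Γ)

theorem n_nonneg (g : Γ) : 0 ≤ S.n p g :=
  Real.sInf_nonneg fun _ hc => hc.1.le

theorem Ball_le_of_mem {c : ℝ} (hc : 0 < c) {g : Γ} (h : gr p g - 1 ∈ S.M p c) :
    S.n p g ≤ c :=
  csInf_le ⟨0, fun _ hx => hx.1.le⟩ ⟨hc, h⟩

theorem n_le_iff {c : ℝ} (hc : 0 < c) {g : Γ} (hg : g ∈ S.H) :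
    S.n p g ≤ c ↔ gr p g - 1 ∈ S.M p c := by
  refine ⟨fun h => ?_, fun h => S.Ball_le_of_mem p hc h⟩
  obtain ⟨c', h1, h2⟩ := S.exists_M_eq p hc
  have hne : {c : ℝ | 0 < c ∧ gr p g - 1 ∈ S.M p c}.Nonempty := by
    refine ⟨1, one_pos, ?_⟩
    rw [S.M_eq_sa p le_rfl]
    exact (sa p S.H).sub_mem (gr_mem_sa p hg) (one_mem_sa p S.H)
  have h3 : sInf {c : ℝ | 0 < c ∧ gr p g - 1 ∈ S.M p c} < c' := lt_of_le_of_lt h h1
  obtain ⟨d, hd, hdc⟩ := exists_lt_of_csInf_lt hne h3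
  rw [← h2]
  exact S.M_mono p hdc.le hd.2

theorem Ball_exists_lt : ∃ c : ℝ, 0 < c ∧ c < 1 ∧ ∀ t, S.w t ≤ c := by
  rcases isEmpty_or_nonempty S.T with h | h
  · exact ⟨1 / 2, by norm_num, by norm_num, fun t => h.elim t⟩
  · obtain ⟨t0, ht0⟩ := Finite.exists_max S.w
    exact ⟨S.w t0, S.w_pos t0, S.w_lt t0, ht0⟩

theorem n_lt_one {g : Γ} (hg : g ∈ S.H) : S.n p g < 1 := by
  obtain ⟨c, h0, h1, h2⟩ := S.Ball_exists_lt
  refine lt_of_le_of_lt (S.Ball_le_of_mem p h0 ?_) h1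
  induction hg using Subgroup.closure_induction with
  | mem x hx =>
    obtain ⟨t, rfl⟩ := hx
    exact S.M_mono p (h2 t) (S.v_mem_M p t)
  | one =>
    rw [gr_one, sub_self]
    exact (S.M p c).zero_mem
  | mul x y hx hy h3 h4 => exact S.mul_mem_M' p hx hy h3 h4
  | inv x hx h3 => exact S.inv_mem_M p hx h3

theorem n_v_le (t : S.T) : S.n p (S.v t) ≤ S.w t :=
  S.Ball_le_of_mem p (S.w_pos t) (S.v_mem_M p t)

theorem Ball_le_of_forall {x y : ℝ} (h : ∀ c, 0 < c → y ≤ c → x ≤ c) (hy : 0 ≤ y) : x ≤ y := by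
  refine le_of_forall_pos_le_add fun e he => h (y + e) (by linarith) (by linarith)

theorem n_one : S.n p 1 = 0 := by
  refine le_antisymm (Ball_le_of_forall (fun _ hc _ => S.Ball_le_of_mem p hc ?_) le_rfl)
    (S.n_nonneg p 1)
  rw [gr_one, sub_self]
  exact Submodule.zero_mem _

theorem Ball_inv_le {g : Γ} (hg : g ∈ S.H) : S.n p g⁻¹ ≤ S.n p g :=
  Ball_le_of_forall (fun c hc h => S.Ball_le_of_mem p hc
    (S.inv_mem_M p hg ((S.n_le_iff p hc hg).1 h))) (S.n_nonneg p g)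

theorem n_inv {g : Γ} (hg : g ∈ S.H) : S.n p g⁻¹ = S.n p g := by
  refine le_antisymm (S.Ball_inv_le p hg) ?_
  have h := S.Ball_inv_le p (S.H.inv_mem hg)
  rwa [inv_inv] at h

theorem n_mul_le {g h : Γ} (hg : g ∈ S.H) (hh : h ∈ S.H) :
    S.n p (g * h) ≤ max (S.n p g) (S.n p h) := by
  refine Ball_le_of_forall (fun c hc h1 => ?_) (le_max_of_le_left (S.n_nonneg p g))
  exact S.Ball_le_of_mem p hc (S.mul_mem_M' p hg hh
    ((S.n_le_iff p hc hg).1 ((le_max_left _ _).trans h1))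
    ((S.n_le_iff p hc hh).1 ((le_max_right _ _).trans h1)))

theorem n_comm_le {g h : Γ} (hg : g ∈ S.H) (hh : h ∈ S.H) :
    S.n p (g * h * g⁻¹ * h⁻¹) ≤ S.n p g * S.n p h := by
  have h1 : ∀ e : ℝ, 0 < e →
      S.n p (g * h * g⁻¹ * h⁻¹) ≤ (S.n p g + e) * (S.n p h + e) := by
    intro e he
    have hg0 := S.n_nonneg p g
    have hh0 := S.n_nonneg p h
    have h2 : 0 < S.n p g + e := by linarith
    have h3 : 0 < S.n p h + e := by linarith
    exact S.Ball_le_of_mem p (mul_pos h2 h3) (S.comm_mem_M p hg hh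
      ((S.n_le_iff p h2 hg).1 (by linarith)) ((S.n_le_iff p h3 hh).1 (by linarith)))
  have h2 : Filter.Tendsto (fun e : ℝ => (S.n p g + e) * (S.n p h + e))
      (nhdsWithin 0 (Set.Ioi 0)) (nhds ((S.n p g + 0) * (S.n p h + 0))) := by
    apply Filter.Tendsto.mono_left _ nhdsWithin_le_nhds
    exact Continuous.tendsto (by fun_prop) 0
  rw [add_zero, add_zero] at h2
  exact ge_of_tendsto h2 (by
    filter_upwards [self_mem_nhdsWithin] with e he
    exact h1 e he)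

theorem n_pow_le [Fact p.Prime] {g : Γ} (hg : g ∈ S.H) : S.n p (g ^ p) ≤ S.n p g ^ p := by
  have h1 : ∀ e : ℝ, 0 < e → S.n p (g ^ p) ≤ (S.n p g + e) ^ p := by
    intro e he
    have hg0 := S.n_nonneg p g
    have h2 : 0 < S.n p g + e := by linarith
    exact S.Ball_le_of_mem p (pow_pos h2 p) (S.pow_mem_M p
      ((S.n_le_iff p h2 hg).1 (by linarith)))
  have h2 : Filter.Tendsto (fun e : ℝ => (S.n p g + e) ^ p)
      (nhdsWithin 0 (Set.Ioi 0)) (nhds ((S.n p g + 0) ^ p)) := by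
    apply Filter.Tendsto.mono_left _ nhdsWithin_le_nhds
    exact Continuous.tendsto (by fun_prop) 0
  rw [add_zero] at h2
  exact ge_of_tendsto h2 (by
    filter_upwards [self_mem_nhdsWithin] with e he
    exact h1 e he)

end WSys

end Pool.Agent.TLA
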