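import Pool.Agent.TLA.Filt

/-! Balls. -/

set_option autoImplicit false

namespace Pool.Agent.TLA

variable (p : ℕ) {Γ : Type} [Group Γ]

namespace WSys

variable (S : WSys Γ)

/-- The closed ball of radius `c`. -/
noncomputable def ball (c : ℝ) : Subgroup Γ where
  carrier := {h | h ∈ S.H ∧ gr p h - 1 ∈ S.M p c}
  mul_mem' := fun ha hb => ⟨S.H.mul_mem ha.1 hb.1, S.mul_mem_M' p ha.1 hb.1 ha.2 hb.2⟩
  one_mem' := ⟨S.H.one_mem, by rw [gr_one, sub_self]; exact (S.M p c).zero_mem⟩
  inv_mem' := fun ha => ⟨S.H.inv_mem ha.1, S.inv_mem_M p ha.1 ha.2⟩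

theorem mem_ball {c : ℝ} {h : Γ} : h ∈ S.ball p c ↔ h ∈ S.H ∧ gr p h - 1 ∈ S.M p c := Iff.rfl

theorem ball_le_H (c : ℝ) : S.ball p c ≤ S.H := fun _ h => h.1

theorem ball_mono {c d : ℝ} (h : c ≤ d) : S.ball p c ≤ S.ball p d :=
  fun _ hx => ⟨hx.1, S.M_mono p h hx.2⟩

theorem ball_conj {c : ℝ} {g h : Γ} (hg : g ∈ S.H) (hh : h ∈ S.ball p c) :
    g * h * g⁻¹ ∈ S.ball p c := by
  obtain ⟨h1, h2⟩ := hh
  refine ⟨S.H.mul_mem (S.H.mul_mem hg h1) (S.H.inv_mem hg), ?_⟩
  have h3 : gr p (g * h * g⁻¹) - 1 = gr p g * (gr p h - 1) * gr p g⁻¹ := by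
    have h4 : gr p g * gr p g⁻¹ = 1 := by rw [← gr_mul, mul_inv_cancel, gr_one]
    rw [gr_mul, gr_mul, mul_sub, sub_mul, mul_one, h4]
  rw [h3]
  exact S.M_mul_mem_right p (S.M_mul_mem_left p (gr_mem_sa p hg) h2)
    (gr_mem_sa p (S.H.inv_mem hg))

private theorem ballA_wt_le (l : List (S.T × Bool)) {m : ℝ} (hm : ∀ t, S.w t ≤ m) :
    S.wt l ≤ m ^ l.length := by
  induction l with
  | nil => simp [wt]
  | cons q l ih =>
    have h1 : S.wt (q :: l) = S.w q.1 * S.wt l := by simp [wt]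
    rw [h1, List.length_cons, pow_succ']
    exact mul_le_mul (hm q.1) ih (S.wt_pos l).le ((S.w_pos q.1).le.trans (hm q.1))

/-- Only finitely many words have weight larger than `c`. -/
private theorem ballA_finite {c : ℝ} (hc : 0 < c) :
    {l : List (S.T × Bool) | c < S.wt l}.Finite := by
  classical
  obtain ⟨m, hm0, hm1, hm⟩ : ∃ m : ℝ, 0 ≤ m ∧ m < 1 ∧ ∀ t, S.w t ≤ m := by
    rcases isEmpty_or_nonempty S.T with he | he
    · exact ⟨0, le_refl _, zero_lt_one, fun t => he.elim t⟩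
    · obtain ⟨t0, ht0⟩ := Finite.exists_max S.w
      exact ⟨S.w t0, (S.w_pos t0).le, S.w_lt t0, ht0⟩
  obtain ⟨n, hn⟩ := exists_pow_lt_of_lt_one hc hm1
  refine (List.finite_length_lt (S.T × Bool) n).subset ?_
  intro l hl
  have hl' : c < S.wt l := hl
  show l.length < n
  by_contra hcon
  have h1 : m ^ l.length ≤ m ^ n := pow_le_pow_of_le_one hm0 hm1.le (by omega)
  have h2 := ballA_wt_le S l hm
  linarith

/-- The quotient of the group algebra by `M c` is finite dimensional. -/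
theorem finite_quot [Fact p.Prime] {c : ℝ} (hc : 0 < c) :
    FiniteDimensional (ZMod p)
      ((sa p S.H) ⧸ (Submodule.comap (sa p S.H).subtype (S.M p c))) := by
  classical
  set F : Set (List (S.T × Bool)) := {l | c < S.wt l} with hF
  have hFf : F.Finite := ballA_finite S hc
  have hms : ∀ l : List (S.T × Bool), S.mono p l ∈ sa p S.H := fun l =>
    S.M_le_sa p _ (S.mono_mem p l)
  set W : Submodule (ZMod p) (sa p S.H) :=
    Submodule.span (ZMod p) ((fun l => (⟨S.mono p l, hms l⟩ : sa p S.H)) '' F) with hW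
  have hWf : FiniteDimensional (ZMod p) W :=
    FiniteDimensional.span_of_finite (ZMod p) (hFf.image _)
  set π := (Submodule.comap (sa p S.H).subtype (S.M p c)).mkQ with hπ
  refine Module.Finite.of_surjective (π ∘ₗ W.subtype) ?_
  intro y
  obtain ⟨x, rfl⟩ := Submodule.mkQ_surjective _ y
  have key : ∀ a : Alg p Γ, ∀ (ha : a ∈ S.M p 1),
      ∃ b : W, (a - ((b : sa p S.H) : Alg p Γ)) ∈ S.M p c := by
    intro a ha
    unfold M at ha
    induction ha using Submodule.span_induction with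
    | mem a h =>
      obtain ⟨l, -, rfl⟩ := h
      rcases lt_or_ge c (S.wt l) with h1 | h1
      · refine ⟨⟨⟨S.mono p l, hms l⟩, Submodule.subset_span ⟨l, h1, rfl⟩⟩, ?_⟩
        rw [sub_self]
        exact (S.M p c).zero_mem
      · refine ⟨0, ?_⟩
        rw [Submodule.coe_zero, Submodule.coe_zero, sub_zero]
        exact S.M_mono p h1 (S.mono_mem p l)
    | zero => exact ⟨0, by simp⟩
    | add x y _ _ hx hy =>
      obtain ⟨b1, h1⟩ := hx
      obtain ⟨b2, h2⟩ := hy
      refine ⟨b1 + b2, ?_⟩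
      have h3 := (S.M p c).add_mem h1 h2
      rw [Submodule.coe_add, Submodule.coe_add]
      convert h3 using 1
      abel
    | smul r x _ hx =>
      obtain ⟨b1, h1⟩ := hx
      refine ⟨r • b1, ?_⟩
      have h3 := (S.M p c).smul_mem r h1
      rw [Submodule.coe_smul, Submodule.coe_smul, ← smul_sub]
      exact h3
  obtain ⟨b, hb⟩ := key x (by rw [S.M_eq_sa p le_rfl]; exact x.2)
  refine ⟨b, ?_⟩
  rw [LinearMap.comp_apply, hπ, Submodule.mkQ_apply, Submodule.mkQ_apply, eq_comm,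
    Submodule.Quotient.eq]
  exact hb

private theorem ballA_coset {c : ℝ} {h h' : Γ} (hh : h ∈ S.H) (hh' : h' ∈ S.H)
    (hd : gr p h' - gr p h ∈ S.M p c) : h⁻¹ * h' ∈ S.ball p c := by
  refine ⟨S.H.mul_mem (S.H.inv_mem hh) hh', ?_⟩
  have h3 : gr p (h⁻¹ * h') - 1 = gr p h⁻¹ * (gr p h' - gr p h) := by
    have h4 : gr p h⁻¹ * gr p h = 1 := by rw [← gr_mul, inv_mul_cancel, gr_one]
    rw [gr_mul, mul_sub, h4]
  rw [h3]
  exact S.M_mul_mem_left p (gr_mem_sa p (S.H.inv_mem hh)) hd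

private theorem ballA_coset' {c : ℝ} {h h' : Γ} (hh : h ∈ S.H)
    (hd : h⁻¹ * h' ∈ S.ball p c) : gr p h' - gr p h ∈ S.M p c := by
  obtain ⟨-, h2⟩ := hd
  have h3 : gr p h' - gr p h = gr p h * (gr p (h⁻¹ * h') - 1) := by
    rw [mul_sub, ← gr_mul, mul_inv_cancel_left, mul_one]
  rw [h3]
  exact S.M_mul_mem_left p (gr_mem_sa p hh) h2

private theorem ballA_finite_quot [Fact p.Prime] {c : ℝ} (hc : 0 < c) :
    Finite (S.H ⧸ (S.ball p c).subgroupOf S.H) := by
  classical
  have hfd := S.finite_quot p hc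
  have hfin : Finite ((sa p S.H) ⧸ (Submodule.comap (sa p S.H).subtype (S.M p c))) :=
    Module.finite_of_finite (ZMod p)
  refine Finite.of_injective (fun q : S.H ⧸ (S.ball p c).subgroupOf S.H =>
    (Submodule.comap (sa p S.H).subtype (S.M p c)).mkQ
      ⟨gr p (q.out : Γ), gr_mem_sa p q.out.2⟩) ?_
  intro q q' hqq
  have h1 : (Submodule.comap (sa p S.H).subtype (S.M p c)).mkQ
      ⟨gr p (q'.out : Γ), gr_mem_sa p q'.out.2⟩ =
      (Submodule.comap (sa p S.H).subtype (S.M p c)).mkQ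
      ⟨gr p (q.out : Γ), gr_mem_sa p q.out.2⟩ := hqq.symm
  rw [Submodule.mkQ_apply, Submodule.mkQ_apply, Submodule.Quotient.eq] at h1
  have h2 := ballA_coset p S q.out.2 q'.out.2 h1
  rw [← q.out_eq', ← q'.out_eq', QuotientGroup.eq]
  exact h2

/-- Balls have finite index in `H`. -/
theorem ball_relIndex [Fact p.Prime] {c : ℝ} (hc : 0 < c) : (S.ball p c).relIndex S.H ≠ 0 := by
  have h := ballA_finite_quot p S hc
  exact Subgroup.index_ne_zero_of_finite

/-- The dimension of the quotient. -/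
noncomputable def dimq (c : ℝ) : ℕ :=
  Module.finrank (ZMod p) ((sa p S.H) ⧸ (Submodule.comap (sa p S.H).subtype (S.M p c)))

theorem dimq_anti [Fact p.Prime] {c d : ℝ} (hc : 0 < c) (h : c ≤ d) :
    S.dimq p d ≤ S.dimq p c := by
  have hfd := S.finite_quot p hc
  have hle : Submodule.comap (sa p S.H).subtype (S.M p c) ≤
      Submodule.comap (sa p S.H).subtype (S.M p d) := Submodule.comap_mono (S.M_mono p h)
  exact LinearMap.finrank_le_finrank_of_surjective (f := Submodule.factor hle)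
    (Submodule.factor_surjective hle)

theorem dimq_eq_zero [Fact p.Prime] {c : ℝ} (h : 1 ≤ c) : S.dimq p c = 0 := by
  have h1 : Submodule.comap (sa p S.H).subtype (S.M p c) = ⊤ := by
    rw [S.M_eq_sa p h]
    exact Submodule.comap_subtype_self _
  unfold dimq
  rw [h1]
  have h2 : Subsingleton ((sa p S.H) ⧸ (⊤ : Submodule (ZMod p) (sa p S.H))) :=
    Submodule.Quotient.subsingleton_iff.mpr rfl
  exact Module.finrank_zero_of_subsingleton

theorem dimq_le [Fact p.Prime] {c : ℝ} (hc : 0 < c) :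
    S.dimq p c ≤ (S.ball p c).relIndex S.H := by
  classical
  have hfin := ballA_finite_quot p S hc
  have hft : Fintype (S.H ⧸ (S.ball p c).subgroupOf S.H) := Fintype.ofFinite _
  set Q := Submodule.comap (sa p S.H).subtype (S.M p c) with hQ
  set b : (S.H ⧸ (S.ball p c).subgroupOf S.H) → (sa p S.H) ⧸ Q :=
    fun q => Q.mkQ ⟨gr p (q.out : Γ), gr_mem_sa p q.out.2⟩ with hb
  have hspan : Submodule.span (ZMod p) (Set.range b) = ⊤ := by
    rw [eq_top_iff]
    rintro y -
    obtain ⟨⟨x, hx⟩, rfl⟩ := Submodule.mkQ_surjective _ y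
    have hx' := hx
    unfold sa at hx'
    have key : ∀ a : Alg p Γ, a ∈ Submodule.span (ZMod p) (gr p '' (S.H : Set Γ)) →
        ∀ ha : a ∈ sa p S.H, Q.mkQ ⟨a, ha⟩ ∈ Submodule.span (ZMod p) (Set.range b) := by
      intro a ha
      induction ha using Submodule.span_induction with
      | mem a h =>
        obtain ⟨g, hg, rfl⟩ := h
        intro ha
        have h1 : Q.mkQ ⟨gr p g, ha⟩ = b (QuotientGroup.mk (⟨g, hg⟩ : S.H)) := by
          rw [hb]
          simp only
          rw [Submodule.mkQ_apply, Submodule.mkQ_apply, Submodule.Quotient.eq]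
          have h2 : ((QuotientGroup.mk (⟨g, hg⟩ : S.H) :
              S.H ⧸ (S.ball p c).subgroupOf S.H).out)⁻¹ * (⟨g, hg⟩ : S.H) ∈
              (S.ball p c).subgroupOf S.H := by
            rw [← QuotientGroup.eq]
            exact Quotient.out_eq' _
          exact ballA_coset' p S (Subtype.coe_prop _) h2
        rw [h1]
        exact Submodule.subset_span ⟨_, rfl⟩
      | zero =>
        intro ha
        have h1 : (⟨0, ha⟩ : sa p S.H) = 0 := rfl
        rw [h1, map_zero]
        exact Submodule.zero_mem _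
      | add x y hx hy ihx ihy =>
        intro ha
        have h1 : (⟨x + y, ha⟩ : sa p S.H) = (⟨x, hx⟩ : sa p S.H) + (⟨y, hy⟩ : sa p S.H) := rfl
        rw [h1, map_add]
        exact Submodule.add_mem _ (ihx hx) (ihy hy)
      | smul r x hx ihx =>
        intro ha
        have h1 : (⟨r • x, ha⟩ : sa p S.H) = r • (⟨x, hx⟩ : sa p S.H) := rfl
        rw [h1, map_smul]
        exact Submodule.smul_mem _ _ (ihx hx)
    exact key x hx' hx
  have h1 : Module.finrank (ZMod p) ((sa p S.H) ⧸ Q) = (Set.range b).finrank (ZMod p) := by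
    unfold Set.finrank
    rw [hspan, finrank_top]
  have h2 := finrank_range_le_card (R := ZMod p) b
  have h3 : (S.ball p c).relIndex S.H = Fintype.card (S.H ⧸ (S.ball p c).subgroupOf S.H) := by
    unfold Subgroup.relIndex Subgroup.index
    rw [Nat.card_eq_fintype_card]
  unfold dimq
  rw [h3, ← hQ, h1]
  exact h2

end WSys

end Pool.Agent.TLA
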