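import Pool.Agent.TLA.BallA

/-! Subgroups of p-power index contain balls. -/

set_option autoImplicit false

namespace Pool.Agent.TLA

variable (p : ℕ) {Γ : Type} [Group Γ]

section BallBChain

variable {P : Type} [Group P] {V : Type} [AddCommGroup V] [Module (ZMod p) V]
  (ρ : P →* Module.End (ZMod p) V)

/-- The ascending chain of a representation. -/
private noncomputable def ballB_W : ℕ → Submodule (ZMod p) V
  | 0 => ⊥
  | n + 1 => ⨅ g : P, (ballB_W n).comap (ρ g - 1)

private theorem ballB_mem_succ {n : ℕ} {x : V} :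
    x ∈ ballB_W p ρ (n + 1) ↔ ∀ g : P, (ρ g - 1) x ∈ ballB_W p ρ n := by
  show x ∈ ⨅ g : P, (ballB_W p ρ n).comap (ρ g - 1) ↔ _
  rw [Submodule.mem_iInf]
  rfl

private theorem ballB_inv (n : ℕ) : ∀ (h : P) (x : V), x ∈ ballB_W p ρ n →
    ρ h x ∈ ballB_W p ρ n := by
  induction n with
  | zero =>
    intro h x hx
    have hx' : x = 0 := by simpa [ballB_W] using hx
    subst hx'
    rw [map_zero]
    exact Submodule.zero_mem _
  | succ n ih =>
    intro h x hx
    rw [ballB_mem_succ] at hx ⊢
    intro g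
    have h1 : (ρ g - 1) (ρ h x) = ρ h ((ρ (h⁻¹ * g * h) - 1) x) := by
      have h2 : ρ g (ρ h x) = ρ h (ρ (h⁻¹ * g * h) x) := by
        rw [← Module.End.mul_apply, ← Module.End.mul_apply, ← map_mul, ← map_mul]
        congr 2
        group
      rw [LinearMap.sub_apply, LinearMap.sub_apply, map_sub, h2]
      rfl
    rw [h1]
    exact ih h _ (hx _)

private theorem ballB_le_succ (n : ℕ) : ballB_W p ρ n ≤ ballB_W p ρ (n + 1) := by
  intro x hx
  rw [ballB_mem_succ]
  intro g
  rw [LinearMap.sub_apply]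
  exact Submodule.sub_mem _ (ballB_inv p ρ n g x hx) hx

/-- The action on the quotient. -/
@[instance_reducible]
private noncomputable def ballB_act (n : ℕ) : MulAction P (V ⧸ ballB_W p ρ n) where
  smul g := (ballB_W p ρ n).mapQ (ballB_W p ρ n) (ρ g) (fun x hx => ballB_inv p ρ n g x hx)
  one_smul := by
    intro x
    induction x using Submodule.Quotient.induction_on with
    | H x =>
      show (ballB_W p ρ n).mapQ (ballB_W p ρ n) (ρ 1) _ (Submodule.Quotient.mk x) = _
      rw [Submodule.mapQ_apply, map_one]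
      rfl
  mul_smul := by
    intro g h x
    induction x using Submodule.Quotient.induction_on with
    | H x =>
      show (ballB_W p ρ n).mapQ (ballB_W p ρ n) (ρ (g * h)) _ (Submodule.Quotient.mk x) =
        (ballB_W p ρ n).mapQ (ballB_W p ρ n) (ρ g) _
          ((ballB_W p ρ n).mapQ (ballB_W p ρ n) (ρ h) _ (Submodule.Quotient.mk x))
      rw [Submodule.mapQ_apply, Submodule.mapQ_apply, Submodule.mapQ_apply, map_mul]
      rfl

private theorem ballB_lt [Fact p.Prime] [Finite V] (hP : IsPGroup p P) (n : ℕ)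
    (hn : ballB_W p ρ n ≠ ⊤) : ballB_W p ρ n < ballB_W p ρ (n + 1) := by
  refine lt_of_le_of_ne (ballB_le_succ p ρ n) ?_
  intro heq
  let _ := ballB_act p ρ n
  have hfin : Finite (V ⧸ ballB_W p ρ n) :=
    Finite.of_surjective _ (Submodule.mkQ_surjective (ballB_W p ρ n))
  have hnt : Nontrivial (V ⧸ ballB_W p ρ n) := Submodule.Quotient.nontrivial_iff.2 hn
  have hdvd : p ∣ Nat.card (V ⧸ ballB_W p ρ n) := by
    have _ : Module.Finite (ZMod p) (V ⧸ ballB_W p ρ n) := inferInstance
    have h1 := Module.natCard_eq_pow_finrank (K := ZMod p) (V := V ⧸ ballB_W p ρ n)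
    have h2 : 0 < Module.finrank (ZMod p) (V ⧸ ballB_W p ρ n) := Module.finrank_pos
    rw [h1, Nat.card_zmod]
    exact dvd_pow_self p h2.ne'
  have h0 : (0 : V ⧸ ballB_W p ρ n) ∈ MulAction.fixedPoints P (V ⧸ ballB_W p ρ n) := by
    intro g
    show (ballB_W p ρ n).mapQ (ballB_W p ρ n) (ρ g) _ 0 = 0
    rw [map_zero]
  obtain ⟨q, hq, hq0⟩ := hP.exists_fixed_point_of_prime_dvd_card_of_fixed_point
    (V ⧸ ballB_W p ρ n) hdvd h0
  induction q using Submodule.Quotient.induction_on with
  | H x =>
    have hx : x ∈ ballB_W p ρ (n + 1) := by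
      rw [ballB_mem_succ]
      intro g
      have h1 : (Submodule.Quotient.mk (ρ g x) : V ⧸ ballB_W p ρ n) = Submodule.Quotient.mk x :=
        hq g
      rw [Submodule.Quotient.eq] at h1
      exact h1
    rw [← heq] at hx
    exact hq0 ((Submodule.Quotient.mk_eq_zero _).2 hx).symm

private theorem ballB_top [Fact p.Prime] [Finite V] (hP : IsPGroup p P) :
    ballB_W p ρ (Module.finrank (ZMod p) V) = ⊤ := by
  have key : ∀ n, ballB_W p ρ n = ⊤ ∨ n ≤ Module.finrank (ZMod p) (ballB_W p ρ n) := by
    intro n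
    induction n with
    | zero => exact Or.inr (Nat.zero_le _)
    | succ n ih =>
      by_cases hn : ballB_W p ρ n = ⊤
      · left
        have := ballB_le_succ p ρ n
        rw [hn] at this
        exact top_le_iff.1 this
      · right
        rcases ih with h | h
        · exact absurd h hn
        · have h1 := Submodule.finrank_lt_finrank_of_lt (ballB_lt p ρ hP n hn)
          omega
  rcases key (Module.finrank (ZMod p) V) with h | h
  · exact h
  · exact Submodule.eq_top_of_finrank_eq (le_antisymm (Submodule.finrank_le _) h)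

private theorem ballB_prod (l : List P) : ∀ (m : ℕ) (x : V), x ∈ ballB_W p ρ (l.length + m) →
    (l.map (fun g => ρ g - 1)).prod x ∈ ballB_W p ρ m := by
  induction l with
  | nil =>
    intro m x hx
    simpa using hx
  | cons g l ih =>
    intro m x hx
    rw [List.map_cons, List.prod_cons, Module.End.mul_apply]
    have h1 : x ∈ ballB_W p ρ (l.length + (m + 1)) := by
      have h2 : (g :: l).length + m = l.length + (m + 1) := by
        rw [List.length_cons]
        omega
      rwa [h2] at hx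
    have h3 := ih (m + 1) x h1
    rw [ballB_mem_succ] at h3
    exact h3 g

private theorem ballB_zero [Fact p.Prime] [Finite V] (hP : IsPGroup p P) (l : List P)
    (hl : Module.finrank (ZMod p) V ≤ l.length) : (l.map (fun g => ρ g - 1)).prod = 0 := by
  have mono : ∀ (a b : ℕ), a ≤ b → ballB_W p ρ a ≤ ballB_W p ρ b := by
    intro a b hab
    induction hab with
    | refl => exact le_refl _
    | step _ ih => exact le_trans ih (ballB_le_succ p ρ _)
  refine LinearMap.ext fun x => ?_
  have hx : x ∈ ballB_W p ρ (l.length + 0) := by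
    have h1 := mono _ _ hl
    rw [ballB_top p ρ hP] at h1
    exact h1 Submodule.mem_top
  have h2 := ballB_prod p ρ l 0 x hx
  have h3 : (l.map (fun g => ρ g - 1)).prod x = 0 := by simpa [ballB_W] using h2
  rw [h3]
  rfl

/-- The left regular representation on functions. -/
private noncomputable def ballB_reg (P : Type) [Group P] :
    P →* Module.End (ZMod p) (P → ZMod p) where
  toFun g := LinearMap.funLeft (ZMod p) (ZMod p) (fun x => g⁻¹ * x)
  map_one' := by
    refine LinearMap.ext fun f => funext fun x => ?_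
    show f (1⁻¹ * x) = f x
    rw [inv_one, one_mul]
  map_mul' := by
    intro g h
    refine LinearMap.ext fun f => funext fun x => ?_
    show f ((g * h)⁻¹ * x) = f (h⁻¹ * (g⁻¹ * x))
    rw [mul_inv_rev, mul_assoc]

private theorem ballB_reg_inj [Fact p.Prime] (P : Type) [Group P] {g : P}
    (h : ballB_reg p P g = 1) : g = 1 := by
  classical
  have h1 : ballB_reg p P g (Pi.single 1 1) 1 = (Pi.single 1 1 : P → ZMod p) 1 := by
    rw [h]
    rfl
  have h2 : (Pi.single 1 1 : P → ZMod p) (g⁻¹ * 1) = (Pi.single 1 1 : P → ZMod p) 1 := h1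
  rw [Pi.single_eq_same, mul_one] at h2
  by_contra hg
  rw [Pi.single_eq_of_ne (fun h3 => hg (inv_eq_one.1 h3))] at h2
  exact zero_ne_one h2

end BallBChain

namespace WSys

variable (S : WSys Γ)

/-- Every normal subgroup of `p`-power index contains a ball. -/
theorem exists_ball_le [Fact p.Prime] (U : Subgroup Γ) (hU : U.Normal) (k : ℕ)
    (hk : U.index = p ^ k) : ∃ c : ℝ, 0 < c ∧ S.ball p c ≤ U := by
  have hpos : 0 < p := (Fact.out : p.Prime).pos
  have hcard : Nat.card (Γ ⧸ U) = p ^ k := by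
    rw [← Subgroup.index_eq_card]
    exact hk
  have hfin : Finite (Γ ⧸ U) := by
    refine Nat.finite_of_card_ne_zero ?_
    rw [hcard]
    exact (pow_pos hpos k).ne'
  have hP : IsPGroup p (Γ ⧸ U) := IsPGroup.of_card hcard
  have hV : Finite ((Γ ⧸ U) → ZMod p) := inferInstance
  set m : ℕ := Module.finrank (ZMod p) ((Γ ⧸ U) → ZMod p) with hm
  obtain ⟨w0, hw0, hw1, hw⟩ : ∃ w0 : ℝ, 0 < w0 ∧ w0 < 1 ∧ ∀ t, w0 ≤ S.w t := by
    rcases isEmpty_or_nonempty S.T with hT | hT
    · exact ⟨1 / 2, by norm_num, by norm_num, fun t => (hT.false t).elim⟩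
    · obtain ⟨t0, ht0⟩ := Finite.exists_min S.w
      exact ⟨S.w t0, S.w_pos t0, S.w_lt t0, ht0⟩
  have hwt : ∀ l : List (S.T × Bool), w0 ^ l.length ≤ S.wt l := by
    intro l
    induction l with
    | nil => simp [WSys.wt]
    | cons q l ih =>
      have h1 : S.wt (q :: l) = S.w q.1 * S.wt l := by simp [WSys.wt]
      rw [h1, List.length_cons, pow_succ, mul_comm]
      exact mul_le_mul (hw q.1) ih (pow_nonneg hw0.le _) (S.w_pos q.1).le
  refine ⟨w0 ^ m, pow_pos hw0 m, ?_⟩
  intro h hh
  rw [S.mem_ball] at hh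
  set ρ0 : (Γ ⧸ U) →* Module.End (ZMod p) ((Γ ⧸ U) → ZMod p) := ballB_reg p (Γ ⧸ U) with hρ0
  set ρ1 : Γ →* Module.End (ZMod p) ((Γ ⧸ U) → ZMod p) := ρ0.comp (QuotientGroup.mk' U) with hρ1
  set Φ := MonoidAlgebra.lift (ZMod p) (Module.End (ZMod p) ((Γ ⧸ U) → ZMod p)) Γ ρ1 with hΦ
  have hgr : ∀ g : Γ, Φ (gr p g) = ρ1 g := by
    intro g
    rw [hΦ]
    unfold gr
    rw [MonoidAlgebra.lift_single, one_smul]
  have hletter : ∀ q : S.T × Bool, ∃ g : Γ, Φ (S.letter p q) = ρ1 g - 1 := by
    intro q
    unfold WSys.letter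
    by_cases hq : q.2
    · refine ⟨S.v q.1, ?_⟩
      rw [if_pos hq, map_sub, map_one, hgr]
    · refine ⟨(S.v q.1)⁻¹, ?_⟩
      rw [if_neg hq, map_sub, map_one, hgr]
  choose γ hγ using hletter
  have hmono : ∀ l : List (S.T × Bool), Φ (S.mono p l) =
      ((l.map (fun q => QuotientGroup.mk' U (γ q))).map (fun g => ρ0 g - 1)).prod := by
    intro l
    unfold WSys.mono
    rw [map_list_prod, List.map_map, List.map_map]
    congr 1
    refine List.map_congr_left fun q _ => ?_
    exact hγ q
  have hkill : ∀ a ∈ S.M p (w0 ^ m), Φ a = 0 := by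
    intro a ha
    have hle : S.M p (w0 ^ m) ≤ LinearMap.ker Φ.toLinearMap := by
      refine Submodule.span_le.2 ?_
      rintro _ ⟨l, hl, rfl⟩
      show Φ (S.mono p l) = 0
      rw [hmono l]
      refine ballB_zero p ρ0 hP _ ?_
      rw [List.length_map, ← hm]
      by_contra hlt
      rw [not_le] at hlt
      have h1 : w0 ^ m < w0 ^ l.length := pow_lt_pow_right_of_lt_one₀ hw0 hw1 hlt
      have h2 := hwt l
      linarith
    exact hle ha
  have h3 := hkill _ hh.2
  rw [map_sub, map_one, hgr, sub_eq_zero] at h3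
  have h4 : QuotientGroup.mk' U h = 1 := ballB_reg_inj p (Γ ⧸ U) h3
  exact (QuotientGroup.eq_one_iff h).1 h4

end WSys

end Pool.Agent.TLA
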