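import Pool.Agent.TLA.BernErg

/-! Bernoulli shifts (block D). -/

set_option autoImplicit false

open MeasureTheory Filter

namespace Pool.Agent.TLA

namespace Bern

variable {G Z : Type} [MeasurableSpace Z] (ζ : Measure Z) [IsProbabilityMeasure ζ]

private theorem bernPts_box (F : Finset G) (T : G → Set Z) (hT : ∀ i ∈ F, MeasurableSet (T i)) :
    mu G ζ {x : Bern G Z | ∀ i ∈ F, x i ∈ T i} = ∏ i ∈ F, ζ (T i) := by
  have h1 := Measure.infinitePi_pi (μ := fun _ : G => ζ) (s := F) (t := T) hT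
  exact h1

private theorem bernPts_zero {a c : ENNReal} (hc : c < 1) (h : ∀ n : ℕ, a ≤ c ^ n) : a = 0 := by
  have h1 := ENNReal.tendsto_pow_atTop_nhds_zero_of_lt_one hc
  have h2 : a ≤ 0 := ge_of_tendsto' h1 h
  simpa using h2

/-- Points have measure zero. -/
theorem mu_countable [Infinite G] (h : ∃ t : Set Z, MeasurableSet t ∧ 0 < ζ t ∧ ζ t < 1)
    (s : Set (Bern G Z)) (hs : s.Countable) : mu G ζ s = 0 := by
  classical
  obtain ⟨t, ht, h0, h1⟩ := h
  have hc : ζ tᶜ < 1 := by
    refine lt_of_le_of_ne prob_le_one ?_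
    rw [ne_eq, prob_compl_eq_one_iff ht]
    exact h0.ne'
  have key : ∀ x : Bern G Z, mu G ζ {x} = 0 := by
    intro x
    refine bernPts_zero (c := max (ζ t) (ζ tᶜ)) (max_lt h1 hc) ?_
    intro n
    obtain ⟨F, hF⟩ := Infinite.exists_subset_card_eq G n
    have h3 := bernPts_box ζ F (fun i => if x i ∈ t then t else tᶜ) (by
      intro i _
      by_cases h2 : x i ∈ t
      · rw [if_pos h2]
        exact ht
      · rw [if_neg h2]
        exact ht.compl)
    have h4 : ({x} : Set (Bern G Z)) ⊆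
        {y : Bern G Z | ∀ i ∈ F, y i ∈ (if x i ∈ t then t else tᶜ)} := by
      intro y hy i _
      rw [Set.mem_singleton_iff] at hy
      subst hy
      split_ifs with h5
      · exact h5
      · exact h5
    calc mu G ζ {x} ≤ _ := measure_mono h4
      _ = ∏ i ∈ F, ζ (if x i ∈ t then t else tᶜ) := h3
      _ ≤ ∏ _i ∈ F, max (ζ t) (ζ tᶜ) := by
        refine Finset.prod_le_prod' ?_
        intro i _
        split_ifs
        · exact le_max_left _ _
        · exact le_max_right _ _
      _ = (max (ζ t) (ζ tᶜ)) ^ n := by rw [Finset.prod_const, hF]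
  have h5 : s = ⋃ x ∈ s, {x} := by simp
  rw [h5, measure_biUnion_null_iff hs]
  intro x _
  exact key x

private theorem bernPts_pairs [Group G] [Infinite G] {g : G} (hg : g ≠ 1) (n : ℕ) :
    ∃ S : Finset G, S.card = n ∧ ∀ a ∈ S, ∀ b ∈ S, g⁻¹ * a ≠ b := by
  classical
  induction n with
  | zero => exact ⟨∅, rfl, by simp⟩
  | succ n ih =>
    obtain ⟨S, hS, hd⟩ := ih
    obtain ⟨k, hk⟩ := Infinite.exists_notMem_finset
      (S ∪ S.image (fun a => g * a) ∪ S.image (fun a => g⁻¹ * a))
    simp only [Finset.mem_union, Finset.mem_image, not_or, not_exists, not_and] at hk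
    obtain ⟨⟨hk1, hk2⟩, hk3⟩ := hk
    refine ⟨insert k S, by rw [Finset.card_insert_of_notMem hk1, hS], ?_⟩
    intro a ha b hb hab
    rw [Finset.mem_insert] at ha hb
    rcases ha with rfl | ha <;> rcases hb with rfl | hb
    · apply hg
      have h1 : g⁻¹ * b * b⁻¹ = b * b⁻¹ := by rw [hab]
      rw [mul_inv_cancel_right, mul_inv_cancel] at h1
      exact inv_eq_one.1 h1
    · apply hk2 b hb
      rw [← hab, mul_inv_cancel_left]
    · exact hk3 a ha hab
    · exact hd a ha b hb hab

private theorem bernPts_fix [Group G] [Infinite G]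
    (h : ∃ t : Set Z, MeasurableSet t ∧ 0 < ζ t ∧ ζ t < 1) {g : G} (hg : g ≠ 1) :
    mu G ζ {x : Bern G Z | g • x = x} = 0 := by
  classical
  obtain ⟨t, ht, h0, h1⟩ := h
  have hc : ζ tᶜ < 1 := by
    refine lt_of_le_of_ne prob_le_one ?_
    rw [ne_eq, prob_compl_eq_one_iff ht]
    exact h0.ne'
  have hsum : ζ t + ζ tᶜ = 1 := prob_add_prob_compl ht
  have hlt : ζ t ^ 2 + ζ tᶜ ^ 2 < 1 := by
    have h2 : ζ t ^ 2 < ζ t := by
      rw [pow_two]
      calc ζ t * ζ t < ζ t * 1 := by
            rw [ENNReal.mul_lt_mul_iff_right h0.ne' (measure_ne_top ζ t)]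
            exact h1
        _ = ζ t := mul_one _
    have h3 : ζ tᶜ ^ 2 ≤ ζ tᶜ := by
      rw [pow_two]
      calc ζ tᶜ * ζ tᶜ ≤ ζ tᶜ * 1 := by gcongr
        _ = ζ tᶜ := mul_one _
    calc ζ t ^ 2 + ζ tᶜ ^ 2 < ζ t + ζ tᶜ := by
          refine ENNReal.add_lt_add_of_lt_of_le ?_ h2 h3
          exact (lt_of_le_of_lt h3 (lt_trans hc ENNReal.one_lt_top)).ne
      _ = 1 := hsum
  refine bernPts_zero hlt ?_
  intro n
  obtain ⟨S, hS, hd⟩ := bernPts_pairs hg n
  let S' : Finset G := S.image (fun a => g⁻¹ * a)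
  have hdis : Disjoint S S' := by
    rw [Finset.disjoint_left]
    intro b hb hb'
    obtain ⟨a, ha, hab⟩ := Finset.mem_image.1 hb'
    exact hd a ha b hb hab
  let T : Finset G → G → Set Z := fun U k => if k ∈ U ∨ g * k ∈ U then t else tᶜ
  have hT : ∀ U k, MeasurableSet (T U k) := by
    intro U k
    simp only [T]
    split_ifs
    · exact ht
    · exact ht.compl
  have hcov : {x : Bern G Z | g • x = x} ⊆
      ⋃ U ∈ S.powerset, {x : Bern G Z | ∀ i ∈ S ∪ S', x i ∈ T U i} := by
    intro x hx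
    have hx' : g • x = x := hx
    rw [Set.mem_iUnion₂]
    refine ⟨S.filter (fun k => x k ∈ t), by simp, ?_⟩
    intro i hi
    have hgi : x i = x (g * i) := by
      have h2 : (g • x) (g * i) = x (g * i) := by rw [hx']
      rw [smul_apply, inv_mul_cancel_left] at h2
      exact h2
    simp only [T]
    split_ifs with h2
    · rcases h2 with h2 | h2
      · exact (Finset.mem_filter.1 h2).2
      · rw [hgi]
        exact (Finset.mem_filter.1 h2).2
    · intro h3
      apply h2
      rcases Finset.mem_union.1 hi with h4 | h4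
      · left
        exact Finset.mem_filter.2 ⟨h4, h3⟩
      · right
        obtain ⟨a, ha, hab⟩ := Finset.mem_image.1 h4
        have h5 : g * i = a := by rw [← hab, mul_inv_cancel_left]
        refine Finset.mem_filter.2 ⟨by rw [h5]; exact ha, ?_⟩
        rw [← hgi]
        exact h3
  have hmeas : ∀ U ∈ S.powerset, mu G ζ {x : Bern G Z | ∀ i ∈ S ∪ S', x i ∈ T U i} =
      (ζ t ^ 2) ^ U.card * (ζ tᶜ ^ 2) ^ (S.card - U.card) := by
    intro U hU
    have hU' : U ⊆ S := Finset.mem_powerset.1 hU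
    rw [bernPts_box ζ (S ∪ S') (T U) (fun i _ => hT U i), Finset.prod_union hdis]
    have h2 : ∏ i ∈ S', ζ (T U i) = ∏ i ∈ S, ζ (T U (g⁻¹ * i)) := by
      refine Finset.prod_image ?_
      intro a _ b _ hab
      exact mul_left_cancel hab
    have h3 : ∀ i ∈ S, ζ (T U i) = if i ∈ U then ζ t else ζ tᶜ := by
      intro i hi
      have h4 : ¬ g * i ∈ U := by
        intro h5
        apply hd (g * i) (hU' h5) i hi
        rw [inv_mul_cancel_left]
      simp only [T]
      by_cases h5 : i ∈ U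
      · rw [if_pos (Or.inl h5), if_pos h5]
      · rw [if_neg (by tauto), if_neg h5]
    have h4 : ∀ i ∈ S, ζ (T U (g⁻¹ * i)) = if i ∈ U then ζ t else ζ tᶜ := by
      intro i hi
      have h4 : ¬ g⁻¹ * i ∈ U := by
        intro h5
        exact hd i hi (g⁻¹ * i) (hU' h5) rfl
      simp only [T, mul_inv_cancel_left]
      by_cases h5 : i ∈ U
      · rw [if_pos (Or.inr h5), if_pos h5]
      · rw [if_neg (by tauto), if_neg h5]
    rw [h2, Finset.prod_congr rfl h3, Finset.prod_congr rfl h4, Finset.prod_ite,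
      Finset.prod_const, Finset.prod_const]
    have h5 : (S.filter (fun i => i ∈ U)) = U := by
      ext i
      simp only [Finset.mem_filter]
      exact ⟨fun h => h.2, fun h => ⟨hU' h, h⟩⟩
    have h6 : (S.filter (fun i => ¬ i ∈ U)).card = S.card - U.card := by
      have h7 : (S.filter (fun i => ¬ i ∈ U)) = S \ U := by
        ext i
        simp
      rw [h7, Finset.card_sdiff_of_subset hU']
    rw [h5, h6, pow_two, pow_two, mul_pow, mul_pow]
    ring
  calc mu G ζ {x : Bern G Z | g • x = x} ≤ _ := measure_mono hcov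
    _ ≤ ∑ U ∈ S.powerset, mu G ζ {x : Bern G Z | ∀ i ∈ S ∪ S', x i ∈ T U i} :=
        measure_biUnion_finset_le _ _
    _ = ∑ U ∈ S.powerset, (ζ t ^ 2) ^ U.card * (ζ tᶜ ^ 2) ^ (S.card - U.card) :=
        Finset.sum_congr rfl hmeas
    _ = (ζ t ^ 2 + ζ tᶜ ^ 2) ^ n := by rw [Finset.sum_pow_mul_eq_add_pow, hS]

/-- Almost all points have a trivial stabilizer, in particular an infinite orbit. -/
theorem ae_infinite_orbit [Group G] [Infinite G] [Countable G]
    (h : ∃ t : Set Z, MeasurableSet t ∧ 0 < ζ t ∧ ζ t < 1) :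
    ∀ᵐ x ∂(mu G ζ), (MulAction.orbit G x).Infinite := by
  have h1 : ∀ᵐ x ∂(mu G ζ), ∀ g : G, g ≠ 1 → g • x ≠ x := by
    rw [ae_all_iff]
    intro g
    by_cases hg : g = 1
    · refine Eventually.of_forall ?_
      intro x h2
      exact absurd hg h2
    · have h2 := bernPts_fix ζ h hg
      have h3 : ∀ᵐ x ∂(mu G ζ), ¬ (g • x = x) := by
        rw [ae_iff]
        simpa using h2
      filter_upwards [h3] with x hx _ using hx
  filter_upwards [h1] with x hx
  refine Set.infinite_of_injective_forall_mem (f := fun g : G => g • x) ?_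
    (fun g => MulAction.mem_orbit x g)
  intro a b hab
  by_contra hne
  have h2 : b⁻¹ * a ≠ 1 := by
    intro h3
    apply hne
    have h4 : b * (b⁻¹ * a) = b * 1 := by rw [h3]
    rwa [mul_inv_cancel_left, mul_one] at h4
  apply hx _ h2
  rw [mul_smul]
  have h3 : a • x = b • x := hab
  rw [h3, inv_smul_smul]

end Bern

end Pool.Agent.TLA
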