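import Mathlib

/-! Bernoulli shifts (block D). -/

set_option autoImplicit false

open MeasureTheory Filter

namespace Pool.Agent.TLA

/-- The space of functions from `G` to `Z`, with the shift action. -/
def Bern (G Z : Type) : Type := G → Z

namespace Bern

variable {G Z : Type}

instance [MeasurableSpace Z] : MeasurableSpace (Bern G Z) := inferInstanceAs (MeasurableSpace (G → Z))

instance [Countable G] [MeasurableSpace Z] [StandardBorelSpace Z] :
    StandardBorelSpace (Bern G Z) := inferInstanceAs (StandardBorelSpace (G → Z))

instance [Group G] : MulAction G (Bern G Z) where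
  smul g x := fun h => x (g⁻¹ * h)
  one_smul x := funext fun h => show x (1⁻¹ * h) = x h by simp
  mul_smul g k x := funext fun h => show x ((g * k)⁻¹ * h) = x (k⁻¹ * (g⁻¹ * h)) by
    rw [mul_inv_rev, mul_assoc]

theorem smul_apply [Group G] (g : G) (x : Bern G Z) (h : G) : (g • x) h = x (g⁻¹ * h) := rfl

/-- The product measure. -/
noncomputable def mu (G : Type) {Z : Type} [MeasurableSpace Z] (ζ : Measure Z) :
    Measure (Bern G Z) := Measure.infinitePi (fun _ : G => ζ)

variable [MeasurableSpace Z] (ζ : Measure Z) [IsProbabilityMeasure ζ]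

instance : IsProbabilityMeasure (mu G ζ) :=
  inferInstanceAs (IsProbabilityMeasure (Measure.infinitePi (fun _ : G => ζ)))

instance [Group G] : MeasurableConstSMul G (Bern G Z) where
  measurable_const_smul g := measurable_pi_lambda _ fun h =>
    (measurable_pi_apply (g⁻¹ * h) : Measurable fun x : G → Z => x (g⁻¹ * h))

private theorem BernDefs_map [Group G] (g : G) :
    (Measure.infinitePi (fun _ : G => ζ)).map (fun (x : G → Z) (h : G) => x (g⁻¹ * h)) =
      Measure.infinitePi (fun _ : G => ζ) := by
  have hm : Measurable (fun (x : G → Z) (h : G) => x (g⁻¹ * h)) :=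
    measurable_pi_lambda _ fun h => measurable_pi_apply (g⁻¹ * h)
  refine Measure.eq_infinitePi (μ := fun _ : G => ζ) ?_
  intro s t ht
  classical
  have hms : MeasurableSet (Set.pi (s : Set G) t) :=
    MeasurableSet.pi s.countable_toSet fun i _ => ht i
  rw [Measure.map_apply hm hms]
  have h2 : (fun (x : G → Z) (h : G) => x (g⁻¹ * h)) ⁻¹' (Set.pi (s : Set G) t) =
      Set.pi ((s.image fun h => g⁻¹ * h : Finset G) : Set G) (fun h => t (g * h)) := by
    ext x
    simp only [Set.mem_preimage, Set.mem_pi, Finset.coe_image, Set.mem_image, Finset.mem_coe,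
      forall_exists_index, and_imp, forall_apply_eq_imp_iff₂]
    exact forall₂_congr fun i _ => by rw [show g * (g⁻¹ * i) = i by group]
  rw [h2, Measure.infinitePi_pi _ (fun i _ => ht _)]
  rw [Finset.prod_image (fun a _ b _ hab => mul_left_cancel hab)]
  exact Finset.prod_congr rfl fun i _ => by rw [show g * (g⁻¹ * i) = i by group]

instance [Group G] : SMulInvariantMeasure G (Bern G Z) (mu G ζ) where
  measure_preimage_smul g s hs := by
    have hm : Measurable (fun (x : G → Z) (h : G) => x (g⁻¹ * h)) :=
      measurable_pi_lambda _ fun h => measurable_pi_apply (g⁻¹ * h)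
    have h1 := congrArg (fun m : Measure (G → Z) => m s) (BernDefs_map ζ g)
    simp only at h1
    rw [Measure.map_apply hm hs] at h1
    exact h1

/-- Product of base spaces. -/
def pairMap {Z' : Type} (x : Bern G (Z × Z')) : Bern G Z × Bern G Z' :=
  (fun h => (x h).1, fun h => (x h).2)

theorem pairMap_smul [Group G] {Z' : Type} (g : G) (x : Bern G (Z × Z')) :
    pairMap (g • x) = g • pairMap x := rfl

end Bern

end Pool.Agent.TLA
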