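import Pool.Agent.TLA.BernDefs

/-! Bernoulli shifts (block D). -/

set_option autoImplicit false

open MeasureTheory Filter

namespace Pool.Agent.TLA

namespace Bern

variable {G Z : Type} [MeasurableSpace Z] (ζ : Measure Z) [IsProbabilityMeasure ζ]

/-- Cylinder approximation: every measurable set is close to a set depending on finitely many
coordinates. -/
theorem exists_cylinder (s : Set (Bern G Z)) (hs : MeasurableSet s) (ε : ℝ) (hε : 0 < ε) :
    ∃ (F : Finset G) (t : Set (F → Z)), MeasurableSet t ∧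
      (mu G ζ).real (symmDiff s ((fun (x : Bern G Z) (i : F) => x i) ⁻¹' t)) < ε := by
  obtain ⟨c, hc, hlt⟩ := exists_measure_symmDiff_lt_of_generateFrom_isSetRing
    (μ := Measure.infinitePi (fun _ : G => ζ)) (C := measurableCylinders (fun _ : G => Z))
    isSetRing_measurableCylinders
    ⟨{Set.univ}, Set.countable_singleton _, by
      rw [Set.singleton_subset_iff]; exact univ_mem_measurableCylinders _, by simp⟩
    generateFrom_measurableCylinders.symm hs (ε := ENNReal.ofReal ε) (by simpa using hε)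
  rw [mem_measurableCylinders] at hc
  obtain ⟨F, t, ht, rfl⟩ := hc
  refine ⟨F, t, ht, ?_⟩
  rw [symmDiff_comm]
  exact ENNReal.toReal_lt_of_lt_ofReal hlt

private theorem bernErg_indep [Group G] (F F' : Finset G) (hd : Disjoint F F')
    (t : Set (F → Z)) (ht : MeasurableSet t) (t' : Set (F' → Z)) (ht' : MeasurableSet t') :
    (mu G ζ).real (((fun (x : Bern G Z) (i : F) => x i) ⁻¹' t) ∩
      ((fun (x : Bern G Z) (i : F') => x i) ⁻¹' t')) =
    (mu G ζ).real ((fun (x : Bern G Z) (i : F) => x i) ⁻¹' t) *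
      (mu G ζ).real ((fun (x : Bern G Z) (i : F') => x i) ⁻¹' t') := by
  have h0 : ProbabilityTheory.iIndepFun (fun (i : G) (x : G → Z) => x i)
      (Measure.infinitePi (fun _ : G => ζ)) :=
    ProbabilityTheory.iIndepFun_infinitePi (P := fun _ : G => ζ) (X := fun _ z => z)
      (fun _ => measurable_id)
  have h1 := h0.indepFun_finset F F' hd (fun i => measurable_pi_apply i)
  have h2 := h1.measure_inter_preimage_eq_mul t t' ht ht'
  have h3 := congrArg ENNReal.toReal h2
  rw [ENNReal.toReal_mul] at h3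
  exact h3

/-- Mixing: a measurable set which is almost invariant under infinitely many group elements is
null or conull. -/
theorem zero_one [Group G] (s : Set (Bern G Z)) (hs : MeasurableSet s) (Λ : Set G)
    (hΛ : Λ.Infinite) (hinv : ∀ g ∈ Λ, (g • ·) ⁻¹' s =ᵐ[mu G ζ] s) :
    mu G ζ s = 0 ∨ mu G ζ sᶜ = 0 := by
  classical
  have key : ∀ ε : ℝ, 0 < ε → |(mu G ζ).real s - (mu G ζ).real s ^ 2| ≤ 4 * ε := by
    intro ε hε
    obtain ⟨F, t, ht, hlt⟩ := exists_cylinder ζ s hs ε hε
    set A : Set (Bern G Z) := (fun (x : Bern G Z) (i : F) => x i) ⁻¹' t with hA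
    have hAm : MeasurableSet A := by
      have : Measurable (fun (x : Bern G Z) (i : F) => x i) :=
        measurable_pi_lambda _ fun i => (measurable_pi_apply (i : G) :
          Measurable fun x : G → Z => x i)
      exact this ht
    -- choose g
    have hfin : (Set.image2 (fun i j : G => i * j⁻¹) (F : Set G) (F : Set G)).Finite :=
      Set.Finite.image2 _ F.finite_toSet F.finite_toSet
    obtain ⟨g, hgΛ, hg⟩ := (hΛ.sdiff hfin).nonempty
    set F' : Finset G := F.image (fun i => g⁻¹ * i) with hF'
    have hd : Disjoint F F' := by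
      rw [Finset.disjoint_left]
      intro j hj hj'
      rw [hF', Finset.mem_image] at hj'
      obtain ⟨i, hi, hij⟩ := hj'
      apply hg
      refine ⟨i, hi, j, hj, ?_⟩
      show i * j⁻¹ = g
      rw [← hij]; group
    have hmem : ∀ i : F, g⁻¹ * (i : G) ∈ F' := fun i => Finset.mem_image_of_mem _ i.2
    set t' : Set (F' → Z) := (fun (y : F' → Z) (i : F) => y ⟨g⁻¹ * i, hmem i⟩) ⁻¹' t with ht'
    have ht'm : MeasurableSet t' := by
      have : Measurable (fun (y : F' → Z) (i : F) => y ⟨g⁻¹ * i, hmem i⟩) :=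
        measurable_pi_lambda _ fun i => measurable_pi_apply _
      exact this ht
    have hB : ((g • ·) ⁻¹' A : Set (Bern G Z)) = (fun (x : Bern G Z) (i : F') => x i) ⁻¹' t' := by
      rfl
    have hmp : MeasurePreserving (g • · : Bern G Z → Bern G Z) (mu G ζ) (mu G ζ) :=
      measurePreserving_smul g (mu G ζ)
    have hPB : (mu G ζ).real ((g • ·) ⁻¹' A) = (mu G ζ).real A :=
      hmp.measureReal_preimage hAm.nullMeasurableSet
    have hind : (mu G ζ).real (A ∩ ((g • ·) ⁻¹' A)) = (mu G ζ).real A * (mu G ζ).real A := by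
      have h1 := bernErg_indep ζ F F' hd t ht t' ht'm
      rw [← hB, ← hA, hPB] at h1
      exact h1
    have hBm : MeasurableSet ((g • ·) ⁻¹' A : Set (Bern G Z)) := hmp.measurable hAm
    have hSB : (mu G ζ).real (symmDiff s ((g • ·) ⁻¹' A)) < ε := by
      have e1 : (symmDiff s ((g • ·) ⁻¹' A) : Set (Bern G Z)) =ᵐ[mu G ζ]
          symmDiff ((g • ·) ⁻¹' s) ((g • ·) ⁻¹' A) :=
        (hinv g hgΛ).symm.symmDiff (ae_eq_refl _)
      have e2 : symmDiff ((g • ·) ⁻¹' s) ((g • ·) ⁻¹' A) =
          (g • · : Bern G Z → Bern G Z) ⁻¹' (symmDiff s A) := by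
        ext x; simp [Set.mem_symmDiff]
      exact lt_of_eq_of_lt ((measureReal_congr e1).trans ((congrArg (mu G ζ).real e2).trans
        (hmp.measureReal_preimage (hs.symmDiff hAm).nullMeasurableSet))) hlt
    have hSI : |(mu G ζ).real s - (mu G ζ).real (A ∩ ((g • ·) ⁻¹' A))| ≤ 2 * ε := by
      refine (abs_measureReal_sub_le_measureReal_symmDiff hs.nullMeasurableSet
        (hAm.inter hBm).nullMeasurableSet).trans ?_
      have hsub : symmDiff s (A ∩ ((g • ·) ⁻¹' A)) ⊆
          symmDiff s A ∪ symmDiff s ((g • ·) ⁻¹' A) := by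
        intro x hx
        simp only [Set.mem_symmDiff, Set.mem_inter_iff, Set.mem_union] at hx ⊢
        tauto
      refine (measureReal_mono hsub).trans ((measureReal_union_le _ _).trans ?_)
      linarith
    have hSA : |(mu G ζ).real s - (mu G ζ).real A| ≤ ε :=
      (abs_measureReal_sub_le_measureReal_symmDiff hs.nullMeasurableSet
        hAm.nullMeasurableSet).trans hlt.le
    rw [hind] at hSI
    have hs0 : 0 ≤ (mu G ζ).real s := measureReal_nonneg
    have hs1 : (mu G ζ).real s ≤ 1 := measureReal_le_one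
    have hA0 : 0 ≤ (mu G ζ).real A := measureReal_nonneg
    have hA1 : (mu G ζ).real A ≤ 1 := measureReal_le_one
    have h3 : |(mu G ζ).real A * (mu G ζ).real A - (mu G ζ).real s ^ 2| ≤ 2 * ε := by
      have e : (mu G ζ).real A * (mu G ζ).real A - (mu G ζ).real s ^ 2 =
          -((mu G ζ).real s - (mu G ζ).real A) * ((mu G ζ).real s + (mu G ζ).real A) := by ring
      rw [e, abs_mul, abs_neg]
      have h5 : |(mu G ζ).real s + (mu G ζ).real A| ≤ 2 := by
        rw [abs_of_nonneg (by positivity)]; linarith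
      calc _ ≤ ε * 2 := mul_le_mul hSA h5 (abs_nonneg _) hε.le
        _ = 2 * ε := by ring
    calc |(mu G ζ).real s - (mu G ζ).real s ^ 2|
        = |((mu G ζ).real s - (mu G ζ).real A * (mu G ζ).real A) +
            ((mu G ζ).real A * (mu G ζ).real A - (mu G ζ).real s ^ 2)| := by congr 1; ring
      _ ≤ _ := abs_add_le _ _
      _ ≤ 4 * ε := by linarith
  have h0 : (mu G ζ).real s - (mu G ζ).real s ^ 2 = 0 := by
    by_contra hne
    have hpos : 0 < |(mu G ζ).real s - (mu G ζ).real s ^ 2| := abs_pos.mpr hne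
    have := key (|(mu G ζ).real s - (mu G ζ).real s ^ 2| / 8) (by positivity)
    linarith
  have h1 : (mu G ζ).real s * (1 - (mu G ζ).real s) = 0 := by linear_combination h0
  rcases mul_eq_zero.mp h1 with h2 | h2
  · left
    exact (measureReal_eq_zero_iff).mp h2
  · right
    rw [prob_compl_eq_zero_iff hs]
    have h3 : (mu G ζ).real s = 1 := by linarith
    rw [← ENNReal.toReal_eq_one_iff]
    exact h3

/-- Bernoulli shifts of infinite groups are ergodic. -/
theorem ergodic [Group G] [Infinite G] : ErgodicSMul G (Bern G Z) (mu G ζ) := by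
  refine { aeconst_of_forall_preimage_smul_ae_eq := ?_ }
  intro s hs hinv
  rw [eventuallyConst_set']
  rcases zero_one ζ s hs Set.univ Set.infinite_univ (fun g _ => hinv g) with h | h
  · left
    exact ae_eq_empty.mpr h
  · right
    exact ae_eq_univ.mpr h

end Bern

end Pool.Agent.TLA
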