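import Pool.Agent.TLA.BernErg

/-! Bernoulli shifts (block D). -/

set_option autoImplicit false

open MeasureTheory Filter

namespace Pool.Agent.TLA

namespace Bern

variable {G Z : Type} [MeasurableSpace Z] (ζ : Measure Z) [IsProbabilityMeasure ζ]

private theorem BernProd_meas {Z' : Type} [MeasurableSpace Z'] :
    Measurable (pairMap (G := G) (Z := Z) (Z' := Z')) :=
  Measurable.prodMk
    (measurable_pi_lambda _ fun h => measurable_fst.comp
      (measurable_pi_apply h : Measurable fun x : G → Z × Z' => x h))
    (measurable_pi_lambda _ fun h => measurable_snd.comp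
      (measurable_pi_apply h : Measurable fun x : G → Z × Z' => x h))

private noncomputable def BernProd_span {Y : Type} [MeasurableSpace Y]
    (μ : Measure (G → Y)) [IsProbabilityMeasure μ] :
    μ.FiniteSpanningSetsIn (squareCylinders fun _ : G => {s : Set Y | MeasurableSet s}) where
  set := fun _ => Set.univ
  set_mem := fun _ => ⟨∅, fun _ => Set.univ, fun _ _ => MeasurableSet.univ, by simp⟩
  finite := fun _ => measure_lt_top μ _
  spanning := Set.iUnion_const _

theorem measurePreserving_pairMap {Z' : Type} [MeasurableSpace Z'] (ζ' : Measure Z')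
    [IsProbabilityMeasure ζ'] :
    MeasurePreserving (pairMap (G := G) (Z := Z) (Z' := Z')) (mu G (ζ.prod ζ'))
      ((mu G ζ).prod (mu G ζ')) := by
  classical
  refine ⟨BernProd_meas, ?_⟩
  symm
  have hp1 : IsProbabilityMeasure (Measure.infinitePi (fun _ : G => ζ)) := inferInstance
  have hp2 : IsProbabilityMeasure (Measure.infinitePi (fun _ : G => ζ')) := inferInstance
  refine Measure.prod_eq_generateFrom (α := G → Z) (β := G → Z')
    (μ := Measure.infinitePi (fun _ : G => ζ)) (ν := Measure.infinitePi (fun _ : G => ζ'))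
    (C := squareCylinders fun _ : G => {s : Set Z | MeasurableSet s})
    (D := squareCylinders fun _ : G => {s : Set Z' | MeasurableSet s})
    generateFrom_squareCylinders generateFrom_squareCylinders
    (isPiSystem_squareCylinders (fun _ => MeasurableSpace.isPiSystem_measurableSet)
      (fun _ => MeasurableSet.univ))
    (isPiSystem_squareCylinders (fun _ => MeasurableSpace.isPiSystem_measurableSet)
      (fun _ => MeasurableSet.univ))
    (BernProd_span _) (BernProd_span _) ?_
  rintro _ ⟨s, t, ht, rfl⟩ _ ⟨s', t', ht', rfl⟩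
  have ht1 : ∀ i, MeasurableSet (t i) := fun i => ht i (Set.mem_univ i)
  have ht2 : ∀ i, MeasurableSet (t' i) := fun i => ht' i (Set.mem_univ i)
  have hms : MeasurableSet ((s : Set G).pi t) := MeasurableSet.pi s.countable_toSet fun i _ => ht1 i
  have hms' : MeasurableSet ((s' : Set G).pi t') :=
    MeasurableSet.pi s'.countable_toSet fun i _ => ht2 i
  have h1 : (mu G (ζ.prod ζ')).map pairMap ((s : Set G).pi t ×ˢ (s' : Set G).pi t') =
      mu G (ζ.prod ζ') (pairMap ⁻¹' ((s : Set G).pi t ×ˢ (s' : Set G).pi t')) :=
    Measure.map_apply BernProd_meas (hms.prod hms')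
  refine h1.trans ?_
  let u : G → Set (Z × Z') := fun i =>
    (if i ∈ s then t i else Set.univ) ×ˢ (if i ∈ s' then t' i else Set.univ)
  have hu : ∀ i ∈ s ∪ s', MeasurableSet (u i) := by
    intro i _
    refine MeasurableSet.prod ?_ ?_
    · split_ifs
      · exact ht1 i
      · exact MeasurableSet.univ
    · split_ifs
      · exact ht2 i
      · exact MeasurableSet.univ
  have h2 : (pairMap ⁻¹' ((s : Set G).pi t ×ˢ (s' : Set G).pi t') : Set (G → Z × Z')) =
      ((s ∪ s' : Finset G) : Set G).pi u := by
    ext x
    constructor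
    · rintro ⟨hx1, hx2⟩ i _
      refine ⟨?_, ?_⟩
      · show (x i).1 ∈ (if i ∈ s then t i else Set.univ)
        split_ifs with h
        · exact hx1 i h
        · exact Set.mem_univ _
      · show (x i).2 ∈ (if i ∈ s' then t' i else Set.univ)
        split_ifs with h
        · exact hx2 i h
        · exact Set.mem_univ _
    · intro hx
      refine ⟨fun i hi => ?_, fun i hi => ?_⟩
      · have hi' : i ∈ s := hi
        have h3 : (x i).1 ∈ (if i ∈ s then t i else Set.univ) :=
          (hx i (Finset.mem_coe.2 (Finset.mem_union_left _ hi'))).1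
        rw [if_pos hi'] at h3
        exact h3
      · have hi' : i ∈ s' := hi
        have h3 : (x i).2 ∈ (if i ∈ s' then t' i else Set.univ) :=
          (hx i (Finset.mem_coe.2 (Finset.mem_union_right _ hi'))).2
        rw [if_pos hi'] at h3
        exact h3
  have h3 : mu G (ζ.prod ζ') (pairMap ⁻¹' ((s : Set G).pi t ×ˢ (s' : Set G).pi t')) =
      ∏ i ∈ s ∪ s', (ζ.prod ζ') (u i) := by
    have h4 := Measure.infinitePi_pi (μ := fun _ : G => ζ.prod ζ') (s := s ∪ s') (t := u) hu
    rw [← h2] at h4
    exact h4
  have h6 : Measure.infinitePi (fun _ : G => ζ) ((s : Set G).pi t) = ∏ i ∈ s, ζ (t i) :=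
    Measure.infinitePi_pi (μ := fun _ : G => ζ) (fun i _ => ht1 i)
  have h7 : Measure.infinitePi (fun _ : G => ζ') ((s' : Set G).pi t') = ∏ i ∈ s', ζ' (t' i) :=
    Measure.infinitePi_pi (μ := fun _ : G => ζ') (fun i _ => ht2 i)
  rw [h3, h6, h7]
  have h5 : ∀ i, (ζ.prod ζ') (u i) = (if i ∈ s then ζ (t i) else 1) *
      (if i ∈ s' then ζ' (t' i) else 1) := by
    intro i
    show (ζ.prod ζ') ((if i ∈ s then t i else Set.univ) ×ˢ
      (if i ∈ s' then t' i else Set.univ)) = _
    rw [Measure.prod_prod]
    congr 1
    · split_ifs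
      · rfl
      · exact measure_univ
    · split_ifs
      · rfl
      · exact measure_univ
  rw [Finset.prod_congr rfl fun i _ => h5 i, Finset.prod_mul_distrib]
  congr 1
  · rw [Finset.prod_ite_mem, Finset.union_inter_cancel_left]
  · rw [Finset.prod_ite_mem, Finset.union_inter_cancel_right]

/-- Ergodicity of the product of two Bernoulli shifts. -/
theorem ergodic_prod [Group G] [Infinite G] {Z' : Type} [MeasurableSpace Z'] (ζ' : Measure Z')
    [IsProbabilityMeasure ζ'] :
    ErgodicSMul G (Bern G Z × Bern G Z') ((mu G ζ).prod (mu G ζ')) := by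
  have hm := measurePreserving_pairMap (G := G) ζ ζ'
  have he : ErgodicSMul G (Bern G (Z × Z')) (mu G (ζ.prod ζ')) := ergodic (ζ.prod ζ')
  have hinv : SMulInvariantMeasure G (Bern G Z × Bern G Z') ((mu G ζ).prod (mu G ζ')) := by
    refine ⟨fun g s hs => ?_⟩
    have hgm : Measurable (fun x : Bern G Z × Bern G Z' => g • x) :=
      ((measurable_const_smul g).comp measurable_fst).prodMk
        ((measurable_const_smul g).comp measurable_snd)
    have hg : MeasurableSet ((fun x : Bern G Z × Bern G Z' => g • x) ⁻¹' s) := hgm hs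
    rw [← hm.measure_preimage hg.nullMeasurableSet, ← hm.measure_preimage hs.nullMeasurableSet]
    exact measure_preimage_smul (mu G (ζ.prod ζ')) g (pairMap ⁻¹' s)
  refine { hinv with aeconst_of_forall_preimage_smul_ae_eq := ?_ }
  intro s hs hs'
  have h1 : EventuallyConst (pairMap ⁻¹' s : Set (Bern G (Z × Z'))) (ae (mu G (ζ.prod ζ'))) := by
    refine he.aeconst_of_forall_preimage_smul_ae_eq (hm.measurable hs) fun g => ?_
    exact hm.quasiMeasurePreserving.preimage_ae_eq (hs' g)
  rw [eventuallyConst_set] at h1 ⊢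
  rw [← hm.map_eq]
  rcases h1 with h1 | h1
  · left
    exact (ae_map_iff hm.measurable.aemeasurable hs).2 h1
  · right
    exact (ae_map_iff hm.measurable.aemeasurable hs.compl).2 h1

end Bern

end Pool.Agent.TLA
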