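import Pool.Agent.TLA.GroupDefs

/-! From `FinOrFI` to just infinite (block C). -/

set_option autoImplicit false

namespace Pool.Agent.TLA

variable {G : Type} [Group G]

private theorem groupJI_fg_map {G' : Type} [Group G'] (f : G →* G') {P : Subgroup G}
    (hP : P.FG) : (P.map f).FG := by
  classical
  obtain ⟨T, hT⟩ := hP
  refine (Subgroup.fg_iff _).mpr ⟨f '' (T : Set G), ?_, T.finite_toSet.image f⟩
  rw [← MonoidHom.map_closure, hT]

theorem FinOrFI.subgroup (h : FinOrFI G) (K : Subgroup G) (hK : K.index ≠ 0) : FinOrFI K := by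
  intro Λ hΛ
  have hfg : (Λ.map K.subtype).FG := groupJI_fg_map K.subtype hΛ
  rcases h _ hfg with h1 | h1
  · left
    exact Finite.of_equiv _ (Λ.equivMapOfInjective K.subtype K.subtype_injective).toEquiv.symm
  · right
    rw [Subgroup.index_map_subtype] at h1
    exact fun h0 => h1 (by rw [h0, zero_mul])

/-- Finitely generated subgroups of a subgroup of infinite index are finite. -/
theorem FinOrFI.finite_of_le (h : FinOrFI G) {K P : Subgroup G} (hK : K.index = 0) (hP : P.FG)
    (hPK : P ≤ K) : Finite P := by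
  rcases h _ hP with h1 | h1
  · exact h1
  · exfalso
    have h2 := Subgroup.index_dvd_of_le hPK
    rw [hK, zero_dvd_iff] at h2
    exact h1 h2

private theorem groupJI_fg [Group.FG G] (J : Subgroup G) (hJ : J.index ≠ 0) : J.FG := by
  have : J.FiniteIndex := ⟨hJ⟩
  have : Group.FG J := Subgroup.fg_of_index_ne_zero J
  exact (Group.fg_iff_subgroup_fg J).mp inferInstance

/-- (P): the product of two normal subgroups of infinite index has infinite index. -/
theorem FinOrFI.sup_index [Group.FG G] (h : FinOrFI G) {K L : Subgroup G} (hKn : K.Normal)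
    (hLn : L.Normal) (hK : K.index = 0) (hL : L.index = 0) : (K ⊔ L).index = 0 := by
  by_contra hJ
  obtain ⟨S, hS⟩ := groupJI_fg (K ⊔ L) hJ
  have hdec : ∀ s : S, ∃ k ∈ K, ∃ l ∈ L, k * l = s := by
    intro s
    have hs : (s : G) ∈ K ⊔ L := by
      rw [← hS]
      exact Subgroup.subset_closure s.2
    exact Subgroup.mem_sup_of_normal_right.mp hs
  choose k hk l hl hkl using hdec
  set P : Subgroup G := Subgroup.closure (Set.range k) with hPdef
  have hPK : P ≤ K := by
    rw [hPdef, Subgroup.closure_le]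
    rintro _ ⟨s, rfl⟩
    exact hk s
  have hPfg : P.FG := (Subgroup.fg_iff P).mpr ⟨Set.range k, rfl, Set.finite_range k⟩
  have := h.finite_of_le hK hPfg hPK
  have hJP : K ⊔ L ≤ P ⊔ L := by
    rw [← hS, Subgroup.closure_le]
    intro s hs
    have := hkl ⟨s, hs⟩
    rw [SetLike.mem_coe, ← show k ⟨s, hs⟩ * l ⟨s, hs⟩ = s from this]
    exact Subgroup.mul_mem_sup (Subgroup.subset_closure ⟨_, rfl⟩) (hl _)
  have h1 : (P ⊔ L).index ≠ 0 := by
    intro h0
    have h2 := Subgroup.index_dvd_of_le hJP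
    rw [h0, zero_dvd_iff] at h2
    exact hJ h2
  have h2 : L.relIndex (P ⊔ L) ≠ 0 := by
    rw [Subgroup.relIndex_sup_right]
    intro h0
    have h3 := Subgroup.relIndex_dvd_card L P
    rw [h0, zero_dvd_iff] at h3
    exact Nat.card_pos.ne' h3
  have h3 := Subgroup.relIndex_mul_index (le_sup_right : L ≤ P ⊔ L)
  rw [hL] at h3
  exact (mul_ne_zero h2 h1) h3

/-- The largest normal subgroup of infinite index. -/
theorem FinOrFI.exists_max [Group.FG G] [Infinite G] (h : FinOrFI G) :
    ∃ L : Subgroup G, L.Normal ∧ L.index = 0 ∧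
      ∀ K : Subgroup G, K.Normal → K.index = 0 → K ≤ L := by
  set F : Set (Subgroup G) := {K | K.Normal ∧ K.index = 0} with hF
  have hne : F.Nonempty := ⟨⊥, inferInstance, by
    rw [Subgroup.index_bot, Nat.card_eq_zero_of_infinite]⟩
  have hdir : DirectedOn (· ≤ ·) F := by
    rintro A ⟨hA, hA0⟩ B ⟨hB, hB0⟩
    refine ⟨A ⊔ B, ⟨?_, h.sup_index hA hB hA0 hB0⟩, le_sup_left, le_sup_right⟩
    have := hA
    have := hB
    exact Subgroup.sup_normal A B
  have hmem : ∀ x : G, x ∈ sSup F ↔ ∃ K ∈ F, x ∈ K := fun x =>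
    Subgroup.mem_sSup_of_directedOn hne hdir
  refine ⟨sSup F, ⟨?_⟩, ?_, fun K hK h0 => le_sSup ⟨hK, h0⟩⟩
  · intro n hn g
    rw [hmem] at hn ⊢
    obtain ⟨K, hK, hnK⟩ := hn
    exact ⟨K, hK, hK.1.conj_mem n hnK g⟩
  · by_contra h0
    obtain ⟨T, hT⟩ := groupJI_fg (sSup F) h0
    have key : ∀ T' : Finset G, (∀ x ∈ T', x ∈ sSup F) → ∃ K ∈ F, ∀ x ∈ T', x ∈ K := by
      classical
      intro T'
      induction T' using Finset.induction_on with
      | empty =>
        intro _
        obtain ⟨K, hK⟩ := hne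
        exact ⟨K, hK, by simp⟩
      | insert a s ha ih =>
        intro hs
        obtain ⟨A, hA, hA'⟩ := (hmem a).mp (hs a (Finset.mem_insert_self a s))
        obtain ⟨B, hB, hB'⟩ := ih fun x hx => hs x (Finset.mem_insert_of_mem hx)
        obtain ⟨C, hC, hAC, hBC⟩ := hdir A hA B hB
        refine ⟨C, hC, fun x hx => ?_⟩
        rcases Finset.mem_insert.mp hx with rfl | hx
        · exact hAC hA'
        · exact hBC (hB' x hx)
    obtain ⟨K, hK, hTK⟩ := key T fun x hx => by
      rw [← hT]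
      exact Subgroup.subset_closure hx
    have hle : sSup F ≤ K := by
      rw [← hT, Subgroup.closure_le]
      exact fun x hx => hTK x hx
    have h2 := Subgroup.index_dvd_of_le hle
    rw [hK.2, zero_dvd_iff] at h2
    exact h0 h2

private theorem groupJI_inf {p : ℕ} [Fact p.Prime] {U W : Subgroup G} (hU : U.Normal)
    (hUp : ∃ k, U.index = p ^ k) (hWp : ∃ k, W.index = p ^ k) :
    ∃ k, (U ⊓ W).index = p ^ k := by
  obtain ⟨a, ha⟩ := hUp
  obtain ⟨b, hb⟩ := hWp
  have h1 := Subgroup.relIndex_mul_index (inf_le_right : U ⊓ W ≤ W)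
  rw [Subgroup.inf_relIndex_right] at h1
  have h2 : U.relIndex W ∣ p ^ a := ha ▸ Subgroup.relIndex_dvd_index_of_normal U W
  obtain ⟨k, -, hk⟩ := (Nat.dvd_prime_pow Fact.out).mp h2
  exact ⟨k + b, by rw [← h1, hk, hb, pow_add]⟩

private theorem groupJI_le_index {p : ℕ} [Fact p.Prime] {U W : Subgroup G} (h : U ≤ W)
    (hUp : ∃ k, U.index = p ^ k) : ∃ k, W.index = p ^ k := by
  obtain ⟨a, ha⟩ := hUp
  have h1 := Subgroup.index_dvd_of_le h
  rw [ha] at h1
  obtain ⟨k, -, hk⟩ := (Nat.dvd_prime_pow Fact.out).mp h1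
  exact ⟨k, hk⟩

private theorem groupJI_ne_zero {p : ℕ} [Fact p.Prime] {U : Subgroup G}
    (hUp : ∃ k, U.index = p ^ k) : U.index ≠ 0 := by
  obtain ⟨a, ha⟩ := hUp
  rw [ha]
  exact pow_ne_zero _ (Fact.out : p.Prime).ne_zero

private theorem groupJI_large {p : ℕ} [Fact p.Prime] [Infinite G] (hR : ResP p G) (n : ℕ) :
    ∃ U : Subgroup G, U.Normal ∧ (∃ k, U.index = p ^ k) ∧ n < U.index := by
  induction n with
  | zero => exact ⟨⊤, inferInstance, ⟨0, by simp⟩, by simp⟩
  | succ n ih =>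
    obtain ⟨U, hU, hUp, hn⟩ := ih
    have hne : U ≠ ⊥ := by
      intro h0
      have := groupJI_ne_zero hUp
      rw [h0, Subgroup.index_bot, Nat.card_eq_zero_of_infinite] at this
      exact this rfl
    obtain ⟨⟨g, hg⟩, hg1'⟩ := (Subgroup.ne_bot_iff_exists_ne_one).mp hne
    have hg1 : g ≠ 1 := fun h => hg1' (Subtype.ext h)
    obtain ⟨W, hW, hWp, hgW⟩ := hR g hg1
    have hUW := groupJI_inf hU hUp hWp
    have := hU
    have := hW
    refine ⟨U ⊓ W, inferInstance, hUW, ?_⟩
    have h1 := Subgroup.relIndex_mul_index (inf_le_left : U ⊓ W ≤ U)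
    have h2 : (U ⊓ W).relIndex U ≠ 1 := by
      intro h
      rw [Subgroup.relIndex_eq_one] at h
      exact hgW (h hg).2
    have h3 : (U ⊓ W).relIndex U ≠ 0 := by
      intro h
      rw [h, zero_mul] at h1
      exact groupJI_ne_zero hUW h1.symm
    have h4 : 2 ≤ (U ⊓ W).relIndex U := by omega
    have h5 : 2 * U.index ≤ (U ⊓ W).index := by
      rw [← h1]
      exact Nat.mul_le_mul_right _ h4
    omega

/-- A proper subgroup which contains a normal subgroup of `p`-power index is contained in the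
kernel of a nontrivial homomorphism to `ZMod p`. -/
private theorem groupJI_hom {p : ℕ} [Fact p.Prime] {A U : Subgroup G} (hU : U.Normal)
    (hUp : ∃ k, U.index = p ^ k) (hUA : U ≤ A) (hA : A ≠ ⊤) :
    ∃ φ : G →* Multiplicative (ZMod p), φ ≠ 1 ∧ A ≤ φ.ker := by
  classical
  have hp : p.Prime := Fact.out
  have hU0 := groupJI_ne_zero hUp
  have : U.FiniteIndex := ⟨hU0⟩
  obtain ⟨m, hm⟩ := hUp
  have hcard : Nat.card (G ⧸ U) = p ^ m := hm
  obtain ⟨a, ha⟩ := groupJI_le_index hUA ⟨m, hm⟩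
  set B : Subgroup (G ⧸ U) := A.map (QuotientGroup.mk' U) with hB
  have hBi : B.index = p ^ a := by
    rw [hB, Subgroup.index_map_eq _ (QuotientGroup.mk'_surjective U)
      (by rw [QuotientGroup.ker_mk']; exact hUA), ha]
  have ha1 : a ≠ 0 := by
    rintro rfl
    rw [pow_zero, Subgroup.index_eq_one] at ha
    exact hA ha
  have hBc : Nat.card B * p ^ a = p ^ m := by
    rw [← hBi, Subgroup.card_mul_index, hcard]
  have ham : a ≤ m := by
    have : p ^ a ∣ p ^ m := ⟨_, by rw [← hBc, mul_comm]⟩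
    exact (Nat.pow_dvd_pow_iff_le_right hp.one_lt).mp this
  have hBc' : Nat.card B = p ^ (m - a) := by
    have h1 : p ^ m = p ^ (m - a) * p ^ a := by rw [← pow_add, Nat.sub_add_cancel ham]
    rw [h1] at hBc
    exact Nat.eq_of_mul_eq_mul_right (pow_pos hp.pos a) hBc
  obtain ⟨K, hK, hBK⟩ := Sylow.exists_subgroup_card_pow_prime_le (G := G ⧸ U) p
    (n := m - a) (m := m - 1) (by rw [hcard]; exact pow_dvd_pow p (Nat.sub_le m 1)) B hBc'
    (by omega)
  have hKi : K.index = p := by
    have h1 := K.card_mul_index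
    rw [hK, hcard] at h1
    have h2 : p ^ m = p ^ (m - 1) * p := by
      rw [← pow_succ, Nat.sub_add_cancel (by omega)]
    rw [h2] at h1
    exact Nat.eq_of_mul_eq_mul_left (pow_pos hp.pos _) h1
  have hKn : K.Normal := by
    apply Subgroup.normal_of_index_eq_minFac_card
    rw [hKi, hcard, Nat.Prime.pow_minFac hp (by omega)]
  set K' : Subgroup G := K.comap (QuotientGroup.mk' U) with hK'
  have : K'.Normal := hKn.comap _
  have hK'i : K'.index = p := by
    rw [hK', Subgroup.index_comap_of_surjective _ (QuotientGroup.mk'_surjective U), hKi]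
  have hAK : A ≤ K' := by
    rw [hK', ← Subgroup.map_le_iff_le_comap]
    exact hBK
  have hc : Nat.card (G ⧸ K') = p := hK'i
  have : IsCyclic (G ⧸ K') := isCyclic_of_prime_card hc
  have hcZ : Nat.card (Multiplicative (ZMod p)) = p := by
    rw [Nat.card_congr Multiplicative.toAdd, Nat.card_zmod]
  have : IsCyclic (Multiplicative (ZMod p)) := isCyclic_of_prime_card hcZ
  let e : (G ⧸ K') ≃* Multiplicative (ZMod p) :=
    mulEquivOfCyclicCardEq (hc.trans hcZ.symm)
  refine ⟨e.toMonoidHom.comp (QuotientGroup.mk' K'), ?_, ?_⟩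
  · intro h
    have h1 : K' = ⊤ := by
      rw [eq_top_iff]
      intro g _
      have h2 := DFunLike.congr_fun h g
      have h3 : e (QuotientGroup.mk' K' g) = 1 := h2
      rw [EmbeddingLike.map_eq_one_iff] at h3
      exact (QuotientGroup.eq_one_iff g).mp h3
    rw [h1, Subgroup.index_top] at hK'i
    exact hp.one_lt.ne hK'i
  · intro g hg
    rw [MonoidHom.mem_ker]
    change e (QuotientGroup.mk' K' g) = 1
    rw [EmbeddingLike.map_eq_one_iff]
    exact (QuotientGroup.eq_one_iff g).mpr (hAK hg)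

/-- Frattini: a finite subgroup which is dense modulo the Frattini quotient. If `D` is a finitely
generated infinite residually-`p` group, no locally finite subgroup `L` of `D` is dense. -/
theorem not_dense_of_locFin {p : ℕ} [Fact p.Prime] [Group.FG G] [Infinite G] (hR : ResP p G)
    (L : Subgroup G) (hL : ∀ P : Subgroup G, P.FG → P ≤ L → Finite P) :
    ∃ U : Subgroup G, U.Normal ∧ (∃ k, U.index = p ^ k) ∧ L ⊔ U ≠ ⊤ := by
  classical
  have hp : p.Prime := Fact.out
  by_contra hcon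
  push Not at hcon
  -- the set of homomorphisms to `ZMod p` is finite
  obtain ⟨T, hT⟩ := Group.fg_def.mp (inferInstance : Group.FG G)
  have : Finite (G →* Multiplicative (ZMod p)) := by
    refine Finite.of_injective (fun (φ : G →* Multiplicative (ZMod p)) (t : T) => φ t) ?_
    intro φ ψ hφψ
    refine MonoidHom.eq_of_eqOn_dense hT ?_
    intro t ht
    exact congrFun hφψ ⟨t, ht⟩
  have hex : ∀ φ : G →* Multiplicative (ZMod p), ∃ l ∈ L, φ ≠ 1 → φ l ≠ 1 := by
    intro φ
    by_contra hno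
    push Not at hno
    have hφ : φ ≠ 1 := (hno 1 L.one_mem).1
    have hLk : L ≤ φ.ker := fun l hl => MonoidHom.mem_ker.mpr (hno l hl).2
    have hki : ∃ k, φ.ker.index = p ^ k := by
      have h1 : φ.ker.index ∣ p := by
        rw [Subgroup.index_ker]
        have h2 := Subgroup.card_subgroup_dvd_card φ.range
        rw [Nat.card_congr Multiplicative.toAdd, Nat.card_zmod] at h2
        exact h2
      have h1' : φ.ker.index ∣ p ^ 1 := (pow_one p).symm ▸ h1
      obtain ⟨k, -, hk⟩ := (Nat.dvd_prime_pow hp).mp h1'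
      exact ⟨k, hk⟩
    have h3 := hcon φ.ker inferInstance hki
    rw [sup_eq_right.mpr hLk] at h3
    apply hφ
    ext g
    have : g ∈ φ.ker := by rw [h3]; trivial
    exact congrArg _ (MonoidHom.mem_ker.mp this)
  choose l hlL hl using hex
  set P : Subgroup G := Subgroup.closure (Set.range l) with hPdef
  have hPL : P ≤ L := by
    rw [hPdef, Subgroup.closure_le]
    rintro _ ⟨s, rfl⟩
    exact hlL s
  have hPfg : P.FG := (Subgroup.fg_iff P).mpr ⟨Set.range l, rfl, Set.finite_range l⟩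
  have := hL P hPfg hPL
  have hPU : ∀ U : Subgroup G, U.Normal → (∃ k, U.index = p ^ k) → P ⊔ U = ⊤ := by
    intro U hU hUp
    by_contra hne
    obtain ⟨φ, hφ, hφk⟩ := groupJI_hom hU hUp (le_sup_right : U ≤ P ⊔ U) hne
    have h1 : l φ ∈ φ.ker :=
      hφk ((le_sup_left : P ≤ P ⊔ U) (Subgroup.subset_closure ⟨φ, rfl⟩))
    exact hl φ hφ (MonoidHom.mem_ker.mp h1)
  obtain ⟨U, hU, hUp, hlt⟩ := groupJI_large hR (Nat.card P)
  have h1 : U.index = U.relIndex P := by
    rw [← Subgroup.relIndex_top_right, ← hPU U hU hUp, Subgroup.relIndex_sup_right]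
  have h2 : U.relIndex P ≤ Nat.card P :=
    Nat.le_of_dvd Nat.card_pos (Subgroup.relIndex_dvd_card U P)
  omega

private theorem groupJI_pow {p : ℕ} {U : Subgroup G} [U.Normal] {k : ℕ}
    (hk : U.index = p ^ k) (g : G) : g ^ p ^ k ∈ U := by
  have h1 : ((g : G ⧸ U)) ^ p ^ k = 1 := by
    rw [← hk]
    exact pow_card_eq_one'
  rw [← QuotientGroup.mk_pow] at h1
  exact (QuotientGroup.eq_one_iff _).mp h1

/-- A subgroup of infinite index is not dense in a subgroup of finite index. -/
theorem FinOrFI.not_dense {p : ℕ} [Fact p.Prime] [Group.FG G] [Infinite G] (h : FinOrFI G)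
    (hR : ResP p G) (K S : Subgroup G) (hK : K.index = 0) (hS : S.index ≠ 0) (hKS : K ≤ S)
    (U₀ : Subgroup G) (hU₀ : U₀.Normal) (k : ℕ) (hk : U₀.index = p ^ k) (hU₀S : U₀ ≤ S) :
    ∃ U : Subgroup G, U.Normal ∧ (∃ k, U.index = p ^ k) ∧ ¬ S ≤ K ⊔ U := by
  have hp : p.Prime := Fact.out
  have : S.FiniteIndex := ⟨hS⟩
  have : Group.FG S := Subgroup.fg_of_index_ne_zero S
  have : Infinite S := by
    by_contra hfin
    rw [not_infinite_iff_finite] at hfin
    have h1 := S.card_mul_index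
    rw [Nat.card_eq_zero_of_infinite (α := G)] at h1
    exact mul_ne_zero Nat.card_pos.ne' hS h1
  have hRS : ResP p S := by
    intro g hg
    obtain ⟨U, hU, ⟨a, ha⟩, hgU⟩ := hR g (fun h0 => hg (Subtype.ext h0))
    have := hU
    refine ⟨U.subgroupOf S, inferInstance, ?_, fun h0 => hgU h0⟩
    have h2 : U.relIndex S ∣ p ^ a := ha ▸ Subgroup.relIndex_dvd_index_of_normal U S
    obtain ⟨b, -, hb⟩ := (Nat.dvd_prime_pow hp).mp h2
    exact ⟨b, hb⟩
  obtain ⟨U', hU', ⟨b, hb⟩, hne⟩ := not_dense_of_locFin hRS (K.subgroupOf S) (by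
    intro P hP hPK
    have h1 : Finite (P.map S.subtype) := by
      refine h.finite_of_le hK (groupJI_fg_map S.subtype hP) ?_
      rintro _ ⟨x, hx, rfl⟩
      exact hPK hx
    exact Finite.of_equiv _ (P.equivMapOfInjective S.subtype S.subtype_injective).toEquiv.symm)
  set W : Subgroup G := U'.map S.subtype ⊓ U₀ with hW
  obtain ⟨c, hc⟩ := groupJI_le_index hU₀S ⟨k, hk⟩
  have hU'i : ∃ k, (U'.map S.subtype).index = p ^ k :=
    ⟨b + c, by rw [Subgroup.index_map_subtype, hb, hc, pow_add]⟩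
  have hWi : W.index ≠ 0 := by
    refine groupJI_ne_zero (p := p) ?_
    rw [hW, inf_comm]
    exact groupJI_inf hU₀ ⟨k, hk⟩ hU'i
  have : W.FiniteIndex := ⟨hWi⟩
  have : W.normalCore.FiniteIndex := inferInstance
  have := hU'
  have := hU₀
  have hpow : ∀ g : G, g ^ p ^ (k + b) ∈ W.normalCore := by
    intro g x
    have h1 : x * g * x⁻¹ ∈ (⊤ : Subgroup G) := trivial
    have h2 : (x * g * x⁻¹) ^ p ^ k ∈ U₀ := groupJI_pow hk _
    have h3 : (x * g * x⁻¹) ^ p ^ (k + b) ∈ W := by
      rw [pow_add, pow_mul]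
      refine ⟨?_, U₀.pow_mem h2 _⟩
      have h4 := groupJI_pow hb (⟨(x * g * x⁻¹) ^ p ^ k, hU₀S h2⟩ : S)
      exact ⟨_, h4, rfl⟩
    rwa [conj_pow] at h3
  have hcore : ∃ k, W.normalCore.index = p ^ k := by
    have h1 : IsPGroup p (G ⧸ W.normalCore) := by
      intro q
      obtain ⟨g, rfl⟩ := QuotientGroup.mk_surjective q
      refine ⟨k + b, ?_⟩
      rw [← QuotientGroup.mk_pow]
      exact (QuotientGroup.eq_one_iff _).mpr (hpow g)
    exact IsPGroup.iff_card.mp h1
  refine ⟨W.normalCore, inferInstance, hcore, fun hle => hne ?_⟩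
  rw [eq_top_iff]
  intro s _
  have h1 : (s : G) ∈ K ⊔ W.normalCore := hle s.2
  have h2 : K ⊔ W.normalCore ≤ (K.subgroupOf S ⊔ U').map S.subtype := by
    rw [Subgroup.map_sup, Subgroup.map_subgroupOf_eq_of_le hKS]
    exact sup_le_sup le_rfl ((Subgroup.normalCore_le W).trans inf_le_left)
  obtain ⟨t, ht, hts⟩ := h2 h1
  have : t = s := Subtype.ext hts
  rwa [this] at ht

private theorem groupJI_quot (h : FinOrFI G) (L : Subgroup G) [L.Normal] : FinOrFI (G ⧸ L) := by
  classical
  intro Λ hΛ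
  obtain ⟨T, hT⟩ := hΛ
  set Λ' : Subgroup G := Subgroup.closure ((fun q : G ⧸ L => q.out) '' (T : Set (G ⧸ L)))
    with hΛ'
  have hmap : Λ'.map (QuotientGroup.mk' L) = Λ := by
    rw [hΛ', MonoidHom.map_closure, ← hT, Set.image_image]
    congr 1
    ext q
    simp
  have hfg : Λ'.FG := (Subgroup.fg_iff Λ').mpr ⟨_, rfl, T.finite_toSet.image _⟩
  rcases h Λ' hfg with h1 | h1
  · left
    rw [← hmap]
    exact Finite.of_surjective
      (fun x : Λ' => (⟨QuotientGroup.mk' L x, ⟨x, x.2, rfl⟩⟩ : Λ'.map (QuotientGroup.mk' L)))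
      (by
        rintro ⟨_, ⟨x, hx, rfl⟩⟩
        exact ⟨⟨x, hx⟩, rfl⟩)
  · right
    intro h0
    have h2 := Subgroup.index_map_dvd Λ' (QuotientGroup.mk'_surjective L)
    rw [hmap, h0, zero_dvd_iff] at h2
    exact h1 h2

/-- Just infinite quotients. -/
theorem exists_justInf {p n : ℕ} [Fact p.Prime] [Infinite G] (x : Fin n → G) (hx : TRel p n x)
    (hR : ResP p G) (h : FinOrFI G) :
    ∃ (Q : Type) (_ : Group Q) (y : Fin n → Q), TRel p n y ∧ Infinite Q ∧ ResP p Q ∧
      FinOrFI Q ∧ JustInf Q := by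
  classical
  have hp : p.Prime := Fact.out
  have : Group.FG G := Group.fg_iff.mpr ⟨Set.range x, hx.gen, Set.finite_range x⟩
  obtain ⟨L, hLn, hLi, hLmax⟩ := h.exists_max
  have := hLn
  refine ⟨G ⧸ L, inferInstance, fun i => QuotientGroup.mk' L (x i), ⟨?_, ?_, ?_⟩, ?_, ?_,
    groupJI_quot h L, ?_⟩
  · have h1 : Set.range (fun i => QuotientGroup.mk' L (x i)) =
        QuotientGroup.mk' L '' Set.range x := by
      rw [← Set.range_comp]
      rfl
    rw [h1, ← MonoidHom.map_closure, hx.gen, ← MonoidHom.range_eq_map]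
    exact MonoidHom.range_eq_top.mpr (QuotientGroup.mk'_surjective L)
  · intro i
    rw [← map_pow, hx.pow, map_one]
  · intro i j hij
    have h1 := (hx.comm i j hij).map (QuotientGroup.mk' L)
    simpa only [map_mul, map_inv] using h1
  · exact Subgroup.index_eq_zero_iff_infinite.mp hLi
  · intro q hq
    obtain ⟨g, rfl⟩ := QuotientGroup.mk_surjective q
    have hg : g ∉ L := fun h0 => hq ((QuotientGroup.eq_one_iff g).mpr h0)
    suffices hs : ∃ U : Subgroup G, U.Normal ∧ (∃ k, U.index = p ^ k) ∧ g ∉ L ⊔ U by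
      obtain ⟨U, hU, hUp, hgU⟩ := hs
      have := hU
      have : (L ⊔ U).Normal := Subgroup.sup_normal L U
      refine ⟨(L ⊔ U).map (QuotientGroup.mk' L), Subgroup.Normal.map inferInstance _
        (QuotientGroup.mk'_surjective L), ?_, ?_⟩
      · rw [Subgroup.index_map_eq _ (QuotientGroup.mk'_surjective L)
          (by rw [QuotientGroup.ker_mk']; exact le_sup_left)]
        exact groupJI_le_index le_sup_right hUp
      · rintro ⟨t, ht, hte⟩
        apply hgU
        have h1 : t⁻¹ * g ∈ L := QuotientGroup.eq.mp hte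
        have h2 : g = t * (t⁻¹ * g) := by group
        rw [h2]
        exact (L ⊔ U).mul_mem ht ((le_sup_left : L ≤ L ⊔ U) h1)
    by_contra hcon
    push Not at hcon
    -- the closure of `L`
    set F : Set (Subgroup G) := {V | ∃ U : Subgroup G, U.Normal ∧ (∃ k, U.index = p ^ k) ∧
      V = L ⊔ U} with hF
    set L' : Subgroup G := sInf F with hL'
    have hL'n : L'.Normal := by
      constructor
      intro y hy z
      rw [hL', Subgroup.mem_sInf] at hy ⊢
      rintro V ⟨U, hU, hUp, rfl⟩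
      have := hU
      have : (L ⊔ U).Normal := Subgroup.sup_normal L U
      exact Subgroup.Normal.conj_mem inferInstance y (hy _ ⟨U, hU, hUp, rfl⟩) z
    have hLL' : L ≤ L' := le_sInf (by
      rintro V ⟨U, -, -, rfl⟩
      exact le_sup_left)
    have hgL' : g ∈ L' := by
      rw [hL', Subgroup.mem_sInf]
      rintro V ⟨U, hU, hUp, rfl⟩
      exact hcon U hU hUp
    have hL'i : L'.index ≠ 0 := fun h0 => hg (hLmax L' hL'n h0 hgL')
    have hle : ∀ U : Subgroup G, U.Normal → (∃ k, U.index = p ^ k) → L' ≤ L ⊔ U :=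
      fun U hU hUp => sInf_le ⟨U, hU, hUp, rfl⟩
    have hbd : ∀ U : Subgroup G, U.Normal → (∃ k, U.index = p ^ k) →
        (L ⊔ U).index ≤ L'.index := fun U hU hUp =>
      Nat.le_of_dvd (Nat.pos_of_ne_zero hL'i) (Subgroup.index_dvd_of_le (hle U hU hUp))
    -- a subgroup with the largest index
    have hmax : ∃ U₀ : Subgroup G, U₀.Normal ∧ (∃ k, U₀.index = p ^ k) ∧
        ∀ U : Subgroup G, U.Normal → (∃ k, U.index = p ^ k) →
          (L ⊔ U).index ≤ (L ⊔ U₀).index := by
      have hfin : {m | ∃ U : Subgroup G, U.Normal ∧ (∃ k, U.index = p ^ k) ∧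
          (L ⊔ U).index = m}.Finite :=
        (Set.finite_Iic L'.index).subset (by
          rintro m ⟨U, hU, hUp, rfl⟩
          exact hbd U hU hUp)
      obtain ⟨m, ⟨U₀, hU₀, hU₀p, rfl⟩, hm⟩ := Set.exists_max_image _ id hfin
        ⟨_, ⊤, inferInstance, ⟨0, by simp⟩, rfl⟩
      exact ⟨U₀, hU₀, hU₀p, fun U hU hUp => hm _ ⟨U, hU, hUp, rfl⟩⟩
    obtain ⟨U₀, hU₀, hU₀p, hU₀m⟩ := hmax
    have hsub : L ⊔ U₀ ≤ L' := by
      rw [hL']
      refine le_sInf ?_
      rintro V ⟨U, hU, hUp, rfl⟩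
      have := hU
      have := hU₀
      have h1 := groupJI_inf hU₀ hU₀p hUp
      have h2 := hU₀m (U₀ ⊓ U) inferInstance h1
      have h3 : L ⊔ (U₀ ⊓ U) ≤ L ⊔ U₀ := sup_le_sup_left inf_le_left L
      have h4 := Subgroup.relIndex_mul_index h3
      have h5 : (L ⊔ U₀).index ≠ 0 := groupJI_ne_zero (groupJI_le_index le_sup_right hU₀p)
      have h6 : (L ⊔ (U₀ ⊓ U)).relIndex (L ⊔ U₀) = 1 := by
        have h7 : (L ⊔ (U₀ ⊓ U)).index ≠ 0 :=
          groupJI_ne_zero (groupJI_le_index le_sup_right h1)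
        by_contra hne
        have h8 : (L ⊔ (U₀ ⊓ U)).relIndex (L ⊔ U₀) ≠ 0 := by
          intro h0
          rw [h0, zero_mul] at h4
          exact h7 h4.symm
        have h9 : 2 ≤ (L ⊔ (U₀ ⊓ U)).relIndex (L ⊔ U₀) := by omega
        have h10 := Nat.mul_le_mul_right (L ⊔ U₀).index h9
        rw [h4] at h10
        omega
      rw [Subgroup.relIndex_eq_one] at h6
      exact h6.trans (sup_le_sup_left inf_le_right L)
    obtain ⟨a, ha⟩ := hU₀p
    obtain ⟨U, hU, hUp, hno⟩ := h.not_dense hR L L' hLi hL'i hLL' U₀ hU₀ a ha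
      (le_sup_right.trans hsub)
    exact hno (hle U hU hUp)
  · intro N hN hNe h0
    have := hN
    apply hNe
    have h1 : (N.comap (QuotientGroup.mk' L)).index = 0 := by
      rw [Subgroup.index_comap_of_surjective _ (QuotientGroup.mk'_surjective L), h0]
    have h2 := hLmax _ (hN.comap (QuotientGroup.mk' L)) h1
    rw [eq_bot_iff]
    intro q hq
    obtain ⟨g, rfl⟩ := QuotientGroup.mk_surjective q
    have h3 : g ∈ L := h2 hq
    exact Subgroup.mem_bot.mpr ((QuotientGroup.eq_one_iff g).mpr h3)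

/-- (C2). -/
theorem FinOrFI.normal_of_finiteIndex [Group.FG G] [Infinite G] (h : FinOrFI G)
    (hJ : JustInf G) (N S : Subgroup G) (hN : N.index ≠ 0) (hSN : S ≤ N)
    (hS : ∀ g ∈ N, ∀ s ∈ S, g * s * g⁻¹ ∈ S) (hinf : Infinite S) : S.index ≠ 0 := by
  intro hS0
  have : N.FiniteIndex := ⟨hN⟩
  set C : Subgroup G := N.normalCore with hC
  have : C.FiniteIndex := by rw [hC]; infer_instance
  have : C.Normal := by rw [hC]; infer_instance
  have hCi : C.index ≠ 0 := Subgroup.FiniteIndex.index_ne_zero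
  have : Group.FG C := Subgroup.fg_of_index_ne_zero C
  have : Infinite C := by
    by_contra hfin
    rw [not_infinite_iff_finite] at hfin
    have h1 := C.card_mul_index
    rw [Nat.card_eq_zero_of_infinite (α := G)] at h1
    exact mul_ne_zero Nat.card_pos.ne' hCi h1
  obtain ⟨L, hLn, hLi, hLmax⟩ := (h.subgroup C hCi).exists_max
  have hconj : ∀ (g : G) (l : C), l ∈ L → MulAut.conjNormal g l ∈ L := by
    intro g l hl
    have h1 : (L.map (MulAut.conjNormal g : C ≃* C).toMonoidHom).index = 0 := by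
      have := Subgroup.index_map_equiv L (MulAut.conjNormal g : C ≃* C)
      exact this.trans hLi
    have h2 := hLmax _ (hLn.map _ (MulAut.conjNormal g : C ≃* C).surjective) h1
    exact h2 ⟨l, hl, rfl⟩
  set M : Subgroup G := L.map C.subtype with hM
  have hMn : M.Normal := by
    constructor
    rintro _ ⟨l, hl, rfl⟩ g
    exact ⟨MulAut.conjNormal g l, hconj g l hl, MulAut.conjNormal_apply g l⟩
  have hMi : M.index = 0 := by
    rw [hM, Subgroup.index_map_subtype, hLi, zero_mul]
  have hMb : M = ⊥ := by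
    by_contra hne
    exact hJ M hMn hne hMi
  have hLb : L = ⊥ := (Subgroup.map_eq_bot_iff_of_injective L C.subtype_injective).mp hMb
  have hD : (S.subgroupOf C).index = 0 := by
    by_contra h0
    have h1 : ((S.subgroupOf C).map C.subtype).index ≠ 0 := by
      rw [Subgroup.index_map_subtype]
      exact mul_ne_zero h0 hCi
    have h2 := Subgroup.index_dvd_of_le (show (S.subgroupOf C).map C.subtype ≤ S by
      rintro _ ⟨s, hs, rfl⟩
      exact hs)
    rw [hS0, zero_dvd_iff] at h2
    exact h1 h2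
  have hDn : (S.subgroupOf C).Normal := by
    constructor
    intro s hs g
    exact hS g (Subgroup.normalCore_le N g.2) s hs
  have hDb : S.subgroupOf C = ⊥ := by
    rw [eq_bot_iff, ← hLb]
    exact hLmax _ hDn hD
  have hCS : C.subgroupOf S = ⊥ := by
    rw [eq_bot_iff]
    intro s hs
    have h1 : (⟨s, hs⟩ : C) ∈ S.subgroupOf C := s.2
    rw [hDb, Subgroup.mem_bot] at h1
    have h2 : (s : G) = 1 := congrArg (fun z : C => (z : G)) h1
    exact Subgroup.mem_bot.mpr (Subtype.ext h2)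
  have h1 : C.relIndex S = Nat.card S := by
    change (C.subgroupOf S).index = _
    rw [hCS, Subgroup.index_bot]
  have h2 := Subgroup.relIndex_dvd_index_of_normal C S
  rw [h1, Nat.card_eq_zero_of_infinite, zero_dvd_iff] at h2
  exact hCi h2

end Pool.Agent.TLA
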