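import Pool.Agent.TLA.PairDefs
import Pool.Agent.TLA.GroupJI

/-! The case where the normalizer has infinite index (block D4 (a)). -/

set_option autoImplicit false

open MeasureTheory Filter
open scoped Pointwise

namespace Pool.Agent.TLA

variable {G Z : Type} [Group G] [Countable G] [MeasurableSpace Z] (ζ : Measure Z)
  [IsProbabilityMeasure ζ]

/-- An invariant measurable function into `Set G` is constant almost everywhere. -/
theorem ae_const_of_inv (Λ : Set G) (hΛ : Λ.Infinite) (f : Bern G Z → Set G)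
    (hf : Measurable f) (h : ∀ g ∈ Λ, ∀ᵐ x ∂(Bern.mu G ζ), f (g • x) = f x) :
    ∃ u : Set G, ∀ᵐ x ∂(Bern.mu G ζ), f x = u := by
  have hm : ∀ a : G, MeasurableSet {x : Bern G Z | a ∈ f x} := fun a =>
    measurableSet_setOfPred.mpr ((measurable_set_mem a).comp hf)
  have hz : ∀ a : G, Bern.mu G ζ {x : Bern G Z | a ∈ f x} = 0 ∨
      Bern.mu G ζ {x : Bern G Z | a ∈ f x}ᶜ = 0 := by
    intro a
    refine Bern.zero_one ζ _ (hm a) Λ hΛ ?_
    intro g hg
    filter_upwards [h g hg] with x hx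
    change (a ∈ f (g • x)) = (a ∈ f x)
    rw [hx]
  refine ⟨{a | Bern.mu G ζ {x : Bern G Z | a ∈ f x}ᶜ = 0}, ?_⟩
  have hall : ∀ a : G, ∀ᵐ x ∂(Bern.mu G ζ),
      (a ∈ f x ↔ Bern.mu G ζ {x : Bern G Z | a ∈ f x}ᶜ = 0) := by
    intro a
    rcases hz a with h0 | h0
    · have h1 : ∀ᵐ x ∂(Bern.mu G ζ), x ∉ {x : Bern G Z | a ∈ f x} :=
        measure_eq_zero_iff_ae_notMem.mp h0
      have h2 : Bern.mu G ζ {x : Bern G Z | a ∈ f x}ᶜ ≠ 0 := by
        rw [prob_compl_eq_one_sub (hm a), h0]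
        simp
      filter_upwards [h1] with x hx
      exact ⟨fun h3 => absurd h3 hx, fun h3 => absurd h3 h2⟩
    · have h1 : ∀ᵐ x ∂(Bern.mu G ζ), x ∉ {x : Bern G Z | a ∈ f x}ᶜ :=
        measure_eq_zero_iff_ae_notMem.mp h0
      filter_upwards [h1] with x hx
      exact ⟨fun _ => h0, fun _ => not_not.mp hx⟩
  filter_upwards [ae_all_iff.mpr hall] with x hx
  ext a
  exact hx a

/-- If `f` is injective, no translate of `f` is constant on a set of positive measure. -/
theorem not_ae_orbit [Infinite G] (hζ : ∃ t : Set Z, MeasurableSet t ∧ 0 < ζ t ∧ ζ t < 1)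
    (f : Bern G Z → Set G) (hinj : Function.Injective f) (u : Set G) :
    ¬ ∀ᵐ x ∂(Bern.mu G ζ), ∃ g : G, f x = g • u := by
  intro h
  have hc : (f ⁻¹' (Set.range fun g : G => g • u)).Countable :=
    (Set.countable_range _).preimage hinj
  have h0 := Bern.mu_countable ζ hζ _ hc
  have h1 : ∀ᵐ x ∂(Bern.mu G ζ), x ∉ f ⁻¹' (Set.range fun g : G => g • u) :=
    measure_eq_zero_iff_ae_notMem.mp h0
  obtain ⟨x, ⟨g, hg⟩, hx⟩ := (h.and h1).exists
  exact hx ⟨g, hg.symm⟩

private theorem caseA_eq_meas {f₁ f₂ : Bern G Z → Set G} (h₁ : Measurable f₁)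
    (h₂ : Measurable f₂) : MeasurableSet {x | f₁ x = f₂ x} := by
  have h3 : {x | f₁ x = f₂ x} = ⋂ a : G, {x | a ∈ f₁ x ↔ a ∈ f₂ x} := by
    ext x
    simp only [Set.mem_ofPred_eq, Set.mem_iInter, Set.ext_iff]
  rw [h3]
  refine MeasurableSet.iInter fun a => ?_
  exact measurableSet_setOfPred.mpr
    (((measurable_set_mem a).comp h₁).iff ((measurable_set_mem a).comp h₂))

private theorem caseA_smul_meas {f : Bern G Z → Set G} (hf : Measurable f) (g : G) :
    Measurable fun x => g • f x := by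
  rw [measurable_set_iff]
  intro a
  have h1 : (fun x => a ∈ g • f x) = fun x => g⁻¹ • a ∈ f x := by
    funext x
    exact propext Set.mem_smul_set_iff_inv_smul_mem
  rw [h1]
  exact (measurable_set_mem _).comp hf

private theorem caseA_k_meas {f : Bern G Z → Set G} (hf : Measurable f) {k : Bern G Z → G}
    (hk : ∀ g, MeasurableSet (k ⁻¹' {g})) : Measurable fun x => k x • f x := by
  rw [measurable_set_iff]
  intro a
  rw [← measurableSet_setOfPred]
  have h1 : {x | a ∈ k x • f x} = ⋃ g : G, (k ⁻¹' {g} ∩ {x | a ∈ g • f x}) := by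
    ext x
    simp only [Set.mem_ofPred_eq, Set.mem_iUnion, Set.mem_inter_iff, Set.mem_preimage,
      Set.mem_singleton_iff]
    constructor
    · intro h
      exact ⟨k x, rfl, h⟩
    · rintro ⟨g, hg, h⟩
      rw [hg]
      exact h
  rw [h1]
  refine MeasurableSet.iUnion fun g => (hk g).inter ?_
  exact measurableSet_setOfPred.mpr ((measurable_set_mem a).comp (caseA_smul_meas hf g))

/-- A finite pattern of a set. -/
private def caseA_pat (W A : Finset G) (u : Set G) : Prop := ∀ a ∈ W, (a ∈ u ↔ a ∈ A)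

private theorem caseA_subset (R R' : Set (Set G)) (hR' : R'.Finite)
    (h : ∀ W A : Finset G, (∃ u ∈ R, caseA_pat W A u) → ∃ u ∈ R', caseA_pat W A u) : R ⊆ R' := by
  classical
  intro u hu
  by_contra hn
  have h1 : ∀ v : Set G, ∃ a : G, v ∈ R' → ¬ (a ∈ u ↔ a ∈ v) := by
    intro v
    by_contra h2
    push Not at h2
    have h3 : v ∈ R' := (h2 1).1
    apply hn
    have h4 : u = v := by
      ext a
      exact (h2 a).2
    rw [h4]
    exact h3
  choose a ha using h1
  obtain ⟨v, hv, hp⟩ := h (hR'.toFinset.image a) ((hR'.toFinset.image a).filter (· ∈ u))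
    ⟨u, hu, fun b hb => by simp only [Finset.mem_filter, hb, true_and]⟩
  apply ha v hv
  have h5 : a v ∈ hR'.toFinset.image a :=
    Finset.mem_image_of_mem _ (hR'.mem_toFinset.mpr hv)
  rw [hp (a v) h5]
  simp only [Finset.mem_filter, h5, true_and]

/-- A countable subgroup all of whose finitely generated subgroups are finite is an increasing
union of finite subgroups. -/
private theorem caseA_union (hF : FinOrFI G) (M : Subgroup G) (hM : M.index = 0) :
    ∃ P : ℕ → Subgroup G, Monotone P ∧ (∀ j, P j ≤ M) ∧ (∀ j, Finite (P j)) ∧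
      ∀ g ∈ M, ∃ j, g ∈ P j := by
  obtain ⟨e, he⟩ := exists_surjective_nat M
  refine ⟨fun j => Subgroup.closure ((fun i => (e i : G)) '' (Set.Iio j)), ?_, ?_, ?_, ?_⟩
  · intro i j hij
    exact Subgroup.closure_mono (Set.image_mono (Set.Iio_subset_Iio hij))
  · intro j
    rw [Subgroup.closure_le]
    rintro _ ⟨i, -, rfl⟩
    exact (e i).2
  · intro j
    refine hF.finite_of_le hM ((Subgroup.fg_iff _).mpr ⟨_, rfl, (Set.finite_Iio j).image _⟩) ?_
    rw [Subgroup.closure_le]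
    rintro _ ⟨i, -, rfl⟩
    exact (e i).2
  · intro g hg
    obtain ⟨i, hi⟩ := he ⟨g, hg⟩
    refine ⟨i + 1, Subgroup.subset_closure ⟨i, Nat.lt_succ_self i, ?_⟩⟩
    change (e i : G) = g
    rw [hi]

/-- The selected value: the orbit of `f' x` under `P`. -/
private def caseA_xi (P : Subgroup G) (f' : Bern G Z → Set G) (x : Bern G Z) : Set (Set G) :=
  {u | ∃ h ∈ P, u = h • f' x}

private theorem caseA_xi_eq_iff (P : Subgroup G) (f' : Bern G Z → Set G) (x y : Bern G Z) :
    caseA_xi P f' x = caseA_xi P f' y ↔ ∃ h ∈ P, f' x = h • f' y := by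
  constructor
  · intro h
    have h1 : f' x ∈ caseA_xi P f' x := ⟨1, P.one_mem, (one_smul G _).symm⟩
    rw [h] at h1
    exact h1
  · rintro ⟨h, hh, he⟩
    ext u
    constructor
    · rintro ⟨l, hl, rfl⟩
      exact ⟨l * h, P.mul_mem hl hh, by rw [he, smul_smul]⟩
    · rintro ⟨l, hl, rfl⟩
      exact ⟨l * h⁻¹, P.mul_mem hl (P.inv_mem hh), by rw [he, smul_smul, inv_mul_cancel_right]⟩

private theorem caseA_xi_meas (P : Subgroup G) {f' : Bern G Z → Set G} (hf' : Measurable f')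
    (g h : G) : MeasurableSet {x | caseA_xi P f' (g • x) = caseA_xi P f' (h • x)} := by
  have h1 : {x | caseA_xi P f' (g • x) = caseA_xi P f' (h • x)} =
      ⋃ l ∈ (P : Set G), {x | f' (g • x) = l • f' (h • x)} := by
    ext x
    simp only [Set.mem_ofPred_eq, caseA_xi_eq_iff, Set.mem_iUnion, SetLike.mem_coe, exists_prop]
  rw [h1]
  refine MeasurableSet.biUnion (Set.to_countable _) fun l _ => ?_
  exact caseA_eq_meas (hf'.comp (measurable_const_smul g))
    (caseA_smul_meas (hf'.comp (measurable_const_smul h)) l)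

private theorem caseA_tendsto {f' : Bern G Z → Set G} (hf' : Measurable f') (M : Subgroup G)
    (P : ℕ → Subgroup G) (hP : Monotone P) (hPM : ∀ g ∈ M, ∃ j, g ∈ P j) (g : G)
    (hcoc : ∀ᵐ x ∂(Bern.mu G ζ), ∃ h ∈ M, f' (g • x) = h • f' x) :
    Tendsto (fun j => (Bern.mu G ζ).real
      {x | caseA_xi (P j) f' (g • x) ≠ caseA_xi (P j) f' x}) atTop (nhds 0) := by
  have hm : ∀ j, MeasurableSet {x | caseA_xi (P j) f' (g • x) ≠ caseA_xi (P j) f' x} := by
    intro j
    have h1 := caseA_xi_meas (P j) hf' g 1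
    simp only [one_smul] at h1
    exact h1.compl
  have hanti : Antitone fun j => {x | caseA_xi (P j) f' (g • x) ≠ caseA_xi (P j) f' x} := by
    intro i j hij x hx hne
    apply hx
    rw [caseA_xi_eq_iff] at hne ⊢
    obtain ⟨h, hh, he⟩ := hne
    exact ⟨h, hP hij hh, he⟩
  have h0 : Bern.mu G ζ (⋂ j, {x | caseA_xi (P j) f' (g • x) ≠ caseA_xi (P j) f' x}) = 0 := by
    refine measure_eq_zero_iff_ae_notMem.mpr ?_
    filter_upwards [hcoc] with x hx hmem
    obtain ⟨h, hh, he⟩ := hx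
    obtain ⟨j, hj⟩ := hPM h hh
    have h2 := Set.mem_iInter.mp hmem j
    apply h2
    rw [caseA_xi_eq_iff]
    exact ⟨h, hj, he⟩
  have h3 := tendsto_measure_iInter_atTop (μ := Bern.mu G ζ)
    (fun j => (hm j).nullMeasurableSet) hanti ⟨0, measure_ne_top _ _⟩
  rw [h0] at h3
  have h4 := (ENNReal.tendsto_toReal ENNReal.zero_ne_top).comp h3
  exact h4

/-- Locally finite normalizer: contradiction. -/
theorem case_a [Infinite G] (hζ : ∃ t : Set Z, MeasurableSet t ∧ 0 < ζ t ∧ ζ t < 1) {n : ℕ}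
    (x : Fin n → G) {C : ℝ} (hC : 0 ≤ C) (hT : HasGap x C) (hF : FinOrFI G)
    (f : Bern G Z → Set G) (hf : Measurable f) (hinj : Function.Injective f)
    (k : Bern G Z → G) (hk : ∀ g, MeasurableSet (k ⁻¹' {g})) (M : Subgroup G) (hM : M.index = 0)
    (hcoc : ∀ g : G, ∀ᵐ x ∂(Bern.mu G ζ), ∃ h ∈ M, k (g • x) • f (g • x) = h • (k x • f x)) :
    False := by
  classical
  have _ := hC
  set f' : Bern G Z → Set G := fun x => k x • f x with hf'def
  have hf' : Measurable f' := caseA_k_meas hf hk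
  obtain ⟨P, hPmono, hPle, hPfin, hPM⟩ := caseA_union hF M hM
  have hlim : Tendsto (fun j => 2 * C * ∑ i, (Bern.mu G ζ).real
      {y | caseA_xi (P j) f' (x i • y) ≠ caseA_xi (P j) f' y}) atTop (nhds 0) := by
    have h1 : Tendsto (fun j => ∑ i, (Bern.mu G ζ).real
        {y | caseA_xi (P j) f' (x i • y) ≠ caseA_xi (P j) f' y}) atTop
        (nhds (∑ _i : Fin n, (0 : ℝ))) :=
      tendsto_finsetSum _ fun i _ => caseA_tendsto ζ hf' M P hPmono hPM (x i) (hcoc (x i))
    have h2 := h1.const_mul (2 * C)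
    simpa using h2
  obtain ⟨j, hj⟩ := (hlim.eventually (ge_mem_nhds (show (0 : ℝ) < 1 / 64 by norm_num))).exists
  have := Bern.ergodic (G := G) ζ
  obtain ⟨R, hR⟩ := exists_sel x hT (caseA_xi (P j) f') (Bern.mu G ζ)
    (caseA_xi_meas (P j) hf') hj
  -- the pattern events
  set E : Finset G × Finset G → Set (Bern G Z) := fun q =>
    {y | ∃ d, R y = some d ∧ ∃ u ∈ d, caseA_pat q.1 q.2 u} with hE
  have hEm : ∀ q, MeasurableSet (E q) := by
    intro q
    have h1 : E q = ⋃ g : G, ({y | R y = some (caseA_xi (P j) f' (g • y))} ∩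
        ⋃ h ∈ (P j : Set G), {y | caseA_pat q.1 q.2 (h • f' (g • y))}) := by
      ext y
      simp only [hE, Set.mem_ofPred_eq, Set.mem_iUnion, Set.mem_inter_iff, exists_prop,
        SetLike.mem_coe]
      constructor
      · rintro ⟨d, hd, u, hu, hp⟩
        obtain ⟨g, hg⟩ := hR.ex y d hd
        subst hg
        obtain ⟨h, hh, rfl⟩ := hu
        exact ⟨g, hd, h, hh, hp⟩
      · rintro ⟨g, hd, h, hh, hp⟩
        exact ⟨_, hd, _, ⟨h, hh, rfl⟩, hp⟩
    rw [h1]
    refine MeasurableSet.iUnion fun g => (hR.meas g).inter ?_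
    refine MeasurableSet.biUnion (Set.to_countable _) fun h _ => ?_
    have h2 : {y : Bern G Z | caseA_pat q.1 q.2 (h • f' (g • y))} =
        ⋂ a ∈ (q.1 : Set G), {y | a ∈ h • f' (g • y) ↔ a ∈ q.2} := by
      ext y
      simp only [caseA_pat, Set.mem_ofPred_eq, Set.mem_iInter, Finset.mem_coe]
    rw [h2]
    refine MeasurableSet.biInter (Set.to_countable _) fun a _ => ?_
    exact measurableSet_setOfPred.mpr (((measurable_set_mem a).comp
      (caseA_smul_meas (hf'.comp (measurable_const_smul g)) h)).iff measurable_const)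
  have hEinv : ∀ q (g : G), (g • ·) ⁻¹' (E q) = E q := by
    intro q g
    ext y
    simp only [hE, Set.mem_preimage, Set.mem_ofPred_eq, hR.inv g y]
  have hz : ∀ q, ∀ᵐ y ∂(Bern.mu G ζ), (y ∈ E q ↔ Bern.mu G ζ (E q)ᶜ = 0) := by
    intro q
    rcases Bern.zero_one ζ (E q) (hEm q) Set.univ Set.infinite_univ
      (fun g _ => by rw [hEinv q g]) with h0 | h0
    · have h1 : ∀ᵐ y ∂(Bern.mu G ζ), y ∉ E q := measure_eq_zero_iff_ae_notMem.mp h0
      have h2 : Bern.mu G ζ (E q)ᶜ ≠ 0 := by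
        rw [prob_compl_eq_one_sub (hEm q), h0]
        simp
      filter_upwards [h1] with y hy
      exact ⟨fun h3 => absurd h3 hy, fun h3 => absurd h3 h2⟩
    · have h1 : ∀ᵐ y ∂(Bern.mu G ζ), y ∉ (E q)ᶜ := measure_eq_zero_iff_ae_notMem.mp h0
      filter_upwards [h1] with y hy
      exact ⟨fun _ => h0, fun _ => not_not.mp hy⟩
  have hzall := ae_all_iff.mpr hz
  obtain ⟨y₀, hy₀, hne₀⟩ := (hzall.and hR.ae).exists
  obtain ⟨d₀, hd₀⟩ := Option.ne_none_iff_exists'.mp hne₀
  obtain ⟨g₀, hg₀⟩ := hR.ex y₀ d₀ hd₀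
  set u : Set G := f' (g₀ • y₀) with hu
  have hud : u ∈ d₀ := by
    rw [hg₀]
    exact ⟨1, (P j).one_mem, (one_smul G _).symm⟩
  apply not_ae_orbit ζ hζ f hinj u
  filter_upwards [hzall, hR.ae, ae_all_iff.mpr hcoc] with y hy hne hc
  obtain ⟨d, hd⟩ := Option.ne_none_iff_exists'.mp hne
  obtain ⟨g, hg⟩ := hR.ex y d hd
  have hdfin : d.Finite := by
    rw [hg]
    have h1 : caseA_xi (P j) f' (g • y) = (fun h : G => h • f' (g • y)) '' (P j : Set G) := by
      ext v
      constructor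
      · rintro ⟨h, hh, rfl⟩
        exact ⟨h, hh, rfl⟩
      · rintro ⟨h, hh, rfl⟩
        exact ⟨h, hh, rfl⟩
    rw [h1]
    have := hPfin j
    exact (Set.toFinite (P j : Set G)).image _
  have hsub : d₀ ⊆ d := by
    refine caseA_subset d₀ d hdfin ?_
    intro W A hWA
    have h1 : y₀ ∈ E (W, A) := ⟨d₀, hd₀, hWA⟩
    have h2 := (hy (W, A)).mpr ((hy₀ (W, A)).mp h1)
    obtain ⟨d', hd', h3⟩ := h2
    rw [hd, Option.some_inj] at hd'
    subst hd'
    exact h3
  have h4 := hsub hud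
  rw [hg] at h4
  obtain ⟨h, -, hh⟩ := h4
  obtain ⟨m, -, hm⟩ := hc g
  refine ⟨(k y)⁻¹ * m⁻¹ * h⁻¹, ?_⟩
  have h5 : u = (h * m * k y) • f y := by
    rw [hh, mul_smul, mul_smul]
    exact congrArg (fun v => h • v) hm
  rw [h5, smul_smul]
  have h6 : (k y)⁻¹ * m⁻¹ * h⁻¹ * (h * m * k y) = 1 := by group
  rw [h6, one_smul]

end Pool.Agent.TLA
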