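import Pool.Agent.TLA.ChainFacts

/-! Killing a family of elements and all their conjugates. -/

set_option autoImplicit false

namespace Pool.Agent.TLA

variable {p : ℕ} {Γ : Type} [Group Γ]

/-- The normal closure is generated by the conjugates under `H` of the conjugates by coset
representatives. -/
theorem kill_closure {H : Subgroup Γ} (hN : H.Normal) {J : Type} (g : J → Γ) :
    Subgroup.normalClosure (Set.range g) =
      Subgroup.closure {x | ∃ h ∈ H, ∃ j : J × (Γ ⧸ H),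
        x = h * (j.2.out * g j.1 * j.2.out⁻¹) * h⁻¹} := by
  apply le_antisymm
  · unfold Subgroup.normalClosure
    rw [Subgroup.closure_le]
    intro x hx
    rw [Group.mem_conjugatesOfSet_iff] at hx
    obtain ⟨_, ⟨j, rfl⟩, hc⟩ := hx
    obtain ⟨a, rfl⟩ := isConj_iff.1 hc
    have h1 : ((a : Γ ⧸ H).out)⁻¹ * a ∈ H := by
      rw [← QuotientGroup.eq]
      exact QuotientGroup.out_eq' _
    have h2 : a * ((a : Γ ⧸ H).out)⁻¹ ∈ H := by
      have h3 := hN.conj_mem _ h1 ((a : Γ ⧸ H).out)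
      rwa [mul_inv_cancel_left] at h3
    refine Subgroup.subset_closure ⟨a * ((a : Γ ⧸ H).out)⁻¹, h2, (j, (a : Γ ⧸ H)), ?_⟩
    show a * g j * a⁻¹ = _
    dsimp only
    group
  · rw [Subgroup.closure_le]
    rintro _ ⟨h, _, j, rfl⟩
    have hn : (Subgroup.normalClosure (Set.range g)).Normal := inferInstance
    exact hn.conj_mem _ (hn.conj_mem _ (Subgroup.subset_normalClosure ⟨j.1, rfl⟩) _) _

theorem kill_summable {J C : Type} [Finite C] {m : J → ℝ} (hm : ∀ j, 0 < m j)
    (hs : Summable m) : Summable (fun j : J × C => m j.1) ∧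
      ∑' j : J × C, m j.1 = (Nat.card C : ℝ) * ∑' j, m j := by
  classical
  have := Fintype.ofFinite C
  have hin : ∀ j : J, ∑' _c : C, m j = (Nat.card C : ℝ) * m j := by
    intro j
    rw [tsum_fintype, Finset.sum_const, Finset.card_univ, nsmul_eq_mul, Nat.card_eq_fintype_card]
  have hsum : Summable (fun j : J × C => m j.1) := by
    rw [summable_prod_of_nonneg (fun j => (hm j.1).le)]
    refine ⟨fun j => Summable.of_finite, ?_⟩
    simp only [hin]
    exact hs.mul_left _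
  refine ⟨hsum, ?_⟩
  rw [hsum.tsum_prod]
  simp only [hin]
  exact tsum_mul_left

/-- Killing elements of small norm. -/
theorem kill [Fact p.Prime] (S : WSys Γ) (hN : S.H.Normal) (k : ℕ) (hk : S.H.index = p ^ k)
    (hI : S.Inv p) {D : ℝ} (hD : S.HasDef p D) {J : Type} [Countable J] (g : J → Γ) (m : J → ℝ)
    (hg : ∀ j, g j ∈ S.H) (hm : ∀ j, 0 < m j) (hs : Summable m)
    (hgm : ∀ j, S.n p (g j) ≤ m j) (hlt : (p : ℝ) ^ k * ∑' j, m j < D) :
    Subgroup.normalClosure (Set.range g) ≤ S.H ∧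
      Good p (S.H.map (QuotientGroup.mk' (Subgroup.normalClosure (Set.range g)))) := by
  have hle : Subgroup.normalClosure (Set.range g) ≤ S.H := by
    refine Subgroup.normalClosure_le_normal ?_
    rintro _ ⟨j, rfl⟩
    exact hg j
  refine ⟨hle, ?_⟩
  have hsurj := QuotientGroup.mk'_surjective (Subgroup.normalClosure (Set.range g))
  have hp : 0 < p := (Fact.out : p.Prime).pos
  have hidx : S.H.index ≠ 0 := by
    rw [hk]
    exact (pow_pos hp k).ne'
  have : Finite (Γ ⧸ S.H) := Nat.finite_of_card_ne_zero hidx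
  have hcard : Nat.card (Γ ⧸ S.H) = p ^ k := hk
  obtain ⟨h1, h2⟩ := kill_summable (C := Γ ⧸ S.H) hm hs
  have h3 := S.map_hasDef p (QuotientGroup.mk' (Subgroup.normalClosure (Set.range g)))
    (J := J × (Γ ⧸ S.H)) (fun j => j.2.out * g j.1 * j.2.out⁻¹) (fun j => m j.1)
    (fun j => hN.conj_mem _ (hg j.1) _) (fun j => hm j.1) h1
    (fun j => (S.n_le_iff p (hm j.1) (hN.conj_mem _ (hg j.1) _)).1
      ((S.n_conj p hI (hg j.1) _).trans_le (hgm j.1)))
    ((QuotientGroup.ker_mk' _).trans (kill_closure hN g)) hD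
  rw [h2, hcard, Nat.cast_pow] at h3
  refine ⟨hN.map _ hsurj, ⟨k, ?_⟩, _, _, S.map_H _, ?_, h3, S.map_inv p _ hsurj hI⟩
  · rw [Subgroup.index_map_eq _ hsurj (by rw [QuotientGroup.ker_mk']; exact hle), hk]
  · linarith

/-- A product of coset representatives: if a family `y j ∈ E j` with `φ j (y j) ≠ 0` is given,
then every element of `E m` is a product of a word in the `y j`, `m ≤ j < n`, and an element
of `E n`. -/
theorem mem_mul_E [Fact p.Prime] {S : WSys Γ} {D : ℝ} (C : Chain p S D) (y : ℕ → Γ)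
    (hy : ∀ j, y j ∈ C.E j) (hyφ : ∀ j, C.φ j (y j) ≠ 0) (m n : ℕ) (hmn : m ≤ n) (x : Γ)
    (hx : x ∈ C.E m) :
    ∃ a ∈ Subgroup.closure {g | ∃ j, m ≤ j ∧ j < n ∧ g = y j}, ∃ b ∈ C.E n, x = a * b := by
  induction n, hmn using Nat.le_induction with
  | base => exact ⟨1, one_mem _, x, hx, (one_mul x).symm⟩
  | succ n hn ih =>
    obtain ⟨a, ha, b, hb, rfl⟩ := ih
    have hone : C.φ n 1 = 0 := by
      have h := C.add n 1 (one_mem _) 1 (one_mem _)
      rw [mul_one] at h
      simpa using h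
    have hinv : ∀ z ∈ C.E n, C.φ n z⁻¹ = - C.φ n z := by
      intro z hz
      have h := C.add n z hz z⁻¹ (inv_mem hz)
      rw [mul_inv_cancel, hone] at h
      exact (neg_eq_of_add_eq_zero_right h.symm).symm
    have hpow : ∀ k : ℕ, C.φ n (y n ^ k) = (k : ZMod p) * C.φ n (y n) := by
      intro k
      induction k with
      | zero => rw [pow_zero, hone, Nat.cast_zero, zero_mul]
      | succ k ihk =>
        rw [pow_succ, C.add n _ (pow_mem (hy n) k) _ (hy n), ihk, Nat.cast_succ, add_mul, one_mul]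
    obtain ⟨k, hk⟩ : ∃ k : ℕ, (k : ZMod p) * C.φ n (y n) = C.φ n b := by
      refine ⟨(C.φ n b / C.φ n (y n)).val, ?_⟩
      rw [ZMod.natCast_zmod_val, div_mul_cancel₀ _ (hyφ n)]
    have hsub : {g | ∃ j, m ≤ j ∧ j < n ∧ g = y j} ⊆ {g | ∃ j, m ≤ j ∧ j < n + 1 ∧ g = y j} := by
      rintro _ ⟨j, h1, h2, rfl⟩
      exact ⟨j, h1, h2.trans (Nat.lt_succ_self n), rfl⟩
    have hyn : y n ∈ Subgroup.closure {g | ∃ j, m ≤ j ∧ j < n + 1 ∧ g = y j} :=
      Subgroup.subset_closure ⟨n, hn, Nat.lt_succ_self n, rfl⟩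
    refine ⟨a * y n ^ k, mul_mem (Subgroup.closure_mono hsub ha) (pow_mem hyn k),
      (y n ^ k)⁻¹ * b, ?_, by group⟩
    · have h1 : y n ^ k ∈ C.E n := pow_mem (hy n) k
      rw [C.mem_succ]
      refine ⟨mul_mem (inv_mem h1) hb, ?_⟩
      rw [C.add n _ (inv_mem h1) _ hb, hinv _ h1, hpow, hk, neg_add_cancel]

end Pool.Agent.TLA
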