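import Pool.Agent.TLA.Active
import Pool.Agent.TLA.Kill

/-! Case 1 of the stage: the idle norms are not summable. -/

set_option autoImplicit false

namespace Pool.Agent.TLA

variable {p : ℕ} {Γ : Type} [Group Γ]

private theorem caseActive_prod (f c : ℕ → ℝ) (hc : ∀ j, 0 ≤ c j) (h : ∀ j, 1 + c j ≤ f j)
    (n : ℕ) : 1 + ∑ j ∈ Finset.range n, c j ≤ ∏ j ∈ Finset.range n, f j := by
  induction n with
  | zero => simp
  | succ n ih =>
    rw [Finset.sum_range_succ, Finset.prod_range_succ]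
    have h1 : 0 ≤ ∑ j ∈ Finset.range n, c j := Finset.sum_nonneg fun j _ => hc j
    have h2 := h n
    have h3 := hc n
    have h4 : (1 + ∑ j ∈ Finset.range n, c j) * (1 + c n) ≤
        (∏ j ∈ Finset.range n, f j) * f n :=
      mul_le_mul ih h2 (by linarith) (by linarith)
    have h5 : 0 ≤ (∑ j ∈ Finset.range n, c j) * c n := mul_nonneg h1 h3
    nlinarith

private theorem caseActive_gens (Λ H : Subgroup Γ) (hΛ : Λ.FG) (hH : H.index ≠ 0) :
    ∃ (ι : Type) (_ : Fintype ι) (X : ι → Γ),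
      Subgroup.closure (Set.range X) = Λ ⊓ H := by
  have i1 : H.FiniteIndex := ⟨hH⟩
  have i2 : Group.FG Λ := (Group.fg_iff_subgroup_fg Λ).2 hΛ
  have h1 : Group.FG (H.subgroupOf Λ) := inferInstance
  have h2 : (H.subgroupOf Λ).FG := (Group.fg_iff_subgroup_fg _).1 h1
  obtain ⟨T, hT⟩ := h2
  refine ⟨T, inferInstance, fun t => ((t : Λ) : Γ), ?_⟩
  have h3 := Subgroup.subgroupOf_map_subtype H Λ
  rw [← hT, MonoidHom.map_closure] at h3
  have h4 : Set.range (fun t : T => ((t : Λ) : Γ)) = Λ.subtype '' (T : Set Λ) := by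
    ext x
    constructor
    · rintro ⟨t, rfl⟩
      exact ⟨t.1, t.2, rfl⟩
    · rintro ⟨t, ht, rfl⟩
      exact ⟨⟨t, ht⟩, rfl⟩
  rw [h4, h3, inf_comm]

private theorem caseActive_act {S : WSys Γ} {D : ℝ} (C : Chain p S D) (Λ : Subgroup Γ) (j : ℕ) :
    C.Act (Λ ⊓ S.H) j ↔ C.Act Λ j := by
  constructor
  · rintro ⟨x, hx, h1, h2⟩
    exact ⟨x, hx.1, h1, h2⟩
  · rintro ⟨x, hx, h1, h2⟩
    exact ⟨x, ⟨hx, C.le_H j h1⟩, h1, h2⟩

private theorem caseActive_index [Fact p.Prime] {S : WSys Γ} {D : ℝ} (C : Chain p S D) (k : ℕ)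
    (hk : S.H.index = p ^ k) (n : ℕ) : (C.E n).index = p ^ (n + k) := by
  rw [← Subgroup.relIndex_mul_index (C.le_H n), C.relIndex n, hk, pow_add]

open Classical in
private theorem caseActive_choose [Fact p.Prime] {S : WSys Γ} {D : ℝ} (hpos : 0 < D)
    (C : Chain p S D) (Λ : Subgroup Γ)
    (hs : ¬ Summable (fun j => if C.Act Λ j then 0 else C.c j)) (W : ℝ) :
    ∃ n, C.E n = S.ball p (C.c n) ∧
      (W - 1) * ∏ j ∈ Finset.range n, (if C.Act Λ j then tau p (C.c j) else 1) <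
        D * ∏ j ∈ Finset.range n, tau p (C.c j) := by
  have hnn : ∀ j, (0 : ℝ) ≤ (if C.Act Λ j then 0 else C.c j) := by
    intro j
    split_ifs
    · exact le_refl _
    · exact (C.c_pos j).le
  have ht := (not_summable_iff_tendsto_nat_atTop_of_nonneg hnn).1 hs
  obtain ⟨N, hN⟩ := Filter.eventually_atTop.1 (ht.eventually_gt_atTop ((W - 1) / D))
  obtain ⟨n, hn, hball⟩ := C.exists_drop N
  refine ⟨n, hball, ?_⟩
  have h1 := hN n hn
  have h2 := caseActive_prod (fun j => if C.Act Λ j then 1 else tau p (C.c j))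
    (fun j => if C.Act Λ j then 0 else C.c j) hnn (by
      intro j
      split_ifs
      · simp
      · exact one_add_le_tau p (C.c_pos j).le) n
  have h3 : 0 < ∏ j ∈ Finset.range n, (if C.Act Λ j then tau p (C.c j) else 1) := by
    refine Finset.prod_pos fun j _ => ?_
    split_ifs
    · exact tau_pos p (C.c_pos j).le
    · exact one_pos
  have h4 : ∏ j ∈ Finset.range n, tau p (C.c j) =
      (∏ j ∈ Finset.range n, (if C.Act Λ j then tau p (C.c j) else 1)) *
        ∏ j ∈ Finset.range n, (if C.Act Λ j then 1 else tau p (C.c j)) := by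
    rw [← Finset.prod_mul_distrib]
    refine Finset.prod_congr rfl fun j _ => ?_
    split_ifs
    · rw [mul_one]
    · rw [one_mul]
  rw [h4]
  have h5 : W - 1 < D * ∏ j ∈ Finset.range n, (if C.Act Λ j then 1 else tau p (C.c j)) := by
    have h6 : W - 1 < D * ∑ j ∈ Finset.range n, (if C.Act Λ j then 0 else C.c j) := by
      rw [div_lt_iff₀ hpos] at h1
      linarith
    have h7 : D * (1 + ∑ j ∈ Finset.range n, (if C.Act Λ j then 0 else C.c j)) ≤
        D * ∏ j ∈ Finset.range n, (if C.Act Λ j then 1 else tau p (C.c j)) :=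
      mul_le_mul_of_nonneg_left h2 hpos.le
    linarith
  have h8 := mul_lt_mul_of_pos_right h5 h3
  linarith

open Classical in
/-- If the idle norms are not summable, there is a deeper system in which the intersection with
`Λ` has generators of total norm less than one. -/
theorem case_active_reduce [Fact p.Prime] (S : WSys Γ) (k : ℕ) (hk : S.H.index = p ^ k)
    (hI : S.Inv p) {D : ℝ} (hD : S.HasDef p D) (hpos : 0 < D) (Λ : Subgroup Γ) (hΛ : Λ.FG)
    (C : Chain p S D) (hs : ¬ Summable (fun j => if C.Act Λ j then 0 else C.c j)) :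
    ∃ (S' : WSys Γ) (D' : ℝ) (k' : ℕ), S'.H ≤ S.H ∧ S'.H.Normal ∧ S'.H.index = p ^ k' ∧
      S'.Inv p ∧ 0 < D' ∧ S'.HasDef p D' ∧
      ∃ (ι : Type) (_ : Fintype ι) (X : ι → Γ),
        Subgroup.closure (Set.range X) = Λ ⊓ S'.H ∧ ∑ i, S'.n p (X i) < 1 := by
  have hp0 : p ≠ 0 := (Fact.out : p.Prime).ne_zero
  obtain ⟨ι, hι, X, hX⟩ := caseActive_gens Λ S.H hΛ (by rw [hk]; exact pow_ne_zero k hp0)
  obtain ⟨n, hball, hlt⟩ := caseActive_choose hpos C Λ hs (∑ i, S.n p (X i))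
  obtain ⟨ι', hι', X', hX', hsum⟩ := sub_chain C (Λ ⊓ S.H) inf_le_right X hX n
  have hprod : ∏ j ∈ Finset.range n, (if C.Act (Λ ⊓ S.H) j then tau p (C.c j) else 1) =
      ∏ j ∈ Finset.range n, (if C.Act Λ j then tau p (C.c j) else 1) := by
    refine Finset.prod_congr rfl fun j _ => ?_
    by_cases h : C.Act Λ j
    · rw [if_pos h, if_pos ((caseActive_act C Λ j).2 h)]
    · rw [if_neg h, if_neg (fun h' => h ((caseActive_act C Λ j).1 h'))]
  rw [hprod] at hsum
  obtain ⟨hnorm, S1, hH, hM, hdef, hinv, hDpos⟩ := C.sys_inv hI hpos n hball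
  set Dn : ℝ := D * ∏ i ∈ Finset.range n, tau p (C.c i) with hDn
  have hinf : Λ ⊓ S.H ⊓ C.E n = Λ ⊓ C.E n := by
    rw [inf_assoc, inf_eq_right.2 (C.le_H n)]
  set W' : ℝ := ∑ i, S.n p (X' i) with hW'
  have hW : W' < Dn + 1 := by linarith
  have hmax : max 1 W' < Dn + 1 := max_lt (by linarith) hW
  set lam : ℝ := (max 1 W' + (Dn + 1)) / 2 with hlam
  have h1m : (1 : ℝ) ≤ max 1 W' := le_max_left _ _
  have h2m : W' ≤ max 1 W' := le_max_right _ _
  have hl : 1 ≤ lam := by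
    rw [hlam]
    linarith
  have hl0 : 0 < lam := by linarith
  have hlW : W' < lam := by
    rw [hlam]
    linarith
  have hlD : lam < Dn + 1 := by
    rw [hlam]
    linarith
  have hmem : ∀ i, X' i ∈ C.E n := by
    intro i
    have h1 : X' i ∈ Subgroup.closure (Set.range X') := Subgroup.subset_closure ⟨i, rfl⟩
    rw [hX'] at h1
    exact h1.2
  refine ⟨S1.scale lam hl, (Dn + 1) / lam - 1, n + k, ?_, ?_, ?_, ?_, ?_, ?_, ι', hι', X', ?_, ?_⟩
  · rw [WSys.scale_H, hH]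
    exact C.le_H n
  · rw [WSys.scale_H, hH]
    exact hnorm
  · rw [WSys.scale_H, hH]
    exact caseActive_index C k hk n
  · exact S1.scale_inv p hl hinv
  · have h1 : 1 < (Dn + 1) / lam := (one_lt_div hl0).2 hlD
    linarith
  · exact S1.scale_hasDef p hl hdef
  · rw [WSys.scale_H, hH, hX', hinf]
  · have h1 : ∀ i, (S1.scale lam hl).n p (X' i) ≤ S.n p (X' i) / lam := by
      intro i
      have h2 : X' i ∈ S1.H := by
        rw [hH]
        exact hmem i
      have h3 := S1.scale_n_le p hl h2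
      rwa [WSys.n_sub_eq p S S1 (by rw [hH]; exact hM) h2] at h3
    have h2 : ∑ i, (S1.scale lam hl).n p (X' i) ≤ ∑ i, S.n p (X' i) / lam :=
      Finset.sum_le_sum fun i _ => h1 i
    rw [← Finset.sum_div] at h2
    have h3 : W' / lam < 1 := (div_lt_one hl0).2 hlW
    exact lt_of_le_of_lt h2 h3

private theorem caseActive_pow {S : WSys Γ} {D : ℝ} (C : Chain p S D) (j : ℕ) {y : Γ}
    (hy : y ∈ C.E j) (e : ℕ) : C.φ j (y ^ e) = e * C.φ j y := by
  induction e with
  | zero =>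
    have h1 := C.add j 1 (C.E j).one_mem 1 (C.E j).one_mem
    rw [mul_one] at h1
    have h2 : C.φ j 1 = 0 := by
      have h3 : C.φ j 1 + 0 = C.φ j 1 + C.φ j 1 := by rw [add_zero]; exact h1
      exact (add_left_cancel h3).symm
    rw [pow_zero, h2, Nat.cast_zero, zero_mul]
  | succ e ih =>
    rw [pow_succ, C.add j _ ((C.E j).pow_mem hy e) _ hy, ih, Nat.cast_succ, add_mul, one_mul]

private theorem caseActive_step [Fact p.Prime] {S : WSys Γ} {D : ℝ} (C : Chain p S D)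
    (M N : Subgroup Γ) [N.Normal] (j : ℕ) (y : Γ) (hy : y ∈ M) (hyE : y ∈ C.E j)
    (hyφ : C.φ j y ≠ 0) (hyN : y ∈ N) (b : Γ) (hb : b ∈ M) (hbE : b ∈ C.E j) :
    ∃ a ∈ N, ∃ b' ∈ M, b' ∈ C.E (j + 1) ∧ b = a * b' := by
  set e : ℕ := (-(C.φ j b) / C.φ j y).val with he
  have h1 : C.φ j (b * y ^ e) = 0 := by
    rw [C.add j _ hbE _ ((C.E j).pow_mem hyE e), caseActive_pow C j hyE e, he,
      ZMod.natCast_val, ZMod.cast_id, div_mul_cancel₀ _ hyφ]
    ring
  refine ⟨b * (y ^ e)⁻¹ * b⁻¹, ?_, b * y ^ e, M.mul_mem hb (M.pow_mem hy e), ?_, ?_⟩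
  · exact ‹N.Normal›.conj_mem _ (N.inv_mem (N.pow_mem hyN e)) b
  · rw [C.mem_succ]
    exact ⟨(C.E j).mul_mem hbE ((C.E j).pow_mem hyE e), h1⟩
  · group

/-- If the intersection with `Λ` has generators of total norm less than one, then `Λ` can be made
finite in the residual quotient. -/
theorem case_active_kill [Fact p.Prime] (S : WSys Γ) (hN : S.H.Normal) (k : ℕ)
    (hk : S.H.index = p ^ k) (hI : S.Inv p) {D : ℝ} (hD : S.HasDef p D) (hpos : 0 < D)
    (Λ : Subgroup Γ) {ι : Type} [Fintype ι] (X : ι → Γ)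
    (hX : Subgroup.closure (Set.range X) = Λ ⊓ S.H) (h1 : ∑ i, S.n p (X i) < 1) :
    ∃ (N : Subgroup Γ) (_ : N.Normal), N ≤ S.H ∧ Good p (S.H.map (QuotientGroup.mk' N)) ∧
      ∃ L : Subgroup Γ, L ≤ Λ ∧ L.relIndex Λ ≠ 0 ∧
        ∀ U : Subgroup Γ, U.Normal → (∃ k, U.index = p ^ k) → N ≤ U → L ≤ U := by
  classical
  have hp0 : p ≠ 0 := (Fact.out : p.Prime).ne_zero
  obtain ⟨C⟩ := exists_chain p S hD hpos
  have hsum := active_summable C (Λ ⊓ S.H) inf_le_right X hX h1
  set f : ℕ → ℝ := fun j => if C.Act (Λ ⊓ S.H) j then C.c j else 0 with hf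
  have hpk : (0 : ℝ) < (p : ℝ) ^ k := by
    have h2 : (0 : ℝ) < (p : ℝ) := by
      exact_mod_cast (Fact.out : p.Prime).pos
    exact pow_pos h2 k
  have htail : Filter.Tendsto (fun m => ∑' j, f (j + m)) Filter.atTop (nhds 0) :=
    tendsto_sum_nat_add f
  obtain ⟨m, hm⟩ := (htail.eventually_lt_const (div_pos hpos hpk)).exists
  let J : Type := {j : ℕ // C.Act (Λ ⊓ S.H) (j + m)}
  have hy : ∀ j : J, ∃ y, y ∈ Λ ⊓ S.H ∧ y ∈ C.E (j.1 + m) ∧ C.φ (j.1 + m) y ≠ 0 := fun j => j.2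
  choose y hyM hyE hyφ using hy
  have hfJ : ∀ j : J, f (j.1 + m) = C.c (j.1 + m) := fun j => if_pos j.2
  have hsm : Summable (fun j => f (j + m)) := (summable_nat_add_iff m).2 hsum
  have hsJ : Summable (fun j : J => C.c (j.1 + m)) := by
    have h2 : Summable (fun j : J => f (j.1 + m)) :=
      hsm.comp_injective Subtype.val_injective
    refine h2.congr fun j => ?_
    exact hfJ j
  have htJ : ∑' j : J, C.c (j.1 + m) ≤ ∑' j, f (j + m) := by
    have h2 : ∑' j : J, C.c (j.1 + m) = ∑' j : J, f (j.1 + m) :=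
      tsum_congr fun j => (hfJ j).symm
    rw [h2]
    have hnn : ∀ j, 0 ≤ f (j + m) := by
      intro j
      rw [hf]
      dsimp only
      split_ifs
      · exact (C.c_pos _).le
      · exact le_refl _
    exact Summable.tsum_subtype_le (fun j => f (j + m)) {j | C.Act (Λ ⊓ S.H) (j + m)} hnn hsm
  obtain ⟨hNH, hgood⟩ := kill S hN k hk hI hD y (fun j => C.c (j.1 + m))
    (fun j => (hyM j).2) (fun j => C.c_pos _) hsJ (fun j => C.n_le _ _ (hyE j)) (by
      have h2 := lt_of_le_of_lt htJ hm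
      rw [lt_div_iff₀ hpk] at h2
      linarith)
  refine ⟨Subgroup.normalClosure (Set.range y), Subgroup.normalClosure_normal, hNH, hgood,
    Λ ⊓ C.E m, inf_le_left, ?_, ?_⟩
  · rw [inf_comm, Subgroup.inf_relIndex_right]
    have h2 : (C.E m).index ≠ 0 := by
      rw [caseActive_index C k hk m]
      exact pow_ne_zero _ hp0
    have i1 : (C.E m).FiniteIndex := ⟨h2⟩
    have i2 : ((C.E m).subgroupOf Λ).FiniteIndex := inferInstance
    exact i2.index_ne_zero
  · rintro U hU ⟨kU, hkU⟩ hNU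
    obtain ⟨j0, hj0⟩ := C.exists_E_le U hU kU hkU
    have key : ∀ n, ∀ x ∈ Λ ⊓ C.E m, ∃ a ∈ Subgroup.normalClosure (Set.range y),
        ∃ b ∈ Λ ⊓ S.H, b ∈ C.E (n + m) ∧ x = a * b := by
      intro n
      induction n with
      | zero =>
        intro x hx
        refine ⟨1, Subgroup.one_mem _, x, ⟨hx.1, C.le_H m hx.2⟩, ?_, (one_mul x).symm⟩
        rw [zero_add]
        exact hx.2
      | succ n ih =>
        intro x hx
        obtain ⟨a, ha, b, hb, hbE, rfl⟩ := ih x hx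
        have hidx : n + 1 + m = n + m + 1 := by omega
        rw [hidx]
        by_cases hact : C.Act (Λ ⊓ S.H) (n + m)
        · have hyN : y ⟨n, hact⟩ ∈ Subgroup.normalClosure (Set.range y) :=
            Subgroup.subset_normalClosure ⟨_, rfl⟩
          obtain ⟨a', ha', b', hb', hbE', rfl⟩ := caseActive_step C (Λ ⊓ S.H)
            (Subgroup.normalClosure (Set.range y)) (n + m) (y ⟨n, hact⟩) (hyM _)
            (hyE ⟨n, hact⟩) (hyφ ⟨n, hact⟩) hyN b hb hbE
          exact ⟨a * a', Subgroup.mul_mem _ ha ha', b', hb', hbE', (mul_assoc a a' b').symm⟩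
        · have h2 : C.φ (n + m) b = 0 := by
            by_contra h3
            exact hact ⟨b, hb, hbE, h3⟩
          exact ⟨a, ha, b, hb, (C.mem_succ _ _).2 ⟨hbE, h2⟩, rfl⟩
    intro x hx
    obtain ⟨a, ha, b, hb, hbE, rfl⟩ := key j0 x hx
    exact U.mul_mem (hNU ha) (hj0 (C.anti (Nat.le_add_right j0 m) hbE))

end Pool.Agent.TLA
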