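import Pool.Agent.TLA.Count
import Pool.Agent.TLA.CaseA

/-! Equivariance through a homomorphism (block D4 (c)). -/

set_option autoImplicit false

open MeasureTheory Filter
open scoped Pointwise

namespace Pool.Agent.TLA

private theorem caseRho_meas_smul {G X : Type} [Group G] [MeasurableSpace X] (g : G)
    (f : X → Set G) (hf : Measurable f) : Measurable (fun x => g • f x) := by
  rw [measurable_set_iff] at hf ⊢
  intro a
  have h : (fun x => a ∈ g • f x) = fun x => g⁻¹ * a ∈ f x := by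
    funext x
    rw [Set.mem_smul_set_iff_inv_smul_mem, smul_eq_mul]
  rw [h]
  exact hf (g⁻¹ * a)

private theorem caseRho_meas {G X : Type} [Group G] [Countable G] [MeasurableSpace X]
    (f : X → Set G) (hf : Measurable f) (k : X → G) (hk : ∀ g, MeasurableSet (k ⁻¹' {g})) :
    Measurable (fun x => k x • f x) := by
  intro s hs
  have h : (fun x => k x • f x) ⁻¹' s = ⋃ g : G, (k ⁻¹' {g} ∩ (fun x => g • f x) ⁻¹' s) := by
    ext x
    simp only [Set.mem_preimage, Set.mem_iUnion, Set.mem_inter_iff, Set.mem_singleton_iff]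
    constructor
    · intro hx
      exact ⟨k x, rfl, hx⟩
    · rintro ⟨g, rfl, hx⟩
      exact hx
  rw [h]
  exact MeasurableSet.iUnion fun g => (hk g).inter (caseRho_meas_smul g f hf hs)

variable {G Z : Type} [Group G] [Countable G] [MeasurableSpace Z] (ζ : Measure Z)
  [IsProbabilityMeasure ζ]

/-- The end of the argument: a translate of `f` which is equivariant through a homomorphism
`ρ : G → M / K`, `K` finite. -/
theorem case_rho [Infinite G] [StandardBorelSpace Z] [Group.FG G]
    (hζ : ∃ t : Set Z, MeasurableSet t ∧ 0 < ζ t ∧ ζ t < 1)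
    (hRF : ∀ F : Finset G, ∃ N : Subgroup G, N.Normal ∧ N.index ≠ 0 ∧
      ∀ a ∈ F, ∀ b ∈ F, a⁻¹ * b ∈ N → a = b)
    (huni : ∀ L₀ : ℕ, ∃ L : ℕ, L₀ ≤ L ∧ ∃ τ₀ : Z → Fin L, Measurable τ₀ ∧
      ∀ i, ζ (τ₀ ⁻¹' {i}) = (L : ENNReal)⁻¹)
    (hF : FinOrFI G) (f : Bern G Z → Set G) (hf : Measurable f) (hinj : Function.Injective f)
    (k : Bern G Z → G) (hk : ∀ g, MeasurableSet (k ⁻¹' {g})) (M K : Subgroup G) (hKM : K ≤ M)
    (hKf : Finite K) [(K.subgroupOf M).Normal]
    (hst : ∀ᵐ x ∂(Bern.mu G ζ), MulAction.stabilizer G (k x • f x) = K)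
    (ρ : G →* M ⧸ K.subgroupOf M)
    (hρ : ∀ g, ∀ᵐ x ∂(Bern.mu G ζ), ∀ h : M, (h : M ⧸ K.subgroupOf M) = ρ g →
        k (g • x) • f (g • x) = (h : G) • (k x • f x)) : False := by
  classical
  obtain ⟨S, hS⟩ := Group.fg_def.mp (inferInstance : Group.FG G)
  choose m hm using fun g : G => QuotientGroup.mk_surjective (ρ g)
  set A : Set G := (fun s => ((m s : M) : G)) '' (S : Set G) ∪ (K : Set G) with hA
  set M' : Subgroup G := Subgroup.closure A with hM'
  have hAfin : A.Finite := (S.finite_toSet.image _).union (Set.toFinite (K : Set G))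
  have hfg : M'.FG := (Subgroup.fg_iff M').mpr ⟨A, rfl, hAfin⟩
  -- every element of `M'` is a lift of a value of `ρ`
  have h1 : ∀ q ∈ M', ∃ g : G, ∃ h : M, (h : G) = q ∧ (h : M ⧸ K.subgroupOf M) = ρ g := by
    intro q hq
    induction hq using Subgroup.closure_induction with
    | mem q hq =>
      rcases hq with ⟨s, -, rfl⟩ | hq
      · exact ⟨s, m s, rfl, hm s⟩
      · refine ⟨1, ⟨q, hKM hq⟩, rfl, ?_⟩
        rw [map_one]
        exact (QuotientGroup.eq_one_iff _).mpr hq
    | one => exact ⟨1, 1, rfl, by rw [map_one, QuotientGroup.mk_one]⟩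
    | mul a b _ _ iha ihb =>
      obtain ⟨g, h, rfl, hg⟩ := iha
      obtain ⟨g', h', rfl, hg'⟩ := ihb
      exact ⟨g * g', h * h', rfl, by rw [map_mul, QuotientGroup.mk_mul, hg, hg']⟩
    | inv a _ iha =>
      obtain ⟨g, h, rfl, hg⟩ := iha
      exact ⟨g⁻¹, h⁻¹, rfl, by rw [map_inv, QuotientGroup.mk_inv, hg]⟩
  -- every value of `ρ` has a lift in `M'`
  have h2 : ∀ g : G, ∃ h : M, (h : G) ∈ M' ∧ (h : M ⧸ K.subgroupOf M) = ρ g := by
    intro g
    have hg : g ∈ Subgroup.closure (S : Set G) := by rw [hS]; trivial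
    induction hg using Subgroup.closure_induction with
    | mem s hs =>
      exact ⟨m s, Subgroup.subset_closure (Or.inl ⟨s, hs, rfl⟩), hm s⟩
    | one => exact ⟨1, M'.one_mem, by rw [map_one, QuotientGroup.mk_one]⟩
    | mul a b _ _ iha ihb =>
      obtain ⟨h, hh, hg⟩ := iha
      obtain ⟨h', hh', hg'⟩ := ihb
      exact ⟨h * h', M'.mul_mem hh hh', by rw [map_mul, QuotientGroup.mk_mul, hg, hg']⟩
    | inv a _ iha =>
      obtain ⟨h, hh, hg⟩ := iha
      exact ⟨h⁻¹, M'.inv_mem hh, by rw [map_inv, QuotientGroup.mk_inv, hg]⟩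
  rcases hF M' hfg with hfin | hidx
  · -- `M'` finite
    have hrange : Finite ρ.range := by
      have h3 : (ρ.range : Set (M ⧸ K.subgroupOf M)) ⊆
          Set.range (fun q : {h : M // (h : G) ∈ M'} => ((q : M) : M ⧸ K.subgroupOf M)) := by
        rintro _ ⟨g, rfl⟩
        obtain ⟨h, hh, hg⟩ := h2 g
        exact ⟨⟨h, hh⟩, hg⟩
      have h4 : Finite {h : M // (h : G) ∈ M'} :=
        Finite.of_injective (fun q : {h : M // (h : G) ∈ M'} => (⟨(q : M), q.2⟩ : M')) (by
          intro a b hab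
          have := congrArg (fun z : M' => (z : G)) hab
          exact Subtype.ext (Subtype.ext this))
      exact ((Set.finite_range _).subset h3).to_subtype
    have hker : (ρ.ker : Set G).Infinite := by
      intro hfk
      have h5 : Finite ρ.ker := hfk.to_subtype
      have h6 := ρ.ker.card_mul_index
      rw [Subgroup.index_ker, Nat.card_eq_zero_of_infinite (α := G)] at h6
      exact mul_ne_zero Nat.card_pos.ne' Nat.card_pos.ne' h6
    obtain ⟨u, hu⟩ := ae_const_of_inv ζ (ρ.ker : Set G) hker (fun x => k x • f x)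
      (caseRho_meas f hf k hk) (by
        intro g hg
        filter_upwards [hρ g] with x hx
        have h7 := hx 1 (by
          rw [QuotientGroup.mk_one]
          exact (MonoidHom.mem_ker.mp hg).symm)
        rw [h7, OneMemClass.coe_one, one_smul])
    refine not_ae_orbit ζ hζ f hinj u ?_
    filter_upwards [hu] with x hx
    exact ⟨(k x)⁻¹, by rw [← hx, inv_smul_smul]⟩
  · refine counting ζ hRF huni f hf hinj k hk M' hidx ?_
    intro q hq
    obtain ⟨g, h, rfl, hg⟩ := h1 q hq
    refine ⟨g, ?_⟩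
    filter_upwards [hρ g] with x hx
    exact hx h hg

end Pool.Agent.TLA
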