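import Mathlib

/-! Splitting of cocycles by ergodicity of products (the WM lemma of block D4). -/

set_option autoImplicit false

open MeasureTheory Filter

namespace Pool.Agent.TLA

section SplitAux

variable {A B C Q : Type} [MeasurableSpace A] [MeasurableSpace B] [MeasurableSpace C]

/-- `(a, (b, b')) ↦ (a, b)` -/
private theorem split_mp12 (P : Measure A) (ν : Measure B) (τ : Measure C) [IsProbabilityMeasure P]
    [IsProbabilityMeasure ν] [IsProbabilityMeasure τ] :
    MeasurePreserving (fun z : A × (B × C) => (z.1, z.2.1)) (P.prod (ν.prod τ)) (P.prod ν) :=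
  (MeasurePreserving.id P).prod measurePreserving_fst

/-- `(a, (b, b')) ↦ (a, b')` -/
private theorem split_mp13 (P : Measure A) (ν : Measure B) (τ : Measure C) [IsProbabilityMeasure P]
    [IsProbabilityMeasure ν] [IsProbabilityMeasure τ] :
    MeasurePreserving (fun z : A × (B × C) => (z.1, z.2.2)) (P.prod (ν.prod τ)) (P.prod τ) :=
  (MeasurePreserving.id P).prod measurePreserving_snd

/-- `((a, b), c) ↦ (a, c)` -/
private theorem split_mp13' (P : Measure A) (ν : Measure B) (τ : Measure C)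
    [IsProbabilityMeasure P] [IsProbabilityMeasure ν] [IsProbabilityMeasure τ] :
    MeasurePreserving (fun z : (A × B) × C => (z.1.1, z.2)) ((P.prod ν).prod τ) (P.prod τ) :=
  measurePreserving_fst.prod (MeasurePreserving.id τ)

/-- `((a, b), c) ↦ (b, c)` -/
private theorem split_mp23' (P : Measure A) (ν : Measure B) (τ : Measure C)
    [IsProbabilityMeasure P] [IsProbabilityMeasure ν] [IsProbabilityMeasure τ] :
    MeasurePreserving (fun z : (A × B) × C => (z.1.2, z.2)) ((P.prod ν).prod τ) (ν.prod τ) :=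
  measurePreserving_snd.prod (MeasurePreserving.id τ)

private theorem split_eq_meas [Countable Q] {f g : A → Q} (hf : ∀ q, MeasurableSet (f ⁻¹' {q}))
    (hg : ∀ q, MeasurableSet (g ⁻¹' {q})) : MeasurableSet {x | f x = g x} := by
  have h : {x | f x = g x} = ⋃ q, (f ⁻¹' {q}) ∩ (g ⁻¹' {q}) := by
    ext x
    simp only [Set.mem_ofPred_eq, Set.mem_iUnion, Set.mem_inter_iff, Set.mem_preimage,
      Set.mem_singleton_iff]
    constructor
    · intro h
      exact ⟨g x, h, rfl⟩
    · rintro ⟨q, h1, h2⟩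
      rw [h1, h2]
  rw [h]
  exact MeasurableSet.iUnion fun q => (hf q).inter (hg q)

private theorem split_smul {G : Type} [Group G] [MulAction G A] [MulAction G B]
    [MeasurableConstSMul G A] [MeasurableConstSMul G B] (P : Measure A) (ν : Measure B)
    [IsProbabilityMeasure P] [IsProbabilityMeasure ν] [SMulInvariantMeasure G A P]
    [SMulInvariantMeasure G B ν] (g : G) :
    MeasurePreserving (fun w : A × B => g • w) (P.prod ν) (P.prod ν) :=
  (measurePreserving_smul g P).prod (measurePreserving_smul g ν)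

end SplitAux

/-- WM lemma: a function of `(a, b)` with an equivariance whose cocycles depend only on `a` does
not depend on `b`. -/
theorem wm_const {G A B Q : Type} [Group G] [Countable G] [Group Q] [Countable Q]
    [MeasurableSpace A] [MeasurableSpace B] (P : Measure A) (ν : Measure B)
    [IsProbabilityMeasure P] [IsProbabilityMeasure ν] [MulAction G A] [MulAction G B]
    [MeasurableConstSMul G A] [MeasurableConstSMul G B]
    [SMulInvariantMeasure G A P] [SMulInvariantMeasure G B ν]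
    (herg : ErgodicSMul G (A × (B × B)) (P.prod (ν.prod ν))) (θ : A × B → Q)
    (hθ : ∀ q, MeasurableSet (θ ⁻¹' {q})) (c c' : G → A → Q)
    (heq : ∀ g, ∀ᵐ w ∂(P.prod ν), θ (g • w) = c g w.1 * θ w * c' g w.1) :
    ∃ θ' : A → Q, (∀ q, MeasurableSet (θ' ⁻¹' {q})) ∧ ∀ᵐ w ∂(P.prod ν), θ w = θ' w.1 := by
  classical
  have m12 := split_mp12 P ν ν
  have m13 := split_mp13 P ν ν
  set E : Set (A × (B × B)) := {z | θ (z.1, z.2.1) = θ (z.1, z.2.2)} with hE
  have hEm : MeasurableSet E :=
    split_eq_meas (f := fun z : A × (B × B) => θ (z.1, z.2.1))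
      (g := fun z : A × (B × B) => θ (z.1, z.2.2))
      (fun q => m12.measurable (hθ q)) (fun q => m13.measurable (hθ q))
  have hinv : ∀ g : G, (fun z => g • z) ⁻¹' E =ᵐ[P.prod (ν.prod ν)] E := by
    intro g
    rw [Filter.eventuallyEq_set]
    filter_upwards [m12.quasiMeasurePreserving.ae (heq g),
      m13.quasiMeasurePreserving.ae (heq g)] with z h1 h2
    have e1 : θ (g • z.1, g • z.2.1) = c g z.1 * θ (z.1, z.2.1) * c' g z.1 := h1
    have e2 : θ (g • z.1, g • z.2.2) = c g z.1 * θ (z.1, z.2.2) * c' g z.1 := h2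
    have e3 : g • z ∈ E ↔ θ (g • z.1, g • z.2.1) = θ (g • z.1, g • z.2.2) := Iff.rfl
    have e4 : z ∈ E ↔ θ (z.1, z.2.1) = θ (z.1, z.2.2) := Iff.rfl
    rw [Set.mem_preimage, e3, e4, e1, e2, mul_left_inj, mul_right_inj]
  have hpos : ¬ ∀ᵐ z ∂(P.prod (ν.prod ν)), z ∉ E := by
    intro hz
    -- every fibre of `θ` is null
    have hnull : ∀ q : Q, (P.prod ν) (θ ⁻¹' {q}) = 0 := by
      intro q
      rw [Measure.measure_prod_null (hθ q)]
      have hs : MeasurableSet {z : A × (B × B) | θ (z.1, z.2.1) = q ∧ θ (z.1, z.2.2) = q} :=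
        (m12.measurable (hθ q)).inter (m13.measurable (hθ q))
      have h0 : (P.prod (ν.prod ν)) {z : A × (B × B) | θ (z.1, z.2.1) = q ∧ θ (z.1, z.2.2) = q}
          = 0 := by
        refine measure_mono_null ?_ (ae_iff.1 hz)
        rintro z ⟨h1, h2⟩
        simp only [Set.mem_ofPred_eq, not_not]
        exact h1.trans h2.symm
      rw [Measure.measure_prod_null hs] at h0
      filter_upwards [h0] with a ha
      have hp : (Prod.mk a ⁻¹' {z : A × (B × B) | θ (z.1, z.2.1) = q ∧ θ (z.1, z.2.2) = q}) =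
          (Prod.mk a ⁻¹' (θ ⁻¹' {q})) ×ˢ (Prod.mk a ⁻¹' (θ ⁻¹' {q})) := by
        ext ⟨b, b'⟩
        simp
      rw [hp, Measure.prod_prod] at ha
      simpa using ha
    have h1 : (P.prod ν) Set.univ = 0 := by
      have h2 : (Set.univ : Set (A × B)) = ⋃ q, θ ⁻¹' {q} := by
        ext w
        simp
      rw [h2]
      exact measure_iUnion_null hnull
    rw [measure_univ] at h1
    exact one_ne_zero h1
  have hall : ∀ᵐ z ∂(P.prod (ν.prod ν)), z ∈ E := by
    have h1 := herg.aeconst_of_forall_preimage_smul_ae_eq hEm hinv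
    rw [Filter.eventuallyConst_set] at h1
    rcases h1 with h1 | h1
    · exact h1
    · exact absurd h1 hpos
  have h1 : ∀ᵐ z ∂((P.prod ν).prod ν), θ z.1 = θ (z.1.1, z.2) :=
    (measurePreserving_prodAssoc P ν ν).quasiMeasurePreserving.ae hall
  have h2 : ∀ᵐ z ∂(ν.prod (P.prod ν)), θ z.2 = θ (z.2.1, z.1) :=
    (Measure.measurePreserving_swap (μ := ν) (ν := P.prod ν)).quasiMeasurePreserving.ae h1
  obtain ⟨b0, hb0⟩ := (Measure.ae_ae_of_ae_prod h2).exists
  exact ⟨fun a => θ (a, b0), fun q => measurable_prodMk_right (hθ q), hb0⟩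

/-- A measurable function of two independent variables which is a function of each of them is
constant. -/
theorem ae_const_of_ae_eq {A B Q : Type} [Countable Q] [MeasurableSpace A] [MeasurableSpace B]
    (P : Measure A) (ν : Measure B) [IsProbabilityMeasure P] [IsProbabilityMeasure ν]
    (a : A → Q) (b : B → Q) (h : ∀ᵐ w ∂(P.prod ν), a w.1 = b w.2) :
    ∃ q : Q, (∀ᵐ x ∂P, a x = q) ∧ ∀ᵐ y ∂ν, b y = q := by
  have h1 := Measure.ae_ae_of_ae_prod h
  obtain ⟨x0, hx0⟩ := h1.exists
  refine ⟨a x0, ?_, ?_⟩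
  · filter_upwards [h1] with x hx
    obtain ⟨y, hy1, hy2⟩ := (hx.and hx0).exists
    exact hy1.trans hy2.symm
  · filter_upwards [hx0] with y hy
    exact hy.symm

/-- Splitting of cocycles. -/
theorem cocycle_split {G A B Q : Type} [Group G] [Countable G] [Group Q] [Countable Q]
    [MeasurableSpace A] [MeasurableSpace B] (P : Measure A) (ν : Measure B)
    [IsProbabilityMeasure P] [IsProbabilityMeasure ν] [MulAction G A] [MulAction G B]
    [MeasurableConstSMul G A] [MeasurableConstSMul G B]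
    [SMulInvariantMeasure G A P] [SMulInvariantMeasure G B ν]
    (herg : ErgodicSMul G ((A × A) × (B × B)) ((P.prod P).prod (ν.prod ν)))
    (h : A × B → Q) (hh : ∀ q, MeasurableSet (h ⁻¹' {q})) (α : G → A → Q) (β : G → B → Q)
    (heq : ∀ g, ∀ᵐ w ∂(P.prod ν), α g w.1 * h w = h (g • w) * β g w.2) :
    ∃ (a : A → Q) (ρ : G → Q), (∀ q, MeasurableSet (a ⁻¹' {q})) ∧
      ∀ g, ∀ᵐ x ∂P, α g x = a (g • x) * ρ g * (a x)⁻¹ := by
  classical
  have m13 := split_mp13' P P ν
  have m23 := split_mp23' P P ν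
  have hθm : ∀ q, MeasurableSet
      ((fun z : (A × A) × B => h (z.1.1, z.2) * (h (z.1.2, z.2))⁻¹) ⁻¹' {q}) := by
    intro q
    have h1 : ((fun z : (A × A) × B => h (z.1.1, z.2) * (h (z.1.2, z.2))⁻¹) ⁻¹' {q}) =
        {z | h (z.1.1, z.2) = q * h (z.1.2, z.2)} := by
      ext z
      simp only [Set.mem_preimage, Set.mem_singleton_iff, Set.mem_ofPred_eq]
      exact mul_inv_eq_iff_eq_mul
    rw [h1]
    refine split_eq_meas (f := fun z : (A × A) × B => h (z.1.1, z.2))
      (g := fun z : (A × A) × B => q * h (z.1.2, z.2)) (fun r => m13.measurable (hh r))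
      (fun r => ?_)
    have h2 : ((fun z : (A × A) × B => q * h (z.1.2, z.2)) ⁻¹' {r}) =
        (fun z : (A × A) × B => (z.1.2, z.2)) ⁻¹' (h ⁻¹' {q⁻¹ * r}) := by
      ext z
      simp only [Set.mem_preimage, Set.mem_singleton_iff]
      exact eq_inv_mul_iff_mul_eq.symm
    rw [h2]
    exact m23.measurable (hh _)
  have i1 : MeasurableConstSMul G (A × A) :=
    ⟨fun g => (measurable_const_smul g).prodMap (measurable_const_smul g)⟩
  have i2 : SMulInvariantMeasure G (A × A) (P.prod P) :=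
    ⟨fun g s hs => (split_smul P P g).measure_preimage hs.nullMeasurableSet⟩
  obtain ⟨θ', hθ', hsp⟩ := wm_const (P.prod P) ν herg
    (fun z : (A × A) × B => h (z.1.1, z.2) * (h (z.1.2, z.2))⁻¹) hθm
    (fun g z => α g z.1) (fun g z => (α g z.2)⁻¹) (by
      intro g
      filter_upwards [m13.quasiMeasurePreserving.ae (heq g),
        m23.quasiMeasurePreserving.ae (heq g)] with z h1 h2
      have e1 : α g z.1.1 * h (z.1.1, z.2) = h (g • z.1.1, g • z.2) * β g z.2 := h1
      have e2 : α g z.1.2 * h (z.1.2, z.2) = h (g • z.1.2, g • z.2) * β g z.2 := h2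
      have e3 : h (g • z.1.1, g • z.2) = α g z.1.1 * h (z.1.1, z.2) * (β g z.2)⁻¹ := by
        rw [e1]; group
      have e4 : h (g • z.1.2, g • z.2) = α g z.1.2 * h (z.1.2, z.2) * (β g z.2)⁻¹ := by
        rw [e2]; group
      change h (g • z.1.1, g • z.2) * (h (g • z.1.2, g • z.2))⁻¹ = _
      rw [e3, e4]
      group)
  -- fix the second variable
  have k1 : ∀ᵐ z ∂(P.prod (P.prod ν)), h (z.2.1, z.2.2) * (h (z.1, z.2.2))⁻¹ =
      θ' (z.2.1, z.1) := by
    have e1 : ∀ᵐ z ∂((P.prod P).prod ν), h (z.1.2, z.2) * (h (z.1.1, z.2))⁻¹ =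
        θ' (z.1.2, z.1.1) :=
      ((Measure.measurePreserving_swap (μ := P) (ν := P)).prod
        (MeasurePreserving.id ν)).quasiMeasurePreserving.ae hsp
    have e2 := (measurePreserving_prodAssoc P P ν).symm
    exact e2.quasiMeasurePreserving.ae e1
  obtain ⟨y0, hy0⟩ := (Measure.ae_ae_of_ae_prod k1).exists
  have k2 : ∀ᵐ w ∂(P.prod ν), h w = θ' (w.1, y0) * h (y0, w.2) := by
    filter_upwards [hy0] with w hw
    have e1 : h (w.1, w.2) * (h (y0, w.2))⁻¹ = θ' (w.1, y0) := hw
    exact mul_inv_eq_iff_eq_mul.1 e1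
  have k3 : ∀ g : G, ∃ r : Q, ∀ᵐ x ∂P, (θ' (g • x, y0))⁻¹ * α g x * θ' (x, y0) = r := by
    intro g
    have e1 : ∀ᵐ w ∂(P.prod ν), (fun x => (θ' (g • x, y0))⁻¹ * α g x * θ' (x, y0)) w.1 =
        (fun b => h (y0, g • b) * β g b * (h (y0, b))⁻¹) w.2 := by
      filter_upwards [heq g, k2, (split_smul P ν g).quasiMeasurePreserving.ae k2] with w h1 h2 h3
      have h3' : h (g • w) = θ' (g • w.1, y0) * h (y0, g • w.2) := h3
      rw [h2, h3'] at h1
      change (θ' (g • w.1, y0))⁻¹ * α g w.1 * θ' (w.1, y0) =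
        h (y0, g • w.2) * β g w.2 * (h (y0, w.2))⁻¹
      rw [eq_mul_inv_iff_mul_eq, mul_assoc, mul_assoc, inv_mul_eq_iff_eq_mul, h1, mul_assoc]
    obtain ⟨r, hr, -⟩ := ae_const_of_ae_eq P ν
      (fun x => (θ' (g • x, y0))⁻¹ * α g x * θ' (x, y0))
      (fun b => h (y0, g • b) * β g b * (h (y0, b))⁻¹) e1
    exact ⟨r, hr⟩
  choose ρ hρ using k3
  refine ⟨fun x => θ' (x, y0), ρ, fun q => measurable_prodMk_right (hθ' q), fun g => ?_⟩
  filter_upwards [hρ g] with x hx
  rw [← hx]
  group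

/-- If `α` is a cocycle then `ρ` is a homomorphism. -/
theorem rho_mul {G A Q : Type} [Group G] [Countable G] [Group Q]
    [MeasurableSpace A] (P : Measure A) [IsProbabilityMeasure P] [MulAction G A]
    [MeasurableConstSMul G A] [SMulInvariantMeasure G A P] (α : G → A → Q)
    (hα : ∀ g g', ∀ᵐ x ∂P, α (g * g') x = α g (g' • x) * α g' x) (a : A → Q) (ρ : G → Q)
    (h : ∀ g, ∀ᵐ x ∂P, α g x = a (g • x) * ρ g * (a x)⁻¹) (g g' : G) :
    ρ (g * g') = ρ g * ρ g' := by
  have h1 := (measurePreserving_smul g' P).quasiMeasurePreserving.ae (h g)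
  obtain ⟨x, e1, e2, e3, e4⟩ := ((hα g g').and (h1.and ((h g').and (h (g * g'))))).exists
  have e2' : α g (g' • x) = a (g • g' • x) * ρ g * (a (g' • x))⁻¹ := e2
  rw [e2', e3, e4, smul_smul] at e1
  have e5 : a ((g * g') • x) * ρ (g * g') * (a x)⁻¹ =
      a ((g * g') • x) * (ρ g * ρ g') * (a x)⁻¹ := by
    rw [e1]
    group
  exact mul_left_cancel (mul_right_cancel e5)

end Pool.Agent.TLA
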