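import Pool.Agent.TLA.Transport
import Pool.Agent.TLA.Split
import Pool.Agent.TLA.SixErg
import Pool.Agent.TLA.CaseRho

/-! The case of finite stabilizers (block D4 (c)). -/

set_option autoImplicit false

open MeasureTheory Filter
open scoped Pointwise

namespace Pool.Agent.TLA

variable {G Z : Type} [Group G] [Countable G] [MeasurableSpace Z] (ζ : Measure Z)
  [IsProbabilityMeasure ζ]

/-- The case where the intersection of the closures is finite. -/
theorem case_c [Infinite G] [StandardBorelSpace Z] [Group.FG G]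
    (hζ : ∃ t : Set Z, MeasurableSet t ∧ 0 < ζ t ∧ ζ t < 1)
    (hRF : ∀ F : Finset G, ∃ N : Subgroup G, N.Normal ∧ N.index ≠ 0 ∧
      ∀ a ∈ F, ∀ b ∈ F, a⁻¹ * b ∈ N → a = b)
    (huni : ∀ L₀ : ℕ, ∃ L : ℕ, L₀ ≤ L ∧ ∃ τ₀ : Z → Fin L, Measurable τ₀ ∧
      ∀ i, ζ (τ₀ ⁻¹' {i}) = (L : ENNReal)⁻¹)
    {p n : ℕ} (hp : 0 < p) (x : Fin n → G) {C : ℝ} (hC : 0 ≤ C) (hT : HasGap x C)
    (hF : FinOrFI G) (N : ℕ → Subgroup G) (hN : Cof p N)
    (f : Bern G Z → Set G) (hf : Measurable f) (hinj : Function.Injective f) (ho : OrbPres f)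
    (Cn : ℕ → Subgroup G) (hfin : Finite (⨅ i, Cn i : Subgroup G)) (k : Bern G Z → G)
    (hk : ∀ g, MeasurableSet (k ⁻¹' {g}))
    (hCn : ∀ᵐ x ∂(Bern.mu G ζ), ∀ i, cl N i (k x • f x) = Cn i)
    (hcoc : ∀ g : G, ∀ᵐ x ∂(Bern.mu G ζ), ∃ h ∈ nst Cn,
      k (g • x) • f (g • x) = h • (k x • f x)) : False := by
  classical
  have hKM : (⨅ i, Cn i) ≤ nst Cn := iInf_le_nst N Cn
  have hnorm : ((⨅ i, Cn i : Subgroup G).subgroupOf (nst Cn)).Normal := by
    refine ⟨fun c hc h => ?_⟩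
    rw [Subgroup.mem_subgroupOf] at hc ⊢
    exact conj_iInf Cn h h.2 c hc
  have hst : ∀ᵐ x ∂(Bern.mu G ζ), MulAction.stabilizer G (k x • f x) = ⨅ i, Cn i := by
    filter_upwards [hCn] with x hx
    exact stab_eq_of_finite N hN Cn _ hx hfin
  obtain ⟨α, hαm, hα, hαc⟩ :=
    exists_cocycle ζ f hf k hk (nst Cn) (⨅ i, Cn i) hKM hst hcoc
  obtain ⟨h, hhm, hh⟩ := exists_transport ζ hp x hC hT N hN f hf ho Cn hfin k hk hCn α hα
  have hc1 : Countable (nst Cn) := (nst Cn).subtype_injective.countable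
  have hc2 : Countable (nst Cn ⧸ (⨅ i, Cn i : Subgroup G).subgroupOf (nst Cn)) :=
    (QuotientGroup.mk_surjective
      (s := (⨅ i, Cn i : Subgroup G).subgroupOf (nst Cn))).countable
  have i1 : MeasurableConstSMul G (Bern G Z × Bern G unitInterval) :=
    ⟨fun g => (measurable_const_smul g).prodMap (measurable_const_smul g)⟩
  have i2 : SMulInvariantMeasure G (Bern G Z × Bern G unitInterval)
      ((Bern.mu G ζ).prod (Bern.mu G (volume : Measure unitInterval))) :=
    ⟨fun g s hs => ((measurePreserving_smul g (Bern.mu G ζ)).prod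
      (measurePreserving_smul g (Bern.mu G (volume : Measure unitInterval)))).measure_preimage
        hs.nullMeasurableSet⟩
  obtain ⟨a, ρ, ham, haρ⟩ := cocycle_split (Bern.mu G ζ)
    ((Bern.mu G ζ).prod (Bern.mu G (volume : Measure unitInterval))) (ergodic_six ζ) h hhm α
    (fun g b => α g b.1) hh
  have hρm := rho_mul (Bern.mu G ζ) α hαc a ρ haρ
  have hl : ∀ q : nst Cn ⧸ (⨅ i, Cn i : Subgroup G).subgroupOf (nst Cn),
      ∃ m : nst Cn, (m : nst Cn ⧸ (⨅ i, Cn i : Subgroup G).subgroupOf (nst Cn)) = q :=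
    fun q => QuotientGroup.mk_surjective q
  choose l hl using hl
  have hstab : ∀ (m : nst Cn) (u : Set G), MulAction.stabilizer G u = ⨅ i, Cn i →
      MulAction.stabilizer G ((m : G) • u) = ⨅ i, Cn i := by
    intro m u hu
    ext c
    rw [MulAction.mem_stabilizer_iff]
    have e1 : c • (m : G) • u = (m : G) • u ↔ ((m : G)⁻¹ * c * m) • u = u := by
      rw [mul_smul, mul_smul, inv_smul_eq_iff]
    rw [e1, ← MulAction.mem_stabilizer_iff, hu]
    constructor
    · intro hc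
      have h1 := conj_iInf Cn (m : G) m.2 _ hc
      have h2 : (m : G) * ((m : G)⁻¹ * c * m) * (m : G)⁻¹ = c := by group
      rwa [h2] at h1
    · intro hc
      have h1 := conj_iInf Cn ((m : G)⁻¹) ((nst Cn).inv_mem m.2) _ hc
      rwa [inv_inv] at h1
  refine case_rho ζ hζ hRF huni hF f hf hinj (fun x => ((l (a x)⁻¹ : nst Cn) : G) * k x) ?_
    (nst Cn) (⨅ i, Cn i) hKM hfin ?_ (MonoidHom.mk' ρ hρm) ?_
  · intro g
    have h1 : (fun x => ((l (a x)⁻¹ : nst Cn) : G) * k x) ⁻¹' {g} =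
        ⋃ q, a ⁻¹' {q} ∩ k ⁻¹' {((l q⁻¹ : nst Cn) : G)⁻¹ * g} := by
      ext y
      simp only [Set.mem_preimage, Set.mem_singleton_iff, Set.mem_iUnion, Set.mem_inter_iff]
      constructor
      · intro h2
        refine ⟨a y, rfl, ?_⟩
        rw [← h2, inv_mul_cancel_left]
      · rintro ⟨q, rfl, h2⟩
        rw [h2, mul_inv_cancel_left]
    rw [h1]
    exact MeasurableSet.iUnion fun q => (ham q).inter (hk _)
  · filter_upwards [hst] with y hy
    rw [mul_smul]
    exact hstab _ _ hy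
  · intro g
    filter_upwards [haρ g, hα g] with y h1 h2
    intro m hm
    have hm' : (m : nst Cn ⧸ (⨅ i, Cn i : Subgroup G).subgroupOf (nst Cn)) = ρ g := hm
    have h3 : (((l (a (g • y))⁻¹)⁻¹ * m * l (a y)⁻¹ : nst Cn) :
        nst Cn ⧸ (⨅ i, Cn i : Subgroup G).subgroupOf (nst Cn)) = α g y := by
      rw [QuotientGroup.mk_mul, QuotientGroup.mk_mul, QuotientGroup.mk_inv, hl, hl, hm', h1,
        inv_inv]
    have h4 := (h2 _).1 h3
    rw [mul_smul, h4, mul_smul]
    generalize k y • f y = u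
    rw [smul_smul, smul_smul]
    simp only [Subgroup.coe_mul, Subgroup.coe_inv]
    congr 1
    group

end Pool.Agent.TLA
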