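import Pool.Agent.TLA.Active
import Pool.Agent.TLA.Kill

/-! Case 2 of the stage: the idle norms are summable. -/

set_option autoImplicit false

namespace Pool.Agent.TLA

variable {p : ℕ} {Γ : Type} [Group Γ]

open Classical in
/-- If the idle norms are summable, `Λ` can be made of finite index. -/
theorem case_idle [Fact p.Prime] [Group.FG Γ] (S : WSys Γ) (hN : S.H.Normal) (k : ℕ)
    (hk : S.H.index = p ^ k) (hI : S.Inv p) {D : ℝ} (hD : S.HasDef p D) (hpos : 0 < D)
    (Λ : Subgroup Γ) (C : Chain p S D)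
    (hs : Summable (fun j => if C.Act Λ j then 0 else C.c j)) :
    ∃ (N : Subgroup Γ) (_ : N.Normal), N ≤ S.H ∧ Good p (S.H.map (QuotientGroup.mk' N)) ∧
      (Λ ⊔ N).index ≠ 0 := by
  have hp : 0 < p := (Fact.out : p.Prime).pos
  have hpk : (0 : ℝ) < (p : ℝ) ^ k := pow_pos (Nat.cast_pos.2 hp) k
  -- the choice of `m`
  set I : ℕ → ℝ := fun j => if C.Act Λ j then 0 else C.c j with hI'
  have hI0 : ∀ j, 0 ≤ I j := by
    intro j
    simp only [hI']
    split_ifs
    · exact le_refl _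
    · exact (C.c_pos j).le
  have ht1 : Filter.Tendsto (fun i => (p : ℝ) ^ k * ∑' j, I (j + i)) Filter.atTop (nhds 0) := by
    have h := (tendsto_sum_nat_add I).const_mul ((p : ℝ) ^ k)
    rwa [mul_zero] at h
  obtain ⟨N₀, hN₀⟩ := Filter.eventually_atTop.1
    (ht1.eventually_lt_const (show (0 : ℝ) < D / 2 by linarith))
  obtain ⟨m, hm, hdrop⟩ := C.exists_drop N₀
  have htail : (p : ℝ) ^ k * ∑' j, I (j + m) < D / 2 := hN₀ m hm
  -- the elements `y j`
  have hy0 : ∀ j, ∃ y, y ∈ C.E j ∧ C.φ j y ≠ 0 ∧ (C.Act Λ j → y ∈ Λ) := by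
    intro j
    by_cases hA : C.Act Λ j
    · obtain ⟨x, hx1, hx2, hx3⟩ := hA
      exact ⟨x, hx2, hx3, fun _ => hx1⟩
    · obtain ⟨x, hx1, hx2⟩ := C.exists_ne j
      exact ⟨x, hx1, hx2, fun h => absurd h hA⟩
  choose y hyE hyφ hyΛ using hy0
  -- `Λ E_m` has finite index
  have hEm : (C.E m).Normal := (C.sys_inv hI hpos m hdrop).1
  have hEmi : (C.E m).index ≠ 0 := by
    rw [← Subgroup.relIndex_mul_index (C.le_H m), C.relIndex m, hk]
    exact mul_ne_zero (pow_pos hp m).ne' (pow_pos hp k).ne'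
  have hLi : (Λ ⊔ C.E m).index ≠ 0 := fun h0 => by
    have h1 := Subgroup.index_dvd_of_le (le_sup_right : C.E m ≤ Λ ⊔ C.E m)
    rw [h0, zero_dvd_iff] at h1
    exact hEmi h1
  have hFG : (Λ ⊔ C.E m).FG := by
    have _ : (Λ ⊔ C.E m).FiniteIndex := ⟨hLi⟩
    exact (Group.fg_iff_subgroup_fg (Λ ⊔ C.E m)).1 inferInstance
  obtain ⟨T, hT⟩ := hFG
  have hdec : ∀ l : T, ∃ lam ∈ Λ, ∃ e ∈ C.E m, lam * e = (l : Γ) := by
    intro l
    have h1 : (l : Γ) ∈ Λ ⊔ C.E m := by
      rw [← hT]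
      exact Subgroup.subset_closure l.2
    exact Subgroup.mem_sup_of_normal_right.1 h1
  choose lam hlam e he hle using hdec
  -- the choice of `n`
  have ht2 : Filter.Tendsto (fun i => (p : ℝ) ^ k * (T.card * C.c i)) Filter.atTop (nhds 0) := by
    have h := (C.c_tendsto.const_mul (T.card : ℝ)).const_mul ((p : ℝ) ^ k)
    rwa [mul_zero, mul_zero] at h
  obtain ⟨n₀, hn₀⟩ := Filter.eventually_atTop.1
    (ht2.eventually_lt_const (show (0 : ℝ) < D / 4 by linarith))
  set n : ℕ := max n₀ m with hn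
  have hmn : m ≤ n := le_max_right _ _
  have hcn : (p : ℝ) ^ k * (T.card * C.c n) < D / 4 := hn₀ n (le_max_left _ _)
  have hau : ∀ l : T, ∃ a ∈ Subgroup.closure {g | ∃ j, m ≤ j ∧ j < n ∧ g = y j},
      ∃ b ∈ C.E n, e l = a * b := fun l => mem_mul_E C y hyE hyφ m n hmn (e l) (he l)
  choose a ha u hu hau' using hau
  -- the family
  let J₁ := {j : ℕ // m ≤ j ∧ ¬ C.Act Λ j}
  set g : J₁ ⊕ T → Γ := Sum.elim (fun j => y j.1) u with hg
  set b : J₁ ⊕ T → ℝ := Sum.elim (fun j => C.c j.1) (fun _ => C.c n) with hb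
  have hinj : Function.Injective (fun j : J₁ => j.1 - m) := by
    rintro ⟨i, hi⟩ ⟨j, hj⟩ hij
    have hij' : i - m = j - m := hij
    refine Subtype.ext ?_
    show i = j
    have := hi.1
    have := hj.1
    omega
  have hcomp : (fun j : J₁ => C.c j.1) = (fun i => I (i + m)) ∘ (fun j : J₁ => j.1 - m) := by
    funext j
    have h1 : j.1 - m + m = j.1 := Nat.sub_add_cancel j.2.1
    show C.c j.1 = I (j.1 - m + m)
    rw [h1]
    simp only [hI']
    rw [if_neg j.2.2]
  have hsI : Summable (fun i => I (i + m)) := (summable_nat_add_iff m).2 hs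
  have hs1 : Summable (fun j : J₁ => C.c j.1) := by
    rw [hcomp]
    exact hsI.comp_injective hinj
  have hle1 : ∑' j : J₁, C.c j.1 ≤ ∑' i, I (i + m) := by
    rw [hcomp]
    exact tsum_comp_le_tsum_of_inj hsI (fun i => hI0 _) hinj
  have hs2 : Summable (fun _ : T => C.c n) := Summable.of_finite
  have hsb : Summable b := Summable.sum _ hs1 hs2
  have htb : ∑' j, b j = (∑' j : J₁, C.c j.1) + ∑' _ : T, C.c n :=
    Summable.tsum_sum (f := b) hs1 hs2
  have htT : ∑' _ : T, C.c n = T.card * C.c n := by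
    rw [tsum_fintype, Finset.sum_const, nsmul_eq_mul, Finset.card_univ, Fintype.card_coe]
  have hgH : ∀ j, g j ∈ S.H := by
    rintro (j | l)
    · exact C.le_H _ (hyE j.1)
    · exact C.le_H _ (hu l)
  have hbpos : ∀ j, 0 < b j := by
    rintro (j | l)
    · exact C.c_pos _
    · exact C.c_pos _
  have hgb : ∀ j, S.n p (g j) ≤ b j := by
    rintro (j | l)
    · exact C.n_le _ _ (hyE j.1)
    · exact C.n_le _ _ (hu l)
  have hlt : (p : ℝ) ^ k * ∑' j, b j < D := by
    rw [htb, htT, mul_add]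
    have h1 := mul_le_mul_of_nonneg_left hle1 hpk.le
    linarith
  obtain ⟨h1, h2⟩ := kill S hN k hk hI hD g b hgH hbpos hsb hgb hlt
  refine ⟨Subgroup.normalClosure (Set.range g), Subgroup.normalClosure_normal, h1, h2, ?_⟩
  -- the index
  have hsub : Λ ⊔ C.E m ≤ Λ ⊔ Subgroup.normalClosure (Set.range g) := by
    rw [← hT, Subgroup.closure_le]
    intro x hx
    have hyN : ∀ j, m ≤ j → y j ∈ Λ ⊔ Subgroup.normalClosure (Set.range g) := by
      intro j hj
      by_cases hA : C.Act Λ j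
      · exact (le_sup_left : Λ ≤ _) (hyΛ j hA)
      · exact (le_sup_right : Subgroup.normalClosure (Set.range g) ≤ _)
          (Subgroup.subset_normalClosure ⟨Sum.inl ⟨j, hj, hA⟩, rfl⟩)
    have haN : a ⟨x, hx⟩ ∈ Λ ⊔ Subgroup.normalClosure (Set.range g) := by
      have hcl : Subgroup.closure {g | ∃ j, m ≤ j ∧ j < n ∧ g = y j} ≤
          Λ ⊔ Subgroup.normalClosure (Set.range g) := by
        rw [Subgroup.closure_le]
        rintro _ ⟨j, hj, -, rfl⟩
        exact hyN j hj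
      exact hcl (ha ⟨x, hx⟩)
    have huN : u ⟨x, hx⟩ ∈ Λ ⊔ Subgroup.normalClosure (Set.range g) :=
      (le_sup_right : Subgroup.normalClosure (Set.range g) ≤ _)
        (Subgroup.subset_normalClosure ⟨Sum.inr ⟨x, hx⟩, rfl⟩)
    have hxe : x = lam ⟨x, hx⟩ * (a ⟨x, hx⟩ * u ⟨x, hx⟩) := by
      rw [← hau' ⟨x, hx⟩, hle ⟨x, hx⟩]
    rw [hxe]
    exact Subgroup.mul_mem _ ((le_sup_left : Λ ≤ _) (hlam ⟨x, hx⟩))
      (Subgroup.mul_mem _ haN huN)
  intro h0
  have h3 := Subgroup.index_dvd_of_le hsub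
  rw [h0, zero_dvd_iff] at h3
  exact hLi h3

end Pool.Agent.TLA
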