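import Pool.Agent.TLA.Ball

/-! Invariance under conjugation. -/

set_option autoImplicit false

namespace Pool.Agent.TLA

variable (p : ℕ) {Γ : Type} [Group Γ]

namespace WSys

variable (S : WSys Γ)

private theorem Conj_gr_conj (γ g : Γ) :
    gr p γ * (gr p g - 1) * gr p γ⁻¹ = gr p (γ * g * γ⁻¹) - 1 := by
  rw [mul_sub, sub_mul, mul_one, ← gr_mul, ← gr_mul, ← gr_mul, mul_inv_cancel, gr_one]

private theorem Conj_mem_or {g : Γ} {c : ℝ} (h : gr p g - 1 ∈ S.M p c) :
    g ∈ S.H ∨ Subsingleton (Alg p Γ) := by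
  by_cases hg : g ∈ S.H
  · exact Or.inl hg
  · right
    have h1 : gr p g - 1 ∈ sa p S.H := S.M_le_sa p c h
    have h2 : gr p g ∈ sa p S.H := by
      have h3 := (sa p S.H).add_mem h1 (one_mem_sa p S.H)
      rwa [sub_add_cancel] at h3
    have h4 := (mem_sa_iff p (gr p g)).1 h2 g hg
    have h5 : (1 : ZMod p) = 0 := by
      simpa [gr] using h4
    have h6 : (1 : Alg p Γ) = 0 := by
      rw [← gr_one, gr, h5, MonoidAlgebra.single_zero]
    exact subsingleton_of_zero_eq_one h6.symm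

private theorem Conj_letter (hS : S.Inv p) (γ : Γ) (q : S.T × Bool) :
    gr p γ * S.letter p q * gr p γ⁻¹ ∈ S.M p (S.w q.1) := by
  have h0 := hS γ q.1
  rcases S.Conj_mem_or p h0 with h1 | h1
  · unfold letter
    split_ifs with hq
    · rw [Conj_gr_conj]
      exact h0
    · rw [Conj_gr_conj]
      have h2 := S.inv_mem_M p h1 h0
      have h3 : (γ * S.v q.1 * γ⁻¹)⁻¹ = γ * (S.v q.1)⁻¹ * γ⁻¹ := by group
      rwa [h3] at h2
  · rw [Subsingleton.elim (gr p γ * S.letter p q * gr p γ⁻¹) 0]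
    exact Submodule.zero_mem _

private theorem Conj_mono (hS : S.Inv p) (γ : Γ) (l : List (S.T × Bool)) :
    gr p γ * S.mono p l * gr p γ⁻¹ ∈ S.M p (S.wt l) := by
  induction l with
  | nil =>
    have h1 : gr p γ * S.mono p [] * gr p γ⁻¹ = S.mono p [] := by
      simp only [mono, List.map_nil, List.prod_nil, mul_one]
      rw [← gr_mul, mul_inv_cancel, gr_one]
    rw [h1]
    exact S.mono_mem p []
  | cons q l ih =>
    have h1 : gr p γ * S.mono p (q :: l) * gr p γ⁻¹ =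
        (gr p γ * S.letter p q * gr p γ⁻¹) * (gr p γ * S.mono p l * gr p γ⁻¹) := by
      have h2 : S.mono p (q :: l) = S.letter p q * S.mono p l := by simp [mono]
      have h3 : gr p γ⁻¹ * gr p γ = 1 := by rw [← gr_mul, inv_mul_cancel, gr_one]
      rw [h2]
      calc gr p γ * (S.letter p q * S.mono p l) * gr p γ⁻¹
          = gr p γ * S.letter p q * 1 * S.mono p l * gr p γ⁻¹ := by
            simp only [mul_one, mul_assoc]
        _ = gr p γ * S.letter p q * (gr p γ⁻¹ * gr p γ) * S.mono p l * gr p γ⁻¹ := by rw [h3]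
        _ = _ := by simp only [mul_assoc]
    have h4 : S.wt (q :: l) = S.w q.1 * S.wt l := by simp [wt]
    rw [h1, h4]
    exact S.M_mul_mem p (S.Conj_letter p hS γ q) ih

/-- Invariance: conjugation by any element preserves the filtration. -/
theorem conj_mem_M (hS : S.Inv p) {c : ℝ} {a : Alg p Γ} (ha : a ∈ S.M p c) (γ : Γ) :
    gr p γ * a * gr p γ⁻¹ ∈ S.M p c := by
  unfold M at ha
  induction ha using Submodule.span_induction with
  | mem x hx =>
    obtain ⟨l, hl, rfl⟩ := hx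
    exact S.M_mono p hl (S.Conj_mono p hS γ l)
  | zero =>
    rw [mul_zero, zero_mul]
    exact Submodule.zero_mem _
  | add x y _ _ hx hy =>
    rw [mul_add, add_mul]
    exact Submodule.add_mem _ hx hy
  | smul r x _ hx =>
    rw [mul_smul_comm, smul_mul_assoc]
    exact Submodule.smul_mem _ _ hx

theorem conj_mem_H [Fact p.Prime] (hS : S.Inv p) {h : Γ} (hh : h ∈ S.H) (γ : Γ) :
    γ * h * γ⁻¹ ∈ S.H := by
  unfold H at hh
  induction hh using Subgroup.closure_induction with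
  | mem x hx =>
    obtain ⟨t, rfl⟩ := hx
    have h1 : gr p (γ * S.v t * γ⁻¹) - 1 ∈ sa p S.H := S.M_le_sa p _ (hS γ t)
    have h3 := (sa p S.H).add_mem h1 (one_mem_sa p S.H)
    rw [sub_add_cancel] at h3
    exact (gr_mem_sa_iff p _).1 h3
  | one =>
    rw [mul_one, mul_inv_cancel]
    exact S.H.one_mem
  | mul x y _ _ hx hy =>
    have h1 : γ * (x * y) * γ⁻¹ = (γ * x * γ⁻¹) * (γ * y * γ⁻¹) := by group
    rw [h1]
    exact S.H.mul_mem hx hy
  | inv x _ hx =>
    have h1 : γ * x⁻¹ * γ⁻¹ = (γ * x * γ⁻¹)⁻¹ := by group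
    rw [h1]
    exact S.H.inv_mem hx

theorem ball_normal [Fact p.Prime] (hS : S.Inv p) (c : ℝ) : (S.ball p c).Normal := by
  refine ⟨fun n hn g => ?_⟩
  rw [mem_ball] at hn ⊢
  refine ⟨S.conj_mem_H p hS hn.1 g, ?_⟩
  rw [← Conj_gr_conj]
  exact S.conj_mem_M p hS hn.2 g

theorem n_conj [Fact p.Prime] (hS : S.Inv p) {h : Γ} (hh : h ∈ S.H) (γ : Γ) :
    S.n p (γ * h * γ⁻¹) = S.n p h := by
  have key : ∀ c : ℝ, gr p (γ * h * γ⁻¹) - 1 ∈ S.M p c ↔ gr p h - 1 ∈ S.M p c := by
    intro c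
    constructor
    · intro h1
      have h2 := S.conj_mem_M p hS h1 γ⁻¹
      rw [Conj_gr_conj] at h2
      have h3 : γ⁻¹ * (γ * h * γ⁻¹) * γ⁻¹⁻¹ = h := by group
      rwa [h3] at h2
    · intro h1
      rw [← Conj_gr_conj]
      exact S.conj_mem_M p hS h1 γ
  unfold n N
  simp only [key]

end WSys

end Pool.Agent.TLA
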