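import Pool.Agent.TLA.Ball

/-! The free group. -/

set_option autoImplicit false

namespace Pool.Agent.TLA

variable (p : ℕ) {Γ : Type} [Group Γ]

/-- The affine permutation `x ↦ t x + δ` of the group algebra of the free group. -/
noncomputable def freeAff (T : Type) [DecidableEq T] (s t : T) :
    Equiv.Perm (Alg p (FreeGroup T)) where
  toFun x := gr p (FreeGroup.of t) * x + (if t = s then 1 else 0)
  invFun x := gr p (FreeGroup.of t)⁻¹ * (x - (if t = s then 1 else 0))
  left_inv x := by
    beta_reduce
    rw [add_sub_cancel_right, ← mul_assoc, ← gr_mul, inv_mul_cancel, gr_one, one_mul]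
  right_inv x := by
    beta_reduce
    rw [← mul_assoc, ← gr_mul, mul_inv_cancel, gr_one, one_mul, sub_add_cancel]

/-- The action of the free group by affine permutations. -/
noncomputable def freeHom (T : Type) [DecidableEq T] (s : T) :
    FreeGroup T →* Equiv.Perm (Alg p (FreeGroup T)) := FreeGroup.lift (freeAff p T s)

/-- The Fox derivative. -/
noncomputable def freeD (T : Type) [DecidableEq T] (s : T) (g : FreeGroup T) :
    Alg p (FreeGroup T) := freeHom p T s g 0

theorem freeHom_apply (T : Type) [DecidableEq T] (s : T) (g : FreeGroup T)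
    (x : Alg p (FreeGroup T)) : freeHom p T s g x = gr p g * x + freeD p T s g := by
  induction g using FreeGroup.induction_on generalizing x with
  | C1 => simp [freeD, gr_one]
  | of t => simp [freeD, freeHom, freeAff]
  | inv_of t _ =>
    have h : freeHom p T s (FreeGroup.of t)⁻¹ = (freeAff p T s t)⁻¹ := by
      rw [map_inv, freeHom, FreeGroup.lift_apply_of]
    have h2 : ∀ y, ((freeAff p T s t)⁻¹ : Equiv.Perm (Alg p (FreeGroup T))) y
        = gr p (FreeGroup.of t)⁻¹ * (y - (if t = s then 1 else 0)) := fun y => rfl
    rw [freeD, h, h2, h2, mul_sub, zero_sub, mul_neg, sub_eq_add_neg]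
  | mul g h ihg ihh =>
    rw [freeD, map_mul, Equiv.Perm.mul_apply, Equiv.Perm.mul_apply, ihh x, ihg,
      ihg (freeHom p T s h 0), mul_add, ← mul_assoc, ← gr_mul, add_assoc]
    rfl

theorem freeD_mul (T : Type) [DecidableEq T] (s : T) (g h : FreeGroup T) :
    freeD p T s (g * h) = gr p g * freeD p T s h + freeD p T s g := by
  rw [freeD, map_mul, Equiv.Perm.mul_apply, freeHom_apply]
  rfl

theorem freeD_of (T : Type) [DecidableEq T] (s t : T) :
    freeD p T s (FreeGroup.of t) = if t = s then 1 else 0 := by
  simp [freeD, freeHom, freeAff]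

/-- The linear extension of the Fox derivative. -/
noncomputable def freeDl (T : Type) [DecidableEq T] (s : T) :
    Alg p (FreeGroup T) →ₗ[ZMod p] Alg p (FreeGroup T) :=
  (MonoidAlgebra.basis (FreeGroup T) (ZMod p)).constr (ZMod p) (freeD p T s)

theorem freeDl_gr (T : Type) [DecidableEq T] (s : T) (g : FreeGroup T) :
    freeDl p T s (gr p g) = freeD p T s g := by
  have h : gr p g = (MonoidAlgebra.basis (FreeGroup T) (ZMod p)) g := by
    rw [MonoidAlgebra.basis_apply]
    rfl
  rw [h, freeDl, Module.Basis.constr_basis]

theorem freeDl_mul (T : Type) [DecidableEq T] (s t : T) (a : Alg p (FreeGroup T)) :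
    freeDl p T s (a * (gr p (FreeGroup.of t) - 1)) = if t = s then a else 0 := by
  have key : (freeDl p T s).comp (LinearMap.mulRight (ZMod p) (gr p (FreeGroup.of t) - 1))
      = if t = s then LinearMap.id else 0 := by
    refine (MonoidAlgebra.basis (FreeGroup T) (ZMod p)).ext fun g => ?_
    have hg : (MonoidAlgebra.basis (FreeGroup T) (ZMod p)) g = gr p g := by
      rw [MonoidAlgebra.basis_apply]
      rfl
    rw [hg, LinearMap.comp_apply, LinearMap.mulRight_apply, mul_sub, mul_one, ← gr_mul, map_sub,
      freeDl_gr, freeDl_gr, freeD_mul, freeD_of, add_sub_cancel_right]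
    by_cases h : t = s
    · simp [h]
    · simp [h]
  have := LinearMap.congr_fun key a
  rw [LinearMap.comp_apply, LinearMap.mulRight_apply] at this
  rw [this]
  by_cases h : t = s
  · simp [h]
  · simp [h]

namespace WSys

/-- The free group with its basis has deficiency `∑ w - 1`. -/
theorem free_hasDef [Fact p.Prime] (T : Type) [Fintype T] [DecidableEq T] (w : ℝ) (h0 : 0 < w)
    (h1 : w < 1) : (WSys.mk T inferInstance inferInstance (fun t => FreeGroup.of t)
      (fun _ => w) (fun _ => h0) (fun _ => h1)).HasDef p (Fintype.card T * w - 1) := by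
  refine ⟨Empty, inferInstance, fun r => r.elim, fun r => r.elim, ⟨fun r => r.elim,
    fun r => r.elim, fun a _ hd => ?_⟩, fun r => r.elim, summable_empty, fun r => r.elim, ?_⟩
  · have ha : a = 0 := by
      funext s
      have h := congrArg (freeDl p T s) hd
      rw [WSys.d, map_sum, map_zero] at h
      have h3 : ∀ t : T, freeDl p T s (a t * (gr p (FreeGroup.of t) - 1))
          = if t = s then a t else 0 := fun t => freeDl_mul p T s t (a t)
      rw [Finset.sum_congr rfl fun t _ => h3 t] at h
      simpa using h
    rw [ha]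
    exact Submodule.zero_mem _
  · rw [tsum_empty, sub_zero, Finset.sum_const, nsmul_eq_mul, Finset.card_univ]

end WSys

end Pool.Agent.TLA
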