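import Mathlib

/-! The analytic part of the Golod-Shafarevich argument. -/

set_option autoImplicit false

namespace Pool.Agent.TLA

open MeasureTheory in
private theorem GSan_scale (H : ℝ → ENNReal) (hH : Measurable H) {a : ℝ} (ha : 0 < a) :
    ∫⁻ c, H (c / a) = ENNReal.ofReal a * ∫⁻ c, H c := by
  have h1 : ∫⁻ c, H (c / a) = ∫⁻ c, H c ∂(Measure.map (fun c : ℝ => c * a⁻¹) volume) := by
    rw [lintegral_map hH (show Measurable fun c : ℝ => c * a⁻¹ from measurable_id.mul_const a⁻¹)]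
    rfl
  rw [h1, Real.map_volume_mul_right (inv_ne_zero ha.ne'), lintegral_smul_measure, inv_inv,
    abs_of_pos ha, smul_eq_mul]

/-- The analytic part: an antitone step function which vanishes on `[1, ∞)`, is bounded, and
satisfies the Golod-Shafarevich inequality, forces nonpositive deficiency. -/
theorem gs_analytic {T R : Type} [Fintype T] [Countable R] (w : T → ℝ) (ν : R → ℝ)
    (hw : ∀ t, 0 < w t ∧ w t < 1) (hν : ∀ r, 0 < ν r) (hs : Summable ν) (h : ℝ → ℕ)
    (hanti : ∀ c d, 0 < c → c ≤ d → h d ≤ h c) (h1 : ∀ c, 1 ≤ c → h c = 0) (B : ℕ)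
    (hB : ∀ c, 0 < c → h c ≤ B)
    (hin : ∀ c, 0 < c → c < 1 →
      (1 : ENNReal) + ∑ t, (h (c / w t) : ENNReal) ≤ h c + ∑' r, (h (c / ν r) : ENNReal)) :
    ∑ t, w t - 1 - ∑' r, ν r ≤ 0 := by
  classical
  obtain ⟨g, hg⟩ : ∃ g : ℝ → ℕ, g = fun c => if 0 < c then h c else B := ⟨_, rfl⟩
  have hganti : Antitone g := by
    intro c d hcd
    rw [hg]
    by_cases hc : 0 < c
    · have hd : 0 < d := lt_of_lt_of_le hc hcd
      simp only [if_pos hc, if_pos hd]
      exact hanti c d hc hcd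
    · by_cases hd : 0 < d
      · simp only [if_neg hc, if_pos hd]
        exact hB d hd
      · simp only [if_neg hc, if_neg hd]
        exact le_refl B
  obtain ⟨H, hHdef⟩ : ∃ H : ℝ → ENNReal,
      H = (Set.Ioi (0 : ℝ)).indicator fun c => (g c : ENNReal) := ⟨_, rfl⟩
  have hHm : Measurable H := by
    rw [hHdef]
    exact (measurable_from_nat.comp hganti.measurable).indicator measurableSet_Ioi
  have hHpos : ∀ c, 0 < c → H c = (h c : ENNReal) := by
    intro c hc
    rw [hHdef, Set.indicator_of_mem (show c ∈ Set.Ioi (0 : ℝ) from hc), hg]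
    simp only [if_pos hc]
  have hHneg : ∀ c, c ≤ 0 → H c = 0 := by
    intro c hc
    rw [hHdef, Set.indicator_of_notMem]
    exact not_lt.mpr hc
  have hHone : ∀ c, 1 ≤ c → H c = 0 := by
    intro c hc
    rw [hHpos c (by linarith), h1 c hc]
    exact Nat.cast_zero
  obtain ⟨E, hE⟩ : ∃ E : ENNReal, E = ∫⁻ c, H c := ⟨_, rfl⟩
  have hsupp : ∀ f : ℝ → ENNReal, (∀ c, c ≤ 0 → f c = 0) → (∀ c, 1 ≤ c → f c = 0) →
      ∫⁻ c in Set.Ioo (0 : ℝ) 1, f c = ∫⁻ c, f c := by
    intro f f0 f1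
    apply MeasureTheory.setLIntegral_eq_of_support_subset
    intro c hc
    rw [Function.mem_support] at hc
    by_contra hcon
    rw [Set.mem_Ioo, not_and_or, not_lt, not_lt] at hcon
    rcases hcon with h2 | h2
    · exact hc (f0 c h2)
    · exact hc (f1 c h2)
  have hEfin : E ≠ ⊤ := by
    have h2 : E ≤ ∫⁻ c in Set.Ioo (0 : ℝ) 1, (B : ENNReal) := by
      rw [hE, ← hsupp H hHneg hHone]
      apply MeasureTheory.setLIntegral_mono measurable_const
      intro c hc
      rw [hHpos c hc.1]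
      exact_mod_cast hB c hc.1
    rw [MeasureTheory.setLIntegral_const, Real.volume_Ioo] at h2
    refine ne_top_of_le_ne_top ?_ h2
    exact ENNReal.mul_ne_top (ENNReal.natCast_ne_top B) ENNReal.ofReal_ne_top
  have hdiv : ∀ a : ℝ, Measurable fun c : ℝ => H (c / a) :=
    fun a => hHm.comp (measurable_id.div_const a)
  have hw1 : ∀ t, ∫⁻ c in Set.Ioo (0 : ℝ) 1, H (c / w t) = ENNReal.ofReal (w t) * E := by
    intro t
    rw [hsupp (fun c => H (c / w t)), GSan_scale H hHm (hw t).1, hE]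
    · intro c hc
      exact hHneg _ (div_nonpos_of_nonpos_of_nonneg hc (hw t).1.le)
    · intro c hc
      apply hHone
      rw [le_div_iff₀ (hw t).1]
      linarith [(hw t).2]
  have hν1 : ∀ r, ∫⁻ c in Set.Ioo (0 : ℝ) 1, H (c / ν r) ≤ ENNReal.ofReal (ν r) * E := by
    intro r
    rw [hE, ← GSan_scale H hHm (hν r)]
    exact MeasureTheory.setLIntegral_le_lintegral _ _
  have key : (∫⁻ c in Set.Ioo (0 : ℝ) 1, ((1 : ENNReal) + ∑ t, H (c / w t))) ≤
      ∫⁻ c in Set.Ioo (0 : ℝ) 1, (H c + ∑' r, H (c / ν r)) := by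
    apply MeasureTheory.setLIntegral_mono'  measurableSet_Ioo
    intro c hc
    have h2 := hin c hc.1 hc.2
    have h3 : ∑ t, H (c / w t) = ∑ t, (h (c / w t) : ENNReal) :=
      Finset.sum_congr rfl fun t _ => hHpos _ (div_pos hc.1 (hw t).1)
    have h4 : ∑' r, H (c / ν r) = ∑' r, (h (c / ν r) : ENNReal) :=
      tsum_congr fun r => hHpos _ (div_pos hc.1 (hν r))
    rw [h3, h4, hHpos c hc.1]
    exact h2
  have hL : (∫⁻ c in Set.Ioo (0 : ℝ) 1, ((1 : ENNReal) + ∑ t, H (c / w t))) =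
      1 + ∑ t, ENNReal.ofReal (w t) * E := by
    rw [MeasureTheory.lintegral_add_left measurable_const,
      MeasureTheory.setLIntegral_const, Real.volume_Ioo,
      MeasureTheory.lintegral_finsetSum _ (fun t _ => hdiv (w t))]
    rw [sub_zero, ENNReal.ofReal_one, mul_one]
    congr 1
    exact Finset.sum_congr rfl fun t _ => hw1 t
  have hRr : (∫⁻ c in Set.Ioo (0 : ℝ) 1, (H c + ∑' r, H (c / ν r))) ≤
      E + ∑' r, ENNReal.ofReal (ν r) * E := by
    rw [MeasureTheory.lintegral_add_left hHm, hsupp H hHneg hHone, ← hE,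
      MeasureTheory.lintegral_tsum
        (fun r => (hdiv (ν r)).aemeasurable)]
    gcongr with r
    exact hν1 r
  have hfin := (hL.symm.le.trans key).trans hRr
  rw [ENNReal.tsum_mul_right, ← Finset.sum_mul,
    ← ENNReal.ofReal_tsum_of_nonneg (fun r => (hν r).le) hs,
    ← ENNReal.ofReal_sum_of_nonneg (fun t _ => (hw t).1.le)] at hfin
  obtain ⟨e, he⟩ : ∃ e : ℝ, e = E.toReal := ⟨_, rfl⟩
  have he0 : 0 ≤ e := by rw [he]; exact ENNReal.toReal_nonneg
  have hEe : E = ENNReal.ofReal e := by rw [he, ENNReal.ofReal_toReal hEfin]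
  have hW : 0 ≤ ∑ t, w t := Finset.sum_nonneg fun t _ => (hw t).1.le
  have hN : 0 ≤ ∑' r, ν r := tsum_nonneg fun r => (hν r).le
  rw [hEe, ← ENNReal.ofReal_mul hW, ← ENNReal.ofReal_mul hN, ← ENNReal.ofReal_one,
    ← ENNReal.ofReal_add zero_le_one (mul_nonneg hW he0),
    ← ENNReal.ofReal_add he0 (mul_nonneg hN he0),
    ENNReal.ofReal_le_ofReal_iff (by positivity)] at hfin
  by_contra hcon
  rw [not_le] at hcon
  nlinarith [mul_nonneg hcon.le he0]

end Pool.Agent.TLA
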