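import Pool.Agent.TLA.GSdim
import Pool.Agent.TLA.GSan

/-! Positive deficiency gives balls of large index. -/

set_option autoImplicit false

namespace Pool.Agent.TLA

variable (p : ℕ) {Γ : Type} [Group Γ]

namespace WSys

variable (S : WSys Γ)

/-- Positive deficiency implies that the indices of the balls are unbounded. -/
theorem exists_ball_lt [Fact p.Prime] {D : ℝ} (hD : S.HasDef p D) (hpos : 0 < D) (B : ℕ) :
    ∃ c : ℝ, 0 < c ∧ B < (S.ball p c).relIndex S.H := by
  by_contra hcon
  push Not at hcon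
  obtain ⟨R, hR, ρ, ν, hgen, hν, hs, hM, hDe⟩ := hD
  have := gs_analytic S.w ν (fun t => ⟨S.w_pos t, S.w_lt t⟩) hν hs (S.dimq p)
    (fun c d hc hcd => S.dimq_anti p hc hcd) (fun c hc => S.dimq_eq_zero p hc) B
    (fun c hc => (S.dimq_le p hc).trans (hcon c hc))
    (fun c hc hc1 => S.gs_dim p ρ ν hgen hν hs hM c hc hc1)
  rw [← hDe] at this
  exact absurd hpos (not_lt.mpr this)

end WSys

end Pool.Agent.TLA
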