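import Pool.Agent.TLA.MapA

/-! Adding relators. -/

set_option autoImplicit false

namespace Pool.Agent.TLA

variable (p : ℕ) {Γ : Type} [Group Γ]

theorem mapB_gr {Γ' : Type} [Group Γ'] (f : Γ →* Γ') (g : Γ) :
    MonoidAlgebra.mapDomainAlgHom (ZMod p) (ZMod p) f (gr p g) = gr p (f g) := by
  simp [gr]

/-- The kernel of the map of group algebras, restricted to the group algebra of `H`. -/
theorem mapB_ker {Γ' : Type} [Group Γ'] (f : Γ →* Γ') (H : Subgroup Γ)
    (P : Submodule (ZMod p) (Alg p Γ))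
    (hP : ∀ k ∈ f.ker, ∀ h ∈ H, (gr p k - 1) * gr p h ∈ P) {x : Alg p Γ} (hx : x ∈ sa p H)
    (h0 : MonoidAlgebra.mapDomainAlgHom (ZMod p) (ZMod p) f x = 0) : x ∈ P := by
  classical
  let s : Γ' → Γ := fun γ => if h : ∃ g ∈ H, f g = γ then h.choose else 1
  have hs : ∀ g ∈ H, s (f g) ∈ H ∧ f (s (f g)) = f g := by
    intro g hg
    have h : ∃ g' ∈ H, f g' = f g := ⟨g, hg, rfl⟩
    have h2 : s (f g) = h.choose := by simp only [s]; rw [dif_pos h]
    rw [h2]
    exact h.choose_spec
  let θ : Alg p Γ' →ₗ[ZMod p] (Alg p Γ ⧸ P) :=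
    (MonoidAlgebra.basis Γ' (ZMod p)).constr (ZMod p) (fun γ => P.mkQ (gr p (s γ)))
  have hθ1 : ∀ γ : Γ', θ (gr p γ) = P.mkQ (gr p (s γ)) := by
    intro γ
    have := (MonoidAlgebra.basis Γ' (ZMod p)).constr_basis (ZMod p)
      (fun γ => P.mkQ (gr p (s γ))) γ
    rw [MonoidAlgebra.basis_apply] at this
    exact this
  have hθ : ∀ y ∈ sa p H, θ (MonoidAlgebra.mapDomainAlgHom (ZMod p) (ZMod p) f y) = P.mkQ y := by
    intro y hy
    refine Submodule.span_induction ?_ ?_ ?_ ?_ hy
    · rintro _ ⟨g, hg, rfl⟩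
      have hg' : g ∈ H := hg
      rw [mapB_gr, hθ1]
      symm
      rw [Submodule.mkQ_apply, Submodule.mkQ_apply, Submodule.Quotient.eq]
      have h1 : g * (s (f g))⁻¹ ∈ f.ker := by
        rw [MonoidHom.mem_ker, map_mul, map_inv, (hs g hg').2, mul_inv_cancel]
      have h2 := hP _ h1 _ (hs g hg').1
      rw [sub_mul, one_mul, ← gr_mul, inv_mul_cancel_right] at h2
      exact h2
    · simp
    · intro a b _ _ ha hb
      rw [map_add, map_add, map_add, ha, hb]
    · intro c a _ ha
      rw [map_smul, map_smul, map_smul, ha]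
  have h3 := hθ x hx
  rw [h0, map_zero] at h3
  exact (Submodule.Quotient.mk_eq_zero P).1 h3.symm

namespace WSys

variable (S : WSys Γ)

theorem mapB_d {Γ' : Type} [Group Γ'] (f : Γ →* Γ') (a : S.T → Alg p Γ) :
    (S.map f).d p (fun t => MonoidAlgebra.mapDomainAlgHom (ZMod p) (ZMod p) f (a t)) =
      MonoidAlgebra.mapDomainAlgHom (ZMod p) (ZMod p) f (S.d p a) := by
  unfold d
  rw [map_sum]
  refine Finset.sum_congr rfl fun t _ => ?_
  rw [map_mul, map_sub, map_one, mapB_gr]
  rfl

theorem mapB_d_add (a b : S.T → Alg p Γ) : S.d p (a + b) = S.d p a + S.d p b := by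
  unfold d
  rw [← Finset.sum_add_distrib]
  exact Finset.sum_congr rfl fun t _ => by rw [Pi.add_apply, add_mul]

theorem mapB_d_sub (a b : S.T → Alg p Γ) : S.d p (a - b) = S.d p a - S.d p b := by
  unfold d
  rw [← Finset.sum_sub_distrib]
  exact Finset.sum_congr rfl fun t _ => by rw [Pi.sub_apply, sub_mul]

theorem mapB_d_smul (c : ZMod p) (a : S.T → Alg p Γ) : S.d p (c • a) = c • S.d p a := by
  unfold d
  rw [Finset.smul_sum]
  exact Finset.sum_congr rfl fun t _ => by rw [Pi.smul_apply, smul_mul_assoc]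

theorem mapB_d_mul (x : Alg p Γ) (a : S.T → Alg p Γ) :
    S.d p (fun t => x * a t) = x * S.d p a := by
  unfold d
  rw [Finset.mul_sum]
  exact Finset.sum_congr rfl fun t _ => by rw [mul_assoc]

theorem mapB_sa {Γ' : Type} [Group Γ'] (f : Γ →* Γ') :
    sa p (S.map f).H =
      (sa p S.H).map (MonoidAlgebra.mapDomainAlgHom (ZMod p) (ZMod p) f).toLinearMap := by
  rw [← M_eq_sa p (S.map f) le_rfl, ← M_eq_sa p S le_rfl, map_M]

/-- Adding relators. The kernel of `f` is generated by the `S.H`-conjugates of the `g j`, and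
`g j - 1` lies in `M (m j)`. -/
theorem map_hasDef [Fact p.Prime] {Γ' : Type} [Group Γ'] (f : Γ →* Γ') {J : Type} [Countable J]
    (g : J → Γ) (m : J → ℝ) (hg : ∀ j, g j ∈ S.H) (hm : ∀ j, 0 < m j) (hs : Summable m)
    (hgm : ∀ j, gr p (g j) - 1 ∈ S.M p (m j))
    (hker : f.ker = Subgroup.closure {x | ∃ h ∈ S.H, ∃ j, x = h * g j * h⁻¹}) {D : ℝ}
    (hD : S.HasDef p D) : (S.map f).HasDef p (D - ∑' j, m j) := by
  classical
  obtain ⟨R, hR, ρ, ν, hGen, hν, hsν, hρν, hDeq⟩ := hD
  have haug : ∀ h : Γ, aug p (gr p h - 1) = 0 := by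
    intro h
    rw [map_sub, aug_gr, aug_one, sub_self]
  choose σ hσM hσd using fun j => S.exists_d_eq p (hm j) (hgm j) (haug (g j))
  have hgker : ∀ j, g j ∈ f.ker := by
    intro j
    rw [hker]
    exact Subgroup.subset_closure ⟨1, S.H.one_mem, j, by simp⟩
  have hkerH : f.ker ≤ S.H := by
    rw [hker, Subgroup.closure_le]
    rintro _ ⟨h, hh, j, rfl⟩
    exact S.H.mul_mem (S.H.mul_mem hh (hg j)) (S.H.inv_mem hh)
  have hσsa : ∀ j t, σ j t ∈ sa p S.H := fun j t => S.M_le_sa p _ (hσM j t)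
  have hFM : ∀ (c : ℝ) (a : Alg p Γ), a ∈ S.M p c →
      MonoidAlgebra.mapDomainAlgHom (ZMod p) (ZMod p) f a ∈ (S.map f).M p c := by
    intro c a ha
    rw [map_M]
    exact ⟨a, ha, rfl⟩
  -- the new relations
  let ρ' : R ⊕ J → S.T → Alg p Γ := Sum.elim ρ σ
  let F : Alg p Γ →ₐ[ZMod p] Alg p Γ' := MonoidAlgebra.mapDomainAlgHom (ZMod p) (ZMod p) f
  -- every element of the kernel is `d` of something which maps to the span of the new relations
  let Q : Submodule (ZMod p) (S.T → Alg p Γ') :=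
    Submodule.span (ZMod p) {b : S.T → Alg p Γ' | ∃ h ∈ (S.map f).H, ∃ r : R ⊕ J,
      b = fun t => gr p h * F (ρ' r t)}
  have hfH : ∀ h ∈ S.H, f h ∈ (S.map f).H := by
    intro h hh
    rw [map_H]
    exact ⟨h, hh, rfl⟩
  let P : Submodule (ZMod p) (Alg p Γ) :=
    { carrier := {x | ∃ e : S.T → Alg p Γ, (∀ t, e t ∈ sa p S.H) ∧ S.d p e = x ∧
        (fun t => F (e t)) ∈ Q}
      add_mem' := by
        rintro x y ⟨e, he, hx, hQ⟩ ⟨e', he', hy, hQ'⟩
        refine ⟨e + e', fun t => add_mem (he t) (he' t), ?_, ?_⟩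
        · rw [mapB_d_add, hx, hy]
        · have := add_mem hQ hQ'
          convert this using 1
          funext t
          simp
      zero_mem' := by
        refine ⟨0, fun t => zero_mem _, ?_, ?_⟩
        · unfold d
          simp
        · convert zero_mem Q using 1
          funext t
          simp
      smul_mem' := by
        rintro c x ⟨e, he, hx, hQ⟩
        refine ⟨c • e, fun t => Submodule.smul_mem _ c (he t), ?_, ?_⟩
        · rw [mapB_d_smul, hx]
        · have := Submodule.smul_mem Q c hQ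
          convert this using 1
          funext t
          simp }
  -- `(gr (g j) - 1) * gr k`, multiplied on the left
  have hP1 : ∀ h ∈ S.H, ∀ j, ∀ k ∈ S.H, gr p h * (gr p (g j) - 1) * gr p k ∈ P := by
    intro h hh j k hk
    have hk1 : gr p k - 1 ∈ S.M p 1 := by
      rw [M_eq_sa p S le_rfl]
      exact sub_mem (gr_mem_sa p hk) (one_mem_sa p _)
    obtain ⟨c, hc, hcd⟩ := S.exists_d_eq p one_pos hk1 (haug k)
    have hcsa : ∀ t, c t ∈ sa p S.H := fun t => S.M_le_sa p _ (hc t)
    have hgsa : gr p h * (gr p (g j) - 1) ∈ sa p S.H :=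
      sa_mul_mem p (gr_mem_sa p hh) (sub_mem (gr_mem_sa p (hg j)) (one_mem_sa p _))
    refine ⟨(fun t => gr p h * σ j t) + fun t => gr p h * (gr p (g j) - 1) * c t, ?_, ?_, ?_⟩
    · intro t
      exact add_mem (sa_mul_mem p (gr_mem_sa p hh) (hσsa j t)) (sa_mul_mem p hgsa (hcsa t))
    · rw [mapB_d_add, mapB_d_mul, mapB_d_mul, hσd, hcd]
      noncomm_ring
    · have h1 : (fun t => F (((fun t => gr p h * σ j t) +
          fun t => gr p h * (gr p (g j) - 1) * c t) t)) =
          fun t => gr p (f h) * F (ρ' (Sum.inr j) t) := by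
        funext t
        have h2 : F (gr p (g j) - 1) = 0 := by
          rw [map_sub, map_one, mapB_gr, (MonoidHom.mem_ker).1 (hgker j), gr_one, sub_self]
        rw [Pi.add_apply, map_add, map_mul, map_mul, map_mul, h2, mapB_gr]
        simp [ρ']
      rw [h1]
      exact Submodule.subset_span ⟨f h, hfH h hh, Sum.inr j, rfl⟩
  have hPmul : ∀ x, x ∈ Submodule.span (ZMod p)
      {x | ∃ h ∈ S.H, ∃ j, ∃ k ∈ S.H, x = gr p h * (gr p (g j) - 1) * gr p k} → x ∈ P := by
    intro x hx
    have hle : Submodule.span (ZMod p)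
        {x | ∃ h ∈ S.H, ∃ j, ∃ k ∈ S.H, x = gr p h * (gr p (g j) - 1) * gr p k} ≤ P := by
      rw [Submodule.span_le]
      rintro _ ⟨h, hh, j, k, hk, rfl⟩
      exact hP1 h hh j k hk
    exact hle hx
  have hP2 : ∀ k ∈ f.ker, ∀ h ∈ S.H, (gr p k - 1) * gr p h ∈ Submodule.span (ZMod p)
      {x | ∃ h ∈ S.H, ∃ j, ∃ k ∈ S.H, x = gr p h * (gr p (g j) - 1) * gr p k} := by
    intro k hk
    rw [hker] at hk
    induction hk using Subgroup.closure_induction with
    | mem x hx =>
      obtain ⟨h', hh', j, rfl⟩ := hx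
      intro h hh
      refine Submodule.subset_span ⟨h', hh', j, h'⁻¹ * h,
        S.H.mul_mem (S.H.inv_mem hh') hh, ?_⟩
      rw [sub_mul, one_mul, mul_sub, mul_one, sub_mul]
      simp only [← gr_mul]
      congr 2 <;> group
    | one =>
      intro h _
      rw [gr_one, sub_self, zero_mul]
      exact zero_mem _
    | mul x y hx hy ihx ihy =>
      intro h hh
      have hyH : y ∈ S.H := hkerH (by rw [hker]; exact hy)
      have h1 := ihx (y * h) (S.H.mul_mem hyH hh)
      have h2 := ihy h hh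
      have h3 : (gr p (x * y) - 1) * gr p h =
          (gr p x - 1) * gr p (y * h) + (gr p y - 1) * gr p h := by
        rw [gr_mul, gr_mul]
        noncomm_ring
      rw [h3]
      exact add_mem h1 h2
    | inv x hx ihx =>
      intro h hh
      have hxH : x ∈ S.H := hkerH (by rw [hker]; exact hx)
      have h1 := ihx (x⁻¹ * h) (S.H.mul_mem (S.H.inv_mem hxH) hh)
      have h3 : (gr p x⁻¹ - 1) * gr p h = -((gr p x - 1) * gr p (x⁻¹ * h)) := by
        rw [sub_mul, sub_mul, one_mul, one_mul, ← gr_mul, ← gr_mul, mul_inv_cancel_left]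
        abel
      rw [h3]
      exact neg_mem h1
  have hmain : ∀ x ∈ sa p S.H, F x = 0 → x ∈ P := by
    intro x hx h0
    exact mapB_ker p f S.H P (fun k hk h hh => hPmul _ (hP2 k hk h hh)) hx h0
  -- the answer
  refine ⟨R ⊕ J, inferInstance, fun r t => F (ρ' r t), Sum.elim ν m, ⟨?_, ?_, ?_⟩, ?_, ?_, ?_, ?_⟩
  · rintro (r | j) t
    · exact (S.map f).M_le_sa p _ (hFM _ _ (hρν r t))
    · exact (S.map f).M_le_sa p _ (hFM _ _ (hσM j t))
  · rintro (r | j)
    · have h1 := S.mapB_d p f (ρ r)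
      rw [hGen.2.1 r, map_zero] at h1
      exact h1
    · have h1 := S.mapB_d p f (σ j)
      rw [hσd j, map_sub, map_one, mapB_gr, (MonoidHom.mem_ker).1 (hgker j), gr_one,
        sub_self] at h1
      exact h1
  · intro a' ha' hda'
    have hlift : ∀ t : S.T, ∃ a ∈ sa p S.H, F a = a' t := by
      intro t
      have h1 := ha' t
      rw [mapB_sa] at h1
      exact h1
    choose a ha haF using hlift
    have h1 : F (S.d p a) = 0 := by
      have h2 : (S.map f).d p (fun t : S.T => F (a t)) = F (S.d p a) := S.mapB_d p f a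
      have h3 : (fun t : S.T => F (a t)) = a' := funext haF
      calc F (S.d p a) = (S.map f).d p (fun t : S.T => F (a t)) := h2.symm
        _ = (S.map f).d p a' := congrArg ((S.map f).d p) h3
        _ = 0 := hda'
    have hdsa : S.d p a ∈ sa p S.H := by
      unfold d
      refine Submodule.sum_mem _ fun t _ => ?_
      exact sa_mul_mem p (ha t) (sub_mem (gr_mem_sa p (S.v_mem_H t)) (one_mem_sa p _))
    obtain ⟨e, he, hed, heQ⟩ := hmain _ hdsa h1
    have h4 : S.d p (a - e) = 0 := by rw [mapB_d_sub, hed, sub_self]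
    have h5 := hGen.2.2 (a - e) (fun t => sub_mem (ha t) (he t)) h4
    have h6 : ∀ b ∈ Submodule.span (ZMod p) {b : S.T → Alg p Γ | ∃ h ∈ S.H, ∃ r,
        b = fun t => gr p h * ρ r t}, (fun t => F (b t)) ∈ Q := by
      intro b hb
      refine Submodule.span_induction ?_ ?_ ?_ ?_ hb
      · rintro _ ⟨h, hh, r, rfl⟩
        refine Submodule.subset_span ⟨f h, hfH h hh, Sum.inl r, ?_⟩
        funext t
        rw [map_mul, mapB_gr]
        rfl
      · convert zero_mem Q using 1
        funext t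
        simp
      · intro x y _ _ hx hy
        have := add_mem hx hy
        convert this using 1
        funext t
        simp
      · intro c x _ hx
        have := Submodule.smul_mem Q c hx
        convert this using 1
        funext t
        simp
    have h7 := add_mem (h6 _ h5) heQ
    have h8 : ((fun t => F ((a - e) t)) + fun t => F (e t)) = a' := by
      funext t
      rw [Pi.add_apply, Pi.sub_apply, map_sub, sub_add_cancel]
      exact haF t
    rw [h8] at h7
    exact h7
  · rintro (r | j)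
    · exact hν r
    · exact hm j
  · exact Summable.sum _ hsν hs
  · rintro (r | j) t
    · exact hFM _ _ (hρν r t)
    · exact hFM _ _ (hσM j t)
  · have h1 : ∑' r : R ⊕ J, Sum.elim ν m r = (∑' r, ν r) + ∑' j, m j :=
      Summable.tsum_sum (f := Sum.elim ν m) hsν hs
    rw [h1, hDeq]
    change _ = ∑ t : S.T, S.w t - 1 - _
    ring

end WSys

end Pool.Agent.TLA
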