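import Pool.Agent.TLA.Scale
import Pool.Agent.TLA.MapB
import Pool.Agent.TLA.Conj
import Pool.Agent.TLA.Free
import Pool.Agent.TLA.GS

/-! All operations. -/
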