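import Pool.Agent.TLA.StepMain
import Pool.Agent.TLA.Ops

/-! Chains of subgroups of index `p` (block B5 of the proof). -/

set_option autoImplicit false

namespace Pool.Agent.TLA

variable (p : ℕ) {Γ : Type} [Group Γ]

/-- A chain `S.H = E 0 > E 1 > ...` of subgroups, each the kernel of a homomorphism of the
previous one to `ZMod p`, such that the elements of `E j` outside `E (j + 1)` have the largest norm
`c j` of the elements of `E j`. -/
structure Chain (S : WSys Γ) (D : ℝ) where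
  /-- the subgroups -/
  E : ℕ → Subgroup Γ
  /-- the norms -/
  c : ℕ → ℝ
  /-- the homomorphisms -/
  φ : ℕ → Γ → ZMod p
  E_zero : E 0 = S.H
  add : ∀ j, ∀ x ∈ E j, ∀ y ∈ E j, φ j (x * y) = φ j x + φ j y
  mem_succ : ∀ j x, x ∈ E (j + 1) ↔ x ∈ E j ∧ φ j x = 0
  c_pos : ∀ j, 0 < c j
  c_lt : ∀ j, c j < 1
  c_anti : Antitone c
  c_tendsto : Filter.Tendsto c Filter.atTop (nhds 0)
  n_le : ∀ j, ∀ x ∈ E j, S.n p x ≤ c j
  n_eq : ∀ j, ∀ x ∈ E j, φ j x ≠ 0 → S.n p x = c j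
  exists_ne : ∀ j, ∃ x ∈ E j, φ j x ≠ 0
  sys : ∀ j, ∃ S' : WSys Γ, S'.H = E j ∧ (∀ d, S'.M p d = S.M p d ⊓ sa p (E j)) ∧
    S'.HasDef p (D * ∏ i ∈ Finset.range j, tau p (c i))
  drop : ∀ j, c (j + 1) < c j → E (j + 1) = S.ball p (c (j + 1))

/-- `j` is active for the subgroup `M`. -/
def Chain.Act {p : ℕ} {S : WSys Γ} {D : ℝ} (C : Chain p S D) (M : Subgroup Γ) (j : ℕ) : Prop :=
  ∃ x, x ∈ M ∧ x ∈ C.E j ∧ C.φ j x ≠ 0

/-- The subgroup `K` is a normal subgroup of `p`-power index with an invariant system of positive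
deficiency. -/
def Good (K : Subgroup Γ) : Prop :=
  K.Normal ∧ (∃ k, K.index = p ^ k) ∧
    ∃ (S : WSys Γ) (D : ℝ), S.H = K ∧ 0 < D ∧ S.HasDef p D ∧ S.Inv p

end Pool.Agent.TLA
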