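import Pool.Agent.TLA.ChainStep

/-! Existence of chains. -/

set_option autoImplicit false

namespace Pool.Agent.TLA

variable (p : ℕ) {Γ : Type} [Group Γ]

theorem one_add_le_tau [Fact p.Prime] {c : ℝ} (hc : 0 ≤ c) : 1 + c ≤ tau p c := by
  have hp : 2 ≤ p := (Fact.out : p.Prime).two_le
  have h : Finset.range 2 ⊆ Finset.range p := Finset.range_subset_range.2 hp
  have h2 : ∑ k ∈ Finset.range 2, c ^ k ≤ ∑ k ∈ Finset.range p, c ^ k :=
    Finset.sum_le_sum_of_subset_of_nonneg h fun i _ _ => pow_nonneg hc i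
  have h3 : ∑ k ∈ Finset.range 2, c ^ k = 1 + c := by
    rw [Finset.sum_range_succ, Finset.sum_range_succ, Finset.sum_range_zero]
    ring
  rw [h3] at h2
  exact h2

theorem tau_pos [Fact p.Prime] {c : ℝ} (hc : 0 ≤ c) : 0 < tau p c := by
  have h := one_add_le_tau p hc
  linarith

theorem sub_one_mul_tau [Fact p.Prime] (c : ℝ) : (c - 1) * tau p c = c ^ p - 1 := by
  unfold tau
  exact mul_geom_sum c p

/-- The states of the recursion. -/
private def chainEx_St (S : WSys Γ) : Type 1 :=
  {q : WSys Γ × ℝ // q.1.H ≤ S.H ∧ (∀ d, q.1.M p d = S.M p d ⊓ sa p q.1.H) ∧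
    q.1.HasDef p q.2 ∧ 0 < q.2}

private theorem chainEx_step [Fact p.Prime] (S : WSys Γ) (q : chainEx_St p S) :
    ∃ (q' : chainEx_St p S) (φ : Γ → ZMod p) (c : ℝ), 0 < c ∧ c < 1 ∧ q.1.1.AddOn p φ ∧
      (∀ x ∈ q.1.1.H, S.n p x ≤ c) ∧ (∀ x ∈ q.1.1.H, φ x ≠ 0 → S.n p x = c) ∧
      (∃ x ∈ q.1.1.H, φ x ≠ 0) ∧ (∀ x, x ∈ q'.1.1.H ↔ x ∈ q.1.1.H ∧ φ x = 0) ∧
      q'.1.2 = q.1.2 * tau p c := by
  obtain ⟨⟨S', D'⟩, hH, hM, hD, hpos⟩ := q
  obtain ⟨φ, c, S'', h0, h1, h2, h3, h4, h5, h6, h7, h8⟩ :=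
    WSys.chain_step p S S' hH hM hD hpos
  refine ⟨⟨(S'', D' * tau p c), ?_, h7, h8, mul_pos hpos (tau_pos p h0.le)⟩, φ, c, h0, h1, h2,
    h3, h4, h5, h6, rfl⟩
  intro x hx
  exact hH ((h6 x).1 hx).1

/-- A decreasing sequence of different subgroups which contain a subgroup of finite index does not
exist. -/
private theorem chainEx_index (E : ℕ → Subgroup Γ) (H U : Subgroup Γ) (h0 : E 0 = H)
    (hle : ∀ j, E (j + 1) ≤ E j) (hne : ∀ j, ¬ E j ≤ E (j + 1)) (hU : ∀ j, U ≤ E j)
    (hfin : U.relIndex H ≠ 0) : False := by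
  have hEH : ∀ j, E j ≤ H := by
    intro j
    induction j with
    | zero => rw [h0]
    | succ j ih => exact (hle j).trans ih
  have hd : ∀ j, (E j).relIndex H ≠ 0 := fun j h =>
    hfin (by
      have h1 := Subgroup.relIndex_dvd_of_le_left H (hU j)
      rw [h] at h1
      exact zero_dvd_iff.1 h1)
  have hle2 : ∀ j, (E j).relIndex H ≤ U.relIndex H := fun j =>
    Nat.le_of_dvd (Nat.pos_of_ne_zero hfin) (Subgroup.relIndex_dvd_of_le_left H (hU j))
  have hlow : ∀ j, j < (E j).relIndex H := by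
    intro j
    induction j with
    | zero => exact Nat.pos_of_ne_zero (hd 0)
    | succ j ih =>
      have h1 := Subgroup.relIndex_mul_relIndex (E (j + 1)) (E j) H (hle j) (hEH j)
      have h2 : (E (j + 1)).relIndex (E j) ≠ 0 := fun h => by
        rw [h, zero_mul] at h1
        exact hd (j + 1) h1.symm
      have h3 : (E (j + 1)).relIndex (E j) ≠ 1 := fun h =>
        hne j (Subgroup.relIndex_eq_one.1 h)
      have h4 : 2 ≤ (E (j + 1)).relIndex (E j) := by omega
      rw [← h1]
      nlinarith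
  exact absurd (hlow (U.relIndex H)) (not_lt.2 (hle2 _))

/-- A system of positive deficiency has a chain. -/
theorem exists_chain [Fact p.Prime] (S : WSys Γ) {D : ℝ} (hD : S.HasDef p D) (hpos : 0 < D) :
    Nonempty (Chain p S D) := by
  choose next φ c hc0 hc1 hadd hle heq hex hsucc hdef using chainEx_step p S
  let q0 : chainEx_St p S :=
    ⟨(S, D), le_rfl, fun d => (inf_eq_left.2 (S.M_le_sa p d)).symm, hD, hpos⟩
  let st : ℕ → chainEx_St p S := fun n => Nat.rec q0 (fun _ q => next q) n
  have st0 : st 0 = q0 := rfl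
  have stS : ∀ j, st (j + 1) = next (st j) := fun j => rfl
  let E : ℕ → Subgroup Γ := fun j => (st j).1.1.H
  have hE0 : E 0 = S.H := rfl
  have hmem : ∀ j x, x ∈ E (j + 1) ↔ x ∈ E j ∧ φ (st j) x = 0 := fun j x => hsucc (st j) x
  have hEle : ∀ j, E (j + 1) ≤ E j := fun j x hx => ((hmem j x).1 hx).1
  have hEH : ∀ j, E j ≤ S.H := fun j => (st j).2.1
  have hanti : Antitone fun j => c (st j) := by
    refine antitone_nat_of_succ_le fun j => ?_
    obtain ⟨x, hx, hx0⟩ := hex (st (j + 1))
    have h1 : S.n p x = c (st (j + 1)) := heq (st (j + 1)) x hx hx0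
    have h2 : S.n p x ≤ c (st j) := hle (st j) x (hEle j hx)
    rw [h1] at h2
    exact h2
  -- an element of norm less than `c j` for all `j < m` belongs to `E m`
  have hin : ∀ m x, x ∈ S.H → (∀ j < m, S.n p x < c (st j)) → x ∈ E m := by
    intro m x hx
    induction m with
    | zero => intro _; exact hx
    | succ m ih =>
      intro h
      have h1 := ih fun j hj => h j (Nat.lt_succ_of_lt hj)
      refine (hmem m x).2 ⟨h1, ?_⟩
      by_contra hne
      exact absurd (heq (st m) x h1 hne) (h m (Nat.lt_succ_self m)).ne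
  have htend : Filter.Tendsto (fun j => c (st j)) Filter.atTop (nhds 0) := by
    have hex' : ∀ e : ℝ, 0 < e → ∃ m, c (st m) < e := by
      intro e he
      by_contra hcon
      push Not at hcon
      refine chainEx_index E S.H (S.ball p (e / 2)) hE0 hEle ?_ ?_
        (S.ball_relIndex p (half_pos he))
      · intro j hj
        obtain ⟨x, hx, hx0⟩ := hex (st j)
        exact hx0 ((hmem j x).1 (hj hx)).2
      · intro j x hx
        refine hin j x hx.1 fun i _ => ?_
        have h1 := S.Ball_le_of_mem p (half_pos he) hx.2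
        have h2 := hcon i
        linarith
    rw [Metric.tendsto_atTop]
    intro e he
    obtain ⟨m, hm⟩ := hex' e he
    refine ⟨m, fun j hj => ?_⟩
    have h1 : c (st j) ≤ c (st m) := hanti hj
    have h2 := hc0 (st j)
    rw [Real.dist_eq, sub_zero, abs_of_pos h2]
    linarith
  have hdefj : ∀ j, (st j).1.2 = D * ∏ i ∈ Finset.range j, tau p (c (st i)) := by
    intro j
    induction j with
    | zero => rw [Finset.prod_range_zero, mul_one, st0]
    | succ j ih => rw [Finset.prod_range_succ, stS, hdef, ih, mul_assoc]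
  exact ⟨{
    E := E
    c := fun j => c (st j)
    φ := fun j => φ (st j)
    E_zero := hE0
    add := fun j => hadd (st j)
    mem_succ := hmem
    c_pos := fun j => hc0 (st j)
    c_lt := fun j => hc1 (st j)
    c_anti := hanti
    c_tendsto := htend
    n_le := fun j => hle (st j)
    n_eq := fun j => heq (st j)
    exists_ne := fun j => hex (st j)
    sys := fun j => ⟨(st j).1.1, rfl, (st j).2.2.1, by
      have h := (st j).2.2.2.1
      rw [hdefj j] at h
      exact h⟩
    drop := by
      intro j hj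
      ext x
      constructor
      · intro hx
        have hxH := hEH (j + 1) hx
        exact ⟨hxH, (S.n_le_iff p (hc0 _) hxH).1 (hle (st (j + 1)) x hx)⟩
      · intro hx
        refine hin (j + 1) x hx.1 fun i hi => ?_
        have h1 := S.Ball_le_of_mem p (hc0 (st (j + 1))) hx.2
        have h2 : c (st j) ≤ c (st i) := hanti (Nat.lt_succ_iff.1 hi)
        linarith }⟩

end Pool.Agent.TLA
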