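import Pool.Agent.TLA.ChainEx

/-! Facts on chains. -/

set_option autoImplicit false

namespace Pool.Agent.TLA

variable {p : ℕ} {Γ : Type} [Group Γ] {S : WSys Γ} {D : ℝ}

namespace Chain

variable (C : Chain p S D)

theorem anti : Antitone C.E :=
  antitone_nat_of_succ_le fun n x hx => ((C.mem_succ n x).1 hx).1

theorem le_H (j : ℕ) : C.E j ≤ S.H := by
  rw [← C.E_zero]
  exact C.anti (Nat.zero_le j)

private theorem chainFacts_index [Fact p.Prime] (j : ℕ) :
    (C.E (j + 1)).relIndex (C.E j) = p := by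
  have hone : C.φ j 1 = 0 := by
    have h := C.add j 1 (C.E j).one_mem 1 (C.E j).one_mem
    rw [mul_one] at h
    exact left_eq_add.1 h
  let f : C.E j →* Multiplicative (ZMod p) :=
    { toFun := fun x => Multiplicative.ofAdd (C.φ j x)
      map_one' := by
        show Multiplicative.ofAdd (C.φ j 1) = 1
        rw [hone]
        rfl
      map_mul' := fun x y => by
        show Multiplicative.ofAdd (C.φ j ((x : Γ) * (y : Γ))) = _
        rw [C.add j x x.2 y y.2]
        rfl }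
  have hf : ∀ x : C.E j, f x = Multiplicative.ofAdd (C.φ j x) := fun _ => rfl
  have hker : (C.E (j + 1)).subgroupOf (C.E j) = f.ker := by
    ext x
    rw [Subgroup.mem_subgroupOf, MonoidHom.mem_ker, hf, C.mem_succ]
    constructor
    · rintro ⟨-, h⟩
      rw [h]
      rfl
    · intro h
      exact ⟨x.2, h⟩
  obtain ⟨x, hx, hne⟩ := C.exists_ne j
  have hsurj : Function.Surjective f := by
    intro a
    have hpow : ∀ n : ℕ, f ((⟨x, hx⟩ : C.E j) ^ n) =
        Multiplicative.ofAdd ((n : ZMod p) * C.φ j x) := by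
      intro n
      rw [map_pow, hf, ← ofAdd_nsmul, nsmul_eq_mul]
    refine ⟨(⟨x, hx⟩ : C.E j) ^ (Multiplicative.toAdd a * (C.φ j x)⁻¹).val, ?_⟩
    rw [hpow, ZMod.natCast_val, ZMod.cast_id', id, mul_assoc, inv_mul_cancel₀ hne, mul_one]
    rfl
  unfold Subgroup.relIndex
  rw [hker, Subgroup.index_ker, MonoidHom.range_eq_top.2 hsurj]
  rw [Nat.card_congr Subgroup.topEquiv.toEquiv]
  exact Nat.card_zmod p

theorem relIndex [Fact p.Prime] (j : ℕ) : (C.E j).relIndex S.H = p ^ j := by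
  induction j with
  | zero => rw [C.E_zero, Subgroup.relIndex_self, pow_zero]
  | succ j ih =>
    rw [← Subgroup.relIndex_mul_relIndex (C.E (j + 1)) (C.E j) S.H (C.anti (Nat.le_succ j))
      (C.le_H j), ih, chainFacts_index C j, pow_succ, mul_comm]

theorem relIndex_succ [Fact p.Prime] (j : ℕ) : (C.E (j + 1)).relIndex (C.E j) = p :=
  chainFacts_index C j

theorem mem_of_n_lt {x : Γ} (hx : x ∈ S.H) (j : ℕ) (h : S.n p x < C.c j) :
    x ∈ C.E (j + 1) := by
  have key : ∀ j, x ∈ C.E j → S.n p x < C.c j → x ∈ C.E (j + 1) := by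
    intro j hj h
    rw [C.mem_succ]
    refine ⟨hj, ?_⟩
    by_contra hne
    exact h.ne (C.n_eq j x hj hne)
  induction j with
  | zero =>
    refine key 0 ?_ h
    rw [C.E_zero]
    exact hx
  | succ j ih => exact key (j + 1) (ih (h.trans_le (C.c_anti (Nat.le_succ j)))) h

theorem E_le_ball (j : ℕ) : C.E j ≤ S.ball p (C.c j) := by
  intro x hx
  have hxH : x ∈ S.H := C.le_H j hx
  exact ⟨hxH, (S.n_le_iff p (C.c_pos j) hxH).1 (C.n_le j x hx)⟩

/-- There are drop indices beyond any bound; there `E` is a ball. -/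
theorem exists_drop (N : ℕ) : ∃ j, N ≤ j ∧ C.E j = S.ball p (C.c j) := by
  by_contra hcon
  have h1 : ∀ j, N ≤ j → C.c j ≤ C.c (j + 1) := by
    intro j hj
    by_contra hlt
    exact hcon ⟨j + 1, by omega, C.drop j (not_le.1 hlt)⟩
  have h2 : ∀ j, N ≤ j → C.c N ≤ C.c j := by
    intro j hj
    induction j, hj using Nat.le_induction with
    | base => exact le_refl _
    | succ j hj ih => exact ih.trans (h1 j hj)
  have h3 := (C.c_tendsto.eventually (gt_mem_nhds (C.c_pos N))).and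
    (Filter.eventually_ge_atTop N)
  obtain ⟨j, hj1, hj2⟩ := h3.exists
  exact absurd (h2 j hj2) (not_le.2 hj1)

/-- At a drop index in an invariant system there is an invariant system. -/
theorem sys_inv [Fact p.Prime] (hS : S.Inv p) (hpos : 0 < D) (j : ℕ)
    (hj : C.E j = S.ball p (C.c j)) :
    (C.E j).Normal ∧ ∃ S' : WSys Γ, S'.H = C.E j ∧ (∀ d, S'.M p d = S.M p d ⊓ sa p (C.E j)) ∧
      S'.HasDef p (D * ∏ i ∈ Finset.range j, tau p (C.c i)) ∧ S'.Inv p ∧
      0 < D * ∏ i ∈ Finset.range j, tau p (C.c i) := by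
  have hN : (C.E j).Normal := by
    rw [hj]
    exact S.ball_normal p hS _
  obtain ⟨S', hH, hM, hDef⟩ := C.sys j
  refine ⟨hN, S', hH, hM, hDef, ?_, ?_⟩
  · intro γ t
    rw [hM]
    have h1 : gr p (S'.v t) - 1 ∈ S.M p (S'.w t) := by
      have h2 := S'.v_mem_M p t
      rw [hM] at h2
      exact h2.1
    have h3 : S'.v t ∈ C.E j := by
      rw [← hH]
      exact S'.v_mem_H t
    refine ⟨?_, ?_⟩
    · have h4 := S.conj_mem_M p hS h1 γ
      have h5 : gr p γ * (gr p (S'.v t) - 1) * gr p γ⁻¹ =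
          gr p (γ * S'.v t * γ⁻¹) - 1 := by
        rw [mul_sub, sub_mul, mul_one, ← gr_mul, ← gr_mul, ← gr_mul, mul_inv_cancel, gr_one]
      rw [h5] at h4
      exact h4
    · exact (sa p (C.E j)).sub_mem (gr_mem_sa p (hN.conj_mem _ h3 γ)) (one_mem_sa p _)
  · exact mul_pos hpos (Finset.prod_pos fun i _ => tau_pos p (C.c_pos i).le)

/-- Every normal subgroup of `p`-power index contains some `E j`. -/
theorem exists_E_le [Fact p.Prime] (U : Subgroup Γ) (hU : U.Normal) (k : ℕ)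
    (hk : U.index = p ^ k) : ∃ j, C.E j ≤ U := by
  obtain ⟨c, hc, hcU⟩ := S.exists_ball_le p U hU k hk
  obtain ⟨j, hj⟩ := (C.c_tendsto.eventually (gt_mem_nhds hc)).exists
  exact ⟨j, (C.E_le_ball j).trans ((S.ball_mono p hj.le).trans hcU)⟩

end Chain

/-- Deep good subgroups. -/
theorem Good.deep [Fact p.Prime] {K : Subgroup Γ} (hK : Good p K) (m : ℕ) :
    ∃ K' : Subgroup Γ, K' ≤ K ∧ m ≤ K'.index ∧ Good p K' := by
  obtain ⟨hN, ⟨k, hk⟩, S, D, hSH, hD, hDef, hInv⟩ := hK
  obtain ⟨C⟩ := exists_chain p S hDef hD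
  obtain ⟨j, hmj, hj⟩ := C.exists_drop m
  have hle : C.E j ≤ K := by
    rw [← hSH]
    exact C.le_H j
  have hidx : (C.E j).index = p ^ (j + k) := by
    have h1 := C.relIndex j
    rw [hSH] at h1
    rw [← Subgroup.relIndex_mul_index hle, h1, hk, pow_add]
  obtain ⟨hN', S', hH', -, hDef', hInv', hpos'⟩ := C.sys_inv hInv hD j hj
  refine ⟨C.E j, hle, ?_, hN', ⟨j + k, hidx⟩, S', _, hH', hpos', hDef', hInv'⟩
  rw [hidx]
  have h2 : j + k < p ^ (j + k) := Nat.lt_pow_self (Fact.out : p.Prime).one_lt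
  omega

end Pool.Agent.TLA
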