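import Pool.Agent.TLA.ChainDefs

/-! One step of the chain. -/

set_option autoImplicit false

namespace Pool.Agent.TLA

variable (p : ℕ) {Γ : Type} [Group Γ]

namespace WSys

/-- Norms in a subsystem with the induced filtration. -/
theorem n_sub_eq (S S' : WSys Γ) (hM : ∀ d, S'.M p d = S.M p d ⊓ sa p S'.H) {x : Γ}
    (hx : x ∈ S'.H) : S'.n p x = S.n p x := by
  unfold n N
  congr 1
  ext c
  simp only [Set.mem_ofPred_eq]
  rw [hM c, Submodule.mem_inf]
  have h : gr p x - 1 ∈ sa p S'.H := sub_mem (gr_mem_sa p hx) (one_mem_sa p S'.H)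
  exact ⟨fun ⟨h1, h2, _⟩ => ⟨h1, h2⟩, fun ⟨h1, h2⟩ => ⟨h1, h2, h⟩⟩

/-- Functionals on an abelian group of exponent `p`. -/
private theorem chainStep_dual0 [Fact p.Prime] {V : Type} [AddCommGroup V] [Module (ZMod p) V]
    {v₀ : V} (hv₀ : v₀ ≠ 0) : ∃ f : V →ₗ[ZMod p] ZMod p, f v₀ ≠ 0 := by
  by_contra hcon
  push Not at hcon
  exact hv₀ ((Module.forall_dual_apply_eq_zero_iff (ZMod p) v₀).mp hcon)

/-- Functionals on an abelian group of exponent `p`. -/
private theorem chainStep_dual [Fact p.Prime] {V : Type} [AddCommGroup V]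
    (h : ∀ v : V, p • v = 0) {v₀ : V} (hv₀ : v₀ ≠ 0) : ∃ f : V →+ ZMod p, f v₀ ≠ 0 := by
  let _ : Module (ZMod p) V := AddCommGroup.zmodModule h
  obtain ⟨f, hf⟩ := chainStep_dual0 p hv₀
  exact ⟨f.toAddMonoidHom, hf⟩

/-- A nonzero functional on a group that vanishes on a subgroup containing the commutators and the
`p`-th powers. -/
private theorem chainStep_functional [Fact p.Prime] {G : Type} [Group G] (K : Subgroup G)
    (hc : ∀ g h : G, g * h * g⁻¹ * h⁻¹ ∈ K) (hp : ∀ g : G, g ^ p ∈ K) {g₀ : G} (hg₀ : g₀ ∉ K) :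
    ∃ f : G → ZMod p, (∀ x y, f (x * y) = f x + f y) ∧ (∀ x ∈ K, f x = 0) ∧ f g₀ ≠ 0 := by
  have hK : K.Normal := by
    refine ⟨fun x hx g => ?_⟩
    have h1 := K.mul_mem (hc g x) hx
    simpa [mul_assoc] using h1
  have hcomm : ∀ a b : G ⧸ K, a * b = b * a := by
    intro a b
    induction a using QuotientGroup.induction_on with
    | H a =>
      induction b using QuotientGroup.induction_on with
      | H b =>
        rw [← QuotientGroup.mk_mul, ← QuotientGroup.mk_mul, QuotientGroup.eq]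
        have h1 := hc b⁻¹ a⁻¹
        simpa [mul_assoc] using h1
  let _ : CommGroup (G ⧸ K) := { QuotientGroup.Quotient.group K with mul_comm := hcomm }
  have hpow : ∀ a : Additive (G ⧸ K), p • a = 0 := by
    intro a
    obtain ⟨g, hg⟩ := QuotientGroup.mk_surjective (Additive.toMul a)
    have h1 : (Additive.toMul a) ^ p = 1 := by
      rw [← hg]
      show ((g ^ p : G) : G ⧸ K) = 1
      exact (QuotientGroup.eq_one_iff _).mpr (hp g)
    have h2 : Additive.ofMul ((Additive.toMul a) ^ p) = 0 := by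
      rw [h1]
      rfl
    exact h2
  have hne : (Additive.ofMul ((g₀ : G) : G ⧸ K)) ≠ 0 := by
    intro h
    apply hg₀
    exact (QuotientGroup.eq_one_iff _).mp h
  obtain ⟨f, hf⟩ := chainStep_dual p hpow hne
  refine ⟨fun x => f (Additive.ofMul ((x : G) : G ⧸ K)), ?_, ?_, hf⟩
  · intro x y
    show f (Additive.ofMul (((x * y : G)) : G ⧸ K)) = _
    rw [← map_add]
    rfl
  · intro x hx
    show f (Additive.ofMul ((x : G) : G ⧸ K)) = 0
    have h1 : ((x : G) : G ⧸ K) = 1 := (QuotientGroup.eq_one_iff _).mpr hx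
    rw [h1]
    exact map_zero f

/-- The elements of norm less than `c`. -/
private noncomputable def chainStepK (S : WSys Γ) (c : ℝ) (hc : 0 < c) : Subgroup S.H where
  carrier := {x | S.n p x < c}
  mul_mem' := fun {a b} ha hb => by
    show S.n p ((a : Γ) * (b : Γ)) < c
    exact lt_of_le_of_lt (S.n_mul_le p a.2 b.2) (max_lt ha hb)
  one_mem' := by
    show S.n p (1 : Γ) < c
    rw [S.n_one p]
    exact hc
  inv_mem' := fun {a} ha => by
    show S.n p (a : Γ)⁻¹ < c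
    rw [S.n_inv p a.2]
    exact ha

/-- One step of the chain. -/
theorem chain_step [Fact p.Prime] (S S' : WSys Γ) (hH : S'.H ≤ S.H)
    (hM : ∀ d, S'.M p d = S.M p d ⊓ sa p S'.H) {D : ℝ} (hD : S'.HasDef p D) (hpos : 0 < D) :
    ∃ (φ : Γ → ZMod p) (c : ℝ) (S'' : WSys Γ), 0 < c ∧ c < 1 ∧ S'.AddOn p φ ∧
      (∀ x ∈ S'.H, S.n p x ≤ c) ∧ (∀ x ∈ S'.H, φ x ≠ 0 → S.n p x = c) ∧
      (∃ x ∈ S'.H, φ x ≠ 0) ∧ (∀ x, x ∈ S''.H ↔ x ∈ S'.H ∧ φ x = 0) ∧
      (∀ d, S''.M p d = S.M p d ⊓ sa p S''.H) ∧ S''.HasDef p (D * tau p c) := by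
  classical
  obtain ⟨c₀, hc₀, hlt⟩ := S'.exists_ball_lt p hD hpos 1
  have hex : ∃ t, S'.v t ∉ S'.ball p c₀ := by
    by_contra hcon
    push Not at hcon
    have h1 : S'.H ≤ S'.ball p c₀ := by
      unfold H
      rw [Subgroup.closure_le]
      rintro _ ⟨t, rfl⟩
      exact hcon t
    rw [Subgroup.relIndex_eq_one.mpr h1] at hlt
    exact lt_irrefl _ hlt
  obtain ⟨t₁, ht₁⟩ := hex
  have : Nonempty S'.T := ⟨t₁⟩
  obtain ⟨t₀, ht₀⟩ := Finite.exists_max (fun t => S'.n p (S'.v t))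
  set c := S'.n p (S'.v t₀) with hc
  have hc1 : c₀ < c := by
    refine lt_of_lt_of_le ?_ (ht₀ t₁)
    by_contra hle
    apply ht₁
    exact ⟨S'.v_mem_H t₁, (S'.n_le_iff p hc₀ (S'.v_mem_H t₁)).1 (not_lt.1 hle)⟩
  have hcpos : 0 < c := hc₀.trans hc1
  have hclt : c < 1 := S'.n_lt_one p (S'.v_mem_H t₀)
  have hle' : ∀ x ∈ S'.H, S'.n p x ≤ c := by
    have h1 : S'.H ≤ S'.ball p c := by
      conv_lhs => unfold H
      rw [Subgroup.closure_le]
      rintro _ ⟨t, rfl⟩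
      exact ⟨S'.v_mem_H t, (S'.n_le_iff p hcpos (S'.v_mem_H t)).1 (ht₀ t)⟩
    intro x hx
    exact (S'.n_le_iff p hcpos hx).2 (h1 hx).2
  have hcomm : ∀ g h : S'.H, g * h * g⁻¹ * h⁻¹ ∈ chainStepK p S' c hcpos := by
    intro g h
    show S'.n p ((g : Γ) * (h : Γ) * (g : Γ)⁻¹ * (h : Γ)⁻¹) < c
    refine lt_of_le_of_lt (S'.n_comm_le p g.2 h.2) ?_
    have h1 := hle' g g.2
    have h2 := hle' h h.2
    have h3 := S'.n_nonneg p (g : Γ)
    have h4 := S'.n_nonneg p (h : Γ)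
    nlinarith
  have hpw : ∀ g : S'.H, g ^ p ∈ chainStepK p S' c hcpos := by
    intro g
    show S'.n p ((g : Γ) ^ p) < c
    refine lt_of_le_of_lt (S'.n_pow_le p g.2) ?_
    have h1 := hle' g g.2
    have h3 := S'.n_nonneg p (g : Γ)
    have h5 : S'.n p (g : Γ) ^ p ≤ c ^ p := pow_le_pow_left₀ h3 h1 p
    have h6 : c ^ p ≤ c ^ 2 :=
      pow_le_pow_of_le_one hcpos.le hclt.le (Fact.out : p.Prime).two_le
    nlinarith
  have hnot : (⟨S'.v t₀, S'.v_mem_H t₀⟩ : S'.H) ∉ chainStepK p S' c hcpos := by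
    intro h
    have h1 : S'.n p (S'.v t₀) < c := h
    exact lt_irrefl _ h1
  obtain ⟨f, hf1, hf2, hf3⟩ := chainStep_functional p (chainStepK p S' c hcpos) hcomm hpw hnot
  set φ : Γ → ZMod p := fun x => if h : x ∈ S'.H then f ⟨x, h⟩ else 0 with hφ
  have hφe : ∀ x (h : x ∈ S'.H), φ x = f ⟨x, h⟩ := by
    intro x h
    simp only [hφ, dif_pos h]
  have hadd : S'.AddOn p φ := by
    intro x hx y hy
    rw [hφe x hx, hφe y hy, hφe (x * y) (S'.H.mul_mem hx hy), ← hf1]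
    rfl
  have hout : ∀ x ∈ S'.H, φ x ≠ 0 → S'.n p x = c := by
    intro x hx hne
    refine le_antisymm (hle' x hx) ?_
    by_contra hlt
    apply hne
    rw [hφe x hx]
    exact hf2 _ (not_le.1 hlt)
  have hφ0 : φ (S'.v t₀) ≠ 0 := by
    rw [hφe _ (S'.v_mem_H t₀)]
    exact hf3
  obtain ⟨S'', h1, h2, h3⟩ := S'.exists_step p hD φ hadd hcpos
    (fun h hh hne => (hout h hh hne).ge) (S'.v_mem_H t₀) hφ0 le_rfl
  refine ⟨φ, c, S'', hcpos, hclt, hadd, ?_, ?_, ⟨_, S'.v_mem_H t₀, hφ0⟩, h1, ?_, h3⟩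
  · intro x hx
    rw [← n_sub_eq p S S' hM hx]
    exact hle' x hx
  · intro x hx hne
    rw [← n_sub_eq p S S' hM hx]
    exact hout x hx hne
  · intro d
    rw [h2 d, hM d, inf_assoc]
    have h4 : S''.H ≤ S'.H := fun x hx => ((h1 x).1 hx).1
    rw [inf_eq_right.mpr (sa_mono p h4)]

end WSys

end Pool.Agent.TLA
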