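import Pool.Agent.TLA.Pair

/-! The closures of the stabilizers are constant (block D3). -/

set_option autoImplicit false

open MeasureTheory Filter
open scoped Pointwise

namespace Pool.Agent.TLA

variable {G Z : Type} [Group G] [Countable G] [MeasurableSpace Z] (ζ : Measure Z)
  [IsProbabilityMeasure ζ]

private theorem clos_mem_iff (N : ℕ → Subgroup G) (hN : ∀ i, (N i).Normal) (i : ℕ) (u : Set G)
    (c : G) : c ∈ cl N i u ↔ ∃ s : G, s • u = u ∧ s⁻¹ * c ∈ N i := by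
  haveI := hN i
  unfold cl
  rw [Subgroup.mem_sup_of_normal_right]
  constructor
  · rintro ⟨y, hy, z, hz, rfl⟩
    exact ⟨y, hy, by rwa [inv_mul_cancel_left]⟩
  · rintro ⟨s, hs, hc⟩
    exact ⟨s, hs, _, hc, mul_inv_cancel_left s c⟩

omit [Countable G] in
private theorem clos_conj (N : ℕ → Subgroup G) (hN : ∀ i, (N i).Normal) (i : ℕ) (g : G)
    (u : Set G) (c : G) (h : ∃ s : G, s • u = u ∧ s⁻¹ * c ∈ N i) :
    ∃ s : G, s • (g • u) = g • u ∧ s⁻¹ * (g * c * g⁻¹) ∈ N i := by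
  obtain ⟨s, hs, hc⟩ := h
  refine ⟨g * s * g⁻¹, ?_, ?_⟩
  · rw [smul_smul, inv_mul_cancel_right, mul_smul, hs]
  · have e : (g * s * g⁻¹)⁻¹ * (g * c * g⁻¹) = g * (s⁻¹ * c) * g⁻¹ := by group
    rw [e]
    exact (hN i).conj_mem _ hc g

theorem mem_cl_smul (N : ℕ → Subgroup G) (hN : ∀ i, (N i).Normal) (i : ℕ) (g : G) (u : Set G)
    (c : G) : c ∈ cl N i u ↔ g * c * g⁻¹ ∈ cl N i (g • u) := by
  rw [clos_mem_iff N hN, clos_mem_iff N hN]
  constructor
  · exact clos_conj N hN i g u c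
  · intro h
    have h1 := clos_conj N hN i g⁻¹ _ _ h
    rw [inv_smul_smul] at h1
    have e : g⁻¹ * (g * c * g⁻¹) * g⁻¹⁻¹ = c := by group
    rwa [e] at h1

private theorem clos_eq_smul (N : ℕ → Subgroup G) (hN : ∀ i, (N i).Normal) (i : ℕ) (g : G)
    (u v : Set G) : cl N i u = cl N i v ↔ cl N i (g • u) = cl N i (g • v) := by
  have key : ∀ (g : G) (u v : Set G), cl N i u = cl N i v → cl N i (g • u) = cl N i (g • v) := by
    intro g u v h
    ext c
    have e : c = g * (g⁻¹ * c * g) * g⁻¹ := by group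
    rw [e, ← mem_cl_smul N hN, ← mem_cl_smul N hN, h]
  refine ⟨key g u v, fun h => ?_⟩
  have h1 := key g⁻¹ _ _ h
  rwa [inv_smul_smul, inv_smul_smul] at h1

private theorem clos_meas_mem (N : ℕ → Subgroup G) (hN : ∀ i, (N i).Normal) (i : ℕ) {Ω : Type}
    [MeasurableSpace Ω] {a : Ω → Set G} (ha : Measurable a) (c : G) :
    MeasurableSet {ω | c ∈ cl N i (a ω)} := by
  have e : {ω | c ∈ cl N i (a ω)} = {ω | ∃ s : G, s • a ω = a ω ∧ s⁻¹ * c ∈ N i} := by
    ext ω
    exact clos_mem_iff N hN i (a ω) c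
  rw [e, Set.setOf_exists]
  refine MeasurableSet.iUnion fun s => ?_
  rw [Set.setOf_and]
  refine MeasurableSet.inter ?_ (MeasurableSet.const _)
  have h1 := measurableSet_eq_smul ha ha s 1
  simpa only [one_smul] using h1

theorem measurableSet_cl_eq (N : ℕ → Subgroup G) (hN : ∀ i, (N i).Normal) (i : ℕ) {Ω : Type}
    [MeasurableSpace Ω] {a b : Ω → Set G} (ha : Measurable a) (hb : Measurable b) :
    MeasurableSet {ω | cl N i (a ω) = cl N i (b ω)} := by
  have e : {ω | cl N i (a ω) = cl N i (b ω)} =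
      {ω | ∀ c : G, (c ∈ cl N i (a ω) ↔ c ∈ cl N i (b ω))} := by
    ext ω
    exact SetLike.ext_iff
  rw [e, Set.setOf_forall]
  refine MeasurableSet.iInter fun c => ?_
  exact (clos_meas_mem N hN i ha c).iff (clos_meas_mem N hN i hb c)

private theorem clos_meas_const (N : ℕ → Subgroup G) (hN : ∀ i, (N i).Normal) (i : ℕ) {Ω : Type}
    [MeasurableSpace Ω] {a : Ω → Set G} (ha : Measurable a) (K : Subgroup G) :
    MeasurableSet {ω | cl N i (a ω) = K} := by
  have e : {ω | cl N i (a ω) = K} = {ω | ∀ c : G, (c ∈ cl N i (a ω) ↔ c ∈ K)} := by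
    ext ω
    exact SetLike.ext_iff
  rw [e, Set.setOf_forall]
  refine MeasurableSet.iInter fun c => ?_
  exact (clos_meas_mem N hN i ha c).iff (MeasurableSet.const _)

omit [Countable G] in
private theorem clos_countable (K : Subgroup G) [K.Normal] (h : K.index ≠ 0)
    (S : Set (Subgroup G)) (hS : ∀ H ∈ S, K ≤ H) : S.Countable := by
  haveI : K.FiniteIndex := ⟨h⟩
  haveI : Finite (G ⧸ K) := inferInstance
  haveI : Finite (Subgroup (G ⧸ K)) := Finite.of_injective
    (fun H : Subgroup (G ⧸ K) => (H : Set (G ⧸ K))) SetLike.coe_injective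
  have h0 : Finite {H : Subgroup G // K ≤ H} :=
    Finite.of_equiv _ (QuotientGroup.comapMk'OrderIso K).toEquiv
  have h1 : ({H : Subgroup G | K ≤ H}).Finite := Set.finite_coe_iff.1 h0
  exact (h1.subset hS).countable

private theorem clos_measSMul {G Z : Type} [Group G] [MeasurableSpace Z] :
    MeasurableConstSMul G (Om G Z) :=
  ⟨fun g => ((measurable_const_smul g).comp measurable_fst).prodMk
    (((measurable_const_smul g).comp (measurable_fst.comp measurable_snd)).prodMk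
      ((measurable_const_smul g).comp (measurable_snd.comp measurable_snd)))⟩

private theorem clos_base [Infinite G] (N : ℕ → Subgroup G) (hN : ∀ i, (N i).Normal) (i : ℕ)
    (hi : (N i).index ≠ 0) (f : Bern G Z → Set G) (hf : Measurable f) :
    ∃ r : ℝ, 0 < r ∧ ∀ s ∈ Set.Icc (0 : ℝ) 1, ∀ t ∈ Set.Icc (0 : ℝ) 1, |s - t| ≤ r →
      ∀ R : Om G Z → Option (Set (Set G × Set G)), Sel G (PP G ζ) (xi f s t) R →
        ∀ᵐ ω ∂(PP G ζ), ∃ d, R ω = some d ∧ ∀ q ∈ d, cl N i q.1 = cl N i q.2 := by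
  haveI := clos_measSMul (G := G) (Z := Z)
  haveI := ergodic_PP (G := G) ζ
  haveI := hN i
  obtain ⟨r, hr, hm⟩ := modulus ζ (fun x : Bern G Z => cl N i (f x))
    (fun K => clos_meas_const N hN i hf K)
    (clos_countable (N i) hi _ (by rintro H ⟨x, rfl⟩; exact le_sup_right)) (1 / 8) (by norm_num)
  refine ⟨r, hr, fun s hs t ht hst R hR => ?_⟩
  have hpt : ∀ (ω : Om G Z), (∀ q ∈ xi f s t ω, cl N i q.1 = cl N i q.2) ↔
      cl N i (f (path s ω)) = cl N i (f (path t ω)) := by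
    intro ω
    constructor
    · intro h
      exact h (f (path s ω), f (path t ω)) ⟨1, by rw [one_smul, one_smul]⟩
    · rintro h q ⟨k, rfl⟩
      exact (clos_eq_smul N hN i k _ _).1 h
  have hmf : ∀ (s : ℝ) (g : G), Measurable fun ω : Om G Z => f (path s (g • ω)) := fun s g =>
    hf.comp ((measurable_path s).comp (measurable_const_smul g))
  have h := sel_zero_one (PP G ζ) (xi f s t) (xi f s t) (xi f s t) R R R hR hR hR
    (fun d _ _ => ∀ q ∈ d, cl N i q.1 = cl N i q.2) (fun g₁ g₂ g₃ => ?_) ?_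
  · filter_upwards [h] with ω hω
    obtain ⟨d₁, d₂, d₃, e1, _, _, h4⟩ := hω
    exact ⟨d₁, e1, h4⟩
  · have e : {ω : Om G Z | ∀ q ∈ xi f s t (g₁ • ω), cl N i q.1 = cl N i q.2} =
        {ω | cl N i (f (path s (g₁ • ω))) = cl N i (f (path t (g₁ • ω)))} := by
      ext ω
      exact hpt (g₁ • ω)
    rw [e]
    exact measurableSet_cl_eq N hN i (hmf s g₁) (hmf t g₁)
  · have e : {ω : Om G Z | ¬ ∀ q ∈ xi f s t ω, cl N i q.1 = cl N i q.2} =
        {ω | cl N i (f (path s ω)) ≠ cl N i (f (path t ω))} := by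
      ext ω
      exact not_congr (hpt ω)
    rw [e]
    exact lt_of_le_of_lt (hm s hs t ht hst) (by norm_num)

/-- The closures agree on the selected pairs. -/
theorem clos_pair [Infinite G] {p : ℕ} (N : ℕ → Subgroup G) (hN : Cof p N) (hp : 0 < p)
    (f : Bern G Z → Set G) (hf : Measurable f) (r₀ : ℝ) (hr₀ : 0 < r₀)
    (hsel : ∀ s ∈ Set.Icc (0 : ℝ) 1, ∀ t ∈ Set.Icc (0 : ℝ) 1, |s - t| ≤ r₀ →
      ∃ R : Om G Z → Option (Set (Set G × Set G)), Sel G (PP G ζ) (xi f s t) R)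
    (s : ℝ) (hs : s ∈ Set.Icc (0 : ℝ) 1) (t : ℝ) (ht : t ∈ Set.Icc (0 : ℝ) 1)
    (hst : |s - t| ≤ r₀) (R : Om G Z → Option (Set (Set G × Set G)))
    (hR : Sel G (PP G ζ) (xi f s t) R) :
    ∀ᵐ ω ∂(PP G ζ), ∃ d, R ω = some d ∧ ∀ i, ∀ q ∈ d, cl N i q.1 = cl N i q.2 := by
  have hi0 : ∀ i, (N i).index ≠ 0 := by
    intro i
    obtain ⟨k, hk⟩ := hN.index i
    rw [hk]
    exact (pow_pos hp k).ne'
  have main : ∀ i, ∀ᵐ ω ∂(PP G ζ), ∃ d, R ω = some d ∧ ∀ q ∈ d, cl N i q.1 = cl N i q.2 := by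
    intro i
    obtain ⟨r, hr, hb⟩ := clos_base ζ N hN.normal i (hi0 i) f hf
    have step : ∀ m : ℕ, ∀ s ∈ Set.Icc (0 : ℝ) 1, ∀ t ∈ Set.Icc (0 : ℝ) 1,
        |s - t| ≤ 2 ^ m * r → |s - t| ≤ r₀ →
        ∀ R : Om G Z → Option (Set (Set G × Set G)), Sel G (PP G ζ) (xi f s t) R →
          ∀ᵐ ω ∂(PP G ζ), ∃ d, R ω = some d ∧ ∀ q ∈ d, cl N i q.1 = cl N i q.2 := by
      intro m
      induction m with
      | zero =>
        intro s hs t ht h1 _ R hR
        exact hb s hs t ht (by simpa using h1) R hR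
      | succ m ih =>
        intro s hs t ht h1 h2 R hR
        have hu : (s + t) / 2 ∈ Set.Icc (0 : ℝ) 1 :=
          ⟨by linarith [hs.1, ht.1], by linarith [hs.2, ht.2]⟩
        have e1 : |s - (s + t) / 2| = |s - t| / 2 := by
          have : s - (s + t) / 2 = (s - t) / 2 := by ring
          rw [this, abs_div, abs_of_pos (by norm_num : (0 : ℝ) < 2)]
        have e2 : |(s + t) / 2 - t| = |s - t| / 2 := by
          have : (s + t) / 2 - t = (s - t) / 2 := by ring
          rw [this, abs_div, abs_of_pos (by norm_num : (0 : ℝ) < 2)]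
        have h0 := abs_nonneg (s - t)
        have h3 : |s - t| / 2 ≤ 2 ^ m * r := by
          rw [pow_succ] at h1
          linarith
        have h4 : |s - t| / 2 ≤ r₀ := by linarith
        obtain ⟨R₁, hR₁⟩ := hsel s hs _ hu (by rw [e1]; exact h4)
        obtain ⟨R₂, hR₂⟩ := hsel _ hu t ht (by rw [e2]; exact h4)
        have a1 := ih s hs _ hu (by rw [e1]; exact h3) (by rw [e1]; exact h4) R₁ hR₁
        have a2 := ih _ hu t ht (by rw [e2]; exact h3) (by rw [e2]; exact h4) R₂ hR₂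
        have a3 := sel_comp ζ f hf s ((s + t) / 2) t R₁ R₂ R hR₁ hR₂ hR
        filter_upwards [a1, a2, a3] with ω b1 b2 b3
        obtain ⟨d₁, f1, g1⟩ := b1
        obtain ⟨d₂, f2, g2⟩ := b2
        obtain ⟨c₁, c₂, d, k1, k2, k3, k4⟩ := b3
        rw [f1, Option.some.injEq] at k1
        rw [f2, Option.some.injEq] at k2
        subst k1
        subst k2
        refine ⟨d, k3, fun q hq => ?_⟩
        obtain ⟨b, m1, m2⟩ := k4 q hq
        have e1 : cl N i q.1 = cl N i b := g1 (q.1, b) m1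
        have e2 : cl N i b = cl N i q.2 := g2 (b, q.2) m2
        exact Eq.trans e1 e2
    obtain ⟨m, hm⟩ := pow_unbounded_of_one_lt (1 / r) (by norm_num : (1 : ℝ) < 2)
    have h1 : (1 : ℝ) ≤ 2 ^ m * r := by
      rw [div_lt_iff₀ hr] at hm
      exact hm.le
    have h2 : |s - t| ≤ 1 := by
      rw [abs_le]
      constructor
      · linarith [hs.1, ht.2]
      · linarith [hs.2, ht.1]
    exact step m s hs t ht (h2.trans h1) hst R hR
  have h1 := ae_all_iff.2 main
  filter_upwards [h1, hR.ae] with ω hω h2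
  obtain ⟨d, hd⟩ := Option.ne_none_iff_exists'.1 h2
  refine ⟨d, hd, fun i q hq => ?_⟩
  obtain ⟨d', hd', h3⟩ := hω i
  rw [hd, Option.some.injEq] at hd'
  subst hd'
  exact h3 q hq

/-- The closures of the stabilizers of `f x`, up to translation, are constant. -/
theorem clos_const [Infinite G] {p n : ℕ} (x : Fin n → G) {C : ℝ} (hC : 0 ≤ C)
    (hT : HasGap x C) (N : ℕ → Subgroup G) (hN : Cof p N) (hp : 0 < p)
    (f : Bern G Z → Set G) (hf : Measurable f) (ho : OrbPres f) :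
    ∃ Cn : ℕ → Subgroup G, ∀ᵐ x ∂(Bern.mu G ζ), ∃ g : G, ∀ i, cl N i (g • f x) = Cn i := by
  obtain ⟨r₀, hr₀, hsel⟩ := pair_sel ζ x hC hT f hf ho
  obtain ⟨M, hM⟩ := exists_nat_gt (1 / r₀)
  have hM0 : (0 : ℝ) < M := lt_trans (by positivity) hM
  have hM1 : 1 / (M : ℝ) ≤ r₀ := by
    rw [div_lt_iff₀ hr₀] at hM
    rw [div_le_iff₀ hM0]
    linarith
  have chain : ∀ j : ℕ, j ≤ M → ∀ᵐ ω ∂(PP G ζ), ∃ g : G, ∀ i,
      cl N i (g • f (path 0 ω)) = cl N i (f (path ((j : ℝ) / M) ω)) := by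
    intro j
    induction j with
    | zero =>
      intro _
      refine Eventually.of_forall fun ω => ⟨1, fun i => ?_⟩
      rw [one_smul, Nat.cast_zero, zero_div]
    | succ j ih =>
      intro hj
      have hjm : ((j + 1 : ℕ) : ℝ) ≤ M := by exact_mod_cast hj
      have hj0 : (0 : ℝ) ≤ (j : ℝ) := Nat.cast_nonneg j
      have hj1 : (j : ℝ) ≤ M := by
        rw [Nat.cast_add, Nat.cast_one] at hjm
        linarith
      have hs : (j : ℝ) / M ∈ Set.Icc (0 : ℝ) 1 := ⟨by positivity, (div_le_one hM0).2 hj1⟩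
      have ht : ((j + 1 : ℕ) : ℝ) / M ∈ Set.Icc (0 : ℝ) 1 :=
        ⟨by positivity, (div_le_one hM0).2 hjm⟩
      have hst : |(j : ℝ) / M - ((j + 1 : ℕ) : ℝ) / M| ≤ r₀ := by
        have e : (j : ℝ) / M - ((j + 1 : ℕ) : ℝ) / M = -(1 / M) := by
          rw [Nat.cast_add, Nat.cast_one]
          ring
        rw [e, abs_neg, abs_of_pos (by positivity)]
        exact hM1
      obtain ⟨R, hR⟩ := hsel _ hs _ ht hst
      have h1 := clos_pair ζ N hN hp f hf r₀ hr₀ hsel _ hs _ ht hst R hR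
      filter_upwards [ih (by omega), h1] with ω hω h2
      obtain ⟨g, hg⟩ := hω
      obtain ⟨d, hd, h3⟩ := h2
      obtain ⟨g', rfl⟩ := hR.ex ω d hd
      obtain ⟨k, hk⟩ := ho g' (path ((j : ℝ) / M) ω)
      obtain ⟨l, hl⟩ := ho g' (path (((j + 1 : ℕ) : ℝ) / M) ω)
      refine ⟨l⁻¹ * k * g, fun i => ?_⟩
      have h4 : cl N i (k • f (path ((j : ℝ) / M) ω)) =
          cl N i (l • f (path (((j + 1 : ℕ) : ℝ) / M) ω)) := by
        have h5 := h3 i (f (path ((j : ℝ) / M) (g' • ω)), f (path (((j + 1 : ℕ) : ℝ) / M) (g' • ω)))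
          ⟨1, by rw [one_smul, one_smul]⟩
        rw [path_smul, path_smul, hk, hl] at h5
        exact h5
      have h6 := (clos_eq_smul N hN.normal i l⁻¹ _ _).1 h4
      rw [inv_smul_smul, smul_smul] at h6
      have h7 := (clos_eq_smul N hN.normal i (l⁻¹ * k) _ _).1 (hg i)
      rw [smul_smul] at h7
      exact h7.trans h6
  have h1 := chain M le_rfl
  rw [div_self hM0.ne'] at h1
  have h2 : ∀ᵐ ω ∂(PP G ζ), ∃ g : G, ∀ i, cl N i (g • f ω.1) = cl N i (f ω.2.1) := by
    filter_upwards [h1, path_zero ζ] with ω hω h0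
    rw [h0, path_one] at hω
    exact hω
  have h3 := Measure.ae_ae_of_ae_prod h2
  obtain ⟨z, hz⟩ := h3.exists
  have h4 := Measure.ae_ae_of_ae_prod hz
  refine ⟨fun i => cl N i (f z), ?_⟩
  filter_upwards [h4] with y hy
  obtain ⟨u, hu⟩ := hy.exists
  obtain ⟨g, hg⟩ := hu
  refine ⟨g⁻¹, fun i => ?_⟩
  have h5 := (clos_eq_smul N hN.normal i g⁻¹ _ _).1 (hg i)
  rw [inv_smul_smul] at h5
  exact h5.symm

/-- Measurable choice of the translation. -/
theorem exists_translate {p : ℕ} (N : ℕ → Subgroup G) (hN : Cof p N)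
    (f : Bern G Z → Set G) (hf : Measurable f) (Cn : ℕ → Subgroup G)
    (h : ∀ᵐ x ∂(Bern.mu G ζ), ∃ g : G, ∀ i, cl N i (g • f x) = Cn i) :
    ∃ k : Bern G Z → G, (∀ g, MeasurableSet (k ⁻¹' {g})) ∧
      ∀ᵐ x ∂(Bern.mu G ζ), ∀ i, cl N i (k x • f x) = Cn i := by
  classical
  letI : Encodable G := Encodable.ofCountable G
  have hgm : ∀ g : G, Measurable fun x : Bern G Z => g • f x := by
    intro g
    refine measurable_set_iff.2 fun c => ?_
    have e : (fun x : Bern G Z => c ∈ g • f x) = fun x => g⁻¹ • c ∈ f x := by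
      funext x
      exact propext Set.mem_smul_set_iff_inv_smul_mem
    rw [e]
    exact (measurable_set_iff.1 hf) _
  have hA : ∀ g : G, MeasurableSet {x : Bern G Z | ∀ i, cl N i (g • f x) = Cn i} := by
    intro g
    rw [Set.setOf_forall]
    exact MeasurableSet.iInter fun i => clos_meas_const N hN.normal i (hgm g) (Cn i)
  have hex : ∀ x : Bern G Z, ∃ m : ℕ, (∃ g : G, Encodable.encode g = m ∧
      ∀ i, cl N i (g • f x) = Cn i) ∨ ∀ g : G, ¬ ∀ i, cl N i (g • f x) = Cn i := by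
    intro x
    by_cases hx : ∃ g : G, ∀ i, cl N i (g • f x) = Cn i
    · obtain ⟨g, hg⟩ := hx
      exact ⟨Encodable.encode g, Or.inl ⟨g, rfl, hg⟩⟩
    · exact ⟨0, Or.inr fun g hg => hx ⟨g, hg⟩⟩
  have hm : ∀ m : ℕ, MeasurableSet {x : Bern G Z | (∃ g : G, Encodable.encode g = m ∧
      ∀ i, cl N i (g • f x) = Cn i) ∨ ∀ g : G, ¬ ∀ i, cl N i (g • f x) = Cn i} := by
    intro m
    rw [Set.setOf_or, Set.setOf_exists, Set.setOf_forall]
    refine MeasurableSet.union (MeasurableSet.iUnion fun g => ?_) (MeasurableSet.iInter fun g => ?_)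
    · rw [Set.setOf_and]
      exact (MeasurableSet.const _).inter (hA g)
    · exact (hA g).compl
  have hfind := measurable_find hex hm
  refine ⟨fun x => ((Encodable.decode (Nat.find (hex x)) : Option G).getD 1), fun g => ?_, ?_⟩
  · have h1 : MeasurableSet {m : ℕ | (Encodable.decode m : Option G).getD 1 = g} := trivial
    exact hfind h1
  · filter_upwards [h] with x hx i
    rcases Nat.find_spec (hex x) with ⟨g, hg, h1⟩ | h1
    · rw [← hg, Encodable.encodek]
      exact h1 i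
    · obtain ⟨g, hg⟩ := hx
      exact absurd hg (h1 g)

end Pool.Agent.TLA
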