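import Mathlib
import Pool.Agent.TLA.CntB

/-!
# TLA Cnt C: the counting theorem
-/

set_option autoImplicit false

open MeasureTheory Measure Set
open scoped ENNReal symmDiff

namespace Pool.Agent.TLA.Cnt

open TLD (approxFun mapInj)

variable {G Z : Type*} [Group G] [MeasurableSpace Z]

/-- a measurable function with values in a countable set is in a finite set outside of a small
set -/
theorem exists_finset_compl_le {X : Type*} [MeasurableSpace X] [Countable G] (μ : Measure X)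
    [IsFiniteMeasure μ] (k : X → G) (hk : ∀ g, MeasurableSet {x | k x = g}) {ε : ℝ≥0∞}
    (hε : 0 < ε) : ∃ K₁ : Finset G, K₁.Nonempty ∧ μ {x | k x ∉ K₁} ≤ ε := by
  classical
  have hm : ∀ s : Finset G, MeasurableSet {x | k x ∉ s} := by
    intro s
    have : {x | k x ∉ s} = (⋃ g ∈ s, {x | k x = g})ᶜ := by
      ext x
      simp
    rw [this]
    exact (Finset.measurableSet_biUnion s fun g _ => hk g).compl
  have h1 := tendsto_measure_iInter_atTop (μ := μ) (s := fun s : Finset G => {x | k x ∉ s})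
    (fun s => (hm s).nullMeasurableSet) (fun s t hst x hx hxs => hx (hst hxs))
    ⟨∅, measure_ne_top _ _⟩
  have h2 : ⋂ s : Finset G, {x | k x ∉ s} = ∅ := by
    ext x
    simp only [mem_iInter, mem_ofPred_eq, mem_empty_iff_false, iff_false, not_forall, not_not]
    exact ⟨{k x}, Finset.mem_singleton_self _⟩
  rw [h2, measure_empty] at h1
  have h3 := (h1.eventually (gt_mem_nhds hε)).and (Filter.eventually_ge_atTop ({1} : Finset G))
  obtain ⟨s, hs, hs1⟩ := h3.exists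
  exact ⟨s, ⟨1, hs1 (Finset.mem_singleton_self _)⟩, hs.le⟩

/-- The counting theorem. -/
theorem count [Countable G] (ζ : Measure Z) [IsProbabilityMeasure ζ]
    (hRF : ∀ F : Finset G, ∃ N : Subgroup G, N.Normal ∧ N.index ≠ 0 ∧
      ∀ a ∈ F, ∀ b ∈ F, a⁻¹ * b ∈ N → a = b)
    (huni : ∀ L₀ : ℕ, ∃ L : ℕ, L₀ ≤ L ∧ ∃ τ₀ : Z → Fin L, Measurable τ₀ ∧
      ∀ i, ζ (τ₀ ⁻¹' {i}) = (L : ENNReal)⁻¹)
    {M : ℕ} (b : (G → Z) → Fin M) (hb : Measurable b)
    (k : (G → Z) → G) (hk : ∀ g, MeasurableSet {x | k x = g})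
    (Ψ : (G → Fin M) → G → Z) (hΨ : ∀ g, Measurable fun β => Ψ β g)
    (h : ∀ᵐ x ∂(infinitePi (fun _ : G => ζ)),
      x 1 = Ψ (fun g => b (fun h => x (g * h))) (k x)) : False := by
  classical
  set μ : Measure (G → Z) := infinitePi (fun _ : G => ζ) with hμ
  have hε : (0 : ℝ≥0∞) < 32⁻¹ := by simp
  obtain ⟨K₁, hK1, hKμ⟩ := exists_finset_compl_le μ k hk hε
  set K := K₁.card with hK
  have hK0 : 0 < K := Finset.card_pos.2 hK1
  obtain ⟨z0⟩ : Nonempty Z := nonempty_of_isProbabilityMeasure ζ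
  have hM : 0 < M := (b fun _ => z0).pos
  set R := 4 * M * K with hR
  have hR0 : 0 < R := by positivity
  obtain ⟨L, hL, τ₀, hτ, hτu⟩ := huni (R ^ 2)
  let β : (G → Z) → (G → Fin M) := fun x g => b (tr g x)
  have hβ : Measurable β := measurable_pi_lambda _ fun g => hb.comp (measurable_tr g)
  have : IsProbabilityMeasure (μ.map β) := isProbabilityMeasure_map hβ.aemeasurable
  have h1 : ∀ κ : G, ∃ (F : Finset G) (f' : (G → Fin M) → Fin L), Measurable f' ∧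
      (∀ u v : G → Fin M, (∀ i ∈ F, u i = v i) → f' u = f' v) ∧
      (μ.map β) {u | f' u ≠ τ₀ (Ψ u κ)} ≤ 32⁻¹ / K := fun κ =>
    approxFun (μ.map β) (hτ.comp (hΨ κ))
      (ENNReal.div_pos hε.ne' (ENNReal.natCast_ne_top K))
  choose Fκ f' hf'm hf'F hf'μ using h1
  set F : Finset G := K₁.biUnion Fκ with hF
  have h2 : ∃ (F' : Finset G) (b' : (G → Z) → Fin M), Measurable b' ∧
      (∀ u v : G → Z, (∀ i ∈ F', u i = v i) → b' u = b' v) ∧
      μ {x | b' x ≠ b x} ≤ 32⁻¹ / (F.card + 1 : ℕ) :=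
    approxFun μ hb (ENNReal.div_pos hε.ne' (ENNReal.natCast_ne_top _))
  obtain ⟨F', b', hb'm, hb'F, hb'μ⟩ := h2
  -- translates of the approximation of `b`
  have h3 : ∀ g : G, μ {x | b' (tr g x) ≠ b (tr g x)} ≤ 32⁻¹ / (F.card + 1 : ℕ) := by
    intro g
    have h4 : MeasurableSet {x | b' x ≠ b x} := (measurableSet_eq_fun hb'm hb).compl
    have h5 : {x | b' (tr g x) ≠ b (tr g x)} = tr g ⁻¹' {x | b' x ≠ b x} := rfl
    rw [h5, ← map_apply (measurable_tr g) h4, map_tr]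
    exact hb'μ
  set E : Set (G → Z) := {x | ∃ κ ∈ K₁, τ₀ (x 1) = f' κ fun g => b' (tr g x)} with hE
  have hbm : Measurable (fun (x : G → Z) (g : G) => b' (tr g x)) :=
    measurable_pi_lambda _ fun g => hb'm.comp (measurable_tr g)
  have hEm : MeasurableSet E := by
    have : E = ⋃ κ ∈ K₁, {x | τ₀ (x 1) = f' κ fun g => b' (tr g x)} := by
      ext x
      simp [hE]
    rw [this]
    refine Finset.measurableSet_biUnion _ fun κ _ => ?_
    exact measurableSet_eq_fun (hτ.comp (measurable_pi_apply 1))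
      ((hf'm κ).comp hbm)
  set Wn : Finset G := insert 1 (Finset.image₂ (· * ·) F F') with hWn
  have hW1 : ∀ x x' : G → Z, (∀ w ∈ Wn, x w = x' w) → x ∈ E → x' ∈ E := by
    rintro x x' hxx ⟨κ, hκ, h4⟩
    refine ⟨κ, hκ, ?_⟩
    rw [← hxx 1 (Finset.mem_insert_self _ _), h4]
    refine hf'F κ _ _ fun g hg => hb'F _ _ fun h' hh' => ?_
    refine hxx _ (Finset.mem_insert_of_mem (Finset.mem_image₂_of_mem ?_ hh'))
    exact Finset.mem_biUnion.2 ⟨κ, hκ, hg⟩
  have hW : ∀ x x' : G → Z, (∀ w ∈ Wn, x w = x' w) → (x ∈ E ↔ x' ∈ E) := fun x x' hxx =>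
    ⟨hW1 x x' hxx, hW1 x' x fun w hw => (hxx w hw).symm⟩
  have hEc : μ Eᶜ ≤ 8⁻¹ := by
    have h4 : Eᶜ ⊆ {x | k x ∉ K₁} ∪ ((⋃ κ ∈ K₁, {x | f' κ (β x) ≠ τ₀ (Ψ (β x) κ)}) ∪
        ((⋃ g ∈ F, {x | b' (tr g x) ≠ b (tr g x)}) ∪ {x | ¬ x 1 = Ψ (β x) (k x)})) := by
      intro x hx
      by_contra hcon
      simp only [mem_union, mem_iUnion, mem_ofPred_eq, not_or, not_not, not_exists] at hcon
      obtain ⟨hc1, hc2, hc3, hc4⟩ := hcon
      apply hx
      refine ⟨k x, hc1, ?_⟩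
      rw [hc4, ← hc2 (k x) hc1]
      refine hf'F (k x) _ _ fun g hg => ?_
      exact (hc3 g (Finset.mem_biUnion.2 ⟨k x, hc1, hg⟩)).symm
    have h5 : μ (⋃ κ ∈ K₁, {x | f' κ (β x) ≠ τ₀ (Ψ (β x) κ)}) ≤ 32⁻¹ := by
      calc μ (⋃ κ ∈ K₁, {x | f' κ (β x) ≠ τ₀ (Ψ (β x) κ)})
          ≤ ∑ κ ∈ K₁, μ {x | f' κ (β x) ≠ τ₀ (Ψ (β x) κ)} := measure_biUnion_finset_le _ _
        _ ≤ ∑ _κ ∈ K₁, 32⁻¹ / (K : ℝ≥0∞) := by
          refine Finset.sum_le_sum fun κ _ => ?_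
          refine le_trans (le_of_eq ?_) (hf'μ κ)
          rw [map_apply hβ]
          · rfl
          · exact (measurableSet_eq_fun (hf'm κ)
              (hτ.comp (hΨ κ))).compl
        _ = 32⁻¹ := by
          rw [Finset.sum_const, nsmul_eq_mul, ← hK]
          exact ENNReal.mul_div_cancel (by exact_mod_cast hK0.ne') (ENNReal.natCast_ne_top _)
    have h6 : μ (⋃ g ∈ F, {x | b' (tr g x) ≠ b (tr g x)}) ≤ 32⁻¹ := by
      calc μ (⋃ g ∈ F, {x | b' (tr g x) ≠ b (tr g x)})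
          ≤ ∑ g ∈ F, μ {x | b' (tr g x) ≠ b (tr g x)} := measure_biUnion_finset_le _ _
        _ ≤ ∑ _g ∈ F, 32⁻¹ / ((F.card + 1 : ℕ) : ℝ≥0∞) := Finset.sum_le_sum fun g _ => h3 g
        _ = F.card * (32⁻¹ / ((F.card + 1 : ℕ) : ℝ≥0∞)) := by
          rw [Finset.sum_const, nsmul_eq_mul]
        _ ≤ ((F.card + 1 : ℕ) : ℝ≥0∞) * (32⁻¹ / ((F.card + 1 : ℕ) : ℝ≥0∞)) := by
          gcongr
          omega
        _ = 32⁻¹ := ENNReal.mul_div_cancel (by simp) (ENNReal.natCast_ne_top _)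
    have h7 : μ {x | ¬ x 1 = Ψ (β x) (k x)} = 0 := ae_iff.1 h
    calc μ Eᶜ ≤ _ := measure_mono h4
      _ ≤ 32⁻¹ + (32⁻¹ + (32⁻¹ + 0)) := by
        refine (measure_union_le _ _).trans (add_le_add hKμ ?_)
        refine (measure_union_le _ _).trans (add_le_add h5 ?_)
        exact (measure_union_le _ _).trans (add_le_add h6 h7.le)
      _ ≤ 8⁻¹ := by
        have h8 : (32⁻¹ + (32⁻¹ + (32⁻¹ + 0)) : ℝ≥0∞) = ENNReal.ofReal (3 / 32) := by
          rw [show (3 / 32 : ℝ) = 32⁻¹ + (32⁻¹ + 32⁻¹) by norm_num,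
            ENNReal.ofReal_add (by norm_num) (by norm_num),
            ENNReal.ofReal_add (by norm_num) (by norm_num),
            ENNReal.ofReal_inv_of_pos (by norm_num)]
          norm_num
        have h9 : (8⁻¹ : ℝ≥0∞) = ENNReal.ofReal (8⁻¹) := by
          rw [ENNReal.ofReal_inv_of_pos (by norm_num)]
          norm_num
        rw [h8, h9]
        exact ENNReal.ofReal_le_ofReal (by norm_num)
  exact model_count ζ hM hL hR τ₀ hτ hτu K₁ hK.symm hK0 f' b' hE hEm Wn hW hRF hEc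

end Pool.Agent.TLA.Cnt
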