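import Pool.Agent.TLA.PairDefs

/-! The cocycle (block D4 (c)). -/

set_option autoImplicit false

open MeasureTheory Filter
open scoped Pointwise

namespace Pool.Agent.TLA

variable {G Z : Type} [Group G] [Countable G] [MeasurableSpace Z] (ζ : Measure Z)
  [IsProbabilityMeasure ζ]

/-- Measurability of the translated set. -/
private theorem cocycle_memb (f : Bern G Z → Set G) (hf : Measurable f)
    (k : Bern G Z → G) (hk : ∀ g, MeasurableSet (k ⁻¹' {g})) (a : G) :
    MeasurableSet {x : Bern G Z | a ∈ k x • f x} := by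
  have h1 : {x : Bern G Z | a ∈ k x • f x} =
      ⋃ g : G, (k ⁻¹' {g} ∩ {x | g⁻¹ • a ∈ f x}) := by
    ext x
    simp only [Set.mem_setOf_eq, Set.mem_iUnion, Set.mem_inter_iff, Set.mem_preimage,
      Set.mem_singleton_iff]
    constructor
    · intro h
      exact ⟨k x, rfl, Set.mem_smul_set_iff_inv_smul_mem.mp h⟩
    · rintro ⟨g, hg, h⟩
      subst hg
      exact Set.mem_smul_set_iff_inv_smul_mem.mpr h
  rw [h1]
  refine MeasurableSet.iUnion fun g => (hk g).inter ?_
  exact measurableSet_setOf.mpr (measurable_set_iff.mp hf (g⁻¹ • a))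

/-- Measurability of the equality of two sets. -/
private theorem cocycle_eq {X : Type} [MeasurableSpace X] (A B : X → Set G)
    (hA : ∀ a, MeasurableSet {x | a ∈ A x}) (hB : ∀ a, MeasurableSet {x | a ∈ B x}) :
    MeasurableSet {x | A x = B x} := by
  have h1 : {x | A x = B x} = {x | ∀ a : G, a ∈ A x ↔ a ∈ B x} := by
    ext x
    exact Set.ext_iff
  rw [h1]
  refine measurableSet_setOf.mpr (Measurable.forall fun a => Measurable.iff ?_ ?_)
  · exact measurableSet_setOf.mp (hA a)
  · exact measurableSet_setOf.mp (hB a)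

/-- The cocycle of `x ↦ k x • f x` with values in `M / K`, where `K` is the stabilizer. -/
theorem exists_cocycle (f : Bern G Z → Set G) (hf : Measurable f)
    (k : Bern G Z → G) (hk : ∀ g, MeasurableSet (k ⁻¹' {g})) (M K : Subgroup G) (hKM : K ≤ M)
    [(K.subgroupOf M).Normal]
    (hst : ∀ᵐ x ∂(Bern.mu G ζ), MulAction.stabilizer G (k x • f x) = K)
    (hcoc : ∀ g : G, ∀ᵐ x ∂(Bern.mu G ζ), ∃ h ∈ M, k (g • x) • f (g • x) = h • (k x • f x)) :
    ∃ α : G → Bern G Z → M ⧸ K.subgroupOf M, (∀ g q, MeasurableSet (α g ⁻¹' {q})) ∧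
      (∀ g, ∀ᵐ x ∂(Bern.mu G ζ), ∀ h : M, (h : M ⧸ K.subgroupOf M) = α g x ↔
        k (g • x) • f (g • x) = (h : G) • (k x • f x)) ∧
      ∀ g g', ∀ᵐ x ∂(Bern.mu G ζ), α (g * g') x = α g (g' • x) * α g' x := by
  classical
  set F : Bern G Z → Set G := fun x => k x • f x with hF
  have hFm : ∀ a : G, MeasurableSet {x | a ∈ F x} := fun a => cocycle_memb f hf k hk a
  have hFs : ∀ (h : G) (a : G), MeasurableSet {x | a ∈ h • F x} := by
    intro h a
    have h1 : {x | a ∈ h • F x} = {x | h⁻¹ • a ∈ F x} := by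
      ext x
      exact Set.mem_smul_set_iff_inv_smul_mem
    rw [h1]
    exact hFm _
  have hFg : ∀ (g : G) (a : G), MeasurableSet {x | a ∈ F (g • x)} := fun g a =>
    (measurable_const_smul g) (hFm a)
  have hE : ∀ g h : G, MeasurableSet {x | F (g • x) = h • F x} := fun g h =>
    cocycle_eq _ _ (hFg g) (hFs h)
  set good : Set (Bern G Z) := {x | MulAction.stabilizer G (F x) = K} with hgood
  have hgm : MeasurableSet good := by
    have h1 : good = ⋂ h : G, {x | h • F x = F x ↔ h ∈ K} := by
      ext x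
      simp only [hgood, Set.mem_setOf_eq, Set.mem_iInter]
      constructor
      · intro hx h
        rw [← hx, MulAction.mem_stabilizer_iff]
      · intro hx
        ext h
        rw [MulAction.mem_stabilizer_iff]
        exact hx h
    rw [h1]
    refine MeasurableSet.iInter fun h => ?_
    refine measurableSet_setOf.mpr (Measurable.iff ?_ measurable_const)
    exact measurableSet_setOf.mp (cocycle_eq _ _ (hFs h) hFm)
  have hkey : ∀ (g : G) (x : Bern G Z), x ∈ good → ∀ h h0 : M,
      F (g • x) = (h0 : G) • F x → ((h : M ⧸ K.subgroupOf M) = (h0 : M ⧸ K.subgroupOf M) ↔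
        F (g • x) = (h : G) • F x) := by
    intro g x hx h h0 h1
    rw [QuotientGroup.eq, Subgroup.mem_subgroupOf]
    have hx' : MulAction.stabilizer G (F x) = K := hx
    rw [← hx', MulAction.mem_stabilizer_iff, h1]
    simp only [Subgroup.coe_mul, Subgroup.coe_inv, mul_smul]
    rw [inv_smul_eq_iff]
  set α : G → Bern G Z → M ⧸ K.subgroupOf M := fun g x =>
    if hx : x ∈ good ∧ ∃ h : M, F (g • x) = (h : G) • F x then
      ((Classical.choose hx.2 : M) : M ⧸ K.subgroupOf M) else 1 with hα
  have hα1 : ∀ (g : G) (x : Bern G Z), x ∈ good → (∃ h : M, F (g • x) = (h : G) • F x) →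
      ∀ h : M, (h : M ⧸ K.subgroupOf M) = α g x ↔ F (g • x) = (h : G) • F x := by
    intro g x hx hex h
    have h1 : α g x = ((Classical.choose hex : M) : M ⧸ K.subgroupOf M) := by
      simp only [hα]
      rw [dif_pos ⟨hx, hex⟩]
    rw [h1]
    exact hkey g x hx h _ (Classical.choose_spec hex)
  have hae : ∀ g, ∀ᵐ x ∂(Bern.mu G ζ), ∀ h : M, (h : M ⧸ K.subgroupOf M) = α g x ↔
      F (g • x) = (h : G) • F x := by
    intro g
    filter_upwards [hst, hcoc g] with x h1 h2
    refine hα1 g x h1 ?_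
    obtain ⟨h, hh, h3⟩ := h2
    exact ⟨⟨h, hh⟩, h3⟩
  refine ⟨α, ?_, hae, ?_⟩
  · intro g q
    have h1 : α g ⁻¹' {q} =
        (good ∩ ⋃ h : M, {x | (h : M ⧸ K.subgroupOf M) = q ∧ F (g • x) = (h : G) • F x}) ∪
        ({x | q = 1} ∩ (good ∩ ⋃ h : M, {x | F (g • x) = (h : G) • F x})ᶜ) := by
      ext x
      simp only [Set.mem_preimage, Set.mem_singleton_iff, Set.mem_union, Set.mem_inter_iff,
        Set.mem_iUnion, Set.mem_setOf_eq, Set.mem_compl_iff]
      by_cases hx : x ∈ good ∧ ∃ h : M, F (g • x) = (h : G) • F x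
      · have h2 := hα1 g x hx.1 hx.2
        constructor
        · intro h3
          obtain ⟨h, hh⟩ := QuotientGroup.mk_surjective q
          refine Or.inl ⟨hx.1, h, hh, ?_⟩
          exact (h2 h).mp (by rw [h3]; exact hh)
        · rintro (⟨_, h, hh, h3⟩ | ⟨_, h3⟩)
          · rw [← hh]
            exact ((h2 h).mpr h3).symm
          · exact absurd hx h3
      · have h2 : α g x = 1 := by
          simp only [hα]
          rw [dif_neg hx]
        constructor
        · intro h3
          exact Or.inr ⟨by rw [← h3, h2], hx⟩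
        · rintro (⟨h3, h, _, h4⟩ | ⟨h3, _⟩)
          · exact absurd ⟨h3, h, h4⟩ hx
          · rw [h2, h3]
    rw [h1]
    refine MeasurableSet.union (hgm.inter (MeasurableSet.iUnion fun h => ?_))
      ((MeasurableSet.const _).inter
        (hgm.inter (MeasurableSet.iUnion fun h : M => hE g (h : G))).compl)
    exact (MeasurableSet.const _).inter (hE g h)
  · intro g g'
    have hq := (measurePreserving_smul g' (Bern.mu G ζ)).quasiMeasurePreserving.ae (hae g)
    filter_upwards [hae (g * g'), hae g', hq] with x h1 h2 h3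
    obtain ⟨a, ha⟩ := QuotientGroup.mk_surjective (α g (g' • x))
    obtain ⟨b, hb⟩ := QuotientGroup.mk_surjective (α g' x)
    have h4 := (h3 a).mp ha
    have h5 := (h2 b).mp hb
    rw [← ha, ← hb]
    have h6 : ((a : M ⧸ K.subgroupOf M)) * (b : M ⧸ K.subgroupOf M) =
        ((a * b : M) : M ⧸ K.subgroupOf M) := rfl
    refine Eq.symm ?_
    refine h6.trans ((h1 (a * b)).mpr ?_)
    rw [mul_smul, h4, h5, Subgroup.coe_mul, mul_smul]

end Pool.Agent.TLA
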