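import Pool.Agent.TLA.CountBits
import Pool.Agent.TLA.CntC

/-! The counting argument (end of block D4). -/

set_option autoImplicit false

open MeasureTheory Filter
open scoped Pointwise

namespace Pool.Agent.TLA

variable {G Z : Type} [Group G] [Countable G] [MeasurableSpace Z] (ζ : Measure Z)
  [IsProbabilityMeasure ζ]

/-- The counting theorem: an injective `f` such that `k x • f x` is equivariant under a subgroup
of finite index through a homomorphism is impossible. -/
theorem counting [StandardBorelSpace Z]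
    (hRF : ∀ F : Finset G, ∃ N : Subgroup G, N.Normal ∧ N.index ≠ 0 ∧
      ∀ a ∈ F, ∀ b ∈ F, a⁻¹ * b ∈ N → a = b)
    (huni : ∀ L₀ : ℕ, ∃ L : ℕ, L₀ ≤ L ∧ ∃ τ₀ : Z → Fin L, Measurable τ₀ ∧
      ∀ i, ζ (τ₀ ⁻¹' {i}) = (L : ENNReal)⁻¹)
    (f : Bern G Z → Set G) (hf : Measurable f) (hinj : Function.Injective f)
    (k : Bern G Z → G) (hk : ∀ g, MeasurableSet (k ⁻¹' {g})) (M : Subgroup G)
    (hM : M.index ≠ 0)
    (hcoc : ∀ q ∈ M, ∃ g : G, ∀ᵐ x ∂(Bern.mu G ζ), k (g • x) • f (g • x) = q • (k x • f x)) :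
    False := by
  classical
  obtain ⟨b, Θ, hb, hΘ, hbΘ⟩ := exists_bits ζ f hf k hk M hM hcoc
  have hcs : MeasurableSpace.CountablySeparated (Set G) :=
    inferInstanceAs (MeasurableSpace.CountablySeparated (G → Prop))
  have hem : MeasurableEmbedding f := hf.measurableEmbedding hinj
  obtain ⟨z0⟩ : Nonempty Z := nonempty_of_isProbabilityMeasure ζ
  have : Nonempty (Bern G Z) := ⟨fun _ => z0⟩
  let e : (Fin M.index → Bool) ≃ Fin (Fintype.card (Fin M.index → Bool)) := Fintype.equivFin _
  have hsm : ∀ κ : G, Measurable (fun u : Set G => κ⁻¹ • u) := by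
    intro κ
    refine measurable_set_iff.2 fun g => ?_
    have h1 : (fun u : Set G => g ∈ κ⁻¹ • u) = fun u : Set G => κ * g ∈ u := by
      funext u
      rw [Set.mem_inv_smul_set_iff, smul_eq_mul]
    rw [h1]
    exact measurable_set_mem _
  refine Cnt.count (Z := Z) ζ hRF huni (fun x => e (b x)) ((measurable_of_finite e).comp hb) k hk
    (fun β κ => (hem.invFun (κ⁻¹ • Θ (fun g => e.symm (β g)))) 1) ?_ ?_
  · intro κ
    have h2 : Measurable (fun β : G → Fin (Fintype.card (Fin M.index → Bool)) =>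
        fun g => e.symm (β g)) :=
      measurable_pi_lambda _ fun g => (measurable_of_finite e.symm).comp (measurable_pi_apply g)
    have h3 : Measurable (fun x : Bern G Z => x 1) := measurable_pi_apply (1 : G)
    exact h3.comp (hem.measurable_invFun.comp ((hsm κ).comp (hΘ.comp h2)))
  · have h4 : ∀ x : Bern G Z, (fun g : G => e.symm (e (b (fun h => x (g * h))))) =
        fun g => b (g⁻¹ • x) := by
      intro x
      funext g
      have h5 : (fun h => x (g * h) : Bern G Z) = g⁻¹ • x := by
        funext h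
        change x (g * h) = x ((g⁻¹)⁻¹ * h)
        rw [inv_inv]
      rw [Equiv.symm_apply_apply, h5]
    have h6 : ∀ᵐ x : Bern G Z ∂(Bern.mu G ζ), x 1 =
        (hem.invFun ((k x)⁻¹ • Θ (fun g => e.symm (e (b (fun h => x (g * h))))))) 1 := by
      filter_upwards [hbΘ] with x hx
      rw [h4, ← hx, inv_smul_smul, hem.leftInverse_invFun x]
    exact h6

end Pool.Agent.TLA
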