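import Pool.Agent.TLA.PairDefs

/-! The counting argument (end of block D4): the bits. -/

set_option autoImplicit false

open MeasureTheory Filter
open scoped Pointwise

namespace Pool.Agent.TLA

variable {G Z : Type} [Group G] [Countable G] [MeasurableSpace Z] (ζ : Measure Z)
  [IsProbabilityMeasure ζ]

/-- The bits of `k x • f x` at coset representatives determine it. -/
theorem exists_bits (f : Bern G Z → Set G) (hf : Measurable f) (k : Bern G Z → G)
    (hk : ∀ g, MeasurableSet (k ⁻¹' {g})) (M : Subgroup G) (hM : M.index ≠ 0)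
    (hcoc : ∀ q ∈ M, ∃ g : G, ∀ᵐ x ∂(Bern.mu G ζ), k (g • x) • f (g • x) = q • (k x • f x)) :
    ∃ (b : Bern G Z → Fin M.index → Bool) (Θ : (G → Fin M.index → Bool) → Set G),
      Measurable b ∧ Measurable Θ ∧
      ∀ᵐ x ∂(Bern.mu G ζ), k x • f x = Θ (fun g => b (g⁻¹ • x)) := by
  classical
  have key : ∃ (r : Fin M.index → G) (Q : G → G) (J : G → Fin M.index),
      ∀ p, Q p ∈ M ∧ p = Q p * r (J p) := by
    let e : (G ⧸ M) ≃ Fin M.index := Nat.equivFinOfCardPos hM
    refine ⟨fun j => ((e.symm j).out)⁻¹, fun p => p * ((p⁻¹ : G) : G ⧸ M).out,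
      fun p => e ((p⁻¹ : G) : G ⧸ M), fun p => ⟨?_, ?_⟩⟩
    · obtain ⟨h, hh⟩ := QuotientGroup.mk_out_eq_mul M p⁻¹
      have h5 : p * ((p⁻¹ : G) : G ⧸ M).out ∈ M := by
        rw [hh, mul_inv_cancel_left]
        exact h.2
      exact h5
    · simp only [Equiv.symm_apply_apply, mul_inv_cancel_right]
  obtain ⟨r, Q, J, hQ⟩ := key
  have hmeas : ∀ g : G, MeasurableSet {x | g ∈ k x • f x} := by
    intro g
    have h1 : {x | g ∈ k x • f x} = ⋃ h : G, (k ⁻¹' {h} ∩ {x | h⁻¹ * g ∈ f x}) := by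
      ext x
      simp only [Set.mem_setOf_eq, Set.mem_iUnion, Set.mem_inter_iff, Set.mem_preimage,
        Set.mem_singleton_iff]
      constructor
      · intro hx
        exact ⟨k x, rfl, Set.mem_smul_set_iff_inv_smul_mem.1 hx⟩
      · rintro ⟨h, h2, h3⟩
        rw [h2]
        exact Set.mem_smul_set_iff_inv_smul_mem.2 h3
    rw [h1]
    refine MeasurableSet.iUnion fun h => (hk h).inter ?_
    exact measurableSet_setOf.2 ((measurable_pi_apply (h⁻¹ * g)).comp hf)
  have hq : ∀ p : G, ∃ g : G, ∀ᵐ x ∂(Bern.mu G ζ),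
      k (g • x) • f (g • x) = (Q p)⁻¹ • (k x • f x) := fun p => hcoc _ (M.inv_mem (hQ p).1)
  choose γ hγ using hq
  refine ⟨fun x j => decide (r j ∈ k x • f x), fun c => {p | c (γ p)⁻¹ (J p) = true}, ?_, ?_, ?_⟩
  · refine measurable_pi_iff.2 fun j => measurable_to_bool ?_
    have h2 : (fun x => decide (r j ∈ k x • f x)) ⁻¹' {true} = {x | r j ∈ k x • f x} := by
      ext x
      simp
    rw [h2]
    exact hmeas _
  · refine measurable_pi_iff.2 fun p => ?_
    have h3 : Measurable fun c : G → Fin M.index → Bool => c (γ p)⁻¹ (J p) :=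
      (measurable_pi_apply (J p)).comp (measurable_pi_apply (γ p)⁻¹)
    exact measurableSet_setOf.1 (h3 (MeasurableSet.singleton true))
  · filter_upwards [ae_all_iff.2 hγ] with x hx
    ext p
    have h4 : ∀ A : Set G, p ∈ A ↔ r (J p) ∈ (Q p)⁻¹ • A := by
      intro A
      rw [Set.mem_smul_set_iff_inv_smul_mem, inv_inv, smul_eq_mul, ← (hQ p).2]
    rw [h4 (k x • f x), ← hx p]
    simp only [Set.mem_setOf_eq, inv_inv, decide_eq_true_eq]

end Pool.Agent.TLA
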