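import Mathlib

/-! The counting argument on a finite set (end of block D4). -/

set_option autoImplicit false

open MeasureTheory Filter

namespace Pool.Agent.TLA

/-- A box of the product space has measure `L ^ (-|G|)`. -/
private theorem CountFin_box {V Z : Type} [Fintype V] [MeasurableSpace Z] (ζ : Measure Z)
    [IsProbabilityMeasure ζ] {L : ℕ} (τ₀ : Z → Fin L)
    (huni : ∀ i, ζ (τ₀ ⁻¹' {i}) = (L : ENNReal)⁻¹) (G : Finset V) (g : V → Fin L) :
    (Measure.pi (fun _ : V => ζ)) {y | ∀ v ∈ G, τ₀ (y v) = g v} = ((L : ENNReal)⁻¹) ^ G.card := by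
  classical
  have hset : {y : V → Z | ∀ v ∈ G, τ₀ (y v) = g v} =
      Set.pi Set.univ (fun v => if v ∈ G then τ₀ ⁻¹' {g v} else Set.univ) := by
    ext y
    simp only [Set.mem_setOf_eq, Set.mem_pi, Set.mem_univ, forall_true_left]
    constructor
    · intro h v
      by_cases hv : v ∈ G
      · simpa [hv] using h v hv
      · simp [hv]
    · intro h v hv
      simpa [hv] using h v
  rw [hset, Measure.pi_pi]
  have hv : ∀ v : V, ζ (if v ∈ G then τ₀ ⁻¹' {g v} else Set.univ) =
      if v ∈ G then (L : ENNReal)⁻¹ else 1 := by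
    intro v
    by_cases hv : v ∈ G
    · simp only [hv, if_true, huni]
    · simp only [hv, if_false, measure_univ]
  rw [Finset.prod_congr rfl (fun v _ => hv v), Finset.prod_ite_mem, Finset.univ_inter,
    Finset.prod_const]

/-- The set of configurations with many good vertices has small measure. -/
theorem count_finite {V Z A : Type} [Fintype V] [Nonempty V] [MeasurableSpace Z] (ζ : Measure Z)
    [IsProbabilityMeasure ζ] {m L : ℕ} (τ₀ : Z → Fin L) (hτ : Measurable τ₀)
    (huni : ∀ i, ζ (τ₀ ⁻¹' {i}) = (L : ENNReal)⁻¹) (K : Finset A) (hK : K.Nonempty)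
    (hL : (2 ^ (m + 2) * K.card) ^ 4 ≤ L) (c : (V → Z) → V → Fin m → Bool)
    (Ψ : V → (V → Fin m → Bool) → A → Fin L) :
    (Measure.pi (fun _ : V => ζ)) {y | (Fintype.card V : ℝ) / 4 ≤
      Nat.card {v // ∃ κ ∈ K, τ₀ (y v) = Ψ v (c y) κ}} ≤ ENNReal.ofReal (1 / 2) := by
  classical
  let I := (V → Fin m → Bool) × (Finset V) × (V → K)
  let box : I → Set (V → Z) := fun i =>
    if Fintype.card V ≤ 4 * i.2.1.card then
      {y | ∀ v ∈ i.2.1, τ₀ (y v) = Ψ v i.1 (i.2.2 v : A)} else ∅
  obtain ⟨κ₀, hκ₀⟩ := hK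
  have hsub : {y | (Fintype.card V : ℝ) / 4 ≤
      Nat.card {v // ∃ κ ∈ K, τ₀ (y v) = Ψ v (c y) κ}} ⊆ ⋃ i, box i := by
    intro y hy
    simp only [Set.mem_setOf_eq] at hy
    let G : Finset V := Finset.univ.filter (fun v => ∃ κ ∈ K, τ₀ (y v) = Ψ v (c y) κ)
    have hG : Nat.card {v // ∃ κ ∈ K, τ₀ (y v) = Ψ v (c y) κ} = G.card := by
      rw [Nat.card_eq_fintype_card, Fintype.card_subtype]
    have hκ : ∀ v, ∃ κ : K, v ∈ G → τ₀ (y v) = Ψ v (c y) (κ : A) := by
      intro v
      by_cases hv : v ∈ G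
      · obtain ⟨κ, hκ, h⟩ := (Finset.mem_filter.1 hv).2
        exact ⟨⟨κ, hκ⟩, fun _ => h⟩
      · exact ⟨⟨κ₀, hκ₀⟩, fun h => absurd h hv⟩
    choose κ hκ using hκ
    refine Set.mem_iUnion.2 ⟨(c y, G, κ), ?_⟩
    have hcard : Fintype.card V ≤ 4 * G.card := by
      rw [hG] at hy
      have : (Fintype.card V : ℝ) ≤ 4 * (G.card : ℝ) := by linarith
      exact_mod_cast this
    simp only [box, hcard, if_true, Set.mem_setOf_eq]
    exact fun v hv => hκ v hv
  set N : ℕ := 2 ^ (m + 2) * K.card with hN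
  have hK1 : 1 ≤ K.card := Finset.card_pos.2 ⟨κ₀, hκ₀⟩
  have hN1 : 1 ≤ N := Nat.one_le_iff_ne_zero.2 (by
    rw [hN]; exact Nat.mul_ne_zero (pow_ne_zero _ (by norm_num)) (by omega))
  have hbox : ∀ i, (Measure.pi (fun _ : V => ζ)) (box i) ≤
      ((N ^ Fintype.card V : ℕ) : ENNReal)⁻¹ := by
    intro i
    by_cases h : Fintype.card V ≤ 4 * i.2.1.card
    · simp only [box, h, if_true]
      rw [CountFin_box ζ τ₀ huni, ← ENNReal.inv_pow]
      apply ENNReal.inv_le_inv.2
      have : N ^ Fintype.card V ≤ L ^ i.2.1.card :=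
        calc N ^ Fintype.card V ≤ N ^ (4 * i.2.1.card) := Nat.pow_le_pow_right hN1 h
          _ = (N ^ 4) ^ i.2.1.card := by rw [pow_mul]
          _ ≤ L ^ i.2.1.card := Nat.pow_le_pow_left hL _
      exact_mod_cast this
    · simp only [box, h, if_false, measure_empty]
      exact zero_le
  have hcardI : Fintype.card I = (2 ^ (m + 1) * K.card) ^ Fintype.card V := by
    simp only [I, Fintype.card_prod, Fintype.card_fun, Fintype.card_finset, Fintype.card_bool,
      Fintype.card_fin, Fintype.card_coe]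
    rw [← mul_pow, ← mul_pow]
    congr 1
    ring
  have hNM : 2 * (2 ^ (m + 1) * K.card) ^ Fintype.card V ≤ N ^ Fintype.card V := by
    have h1 : N = 2 * (2 ^ (m + 1) * K.card) := by rw [hN]; ring
    rw [h1, mul_pow 2]
    apply Nat.mul_le_mul_right
    exact Nat.le_self_pow Fintype.card_ne_zero 2
  calc (Measure.pi (fun _ : V => ζ)) {y | (Fintype.card V : ℝ) / 4 ≤
      Nat.card {v // ∃ κ ∈ K, τ₀ (y v) = Ψ v (c y) κ}}
      ≤ (Measure.pi (fun _ : V => ζ)) (⋃ i, box i) := measure_mono hsub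
    _ ≤ ∑ i, (Measure.pi (fun _ : V => ζ)) (box i) := measure_iUnion_fintype_le _ _
    _ ≤ ∑ _i : I, ((N ^ Fintype.card V : ℕ) : ENNReal)⁻¹ :=
        Finset.sum_le_sum (fun i _ => hbox i)
    _ = ((2 ^ (m + 1) * K.card) ^ Fintype.card V : ℕ) / ((N ^ Fintype.card V : ℕ) : ENNReal) := by
        rw [Finset.sum_const, Finset.card_univ, hcardI, nsmul_eq_mul, div_eq_mul_inv]
    _ ≤ ENNReal.ofReal (1 / 2) := by
        apply ENNReal.div_le_of_le_mul
        have h2 : ((2 * (2 ^ (m + 1) * K.card) ^ Fintype.card V : ℕ) : ENNReal) ≤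
            ((N ^ Fintype.card V : ℕ) : ENNReal) := by exact_mod_cast hNM
        have h3 : ENNReal.ofReal (1 / 2) = (2 : ENNReal)⁻¹ := by
          rw [one_div, ENNReal.ofReal_inv_of_pos (by norm_num)]
          norm_num
        rw [h3]
        calc (((2 ^ (m + 1) * K.card) ^ Fintype.card V : ℕ) : ENNReal)
            = (2 : ENNReal)⁻¹ * ((2 * (2 ^ (m + 1) * K.card) ^ Fintype.card V : ℕ) : ENNReal) := by
              rw [Nat.cast_mul, ← mul_assoc, Nat.cast_ofNat,
                ENNReal.inv_mul_cancel (by norm_num) (by norm_num), one_mul]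
          _ ≤ _ := by gcongr

/-- Markov: if every vertex is good with probability at least `3/4`, then with probability at
least `2/3` at least a quarter of the vertices is good. -/
theorem count_markov {V Ω : Type} [Fintype V] [Nonempty V] [MeasurableSpace Ω] (P : Measure Ω)
    [IsProbabilityMeasure P] (good : V → Set Ω) (hg : ∀ v, MeasurableSet (good v))
    (h : ∀ v, 3 / 4 ≤ P.real (good v)) :
    2 / 3 ≤ P.real {y | (Fintype.card V : ℝ) / 4 ≤ Nat.card {v // y ∈ good v}} := by
  classical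
  let f : Ω → ℝ := fun y => ∑ v, (good v).indicator (fun _ => (1 : ℝ)) y
  have hf : ∀ y, (Nat.card {v // y ∈ good v} : ℝ) = f y := by
    intro y
    rw [Nat.card_eq_fintype_card, Fintype.card_subtype]
    simp only [f, Set.indicator_apply]
    rw [Finset.sum_ite, Finset.sum_const_zero, add_zero, Finset.sum_const, nsmul_eq_mul, mul_one]
  have hfm : Measurable f :=
    Finset.measurable_sum _ (fun v _ => measurable_const.indicator (hg v))
  set E : Set Ω := {y | (Fintype.card V : ℝ) / 4 ≤ Nat.card {v // y ∈ good v}} with hE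
  have hEe : E = {y | (Fintype.card V : ℝ) / 4 ≤ f y} := by
    ext y
    simp only [hE, Set.mem_setOf_eq, hf]
  have hEm : MeasurableSet E := by
    rw [hEe]
    exact measurableSet_le measurable_const hfm
  have hV : (0 : ℝ) < Fintype.card V := by exact_mod_cast Fintype.card_pos
  have hfV : ∀ y, f y ≤ Fintype.card V := by
    intro y
    calc f y ≤ ∑ _v : V, (1 : ℝ) := Finset.sum_le_sum (fun v _ => by
          simp only [Set.indicator_apply]
          split_ifs <;> norm_num)
      _ = Fintype.card V := by simp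
  have hbd : ∀ y, f y ≤ (Fintype.card V : ℝ) / 4 +
      E.indicator (fun _ => 3 * (Fintype.card V : ℝ) / 4) y := by
    intro y
    by_cases hy : y ∈ E
    · rw [Set.indicator_of_mem hy]
      linarith [hfV y]
    · rw [Set.indicator_of_notMem hy]
      rw [hEe] at hy
      simp only [Set.mem_setOf_eq, not_le] at hy
      linarith
  have hint : ∀ v, Integrable ((good v).indicator (fun _ => (1 : ℝ))) P := fun v =>
    (integrable_const _).indicator (hg v)
  have h1 : ∫ y, f y ∂P = ∑ v, P.real (good v) := by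
    simp only [f]
    rw [integral_finset_sum _ (fun v _ => hint v)]
    refine Finset.sum_congr rfl (fun v _ => ?_)
    rw [integral_indicator_const _ (hg v)]
    simp
  have h2 : ∫ y, ((Fintype.card V : ℝ) / 4 +
      E.indicator (fun _ => 3 * (Fintype.card V : ℝ) / 4) y) ∂P =
      (Fintype.card V : ℝ) / 4 + P.real E * (3 * (Fintype.card V : ℝ) / 4) := by
    rw [integral_add (integrable_const _) ((integrable_const _).indicator hEm),
      integral_indicator_const _ hEm]
    simp
  have h3 : ∫ y, f y ∂P ≤ ∫ y, ((Fintype.card V : ℝ) / 4 +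
      E.indicator (fun _ => 3 * (Fintype.card V : ℝ) / 4) y) ∂P := by
    apply integral_mono
    · exact integrable_finset_sum _ (fun v _ => hint v)
    · exact (integrable_const _).add ((integrable_const _).indicator hEm)
    · exact hbd
  have h4 : (Fintype.card V : ℝ) * (3 / 4) ≤ ∑ v, P.real (good v) := by
    calc (Fintype.card V : ℝ) * (3 / 4) = ∑ _v : V, (3 / 4 : ℝ) := by simp
      _ ≤ _ := Finset.sum_le_sum (fun v _ => h v)
  rw [h1, h2] at h3
  have h5 : (Fintype.card V : ℝ) * (3 / 4) ≤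
      (Fintype.card V : ℝ) / 4 + P.real E * (3 * (Fintype.card V : ℝ) / 4) := h4.trans h3
  have h6 : (Fintype.card V : ℝ) * (2 / 3) ≤ (Fintype.card V : ℝ) * P.real E := by nlinarith
  exact le_of_mul_le_mul_left h6 hV

end Pool.Agent.TLA
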