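import Pool.Agent.TLA.PairDefs
import Pool.Agent.TLA.CountFin

/-! The counting argument (end of block D4). -/

set_option autoImplicit false

open MeasureTheory Filter
open scoped Pointwise

namespace Pool.Agent.TLA

/-- The law of finitely many distinct coordinates of a product measure. -/
private theorem countTrans_map {ι κ Z : Type} [Fintype κ] [MeasurableSpace Z] (ζ : Measure Z)
    [IsProbabilityMeasure ζ] (e : κ → ι) (he : Function.Injective e) :
    (Measure.infinitePi (fun _ : ι => ζ)).map (fun y k => y (e k)) =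
      Measure.pi (fun _ : κ => ζ) := by
  classical
  symm
  refine Measure.pi_eq fun s hs => ?_
  rw [Measure.map_apply (by fun_prop) (MeasurableSet.univ_pi hs)]
  have hset : (fun (y : ι → Z) (k : κ) => y (e k)) ⁻¹' (Set.pi Set.univ s) =
      Set.pi ((Finset.univ.map ⟨e, he⟩ : Finset ι) : Set ι)
        (Function.extend e s (fun _ => Set.univ)) := by
    ext y
    simp only [Set.mem_preimage, Set.mem_pi, Set.mem_univ, forall_true_left, Finset.coe_map,
      Function.Embedding.coeFn_mk, Finset.coe_univ, Set.image_univ, Set.forall_mem_range,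
      he.extend_apply]
  have hm : ∀ i, MeasurableSet (Function.extend e s (fun _ => (Set.univ : Set Z)) i) := by
    intro i
    by_cases h : ∃ k, e k = i
    · obtain ⟨k, rfl⟩ := h
      rw [he.extend_apply]
      exact hs k
    · rw [Function.extend_apply' _ _ _ h]
      exact MeasurableSet.univ
  rw [hset, Measure.infinitePi_pi _ (fun i _ => hm i), Finset.prod_map]
  simp only [Function.Embedding.coeFn_mk, he.extend_apply]

variable {G Z : Type} [Group G] [Countable G] [MeasurableSpace Z] (ζ : Measure Z)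
  [IsProbabilityMeasure ζ]

omit [Countable G] in
/-- Transfer to a finite quotient and contradiction. -/
theorem count_window (hRF : ∀ F : Finset G, ∃ N : Subgroup G, N.Normal ∧ N.index ≠ 0 ∧
      ∀ a ∈ F, ∀ b ∈ F, a⁻¹ * b ∈ N → a = b)
    {m L : ℕ} (τ₀ : Z → Fin L) (hτ : Measurable τ₀)
    (huni : ∀ i, ζ (τ₀ ⁻¹' {i}) = (L : ENNReal)⁻¹) (K : Finset G)
    (hL : (2 ^ (m + 2) * K.card) ^ 4 ≤ L) (F W : Finset G) (bF : (W → Z) → Fin m → Bool)
    (hbF : Measurable bF) (ΨF : (F → Fin m → Bool) → G → Fin L)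
    (h : 3 / 4 ≤ (Bern.mu G ζ).real {x | ∃ κ ∈ K,
        τ₀ (x 1) = ΨF (fun g => bF (fun i => x ((g : G) * (i : G)))) κ}) : False := by
  classical
  have hK : K.Nonempty := by
    rcases K.eq_empty_or_nonempty with hK | hK
    · exfalso
      subst hK
      simp only [Finset.notMem_empty, false_and, exists_false, Set.ofPred_false,
        measureReal_empty] at h
      norm_num at h
    · exact hK
  set S : Finset G := insert 1 ((F ×ˢ W).image (fun p => p.1 * p.2)) with hS
  have h1S : (1 : G) ∈ S := Finset.mem_insert_self _ _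
  have hmS : ∀ g ∈ F, ∀ i ∈ W, g * i ∈ S := fun g hg i hi =>
    Finset.mem_insert_of_mem (Finset.mem_image.2 ⟨(g, i), Finset.mem_product.2 ⟨hg, hi⟩, rfl⟩)
  obtain ⟨N, hN, hidx, hinj⟩ := hRF S
  have := hN
  let _ : Fintype (G ⧸ N) := Subgroup.fintypeOfIndexNeZero hidx
  let B : Set (S → Z) := {z | ∃ κ ∈ K, τ₀ (z ⟨1, h1S⟩) =
    ΨF (fun g => bF (fun i => z ⟨g * i, hmS g g.2 i i.2⟩)) κ}
  have hB : MeasurableSet B := by
    have hBe : B = ⋃ κ ∈ K, {z | τ₀ (z ⟨1, h1S⟩) =
        ΨF (fun g => bF (fun i => z ⟨g * i, hmS g g.2 i i.2⟩)) κ} := by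
      ext z
      simp only [B, Set.mem_ofPred_eq, Set.mem_iUnion, exists_prop]
    rw [hBe]
    refine Finset.measurableSet_biUnion _ fun κ _ => ?_
    refine measurableSet_eq_fun (hτ.comp (measurable_pi_apply _)) ?_
    have h1 : Measurable (fun c : F → Fin m → Bool => ΨF c κ) := Measurable.of_discrete
    refine h1.comp ?_
    refine measurable_pi_lambda _ fun g => hbF.comp ?_
    exact measurable_pi_lambda _ fun i => measurable_pi_apply _
  have hmuB : 3 / 4 ≤ (Measure.pi (fun _ : S => ζ)).real B := by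
    have h2 : (Bern.mu G ζ).real {x | ∃ κ ∈ K,
        τ₀ (x 1) = ΨF (fun g => bF (fun i => x ((g : G) * (i : G)))) κ} =
        (Measure.pi (fun _ : S => ζ)).real B := by
      rw [← countTrans_map ζ (fun s : S => (s : G)) Subtype.val_injective,
        map_measureReal_apply (by fun_prop) hB]
      rfl
    rwa [← h2]
  let P : Measure ((G ⧸ N) → Z) := Measure.pi (fun _ => ζ)
  let good : (G ⧸ N) → Set ((G ⧸ N) → Z) := fun v =>
    (fun y (s : S) => y (v * QuotientGroup.mk (s : G))) ⁻¹' B
  have hgm : ∀ v, MeasurableSet (good v) := fun v =>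
    hB.preimage (measurable_pi_lambda _ fun s => measurable_pi_apply _)
  have hgP : ∀ v, 3 / 4 ≤ P.real (good v) := by
    intro v
    have hinj' : Function.Injective
        (fun s : S => v * (QuotientGroup.mk (s : G) : G ⧸ N)) := by
      intro a b hab
      have h3 : (QuotientGroup.mk (a : G) : G ⧸ N) = QuotientGroup.mk (b : G) :=
        mul_left_cancel hab
      exact Subtype.ext (hinj a a.2 b b.2 (QuotientGroup.eq.1 h3))
    have h4 := countTrans_map ζ (fun s : S => v * (QuotientGroup.mk (s : G) : G ⧸ N)) hinj'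
    rw [Measure.infinitePi_eq_pi] at h4
    rw [← h4, map_measureReal_apply (by fun_prop) hB] at hmuB
    exact hmuB
  have hmk := count_markov P good hgm hgP
  let c : ((G ⧸ N) → Z) → (G ⧸ N) → Fin m → Bool := fun y v =>
    bF (fun i => y (v * QuotientGroup.mk (i : G)))
  let Ψ : (G ⧸ N) → ((G ⧸ N) → Fin m → Bool) → G → Fin L := fun v c' κ =>
    ΨF (fun g => c' (v * QuotientGroup.mk (g : G))) κ
  have hfin := count_finite ζ τ₀ hτ huni K hK hL c Ψ
  have hgood : ∀ v y, y ∈ good v ↔ ∃ κ ∈ K, τ₀ (y v) = Ψ v (c y) κ := by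
    intro v y
    simp only [good, B, c, Ψ, Set.mem_preimage, Set.mem_ofPred_eq, QuotientGroup.mk_one, mul_one,
      QuotientGroup.mk_mul, mul_assoc]
  simp only [hgood] at hmk
  have h5 : P.real {y | (Fintype.card (G ⧸ N) : ℝ) / 4 ≤
      Nat.card {v // ∃ κ ∈ K, τ₀ (y v) = Ψ v (c y) κ}} ≤ 1 / 2 := by
    rw [measureReal_def]
    calc _ ≤ (ENNReal.ofReal (1 / 2)).toReal := ENNReal.toReal_mono ENNReal.ofReal_ne_top hfin
      _ = 1 / 2 := ENNReal.toReal_ofReal (by norm_num)
  linarith

end Pool.Agent.TLA
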