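import Pool.Agent.TLA.PairDefs

/-! The counting argument (end of block D4): finite windows. -/

set_option autoImplicit false

open MeasureTheory Filter
open scoped Pointwise

namespace Pool.Agent.TLA

/-- Approximation of a finite valued measurable function by a function of finitely many
coordinates. -/
private theorem countWin_approx {I S T : Type} [MeasurableSpace S] [Finite T] [Nonempty T]
    [MeasurableSpace T] [MeasurableSingletonClass T] (ν : Measure (I → S))
    [IsProbabilityMeasure ν] (f : (I → S) → T) (hf : Measurable f) (ε : ℝ) (hε : 0 < ε) :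
    ∃ (F : Finset I) (f' : (I → S) → T), Measurable f' ∧
      (∀ x y : I → S, (∀ i ∈ F, x i = y i) → f' x = f' y) ∧
      ν.real {c | f c ≠ f' c} < ε := by
  classical
  have := Fintype.ofFinite T
  have hn : 0 < ε / (Fintype.card T + 1) := by positivity
  have h1 : ∀ t : T, ∃ (F : Finset I) (C : Set (I → S)), MeasurableSet C ∧
      (∀ x y : I → S, (∀ i ∈ F, x i = y i) → (x ∈ C ↔ y ∈ C)) ∧
      ν.real (symmDiff (f ⁻¹' {t}) C) < ε / (Fintype.card T + 1) := by
    intro t
    obtain ⟨c, hc, hlt⟩ := exists_measure_symmDiff_lt_of_generateFrom_isSetRing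
      (μ := ν) (C := measurableCylinders (fun _ : I => S))
      isSetRing_measurableCylinders
      ⟨{Set.univ}, Set.countable_singleton _, by
        rw [Set.singleton_subset_iff]; exact univ_mem_measurableCylinders _, by simp⟩
      generateFrom_measurableCylinders.symm (hf (measurableSet_singleton t))
      (ε := ENNReal.ofReal (ε / (Fintype.card T + 1))) (by simpa using hn)
    rw [mem_measurableCylinders] at hc
    obtain ⟨F, u, hu, rfl⟩ := hc
    refine ⟨F, cylinder F u, ?_, ?_, ?_⟩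
    · exact MeasurableSet.cylinder F hu
    · intro x y hxy
      rw [mem_cylinder, mem_cylinder]
      have : F.restrict x = F.restrict y := by
        funext i
        exact hxy i i.2
      rw [this]
    · rw [symmDiff_comm]
      exact ENNReal.toReal_lt_of_lt_ofReal hlt
  choose F C hCm hCF hCe using h1
  obtain ⟨φ, hφ⟩ : ∃ φ : (T → Bool) → T, ∀ u : T → Bool, ∀ t, (∀ s, u s = true ↔ s = t) →
      φ u = t := by
    refine ⟨fun u => if h : ∃ t, u t = true then h.choose else Classical.arbitrary T, ?_⟩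
    intro u t hu
    have h : ∃ t, u t = true := ⟨t, (hu t).2 rfl⟩
    simp only [h, dif_pos]
    exact (hu _).1 h.choose_spec
  have hgm : Measurable (fun (x : I → S) (t : T) => decide (x ∈ C t)) := by
    refine measurable_pi_lambda _ fun t => ?_
    refine measurable_to_bool ?_
    have : (fun x : I → S => decide (x ∈ C t)) ⁻¹' {true} = C t := by
      ext x; simp
    rw [this]
    exact hCm t
  refine ⟨Finset.univ.biUnion F, fun x => φ (fun t => decide (x ∈ C t)), ?_, ?_, ?_⟩
  · exact (Measurable.of_discrete : Measurable φ).comp hgm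
  · intro x y hxy
    have : (fun t => decide (x ∈ C t)) = fun t => decide (y ∈ C t) := by
      funext t
      exact decide_eq_decide.2 (hCF t x y fun i hi =>
        hxy i (Finset.mem_biUnion.2 ⟨t, Finset.mem_univ t, hi⟩))
    simp only [this]
  · have hsub : {c | f c ≠ φ (fun t => decide (c ∈ C t))} ⊆
        ⋃ t ∈ (Finset.univ : Finset T), symmDiff (f ⁻¹' {t}) (C t) := by
      intro c hc
      by_contra hcon
      apply hc
      symm
      apply hφ
      intro s
      have h2 : c ∉ symmDiff (f ⁻¹' {s}) (C s) := by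
        intro h3
        exact hcon (Set.mem_biUnion (Finset.mem_univ s) h3)
      rw [Set.mem_symmDiff] at h2
      simp only [Set.mem_preimage, Set.mem_singleton_iff, decide_eq_true_eq] at h2 ⊢
      tauto
    have h3 : ν.real {c | f c ≠ φ (fun t => decide (c ∈ C t))} ≤
        ∑ t : T, ν.real (symmDiff (f ⁻¹' {t}) (C t)) :=
      (measureReal_mono hsub (measure_ne_top _ _)).trans (measureReal_biUnion_finset_le _ _)
    have h4 : ∑ t : T, ν.real (symmDiff (f ⁻¹' {t}) (C t)) ≤
        Fintype.card T * (ε / (Fintype.card T + 1)) := by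
      have := Finset.sum_le_card_nsmul (Finset.univ : Finset T)
        (fun t => ν.real (symmDiff (f ⁻¹' {t}) (C t))) (ε / (Fintype.card T + 1))
        (fun t _ => (hCe t).le)
      simpa [Finset.card_univ, nsmul_eq_mul] using this
    have h5 : (Fintype.card T : ℝ) * (ε / (Fintype.card T + 1)) < ε := by
      have h6 : (0 : ℝ) < Fintype.card T + 1 := by positivity
      rw [mul_div_assoc', div_lt_iff₀ h6]
      nlinarith
    linarith

variable {G Z : Type} [Group G] [Countable G] [MeasurableSpace Z] (ζ : Measure Z)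
  [IsProbabilityMeasure ζ]

/-- A measurable finite valued function of the field `(b (g⁻¹ • x))_g` and of `k x` is
approximated by functions of finite windows. -/
theorem exists_window {m L : ℕ} (b : Bern G Z → Fin m → Bool) (hb : Measurable b)
    (k : Bern G Z → G) (hk : ∀ g, MeasurableSet (k ⁻¹' {g})) (K : Finset G)
    (hK : 7 / 8 ≤ (Bern.mu G ζ).real {x | k x ∈ K})
    (Ψ : (G → Fin m → Bool) → G → Fin L) (hΨ : ∀ g, Measurable (fun c => Ψ c g))
    (τ : Bern G Z → Fin L) (hτ : ∀ᵐ x ∂(Bern.mu G ζ), τ x = Ψ (fun g => b (g⁻¹ • x)) (k x)) :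
    ∃ (F W : Finset G) (bF : (W → Z) → Fin m → Bool)
      (ΨF : (F → Fin m → Bool) → G → Fin L), Measurable bF ∧
      3 / 4 ≤ (Bern.mu G ζ).real {x | ∃ κ ∈ K,
        τ x = ΨF (fun g => bF (fun i => x ((g : G) * (i : G)))) κ} := by
  classical
  have hne : Nonempty (Bern G Z) := nonempty_of_isProbabilityMeasure (Bern.mu G ζ)
  obtain ⟨x0⟩ := hne
  have hL : Nonempty (Fin L) := ⟨τ x0⟩
  obtain ⟨z0⟩ : Nonempty Z := ⟨x0 1⟩
  -- the field
  obtain ⟨a, ha⟩ : ∃ a : Bern G Z → (G → Fin m → Bool), a = fun x g => b (g⁻¹ • x) := ⟨_, rfl⟩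
  have ham : Measurable a := by
    rw [ha]
    exact measurable_pi_lambda _ fun g => hb.comp (measurable_const_smul g⁻¹)
  have hν : IsProbabilityMeasure ((Bern.mu G ζ).map a) :=
    Measure.isProbabilityMeasure_map ham.aemeasurable
  have hε1 : (0 : ℝ) < 1 / (32 * (K.card + 1)) := by positivity
  choose Fκ ψ hψm hψF hψe using fun κ : G =>
    countWin_approx ((Bern.mu G ζ).map a) (fun c => Ψ c κ) (hΨ κ) _ hε1
  obtain ⟨F, hF⟩ : ∃ F : Finset G, F = K.biUnion Fκ := ⟨_, rfl⟩
  have hε2 : (0 : ℝ) < 1 / (32 * (F.card + 1)) := by positivity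
  obtain ⟨W, b', hb'm, hb'W, hb'e⟩ := countWin_approx (I := G) (S := Z)
    (Measure.infinitePi (fun _ : G => ζ)) b hb _ hε2
  obtain ⟨ex, hex⟩ : ∃ ex : (W → Z) → (G → Z), ex = fun y g =>
      if h : g ∈ W then y ⟨g, h⟩ else z0 := ⟨_, rfl⟩
  have hexm : Measurable ex := by
    rw [hex]
    refine measurable_pi_lambda _ fun g => ?_
    by_cases h : g ∈ W
    · simp only [h, dif_pos]
      exact measurable_pi_apply _
    · simp only [h, dif_neg, not_false_iff]
      exact measurable_const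
  obtain ⟨eF, heF⟩ : ∃ eF : (F → Fin m → Bool) → (G → Fin m → Bool), eF = fun y g =>
      if h : g ∈ F then y ⟨g, h⟩ else fun _ => true := ⟨_, rfl⟩
  refine ⟨F, W, fun y => b' (ex y), fun c κ => ψ κ (eF c), hb'm.comp hexm, ?_⟩
  -- the function `b'` on windows
  have hbW : ∀ (x : Bern G Z) (g : G),
      b' (ex (fun i : W => x (g * (i : G)))) = b' (g⁻¹ • x) := by
    intro x g
    apply hb'W
    intro i hi
    rw [hex]
    simp only [hi, dif_pos]
    rw [Bern.smul_apply, inv_inv]
  -- bad sets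
  obtain ⟨A0, hA0⟩ : ∃ A : Set (Bern G Z), A = {x | k x ∈ K}ᶜ := ⟨_, rfl⟩
  obtain ⟨A1, hA1⟩ : ∃ A : Set (Bern G Z), A = {x | τ x = Ψ (a x) (k x)}ᶜ := ⟨_, rfl⟩
  obtain ⟨A2, hA2⟩ : ∃ A : Set (Bern G Z), A = ⋃ κ ∈ K, {x | Ψ (a x) κ ≠ ψ κ (a x)} :=
    ⟨_, rfl⟩
  obtain ⟨A3, hA3⟩ : ∃ A : Set (Bern G Z), A = ⋃ g ∈ F, {x | b (g⁻¹ • x) ≠ b' (g⁻¹ • x)} :=
    ⟨_, rfl⟩
  have hm0 : (Bern.mu G ζ).real A0 ≤ 1 / 8 := by
    have h1 : MeasurableSet {x : Bern G Z | k x ∈ K} := by
      have : {x : Bern G Z | k x ∈ K} = ⋃ g ∈ K, k ⁻¹' {g} := by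
        ext x
        simp
      rw [this]
      exact Finset.measurableSet_biUnion _ fun g _ => hk g
    rw [hA0, probReal_compl_eq_one_sub h1]
    linarith
  have hm1 : (Bern.mu G ζ).real A1 = 0 := by
    rw [hA1, measureReal_def]
    have h1 : (Bern.mu G ζ) {x | τ x = Ψ (a x) (k x)}ᶜ = 0 := by
      rw [ha]
      exact hτ
    rw [h1]
    rfl
  have hm2 : (Bern.mu G ζ).real A2 ≤ 1 / 32 := by
    have h1 : ∀ κ ∈ K, (Bern.mu G ζ).real {x | Ψ (a x) κ ≠ ψ κ (a x)} ≤
        1 / (32 * (K.card + 1)) := by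
      intro κ _
      have h2 := hψe κ
      have h3 : MeasurableSet {c | Ψ c κ ≠ ψ κ c} :=
        ((hΨ κ).prodMk (hψm κ)) (MeasurableSet.of_discrete : MeasurableSet
          {p : Fin L × Fin L | p.1 ≠ p.2})
      rw [map_measureReal_apply ham h3] at h2
      exact h2.le
    rw [hA2]
    refine (measureReal_biUnion_finset_le _ _).trans ((Finset.sum_le_card_nsmul _ _ _ h1).trans ?_)
    rw [nsmul_eq_mul, mul_one_div, div_le_div_iff₀ (by positivity) (by norm_num)]
    nlinarith
  have hm3 : (Bern.mu G ζ).real A3 ≤ 1 / 32 := by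
    have h3 : MeasurableSet {x : Bern G Z | b x ≠ b' x} :=
      (hb.prodMk hb'm) (MeasurableSet.of_discrete : MeasurableSet
          {p : (Fin m → Bool) × (Fin m → Bool) | p.1 ≠ p.2})
    have h1 : ∀ g ∈ F, (Bern.mu G ζ).real {x | b (g⁻¹ • x) ≠ b' (g⁻¹ • x)} ≤
        1 / (32 * (F.card + 1)) := by
      intro g _
      have hmp : MeasurePreserving (g⁻¹ • · : Bern G Z → Bern G Z) (Bern.mu G ζ) (Bern.mu G ζ) :=
        measurePreserving_smul g⁻¹ (Bern.mu G ζ)
      have h4 := hmp.measureReal_preimage h3.nullMeasurableSet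
      have h5 : ((g⁻¹ • ·) ⁻¹' {x : Bern G Z | b x ≠ b' x} : Set (Bern G Z)) =
        {x | b (g⁻¹ • x) ≠ b' (g⁻¹ • x)} := rfl
      rw [h5] at h4
      rw [h4]
      exact hb'e.le
    rw [hA3]
    refine (measureReal_biUnion_finset_le _ _).trans ((Finset.sum_le_card_nsmul _ _ _ h1).trans ?_)
    rw [nsmul_eq_mul, mul_one_div, div_le_div_iff₀ (by positivity) (by norm_num)]
    nlinarith
  have hcov : (Set.univ : Set (Bern G Z)) ⊆ {x | ∃ κ ∈ K,
        τ x = ψ κ (eF (fun g => b' (ex (fun i => x ((g : G) * (i : G))))))} ∪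
          (A0 ∪ (A1 ∪ (A2 ∪ A3))) := by
    intro x _
    by_contra hx
    simp only [Set.mem_union, not_or] at hx
    obtain ⟨hx, h0, h1, h2, h3⟩ := hx
    rw [hA0, Set.mem_compl_iff, not_not] at h0
    rw [hA1, Set.mem_compl_iff, not_not] at h1
    apply hx
    refine ⟨k x, h0, ?_⟩
    have h1' : τ x = Ψ (a x) (k x) := h1
    rw [h1']
    have h4 : Ψ (a x) (k x) = ψ (k x) (a x) := by
      by_contra hc
      apply h2
      rw [hA2]
      exact Set.mem_biUnion h0 hc
    rw [h4]
    apply hψF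
    intro g hg
    have hgF : g ∈ F := by
      rw [hF]
      exact Finset.mem_biUnion.2 ⟨k x, h0, hg⟩
    rw [heF]
    simp only [hgF, dif_pos]
    rw [hbW, ha]
    by_contra hc
    apply h3
    rw [hA3]
    exact Set.mem_biUnion hgF hc
  have h6 := (measureReal_mono hcov (measure_ne_top _ _) :
    (Bern.mu G ζ).real Set.univ ≤ (Bern.mu G ζ).real _)
  rw [probReal_univ] at h6
  have h7 := measureReal_union_le (μ := Bern.mu G ζ) {x | ∃ κ ∈ K,
        τ x = ψ κ (eF (fun g => b' (ex (fun i => x ((g : G) * (i : G))))))}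
          (A0 ∪ (A1 ∪ (A2 ∪ A3)))
  have h8 := measureReal_union_le (μ := Bern.mu G ζ) A0 (A1 ∪ (A2 ∪ A3))
  have h9 := measureReal_union_le (μ := Bern.mu G ζ) A1 (A2 ∪ A3)
  have h10 := measureReal_union_le (μ := Bern.mu G ζ) A2 A3
  linarith

end Pool.Agent.TLA
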