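import Mathlib

/-! Weighted systems of generators in a group and the filtration of the group algebra. -/

set_option autoImplicit false

namespace Pool.Agent.TLA

/-- The group algebra over `ZMod p`. -/
abbrev Alg (p : ℕ) (Γ : Type) [Group Γ] := MonoidAlgebra (ZMod p) Γ

section
variable (p : ℕ) {Γ : Type} [Group Γ]

/-- The group element `g` as an element of the group algebra. -/
noncomputable def gr (g : Γ) : Alg p Γ := MonoidAlgebra.single g 1

/-- The group algebra of a subgroup, inside the big group algebra. -/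
noncomputable def sa (H : Subgroup Γ) : Submodule (ZMod p) (Alg p Γ) :=
  Submodule.span (ZMod p) (gr p '' (H : Set Γ))

/-- The augmentation. -/
noncomputable def aug : Alg p Γ →ₗ[ZMod p] ZMod p :=
  (MonoidAlgebra.lift (ZMod p) (ZMod p) Γ (1 : Γ →* ZMod p)).toLinearMap

end

/-- A finite family `v` of elements of `Γ` with weights in `(0,1)`. -/
structure WSys (Γ : Type) [Group Γ] where
  /-- the index type -/
  T : Type
  /-- it is finite -/
  fin : Fintype T
  /-- with decidable equality -/
  dec : DecidableEq T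
  /-- the elements -/
  v : T → Γ
  /-- the weights -/
  w : T → ℝ
  w_pos : ∀ t, 0 < w t
  w_lt : ∀ t, w t < 1

attribute [instance] WSys.fin WSys.dec

namespace WSys

variable {Γ : Type} [Group Γ] (S : WSys Γ)

/-- The subgroup generated by the family. -/
def H : Subgroup Γ := Subgroup.closure (Set.range S.v)

/-- The weight of a word. -/
noncomputable def wt (l : List (S.T × Bool)) : ℝ := (l.map (fun q => S.w q.1)).prod

variable (p : ℕ)

/-- The letters `v - 1` and `v⁻¹ - 1`. -/
noncomputable def letter (q : S.T × Bool) : Alg p Γ :=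
  if q.2 then gr p (S.v q.1) - 1 else gr p (S.v q.1)⁻¹ - 1

/-- Products of letters. -/
noncomputable def mono (l : List (S.T × Bool)) : Alg p Γ := (l.map (S.letter p)).prod

/-- The filtration: the span of the products of letters of weight at most `c`. -/
noncomputable def M (c : ℝ) : Submodule (ZMod p) (Alg p Γ) :=
  Submodule.span (ZMod p) {a | ∃ l : List (S.T × Bool), S.wt l ≤ c ∧ a = S.mono p l}

/-- The norm of an element of the group algebra. -/
noncomputable def N (a : Alg p Γ) : ℝ := sInf {c : ℝ | 0 < c ∧ a ∈ S.M p c}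

/-- The norm of a group element. -/
noncomputable def n (g : Γ) : ℝ := S.N p (gr p g - 1)

/-- The map `a ↦ ∑ a_t (v_t - 1)`. -/
noncomputable def d (a : S.T → Alg p Γ) : Alg p Γ := ∑ t, a t * (gr p (S.v t) - 1)

/-- The relation module is generated by the family `ρ`. -/
def Gen {R : Type} (ρ : R → S.T → Alg p Γ) : Prop :=
  (∀ r t, ρ r t ∈ sa p S.H) ∧ (∀ r, S.d p (ρ r) = 0) ∧
    ∀ a : S.T → Alg p Γ, (∀ t, a t ∈ sa p S.H) → S.d p a = 0 →
      a ∈ Submodule.span (ZMod p) {b : S.T → Alg p Γ | ∃ h ∈ S.H, ∃ r, b = fun t => gr p h * ρ r t}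

/-- The system has a presentation of weighted deficiency `D`. -/
def HasDef (D : ℝ) : Prop :=
  ∃ (R : Type) (_ : Countable R) (ρ : R → S.T → Alg p Γ) (ν : R → ℝ),
    S.Gen p ρ ∧ (∀ r, 0 < ν r) ∧ Summable ν ∧ (∀ r t, ρ r t ∈ S.M p (ν r / S.w t)) ∧
      D = ∑ t, S.w t - 1 - ∑' r, ν r

/-- The filtration is invariant under conjugation by the whole group. -/
def Inv : Prop := ∀ (γ : Γ) (t : S.T), gr p (γ * S.v t * γ⁻¹) - 1 ∈ S.M p (S.w t)

/-- The factor by which the deficiency grows. -/
noncomputable def _root_.Pool.Agent.TLA.tau (c : ℝ) : ℝ := ∑ k ∈ Finset.range p, c ^ k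

end WSys

end Pool.Agent.TLA
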