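import Pool.Agent.TLA.FiltB

/-! More facts on the filtration. -/

set_option autoImplicit false

namespace Pool.Agent.TLA

variable (p : ℕ) {Γ : Type} [Group Γ]

namespace WSys

variable (S : WSys Γ)

theorem v_mem_M (t : S.T) : gr p (S.v t) - 1 ∈ S.M p (S.w t) := by
  have h := S.mono_mem p [(t, true)]
  have e1 : S.mono p [(t, true)] = gr p (S.v t) - 1 := by simp [mono, letter]
  have e2 : S.wt [(t, true)] = S.w t := by simp [wt]
  rwa [e1, e2] at h

theorem filt_inv_mul (g : Γ) : gr p g⁻¹ * gr p g = 1 := by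
  rw [← gr_mul, inv_mul_cancel, gr_one]

theorem filt_mul_inv (g : Γ) : gr p g * gr p g⁻¹ = 1 := by
  rw [← gr_mul, mul_inv_cancel, gr_one]

theorem filt_inv_eq (g : Γ) : gr p g⁻¹ - 1 = -(gr p g⁻¹ * (gr p g - 1)) := by
  rw [mul_sub, filt_inv_mul, mul_one, neg_sub]

theorem inv_mem_M {c : ℝ} {g : Γ} (hg : g ∈ S.H) (h : gr p g - 1 ∈ S.M p c) :
    gr p g⁻¹ - 1 ∈ S.M p c := by
  rw [filt_inv_eq]
  exact neg_mem (S.M_mul_mem_left p (gr_mem_sa p (S.H.inv_mem hg)) h)

theorem mul_mem_M' {c : ℝ} {g h : Γ} (hg : g ∈ S.H) (hh : h ∈ S.H) (h1 : gr p g - 1 ∈ S.M p c)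
    (h2 : gr p h - 1 ∈ S.M p c) : gr p (g * h) - 1 ∈ S.M p c := by
  have e : gr p (g * h) - 1 = (gr p g - 1) * gr p h + (gr p h - 1) := by
    rw [gr_mul, sub_mul, one_mul]
    abel
  rw [e]
  exact add_mem (S.M_mul_mem_right p h1 (gr_mem_sa p hh)) h2

theorem comm_mem_M {c d : ℝ} {g h : Γ} (hg : g ∈ S.H) (hh : h ∈ S.H)
    (h1 : gr p g - 1 ∈ S.M p c) (h2 : gr p h - 1 ∈ S.M p d) :
    gr p (g * h * g⁻¹ * h⁻¹) - 1 ∈ S.M p (c * d) := by
  have e : gr p (g * h * g⁻¹ * h⁻¹) - 1 =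
      ((gr p g - 1) * (gr p h - 1) - (gr p h - 1) * (gr p g - 1)) * (gr p g⁻¹ * gr p h⁻¹) := by
    have e1 : (gr p g - 1) * (gr p h - 1) - (gr p h - 1) * (gr p g - 1) =
        gr p g * gr p h - gr p h * gr p g := by
      noncomm_ring
    have e2 : gr p h * gr p g * (gr p g⁻¹ * gr p h⁻¹) = 1 := by
      rw [mul_assoc, ← mul_assoc (gr p g), filt_mul_inv, one_mul, filt_mul_inv]
    rw [e1, sub_mul, e2, gr_mul, gr_mul, gr_mul]
    noncomm_ring
  rw [e]
  refine S.M_mul_mem_right p (sub_mem (S.M_mul_mem p h1 h2) ?_)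
    (sa_mul_mem p (gr_mem_sa p (S.H.inv_mem hg)) (gr_mem_sa p (S.H.inv_mem hh)))
  rw [mul_comm c d]
  exact S.M_mul_mem p h2 h1

theorem filt_pow_mem {c : ℝ} {a : Alg p Γ} (h : a ∈ S.M p c) (k : ℕ) :
    a ^ k ∈ S.M p (c ^ k) := by
  induction k with
  | zero =>
    rw [pow_zero, pow_zero, S.M_eq_sa p le_rfl]
    exact one_mem_sa p _
  | succ k ih =>
    rw [pow_succ, pow_succ]
    exact S.M_mul_mem p ih h

theorem filt_gr_pow (g : Γ) (k : ℕ) : gr p (g ^ k) = gr p g ^ k := by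
  induction k with
  | zero => rw [pow_zero, pow_zero, gr_one]
  | succ k ih => rw [pow_succ, pow_succ, gr_mul, ih]

theorem pow_mem_M [Fact p.Prime] {c : ℝ} {g : Γ} (h : gr p g - 1 ∈ S.M p c) :
    gr p (g ^ p) - 1 ∈ S.M p (c ^ p) := by
  have : CharP (Alg p Γ) p :=
    charP_of_injective_algebraMap (FaithfulSMul.algebraMap_injective (ZMod p) (Alg p Γ)) p
  have e : gr p (g ^ p) - 1 = (gr p g - 1) ^ p := by
    rw [sub_pow_char_of_commute _ (Commute.one_right _), one_pow, filt_gr_pow]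
  rw [e]
  exact S.filt_pow_mem p h p

theorem filt_exists_bound : ∃ m : ℝ, 0 < m ∧ m < 1 ∧ ∀ t, S.w t ≤ m := by
  by_cases hT : Nonempty S.T
  · obtain ⟨t₀, ht⟩ := Finite.exists_max S.w
    exact ⟨S.w t₀, S.w_pos t₀, S.w_lt t₀, ht⟩
  · exact ⟨1 / 2, by norm_num, by norm_num, fun t => absurd ⟨t⟩ hT⟩

theorem filt_wt_le {m : ℝ} (h0 : 0 < m) (hm : ∀ t, S.w t ≤ m) (l : List (S.T × Bool)) :
    S.wt l ≤ m ^ l.length := by
  induction l with
  | nil => simp [wt]
  | cons q l ih =>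
    have e : S.wt (q :: l) = S.w q.1 * S.wt l := by simp [wt]
    rw [e, List.length_cons, pow_succ, mul_comm]
    exact mul_le_mul ih (hm _) (S.w_pos _).le (pow_nonneg h0.le _)

theorem filt_finite {c : ℝ} (hc : 0 < c) : {l : List (S.T × Bool) | c < S.wt l}.Finite := by
  obtain ⟨m, h0, h1, hm⟩ := S.filt_exists_bound
  obtain ⟨L, hL⟩ := exists_pow_lt_of_lt_one hc h1
  refine (List.finite_length_lt (S.T × Bool) L).subset ?_
  intro l hl
  by_contra hlt
  have hlt' : L ≤ l.length := not_lt.1 hlt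
  have h2 : m ^ l.length ≤ m ^ L := pow_le_pow_of_le_one h0.le h1.le hlt'
  have h3 := S.filt_wt_le h0 hm l
  have h4 : c < S.wt l := hl
  linarith

/-- `M` is right continuous. -/
theorem exists_M_eq {c : ℝ} (hc : 0 < c) : ∃ c' : ℝ, c < c' ∧ S.M p c' = S.M p c := by
  have hfin := S.filt_finite hc
  obtain ⟨c', h1, h2⟩ : ∃ c' : ℝ, c < c' ∧ ∀ l : List (S.T × Bool), c < S.wt l → c' < S.wt l := by
    rcases Set.eq_empty_or_nonempty {l : List (S.T × Bool) | c < S.wt l} with h | h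
    · refine ⟨c + 1, by linarith, fun l hl => ?_⟩
      have h3 : l ∈ {l : List (S.T × Bool) | c < S.wt l} := hl
      rw [h] at h3
      exact absurd h3 (Set.notMem_empty _)
    · obtain ⟨l₀, hl₀, hmin⟩ := Set.exists_min_image _ S.wt hfin h
      have hl₀' : c < S.wt l₀ := hl₀
      refine ⟨(c + S.wt l₀) / 2, by linarith, fun l hl => ?_⟩
      have h3 := hmin l hl
      linarith
  refine ⟨c', h1, le_antisymm ?_ (S.M_mono p h1.le)⟩
  unfold M
  refine Submodule.span_mono ?_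
  rintro a ⟨l, hl, rfl⟩
  refine ⟨l, ?_, rfl⟩
  by_contra hlt
  have := h2 l (not_le.1 hlt)
  linarith

theorem filt_aug_sub (g : Γ) : aug p (gr p g - 1) = 0 := by
  rw [map_sub, aug_gr, aug_one, sub_self]

theorem filt_aug_letter (q : S.T × Bool) : aug p (S.letter p q) = 0 := by
  unfold letter
  split_ifs
  · exact filt_aug_sub p _
  · exact filt_aug_sub p _

theorem aug_eq_zero {c : ℝ} (hc : c < 1) {a : Alg p Γ} (ha : a ∈ S.M p c) : aug p a = 0 := by
  unfold M at ha
  induction ha using Submodule.span_induction with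
  | mem a ha =>
    obtain ⟨l, hl, rfl⟩ := ha
    rcases l with _ | ⟨q, l⟩
    · exfalso
      have e : S.wt [] = 1 := by simp [wt]
      rw [e] at hl
      linarith
    · have e : S.mono p (q :: l) = S.letter p q * S.mono p l := by simp [mono]
      rw [e, aug_mul, filt_aug_letter, zero_mul]
  | zero => rw [map_zero]
  | add a b _ _ ha hb => rw [map_add, ha, hb, add_zero]
  | smul k a _ ha => rw [map_smul, ha, smul_zero]

theorem filt_aug_d (b : S.T → Alg p Γ) : aug p (S.d p b) = 0 := by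
  unfold d
  rw [map_sum]
  refine Finset.sum_eq_zero fun t _ => ?_
  rw [aug_mul, filt_aug_sub, mul_zero]

theorem filt_d_single (t : S.T) (a : Alg p Γ) :
    S.d p (Pi.single t a) = a * (gr p (S.v t) - 1) := by
  unfold d
  rw [Finset.sum_eq_single t]
  · rw [Pi.single_eq_same]
  · intro s _ hs
    rw [Pi.single_eq_of_ne hs, zero_mul]
  · intro h
    exact absurd (Finset.mem_univ t) h

/-- The elements `d b` with `b` in the filtration. -/
def filtD (c : ℝ) : Submodule (ZMod p) (Alg p Γ) where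
  carrier := {a | ∃ b : S.T → Alg p Γ, (∀ t, b t ∈ S.M p (c / S.w t)) ∧ S.d p b = a}
  zero_mem' := ⟨0, fun t => zero_mem _, by simp [d]⟩
  add_mem' := by
    rintro _ _ ⟨b, hb, rfl⟩ ⟨b', hb', rfl⟩
    refine ⟨b + b', fun t => add_mem (hb t) (hb' t), ?_⟩
    simp [d, add_mul, Finset.sum_add_distrib]
  smul_mem' := by
    rintro k _ ⟨b, hb, rfl⟩
    refine ⟨k • b, fun t => Submodule.smul_mem _ k (hb t), ?_⟩
    simp [d, Finset.smul_sum]

theorem filtD_single {c : ℝ} {t : S.T} {a : Alg p Γ} (ha : a ∈ S.M p (c / S.w t)) :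
    a * (gr p (S.v t) - 1) ∈ S.filtD p c := by
  refine ⟨Pi.single t a, fun s => ?_, S.filt_d_single p t a⟩
  by_cases h : s = t
  · subst h
    rw [Pi.single_eq_same]
    exact ha
  · rw [Pi.single_eq_of_ne h]
    exact zero_mem _

theorem filtD_mono {c : ℝ} {l : List (S.T × Bool)} (hl : S.wt l ≤ c) (hne : l ≠ []) :
    S.mono p l ∈ S.filtD p c := by
  obtain ⟨l', ⟨t, e⟩, rfl⟩ : ∃ l' q, l = l' ++ [q] :=
    ⟨l.dropLast, l.getLast hne, (List.dropLast_append_getLast hne).symm⟩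
  have hw : S.wt (l' ++ [(t, e)]) = S.wt l' * S.w t := by
    rw [wt_append]
    simp [wt]
  rw [hw] at hl
  have hm : S.mono p l' ∈ S.M p (c / S.w t) :=
    S.M_mono p ((le_div_iff₀ (S.w_pos t)).2 hl) (S.mono_mem p l')
  have hmono : S.mono p (l' ++ [(t, e)]) = S.mono p l' * S.letter p (t, e) := by
    rw [mono_append]
    simp [mono]
  rw [hmono]
  cases e with
  | true =>
    have : S.letter p (t, true) = gr p (S.v t) - 1 := by simp [letter]
    rw [this]
    exact S.filtD_single p hm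
  | false =>
    have : S.letter p (t, false) = -(gr p (S.v t)⁻¹ * (gr p (S.v t) - 1)) := by
      rw [← filt_inv_eq]
      simp [letter]
    rw [this, mul_neg, ← mul_assoc]
    exact neg_mem (S.filtD_single p
      (S.M_mul_mem_right p hm (gr_mem_sa p (S.H.inv_mem (S.v_mem_H t)))))

/-- `M` is generated by the `v - 1` as a left module, with weights. -/
theorem exists_d_eq {c : ℝ} (hc : 0 < c) {a : Alg p Γ} (ha : a ∈ S.M p c) (h0 : aug p a = 0) :
    ∃ b : S.T → Alg p Γ, (∀ t, b t ∈ S.M p (c / S.w t)) ∧ S.d p b = a := by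
  have key : ∃ k : ZMod p, a - k • (1 : Alg p Γ) ∈ S.filtD p c := by
    clear h0
    unfold M at ha
    induction ha using Submodule.span_induction with
    | mem a ha =>
      obtain ⟨l, hl, rfl⟩ := ha
      by_cases hne : l = []
      · subst hne
        refine ⟨1, ?_⟩
        have e : S.mono p [] = 1 := by simp [mono]
        rw [e, one_smul, sub_self]
        exact zero_mem _
      · refine ⟨0, ?_⟩
        rw [zero_smul, sub_zero]
        exact S.filtD_mono p hl hne
    | zero =>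
      refine ⟨0, ?_⟩
      rw [zero_smul, sub_zero]
      exact zero_mem _
    | add a b _ _ ha hb =>
      obtain ⟨k, hk⟩ := ha
      obtain ⟨l, hl⟩ := hb
      refine ⟨k + l, ?_⟩
      have e : a + b - (k + l) • (1 : Alg p Γ) = (a - k • (1 : Alg p Γ)) +
          (b - l • (1 : Alg p Γ)) := by
        rw [add_smul]
        abel
      rw [e]
      exact add_mem hk hl
    | smul r a _ ha =>
      obtain ⟨k, hk⟩ := ha
      refine ⟨r * k, ?_⟩
      have e : r • a - (r * k) • (1 : Alg p Γ) = r • (a - k • (1 : Alg p Γ)) := by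
        rw [smul_sub, mul_smul]
      rw [e]
      exact Submodule.smul_mem _ r hk
  obtain ⟨k, hk⟩ := key
  have hk0 : k = 0 := by
    obtain ⟨b, -, hb⟩ := hk
    have h1 := S.filt_aug_d p b
    rw [hb, map_sub, h0, map_smul, aug_one, zero_sub, smul_eq_mul, mul_one, neg_eq_zero] at h1
    exact h1
  rw [hk0, zero_smul, sub_zero] at hk
  exact hk

theorem d_mem_M {c : ℝ} {b : S.T → Alg p Γ} (hb : ∀ t, b t ∈ S.M p (c / S.w t)) :
    S.d p b ∈ S.M p c := by
  unfold d
  refine Submodule.sum_mem _ fun t _ => ?_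
  have h := S.M_mul_mem p (hb t) (S.v_mem_M p t)
  rwa [div_mul_cancel₀ _ (S.w_pos t).ne'] at h

end WSys

end Pool.Agent.TLA
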