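import Pool.Agent.TLA.Defs

/-! Basic facts on the group algebra. -/

set_option autoImplicit false

namespace Pool.Agent.TLA

variable (p : ℕ) {Γ : Type} [Group Γ]

theorem gr_one : gr p (1 : Γ) = 1 := by
  rw [gr, MonoidAlgebra.one_def]

theorem gr_mul (g h : Γ) : gr p (g * h) = gr p g * gr p h := by
  rw [gr, gr, gr, MonoidAlgebra.single_mul_single, mul_one]

theorem gr_mem_sa {H : Subgroup Γ} {h : Γ} (hh : h ∈ H) : gr p h ∈ sa p H :=
  Submodule.subset_span ⟨h, hh, rfl⟩

theorem one_mem_sa (H : Subgroup Γ) : (1 : Alg p Γ) ∈ sa p H := by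
  rw [← gr_one]
  exact gr_mem_sa p (one_mem H)

theorem sa_mul_mem {H : Subgroup Γ} {a b : Alg p Γ} (ha : a ∈ sa p H) (hb : b ∈ sa p H) :
    a * b ∈ sa p H := by
  unfold sa at ha hb ⊢
  induction ha using Submodule.span_induction with
  | mem x hx =>
    obtain ⟨g, hg, rfl⟩ := hx
    induction hb using Submodule.span_induction with
    | mem y hy =>
      obtain ⟨h, hh, rfl⟩ := hy
      rw [← gr_mul]
      exact gr_mem_sa p (mul_mem hg hh)
    | zero => rw [mul_zero]; exact zero_mem _
    | add x y _ _ h1 h2 => rw [mul_add]; exact add_mem h1 h2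
    | smul c x _ h1 => rw [mul_smul_comm]; exact Submodule.smul_mem _ c h1
  | zero => rw [zero_mul]; exact zero_mem _
  | add x y _ _ h1 h2 => rw [add_mul]; exact add_mem h1 h2
  | smul c x _ h1 => rw [smul_mul_assoc]; exact Submodule.smul_mem _ c h1

theorem sa_mono {H K : Subgroup Γ} (h : H ≤ K) : sa p H ≤ sa p K :=
  Submodule.span_mono (Set.image_mono h)

theorem mem_sa_iff {H : Subgroup Γ} (a : Alg p Γ) :
    a ∈ sa p H ↔ ∀ g, g ∉ H → a.coeff g = 0 := by
  classical
  constructor
  · intro ha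
    unfold sa at ha
    induction ha using Submodule.span_induction with
    | mem x hx =>
      obtain ⟨h, hh, rfl⟩ := hx
      intro g hg
      have hne : g ≠ h := fun e => hg (e ▸ hh)
      rw [gr, MonoidAlgebra.coeff_single, Finsupp.single_eq_of_ne hne]
    | zero => intro g _; rfl
    | add x y _ _ h1 h2 =>
      intro g hg
      rw [MonoidAlgebra.coeff_add, Finsupp.add_apply, h1 g hg, h2 g hg, add_zero]
    | smul c x _ h1 =>
      intro g hg
      rw [MonoidAlgebra.coeff_smul, Finsupp.smul_apply, h1 g hg, smul_zero]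
  · intro ha
    have e : a = ∑ g ∈ a.coeff.support, a.coeff g • gr p g := by
      ext g
      rw [MonoidAlgebra.coeff_sum, Finsupp.finsetSum_apply]
      have h1 : ∀ k ∈ a.coeff.support, (a.coeff k • gr p k : Alg p Γ).coeff g =
          if k = g then a.coeff k else 0 := by
        intro k _
        rw [MonoidAlgebra.coeff_smul, gr, MonoidAlgebra.coeff_single, Finsupp.smul_apply,
          Finsupp.single_apply]
        split_ifs
        · rw [smul_eq_mul, mul_one]
        · rw [smul_zero]
      rw [Finset.sum_congr rfl h1, Finset.sum_ite_eq']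
      split_ifs with h
      · rfl
      · exact Finsupp.notMem_support_iff.1 h
    rw [e]
    refine Submodule.sum_mem _ fun g hg => Submodule.smul_mem _ _ (gr_mem_sa p ?_)
    by_contra h
    exact (Finsupp.mem_support_iff.1 hg) (ha g h)

theorem gr_mem_sa_iff [Fact p.Prime] {H : Subgroup Γ} (g : Γ) : gr p g ∈ sa p H ↔ g ∈ H := by
  refine ⟨fun h => ?_, gr_mem_sa p⟩
  by_contra hg
  have h1 := (mem_sa_iff p (gr p g)).1 h g hg
  rw [gr, MonoidAlgebra.coeff_single, Finsupp.single_eq_same] at h1
  exact one_ne_zero h1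

theorem sa_inf (H K : Subgroup Γ) : sa p (H ⊓ K) = sa p H ⊓ sa p K := by
  refine le_antisymm (le_inf (sa_mono p inf_le_left) (sa_mono p inf_le_right)) ?_
  rintro a ⟨h1, h2⟩
  rw [mem_sa_iff]
  intro g hg
  by_cases h : g ∈ H
  · exact (mem_sa_iff p a).1 h2 g (fun hk => hg ⟨h, hk⟩)
  · exact (mem_sa_iff p a).1 h1 g h

theorem aug_gr (g : Γ) : aug p (gr p g) = 1 := by
  simp [aug, gr]

theorem aug_one : aug p (1 : Alg p Γ) = 1 := by
  rw [← gr_one, aug_gr]

theorem aug_mul (a b : Alg p Γ) : aug p (a * b) = aug p a * aug p b := by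
  simp only [aug, AlgHom.toLinearMap_apply, map_mul]

end Pool.Agent.TLA
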