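import Pool.Agent.TLA.FiltA

/-! Basic facts on the filtration. -/

set_option autoImplicit false

namespace Pool.Agent.TLA

variable (p : ℕ) {Γ : Type} [Group Γ]

namespace WSys

variable (S : WSys Γ)

theorem wt_pos (l : List (S.T × Bool)) : 0 < S.wt l := by
  induction l with
  | nil => simp [wt]
  | cons q l ih =>
    have e : S.wt (q :: l) = S.w q.1 * S.wt l := by simp [wt]
    rw [e]
    exact mul_pos (S.w_pos _) ih

theorem wt_le_one (l : List (S.T × Bool)) : S.wt l ≤ 1 := by
  induction l with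
  | nil => simp [wt]
  | cons q l ih =>
    have e : S.wt (q :: l) = S.w q.1 * S.wt l := by simp [wt]
    rw [e]
    exact mul_le_one₀ (S.w_lt _).le (S.wt_pos l).le ih

theorem wt_append (l l' : List (S.T × Bool)) : S.wt (l ++ l') = S.wt l * S.wt l' := by
  simp [wt]

theorem mono_append (l l' : List (S.T × Bool)) :
    S.mono p (l ++ l') = S.mono p l * S.mono p l' := by
  simp [mono]

theorem v_mem_H (t : S.T) : S.v t ∈ S.H :=
  Subgroup.subset_closure ⟨t, rfl⟩

theorem M_mono {c d : ℝ} (h : c ≤ d) : S.M p c ≤ S.M p d := by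
  unfold M
  refine Submodule.span_mono ?_
  rintro a ⟨l, hl, rfl⟩
  exact ⟨l, hl.trans h, rfl⟩

theorem M_eq_bot {c : ℝ} (h : c ≤ 0) : S.M p c = ⊥ := by
  unfold M
  rw [Submodule.span_eq_bot]
  rintro a ⟨l, hl, rfl⟩
  have := S.wt_pos l
  linarith

theorem mono_mem (l : List (S.T × Bool)) : S.mono p l ∈ S.M p (S.wt l) :=
  Submodule.subset_span ⟨l, le_rfl, rfl⟩

private theorem filtB_letter_mem (q : S.T × Bool) : S.letter p q ∈ sa p S.H := by
  unfold letter
  split_ifs
  · exact sub_mem (gr_mem_sa p (S.v_mem_H _)) (one_mem_sa p _)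
  · exact sub_mem (gr_mem_sa p (S.H.inv_mem (S.v_mem_H _))) (one_mem_sa p _)

private theorem filtB_mono_mem (l : List (S.T × Bool)) : S.mono p l ∈ sa p S.H := by
  induction l with
  | nil =>
    have e : S.mono p [] = 1 := by simp [mono]
    rw [e]
    exact one_mem_sa p _
  | cons q l ih =>
    have e : S.mono p (q :: l) = S.letter p q * S.mono p l := by simp [mono]
    rw [e]
    exact sa_mul_mem p (S.filtB_letter_mem p q) ih

theorem M_le_sa (c : ℝ) : S.M p c ≤ sa p S.H := by
  unfold M
  rw [Submodule.span_le]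
  rintro a ⟨l, _, rfl⟩
  exact S.filtB_mono_mem p l

theorem M_mul_mem {c d : ℝ} {a b : Alg p Γ} (ha : a ∈ S.M p c) (hb : b ∈ S.M p d) :
    a * b ∈ S.M p (c * d) := by
  unfold M at ha
  induction ha using Submodule.span_induction with
  | mem a ha =>
    obtain ⟨l, hl, rfl⟩ := ha
    unfold M at hb
    induction hb using Submodule.span_induction with
    | mem b hb =>
      obtain ⟨l', hl', rfl⟩ := hb
      rw [← mono_append]
      refine Submodule.subset_span ⟨l ++ l', ?_, rfl⟩
      rw [wt_append]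
      exact mul_le_mul hl hl' (S.wt_pos l').le ((S.wt_pos l).le.trans hl)
    | zero =>
      rw [mul_zero]
      exact zero_mem _
    | add x y _ _ hx hy =>
      rw [mul_add]
      exact add_mem hx hy
    | smul k x _ hx =>
      rw [mul_smul_comm]
      exact Submodule.smul_mem _ k hx
  | zero =>
    rw [zero_mul]
    exact zero_mem _
  | add x y _ _ hx hy =>
    rw [add_mul]
    exact add_mem hx hy
  | smul k x _ hx =>
    rw [smul_mul_assoc]
    exact Submodule.smul_mem _ k hx

private theorem filtB_one_mem {c : ℝ} (h : 1 ≤ c) : (1 : Alg p Γ) ∈ S.M p c :=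
  Submodule.subset_span ⟨[], by simpa [wt] using h, by simp [mono]⟩

private theorem filtB_mul_one {c : ℝ} {a b : Alg p Γ} (ha : a ∈ S.M p c) (hb : b ∈ S.M p 1) :
    a * b ∈ S.M p c := by
  have h := S.M_mul_mem p ha hb
  rwa [mul_one] at h

private theorem filtB_letter_one (q : S.T × Bool) : S.letter p q ∈ S.M p 1 := by
  have h := S.mono_mem p [q]
  have e : S.mono p [q] = S.letter p q := by simp [mono]
  rw [e] at h
  exact S.M_mono p (S.wt_le_one _) h

private theorem filtB_gr_mem {g : Γ} (hg : g ∈ S.H) :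
    gr p g ∈ S.M p 1 ∧ gr p g⁻¹ ∈ S.M p 1 := by
  unfold H at hg
  induction hg using Subgroup.closure_induction with
  | mem x hx =>
    obtain ⟨t, rfl⟩ := hx
    constructor
    · have e : gr p (S.v t) = S.letter p (t, true) + 1 := by simp [letter]
      rw [e]
      exact add_mem (S.filtB_letter_one p _) (S.filtB_one_mem p le_rfl)
    · have e : gr p (S.v t)⁻¹ = S.letter p (t, false) + 1 := by simp [letter]
      rw [e]
      exact add_mem (S.filtB_letter_one p _) (S.filtB_one_mem p le_rfl)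
  | one =>
    rw [inv_one, gr_one]
    exact ⟨S.filtB_one_mem p le_rfl, S.filtB_one_mem p le_rfl⟩
  | mul x y _ _ hx hy =>
    rw [mul_inv_rev, gr_mul, gr_mul]
    exact ⟨S.filtB_mul_one p hx.1 hy.1, S.filtB_mul_one p hy.2 hx.2⟩
  | inv x _ hx =>
    rw [inv_inv]
    exact ⟨hx.2, hx.1⟩

/-- The group algebra of `H` is spanned by the products of letters. -/
theorem M_eq_sa {c : ℝ} (h : 1 ≤ c) : S.M p c = sa p S.H := by
  refine le_antisymm (S.M_le_sa p c) ?_
  unfold sa
  rw [Submodule.span_le]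
  rintro _ ⟨g, hg, rfl⟩
  exact S.M_mono p h (S.filtB_gr_mem p hg).1

theorem M_mul_mem_right {c : ℝ} {a b : Alg p Γ} (ha : a ∈ S.M p c) (hb : b ∈ sa p S.H) :
    a * b ∈ S.M p c := by
  rw [← S.M_eq_sa p le_rfl] at hb
  exact S.filtB_mul_one p ha hb

theorem M_mul_mem_left {c : ℝ} {a b : Alg p Γ} (ha : a ∈ sa p S.H) (hb : b ∈ S.M p c) :
    a * b ∈ S.M p c := by
  rw [← S.M_eq_sa p le_rfl] at ha
  have h := S.M_mul_mem p ha hb
  rwa [one_mul] at h

end WSys

end Pool.Agent.TLA
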