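import Mathlib
import Pool.Agent.LeftAct.Defs

/-! Auxiliary facts for the final theorem. -/

set_option autoImplicit false

open MeasureTheory Filter TopologicalSpace
open Pool.Agent.LeftAct

namespace Pool.Agent.TLA

theorem countable_of_fg {G : Type} [Group G] [Group.FG G] : Countable G := by
  obtain ⟨α, hα, φ, hφ⟩ :=
    (Group.fg_iff_exists_freeGroup_hom_surjective_finite (G := G)).1 inferInstance
  have h1 : Countable (FreeGroup α) := by
    unfold FreeGroup
    infer_instance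
  exact hφ.countable

/-- The point `i / L` of the unit interval. -/
theorem finalAux_mem (L : ℕ) (i : ℕ) (hL : 0 < L) (hi : i ≤ L) :
    ((i : ℝ) / L) ∈ Set.Icc (0 : ℝ) 1 := by
  have hL' : (0 : ℝ) < L := by exact_mod_cast hL
  refine ⟨by positivity, ?_⟩
  rw [div_le_one hL']
  exact_mod_cast hi

theorem finalAux_vol (L : ℕ) (hL : 0 < L) (a : ℝ) (h : a = (L : ℝ)⁻¹) :
    ENNReal.ofReal a = (L : ENNReal)⁻¹ := by
  have hL' : (0 : ℝ) < L := by exact_mod_cast hL
  rw [h, ENNReal.ofReal_inv_of_pos hL', ENNReal.ofReal_natCast]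

/-- The uniform partitions of the unit interval. -/
theorem unit_uni (L₀ : ℕ) : ∃ L : ℕ, L₀ ≤ L ∧ ∃ τ₀ : unitInterval → Fin L, Measurable τ₀ ∧
    ∀ i, (volume : Measure unitInterval) (τ₀ ⁻¹' {i}) = (L : ENNReal)⁻¹ := by
  refine ⟨L₀ + 1, Nat.le_succ _, ?_⟩
  set L : ℕ := L₀ + 1 with hLdef
  have hL : 0 < L := Nat.succ_pos _
  have hL' : (0 : ℝ) < L := by exact_mod_cast hL
  refine ⟨fun x => ⟨min ⌊(L : ℝ) * (x : ℝ)⌋₊ L₀, by omega⟩, ?_, ?_⟩
  · have hm : Measurable fun x : unitInterval => min ⌊(L : ℝ) * (x : ℝ)⌋₊ L₀ := by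
      have h1 : Measurable fun x : unitInterval => ⌊(L : ℝ) * (x : ℝ)⌋₊ := by
        fun_prop
      exact h1.min measurable_const
    refine measurable_to_countable' ?_
    intro i
    have : (fun x : unitInterval => (⟨min ⌊(L : ℝ) * (x : ℝ)⌋₊ L₀, by omega⟩ : Fin L)) ⁻¹' {i}
        = (fun x : unitInterval => min ⌊(L : ℝ) * (x : ℝ)⌋₊ L₀) ⁻¹' {(i : ℕ)} := by
      ext x
      simp [Fin.ext_iff]
    rw [this]
    exact hm (measurableSet_singleton _)
  · rintro ⟨i, hi⟩
    have hLx : ∀ x : unitInterval, 0 ≤ (L : ℝ) * (x : ℝ) := fun x =>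
      mul_nonneg hL'.le x.2.1
    rcases Nat.lt_or_ge i L₀ with h | h
    · have hset : (fun x : unitInterval =>
          (⟨min ⌊(L : ℝ) * (x : ℝ)⌋₊ L₀, by omega⟩ : Fin L)) ⁻¹' {⟨i, hi⟩}
          = Set.Ico (⟨(i : ℝ) / L, finalAux_mem L i hL hi.le⟩ : unitInterval)
            ⟨((i + 1 : ℕ) : ℝ) / L, finalAux_mem L (i + 1) hL hi⟩ := by
        ext x
        simp only [Set.mem_preimage, Set.mem_singleton_iff, Fin.mk.injEq, Set.mem_Ico,
          ← Subtype.coe_le_coe, ← Subtype.coe_lt_coe]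
        rw [div_le_iff₀ hL', lt_div_iff₀ hL']
        have h2 : min ⌊(L : ℝ) * (x : ℝ)⌋₊ L₀ = i ↔ ⌊(L : ℝ) * (x : ℝ)⌋₊ = i := by omega
        rw [h2, Nat.floor_eq_iff (hLx x)]
        push_cast
        rw [mul_comm (L : ℝ) (x : ℝ)]
      rw [hset, unitInterval.volume_Ico]
      apply finalAux_vol L hL
      push_cast
      field_simp
      ring
    · have hi' : i = L₀ := by omega
      have hset : (fun x : unitInterval =>
          (⟨min ⌊(L : ℝ) * (x : ℝ)⌋₊ L₀, by omega⟩ : Fin L)) ⁻¹' {⟨i, hi⟩}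
          = Set.Ici (⟨(i : ℝ) / L, finalAux_mem L i hL hi.le⟩ : unitInterval) := by
        ext x
        simp only [Set.mem_preimage, Set.mem_singleton_iff, Fin.mk.injEq, Set.mem_Ici,
          ← Subtype.coe_le_coe]
        rw [div_le_iff₀ hL']
        have h2 : min ⌊(L : ℝ) * (x : ℝ)⌋₊ L₀ = i ↔ i ≤ ⌊(L : ℝ) * (x : ℝ)⌋₊ := by omega
        rw [h2, Nat.le_floor_iff (hLx x), mul_comm (L : ℝ) (x : ℝ)]
      rw [hset, unitInterval.volume_Ici]
      apply finalAux_vol L hL
      have : (L : ℝ) = (i : ℝ) + 1 := by rw [hi', hLdef]; push_cast; rfl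
      simp only
      rw [eq_comm, inv_eq_one_div, div_eq_iff hL'.ne']
      rw [sub_mul, div_mul_cancel₀ _ hL'.ne', this]
      ring

theorem unit_half : ∃ t : Set unitInterval, MeasurableSet t ∧
    0 < (volume : Measure unitInterval) t ∧ (volume : Measure unitInterval) t < 1 := by
  refine ⟨Set.Iic ⟨1 / 2, by norm_num, by norm_num⟩, measurableSet_Iic, ?_, ?_⟩
  · rw [unitInterval.volume_Iic]
    simp
  · rw [unitInterval.volume_Iic]
    rw [← ENNReal.ofReal_one]
    apply (ENNReal.ofReal_lt_ofReal_iff one_pos).2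
    norm_num

/-- For a discrete group, a Borel map into the closed subsets is a measurable map into the
subsets. -/
theorem measurable_of_effros {G X : Type} [TopologicalSpace G] [DiscreteTopology G]
    [MeasurableSpace X] (f : X → Closeds G) (hf : @Measurable X (Closeds G) _ (effros G) f) :
    Measurable (fun x => (f x : Set G)) := by
  rw [measurable_set_iff]
  intro a
  have h1 : @MeasurableSet (Closeds G) (effros G)
      {F : Closeds G | ((F : Set G) ∩ {a}).Nonempty} :=
    MeasurableSpace.measurableSet_generateFrom ⟨{a}, isOpen_discrete _, rfl⟩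
  have h2 : MeasurableSet (f ⁻¹' {F : Closeds G | ((F : Set G) ∩ {a}).Nonempty}) := hf h1
  refine measurableSet_setOfPred.1 ?_
  convert h2 using 1
  ext x
  simp [Set.inter_singleton_nonempty]

end Pool.Agent.TLA
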