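import Pool.Agent.TLA.GapA

/-! Property (T) from the relations (block A). -/

set_option autoImplicit false

open scoped InnerProductSpace

namespace Pool.Agent.TLA

/-- Cauchy–Schwarz for a positive semidefinite operator. -/
private theorem gapB_cs {H : Type} [NormedAddCommGroup H] [InnerProductSpace ℝ H]
    (A : H →L[ℝ] H) (hA : ∀ u v, ⟪A u, v⟫_ℝ = ⟪u, A v⟫_ℝ) (hpos : ∀ u, 0 ≤ ⟪A u, u⟫_ℝ) (u w : H) :
    ⟪A u, w⟫_ℝ ^ 2 ≤ ⟪A u, u⟫_ℝ * ⟪A w, w⟫_ℝ := by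
  have h : ∀ t : ℝ, 0 ≤ ⟪A w, w⟫_ℝ * (t * t) + (2 * ⟪A u, w⟫_ℝ) * t + ⟪A u, u⟫_ℝ := by
    intro t
    have h1 := hpos (u + t • w)
    have h2 : ⟪A (u + t • w), u + t • w⟫_ℝ =
        ⟪A w, w⟫_ℝ * (t * t) + (2 * ⟪A u, w⟫_ℝ) * t + ⟪A u, u⟫_ℝ := by
      have h3 : ⟪A w, u⟫_ℝ = ⟪A u, w⟫_ℝ := by
        rw [hA w u, real_inner_comm]
      simp only [map_add, map_smul, inner_add_left, inner_add_right, inner_smul_left,
        inner_smul_right, h3, RCLike.conj_to_real]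
      ring
    rw [h2] at h1
    exact h1
  have hd := discrim_le_zero h
  unfold discrim at hd
  nlinarith [hd]

/-- The inequality on the range. -/
private theorem gapB_range {H : Type} [NormedAddCommGroup H] [InnerProductSpace ℝ H]
    (A : H →L[ℝ] H) (hA : ∀ u v, ⟪A u, v⟫_ℝ = ⟪u, A v⟫_ℝ) (hpos : ∀ u, 0 ≤ ⟪A u, u⟫_ℝ) {κ : ℝ}
    (h : ∀ u, κ * ⟪A u, u⟫_ℝ ≤ ‖A u‖ ^ 2) (u : H) :
    κ * ‖A u‖ ^ 2 ≤ ⟪A (A u), A u⟫_ℝ := by
  have h1 := gapB_cs A hA hpos u (A u)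
  rw [real_inner_self_eq_norm_sq] at h1
  have h2 := h u
  have h3 := hpos (A u)
  have h4 := hpos u
  rcases eq_or_lt_of_le (sq_nonneg ‖A u‖) with h0 | h0
  · rw [← h0]
    simpa using h3
  · by_contra hlt
    push Not at hlt
    have h5 : ⟪A (A u), A u⟫_ℝ * ‖A u‖ ^ 2 < κ * ‖A u‖ ^ 2 * ‖A u‖ ^ 2 :=
      mul_lt_mul_of_pos_right hlt h0
    have hκ : 0 < κ := by
      by_contra hk
      push Not at hk
      nlinarith
    have h6 : κ * (‖A u‖ ^ 2) ^ 2 ≤ κ * (⟪A u, u⟫_ℝ * ⟪A (A u), A u⟫_ℝ) :=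
      mul_le_mul_of_nonneg_left h1 hκ.le
    have h7 : κ * ⟪A u, u⟫_ℝ * ⟪A (A u), A u⟫_ℝ ≤ ‖A u‖ ^ 2 * ⟪A (A u), A u⟫_ℝ :=
      mul_le_mul_of_nonneg_right h2 h3
    nlinarith

/-- A positive operator with `κ ⟨A u, u⟩ ≤ |A u|²` has a spectral gap. -/
theorem gap_of_sq {H : Type} [NormedAddCommGroup H] [InnerProductSpace ℝ H] [CompleteSpace H]
    (A : H →L[ℝ] H) (hA : ∀ u v, ⟪A u, v⟫_ℝ = ⟪u, A v⟫_ℝ) (hpos : ∀ u, 0 ≤ ⟪A u, u⟫_ℝ) {κ : ℝ}
    (hκ : 0 < κ) (h : ∀ u, κ * ⟪A u, u⟫_ℝ ≤ ‖A u‖ ^ 2) (v : H) :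
    ∃ v₀ : H, A v₀ = 0 ∧ κ * ‖v - v₀‖ ^ 2 ≤ ⟪A v, v⟫_ℝ := by
  have _hκ := hκ
  set R : Submodule ℝ H := (LinearMap.range (A : H →ₗ[ℝ] H)).topologicalClosure with hR
  have hcl : IsClosed (R : Set H) := Submodule.isClosed_topologicalClosure _
  have : CompleteSpace R := hcl.completeSpace_coe
  have hin : ∀ w ∈ R, κ * ‖w‖ ^ 2 ≤ ⟪A w, w⟫_ℝ := by
    intro w hw
    have hset : IsClosed {w : H | κ * ‖w‖ ^ 2 ≤ ⟪A w, w⟫_ℝ} := by
      apply isClosed_le
      · fun_prop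
      · fun_prop
    have hsub : (LinearMap.range (A : H →ₗ[ℝ] H) : Set H) ⊆
        {w : H | κ * ‖w‖ ^ 2 ≤ ⟪A w, w⟫_ℝ} := by
      rintro _ ⟨u, rfl⟩
      exact gapB_range A hA hpos h u
    have := closure_minimal hsub hset
    apply this
    have h1 : w ∈ (R : Set H) := hw
    rw [hR, Submodule.topologicalClosure_coe] at h1
    exact h1
  obtain ⟨w, hw, z, hz, hvz⟩ := R.exists_add_mem_mem_orthogonal v
  have hz0 : A z = 0 := by
    have h1 : ∀ u, ⟪A u, z⟫_ℝ = 0 := by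
      intro u
      apply (Submodule.mem_orthogonal R z).1 hz
      exact Submodule.le_topologicalClosure _ ⟨u, rfl⟩
    have h2 := h1 (A z)
    rw [hA, real_inner_self_eq_norm_sq] at h2
    simpa using h2
  refine ⟨z, hz0, ?_⟩
  have h1 : v - z = w := by rw [hvz]; simp
  rw [h1]
  have h2 : ⟪A v, v⟫_ℝ = ⟪A w, w⟫_ℝ := by
    rw [hvz, map_add, hz0, add_zero, inner_add_right, hA w z, hz0, inner_zero_right, add_zero]
  rw [h2]
  exact hin w hw

/-- The average as a continuous linear map. -/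
private noncomputable def gapB_avgL {H : Type} [NormedAddCommGroup H] [InnerProductSpace ℝ H]
    (p : ℕ) (X : H ≃ₗᵢ[ℝ] H) : H →L[ℝ] H :=
  (p : ℝ)⁻¹ • ∑ a ∈ Finset.range p, ((X ^ a : H ≃ₗᵢ[ℝ] H).toContinuousLinearEquiv : H →L[ℝ] H)

private theorem gapB_avgL_apply {H : Type} [NormedAddCommGroup H] [InnerProductSpace ℝ H]
    [CompleteSpace H] (p : ℕ) (X : H ≃ₗᵢ[ℝ] H) (u : H) : gapB_avgL p X u = avg p X u := by
  unfold gapB_avgL avg
  simp

/-- `⟨Q u, u⟩ = |Q u|²`. -/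
private theorem gapB_q {H : Type} [NormedAddCommGroup H] [InnerProductSpace ℝ H] [CompleteSpace H]
    {p : ℕ} (hp : 0 < p) {X : H ≃ₗᵢ[ℝ] H} (hX : X ^ p = 1) (u : H) :
    ⟪u - avg p X u, u⟫_ℝ = ‖u - avg p X u‖ ^ 2 := by
  have h1 : ⟪u - avg p X u, avg p X u⟫_ℝ = 0 := by
    rw [inner_sub_left, inner_avg hX u (avg p X u), avg_avg hp hX, sub_self]
  rw [← real_inner_self_eq_norm_sq]
  conv_rhs => rw [inner_sub_right, h1, sub_zero]

/-- The sum of the projections. -/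
private noncomputable def gapB_A {H : Type} [NormedAddCommGroup H] [InnerProductSpace ℝ H]
    (p : ℕ) {n : ℕ} (X : Fin n → (H ≃ₗᵢ[ℝ] H)) : H →L[ℝ] H :=
  ∑ i, (ContinuousLinearMap.id ℝ H - gapB_avgL p (X i))

private theorem gapB_A_apply {H : Type} [NormedAddCommGroup H] [InnerProductSpace ℝ H]
    [CompleteSpace H] (p : ℕ) {n : ℕ} (X : Fin n → (H ≃ₗᵢ[ℝ] H)) (u : H) :
    gapB_A p X u = ∑ i, (u - avg p (X i) u) := by
  unfold gapB_A
  rw [sum_apply]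
  apply Finset.sum_congr rfl
  intro i _
  rw [← gapB_avgL_apply]
  rfl

/-- Summing the pair inequalities. -/
private theorem gapB_pairs {n : ℕ} {ε : ℝ} (q : Fin n → ℝ) (B : Fin n → Fin n → ℝ)
    (hB : ∀ i, B i i = q i)
    (h : ∀ i j, i ≠ j → -(ε * (q i + q j)) ≤ 2 * B i j) :
    (1 - ((n : ℝ) - 1) * ε) * ∑ i, q i ≤ ∑ i, ∑ j, B i j := by
  have h1 : ∀ i j, (if i = j then 2 * q i else -(ε * (q i + q j))) ≤ 2 * B i j := by
    intro i j
    by_cases hij : i = j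
    · subst hij
      simp [hB]
    · simp only [hij, if_false]
      exact h i j hij
  have h2 : ∑ i, ∑ j, (if i = j then 2 * q i else -(ε * (q i + q j))) ≤
      ∑ i : Fin n, ∑ j : Fin n, 2 * B i j :=
    Finset.sum_le_sum fun i _ => Finset.sum_le_sum fun j _ => h1 i j
  have h3 : ∀ i j : Fin n, (if i = j then 2 * q i else -(ε * (q i + q j))) =
      -(ε * q i) - ε * q j + (if i = j then 2 * q i + 2 * ε * q i else 0) := by
    intro i j
    by_cases hij : i = j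
    · subst hij
      simp
      ring
    · simp only [hij, if_false]
      ring
  simp only [h3, Finset.sum_add_distrib, Finset.sum_sub_distrib, Finset.sum_neg_distrib,
    Finset.sum_ite_eq, Finset.mem_univ, if_true, Finset.sum_const, Finset.card_univ,
    Fintype.card_fin, nsmul_eq_mul, ← Finset.mul_sum] at h2
  nlinarith [h2]

/-- Groups with the relations have a spectral gap. -/
theorem hasGap_of_tRel {p n : ℕ} [Fact p.Prime] (hn : ((n : ℝ) - 1) ^ 2 < p) (hn1 : 1 ≤ n)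
    {G : Type} [Group G] (x : Fin n → G) (h : TRel p n x) : ∃ C : ℝ, 0 ≤ C ∧ HasGap x C := by
  have hp : 0 < p := (Fact.out : p.Prime).pos
  have hp' : (0 : ℝ) < p := by exact_mod_cast hp
  have hsq : 0 < Real.sqrt p := Real.sqrt_pos.2 hp'
  set κ : ℝ := 1 - ((n : ℝ) - 1) * (Real.sqrt p)⁻¹ with hκd
  have hn0 : (0 : ℝ) ≤ (n : ℝ) - 1 := by
    have : (1 : ℝ) ≤ n := by exact_mod_cast hn1
    linarith
  have hκ : 0 < κ := by
    have h1 : (n : ℝ) - 1 < Real.sqrt p := Real.lt_sqrt_of_sq_lt hn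
    have h2 : ((n : ℝ) - 1) * (Real.sqrt p)⁻¹ < 1 := by
      rw [← div_eq_mul_inv, div_lt_one hsq]
      exact h1
    linarith
  refine ⟨(p : ℝ) ^ 2 / κ, by positivity, ?_⟩
  intro H _ _ _ π v
  set X : Fin n → (H ≃ₗᵢ[ℝ] H) := fun i => π (x i) with hX
  have hXp : ∀ i, X i ^ p = 1 := by
    intro i
    rw [hX]
    simp only
    rw [← map_pow, h.pow i, map_one]
  have hZX : ∀ i j, i ≠ j → Commute (X i * X j * (X i)⁻¹ * (X j)⁻¹) (X i) := by
    intro i j hij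
    have h1 := (h.comm i j hij).map π
    simpa only [map_mul, map_inv] using h1
  have hZY : ∀ i j, i ≠ j → Commute (X i * X j * (X i)⁻¹ * (X j)⁻¹) (X j) := by
    intro i j hij
    have h1 := (hZX j i (Ne.symm hij)).inv_left
    have h2 : (X j * X i * (X j)⁻¹ * (X i)⁻¹)⁻¹ = X i * X j * (X i)⁻¹ * (X j)⁻¹ := by group
    rwa [h2] at h1
  have hA : ∀ u v, ⟪gapB_A p X u, v⟫_ℝ = ⟪u, gapB_A p X v⟫_ℝ := by
    intro u v
    rw [gapB_A_apply, gapB_A_apply, sum_inner, inner_sum]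
    apply Finset.sum_congr rfl
    intro i _
    rw [inner_sub_left, inner_sub_right, inner_avg (hXp i)]
  have hq : ∀ u, ⟪gapB_A p X u, u⟫_ℝ = ∑ i, ‖u - avg p (X i) u‖ ^ 2 := by
    intro u
    rw [gapB_A_apply, sum_inner]
    apply Finset.sum_congr rfl
    intro i _
    exact gapB_q hp (hXp i) u
  have hpos : ∀ u, 0 ≤ ⟪gapB_A p X u, u⟫_ℝ := by
    intro u
    rw [hq]
    positivity
  have hineq : ∀ u, κ * ⟪gapB_A p X u, u⟫_ℝ ≤ ‖gapB_A p X u‖ ^ 2 := by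
    intro u
    rw [hq, gapB_A_apply, ← real_inner_self_eq_norm_sq, sum_inner]
    simp only [inner_sum]
    rw [hκd]
    apply gapB_pairs (fun i => ‖u - avg p (X i) u‖ ^ 2)
      (fun i j => ⟪u - avg p (X i) u, u - avg p (X j) u⟫_ℝ)
    · intro i
      exact real_inner_self_eq_norm_sq _
    · intro i j hij
      exact pair_ineq (hXp i) (hXp j) (hZX i j hij) (hZY i j hij) u
  obtain ⟨v₀, hv0, hle⟩ := gap_of_sq (gapB_A p X) hA hpos hκ hineq v
  refine ⟨v₀, ?_, ?_⟩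
  · have h1 : ∑ i, ‖v₀ - avg p (X i) v₀‖ ^ 2 = 0 := by
      rw [← hq, hv0, inner_zero_left]
    have h2 : ∀ i, X i v₀ = v₀ := by
      intro i
      have h3 := (Finset.sum_eq_zero_iff_of_nonneg (fun i _ => sq_nonneg _)).1 h1 i
        (Finset.mem_univ i)
      have h4 : v₀ - avg p (X i) v₀ = 0 := by simpa using h3
      have h5 : v₀ = avg p (X i) v₀ := sub_eq_zero.1 h4
      conv_lhs => rw [h5]
      rw [apply_avg hp (hXp i), ← h5]
    intro g
    have hg : g ∈ Subgroup.closure (Set.range x) := by rw [h.gen]; trivial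
    induction hg using Subgroup.closure_induction with
    | mem y hy =>
      obtain ⟨i, rfl⟩ := hy
      exact h2 i
    | one => rw [map_one]; rfl
    | mul a b _ _ iha ihb =>
      rw [map_mul]
      change π a (π b v₀) = v₀
      rw [ihb, iha]
    | inv a _ iha =>
      rw [map_inv]
      change (π a).symm v₀ = v₀
      conv_lhs => rw [← iha]
      exact (π a).symm_apply_apply v₀
  · have h1 : ⟪gapB_A p X v, v⟫_ℝ ≤ (p : ℝ) ^ 2 * ∑ i, ‖v - X i v‖ ^ 2 := by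
      rw [hq, Finset.mul_sum]
      apply Finset.sum_le_sum
      intro i _
      rw [← mul_pow]
      exact pow_le_pow_left₀ (norm_nonneg _) (norm_sub_avg_le hp v) 2
    have h2 := hle.trans h1
    rw [div_mul_eq_mul_div, le_div_iff₀ hκ, mul_comm]
    exact h2

end Pool.Agent.TLA
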