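import Mathlib

/-! Properties of groups used in the construction. -/

set_option autoImplicit false

namespace Pool.Agent.TLA

/-- Residually a finite `p`-group. -/
def ResP (p : ℕ) (G : Type) [Group G] : Prop :=
  ∀ g : G, g ≠ 1 → ∃ U : Subgroup G, U.Normal ∧ (∃ k, U.index = p ^ k) ∧ g ∉ U

/-- Every finitely generated subgroup is finite or of finite index. -/
def FinOrFI (G : Type) [Group G] : Prop := ∀ Λ : Subgroup G, Λ.FG → Finite Λ ∨ Λ.index ≠ 0

/-- Every nontrivial normal subgroup has finite index. -/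
def JustInf (G : Type) [Group G] : Prop := ∀ N : Subgroup G, N.Normal → N ≠ ⊥ → N.index ≠ 0

/-- The relations used for property (T). -/
structure TRel (p n : ℕ) {G : Type} [Group G] (x : Fin n → G) : Prop where
  gen : Subgroup.closure (Set.range x) = ⊤
  pow : ∀ i, x i ^ p = 1
  comm : ∀ i j, i ≠ j → Commute (x i * x j * (x i)⁻¹ * (x j)⁻¹) (x i)

/-- Spectral gap: almost invariant vectors are close to invariant vectors. -/
def HasGap {G : Type} [Group G] {n : ℕ} (x : Fin n → G) (C : ℝ) : Prop :=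
  ∀ (H : Type) [NormedAddCommGroup H] [InnerProductSpace ℝ H] [CompleteSpace H]
    (π : G →* (H ≃ₗᵢ[ℝ] H)) (v : H),
    ∃ v₀ : H, (∀ g, π g v₀ = v₀) ∧ ‖v - v₀‖ ^ 2 ≤ C * ∑ i, ‖v - π (x i) v‖ ^ 2

end Pool.Agent.TLA
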