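import Pool.Agent.TLA.StageF
import Pool.Agent.TLA.GroupDefs

/-! The residually finite group in which finitely generated subgroups are finite or of finite
index (block B8). -/

set_option autoImplicit false

namespace Pool.Agent.TLA

/-- The free system on `n` letters of weight `w`. -/
private noncomputable def GroupEx_S (n : ℕ) (w : ℝ) (h0 : 0 < w) (h1 : w < 1) :
    WSys (FreeGroup (Fin n)) :=
  WSys.mk (Fin n) inferInstance inferInstance (fun t => FreeGroup.of t) (fun _ => w)
    (fun _ => h0) (fun _ => h1)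

private theorem GroupEx_H (n : ℕ) (w : ℝ) (h0 : 0 < w) (h1 : w < 1) :
    (GroupEx_S n w h0 h1).H = ⊤ :=
  FreeGroup.closure_range_of (Fin n)

private theorem GroupEx_mem (n : ℕ) (w : ℝ) (h0 : 0 < w) (h1 : w < 1) (x : FreeGroup (Fin n)) :
    x ∈ (GroupEx_S n w h0 h1).H := by
  rw [GroupEx_H]
  exact Subgroup.mem_top x

private theorem GroupEx_inv (p n : ℕ) (w : ℝ) (h0 : 0 < w) (h1 : w < 1) :
    (GroupEx_S n w h0 h1).Inv p := by
  intro γ t
  have e : gr p (γ * (GroupEx_S n w h0 h1).v t * γ⁻¹) - 1 =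
      gr p γ * (gr p ((GroupEx_S n w h0 h1).v t) - 1) * gr p γ⁻¹ := by
    rw [mul_sub, sub_mul, mul_one, ← gr_mul, ← gr_mul, ← gr_mul, mul_inv_cancel, gr_one]
  rw [e]
  exact WSys.M_mul_mem_right p _ (WSys.M_mul_mem_left p _
    (gr_mem_sa p (GroupEx_mem n w h0 h1 _)) (WSys.v_mem_M p _ t))
    (gr_mem_sa p (GroupEx_mem n w h0 h1 _))

/-- The index type of the relators. -/
private abbrev GroupEx_J (n : ℕ) : Type := Fin n ⊕ {q : Fin n × Fin n // q.1 ≠ q.2}

/-- The relators. -/
private def GroupEx_g (p n : ℕ) : GroupEx_J n → FreeGroup (Fin n)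
  | Sum.inl i => FreeGroup.of i ^ p
  | Sum.inr q => (FreeGroup.of q.1.1 * FreeGroup.of q.1.2 * (FreeGroup.of q.1.1)⁻¹ *
      (FreeGroup.of q.1.2)⁻¹) * FreeGroup.of q.1.1 *
      (FreeGroup.of q.1.1 * FreeGroup.of q.1.2 * (FreeGroup.of q.1.1)⁻¹ *
      (FreeGroup.of q.1.2)⁻¹)⁻¹ * (FreeGroup.of q.1.1)⁻¹

/-- The bounds for the norms of the relators. -/
private noncomputable def GroupEx_m (p n : ℕ) (w : ℝ) : GroupEx_J n → ℝ
  | Sum.inl _ => w ^ p
  | Sum.inr _ => w ^ 3

private theorem GroupEx_card (n : ℕ) :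
    (Fintype.card {q : Fin n × Fin n // q.1 ≠ q.2} : ℝ) = n * (n - 1) := by
  have h1 : Fintype.card {q : Fin n × Fin n // q.1 ≠ q.2} = n * n - n := by
    rw [Fintype.card_subtype]
    have h2 : (Finset.univ.filter fun q : Fin n × Fin n => q.1 ≠ q.2) =
        (Finset.univ : Finset (Fin n)).offDiag := by
      ext q
      simp
    rw [h2, Finset.offDiag_card, Finset.card_univ, Fintype.card_fin]
  have h3 : n ≤ n * n := Nat.le_mul_self n
  rw [h1, Nat.cast_sub h3, Nat.cast_mul]
  ring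

private theorem GroupEx_tsum (p n : ℕ) (w : ℝ) :
    ∑' j, GroupEx_m p n w j = (n : ℝ) * w ^ p + n * (n - 1) * w ^ 3 := by
  rw [tsum_fintype, Fintype.sum_sum_type]
  have h1 : ∑ i : Fin n, GroupEx_m p n w (Sum.inl i) = (n : ℝ) * w ^ p := by
    simp [GroupEx_m]
  have h2 : ∑ q : {q : Fin n × Fin n // q.1 ≠ q.2}, GroupEx_m p n w (Sum.inr q) =
      n * (n - 1) * w ^ 3 := by
    have h3 : ∀ q : {q : Fin n × Fin n // q.1 ≠ q.2}, GroupEx_m p n w (Sum.inr q) = w ^ 3 :=
      fun _ => rfl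
    rw [Finset.sum_congr rfl fun q _ => h3 q, Finset.sum_const, nsmul_eq_mul, Finset.card_univ,
      GroupEx_card]
  rw [h1, h2]

private theorem GroupEx_norm (p n : ℕ) [Fact p.Prime] (w : ℝ) (h0 : 0 < w) (h1 : w < 1)
    (j : GroupEx_J n) :
    (GroupEx_S n w h0 h1).n p (GroupEx_g p n j) ≤ GroupEx_m p n w j := by
  have hv : ∀ i : Fin n, (GroupEx_S n w h0 h1).n p (FreeGroup.of i) ≤ w :=
    fun i => WSys.n_v_le p (GroupEx_S n w h0 h1) i
  have hpos : ∀ x, 0 ≤ (GroupEx_S n w h0 h1).n p x := WSys.n_nonneg p _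
  rcases j with i | q
  · exact (WSys.n_pow_le p _ (GroupEx_mem n w h0 h1 _)).trans
      (pow_le_pow_left₀ (hpos _) (hv i) p)
  · have hz := WSys.n_comm_le p (GroupEx_S n w h0 h1) (GroupEx_mem n w h0 h1
      (FreeGroup.of q.1.1)) (GroupEx_mem n w h0 h1 (FreeGroup.of q.1.2))
    have hz2 := hz.trans (mul_le_mul (hv _) (hv _) (hpos _) h0.le)
    have h2 := WSys.n_comm_le p (GroupEx_S n w h0 h1) (GroupEx_mem n w h0 h1
      (FreeGroup.of q.1.1 * FreeGroup.of q.1.2 * (FreeGroup.of q.1.1)⁻¹ *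
      (FreeGroup.of q.1.2)⁻¹)) (GroupEx_mem n w h0 h1 (FreeGroup.of q.1.1))
    have h3 := h2.trans (mul_le_mul hz2 (hv _) (hpos _) (mul_nonneg h0.le h0.le))
    have e : w * w * w = w ^ 3 := by ring
    rw [e] at h3
    exact h3

/-- The starting point: the free group modulo the relations. -/
theorem exists_start (p n : ℕ) [Fact p.Prime] (w : ℝ) (h0 : 0 < w) (h1 : w < 1)
    (hdef : (n : ℝ) * w ^ p + n * (n - 1) * w ^ 3 < n * w - 1) :
    ∃ R : Subgroup (FreeGroup (Fin n)), GoodF p R ⊤ ∧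
      (∀ i, (FreeGroup.of i) ^ p ∈ R) ∧
      ∀ i j : Fin n, i ≠ j →
        (FreeGroup.of i * FreeGroup.of j * (FreeGroup.of i)⁻¹ * (FreeGroup.of j)⁻¹) *
        FreeGroup.of i *
        (FreeGroup.of i * FreeGroup.of j * (FreeGroup.of i)⁻¹ * (FreeGroup.of j)⁻¹)⁻¹ *
        (FreeGroup.of i)⁻¹ ∈ R := by
  let S := GroupEx_S n w h0 h1
  have hH : S.H = ⊤ := GroupEx_H n w h0 h1
  have hN : S.H.Normal := by
    rw [hH]
    infer_instance
  have hk : S.H.index = p ^ 0 := by
    rw [hH, Subgroup.index_top, pow_zero]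
  have hD : S.HasDef p ((Fintype.card (Fin n) : ℝ) * w - 1) := WSys.free_hasDef p (Fin n) w h0 h1
  have hlt : (p : ℝ) ^ 0 * ∑' j, GroupEx_m p n w j < (Fintype.card (Fin n) : ℝ) * w - 1 := by
    rw [GroupEx_tsum, pow_zero, one_mul, Fintype.card_fin]
    exact hdef
  have hm : ∀ j, 0 < GroupEx_m p n w j := by
    rintro (i | q)
    · exact pow_pos h0 p
    · exact pow_pos h0 3
  obtain ⟨_, h3⟩ := kill S hN 0 hk (GroupEx_inv p n w h0 h1) hD (GroupEx_g p n)
    (GroupEx_m p n w) (fun j => GroupEx_mem n w h0 h1 _) hm (Summable.of_finite)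
    (fun j => GroupEx_norm p n w h0 h1 j) hlt
  rw [hH] at h3
  refine ⟨Subgroup.normalClosure (Set.range (GroupEx_g p n)), ⟨_, inferInstance,
    QuotientGroup.mk' _, QuotientGroup.mk'_surjective _, QuotientGroup.ker_mk' _, le_top, h3⟩,
    fun i => ?_, fun i j hij => ?_⟩
  · exact Subgroup.subset_normalClosure ⟨Sum.inl i, rfl⟩
  · exact Subgroup.subset_normalClosure ⟨Sum.inr ⟨(i, j), hij⟩, rfl⟩

/-- The infinite residually-`p` group. -/
theorem exists_resP (p n : ℕ) [Fact p.Prime] (w : ℝ) (h0 : 0 < w) (h1 : w < 1)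
    (hdef : (n : ℝ) * w ^ p + n * (n - 1) * w ^ 3 < n * w - 1) :
    ∃ (G : Type) (_ : Group G) (x : Fin n → G), TRel p n x ∧ Infinite G ∧ ResP p G ∧
      FinOrFI G := by
  classical
  obtain ⟨R, hR, hpow, hcomm⟩ := exists_start p n w h0 h1 hdef
  have hcount : Countable (FreeGroup (Fin n)) := by
    unfold FreeGroup
    infer_instance
  obtain ⟨s, hs⟩ := exists_surjective_nat (Finset (FreeGroup (Fin n)))
  have hfg : Group.FG (FreeGroup (Fin n)) := inferInstance
  obtain ⟨R', K', hR0, hR1, hK1, hRK, hKn, hKp, hKi, hst⟩ := exists_seq hR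
    (fun i => Subgroup.closure (s i : Set (FreeGroup (Fin n)))) (fun i => ⟨s i, rfl⟩)
  have hRm : Monotone R' := monotone_nat_of_le_succ hR1
  have hKa : Antitone K' := antitone_nat_of_succ_le hK1
  have hRK' : ∀ i j, R' i ≤ K' j := fun i j =>
    (hRm (le_max_left i j)).trans ((hRK _).trans (hKa (le_max_right i j)))
  set K : Subgroup (FreeGroup (Fin n)) := ⨅ i, K' i with hKdef
  have hKK : ∀ i, K ≤ K' i := fun i => iInf_le K' i
  have hRK2 : ∀ i, R' i ≤ K := fun i => le_iInf fun j => hRK' i j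
  have hn : K.Normal := Subgroup.normal_iInf_normal hKn
  have hsurj : Function.Surjective (QuotientGroup.mk' K) := QuotientGroup.mk'_surjective K
  have hker : (QuotientGroup.mk' K).ker = K := QuotientGroup.ker_mk' K
  have hone : ∀ y, y ∈ R → QuotientGroup.mk' K y = 1 := by
    intro y hy
    rw [← MonoidHom.mem_ker, hker]
    exact hRK2 0 (by rw [hR0]; exact hy)
  refine ⟨FreeGroup (Fin n) ⧸ K, inferInstance, fun i => QuotientGroup.mk' K (FreeGroup.of i),
    ⟨?_, ?_, ?_⟩, ?_, ?_, ?_⟩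
  · -- generation
    have e : Set.range (fun i => QuotientGroup.mk' K (FreeGroup.of i)) =
        QuotientGroup.mk' K '' Set.range (FreeGroup.of : Fin n → FreeGroup (Fin n)) := by
      rw [← Set.range_comp]
      rfl
    rw [e, ← MonoidHom.map_closure, FreeGroup.closure_range_of,
      Subgroup.map_top_of_surjective _ hsurj]
  · intro i
    rw [← map_pow]
    exact hone _ (hpow i)
  · intro i j hij
    have h2 := hone _ (hcomm i j hij)
    rw [map_mul, map_mul, map_mul, map_inv, map_inv, mul_inv_eq_one, mul_inv_eq_iff_eq_mul] at h2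
    rw [map_mul, map_mul, map_mul, map_inv, map_inv] at h2
    exact h2
  · -- infinite
    by_contra hfin
    rw [not_infinite_iff_finite] at hfin
    have hK0 : K.index ≠ 0 := Subgroup.index_ne_zero_of_finite
    have h3 := hKi (K.index + 1)
    have h4 : (K' (K.index + 1 + 1)).index ≤ K.index :=
      Nat.le_of_dvd (Nat.pos_of_ne_zero hK0) (Subgroup.index_dvd_of_le (hKK _))
    omega
  · -- residually p
    intro g hg
    obtain ⟨y, rfl⟩ := hsurj g
    have hy : y ∉ K := by
      intro hy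
      rw [← hker] at hy
      exact hg hy
    rw [hKdef, Subgroup.mem_iInf, not_forall] at hy
    obtain ⟨i, hi⟩ := hy
    have hle : (QuotientGroup.mk' K).ker ≤ K' i := by
      rw [hker]
      exact hKK i
    obtain ⟨k, hk⟩ := hKp i
    refine ⟨(K' i).map (QuotientGroup.mk' K), (hKn i).map _ hsurj, ⟨k, ?_⟩, ?_⟩
    · rw [Subgroup.index_map_eq _ hsurj hle, hk]
    · intro hmem
      rw [← Subgroup.mem_comap, Subgroup.comap_map_eq_self hle] at hmem
      exact hi hmem
  · -- finite or of finite index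
    rintro Λ ⟨T, hT⟩
    obtain ⟨T', hT'⟩ : ∃ T' : Finset (FreeGroup (Fin n)),
        (QuotientGroup.mk' K) '' (T' : Set (FreeGroup (Fin n))) = (T : Set _) := by
      refine ⟨T.image (Function.surjInv hsurj), ?_⟩
      ext g
      simp only [Finset.coe_image, Set.mem_image, Finset.mem_coe]
      constructor
      · rintro ⟨_, ⟨g', hg', rfl⟩, rfl⟩
        rw [Function.surjInv_eq hsurj]
        exact hg'
      · intro hg
        exact ⟨_, ⟨g, hg, rfl⟩, Function.surjInv_eq hsurj g⟩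
    obtain ⟨i, hi⟩ := hs T'
    have hΛ : (Subgroup.closure (s i : Set (FreeGroup (Fin n)))).map (QuotientGroup.mk' K) =
        Λ := by
      rw [hi, MonoidHom.map_closure, hT', hT]
    rcases hst i with h2 | ⟨L, hL1, hL2, hL3⟩
    · right
      have h3 : Subgroup.closure (s i : Set (FreeGroup (Fin n))) ⊔ R' (i + 1) ≤
          Λ.comap (QuotientGroup.mk' K) := by
        refine sup_le ?_ ?_
        · rw [← Subgroup.map_le_iff_le_comap, hΛ]
        · refine (hRK2 (i + 1)).trans ?_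
          intro y hy
          rw [← hker] at hy
          have h5 : QuotientGroup.mk' K y = 1 := hy
          rw [Subgroup.mem_comap, h5]
          exact Λ.one_mem
      have h4 : (Λ.comap (QuotientGroup.mk' K)).index ≠ 0 := by
        intro h5
        have h6 := Subgroup.index_dvd_of_le h3
        rw [h5, zero_dvd_iff] at h6
        exact h2 h6
      rwa [Subgroup.index_comap_of_surjective _ hsurj] at h4
    · left
      have hLK : L ≤ K := le_iInf fun j => hL3 (K' j) (hKn j) (hKp j) (hRK' (i + 1) j)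
      have h3 : K.relIndex (Subgroup.closure (s i : Set (FreeGroup (Fin n)))) ≠ 0 := by
        intro h5
        exact hL2 (Nat.eq_zero_of_zero_dvd (h5 ▸ Subgroup.relIndex_dvd_of_le_left _ hLK))
      have h4 : Nat.card Λ ≠ 0 := by
        rw [← hΛ, ← Subgroup.relIndex_ker, hker]
        exact h3
      exact Nat.finite_of_card_ne_zero h4

end Pool.Agent.TLA
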