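import Pool.Agent.TLA.NoRed
import Pool.Agent.TLA.GapB
import Pool.Agent.TLA.GroupEx
import Pool.Agent.TLA.FinalAux

/-! The negative answer. -/

set_option autoImplicit false

open MeasureTheory Filter TopologicalSpace
open scoped Pointwise
open Pool.Agent.LeftAct

namespace Pool.Agent.TLA

/-- The group. -/
theorem exists_the_group : ∃ (G : Type) (_ : Group G) (x : Fin 7 → G) (C : ℝ), TRel 37 7 x ∧
    Infinite G ∧ ResP 37 G ∧ FinOrFI G ∧ JustInf G ∧ 0 ≤ C ∧ HasGap x C := by
  haveI : Fact (Nat.Prime 37) := ⟨by norm_num⟩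
  obtain ⟨G, hG, x, hx, hinf, hR, hF⟩ := exists_resP 37 7 (1 / 4) (by norm_num) (by norm_num)
    (by norm_num)
  obtain ⟨Q, hQ, y, hy, hinf', hR', hF', hJ⟩ := exists_justInf x hx hR hF
  obtain ⟨C, hC, hT⟩ := hasGap_of_tRel (by norm_num) (by norm_num) y hy
  exact ⟨Q, hQ, y, C, hy, hinf', hR', hF', hJ, hC, hT⟩

theorem translate_coe {G : Type} [Group G] [TopologicalSpace G] [IsTopologicalGroup G] (g : G)
    (F : Closeds G) : (translate g F : Set G) = g • (F : Set G) := rfl

/-- The main theorem: a countable infinite discrete group whose left action on its subsets is not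
universal. -/
theorem exists_not_universal : ∃ (G : Type) (_ : Group G) (_ : TopologicalSpace G)
    (_ : IsTopologicalGroup G) (_ : MeasurableSpace G), Countable G ∧ Infinite G ∧
      DiscreteTopology G ∧ PolishSpace G ∧ BorelSpace G ∧ ¬ LeftActionUniversal.{0, 0} G := by
  haveI : Fact (Nat.Prime 37) := ⟨by norm_num⟩
  obtain ⟨G, hG, x, C, hx, hinf, hR, hF, hJ, hC, hT⟩ := exists_the_group
  haveI : Group.FG G := by
    rw [Group.fg_def, ← hx.gen]
    exact Subgroup.fg_iff _ |>.mpr ⟨_, rfl, Set.finite_range x⟩
  haveI hcount : Countable G := countable_of_fg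
  letI : TopologicalSpace G := ⊥
  haveI hd : DiscreteTopology G := ⟨rfl⟩
  letI : MeasurableSpace G := ⊤
  haveI hb : BorelSpace G := ⟨by rw [borel_eq_top_of_discrete]⟩
  haveI : IsTopologicalGroup G := { continuous_mul := continuous_of_discreteTopology
                                    continuous_inv := continuous_of_discreteTopology }
  haveI : PolishSpace G := inferInstance
  refine ⟨G, hG, inferInstance, inferInstance, inferInstance, hcount, hinf, hd, inferInstance,
    hb, ?_⟩
  intro hU
  obtain ⟨f, hf, hinj, hred⟩ := hU (Bern G unitInterval) (by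
    refine measurable_from_prod_countable_right fun g => ?_
    exact measurable_const_smul g)
  refine no_reduction (volume : Measure unitInterval) unit_half unit_uni x hx hC hT hR hF hJ
    (fun y => (f y : Set G)) (measurable_of_effros f hf) ?_ ?_
  · intro y z hyz
    exact hinj (SetLike.coe_injective hyz)
  · intro g y
    obtain ⟨k, hk⟩ := (hred (g • y) y).mp ⟨g, rfl⟩
    refine ⟨k, ?_⟩
    show (f (g • y) : Set G) = k • (f y : Set G)
    rw [← hk]
    exact translate_coe k (f y)

end Pool.Agent.TLA
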