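import Pool.Agent.TLA.Ball

/-! The Golod-Shafarevich inequality of dimensions. -/

set_option autoImplicit false

namespace Pool.Agent.TLA

variable (p : ℕ) {Γ : Type} [Group Γ]

namespace WSys

variable (S : WSys Γ)

/-- The quotient of the group algebra of `H` by `M c`. -/
private def gSdimQ (c : ℝ) : Type :=
  (sa p S.H) ⧸ (Submodule.comap (sa p S.H).subtype (S.M p c))

private noncomputable instance gSdimI1 (c : ℝ) : AddCommGroup (S.gSdimQ p c) :=
  inferInstanceAs (AddCommGroup ((sa p S.H) ⧸ (Submodule.comap (sa p S.H).subtype (S.M p c))))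

private noncomputable instance gSdimI2 (c : ℝ) : Module (ZMod p) (S.gSdimQ p c) :=
  inferInstanceAs (Module (ZMod p) ((sa p S.H) ⧸
    (Submodule.comap (sa p S.H).subtype (S.M p c))))

/-- The quotient map. -/
private noncomputable def gSdimMk (c : ℝ) : (sa p S.H) →ₗ[ZMod p] S.gSdimQ p c :=
  Submodule.mkQ (Submodule.comap (sa p S.H).subtype (S.M p c))

private theorem gSdimMk_surj (c : ℝ) : Function.Surjective (S.gSdimMk p c) :=
  Submodule.mkQ_surjective _

/-- Right multiplication by an element of the group algebra of `H`. -/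
private noncomputable def gSdimMul (b : Alg p Γ) (hb : b ∈ sa p S.H) :
    (sa p S.H) →ₗ[ZMod p] (sa p S.H) :=
  LinearMap.restrict (LinearMap.mulRight (ZMod p) b) (fun _ ha => sa_mul_mem p ha hb)

private theorem gSdimMul_coe (b : Alg p Γ) (hb : b ∈ sa p S.H) (a : sa p S.H) :
    (S.gSdimMul p b hb a : Alg p Γ) = a * b := rfl

/-- Right multiplication on the quotients. -/
private noncomputable def gSdimMap (c d e : ℝ) (b : Alg p Γ) (hb : b ∈ S.M p d)
    (he : c * d ≤ e) : S.gSdimQ p c →ₗ[ZMod p] S.gSdimQ p e :=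
  Submodule.mapQ (Submodule.comap (sa p S.H).subtype (S.M p c))
    (Submodule.comap (sa p S.H).subtype (S.M p e)) (S.gSdimMul p b (S.M_le_sa p d hb)) (by
    intro a ha
    have ha' : (a : Alg p Γ) ∈ S.M p c := ha
    exact S.M_mono p he (S.M_mul_mem p ha' hb))

private theorem gSdimMap_mk (c d e : ℝ) (b : Alg p Γ) (hb : b ∈ S.M p d)
    (he : c * d ≤ e) (a : sa p S.H) :
    S.gSdimMap p c d e b hb he (S.gSdimMk p c a) =
      S.gSdimMk p e (S.gSdimMul p b (S.M_le_sa p d hb) a) := rfl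

private theorem gSdim_mk_eq_zero (c : ℝ) (a : sa p S.H) :
    S.gSdimMk p c a = 0 ↔ (a : Alg p Γ) ∈ S.M p c :=
  Submodule.Quotient.mk_eq_zero (Submodule.comap (sa p S.H).subtype (S.M p c))

private theorem gSdim_mk_eq (c : ℝ) (a b : sa p S.H) :
    S.gSdimMk p c a = S.gSdimMk p c b ↔ (a - b : Alg p Γ) ∈ S.M p c :=
  Submodule.Quotient.eq (Submodule.comap (sa p S.H).subtype (S.M p c))

/-- The augmentation on the quotient. -/
private noncomputable def gSdimAug (c : ℝ) (hc : c < 1) : S.gSdimQ p c →ₗ[ZMod p] ZMod p :=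
  Submodule.liftQ (Submodule.comap (sa p S.H).subtype (S.M p c))
    ((aug p).comp (sa p S.H).subtype) (by
    intro a ha
    have ha' : (a : Alg p Γ) ∈ S.M p c := ha
    exact S.aug_eq_zero p hc ha')

private theorem gSdimAug_mk (c : ℝ) (hc : c < 1) (a : sa p S.H) :
    S.gSdimAug p c hc (S.gSdimMk p c a) = aug p (a : Alg p Γ) := rfl

private theorem gSdim_nat [Fact p.Prime] {R : Type} (ρ : R → S.T → Alg p Γ) (ν : R → ℝ)
    (hgen : S.Gen p ρ) (hν : ∀ r, 0 < ν r)
    (hM : ∀ r t, ρ r t ∈ S.M p (ν r / S.w t)) (c : ℝ)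
    (hc : 0 < c) (hc1 : c < 1) (F : Finset R) (hF : ∀ r, r ∉ F → ν r < c) :
    1 + ∑ t, S.dimq p (c / S.w t) ≤ S.dimq p c + ∑ r ∈ F, S.dimq p (c / ν r) := by
  classical
  have hfin : ∀ {e : ℝ}, 0 < e → FiniteDimensional (ZMod p) (S.gSdimQ p e) :=
    fun {e} he => S.finite_quot p he
  have hcw : ∀ t, 0 < c / S.w t := fun t => div_pos hc (S.w_pos t)
  have hcν : ∀ r, 0 < c / ν r := fun r => div_pos hc (hν r)
  have i0 : FiniteDimensional (ZMod p) (S.gSdimQ p c) := hfin hc
  have i1 : ∀ t, FiniteDimensional (ZMod p) (S.gSdimQ p (c / S.w t)) := fun t => hfin (hcw t)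
  have i2 : ∀ r : F, FiniteDimensional (ZMod p) (S.gSdimQ p (c / ν r)) :=
    fun r => hfin (hcν r)
  -- the map induced by `d`
  have hdc : ∀ t, c / S.w t * S.w t ≤ c := fun t => by
    rw [div_mul_cancel₀ _ (S.w_pos t).ne']
  let D : (∀ t, S.gSdimQ p (c / S.w t)) →ₗ[ZMod p] S.gSdimQ p c :=
    ∑ t, (S.gSdimMap p (c / S.w t) (S.w t) c (gr p (S.v t) - 1) (S.v_mem_M p t)
      (hdc t)).comp (LinearMap.proj t)
  have hD : ∀ a : S.T → sa p S.H,
      D (fun t => S.gSdimMk p _ (a t)) = S.gSdimMk p _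
        (∑ t, S.gSdimMul p (gr p (S.v t) - 1) (S.M_le_sa p _ (S.v_mem_M p t)) (a t)) := by
    intro a
    simp only [D, LinearMap.sum_apply, LinearMap.comp_apply, LinearMap.proj_apply]
    rw [map_sum]
    exact Finset.sum_congr rfl fun t _ => rfl
  have hDd : ∀ a : S.T → sa p S.H, ((∑ t, S.gSdimMul p (gr p (S.v t) - 1)
      (S.M_le_sa p _ (S.v_mem_M p t)) (a t) : sa p S.H) : Alg p Γ) =
        S.d p (fun t => (a t : Alg p Γ)) := by
    intro a
    rw [AddSubmonoidClass.coe_finsetSum]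
    rfl
  -- the maps of the relations
  have hρc : ∀ r t, c / ν r * (ν r / S.w t) ≤ c / S.w t := fun r t => by
    rw [div_mul_div_cancel₀ (hν r).ne']
  let Ψ : (∀ r : F, S.gSdimQ p (c / ν r)) →ₗ[ZMod p] (∀ t, S.gSdimQ p (c / S.w t)) :=
    ∑ r : F, (LinearMap.pi (fun t => S.gSdimMap p (c / ν r) (ν r / S.w t) (c / S.w t)
      (ρ r t) (hM r t) (hρc r t))).comp (LinearMap.proj r)
  have hΨ : ∀ (r : F) (x : S.gSdimQ p (c / ν r)) (t : S.T), Ψ (Pi.single r x) t =
      S.gSdimMap p (c / ν r) (ν r / S.w t) (c / S.w t) (ρ r t) (hM r t) (hρc r t) x := by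
    intro r x t
    simp only [Ψ, LinearMap.sum_apply, LinearMap.comp_apply, LinearMap.proj_apply,
      Finset.sum_apply, LinearMap.pi_apply]
    rw [Finset.sum_eq_single r]
    · rw [Pi.single_eq_same]
    · intro b _ hb
      rw [Pi.single_eq_of_ne hb, map_zero]
    · intro h
      exact absurd (Finset.mem_univ _) h
  -- the kernel
  have hker : LinearMap.ker D ≤ LinearMap.range Ψ := by
    intro x hx
    rw [LinearMap.mem_ker] at hx
    choose a ha using fun t => S.gSdimMk_surj p _ (x t)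
    have hxa : x = fun t => S.gSdimMk p _ (a t) := by
      funext t
      exact (ha t).symm
    rw [hxa, hD, gSdim_mk_eq_zero, hDd] at hx
    obtain ⟨b, hb, hbd⟩ := S.exists_d_eq p hc hx (S.aug_eq_zero p hc1 hx)
    have hbsa : ∀ t, b t ∈ sa p S.H := fun t => S.M_le_sa p _ (hb t)
    have hker0 : S.d p (fun t => (a t : Alg p Γ) - b t) = 0 := by
      have : S.d p (fun t => (a t : Alg p Γ) - b t) =
          S.d p (fun t => (a t : Alg p Γ)) - S.d p b := by
        simp only [WSys.d, sub_mul, Finset.sum_sub_distrib]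
      rw [this, hbd, sub_self]
    have hspan := hgen.2.2 (fun t => (a t : Alg p Γ) - b t)
      (fun t => (sa p S.H).sub_mem (a t).2 (hbsa t)) hker0
    have key : ∀ s ∈ Submodule.span (ZMod p)
        {b : S.T → Alg p Γ | ∃ h ∈ S.H, ∃ r, b = fun t => gr p h * ρ r t},
        ∃ y, ∀ t, ∃ h : s t ∈ sa p S.H,
          Ψ y t = S.gSdimMk p (c / S.w t) ⟨s t, h⟩ := by
      intro s hs
      induction hs using Submodule.span_induction with
      | mem s hs =>
        obtain ⟨h, hh, r, rfl⟩ := hs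
        have hmem : ∀ t, gr p h * ρ r t ∈ sa p S.H := fun t =>
          sa_mul_mem p (gr_mem_sa p hh) (hgen.1 r t)
        by_cases hr : r ∈ F
        · refine ⟨Pi.single (⟨r, hr⟩ : F)
            (S.gSdimMk p _ ⟨gr p h, gr_mem_sa p hh⟩),
            fun t => ⟨hmem t, ?_⟩⟩
          rw [hΨ]
          rfl
        · refine ⟨0, fun t => ⟨hmem t, ?_⟩⟩
          rw [map_zero, Pi.zero_apply, eq_comm, gSdim_mk_eq_zero]
          refine S.M_mul_mem_left p (gr_mem_sa p hh) (S.M_mono p ?_ (hM r t))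
          exact div_le_div_of_nonneg_right (hF r hr).le (S.w_pos t).le
      | zero =>
        refine ⟨0, fun t => ⟨(sa p S.H).zero_mem, ?_⟩⟩
        rw [map_zero]
        rfl
      | add s s' _ _ h1 h2 =>
        obtain ⟨y, hy⟩ := h1
        obtain ⟨y', hy'⟩ := h2
        refine ⟨y + y', fun t => ?_⟩
        obtain ⟨m, e⟩ := hy t
        obtain ⟨m', e'⟩ := hy' t
        refine ⟨(sa p S.H).add_mem m m', ?_⟩
        rw [map_add, Pi.add_apply, e, e']
        rfl
      | smul k s _ h1 =>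
        obtain ⟨y, hy⟩ := h1
        refine ⟨k • y, fun t => ?_⟩
        obtain ⟨m, e⟩ := hy t
        refine ⟨(sa p S.H).smul_mem k m, ?_⟩
        rw [map_smul, Pi.smul_apply, e]
        rfl
    obtain ⟨y, hy⟩ := key _ hspan
    refine ⟨y, ?_⟩
    rw [hxa]
    funext t
    obtain ⟨m, e⟩ := hy t
    rw [e, gSdim_mk_eq]
    have : ((⟨(a t : Alg p Γ) - b t, m⟩ : sa p S.H) - a t : Alg p Γ) = - b t := by
      simp
    rw [this]
    exact (S.M p _).neg_mem (hb t)
  -- the range
  have hran : Module.finrank (ZMod p) (LinearMap.range D) + 1 ≤ S.dimq p c := by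
    have hle : LinearMap.range D ≤ LinearMap.ker (S.gSdimAug p c hc1) := by
      rintro _ ⟨x, rfl⟩
      choose a ha using fun t => S.gSdimMk_surj p _ (x t)
      have hxa : x = fun t => S.gSdimMk p _ (a t) := by
        funext t
        exact (ha t).symm
      rw [hxa, hD, LinearMap.mem_ker, gSdimAug_mk, hDd]
      simp only [WSys.d, map_sum, aug_mul, map_sub, aug_gr, aug_one, sub_self, mul_zero,
        Finset.sum_const_zero]
    have hsurj : Function.Surjective (S.gSdimAug p c hc1) := by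
      intro k
      refine ⟨k • S.gSdimMk p c ⟨1, one_mem_sa p S.H⟩, ?_⟩
      rw [map_smul, gSdimAug_mk]
      simp [aug_one]
    have h1 := (S.gSdimAug p c hc1).finrank_range_add_finrank_ker
    rw [LinearMap.range_eq_top.mpr hsurj, finrank_top, Module.finrank_self] at h1
    have h2 := Submodule.finrank_mono hle
    change _ ≤ Module.finrank (ZMod p) (S.gSdimQ p c)
    omega
  have h3 := LinearMap.finrank_range_add_finrank_ker (K := ZMod p)
    (V := ∀ t, S.gSdimQ p (c / S.w t)) (V₂ := S.gSdimQ p c) D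
  have h4 : Module.finrank (ZMod p) (∀ t, S.gSdimQ p (c / S.w t)) =
      ∑ t, S.dimq p (c / S.w t) := Module.finrank_pi_fintype (ZMod p)
  have h5 : Module.finrank (ZMod p) (∀ r : F, S.gSdimQ p (c / ν r)) =
      ∑ r ∈ F, S.dimq p (c / ν r) := by
    rw [← Finset.sum_coe_sort F (fun r => S.dimq p (c / ν r))]
    exact Module.finrank_pi_fintype (ZMod p)
  have h6 := Submodule.finrank_mono hker
  have h7 : Module.finrank (ZMod p) (LinearMap.range Ψ) ≤
      Module.finrank (ZMod p) (∀ r : F, S.gSdimQ p (c / ν r)) := Ψ.finrank_range_le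
  rw [h4] at h3
  rw [h5] at h7
  omega

/-- The Golod-Shafarevich inequality of dimensions. -/
theorem gs_dim [Fact p.Prime] {R : Type} [Countable R] (ρ : R → S.T → Alg p Γ) (ν : R → ℝ)
    (hgen : S.Gen p ρ) (hν : ∀ r, 0 < ν r) (hs : Summable ν)
    (hM : ∀ r t, ρ r t ∈ S.M p (ν r / S.w t)) (c : ℝ)
    (hc : 0 < c) (hc1 : c < 1) :
    (1 : ENNReal) + ∑ t, (S.dimq p (c / S.w t) : ENNReal) ≤
      S.dimq p c + ∑' r, (S.dimq p (c / ν r) : ENNReal) := by
  classical
  have hfin : {r | ¬ ν r < c}.Finite :=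
    Filter.eventually_cofinite.mp (hs.tendsto_cofinite_zero.eventually_lt_const hc)
  have hF : ∀ r, r ∉ hfin.toFinset → ν r < c := by
    intro r hr
    by_contra hcon
    exact hr (by rw [Set.Finite.mem_toFinset]; exact hcon)
  have h := S.gSdim_nat p ρ ν hgen hν hM c hc hc1 hfin.toFinset hF
  rw [tsum_eq_sum (s := hfin.toFinset)]
  · exact_mod_cast h
  · intro r hr
    have : S.dimq p (c / ν r) = 0 :=
      S.dimq_eq_zero p (by rw [le_div_iff₀ (hν r), one_mul]; exact (hF r hr).le)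
    rw [this, Nat.cast_zero]

end WSys

end Pool.Agent.TLA
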