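import Pool.Agent.TLA.GroupDefs

/-! Averages over a cyclic group of isometries of order `p`, and pairs of them (block A). -/

set_option autoImplicit false

open scoped InnerProductSpace

namespace Pool.Agent.TLA

variable {H : Type} [NormedAddCommGroup H] [InnerProductSpace ℝ H] [CompleteSpace H]

/-- The average of the powers of `X`. -/
noncomputable def avg (p : ℕ) (X : H ≃ₗᵢ[ℝ] H) (u : H) : H :=
  (p : ℝ)⁻¹ • ∑ a ∈ Finset.range p, (X ^ a) u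

private theorem GapA_mul (X Y : H ≃ₗᵢ[ℝ] H) (u : H) : (X * Y) u = X (Y u) := rfl

private theorem GapA_one (u : H) : (1 : H ≃ₗᵢ[ℝ] H) u = u := rfl

private theorem GapA_shift {p : ℕ} (f : ℕ → H) (h : f p = f 0) :
    ∑ a ∈ Finset.range p, f (a + 1) = ∑ a ∈ Finset.range p, f a := by
  have h1 := Finset.sum_range_succ f p
  have h2 := Finset.sum_range_succ' f p
  rw [h1, h] at h2
  exact (add_right_cancel h2).symm

theorem avg_add (p : ℕ) (X : H ≃ₗᵢ[ℝ] H) (u v : H) :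
    avg p X (u + v) = avg p X u + avg p X v := by
  simp only [avg, map_add, Finset.sum_add_distrib, smul_add]

theorem avg_smul (p : ℕ) (X : H ≃ₗᵢ[ℝ] H) (c : ℝ) (u : H) :
    avg p X (c • u) = c • avg p X u := by
  simp only [avg, map_smul, ← Finset.smul_sum]
  rw [smul_comm]

private noncomputable def GapA_avgL (p : ℕ) (X : H ≃ₗᵢ[ℝ] H) : H →ₗ[ℝ] H where
  toFun := avg p X
  map_add' := avg_add p X
  map_smul' := avg_smul p X

private theorem GapA_avgL_apply (p : ℕ) (X : H ≃ₗᵢ[ℝ] H) (u : H) :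
    GapA_avgL p X u = avg p X u := rfl

private theorem avg_sub (p : ℕ) (X : H ≃ₗᵢ[ℝ] H) (u v : H) :
    avg p X (u - v) = avg p X u - avg p X v := map_sub (GapA_avgL p X) u v

private theorem avg_zero (p : ℕ) (X : H ≃ₗᵢ[ℝ] H) : avg p X (0 : H) = 0 :=
  map_zero (GapA_avgL p X)

/-- A linear map that commutes with `Z` commutes with the average. -/
private theorem GapA_comm (p : ℕ) (Z : H ≃ₗᵢ[ℝ] H) (L : H →ₗ[ℝ] H)
    (h : ∀ u, L (Z u) = Z (L u)) (u : H) : L (avg p Z u) = avg p Z (L u) := by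
  have h1 : ∀ (a : ℕ) (u : H), L ((Z ^ a) u) = (Z ^ a) (L u) := by
    intro a
    induction a with
    | zero => intro u; simp [GapA_one]
    | succ a ih =>
      intro u
      rw [pow_succ, GapA_mul, GapA_mul, ih, h]
  simp only [avg, map_smul, map_sum, h1]

private theorem GapA_commX (p : ℕ) {Z X : H ≃ₗᵢ[ℝ] H} (h : Commute Z X) (u : H) :
    X (avg p Z u) = avg p Z (X u) := by
  refine GapA_comm p Z X.toLinearEquiv.toLinearMap (fun u => ?_) u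
  show X (Z u) = Z (X u)
  rw [← GapA_mul, ← GapA_mul, h.eq]

private theorem GapA_commA (p : ℕ) {Z X : H ≃ₗᵢ[ℝ] H} (h : Commute Z X) (u : H) :
    avg p X (avg p Z u) = avg p Z (avg p X u) := by
  refine GapA_comm p Z (GapA_avgL p X) (fun u => ?_) u
  exact (GapA_commX p h.symm u).symm

theorem apply_avg {p : ℕ} (hp : 0 < p) {X : H ≃ₗᵢ[ℝ] H} (hX : X ^ p = 1) (u : H) :
    X (avg p X u) = avg p X u := by
  simp only [avg, map_smul, map_sum]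
  congr 1
  have h := GapA_shift (p := p) (fun a => (X ^ a) u) (by simp [hX])
  rw [← h]
  refine Finset.sum_congr rfl fun a _ => ?_
  rw [pow_succ', GapA_mul]

theorem avg_of_fixed {p : ℕ} (hp : 0 < p) {X : H ≃ₗᵢ[ℝ] H} {u : H} (hu : X u = u) :
    avg p X u = u := by
  have h1 : ∀ a : ℕ, (X ^ a) u = u := by
    intro a
    induction a with
    | zero => simp [GapA_one]
    | succ a ih => rw [pow_succ, GapA_mul, hu, ih]
  have hp' : (p : ℝ) ≠ 0 := by exact_mod_cast hp.ne'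
  simp only [avg, h1, Finset.sum_const, Finset.card_range]
  rw [← Nat.cast_smul_eq_nsmul ℝ, smul_smul, inv_mul_cancel₀ hp', one_smul]

theorem avg_avg {p : ℕ} (hp : 0 < p) {X : H ≃ₗᵢ[ℝ] H} (hX : X ^ p = 1) (u : H) :
    avg p X (avg p X u) = avg p X u :=
  avg_of_fixed hp (apply_avg hp hX u)

private theorem GapA_avg_apply {p : ℕ} (hp : 0 < p) {X : H ≃ₗᵢ[ℝ] H} (hX : X ^ p = 1) (u : H) :
    avg p X (X u) = avg p X u := by
  rw [← GapA_commX p (Commute.refl X) u, apply_avg hp hX]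

theorem inner_avg {p : ℕ} {X : H ≃ₗᵢ[ℝ] H} (hX : X ^ p = 1) (u v : H) :
    ⟪avg p X u, v⟫_ℝ = ⟪u, avg p X v⟫_ℝ := by
  simp only [avg, inner_smul_left, inner_smul_right, sum_inner, inner_sum]
  congr 1
  have h1 : ∀ a ∈ Finset.range p, ⟪(X ^ a) u, v⟫_ℝ = ⟪u, (X ^ (p - 1 - a + 1)) v⟫_ℝ := by
    intro a ha
    have ha' := Finset.mem_range.1 ha
    have h2 : v = (X ^ a) ((X ^ (p - 1 - a + 1)) v) := by
      rw [← GapA_mul, ← pow_add, show a + (p - 1 - a + 1) = p by omega, hX, GapA_one]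
    conv_lhs => rw [h2]
    exact LinearIsometryEquiv.inner_map_map _ _ _
  rw [Finset.sum_congr rfl h1, Finset.sum_range_reflect (fun a => ⟪u, (X ^ (a + 1)) v⟫_ℝ) p,
    ← inner_sum, ← inner_sum]
  congr 1
  exact GapA_shift (p := p) (fun a => (X ^ a) v) (by simp [hX])

theorem norm_sub_avg_le {p : ℕ} (hp : 0 < p) {X : H ≃ₗᵢ[ℝ] H} (u : H) :
    ‖u - avg p X u‖ ≤ p * ‖u - X u‖ := by
  have h1 : ∀ a : ℕ, ‖u - (X ^ a) u‖ ≤ a * ‖u - X u‖ := by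
    intro a
    induction a with
    | zero => simp [GapA_one]
    | succ a ih =>
      have h2 : u - (X ^ (a + 1)) u = (u - (X ^ a) u) + (X ^ a) (u - X u) := by
        rw [map_sub, pow_succ, GapA_mul]
        abel
      have h3 : ‖(X ^ a) (u - X u)‖ = ‖u - X u‖ := LinearIsometryEquiv.norm_map _ _
      rw [h2]
      refine (norm_add_le _ _).trans ?_
      rw [h3]
      push_cast
      linarith
  have hp' : (p : ℝ) ≠ 0 := by exact_mod_cast hp.ne'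
  have h4 : u - avg p X u = (p : ℝ)⁻¹ • ∑ a ∈ Finset.range p, (u - (X ^ a) u) := by
    rw [Finset.sum_sub_distrib, Finset.sum_const, Finset.card_range, smul_sub,
      ← Nat.cast_smul_eq_nsmul ℝ, smul_smul, inv_mul_cancel₀ hp', one_smul]
    rfl
  rw [h4, norm_smul, norm_inv, Real.norm_natCast]
  have h5 : ‖∑ a ∈ Finset.range p, (u - (X ^ a) u)‖ ≤ p * (p * ‖u - X u‖) := by
    refine (norm_sum_le _ _).trans ?_
    have h6 : ∀ a ∈ Finset.range p, ‖u - (X ^ a) u‖ ≤ p * ‖u - X u‖ := by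
      intro a ha
      refine (h1 a).trans (mul_le_mul_of_nonneg_right ?_ (norm_nonneg _))
      exact_mod_cast (Finset.mem_range.1 ha).le
    refine (Finset.sum_le_sum h6).trans ?_
    rw [Finset.sum_const, Finset.card_range, nsmul_eq_mul]
  calc (p : ℝ)⁻¹ * ‖∑ a ∈ Finset.range p, (u - (X ^ a) u)‖
      ≤ (p : ℝ)⁻¹ * (p * (p * ‖u - X u‖)) :=
        mul_le_mul_of_nonneg_left h5 (by positivity)
    _ = p * ‖u - X u‖ := by rw [← mul_assoc, inv_mul_cancel₀ hp', one_mul]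

private theorem GapA_rel {X Y : H ≃ₗᵢ[ℝ] H}
    (hZX : Commute (X * Y * X⁻¹ * Y⁻¹) X) (a : ℕ) :
    X ^ a * Y = (X * Y * X⁻¹ * Y⁻¹) ^ a * Y * X ^ a := by
  induction a with
  | zero => simp
  | succ a ih =>
    have h0 : X * Y = (X * Y * X⁻¹ * Y⁻¹) * Y * X := by group
    have h1 : Commute X ((X * Y * X⁻¹ * Y⁻¹) ^ a) := (hZX.symm).pow_right a
    calc X ^ (a + 1) * Y = X * (X ^ a * Y) := by rw [pow_succ', mul_assoc]
      _ = X * ((X * Y * X⁻¹ * Y⁻¹) ^ a * Y * X ^ a) := by rw [ih]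
      _ = (X * (X * Y * X⁻¹ * Y⁻¹) ^ a) * Y * X ^ a := by simp only [mul_assoc]
      _ = ((X * Y * X⁻¹ * Y⁻¹) ^ a * X) * Y * X ^ a := by rw [h1.eq]
      _ = (X * Y * X⁻¹ * Y⁻¹) ^ a * (X * Y) * X ^ a := by simp only [mul_assoc]
      _ = (X * Y * X⁻¹ * Y⁻¹) ^ a * ((X * Y * X⁻¹ * Y⁻¹) * Y * X) * X ^ a := by rw [← h0]
      _ = (X * Y * X⁻¹ * Y⁻¹) ^ (a + 1) * Y * X ^ (a + 1) := by
          rw [pow_succ (X * Y * X⁻¹ * Y⁻¹), pow_succ' X]
          simp only [mul_assoc]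

private theorem GapA_Zp {p : ℕ} {X Y : H ≃ₗᵢ[ℝ] H} (hX : X ^ p = 1)
    (hZX : Commute (X * Y * X⁻¹ * Y⁻¹) X) : (X * Y * X⁻¹ * Y⁻¹) ^ p = 1 := by
  have h := GapA_rel hZX p
  rw [hX, one_mul, mul_one] at h
  exact (mul_eq_right.1 h.symm)

/-- If `Z = X Y X⁻¹ Y⁻¹` commutes with `X` and `Y` and `avg p Z u = 0`, then
`avg Y (avg X (avg Y u)) = p⁻¹ avg Y u`. -/
theorem avg_triple {p : ℕ} [Fact p.Prime] {X Y : H ≃ₗᵢ[ℝ] H} (hX : X ^ p = 1) (hY : Y ^ p = 1)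
    (hZX : Commute (X * Y * X⁻¹ * Y⁻¹) X) (hZY : Commute (X * Y * X⁻¹ * Y⁻¹) Y) (u : H)
    (hu : avg p (X * Y * X⁻¹ * Y⁻¹) u = 0) :
    avg p Y (avg p X (avg p Y u)) = (p : ℝ)⁻¹ • avg p Y u := by
  have hpp : p.Prime := Fact.out
  have hp : 0 < p := hpp.pos
  have hrel := GapA_rel hZX
  have hZp := GapA_Zp hX hZX
  generalize hZ : X * Y * X⁻¹ * Y⁻¹ = Z at *
  -- the maps `T a`
  let T : ℕ → H →ₗ[ℝ] H := fun a =>
    (GapA_avgL p Y).comp ((X ^ a).toLinearEquiv.toLinearMap.comp (GapA_avgL p Y))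
  have hT : ∀ a v, T a v = avg p Y ((X ^ a) (avg p Y v)) := fun a v => rfl
  have hTZ : ∀ a v, T a (Z v) = Z (T a v) := by
    intro a v
    have hXa : Commute Z (X ^ a) := hZX.pow_right a
    rw [hT, hT, ← GapA_commX p hZY.symm v]
    have h1 : (X ^ a) (Z (avg p Y v)) = Z ((X ^ a) (avg p Y v)) := by
      rw [← GapA_mul, ← GapA_mul, hXa.eq]
    rw [h1, ← GapA_commX p hZY.symm]
  have hT0 : ∀ a v, (Z ^ a) (T a v) = T a v := by
    intro a v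
    have hw : Y (avg p Y v) = avg p Y v := apply_avg hp hY v
    have h1 : (X ^ a) (avg p Y v) = (Z ^ a) (Y ((X ^ a) (avg p Y v))) := by
      conv_lhs => rw [← hw]
      rw [← GapA_mul, hrel a]
      rfl
    have h2 : Commute Y (Z ^ a) := hZY.symm.pow_right a
    rw [hT]
    conv_rhs => rw [h1]
    rw [← GapA_commX p h2, GapA_avg_apply hp hY]
  have hTzero : ∀ a, 0 < a → a < p → T a u = 0 := by
    intro a ha0 hap
    have hcop : Nat.Coprime a p :=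
      ((Nat.Prime.coprime_iff_not_dvd hpp).2 (Nat.not_dvd_of_pos_of_lt ha0 hap)).symm
    obtain ⟨m, -, hm⟩ := Nat.exists_mul_mod_eq_one_of_coprime hcop hpp.one_lt
    have h0 : ∀ m : ℕ, ((Z ^ a) ^ m) (T a u) = T a u := by
      intro m
      induction m with
      | zero => simp [GapA_one]
      | succ m ih => rw [pow_succ, GapA_mul, hT0 a u, ih]
    have h1 : (Z ^ (a * m)) (T a u) = T a u := by
      rw [pow_mul]
      exact h0 m
    have h2 : Z (T a u) = T a u := by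
      have h3 : Z ^ (a * m) = Z := by
        rw [← Nat.div_add_mod (a * m) p, hm, pow_add, pow_mul, hZp, one_pow, one_mul, pow_one]
      rwa [h3] at h1
    rw [← avg_of_fixed hp h2, ← GapA_comm p Z (T a) (hTZ a), hu, map_zero]
  have h5 : avg p Y (avg p X (avg p Y u)) = (p : ℝ)⁻¹ • ∑ a ∈ Finset.range p, T a u := by
    show GapA_avgL p Y ((p : ℝ)⁻¹ • ∑ a ∈ Finset.range p, (X ^ a) (avg p Y u)) = _
    rw [map_smul, map_sum]
    rfl
  rw [h5, Finset.sum_eq_single 0]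
  · rw [hT, pow_zero, GapA_one, avg_avg hp hY]
  · intro a ha ha0
    exact hTzero a (Nat.pos_of_ne_zero ha0) (Finset.mem_range.1 ha)
  · intro h
    exact absurd (Finset.mem_range.2 hp) h

private theorem GapA_proj {p : ℕ} (hp : 0 < p) {X : H ≃ₗᵢ[ℝ] H} (hX : X ^ p = 1) (u v : H) :
    ⟪avg p X u, avg p X v⟫_ℝ = ⟪avg p X u, v⟫_ℝ := by
  rw [← inner_avg hX, avg_avg hp hX]

private theorem GapA_norm_sub {p : ℕ} (hp : 0 < p) {X : H ≃ₗᵢ[ℝ] H} (hX : X ^ p = 1) (u : H) :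
    ‖u - avg p X u‖ ^ 2 = ‖u‖ ^ 2 - ‖avg p X u‖ ^ 2 := by
  have h1 : ⟪u, avg p X u⟫_ℝ = ‖avg p X u‖ ^ 2 := by
    rw [← real_inner_self_eq_norm_sq, GapA_proj hp hX, real_inner_comm]
  rw [@norm_sub_sq_real, h1]
  ring

/-- The case `avg p Z u = 0`. -/
private theorem GapA_pair0 {p : ℕ} [Fact p.Prime] {X Y : H ≃ₗᵢ[ℝ] H} (hX : X ^ p = 1)
    (hY : Y ^ p = 1) (hZX : Commute (X * Y * X⁻¹ * Y⁻¹) X)
    (hZY : Commute (X * Y * X⁻¹ * Y⁻¹) Y) (u : H) (hu : avg p (X * Y * X⁻¹ * Y⁻¹) u = 0) :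
    -((Real.sqrt p)⁻¹ * (‖u - avg p X u‖ ^ 2 + ‖u - avg p Y u‖ ^ 2)) ≤
      2 * ⟪u - avg p X u, u - avg p Y u⟫_ℝ := by
  have hp : 0 < p := (Fact.out : p.Prime).pos
  have hp1 : (1 : ℝ) ≤ p := by exact_mod_cast hp
  set ε : ℝ := (Real.sqrt p)⁻¹ with hε
  have hε0 : 0 ≤ ε := by positivity
  have hε2 : ε ^ 2 = (p : ℝ)⁻¹ := by
    rw [hε, inv_pow, Real.sq_sqrt (by positivity)]
  have hε1 : ε ≤ 1 := by
    rw [hε]
    exact inv_le_one_of_one_le₀ (by rw [Real.one_le_sqrt]; exact hp1)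
  have ht := avg_triple hX hY hZX hZY u hu
  have h1 : ‖avg p X (avg p Y u)‖ ^ 2 = (ε * ‖avg p Y u‖) ^ 2 := by
    have e1 : ⟪avg p X (avg p Y u), avg p Y u⟫_ℝ =
        ⟪avg p Y (avg p X (avg p Y u)), avg p Y u⟫_ℝ := by
      rw [inner_avg hY, avg_avg hp hY]
    rw [← real_inner_self_eq_norm_sq, GapA_proj hp hX, e1, ht, mul_pow, hε2,
      ← real_inner_self_eq_norm_sq, real_inner_smul_left]
  have h2 : ‖avg p X (avg p Y u)‖ = ε * ‖avg p Y u‖ := by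
    have := (sq_eq_sq₀ (norm_nonneg _) (mul_nonneg hε0 (norm_nonneg _))).1 h1
    exact this
  set P := avg p X u with hP
  set Q := avg p Y u with hQ
  have h3 : ⟪P, Q⟫_ℝ ≤ ε * (‖P‖ * ‖Q‖) := by
    have h4 : ⟪P, Q⟫_ℝ = ⟪P, avg p X Q⟫_ℝ := by rw [hP, GapA_proj hp hX]
    rw [h4]
    refine (real_inner_le_norm _ _).trans ?_
    rw [h2]
    nlinarith [norm_nonneg P, norm_nonneg Q]
  have hPu : ⟪P, u⟫_ℝ = ‖P‖ ^ 2 := by
    rw [← real_inner_self_eq_norm_sq, hP, GapA_proj hp hX]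
  have hQu : ⟪Q, u⟫_ℝ = ‖Q‖ ^ 2 := by
    rw [← real_inner_self_eq_norm_sq, hQ, GapA_proj hp hY]
  have h5 : ‖P + Q‖ ^ 2 = ‖P‖ ^ 2 + 2 * ⟪P, Q⟫_ℝ + ‖Q‖ ^ 2 := norm_add_sq_real P Q
  have h6 : (‖P‖ ^ 2 + ‖Q‖ ^ 2) ^ 2 ≤ ‖P + Q‖ ^ 2 * ‖u‖ ^ 2 := by
    have h7 : ⟪P + Q, u⟫_ℝ = ‖P‖ ^ 2 + ‖Q‖ ^ 2 := by rw [inner_add_left, hPu, hQu]
    have h8 := real_inner_le_norm (P + Q) u
    rw [h7] at h8
    rw [← mul_pow]
    exact pow_le_pow_left₀ (by positivity) h8 2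
  have h9 : 2 * ⟪u - P, u - Q⟫_ℝ = 2 * ‖u‖ ^ 2 - 2 * (‖P‖ ^ 2 + ‖Q‖ ^ 2) + 2 * ⟪P, Q⟫_ℝ := by
    rw [inner_sub_left, inner_sub_right, inner_sub_right, hPu, real_inner_comm Q u, hQu,
      real_inner_self_eq_norm_sq]
    ring
  rw [h9, hP, hQ, GapA_norm_sub hp hX, GapA_norm_sub hp hY, ← hP, ← hQ]
  set U := ‖u‖ ^ 2 with hU
  set s := ‖P‖ ^ 2 + ‖Q‖ ^ 2 with hs
  have hs0 : 0 ≤ s := by positivity
  have hU0 : 0 ≤ U := by positivity
  have h10 : 2 * ⟪P, Q⟫_ℝ ≤ ε * s := by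
    have : 2 * (‖P‖ * ‖Q‖) ≤ s := by nlinarith [sq_nonneg (‖P‖ - ‖Q‖)]
    nlinarith
  have h11 : s ^ 2 ≤ (s + 2 * ⟪P, Q⟫_ℝ) * U := by
    have : ‖P + Q‖ ^ 2 = s + 2 * ⟪P, Q⟫_ℝ := by rw [h5, hs]; ring
    rw [← this]
    exact h6
  have h12 : s ≤ (1 + ε) * U := by
    rcases hs0.eq_or_lt with h | h
    · rw [← h]; positivity
    · have h13 : s * s ≤ s * ((1 + ε) * U) := by nlinarith
      exact le_of_mul_le_mul_left h13 h
  rcases hU0.eq_or_lt with h | h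
  · have h14 : s = 0 := le_antisymm (by rw [← h] at h12; simpa using h12) hs0
    have h15 : ‖P‖ = 0 := by
      have : ‖P‖ ^ 2 = 0 := by nlinarith [sq_nonneg ‖P‖, sq_nonneg ‖Q‖]
      exact pow_eq_zero_iff (two_ne_zero) |>.1 this
    have h16 : ⟪P, Q⟫_ℝ = 0 := by
      rw [norm_eq_zero.1 h15, inner_zero_left]
    rw [h16, ← h, h14]
    nlinarith [sq_nonneg ‖P‖, sq_nonneg ‖Q‖]
  · have h17 : 0 ≤ ((1 + ε) * U - s) * (2 * U - s) :=
      mul_nonneg (by linarith) (by nlinarith)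
    have h18 : 0 ≤ U * (2 * (1 + ε) * U - (2 + ε) * s + 2 * ⟪P, Q⟫_ℝ) := by nlinarith
    have h19 := nonneg_of_mul_nonneg_right h18 h
    have h20 : U - ‖P‖ ^ 2 + (U - ‖Q‖ ^ 2) = 2 * U - s := by rw [hs]; ring
    rw [h20]
    nlinarith

/-- The case `Z u = u`. -/
private theorem GapA_pair1 {p : ℕ} (hp : 0 < p) {X Y : H ≃ₗᵢ[ℝ] H} (hX : X ^ p = 1)
    (hY : Y ^ p = 1) (hZX : Commute (X * Y * X⁻¹ * Y⁻¹) X)
    (hZY : Commute (X * Y * X⁻¹ * Y⁻¹) Y) (u : H) (hu : (X * Y * X⁻¹ * Y⁻¹) u = u) :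
    0 ≤ ⟪u - avg p X u, u - avg p Y u⟫_ℝ := by
  have hXY : ∀ v : H, (X * Y * X⁻¹ * Y⁻¹) v = v → X (Y v) = Y (X v) := by
    intro v hv
    have h0 : X * Y = Y * X * (X * Y * X⁻¹ * Y⁻¹) := by
      rw [mul_assoc Y X, ← hZX.eq, ← mul_assoc Y, ← hZY.eq]
      group
    rw [← GapA_mul, h0, GapA_mul, hv, GapA_mul]
  have hfX : ∀ v : H, (X * Y * X⁻¹ * Y⁻¹) v = v → (X * Y * X⁻¹ * Y⁻¹) (X v) = X v := by
    intro v hv
    rw [← GapA_mul, hZX.eq, GapA_mul, hv]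
  have hfY : ∀ v : H, (X * Y * X⁻¹ * Y⁻¹) v = v → (X * Y * X⁻¹ * Y⁻¹) (Y v) = Y v := by
    intro v hv
    rw [← GapA_mul, hZY.eq, GapA_mul, hv]
  generalize X * Y * X⁻¹ * Y⁻¹ = Z at *
  have h1 : ∀ (b : ℕ) (v : H), Z v = v → X ((Y ^ b) v) = (Y ^ b) (X v) := by
    intro b
    induction b with
    | zero => intro v _; simp [GapA_one]
    | succ b ih =>
      intro v hv
      rw [pow_succ, GapA_mul, GapA_mul, ih _ (hfY v hv), hXY v hv]
  have h2 : ∀ v : H, Z v = v → X (avg p Y v) = avg p Y (X v) := by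
    intro v hv
    simp only [avg, map_smul, map_sum, h1 _ v hv]
  have h3 : ∀ (a : ℕ) (v : H), Z v = v → (X ^ a) (avg p Y v) = avg p Y ((X ^ a) v) := by
    intro a
    induction a with
    | zero => intro v _; simp [GapA_one]
    | succ a ih =>
      intro v hv
      rw [pow_succ, GapA_mul, GapA_mul, h2 v hv, ih _ (hfX v hv)]
  have h4 : avg p X (avg p Y u) = avg p Y (avg p X u) := by
    have h5 : avg p Y (avg p X u) = (p : ℝ)⁻¹ • ∑ a ∈ Finset.range p, avg p Y ((X ^ a) u) := by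
      show GapA_avgL p Y ((p : ℝ)⁻¹ • ∑ a ∈ Finset.range p, (X ^ a) u) = _
      rw [map_smul, map_sum]
      rfl
    rw [h5, avg]
    congr 1
    exact Finset.sum_congr rfl fun a _ => h3 a u hu
  set P := avg p X u with hP
  set Q := avg p Y u with hQ
  have hPu : ⟪P, u⟫_ℝ = ⟪P, P⟫_ℝ := by rw [hP, GapA_proj hp hX]
  have hQu : ⟪Q, u⟫_ℝ = ⟪Q, Q⟫_ℝ := by rw [hQ, GapA_proj hp hY]
  have hQP : ⟪Q, P⟫_ℝ = ⟪P, Q⟫_ℝ := real_inner_comm _ _
  set R := avg p X Q with hR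
  have k1 : ⟪R, u⟫_ℝ = ⟪P, Q⟫_ℝ := by
    rw [hR, inner_avg hX, ← hP, hQP]
  have k2 : ⟪R, Q⟫_ℝ = ⟪R, R⟫_ℝ := by rw [hR, GapA_proj hp hX]
  have k3 : ⟪R, P⟫_ℝ = ⟪P, Q⟫_ℝ := by
    rw [hR, hP, GapA_proj hp hX, inner_avg hX, ← hP, hQP]
  have k4 : ⟪R, R⟫_ℝ = ⟪P, Q⟫_ℝ := by
    rw [← k2, h4, inner_avg hY, hQ, avg_avg hp hY]
  have h6 : ⟪u - P, u - Q⟫_ℝ = ‖(u - Q) - (P - R)‖ ^ 2 := by
    rw [← real_inner_self_eq_norm_sq]
    simp only [inner_sub_left, inner_sub_right]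
    rw [real_inner_comm Q u, real_inner_comm P u, real_inner_comm R u, real_inner_comm R Q,
      real_inner_comm R P, hPu, hQu, k1, k2, k3, k4, hQP]
    ring
  rw [h6]
  positivity

/-- The inequality for a pair. -/
theorem pair_ineq {p : ℕ} [Fact p.Prime] {X Y : H ≃ₗᵢ[ℝ] H} (hX : X ^ p = 1) (hY : Y ^ p = 1)
    (hZX : Commute (X * Y * X⁻¹ * Y⁻¹) X) (hZY : Commute (X * Y * X⁻¹ * Y⁻¹) Y) (u : H) :
    -((Real.sqrt p)⁻¹ * (‖u - avg p X u‖ ^ 2 + ‖u - avg p Y u‖ ^ 2)) ≤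
      2 * ⟪u - avg p X u, u - avg p Y u⟫_ℝ := by
  have hp : 0 < p := (Fact.out : p.Prime).pos
  have hZp := GapA_Zp hX hZX
  set Z := X * Y * X⁻¹ * Y⁻¹ with hZ
  set v := avg p Z u with hv
  set w := u - v with hw
  have huv : u = v + w := by rw [hw]; abel
  have hZv : Z v = v := apply_avg hp hZp u
  have hw0 : avg p Z w = 0 := by rw [hw, avg_sub, hv, avg_avg hp hZp, sub_self]
  have horth : ∀ a b : H, avg p Z a = a → avg p Z b = 0 → ⟪a, b⟫_ℝ = 0 := by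
    intro a b ha hb
    rw [← ha, inner_avg hZp, hb, inner_zero_right]
  have hvv : avg p Z v = v := avg_of_fixed hp hZv
  have e1 : avg p Z (v - avg p X v) = v - avg p X v := by
    rw [avg_sub, ← GapA_commA p hZX, hvv]
  have e2 : avg p Z (v - avg p Y v) = v - avg p Y v := by
    rw [avg_sub, ← GapA_commA p hZY, hvv]
  have e3 : avg p Z (w - avg p X w) = 0 := by
    rw [avg_sub, ← GapA_commA p hZX, hw0, avg_zero, sub_zero]
  have e4 : avg p Z (w - avg p Y w) = 0 := by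
    rw [avg_sub, ← GapA_commA p hZY, hw0, avg_zero, sub_zero]
  have f1 : u - avg p X u = (v - avg p X v) + (w - avg p X w) := by
    conv_lhs => rw [huv]
    rw [avg_add]; abel
  have f2 : u - avg p Y u = (v - avg p Y v) + (w - avg p Y w) := by
    conv_lhs => rw [huv]
    rw [avg_add]; abel
  have g0 := GapA_pair0 hX hY hZX hZY w hw0
  have g1 := GapA_pair1 hp hX hY hZX hZY v hZv
  have n1 : ‖u - avg p X u‖ ^ 2 = ‖v - avg p X v‖ ^ 2 + ‖w - avg p X w‖ ^ 2 := by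
    rw [f1, norm_add_sq_real, horth _ _ e1 e3]; ring
  have n2 : ‖u - avg p Y u‖ ^ 2 = ‖v - avg p Y v‖ ^ 2 + ‖w - avg p Y w‖ ^ 2 := by
    rw [f2, norm_add_sq_real, horth _ _ e2 e4]; ring
  have n3 : ⟪u - avg p X u, u - avg p Y u⟫_ℝ = ⟪v - avg p X v, v - avg p Y v⟫_ℝ +
      ⟪w - avg p X w, w - avg p Y w⟫_ℝ := by
    rw [f1, f2, inner_add_left, inner_add_right, inner_add_right, horth _ _ e1 e4,
      real_inner_comm (v - avg p Y v) (w - avg p X w), horth _ _ e2 e3]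
    ring
  rw [n1, n2, n3]
  have hε0 : 0 ≤ (Real.sqrt p)⁻¹ := by positivity
  nlinarith [mul_nonneg hε0 (sq_nonneg ‖v - avg p X v‖),
    mul_nonneg hε0 (sq_nonneg ‖v - avg p Y v‖)]

end Pool.Agent.TLA
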