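import Pool.Agent.TLA.SelB

/-! The selection theorem (block D1). -/

set_option autoImplicit false

open MeasureTheory Filter

namespace Pool.Agent.TLA

private theorem SelC_ergodic {G : Type} [Group G] {Ω : Type} [MeasurableSpace Ω] [MulAction G Ω]
    (P : Measure Ω) [ErgodicSMul G Ω P] {W : Set Ω} (hW : MeasurableSet W)
    (hinv : ∀ (g : G) ω, g • ω ∈ W ↔ ω ∈ W) (hpos : P W ≠ 0) : ∀ᵐ ω ∂P, ω ∈ W := by
  have h1 : EventuallyConst W (ae P) := by
    refine aeconst_of_forall_preimage_smul_ae_eq G hW.nullMeasurableSet ?_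
    intro g
    have : (g • · : Ω → Ω) ⁻¹' W = W := by
      ext ω
      exact hinv g ω
    rw [this]
  rcases eventuallyConst_set.1 h1 with h | h
  · exact h
  · exfalso
    apply hpos
    have : {ω | ¬ ω ∉ W} = W := by
      ext ω
      simp
    have h2 := ae_iff.1 h
    rwa [this] at h2

private theorem SelC_value_inj {G : Type} [Group G] [Encodable G] {Ω D : Type} [MulAction G Ω]
    (ξ : Ω → D) {ω : Ω} {g h : G} (hg : rep ξ ω g = g) (hh : rep ξ ω h = h)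
    (he : ξ (g • ω) = ξ (h • ω)) : g = h := by
  rw [← hg, ← hh]
  exact (rep_eq_iff ξ ω g h).2 he

/-- The points where `c` is invariant. -/
private def SelC_good {G : Type} [Group G] [Encodable G] {Ω D : Type} [MulAction G Ω]
    (ξ : Ω → D) (c : Ω × G → ℝ) : Set Ω :=
  {ω | ∀ l k g : G, (l • ω, g) ∈ ZZ ξ → c (tr ξ k (l • ω, g)) = c (l • ω, g)}

/-- The heavy values. -/
private def SelC_V {G : Type} [Group G] [Encodable G] {Ω D : Type} [MulAction G Ω]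
    (ξ : Ω → D) (c : Ω × G → ℝ) (ω : Ω) : Set D :=
  {d | ∃ g : G, (ω, g) ∈ ZZ ξ ∧ 1 / 2 < c (ω, g) ∧ ξ (g • ω) = d}

private theorem SelC_good_smul {G : Type} [Group G] [Encodable G] {Ω D : Type} [MulAction G Ω]
    (ξ : Ω → D) (c : Ω × G → ℝ) (k : G) (ω : Ω) :
    k • ω ∈ SelC_good ξ c ↔ ω ∈ SelC_good ξ c := by
  constructor
  · intro h l k' g hg
    have := h (l * k⁻¹) k' g
    rw [smul_smul, inv_mul_cancel_right] at this
    exact this hg
  · intro h l k' g hg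
    have := h (l * k) k' g
    rw [← smul_smul] at this
    exact this hg

private theorem SelC_V_le {G : Type} [Group G] [Encodable G] {Ω D : Type} [MulAction G Ω]
    (ξ : Ω → D) (c : Ω × G → ℝ) (k : G) {ω : Ω} (hω : ω ∈ SelC_good ξ c) :
    SelC_V ξ c ω ⊆ SelC_V ξ c (k • ω) := by
  rintro d ⟨g, hg, hc, rfl⟩
  have h1 := hω 1 k g
  rw [one_smul] at h1
  have h2 := h1 hg
  have h3 : tr ξ k (ω, g) = (k • ω, rep ξ (k • ω) (g * k⁻¹)) := rfl
  refine ⟨rep ξ (k • ω) (g * k⁻¹), ?_, ?_, ?_⟩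
  · rw [← h3]
    exact tr_mem ξ k _
  · rw [← h3, h2]
    exact hc
  · rw [rep_spec ξ (k • ω), smul_smul, inv_mul_cancel_right]

private theorem SelC_V_smul {G : Type} [Group G] [Encodable G] {Ω D : Type} [MulAction G Ω]
    (ξ : Ω → D) (c : Ω × G → ℝ) (k : G) {ω : Ω} (hω : ω ∈ SelC_good ξ c) :
    SelC_V ξ c (k • ω) = SelC_V ξ c ω := by
  apply le_antisymm
  · have h := SelC_V_le ξ c k⁻¹ ((SelC_good_smul ξ c k ω).2 hω)
    rwa [inv_smul_smul] at h
  · exact SelC_V_le ξ c k hω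

open Classical in
/-- The selection. -/
private noncomputable def SelC_R {G : Type} [Group G] [Encodable G] {Ω D : Type} [MulAction G Ω]
    (ξ : Ω → D) (c : Ω × G → ℝ) (ω : Ω) : Option D :=
  if h : ω ∈ SelC_good ξ c ∧ ∃ d, SelC_V ξ c ω = {d} then some h.2.choose else none

private theorem SelC_R_eq {G : Type} [Group G] [Encodable G] {Ω D : Type} [MulAction G Ω]
    (ξ : Ω → D) (c : Ω × G → ℝ) (ω : Ω) (d : D) :
    SelC_R ξ c ω = some d ↔ ω ∈ SelC_good ξ c ∧ SelC_V ξ c ω = {d} := by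
  unfold SelC_R
  by_cases h : ω ∈ SelC_good ξ c ∧ ∃ d, SelC_V ξ c ω = {d}
  · rw [dif_pos h, Option.some_inj]
    have h2 := h.2.choose_spec
    constructor
    · intro he
      rw [he] at h2
      exact ⟨h.1, h2⟩
    · rintro ⟨-, h3⟩
      rw [h2] at h3
      exact Set.singleton_injective h3
  · rw [dif_neg h]
    constructor
    · intro he
      exact absurd he (by simp)
    · rintro ⟨h3, h4⟩
      exact absurd ⟨h3, d, h4⟩ h

private theorem SelC_inv {G : Type} [Group G] [Encodable G] {Ω D : Type} [MulAction G Ω]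
    (ξ : Ω → D) (c : Ω × G → ℝ) (k : G) (ω : Ω) :
    SelC_R ξ c (k • ω) = SelC_R ξ c ω := by
  ext d
  rw [SelC_R_eq, SelC_R_eq, SelC_good_smul]
  constructor
  · rintro ⟨h1, h2⟩
    exact ⟨h1, by rw [← SelC_V_smul ξ c k h1]; exact h2⟩
  · rintro ⟨h1, h2⟩
    exact ⟨h1, by rw [SelC_V_smul ξ c k h1]; exact h2⟩

private theorem SelC_V_eq {G : Type} [Group G] [Encodable G] {Ω D : Type} [MulAction G Ω]
    (ξ : Ω → D) (c : Ω × G → ℝ) (ω : Ω) (d : D) :
    SelC_V ξ c ω = {d} ↔ (∃ g : G, (ω, g) ∈ ZZ ξ ∧ 1 / 2 < c (ω, g) ∧ ξ (g • ω) = d) ∧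
      ∀ g : G, (ω, g) ∈ ZZ ξ ∧ 1 / 2 < c (ω, g) → ξ (g • ω) = d := by
  constructor
  · intro h
    constructor
    · have : d ∈ SelC_V ξ c ω := by rw [h]; exact Set.mem_singleton d
      exact this
    · rintro g ⟨h1, h2⟩
      have : ξ (g • ω) ∈ SelC_V ξ c ω := ⟨g, h1, h2, rfl⟩
      rw [h] at this
      exact this
  · rintro ⟨h1, h2⟩
    apply le_antisymm
    · rintro e ⟨g, h3, h4, rfl⟩
      exact h2 g ⟨h3, h4⟩
    · rintro e rfl
      exact h1

/-- From the invariant function to the selection. -/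
theorem exists_sel_of_fun {G : Type} [Group G] [Encodable G] [MeasurableSpace G]
    [DiscreteMeasurableSpace G] {Ω D : Type} [MeasurableSpace Ω] [MulAction G Ω]
    [MeasurableConstSMul G Ω] (ξ : Ω → D) (P : Measure Ω) [IsProbabilityMeasure P]
    [ErgodicSMul G Ω P] (hξ : ∀ g h : G, MeasurableSet {ω | ξ (g • ω) = ξ (h • ω)})
    (c : Ω × G → ℝ) (hc : Measurable c) (hinv : ∀ k : G, ∀ᵐ q ∂(muZ ξ P), c (tr ξ k q) = c q)
    (hclose : ∫⁻ q, ENNReal.ofReal ((ind1 ξ q - c q) ^ 2) ∂(muZ ξ P) ≤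
      ENNReal.ofReal (1 / 64)) :
    ∃ R : Ω → Option D, Sel G P ξ R := by
  classical
  have hZ : MeasurableSet (ZZ ξ : Set (Ω × G)) := measurableSet_ZZ ξ hξ
  have hpair : ∀ l g : G, Measurable (fun ω : Ω => (l • ω, g)) := fun l g =>
    (measurable_const_smul l).prodMk measurable_const
  have hZlg : ∀ l g : G, MeasurableSet {ω : Ω | (l • ω, g) ∈ ZZ ξ} := fun l g =>
    hpair l g hZ
  have hgood_meas : MeasurableSet (SelC_good ξ c) := by
    have : SelC_good ξ c = ⋂ l : G, ⋂ k : G, ⋂ g : G,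
        ({ω : Ω | (l • ω, g) ∈ ZZ ξ}ᶜ ∪ {ω : Ω | c (tr ξ k (l • ω, g)) = c (l • ω, g)}) := by
      ext ω
      simp only [SelC_good, Set.mem_setOf_eq, Set.mem_iInter, Set.mem_union, Set.mem_compl_iff]
      constructor
      · intro h l k g
        by_cases hg : (l • ω, g) ∈ ZZ ξ
        · exact Or.inr (h l k g hg)
        · exact Or.inl hg
      · intro h l k g hg
        exact (h l k g).resolve_left (fun h' => h' hg)
    rw [this]
    refine MeasurableSet.iInter fun l => MeasurableSet.iInter fun k => MeasurableSet.iInter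
      fun g => (hZlg l g).compl.union ?_
    exact measurableSet_eq_fun (hc.comp ((measurable_tr ξ hξ k).comp (hpair l g)))
      (hc.comp (hpair l g))
  have hgood_ae : ∀ᵐ ω ∂P, ω ∈ SelC_good ξ c := by
    have h0 : ∀ᵐ ω ∂P, ∀ k g : G, (ω, g) ∈ ZZ ξ → c (tr ξ k (ω, g)) = c (ω, g) := by
      rw [ae_all_iff]
      intro k
      have h1 : ∀ᵐ q ∂(P.prod (Measure.count : Measure G)), q ∈ ZZ ξ → c (tr ξ k q) = c q :=
        (ae_restrict_iff' hZ).1 (hinv k)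
      have h2 := Measure.ae_ae_of_ae_prod h1
      filter_upwards [h2] with ω hω
      rw [ae_iff, Measure.count_eq_zero_iff] at hω
      intro g hg
      by_contra hne
      have : g ∈ {a : G | ¬ ((ω, a) ∈ ZZ ξ → c (tr ξ k (ω, a)) = c (ω, a))} := by
        simp only [Set.mem_setOf_eq, not_forall]
        exact ⟨hg, hne⟩
      rw [hω] at this
      exact this
    have h3 : ∀ l : G, ∀ᵐ ω ∂P, ∀ k g : G, (l • ω, g) ∈ ZZ ξ →
        c (tr ξ k (l • ω, g)) = c (l • ω, g) := by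
      intro l
      exact (measurePreserving_smul l P).quasiMeasurePreserving.ae h0
    exact (ae_all_iff.2 h3)
  have hVmeas : ∀ g : G, MeasurableSet {ω | SelC_V ξ c ω = {ξ (g • ω)}} := by
    intro g
    have hpair1 : ∀ h : G, Measurable (fun ω : Ω => (ω, h)) := fun h =>
      measurable_id.prodMk measurable_const
    have hA : ∀ h : G, MeasurableSet {ω : Ω | (ω, h) ∈ ZZ ξ ∧ 1 / 2 < c (ω, h)} := fun h =>
      (hpair1 h hZ).inter (measurableSet_lt measurable_const (hc.comp (hpair1 h)))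
    have : {ω | SelC_V ξ c ω = {ξ (g • ω)}} =
        (⋃ h : G, {ω : Ω | (ω, h) ∈ ZZ ξ ∧ 1 / 2 < c (ω, h)} ∩ {ω | ξ (h • ω) = ξ (g • ω)}) ∩
        ⋂ h : G, ({ω : Ω | (ω, h) ∈ ZZ ξ ∧ 1 / 2 < c (ω, h)}ᶜ ∪
          {ω | ξ (h • ω) = ξ (g • ω)}) := by
      ext ω
      rw [Set.mem_setOf_eq, SelC_V_eq]
      simp only [Set.mem_inter_iff, Set.mem_iUnion, Set.mem_iInter, Set.mem_union,
        Set.mem_compl_iff, Set.mem_setOf_eq, and_assoc]
      refine and_congr Iff.rfl (forall_congr' fun h => ?_)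
      constructor
      · intro h1
        by_cases h2 : (ω, h) ∈ ZZ ξ ∧ 1 / 2 < c (ω, h)
        · exact Or.inr (h1 h2)
        · exact Or.inl h2
      · intro h1 h2
        exact h1.resolve_left (fun h' => h' h2)
    rw [this]
    exact (MeasurableSet.iUnion fun h => (hA h).inter (hξ h g)).inter
      (MeasurableSet.iInter fun h => (hA h).compl.union (hξ h g))
  have hRmeas : ∀ g : G, MeasurableSet {ω | SelC_R ξ c ω = some (ξ (g • ω))} := by
    intro g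
    have : {ω | SelC_R ξ c ω = some (ξ (g • ω))} =
        SelC_good ξ c ∩ {ω | SelC_V ξ c ω = {ξ (g • ω)}} := by
      ext ω
      rw [Set.mem_setOf_eq, SelC_R_eq]
      rfl
    rw [this]
    exact hgood_meas.inter (hVmeas g)
  have hex : ∀ ω d, SelC_R ξ c ω = some d → ∃ g : G, d = ξ (g • ω) := by
    intro ω d h
    have h2 := ((SelC_R_eq ξ c ω d).1 h).2
    obtain ⟨⟨g, -, -, hg⟩, -⟩ := (SelC_V_eq ξ c ω d).1 h2
    exact ⟨g, hg.symm⟩
  -- the size
  have hrep1 : MeasurableSet {q : Ω × G | rep ξ q.1 q.2 = rep ξ q.1 1} := by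
    have r1 : Measurable (fun q : Ω × G => rep ξ q.1 q.2) :=
      measurable_from_prod_countable_left fun g => measurable_rep ξ hξ g
    have r2 : Measurable (fun q : Ω × G => rep ξ q.1 (1 : G)) :=
      (measurable_rep ξ hξ 1).comp measurable_fst
    have hd : MeasurableSet {p : G × G | p.1 = p.2} := MeasurableSet.of_discrete
    exact (r1.prodMk r2) hd
  have hind : Measurable (ind1 ξ : Ω × G → ℝ) := measurable_const.indicator hrep1
  set F : Ω × G → ENNReal := (ZZ ξ).indicator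
    (fun q => ENNReal.ofReal ((ind1 ξ q - c q) ^ 2)) with hF
  have hFm : Measurable F :=
    (ENNReal.measurable_ofReal.comp ((hind.sub hc).pow_const 2)).indicator hZ
  have hint : ∫⁻ ω, ∫⁻ g, F (ω, g) ∂(Measure.count : Measure G) ∂P ≤ ENNReal.ofReal (1 / 64) := by
    rw [← lintegral_prod F hFm.aemeasurable, hF, lintegral_indicator hZ]
    exact hclose
  set S : Ω → ENNReal := fun ω => ∫⁻ g, F (ω, g) ∂(Measure.count : Measure G) with hS
  have hSm : Measurable S := hFm.lintegral_prod_right'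
  have hbad : P {ω | ENNReal.ofReal (1 / 16) ≤ S ω} ≤ ENNReal.ofReal (1 / 4) := by
    refine (meas_ge_le_lintegral_div hSm.aemeasurable (by simp) (by simp)).trans ?_
    refine (ENNReal.div_le_div_right hint _).trans ?_
    rw [← ENNReal.ofReal_div_of_pos (by norm_num)]
    norm_num
  have hsub : {ω | ENNReal.ofReal (1 / 16) ≤ S ω}ᶜ ∩ SelC_good ξ c ⊆
      {ω | SelC_R ξ c ω = some (ξ ω)} := by
    rintro ω ⟨h1, h2⟩
    rw [Set.mem_compl_iff, Set.mem_setOf_eq, not_le] at h1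
    rw [Set.mem_setOf_eq, SelC_R_eq]
    refine ⟨h2, ?_⟩
    have hterm : ∀ g : G, (ω, g) ∈ ZZ ξ → (ind1 ξ (ω, g) - c (ω, g)) ^ 2 < 1 / 16 := by
      intro g hg
      have h3 : F (ω, g) ≤ S ω := by
        rw [hS]
        simp only
        rw [lintegral_count]
        exact ENNReal.le_tsum g
      have h4 : F (ω, g) = ENNReal.ofReal ((ind1 ξ (ω, g) - c (ω, g)) ^ 2) := by
        rw [hF]
        exact Set.indicator_of_mem hg _
      rw [h4] at h3
      exact (ENNReal.ofReal_lt_ofReal_iff (by norm_num)).1 (h3.trans_lt h1)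
    rw [SelC_V_eq]
    constructor
    · have h5 : rep ξ ω (rep ξ ω (1 : G)) = rep ξ ω (1 : G) := by
        rw [rep_eq_iff ξ ω, rep_spec ξ ω]
      refine ⟨rep ξ ω (1 : G), h5, ?_, ?_⟩
      · have h6 := hterm (rep ξ ω (1 : G)) h5
        have h7 : ind1 ξ (ω, rep ξ ω (1 : G)) = 1 :=
          Set.indicator_of_mem (s := {q : Ω × G | rep ξ q.1 q.2 = rep ξ q.1 1}) h5 _
        rw [h7] at h6
        nlinarith [h6]
      · rw [rep_spec ξ ω, one_smul]
    · rintro g ⟨h5, h6⟩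
      by_contra hne
      have h7 : ind1 ξ (ω, g) = 0 := by
        refine Set.indicator_of_notMem ?_ _
        intro h8
        have h9 : rep ξ ω g = rep ξ ω 1 := h8
        rw [rep_eq_iff ξ ω, one_smul] at h9
        exact hne h9
      have h8 := hterm g h5
      rw [h7] at h8
      nlinarith [h8, h6]
  have hbig : 3 / 4 ≤ P.real {ω | SelC_R ξ c ω = some (ξ ω)} := by
    have hB : MeasurableSet {ω | ENNReal.ofReal (1 / 16) ≤ S ω} :=
      measurableSet_le measurable_const hSm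
    have h1 : P.real {ω | ENNReal.ofReal (1 / 16) ≤ S ω} ≤ 1 / 4 := by
      rw [Measure.real]
      exact ENNReal.toReal_le_of_le_ofReal (by norm_num) hbad
    have h2 : P.real ({ω | ENNReal.ofReal (1 / 16) ≤ S ω}ᶜ ∩ SelC_good ξ c) =
        P.real {ω | ENNReal.ofReal (1 / 16) ≤ S ω}ᶜ := by
      refine measureReal_congr ?_
      filter_upwards [hgood_ae] with ω hω
      apply propext
      exact ⟨fun h => h.1, fun h => ⟨h, hω⟩⟩
    have h3 := measureReal_mono (μ := P) hsub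
    rw [h2, probReal_compl_eq_one_sub hB] at h3
    linarith
  refine ⟨SelC_R ξ c, ?_, hex, hRmeas, ?_, hbig⟩
  · intro g ω
    exact SelC_inv ξ c g ω
  · have hQ : {ω | SelC_R ξ c ω ≠ none} = ⋃ g : G, {ω | SelC_R ξ c ω = some (ξ (g • ω))} := by
      ext ω
      simp only [Set.mem_setOf_eq, Set.mem_iUnion]
      constructor
      · intro h
        obtain ⟨d, hd⟩ := Option.ne_none_iff_exists'.1 h
        obtain ⟨g, hg⟩ := hex ω d hd
        exact ⟨g, by rw [hd, hg]⟩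
      · rintro ⟨g, hg⟩ h
        rw [hg] at h
        exact absurd h (by simp)
    have hQm : MeasurableSet {ω | SelC_R ξ c ω ≠ none} := by
      rw [hQ]
      exact MeasurableSet.iUnion hRmeas
    refine SelC_ergodic (G := G) P hQm (fun g ω => ?_) ?_
    · show SelC_R ξ c (g • ω) ≠ none ↔ SelC_R ξ c ω ≠ none
      rw [SelC_inv]
    · intro h0
      have h1 : P.real {ω | SelC_R ξ c ω = some (ξ ω)} ≤ P.real {ω | SelC_R ξ c ω ≠ none} := by
        refine measureReal_mono ?_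
        intro ω hω h
        rw [Set.mem_setOf_eq] at hω
        rw [hω] at h
        exact absurd h (by simp)
      have h2 : P.real {ω | SelC_R ξ c ω ≠ none} = 0 :=
        (congrArg ENNReal.toReal h0).trans ENNReal.toReal_zero
      linarith

/-- The selection theorem. -/
theorem exists_sel {G : Type} [Group G] [Countable G] {n : ℕ} (x : Fin n → G) {C : ℝ}
    (hT : HasGap x C) {Ω D : Type} [MeasurableSpace Ω] [MulAction G Ω]
    [MeasurableConstSMul G Ω] (ξ : Ω → D) (P : Measure Ω) [IsProbabilityMeasure P]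
    [ErgodicSMul G Ω P] (hξ : ∀ g h : G, MeasurableSet {ω | ξ (g • ω) = ξ (h • ω)})
    (hsmall : 2 * C * ∑ i, P.real {ω | ξ (x i • ω) ≠ ξ ω} ≤ 1 / 64) :
    ∃ R : Ω → Option D, Sel G P ξ R := by
  classical
  letI : Encodable G := Encodable.ofCountable G
  letI : MeasurableSpace G := ⊤
  haveI : DiscreteMeasurableSpace G := ⟨fun _ => trivial⟩
  obtain ⟨c, hc, hinv, hclose⟩ := exists_inv_fun ξ P hξ x hT
  exact exists_sel_of_fun ξ P hξ c hc hinv
    (hclose.trans (ENNReal.ofReal_le_ofReal hsmall))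

/-- Zero-one law for selections: a predicate which holds with probability more than `3/4` for the
values `ξ₁, ξ₂, ξ₃` holds almost surely for the selections. -/
theorem sel_zero_one {G : Type} [Group G] [Countable G] {Ω D₁ D₂ D₃ : Type}
    [MeasurableSpace Ω] [MulAction G Ω] [MeasurableConstSMul G Ω] (P : Measure Ω)
    [IsProbabilityMeasure P] [ErgodicSMul G Ω P] (ξ₁ : Ω → D₁) (ξ₂ : Ω → D₂) (ξ₃ : Ω → D₃)
    (R₁ : Ω → Option D₁) (R₂ : Ω → Option D₂) (R₃ : Ω → Option D₃) (h₁ : Sel G P ξ₁ R₁)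
    (h₂ : Sel G P ξ₂ R₂) (h₃ : Sel G P ξ₃ R₃) (Φ : D₁ → D₂ → D₃ → Prop)
    (hΦ : ∀ g₁ g₂ g₃ : G, MeasurableSet {ω | Φ (ξ₁ (g₁ • ω)) (ξ₂ (g₂ • ω)) (ξ₃ (g₃ • ω))})
    (hlt : P.real {ω | ¬ Φ (ξ₁ ω) (ξ₂ ω) (ξ₃ ω)} < 1 / 4) :
    ∀ᵐ ω ∂P, ∃ d₁ d₂ d₃, R₁ ω = some d₁ ∧ R₂ ω = some d₂ ∧ R₃ ω = some d₃ ∧ Φ d₁ d₂ d₃ := by
  set W : Set Ω := {ω | ∃ d₁ d₂ d₃, R₁ ω = some d₁ ∧ R₂ ω = some d₂ ∧ R₃ ω = some d₃ ∧
    Φ d₁ d₂ d₃} with hW
  have hWu : W = ⋃ g₁ : G, ⋃ g₂ : G, ⋃ g₃ : G, {ω | R₁ ω = some (ξ₁ (g₁ • ω))} ∩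
      {ω | R₂ ω = some (ξ₂ (g₂ • ω))} ∩ {ω | R₃ ω = some (ξ₃ (g₃ • ω))} ∩
      {ω | Φ (ξ₁ (g₁ • ω)) (ξ₂ (g₂ • ω)) (ξ₃ (g₃ • ω))} := by
    ext ω
    simp only [hW, Set.mem_setOf_eq, Set.mem_iUnion, Set.mem_inter_iff]
    constructor
    · rintro ⟨d₁, d₂, d₃, e₁, e₂, e₃, h⟩
      obtain ⟨g₁, rfl⟩ := h₁.ex ω d₁ e₁
      obtain ⟨g₂, rfl⟩ := h₂.ex ω d₂ e₂
      obtain ⟨g₃, rfl⟩ := h₃.ex ω d₃ e₃
      exact ⟨g₁, g₂, g₃, ⟨⟨e₁, e₂⟩, e₃⟩, h⟩
    · rintro ⟨g₁, g₂, g₃, ⟨⟨e₁, e₂⟩, e₃⟩, h⟩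
      exact ⟨_, _, _, e₁, e₂, e₃, h⟩
  have hWm : MeasurableSet W := by
    rw [hWu]
    exact MeasurableSet.iUnion fun g₁ => MeasurableSet.iUnion fun g₂ => MeasurableSet.iUnion
      fun g₃ => (((h₁.meas g₁).inter (h₂.meas g₂)).inter (h₃.meas g₃)).inter (hΦ g₁ g₂ g₃)
  refine SelC_ergodic (G := G) P hWm (fun g ω => ?_) ?_
  · show (∃ d₁ d₂ d₃, R₁ (g • ω) = some d₁ ∧ R₂ (g • ω) = some d₂ ∧ R₃ (g • ω) = some d₃ ∧
      Φ d₁ d₂ d₃) ↔ _
    rw [h₁.inv, h₂.inv, h₃.inv]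
    rfl
  · intro h0
    have m₁ : MeasurableSet {ω | R₁ ω = some (ξ₁ ω)} := by
      have := h₁.meas 1
      simpa only [one_smul] using this
    have m₂ : MeasurableSet {ω | R₂ ω = some (ξ₂ ω)} := by
      have := h₂.meas 1
      simpa only [one_smul] using this
    have m₃ : MeasurableSet {ω | R₃ ω = some (ξ₃ ω)} := by
      have := h₃.meas 1
      simpa only [one_smul] using this
    have hcov : (Set.univ : Set Ω) ⊆ W ∪ ({ω | R₁ ω = some (ξ₁ ω)}ᶜ ∪
        ({ω | R₂ ω = some (ξ₂ ω)}ᶜ ∪ ({ω | R₃ ω = some (ξ₃ ω)}ᶜ ∪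
          {ω | ¬ Φ (ξ₁ ω) (ξ₂ ω) (ξ₃ ω)}))) := by
      intro ω _
      by_cases e₁ : R₁ ω = some (ξ₁ ω)
      · by_cases e₂ : R₂ ω = some (ξ₂ ω)
        · by_cases e₃ : R₃ ω = some (ξ₃ ω)
          · by_cases e₄ : Φ (ξ₁ ω) (ξ₂ ω) (ξ₃ ω)
            · exact Or.inl ⟨_, _, _, e₁, e₂, e₃, e₄⟩
            · exact Or.inr (Or.inr (Or.inr (Or.inr e₄)))
          · exact Or.inr (Or.inr (Or.inr (Or.inl e₃)))
        · exact Or.inr (Or.inr (Or.inl e₂))
      · exact Or.inr (Or.inl e₁)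
    have c₁ := probReal_compl_eq_one_sub (μ := P) m₁
    have c₂ := probReal_compl_eq_one_sub (μ := P) m₂
    have c₃ := probReal_compl_eq_one_sub (μ := P) m₃
    have hle := measureReal_mono (μ := P) hcov
    have u1 := measureReal_union_le (μ := P) W ({ω | R₁ ω = some (ξ₁ ω)}ᶜ ∪
        ({ω | R₂ ω = some (ξ₂ ω)}ᶜ ∪ ({ω | R₃ ω = some (ξ₃ ω)}ᶜ ∪
          {ω | ¬ Φ (ξ₁ ω) (ξ₂ ω) (ξ₃ ω)})))
    have u2 := measureReal_union_le (μ := P) {ω | R₁ ω = some (ξ₁ ω)}ᶜ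
        ({ω | R₂ ω = some (ξ₂ ω)}ᶜ ∪ ({ω | R₃ ω = some (ξ₃ ω)}ᶜ ∪
          {ω | ¬ Φ (ξ₁ ω) (ξ₂ ω) (ξ₃ ω)}))
    have u3 := measureReal_union_le (μ := P) {ω | R₂ ω = some (ξ₂ ω)}ᶜ
        ({ω | R₃ ω = some (ξ₃ ω)}ᶜ ∪ {ω | ¬ Φ (ξ₁ ω) (ξ₂ ω) (ξ₃ ω)})
    have u4 := measureReal_union_le (μ := P) {ω | R₃ ω = some (ξ₃ ω)}ᶜ
        {ω | ¬ Φ (ξ₁ ω) (ξ₂ ω) (ξ₃ ω)}
    have hW0 : P.real W = 0 := (congrArg ENNReal.toReal h0).trans ENNReal.toReal_zero
    have hu : P.real (Set.univ : Set Ω) = 1 := probReal_univ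
    have b₁ := h₁.big
    have b₂ := h₂.big
    have b₃ := h₃.big
    linarith

end Pool.Agent.TLA
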