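import Pool.Agent.TLA.Path
import Pool.Agent.TLA.SelC

/-! Orbits of pairs along the path (block D2): definitions. -/

set_option autoImplicit false

open MeasureTheory Filter
open scoped Pointwise

namespace Pool.Agent.TLA

variable {G Z : Type} [Group G] [MeasurableSpace Z]

/-- `f` maps orbits into orbits. -/
def OrbPres (f : Bern G Z → Set G) : Prop := ∀ (g : G) (x : Bern G Z), ∃ k : G, f (g • x) = k • f x

/-- The orbit of the pair `(f (x_s), f (x_t))`. -/
noncomputable def xi (f : Bern G Z → Set G) (s t : ℝ) (ω : Om G Z) : Set (Set G × Set G) :=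
  {q | ∃ k : G, q = (k • f (path s ω), k • f (path t ω))}

/-- The closure of the stabilizer, at level `i`. -/
def cl (N : ℕ → Subgroup G) (i : ℕ) (u : Set G) : Subgroup G := MulAction.stabilizer G u ⊔ N i

/-- A cofinal decreasing sequence of normal subgroups of `p`-power index with trivial
intersection. -/
structure Cof (p : ℕ) (N : ℕ → Subgroup G) : Prop where
  normal : ∀ i, (N i).Normal
  index : ∀ i, ∃ k, (N i).index = p ^ k
  anti : Antitone N
  cof : ∀ U : Subgroup G, U.Normal → (∃ k, U.index = p ^ k) → ∃ i, N i ≤ U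
  triv : ∀ g : G, (∀ i, g ∈ N i) → g = 1

/-- The normalizer of a sequence of subgroups. -/
def nst (Cn : ℕ → Subgroup G) : Subgroup G where
  carrier := {h | ∀ i, ∀ c : G, c ∈ Cn i ↔ h * c * h⁻¹ ∈ Cn i}
  mul_mem' := fun {a b} ha hb i c => by
    rw [hb i c, ha i (b * c * b⁻¹)]
    have : a * (b * c * b⁻¹) * a⁻¹ = a * b * c * (a * b)⁻¹ := by group
    rw [this]
  one_mem' := fun i c => by simp
  inv_mem' := fun {a} ha i c => by
    rw [ha i (a⁻¹ * c * a⁻¹⁻¹)]
    have : a * (a⁻¹ * c * a⁻¹⁻¹) * a⁻¹ = c := by group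
    rw [this]

end Pool.Agent.TLA
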