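import Pool.Agent.TLA.GroupJI
import Pool.Agent.TLA.PairDefs

/-! The group theory of the closures (block D4). -/

set_option autoImplicit false

open scoped Pointwise

namespace Pool.Agent.TLA

variable {G : Type} [Group G] {p : ℕ} [Fact p.Prime]

private theorem groupCase_countable [Group.FG G] : Countable G := by
  obtain ⟨S, hS, hfin⟩ := Group.fg_iff.mp (inferInstance : Group.FG G)
  have := hfin.countable.to_subtype
  have hsurj : Function.Surjective (FreeGroup.lift (fun x : S => (x : G))) := by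
    rw [← MonoidHom.range_eq_top, FreeGroup.range_lift_eq_closure]
    rw [Subtype.range_coe, hS]
  exact hsurj.countable

private theorem groupCase_countable_fg [Group.FG G] : {U : Subgroup G | U.index ≠ 0}.Countable := by
  have := groupCase_countable (G := G)
  have h1 : {U : Subgroup G | U.index ≠ 0} ⊆
      Set.range (fun T : Finset G => Subgroup.closure (T : Set G)) := by
    intro U hU
    have : U.FiniteIndex := ⟨hU⟩
    have h2 : Group.FG U := Subgroup.fg_of_index_ne_zero U
    obtain ⟨T, hT⟩ := (Group.fg_iff_subgroup_fg U).mp h2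
    exact ⟨T, hT⟩
  exact (Set.countable_range _).mono h1

private theorem groupCase_inf {U W : Subgroup G} (hU : U.Normal)
    (hUp : ∃ k, U.index = p ^ k) (hWp : ∃ k, W.index = p ^ k) :
    ∃ k, (U ⊓ W).index = p ^ k := by
  obtain ⟨a, ha⟩ := hUp
  obtain ⟨b, hb⟩ := hWp
  have h1 := Subgroup.relIndex_mul_index (inf_le_right : U ⊓ W ≤ W)
  rw [Subgroup.inf_relIndex_right] at h1
  have h2 : U.relIndex W ∣ p ^ a := ha ▸ Subgroup.relIndex_dvd_index_of_normal U W
  obtain ⟨k, -, hk⟩ := (Nat.dvd_prime_pow Fact.out).mp h2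
  exact ⟨k + b, by rw [← h1, hk, hb, pow_add]⟩

/-- the partial intersections of a sequence of subgroups -/
private def groupCaseN (e : ℕ → Subgroup G) : ℕ → Subgroup G
  | 0 => e 0
  | i + 1 => groupCaseN e i ⊓ e (i + 1)

omit [Fact p.Prime] in
private theorem groupCase_conj (N : ℕ → Subgroup G) (hN : Cof p N) (u : Set G) (h c : G) (i : ℕ)
    (hc : c ∈ cl N i u) : h * c * h⁻¹ ∈ cl N i (h • u) := by
  have := hN.normal i
  unfold cl at hc ⊢
  obtain ⟨k, hk, n, hn, rfl⟩ := Subgroup.mem_sup_of_normal_right.mp hc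
  refine Subgroup.mem_sup_of_normal_right.mpr ⟨h * k * h⁻¹, ?_, h * n * h⁻¹,
    (hN.normal i).conj_mem n hn h, by group⟩
  rw [MulAction.mem_stabilizer_iff] at hk ⊢
  rw [smul_smul, inv_mul_cancel_right, mul_smul, hk]

omit [Fact p.Prime] in
private theorem groupCase_le_nst (Cn : ℕ → Subgroup G) : (⨅ i, Cn i) ≤ nst Cn := by
  intro h hh i c
  have h1 : h ∈ Cn i := (Subgroup.mem_iInf.mp hh) i
  constructor
  · intro hc
    exact (Cn i).mul_mem ((Cn i).mul_mem h1 hc) ((Cn i).inv_mem h1)
  · intro hc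
    have h2 := (Cn i).mul_mem ((Cn i).mul_mem ((Cn i).inv_mem h1) hc) h1
    have h3 : h⁻¹ * (h * c * h⁻¹) * h = c := by group
    rwa [h3] at h2

omit [Fact p.Prime] in
private theorem groupCase_conj_iInf (Cn : ℕ → Subgroup G) (h : G) (hh : h ∈ nst Cn) (c : G)
    (hc : c ∈ (⨅ i, Cn i : Subgroup G)) : h * c * h⁻¹ ∈ (⨅ i, Cn i : Subgroup G) := by
  rw [Subgroup.mem_iInf] at hc ⊢
  intro i
  exact (hh i c).mp (hc i)

/-- A finitely generated residually-`p` group has a cofinal sequence. -/
theorem exists_cof [Group.FG G] (hR : ResP p G) : ∃ N : ℕ → Subgroup G, Cof p N := by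
  have hp : p.Prime := Fact.out
  set F : Set (Subgroup G) := {U | U.Normal ∧ ∃ k, U.index = p ^ k} with hF
  have hcnt : F.Countable := by
    refine groupCase_countable_fg.mono ?_
    rintro U ⟨-, k, hk⟩ h0
    rw [hk] at h0
    exact pow_ne_zero _ hp.ne_zero h0
  have hne : F.Nonempty := ⟨⊤, inferInstance, 0, by simp⟩
  obtain ⟨e, he⟩ := hcnt.exists_eq_range hne
  have heF : ∀ i, e i ∈ F := fun i => by rw [he]; exact ⟨i, rfl⟩
  have hNF : ∀ i, groupCaseN e i ∈ F := by
    intro i
    induction i with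
    | zero => exact heF 0
    | succ i ih =>
      have h1 := ih.1
      have h2 := (heF (i + 1)).1
      exact ⟨Subgroup.normal_inf_normal _ _, groupCase_inf h1 ih.2 (heF (i + 1)).2⟩
  have hanti : Antitone (groupCaseN e) := antitone_nat_of_succ_le fun i => inf_le_left
  have hle : ∀ i, groupCaseN e i ≤ e i := by
    intro i
    cases i with
    | zero => exact le_rfl
    | succ i => exact inf_le_right
  have hcof : ∀ U : Subgroup G, U.Normal → (∃ k, U.index = p ^ k) →
      ∃ i, groupCaseN e i ≤ U := by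
    intro U hU hUp
    have h1 : U ∈ Set.range e := by rw [← he]; exact ⟨hU, hUp⟩
    obtain ⟨i, rfl⟩ := h1
    exact ⟨i, hle i⟩
  refine ⟨groupCaseN e, fun i => (hNF i).1, fun i => (hNF i).2, hanti, hcof, ?_⟩
  intro g hg
  by_contra hne1
  obtain ⟨U, hU, hUp, hgU⟩ := hR g hne1
  obtain ⟨i, hi⟩ := hcof U hU hUp
  exact hgU (hi (hg i))

/-- (b): a stabilizer of infinite index cannot have closures `Cn i` with infinite intersection and
normalizer of finite index. -/
theorem no_dense_stab [Group.FG G] [Infinite G] (hF : FinOrFI G) (hJ : JustInf G)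
    (hR : ResP p G) (N : ℕ → Subgroup G) (hN : Cof p N) (Cn : ℕ → Subgroup G) (u : Set G)
    (hu : ∀ i, cl N i u = Cn i) (hidx : (MulAction.stabilizer G u).index = 0)
    (hnst : (nst Cn).index ≠ 0) (hinf : Infinite (⨅ i, Cn i : Subgroup G)) : False := by
  set K : Subgroup G := MulAction.stabilizer G u with hKdef
  set S : Subgroup G := ⨅ i, Cn i with hSdef
  have hKN : ∀ i, Cn i = K ⊔ N i := fun i => (hu i).symm
  have hKS : K ≤ S := le_iInf fun i => by rw [hKN i]; exact le_sup_left
  have hS : S.index ≠ 0 := hF.normal_of_finiteIndex hJ (nst Cn) S hnst (groupCase_le_nst Cn)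
    (fun g hg s hs => groupCase_conj_iInf Cn g hg s hs) hinf
  have hanti : Antitone Cn := by
    intro i j hij
    rw [hKN i, hKN j]
    exact sup_le_sup_left (hN.anti hij) K
  have hCi : ∀ i, (Cn i).index ≤ S.index := fun i =>
    Nat.le_of_dvd (Nat.pos_of_ne_zero hS) (Subgroup.index_dvd_of_le (iInf_le Cn i))
  have hCi0 : ∀ i, (Cn i).index ≠ 0 := fun i h0 => by
    have h1 := Subgroup.index_dvd_of_le (iInf_le Cn i)
    rw [h0, zero_dvd_iff] at h1
    exact hS h1
  have hfin : (Set.range fun i => (Cn i).index).Finite :=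
    (Set.finite_Iic S.index).subset (by rintro _ ⟨i, rfl⟩; exact hCi i)
  obtain ⟨m, ⟨i₀, rfl⟩, hm⟩ := Set.exists_max_image _ id hfin ⟨_, 0, rfl⟩
  have hstab : ∀ j, i₀ ≤ j → Cn i₀ ≤ Cn j := by
    intro j hj
    have h3 := hanti hj
    have h4 := Subgroup.relIndex_mul_index h3
    have h5 := hm _ ⟨j, rfl⟩
    simp only [id] at h5
    have h6 : (Cn j).relIndex (Cn i₀) = 1 := by
      by_contra hne
      have h8 : (Cn j).relIndex (Cn i₀) ≠ 0 := by
        intro h0
        rw [h0, zero_mul] at h4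
        exact hCi0 j h4.symm
      have h9 : 2 ≤ (Cn j).relIndex (Cn i₀) := by omega
      have h10 := Nat.mul_le_mul_right (Cn i₀).index h9
      have h11 := hCi0 i₀
      rw [h4] at h10
      omega
    exact Subgroup.relIndex_eq_one.mp h6
  have hNS : N i₀ ≤ S := by
    refine le_trans ?_ (le_iInf fun j => ?_ : Cn i₀ ≤ S)
    · rw [hKN i₀]
      exact le_sup_right
    · rcases le_total i₀ j with hj | hj
      · exact hstab j hj
      · exact hanti hj
  obtain ⟨k, hk⟩ := hN.index i₀
  obtain ⟨U, hU, hUp, hno⟩ := hF.not_dense hR K S hidx hS hKS (N i₀) (hN.normal i₀) k hk hNS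
  obtain ⟨i, hi⟩ := hN.cof U hU hUp
  apply hno
  refine (iInf_le Cn i).trans ?_
  rw [hKN i]
  exact sup_le_sup_left hi K

omit [Fact p.Prime] in
/-- (c): if the intersection is finite it is the stabilizer. -/
theorem stab_eq_of_finite (N : ℕ → Subgroup G) (hN : Cof p N) (Cn : ℕ → Subgroup G) (u : Set G)
    (hu : ∀ i, cl N i u = Cn i) (hfin : Finite (⨅ i, Cn i : Subgroup G)) :
    MulAction.stabilizer G u = ⨅ i, Cn i := by
  have hKS : MulAction.stabilizer G u ≤ ⨅ i, Cn i :=
    le_iInf fun i => by rw [← hu i]; exact le_sup_left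
  refine le_antisymm hKS fun s hs => ?_
  have hfinK : Finite (MulAction.stabilizer G u) :=
    Finite.of_injective (fun k => (⟨k.1, hKS k.2⟩ : (⨅ i, Cn i : Subgroup G)))
      (fun a b hab => Subtype.ext (congrArg (fun z => z.1) hab))
  have h1 : ∀ i : ℕ, ∃ k : MulAction.stabilizer G u, (k : G)⁻¹ * s ∈ N i := by
    intro i
    have := hN.normal i
    have h2 : s ∈ cl N i u := by
      rw [hu i]
      exact (Subgroup.mem_iInf.mp hs) i
    obtain ⟨k, hk, n, hn, hkn⟩ := Subgroup.mem_sup_of_normal_right.mp h2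
    refine ⟨⟨k, hk⟩, ?_⟩
    rw [← hkn, inv_mul_cancel_left]
    exact hn
  choose k hk using h1
  obtain ⟨k₀, hk₀⟩ := Finite.exists_infinite_fiber k
  have hall : ∀ i, (k₀ : G)⁻¹ * s ∈ N i := by
    intro i
    have h3 := Set.infinite_coe_iff.mp hk₀
    obtain ⟨j, hj, hij⟩ := h3.exists_gt i
    have h4 : k j = k₀ := hj
    have h5 := hk j
    rw [h4] at h5
    exact hN.anti hij.le h5
  have h6 := hN.triv _ hall
  have h7 : s = k₀ := by
    rw [inv_mul_eq_one] at h6
    exact h6.symm
  rw [h7]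
  exact k₀.2

omit [Fact p.Prime] in
theorem iInf_le_nst (N : ℕ → Subgroup G) (Cn : ℕ → Subgroup G) : (⨅ i, Cn i) ≤ nst Cn :=
  groupCase_le_nst Cn

omit [Fact p.Prime] in
theorem conj_iInf (Cn : ℕ → Subgroup G) (h : G) (hh : h ∈ nst Cn) (c : G)
    (hc : c ∈ (⨅ i, Cn i : Subgroup G)) : h * c * h⁻¹ ∈ (⨅ i, Cn i : Subgroup G) :=
  groupCase_conj_iInf Cn h hh c hc

omit [Fact p.Prime] in
/-- Translating elements between points with the same closures are in the normalizer. -/
theorem mem_nst (N : ℕ → Subgroup G) (hN : Cof p N) (Cn : ℕ → Subgroup G) (u : Set G) (h : G)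
    (hu : ∀ i, cl N i u = Cn i) (hu' : ∀ i, cl N i (h • u) = Cn i) : h ∈ nst Cn := by
  intro i c
  constructor
  · intro hc
    rw [← hu i] at hc
    rw [← hu' i]
    exact groupCase_conj N hN u h c i hc
  · intro hc
    rw [← hu' i] at hc
    have h1 := groupCase_conj N hN (h • u) h⁻¹ _ i hc
    rw [inv_smul_smul, hu i] at h1
    have h2 : h⁻¹ * (h * c * h⁻¹) * h⁻¹⁻¹ = c := by group
    rwa [h2] at h1

end Pool.Agent.TLA
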