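import Pool.Agent.TLA.Ball

/-! Images of systems. -/

set_option autoImplicit false

namespace Pool.Agent.TLA

variable (p : ℕ) {Γ : Type} [Group Γ]

namespace WSys

variable (S : WSys Γ)

/-- The image of a system under a homomorphism. -/
noncomputable def map {Γ' : Type} [Group Γ'] (f : Γ →* Γ') : WSys Γ' where
  T := S.T
  fin := S.fin
  dec := S.dec
  v := fun t => f (S.v t)
  w := S.w
  w_pos := S.w_pos
  w_lt := S.w_lt

theorem map_H {Γ' : Type} [Group Γ'] (f : Γ →* Γ') : (S.map f).H = S.H.map f := by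
  unfold WSys.H
  rw [MonoidHom.map_closure, ← Set.range_comp]
  rfl

theorem MapA_gr {Γ' : Type} [Group Γ'] (f : Γ →* Γ') (g : Γ) :
    MonoidAlgebra.mapDomainAlgHom (ZMod p) (ZMod p) f (gr p g) = gr p (f g) := by
  unfold gr
  simp [MonoidAlgebra.mapDomainAlgHom]

theorem MapA_mono {Γ' : Type} [Group Γ'] (f : Γ →* Γ') (l : List (S.T × Bool)) :
    (S.map f).mono p l =
      MonoidAlgebra.mapDomainAlgHom (ZMod p) (ZMod p) f (S.mono p l) := by
  unfold WSys.mono
  rw [map_list_prod, List.map_map]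
  refine congrArg List.prod (List.map_congr_left fun q _ => ?_)
  change (S.map f).letter p q = MonoidAlgebra.mapDomainAlgHom (ZMod p) (ZMod p) f (S.letter p q)
  unfold WSys.letter
  cases q.2
  · rw [if_neg (by simp), if_neg (by simp), map_sub, map_one, MapA_gr, _root_.map_inv]
    rfl
  · rw [if_pos rfl, if_pos rfl, map_sub, map_one, MapA_gr]
    rfl

theorem map_M {Γ' : Type} [Group Γ'] (f : Γ →* Γ') (c : ℝ) :
    (S.map f).M p c =
      (S.M p c).map (MonoidAlgebra.mapDomainAlgHom (ZMod p) (ZMod p) f).toLinearMap := by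
  unfold WSys.M
  rw [Submodule.map_span]
  congr 1
  ext a
  constructor
  · rintro ⟨l, hl, rfl⟩
    exact ⟨S.mono p l, ⟨l, hl, rfl⟩, (S.MapA_mono p f l).symm⟩
  · rintro ⟨b, ⟨l, hl, rfl⟩, rfl⟩
    exact ⟨l, hl, (S.MapA_mono p f l).symm⟩

theorem map_inv {Γ' : Type} [Group Γ'] (f : Γ →* Γ') (hf : Function.Surjective f)
    (hS : S.Inv p) : (S.map f).Inv p := by
  intro γ' t
  obtain ⟨γ, rfl⟩ := hf γ'
  rw [map_M]
  refine ⟨gr p (γ * S.v t * γ⁻¹) - 1, hS γ t, ?_⟩
  change MonoidAlgebra.mapDomainAlgHom (ZMod p) (ZMod p) f (gr p (γ * S.v t * γ⁻¹) - 1) = _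
  rw [map_sub, map_one, MapA_gr, map_mul, map_mul, _root_.map_inv]
  rfl

end WSys

end Pool.Agent.TLA
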