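import Pool.Agent.TLA.GroupCase

/-! Auxiliary facts for the main theorem. -/

set_option autoImplicit false

open MeasureTheory Filter
open scoped Pointwise

namespace Pool.Agent.TLA

variable {G Z : Type} [Group G] [Countable G] [MeasurableSpace Z] (ζ : Measure Z)
  [IsProbabilityMeasure ζ]

/-- The stabilizer of `f x` has infinite index for almost all `x`. -/
theorem ae_stab_index [Infinite G] (hζ : ∃ t : Set Z, MeasurableSet t ∧ 0 < ζ t ∧ ζ t < 1)
    (f : Bern G Z → Set G) (hinj : Function.Injective f) (ho : OrbPres f) (k : Bern G Z → G) :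
    ∀ᵐ x ∂(Bern.mu G ζ), (MulAction.stabilizer G (k x • f x)).index = 0 := by
  filter_upwards [Bern.ae_infinite_orbit (G := G) ζ hζ] with x hx
  by_contra hne
  rw [MulAction.index_stabilizer, MulAction.orbit_smul] at hne
  have hfin : (MulAction.orbit G (f x)).Finite := Set.finite_of_ncard_ne_zero hne
  have hsub : f '' MulAction.orbit G x ⊆ MulAction.orbit G (f x) := by
    rintro _ ⟨_, ⟨g, rfl⟩, rfl⟩
    obtain ⟨j, hj⟩ := ho g x
    exact ⟨j, hj.symm⟩
  exact hx ((hfin.subset hsub).of_finite_image hinj.injOn)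

/-- The translating elements are in the normalizer. -/
theorem ae_mem_nst {p : ℕ} (N : ℕ → Subgroup G) (hN : Cof p N)
    (f : Bern G Z → Set G) (ho : OrbPres f)
    (Cn : ℕ → Subgroup G) (k : Bern G Z → G)
    (hCn : ∀ᵐ x ∂(Bern.mu G ζ), ∀ i, cl N i (k x • f x) = Cn i) (g : G) :
    ∀ᵐ x ∂(Bern.mu G ζ), ∃ h ∈ nst Cn, k (g • x) • f (g • x) = h • (k x • f x) := by
  have h2 : ∀ᵐ x ∂(Bern.mu G ζ), ∀ i, cl N i (k (g • x) • f (g • x)) = Cn i :=
    (measurePreserving_smul g (Bern.mu G ζ)).quasiMeasurePreserving.ae hCn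
  filter_upwards [hCn, h2] with x hx hgx
  obtain ⟨j, hj⟩ := ho g x
  have heq : k (g • x) • f (g • x) = (k (g • x) * j * (k x)⁻¹) • (k x • f x) := by
    rw [hj, smul_smul, smul_smul]
    congr 1
    group
  refine ⟨k (g • x) * j * (k x)⁻¹, ?_, heq⟩
  refine mem_nst N hN Cn (k x • f x) _ hx ?_
  intro i
  rw [← heq]
  exact hgx i

omit [Countable G] in
/-- Residual finiteness on finite sets. -/
theorem hRF_of_cof {p : ℕ} (hp : 0 < p) (N : ℕ → Subgroup G) (hN : Cof p N) (F : Finset G) :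
    ∃ N : Subgroup G, N.Normal ∧ N.index ≠ 0 ∧ ∀ a ∈ F, ∀ b ∈ F, a⁻¹ * b ∈ N → a = b := by
  classical
  have h1 : ∀ q : G × G, ∃ i, q.1⁻¹ * q.2 ∈ N i → q.1 = q.2 := by
    intro q
    by_cases h : q.1 = q.2
    · exact ⟨0, fun _ => h⟩
    · have h3 : ∃ i, q.1⁻¹ * q.2 ∉ N i := by
        by_contra hcon
        push Not at hcon
        exact h (inv_mul_eq_one.1 (hN.triv _ hcon))
      obtain ⟨i, hi⟩ := h3
      exact ⟨i, fun h4 => absurd h4 hi⟩
  choose i hi using h1
  refine ⟨N ((F ×ˢ F).sup i), hN.normal _, ?_, ?_⟩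
  · obtain ⟨m, hm⟩ := hN.index ((F ×ˢ F).sup i)
    rw [hm]
    exact pow_ne_zero _ hp.ne'
  · intro a ha b hb hab
    refine hi (a, b) (hN.anti ?_ hab)
    exact Finset.le_sup (f := i) (Finset.mk_mem_product ha hb)

end Pool.Agent.TLA
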