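import Pool.Agent.TLA.CaseC
import Pool.Agent.TLA.NoRedAux

/-! There is no injective measurable reduction of the Bernoulli shift to the left action. -/

set_option autoImplicit false

open MeasureTheory Filter
open scoped Pointwise

namespace Pool.Agent.TLA

variable {G Z : Type} [Group G] [Countable G] [MeasurableSpace Z] (ζ : Measure Z)
  [IsProbabilityMeasure ζ]

/-- Main theorem of block D. -/
theorem no_reduction {p n : ℕ} [Fact p.Prime] [Infinite G] [StandardBorelSpace Z]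
    (hζ : ∃ t : Set Z, MeasurableSet t ∧ 0 < ζ t ∧ ζ t < 1)
    (huni : ∀ L₀ : ℕ, ∃ L : ℕ, L₀ ≤ L ∧ ∃ τ₀ : Z → Fin L, Measurable τ₀ ∧
      ∀ i, ζ (τ₀ ⁻¹' {i}) = (L : ENNReal)⁻¹)
    (x : Fin n → G) (hx : TRel p n x) {C : ℝ} (hC : 0 ≤ C) (hT : HasGap x C)
    (hR : ResP p G) (hF : FinOrFI G) (hJ : JustInf G)
    (f : Bern G Z → Set G) (hf : Measurable f) (hinj : Function.Injective f) (ho : OrbPres f) :
    False := by
  haveI : Group.FG G := by
    rw [Group.fg_def]
    rw [← hx.gen]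
    exact Subgroup.fg_iff _ |>.mpr ⟨_, rfl, Set.finite_range x⟩
  have hp : 0 < p := (Fact.out : p.Prime).pos
  obtain ⟨N, hN⟩ := exists_cof hR
  obtain ⟨Cn, hCn₀⟩ := clos_const ζ x hC hT N hN hp f hf ho
  obtain ⟨k, hk, hCn⟩ := exists_translate ζ N hN f hf Cn hCn₀
  have hcoc := ae_mem_nst ζ N hN f ho Cn k hCn
  by_cases hM : (nst Cn).index = 0
  · exact case_a ζ hζ x hC hT hF f hf hinj k hk (nst Cn) hM hcoc
  · by_cases hS : Infinite (⨅ i, Cn i : Subgroup G)
    · obtain ⟨y, hy1, hy2⟩ := (hCn.and (ae_stab_index ζ hζ f hinj ho k)).exists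
      exact no_dense_stab hF hJ hR N hN Cn (k y • f y) hy1 hy2 hM hS
    · exact case_c ζ hζ (hRF_of_cof hp N hN) huni hp x hC hT hF N hN f hf hinj ho Cn
        (not_infinite_iff_finite.mp hS) k hk hCn hcoc

end Pool.Agent.TLA
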