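import Pool.Agent.TLA.PairDefs

/-! Selections for pairs (block D2). -/

set_option autoImplicit false

open MeasureTheory Filter
open scoped Pointwise

namespace Pool.Agent.TLA

variable {G Z : Type} [Group G] [Countable G] [MeasurableSpace Z] (ζ : Measure Z)
  [IsProbabilityMeasure ζ]

theorem measurableSet_eq_smul {Ω : Type} [MeasurableSpace Ω] {a b : Ω → Set G}
    (ha : Measurable a) (hb : Measurable b) (g h : G) :
    MeasurableSet {ω | g • a ω = h • b ω} := by
  have e : {ω | g • a ω = h • b ω} = {ω | ∀ k : G, (g⁻¹ • k ∈ a ω ↔ h⁻¹ • k ∈ b ω)} := by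
    ext ω
    rw [Set.mem_setOf_eq, Set.mem_setOf_eq, Set.ext_iff]
    refine forall_congr' fun k => ?_
    rw [Set.mem_smul_set_iff_inv_smul_mem, Set.mem_smul_set_iff_inv_smul_mem]
  rw [e, Set.setOf_forall]
  refine MeasurableSet.iInter fun k => ?_
  rw [measurableSet_setOf]
  exact ((measurable_set_iff.1 ha) _).iff ((measurable_set_iff.1 hb) _)

theorem xi_eq_iff (f : Bern G Z → Set G) (s t : ℝ) (ω ω' : Om G Z) :
    xi f s t ω = xi f s t ω' ↔
      ∃ k : G, f (path s ω') = k • f (path s ω) ∧ f (path t ω') = k • f (path t ω) := by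
  constructor
  · intro h
    have h1 : (f (path s ω'), f (path t ω')) ∈ xi f s t ω' :=
      ⟨1, by rw [one_smul, one_smul]⟩
    rw [← h] at h1
    obtain ⟨k, hk⟩ := h1
    exact ⟨k, congrArg Prod.fst hk, congrArg Prod.snd hk⟩
  · rintro ⟨k, h1, h2⟩
    ext q
    constructor
    · rintro ⟨l, rfl⟩
      refine ⟨l * k⁻¹, ?_⟩
      rw [h1, h2, smul_smul, smul_smul, inv_mul_cancel_right]
    · rintro ⟨l, rfl⟩
      refine ⟨l * k, ?_⟩
      rw [h1, h2, smul_smul, smul_smul]

private theorem pair_measSMul {G Z : Type} [Group G] [MeasurableSpace Z] :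
    MeasurableConstSMul G (Om G Z) :=
  ⟨fun g => ((measurable_const_smul g).comp measurable_fst).prodMk
    (((measurable_const_smul g).comp (measurable_fst.comp measurable_snd)).prodMk
      ((measurable_const_smul g).comp (measurable_snd.comp measurable_snd)))⟩

private theorem pair_meas (f : Bern G Z → Set G) (hf : Measurable f) (s : ℝ) (g : G) :
    Measurable fun ω : Om G Z => f (path s (g • ω)) := by
  haveI := pair_measSMul (G := G) (Z := Z)
  exact hf.comp ((measurable_path s).comp (measurable_const_smul g))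

private theorem pair_min {n : ℕ} (r : Fin n → ℝ) (h : ∀ i, 0 < r i) :
    ∃ r₀ : ℝ, 0 < r₀ ∧ ∀ i, r₀ ≤ r i := by
  have key : ∀ S : Finset (Fin n), ∃ r₀ : ℝ, 0 < r₀ ∧ ∀ i ∈ S, r₀ ≤ r i := by
    intro S
    classical
    induction S using Finset.induction_on with
    | empty => exact ⟨1, one_pos, fun i hi => absurd hi (Finset.notMem_empty i)⟩
    | insert a S _ ih =>
      obtain ⟨r₀, h0, h1⟩ := ih
      refine ⟨min r₀ (r a), lt_min h0 (h a), fun i hi => ?_⟩
      rcases Finset.mem_insert.1 hi with h2 | h2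
      · rw [h2]
        exact min_le_right _ _
      · exact le_trans (min_le_left _ _) (h1 i h2)
  obtain ⟨r₀, h0, h1⟩ := key Finset.univ
  exact ⟨r₀, h0, fun i => h1 i (Finset.mem_univ i)⟩

private theorem pair_code (f : Bern G Z → Set G) (hf : Measurable f) (ho : OrbPres f) (g : G) :
    ∃ F : Bern G Z → ℕ, Measurable F ∧ ∀ x y, F x = F y →
      ∃ k : G, f (g • x) = k • f x ∧ f (g • y) = k • f y := by
  classical
  letI : Encodable G := Encodable.ofCountable G
  have hp : ∀ x : Bern G Z, ∃ N : ℕ, ∃ k : G, Encodable.encode k = N ∧ f (g • x) = k • f x := by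
    intro x
    obtain ⟨k, hk⟩ := ho g x
    exact ⟨_, k, rfl, hk⟩
  have hm : ∀ N : ℕ, MeasurableSet {x : Bern G Z | ∃ k : G, Encodable.encode k = N ∧
      f (g • x) = k • f x} := by
    intro N
    rw [Set.setOf_exists]
    refine MeasurableSet.iUnion fun k => ?_
    rw [Set.setOf_and]
    refine (MeasurableSet.const _).inter ?_
    have h1 := measurableSet_eq_smul (Ω := Bern G Z) (a := fun x => f (g • x)) (b := f)
      (hf.comp (measurable_const_smul g)) hf 1 k
    simpa only [one_smul] using h1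
  refine ⟨fun x => Nat.find (hp x), measurable_find hp hm, fun x y hxy => ?_⟩
  obtain ⟨k, hk, h1⟩ := Nat.find_spec (hp x)
  obtain ⟨l, hl, h2⟩ := Nat.find_spec (hp y)
  have hkl : k = l := Encodable.encode_injective (by rw [hk, hl]; exact hxy)
  exact ⟨k, h1, by rw [hkl]; exact h2⟩

/-- Selections exist for close times. -/
theorem pair_sel [Infinite G] {n : ℕ} (x : Fin n → G) {C : ℝ} (hC : 0 ≤ C) (hT : HasGap x C)
    (f : Bern G Z → Set G) (hf : Measurable f) (ho : OrbPres f) :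
    ∃ r₀ : ℝ, 0 < r₀ ∧ ∀ s ∈ Set.Icc (0 : ℝ) 1, ∀ t ∈ Set.Icc (0 : ℝ) 1, |s - t| ≤ r₀ →
      ∃ R : Om G Z → Option (Set (Set G × Set G)), Sel G (PP G ζ) (xi f s t) R := by
  classical
  haveI := pair_measSMul (G := G) (Z := Z)
  haveI := ergodic_PP (G := G) ζ
  letI : Encodable G := Encodable.ofCountable G
  have hε : (0 : ℝ) < 1 / (64 * (2 * C * n + 1)) := by positivity
  have hex : ∀ i : Fin n, ∃ r : ℝ, 0 < r ∧ ∀ s ∈ Set.Icc (0 : ℝ) 1, ∀ t ∈ Set.Icc (0 : ℝ) 1,
      |s - t| ≤ r → (PP G ζ).real {ω | xi f s t (x i • ω) ≠ xi f s t ω} ≤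
        1 / (64 * (2 * C * n + 1)) := by
    intro i
    obtain ⟨F, hF, hF2⟩ := pair_code f hf ho (x i)
    obtain ⟨r, hr, h⟩ := modulus ζ F (fun j => hF (measurableSet_singleton j))
      (Set.to_countable _) _ hε
    refine ⟨r, hr, fun s hs t ht hst => le_trans (measureReal_mono ?_) (h s hs t ht hst)⟩
    intro ω hω hne
    apply hω
    obtain ⟨k, h1, h2⟩ := hF2 _ _ hne
    exact ((xi_eq_iff f s t ω (x i • ω)).2
      ⟨k, by rw [path_smul]; exact h1, by rw [path_smul]; exact h2⟩).symm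
  choose r hr0 hr using hex
  obtain ⟨r₀, h0, h1⟩ := pair_min r hr0
  refine ⟨r₀, h0, fun s hs t ht hst => ?_⟩
  refine exists_sel x hT (xi f s t) (PP G ζ) (fun g h => ?_) ?_
  · have e : {ω : Om G Z | xi f s t (g • ω) = xi f s t (h • ω)} =
        {ω | ∃ k : G, ((1 : G) • f (path s (h • ω)) = k • f (path s (g • ω)) ∧
          (1 : G) • f (path t (h • ω)) = k • f (path t (g • ω)))} := by
      ext ω
      rw [Set.mem_setOf_eq, xi_eq_iff, Set.mem_setOf_eq]
      simp only [one_smul]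
    rw [e, Set.setOf_exists]
    refine MeasurableSet.iUnion fun k => ?_
    rw [Set.setOf_and]
    exact (measurableSet_eq_smul (pair_meas f hf s h) (pair_meas f hf s g) 1 k).inter
      (measurableSet_eq_smul (pair_meas f hf t h) (pair_meas f hf t g) 1 k)
  · have h2 : ∑ i, (PP G ζ).real {ω | xi f s t (x i • ω) ≠ xi f s t ω} ≤
        n * (1 / (64 * (2 * C * n + 1))) := by
      have h3 := Finset.sum_le_card_nsmul Finset.univ
        (fun i => (PP G ζ).real {ω | xi f s t (x i • ω) ≠ xi f s t ω})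
        (1 / (64 * (2 * C * n + 1)))
        (fun i _ => hr i s hs t ht (le_trans hst (h1 i)))
      simpa [Finset.card_univ, Fintype.card_fin, nsmul_eq_mul] using h3
    have h4 : 2 * C * ∑ i, (PP G ζ).real {ω | xi f s t (x i • ω) ≠ xi f s t ω} ≤
        2 * C * (n * (1 / (64 * (2 * C * n + 1)))) :=
      mul_le_mul_of_nonneg_left h2 (by positivity)
    refine le_trans h4 ?_
    have h5 : (0 : ℝ) ≤ 2 * C * n := by positivity
    have h6 : 2 * C * (n * (1 / (64 * (2 * C * n + 1)))) =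
        (2 * C * n) / (64 * (2 * C * n + 1)) := by ring
    rw [h6, div_le_div_iff₀ (by positivity) (by norm_num)]
    nlinarith

/-- Composition of selections. -/
theorem sel_comp [Infinite G] (f : Bern G Z → Set G) (hf : Measurable f) (s t v : ℝ)
    (R₁ R₂ R₃ : Om G Z → Option (Set (Set G × Set G))) (h₁ : Sel G (PP G ζ) (xi f s t) R₁)
    (h₂ : Sel G (PP G ζ) (xi f t v) R₂) (h₃ : Sel G (PP G ζ) (xi f s v) R₃) :
    ∀ᵐ ω ∂(PP G ζ), ∃ d₁ d₂ d₃, R₁ ω = some d₁ ∧ R₂ ω = some d₂ ∧ R₃ ω = some d₃ ∧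
      ∀ q ∈ d₃, ∃ b, (q.1, b) ∈ d₁ ∧ (b, q.2) ∈ d₂ := by
  haveI := pair_measSMul (G := G) (Z := Z)
  haveI := ergodic_PP (G := G) ζ
  refine sel_zero_one (PP G ζ) (xi f s t) (xi f t v) (xi f s v) R₁ R₂ R₃ h₁ h₂ h₃
    (fun d₁ d₂ d₃ => ∀ q ∈ d₃, ∃ b, (q.1, b) ∈ d₁ ∧ (b, q.2) ∈ d₂) (fun g₁ g₂ g₃ => ?_) ?_
  · have e : {ω : Om G Z | ∀ q ∈ xi f s v (g₃ • ω), ∃ b, (q.1, b) ∈ xi f s t (g₁ • ω) ∧
        (b, q.2) ∈ xi f t v (g₂ • ω)} =
        {ω | ∀ k : G, ∃ k₁ k₂ : G, (k • f (path s (g₃ • ω)) = k₁ • f (path s (g₁ • ω))) ∧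
          ((k₁ • f (path t (g₁ • ω)) = k₂ • f (path t (g₂ • ω))) ∧
          (k • f (path v (g₃ • ω)) = k₂ • f (path v (g₂ • ω))))} := by
      ext ω
      rw [Set.mem_setOf_eq, Set.mem_setOf_eq]
      constructor
      · intro h k
        obtain ⟨b, ⟨k₁, h1⟩, ⟨k₂, h2⟩⟩ := h (k • f (path s (g₃ • ω)), k • f (path v (g₃ • ω)))
          ⟨k, rfl⟩
        have e1 := congrArg Prod.fst h1
        have e2 := congrArg Prod.snd h1
        have e3 := congrArg Prod.fst h2
        have e4 := congrArg Prod.snd h2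
        exact ⟨k₁, k₂, e1, (Eq.trans (Eq.symm e2) e3), e4⟩
      · rintro h q ⟨k, rfl⟩
        obtain ⟨k₁, k₂, h1, h2, h3⟩ := h k
        refine ⟨k₁ • f (path t (g₁ • ω)), ⟨k₁, ?_⟩, ⟨k₂, ?_⟩⟩
        · exact Prod.ext h1 rfl
        · exact Prod.ext h2 h3
    rw [e, Set.setOf_forall]
    refine MeasurableSet.iInter fun k => ?_
    rw [Set.setOf_exists]
    refine MeasurableSet.iUnion fun k₁ => ?_
    rw [Set.setOf_exists]
    refine MeasurableSet.iUnion fun k₂ => ?_
    rw [Set.setOf_and, Set.setOf_and]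
    exact (measurableSet_eq_smul (pair_meas f hf s g₃) (pair_meas f hf s g₁) k k₁).inter
      ((measurableSet_eq_smul (pair_meas f hf t g₁) (pair_meas f hf t g₂) k₁ k₂).inter
        (measurableSet_eq_smul (pair_meas f hf v g₃) (pair_meas f hf v g₂) k k₂))
  · have e : {ω : Om G Z | ¬ ∀ q ∈ xi f s v ω, ∃ b, (q.1, b) ∈ xi f s t ω ∧
        (b, q.2) ∈ xi f t v ω} = ∅ := by
      rw [Set.eq_empty_iff_forall_notMem]
      intro ω hω
      apply hω
      rintro q ⟨k, rfl⟩
      exact ⟨k • f (path t ω), ⟨k, rfl⟩, ⟨k, rfl⟩⟩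
    rw [e, measureReal_empty]
    norm_num

end Pool.Agent.TLA
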