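import Pool.Agent.TLA.PathErg

/-! The modulus of continuity along the path (block D). -/

set_option autoImplicit false

open MeasureTheory Filter

namespace Pool.Agent.TLA

variable {G Z : Type} [MeasurableSpace Z] (ζ : Measure Z) [IsProbabilityMeasure ζ]

private theorem path_eval (h : G) : MeasurePreserving
    (fun ω : Om G Z => (ω.2.2 : Bern G unitInterval) h) (PP G ζ)
    (volume : Measure unitInterval) := by
  have h1 : MeasurePreserving (fun x : Bern G unitInterval => x h)
      (Bern.mu G (volume : Measure unitInterval)) (volume : Measure unitInterval) :=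
    measurePreserving_eval_infinitePi (fun _ : G => (volume : Measure unitInterval)) h
  have h2 : MeasurePreserving (Prod.snd : Bern G Z × Bern G unitInterval → Bern G unitInterval)
      ((Bern.mu G ζ).prod (Bern.mu G (volume : Measure unitInterval)))
      (Bern.mu G (volume : Measure unitInterval)) := measurePreserving_snd
  have h3 : MeasurePreserving (Prod.snd : Om G Z → Bern G Z × Bern G unitInterval) (PP G ζ)
      ((Bern.mu G ζ).prod (Bern.mu G (volume : Measure unitInterval))) := measurePreserving_snd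
  exact h1.comp (h2.comp h3)

private theorem path_step (s t : ℝ) (hs : s ∈ Set.Icc (0 : ℝ) 1) (ht : t ∈ Set.Icc (0 : ℝ) 1)
    (h : G) : (PP G ζ).real {ω : Om G Z | path s ω h ≠ path t ω h} ≤ |s - t| := by
  have hsub : {ω : Om G Z | path s ω h ≠ path t ω h} ⊆
      (fun ω : Om G Z => (ω.2.2 : Bern G unitInterval) h) ⁻¹'
        (Set.uIoc (⟨s, hs⟩ : unitInterval) ⟨t, ht⟩) := by
    intro ω hω
    by_contra hcon
    apply hω
    have h1 : ((ω.2.2 h : unitInterval) : ℝ) ≤ s ↔ ((ω.2.2 h : unitInterval) : ℝ) ≤ t := by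
      by_contra h2
      apply hcon
      show (ω.2.2 h : unitInterval) ∈ Set.uIoc (⟨s, hs⟩ : unitInterval) ⟨t, ht⟩
      rw [Set.mem_uIoc]
      by_cases h3 : ((ω.2.2 h : unitInterval) : ℝ) ≤ s
      · right
        constructor
        · show t < ((ω.2.2 h : unitInterval) : ℝ)
          by_contra h4
          exact h2 ⟨fun _ => not_lt.1 h4, fun _ => h3⟩
        · exact h3
      · left
        constructor
        · exact not_le.1 h3
        · show ((ω.2.2 h : unitInterval) : ℝ) ≤ t
          by_contra h4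
          exact h2 ⟨fun h5 => absurd h5 h3, fun h5 => absurd h5 h4⟩
    unfold path
    by_cases h5 : ((ω.2.2 h : unitInterval) : ℝ) ≤ s
    · simp only [if_pos h5, if_pos (h1.1 h5)]
    · have h6 : ¬ ((ω.2.2 h : unitInterval) : ℝ) ≤ t := fun h7 => h5 (h1.2 h7)
      simp only [if_neg h5, if_neg h6]
  refine (measureReal_mono hsub).trans (le_of_eq ?_)
  have h7 := (path_eval (G := G) (Z := Z) ζ h).measure_preimage
    (s := Set.uIoc (⟨s, hs⟩ : unitInterval) ⟨t, ht⟩)
    (measurableSet_uIoc).nullMeasurableSet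
  unfold Measure.real
  rw [h7, unitInterval.volume_uIoc, edist_dist, ENNReal.toReal_ofReal dist_nonneg]
  show |t - s| = |s - t|
  exact abs_sub_comm t s

private theorem path_window (s t : ℝ) (hs : s ∈ Set.Icc (0 : ℝ) 1)
    (ht : t ∈ Set.Icc (0 : ℝ) 1) (W : Finset G) :
    (PP G ζ).real {ω : Om G Z | ∃ h ∈ W, path s ω h ≠ path t ω h} ≤ W.card * |s - t| := by
  have h1 : {ω : Om G Z | ∃ h ∈ W, path s ω h ≠ path t ω h} =
      ⋃ h ∈ W, {ω : Om G Z | path s ω h ≠ path t ω h} := by
    ext ω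
    simp
  rw [h1]
  refine (measureReal_biUnion_finset_le _ _).trans ?_
  calc ∑ h ∈ W, (PP G ζ).real {ω : Om G Z | path s ω h ≠ path t ω h}
      ≤ ∑ _h ∈ W, |s - t| := Finset.sum_le_sum fun h _ => path_step ζ s t hs ht h
    _ = W.card * |s - t| := by rw [Finset.sum_const, nsmul_eq_mul]

private theorem path_fibre (A : Set (Bern G Z)) (hA : MeasurableSet A) (δ : ℝ) (hδ : 0 < δ) :
    ∃ N : ℕ, ∀ s ∈ Set.Icc (0 : ℝ) 1, ∀ t ∈ Set.Icc (0 : ℝ) 1,
      (PP G ζ).real {ω : Om G Z | path s ω ∈ A ∧ path t ω ∉ A} ≤ 2 * δ + N * |s - t| := by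
  obtain ⟨W, c, hc, hlt⟩ := Bern.exists_cylinder ζ A hA δ hδ
  set C : Set (Bern G Z) := (fun (x : Bern G Z) (i : W) => x i) ⁻¹' c with hC
  have hCm : MeasurableSet C := by
    have : Measurable (fun (x : Bern G Z) (i : W) => x i) :=
      measurable_pi_lambda _ fun i => (measurable_pi_apply (i : G) :
        Measurable fun x : G → Z => x i)
    exact this hc
  refine ⟨W.card, fun s hs t ht => ?_⟩
  have hsub : {ω : Om G Z | path s ω ∈ A ∧ path t ω ∉ A} ⊆
      (path s ⁻¹' (symmDiff A C) ∪ path t ⁻¹' (symmDiff A C)) ∪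
        {ω : Om G Z | ∃ h ∈ W, path s ω h ≠ path t ω h} := by
    intro ω hω
    by_cases h1 : path s ω ∈ symmDiff A C
    · exact Or.inl (Or.inl h1)
    by_cases h2 : path t ω ∈ symmDiff A C
    · exact Or.inl (Or.inr h2)
    right
    rw [Set.mem_symmDiff] at h1 h2
    have h3 : path s ω ∈ C := by
      by_contra h4
      exact h1 (Or.inl ⟨hω.1, h4⟩)
    have h5 : path t ω ∉ C := by
      intro h4
      exact h2 (Or.inr ⟨h4, hω.2⟩)
    by_contra h6
    apply h5
    have h7 : (fun i : W => path t ω i) = fun i : W => path s ω i := by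
      funext i
      by_contra h8
      exact h6 ⟨i, i.2, fun h9 => h8 h9.symm⟩
    show (fun i : W => path t ω i) ∈ c
    rw [h7]
    exact h3
  have hm : ∀ u : ℝ, (PP G ζ).real (path u ⁻¹' (symmDiff A C)) ≤ δ := by
    intro u
    have h1 := (measurePreserving_path (G := G) ζ u).measure_preimage
      (s := symmDiff A C) (hA.symmDiff hCm).nullMeasurableSet
    unfold Measure.real
    rw [h1]
    exact hlt.le
  have h10 := measureReal_union_le (μ := PP G ζ)
    (path s ⁻¹' (symmDiff A C) ∪ path t ⁻¹' (symmDiff A C))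
    {ω : Om G Z | ∃ h ∈ W, path s ω h ≠ path t ω h}
  have h11 := measureReal_union_le (μ := PP G ζ)
    (path s ⁻¹' (symmDiff A C)) (path t ⁻¹' (symmDiff A C))
  have h12 := measureReal_mono (μ := PP G ζ) hsub
  have h13 := path_window ζ s t hs ht W
  have h14 := hm s
  have h15 := hm t
  linarith

/-- The modulus of continuity of a function with countably many values along the path. -/
theorem modulus {ι : Type} (F : Bern G Z → ι) (hF : ∀ i, MeasurableSet (F ⁻¹' {i}))
    (hc : (Set.range F).Countable) (ε : ℝ) (hε : 0 < ε) :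
    ∃ r : ℝ, 0 < r ∧ ∀ s ∈ Set.Icc (0 : ℝ) 1, ∀ t ∈ Set.Icc (0 : ℝ) 1, |s - t| ≤ r →
      (PP G ζ).real {ω | F (path s ω) ≠ F (path t ω)} ≤ ε := by
  have hne : Nonempty (Bern G Z) := by
    by_contra h
    rw [not_nonempty_iff] at h
    have h1 : (Bern.mu G ζ) Set.univ = 1 := measure_univ
    rw [Set.univ_eq_empty_iff.2 h, measure_empty] at h1
    exact zero_ne_one h1
  obtain ⟨f, hf⟩ := hc.exists_eq_range (Set.range_nonempty F)
  -- the exceptional sets
  set B : ℕ → Set (Bern G Z) := fun n => {x | ∀ k ≤ n, F x ≠ f k} with hB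
  have hBm : ∀ n, MeasurableSet (B n) := by
    intro n
    have h1 : B n = ⋂ k ∈ Finset.range (n + 1), (F ⁻¹' {f k})ᶜ := by
      ext x
      simp only [hB, Set.mem_ofPred_eq, Set.mem_iInter, Finset.mem_range, Set.mem_compl_iff,
        Set.mem_preimage, Set.mem_singleton_iff, Nat.lt_succ_iff]
    rw [h1]
    exact Finset.measurableSet_biInter _ fun k _ => (hF (f k)).compl
  have hBa : Antitone B := by
    intro m n hmn x hx k hk
    exact hx k (hk.trans hmn)
  have hBi : ⋂ n, B n = ∅ := by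
    rw [Set.eq_empty_iff_forall_notMem]
    intro x hx
    rw [Set.mem_iInter] at hx
    have h1 : F x ∈ Set.range f := by
      rw [← hf]
      exact Set.mem_range_self x
    obtain ⟨k, hk⟩ := h1
    exact hx k k le_rfl hk.symm
  have hlim : Filter.Tendsto (fun n => (Bern.mu G ζ) (B n)) Filter.atTop (nhds 0) := by
    have h1 := tendsto_measure_iInter_atTop (μ := Bern.mu G ζ) (s := B)
      (fun n => (hBm n).nullMeasurableSet) hBa ⟨0, measure_ne_top _ _⟩
    rw [hBi, measure_empty] at h1
    exact h1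
  have hev := hlim.eventually (gt_mem_nhds (show (0 : ENNReal) < ENNReal.ofReal (ε / 4) by
    simpa using by positivity))
  obtain ⟨n, hn⟩ := hev.exists
  have hn' : (Bern.mu G ζ).real (B n) ≤ ε / 4 :=
    (ENNReal.toReal_lt_of_lt_ofReal hn).le
  -- the fibres
  have hδ : 0 < ε / (8 * (n + 1)) := by positivity
  choose N hN using fun k : ℕ => path_fibre (G := G) ζ (F ⁻¹' {f k}) (hF (f k)) _ hδ
  set K : ℝ := ∑ k ∈ Finset.range (n + 1), (N k : ℝ) with hK
  have hK0 : 0 ≤ K := Finset.sum_nonneg fun k _ => Nat.cast_nonneg _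
  refine ⟨ε / (4 * (K + 1)), by positivity, fun s hs t ht hst => ?_⟩
  have hsub : {ω : Om G Z | F (path s ω) ≠ F (path t ω)} ⊆ path s ⁻¹' (B n) ∪
      ⋃ k ∈ Finset.range (n + 1),
        {ω : Om G Z | path s ω ∈ F ⁻¹' {f k} ∧ path t ω ∉ F ⁻¹' {f k}} := by
    intro ω hω
    by_cases h1 : path s ω ∈ B n
    · exact Or.inl h1
    right
    have h2 : ∃ k ≤ n, F (path s ω) = f k := by
      by_contra h3
      apply h1
      intro k hk h4
      exact h3 ⟨k, hk, h4⟩
    obtain ⟨k, hk, h4⟩ := h2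
    simp only [Set.mem_iUnion, Finset.mem_range]
    refine ⟨k, Nat.lt_succ_of_le hk, h4, fun h5 => hω ?_⟩
    rw [h4]
    exact h5.symm
  have h1 := measureReal_mono (μ := PP G ζ) hsub
  have h2 := measureReal_union_le (μ := PP G ζ) (path s ⁻¹' (B n))
    (⋃ k ∈ Finset.range (n + 1),
        {ω : Om G Z | path s ω ∈ F ⁻¹' {f k} ∧ path t ω ∉ F ⁻¹' {f k}})
  have h3 : (PP G ζ).real (path s ⁻¹' (B n)) ≤ ε / 4 := by
    have h4 := (measurePreserving_path (G := G) ζ s).measure_preimage
      (s := B n) (hBm n).nullMeasurableSet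
    unfold Measure.real
    rw [h4]
    exact hn'
  have h5 := measureReal_biUnion_finset_le (μ := PP G ζ) (Finset.range (n + 1))
    (fun k => {ω : Om G Z | path s ω ∈ F ⁻¹' {f k} ∧ path t ω ∉ F ⁻¹' {f k}})
  have h6 : ∑ k ∈ Finset.range (n + 1),
      (PP G ζ).real {ω : Om G Z | path s ω ∈ F ⁻¹' {f k} ∧ path t ω ∉ F ⁻¹' {f k}} ≤
      ∑ k ∈ Finset.range (n + 1), (2 * (ε / (8 * (n + 1))) + N k * |s - t|) :=
    Finset.sum_le_sum fun k _ => hN k s hs t ht
  have h7 : ∑ k ∈ Finset.range (n + 1), (2 * (ε / (8 * (n + 1))) + N k * |s - t|) =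
      ε / 4 + K * |s - t| := by
    rw [Finset.sum_add_distrib, Finset.sum_const, Finset.card_range, nsmul_eq_mul,
      ← Finset.sum_mul, ← hK]
    push_cast
    field_simp
    ring
  have h8 : K * |s - t| ≤ ε / 4 := by
    calc K * |s - t| ≤ (K + 1) * (ε / (4 * (K + 1))) :=
          mul_le_mul (by linarith) hst (abs_nonneg _) (by linarith)
      _ = ε / 4 := by field_simp
  linarith

end Pool.Agent.TLA
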