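import Pool.Agent.TLA.Bern

/-! The switching path between two independent points (block D). -/

set_option autoImplicit false

open MeasureTheory Filter

namespace Pool.Agent.TLA

variable {G Z : Type} [MeasurableSpace Z]

/-- The space of triples. -/
abbrev Om (G Z : Type) : Type := Bern G Z × (Bern G Z × Bern G unitInterval)

/-- The measure on triples. -/
noncomputable def PP (G : Type) {Z : Type} [MeasurableSpace Z] (ζ : Measure Z) :
    Measure (Om G Z) :=
  (Bern.mu G ζ).prod ((Bern.mu G ζ).prod (Bern.mu G (volume : Measure unitInterval)))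

open Classical in
/-- The path: `x'` where `u ≤ t`, else `x`. -/
noncomputable def path (t : ℝ) (ω : Om G Z) : Bern G Z :=
  fun h => if ((ω.2.2 h : unitInterval) : ℝ) ≤ t then ω.2.1 h else ω.1 h

variable (ζ : Measure Z) [IsProbabilityMeasure ζ]

instance : IsProbabilityMeasure (PP G ζ) := by unfold PP; infer_instance

theorem path_smul [Group G] (t : ℝ) (g : G) (ω : Om G Z) : path t (g • ω) = g • path t ω := rfl

private theorem pathDefs_eval (Y : Type) [MeasurableSpace Y] (h : G) :
    Measurable (fun x : Bern G Y => x h) :=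
  (measurable_pi_apply h : Measurable fun x : G → Y => x h)

theorem measurable_path (t : ℝ) : Measurable (path t : Om G Z → Bern G Z) := by
  classical
  refine measurable_pi_lambda _ fun h => ?_
  have h1 : Measurable fun ω : Om G Z => (ω.2.2 h : unitInterval) :=
    (pathDefs_eval unitInterval h).comp (measurable_snd.comp measurable_snd)
  have h2 : Measurable fun ω : Om G Z => ((ω.2.2 h : unitInterval) : ℝ) :=
    measurable_subtype_coe.comp h1
  have h3 : Measurable fun ω : Om G Z => ω.2.1 h :=
    (pathDefs_eval Z h).comp (measurable_fst.comp measurable_snd)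
  have h4 : Measurable fun ω : Om G Z => ω.1 h := (pathDefs_eval Z h).comp measurable_fst
  exact Measurable.ite (measurableSet_le h2 measurable_const) h3 h4

open Classical in
private noncomputable def pathDefs_c (Z : Type) (t : ℝ) (p : Z × (Z × unitInterval)) : Z :=
  if ((p.2.2 : unitInterval) : ℝ) ≤ t then p.2.1 else p.1

private theorem pathDefs_meas (t : ℝ) : Measurable (pathDefs_c Z t) := by
  classical
  have h2 : Measurable fun p : Z × (Z × unitInterval) => ((p.2.2 : unitInterval) : ℝ) :=
    measurable_subtype_coe.comp (measurable_snd.comp measurable_snd)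
  exact Measurable.ite (measurableSet_le h2 measurable_const)
    (measurable_fst.comp measurable_snd) measurable_fst

private theorem pathDefs_map (t : ℝ) :
    (ζ.prod (ζ.prod (volume : Measure unitInterval))).map (pathDefs_c Z t) = ζ := by
  classical
  ext s hs
  rw [Measure.map_apply (pathDefs_meas t) hs]
  have hA : MeasurableSet {u : unitInterval | (u : ℝ) ≤ t} :=
    measurableSet_le measurable_subtype_coe measurable_const
  have hset : pathDefs_c Z t ⁻¹' s =
      (Set.univ ×ˢ (s ×ˢ {u : unitInterval | (u : ℝ) ≤ t})) ∪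
        (s ×ˢ (Set.univ ×ˢ {u : unitInterval | (u : ℝ) ≤ t}ᶜ)) := by
    ext ⟨z, z', u⟩
    by_cases h : (u : ℝ) ≤ t
    · simp [pathDefs_c, h]
    · simp [pathDefs_c, h]
  have hdis : Disjoint ((Set.univ : Set Z) ×ˢ (s ×ˢ {u : unitInterval | (u : ℝ) ≤ t}))
      (s ×ˢ ((Set.univ : Set Z) ×ˢ {u : unitInterval | (u : ℝ) ≤ t}ᶜ)) := by
    rw [Set.disjoint_left]
    rintro ⟨z, z', u⟩ h1 h2
    exact h2.2.2 h1.2.2
  rw [hset, measure_union hdis (hs.prod (MeasurableSet.univ.prod hA.compl)),
    Measure.prod_prod, Measure.prod_prod, Measure.prod_prod, Measure.prod_prod,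
    measure_univ, one_mul, one_mul, ← mul_add, prob_add_prob_compl hA, mul_one]

theorem measurePreserving_path (t : ℝ) : MeasurePreserving (path t) (PP G ζ) (Bern.mu G ζ) := by
  have e1 := Bern.measurePreserving_pairMap (G := G) ζ (ζ.prod (volume : Measure unitInterval))
  have e2 := Bern.measurePreserving_pairMap (G := G) ζ (volume : Measure unitInterval)
  have e3 : MeasurePreserving (Prod.map id Bern.pairMap)
      ((Bern.mu G ζ).prod (Bern.mu G (ζ.prod (volume : Measure unitInterval)))) (PP G ζ) :=
    (MeasurePreserving.id _).prod e2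
  have e4 := e3.comp e1
  refine ⟨measurable_path t, ?_⟩
  rw [← e4.map_eq, Measure.map_map (measurable_path t) e4.measurable]
  have h5 := Measure.infinitePi_map_pi
    (fun _ : G => ζ.prod (ζ.prod (volume : Measure unitInterval)))
    (f := fun _ : G => pathDefs_c Z t) (fun _ => pathDefs_meas t)
  rw [pathDefs_map ζ t] at h5
  exact h5

theorem path_zero [Countable G] : ∀ᵐ ω ∂(PP G ζ), path 0 ω = ω.1 := by
  have h0 : ∀ᵐ (u : unitInterval) ∂(volume : Measure unitInterval), ¬ ((u : ℝ) ≤ 0) := by
    rw [ae_iff]
    have h1 : {u : unitInterval | ¬ ¬ ((u : ℝ) ≤ 0)} = {0} := by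
      ext u
      simp only [not_not, Set.mem_setOf_eq, Set.mem_singleton_iff]
      constructor
      · intro h
        exact Subtype.ext (le_antisymm h u.2.1)
      · rintro rfl
        exact le_refl _
    rw [h1]
    exact measure_singleton _
  have h1 : ∀ᵐ ω ∂(PP G ζ), ∀ h : G, ¬ (((ω.2.2 h : unitInterval) : ℝ) ≤ 0) := by
    refine ae_all_iff.2 fun h => ?_
    have hm : MeasurePreserving (fun x : Bern G unitInterval => x h)
        (Bern.mu G (volume : Measure unitInterval)) volume :=
      measurePreserving_eval_infinitePi (fun _ : G => (volume : Measure unitInterval)) h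
    have h2 : MeasurePreserving (fun ω : Om G Z => (ω.2.2 h : unitInterval)) (PP G ζ) volume :=
      hm.comp (measurePreserving_snd.comp measurePreserving_snd)
    exact h2.quasiMeasurePreserving.ae h0
  filter_upwards [h1] with ω hω
  funext h
  exact if_neg (hω h)

theorem path_one (ω : Om G Z) : path 1 ω = ω.2.1 := by
  funext h
  exact if_pos (ω.2.2 h).2.2

end Pool.Agent.TLA
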