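import Pool.Agent.TLA.PathDefs

/-! Ergodicity of the action on triples (block D). -/

set_option autoImplicit false

open MeasureTheory Filter

namespace Pool.Agent.TLA

variable {G Z : Type} [MeasurableSpace Z] (ζ : Measure Z) [IsProbabilityMeasure ζ]

private theorem pathErg_factor {G α β : Type} [Group G] [MulAction G α] [MulAction G β]
    [MeasurableSpace α] [MeasurableSpace β] (μ : Measure α)
    (ν : Measure β) (h : ErgodicSMul G α μ) (f : α → β) (hf : MeasurePreserving f μ ν)
    (hsm : ∀ g : G, Measurable fun x : β => g • x)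
    (heq : ∀ (g : G) (x : α), f (g • x) = g • f x) : ErgodicSMul G β ν := by
  have hinv : SMulInvariantMeasure G β ν := by
    refine ⟨fun c s hs => ?_⟩
    have hm : MeasurableSet ((fun x : β => c • x) ⁻¹' s) := hsm c hs
    have e1 : f ⁻¹' ((fun x : β => c • x) ⁻¹' s) = (fun x : α => c • x) ⁻¹' (f ⁻¹' s) := by
      ext x
      simp only [Set.mem_preimage, heq]
    rw [← hf.measure_preimage hm.nullMeasurableSet, e1,
      SMulInvariantMeasure.measure_preimage_smul c (hf.measurable hs),
      hf.measure_preimage hs.nullMeasurableSet]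
  refine ⟨fun {s} hs hg => ?_⟩
  have h2 : ∀ g : G, (fun x : α => g • x) ⁻¹' (f ⁻¹' s) =ᵐ[μ] f ⁻¹' s := by
    intro g
    have e1 : (fun x : α => g • x) ⁻¹' (f ⁻¹' s) = f ⁻¹' ((fun x : β => g • x) ⁻¹' s) := by
      ext x
      simp only [Set.mem_preimage, heq]
    rw [e1]
    exact hf.quasiMeasurePreserving.preimage_ae_eq (hg g)
  have h3 := ErgodicSMul.aeconst_of_forall_preimage_smul_ae_eq (hf.measurable hs) h2
  exact (hf.aeconst_preimage hs.nullMeasurableSet).1 h3

/-- Ergodicity of the action on triples. -/
theorem ergodic_PP [Group G] [Infinite G] : ErgodicSMul G (Om G Z) (PP G ζ) := by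
  have h0 := Bern.ergodic (G := G) (ζ.prod (ζ.prod (volume : Measure unitInterval)))
  have h1 := Bern.measurePreserving_pairMap (G := G) ζ
    (ζ.prod (volume : Measure unitInterval))
  have h2 := Bern.measurePreserving_pairMap (G := G) ζ (volume : Measure unitInterval)
  have h3 := (MeasurePreserving.id (Bern.mu G ζ)).prod h2
  refine pathErg_factor _ _ h0 _ (h3.comp h1) (fun g => ?_) (fun g x => rfl)
  exact ((measurable_const_smul g).comp measurable_fst).prodMk
    (((measurable_const_smul g).comp (measurable_fst.comp measurable_snd)).prodMk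
      ((measurable_const_smul g).comp (measurable_snd.comp measurable_snd)))

end Pool.Agent.TLA
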