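import Pool.Agent.TLA.StepDecomp

/-! Fox vectors and the rewriting map. -/

set_option autoImplicit false

namespace Pool.Agent.TLA

variable (p : ℕ) {Γ : Type} [Group Γ]

namespace WSys

variable (S : WSys Γ)

section rs

variable [Fact p.Prime] (t₁ : S.T)

/-- The Fox vector of `Z_k(i)` in the new generators. -/
noncomputable def Fv (t : {t : S.T // t ≠ t₁}) : ℕ → ℕ → (S.rs p t₁).T → Alg p Γ
  | k, 0 => fun q => if h : k < p then (if q = some (t, ⟨k, h⟩) then 1 else 0) else 0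
  | k, i + 1 => fun q => Fv t k i q + gr p (S.Zc t₁ t k i) * Fv t (k + 1) i q

variable (φ : Γ → ZMod p)

open Classical in
/-- Rewriting of `h e_t`: write `h = h' v₁^i` with `i = φ h`. -/
noncomputable def rwv (t : S.T) (h : Γ) : (S.rs p t₁).T → Alg p Γ :=
  if ht : t = t₁ then
    (if (φ h).val = p - 1 then
      fun q => if q = none then gr p (h * (S.v t₁ ^ (φ h).val)⁻¹) else 0
    else 0)
  else fun q => gr p (h * (S.v t₁ ^ (φ h).val)⁻¹) * S.Fv p t₁ ⟨t, ht⟩ 0 (φ h).val q

/-- The rewriting map. -/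
noncomputable def prm (a : S.T → Alg p Γ) : (S.rs p t₁).T → Alg p Γ :=
  ∑ t, (a t).coeff.sum (fun h c => c • S.rwv p t₁ φ t h)

/-- The component of `u^0`. -/
noncomputable def comp0 (a : Alg p Γ) : Alg p Γ :=
  a.coeff.sum (fun h c => c • gr p (h * (S.v t₁ ^ (φ h).val)⁻¹))

theorem prm_add (a b : S.T → Alg p Γ) : S.prm p t₁ φ (a + b) = S.prm p t₁ φ a + S.prm p t₁ φ b :=
  by
  unfold prm
  rw [← Finset.sum_add_distrib]
  refine Finset.sum_congr rfl fun t _ => ?_
  rw [Pi.add_apply, MonoidAlgebra.coeff_add]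
  exact Finsupp.sum_add_index' (fun h => zero_smul _ _) (fun h c₁ c₂ => add_smul _ _ _)

theorem prm_smul (c : ZMod p) (a : S.T → Alg p Γ) : S.prm p t₁ φ (c • a) = c • S.prm p t₁ φ a := by
  unfold prm
  rw [Finset.smul_sum]
  refine Finset.sum_congr rfl fun t _ => ?_
  rw [Pi.smul_apply, MonoidAlgebra.coeff_smul]
  refine (Finsupp.sum_smul_index' (h0 := fun h => ?_)).trans ?_
  · exact zero_smul (ZMod p) _
  rw [Finsupp.smul_sum]
  refine Finsupp.sum_congr fun h _ => ?_
  rw [smul_eq_mul, mul_smul]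

theorem prm_single (t : S.T) (h : Γ) :
    S.prm p t₁ φ (Pi.single t (gr p h)) = S.rwv p t₁ φ t h := by
  unfold prm
  rw [Finset.sum_eq_single t]
  · rw [Pi.single_eq_same]
    unfold gr
    rw [MonoidAlgebra.coeff_single]
    refine (Finsupp.sum_single_index ?_).trans ?_
    · exact zero_smul (ZMod p) _
    · exact one_smul (ZMod p) _
  · intro t' _ ht
    rw [Pi.single_eq_of_ne ht, MonoidAlgebra.coeff_zero, Finsupp.sum_zero_index]
  · intro h'
    exact absurd (Finset.mem_univ t) h'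

theorem comp0_add (a b : Alg p Γ) : S.comp0 p t₁ φ (a + b) = S.comp0 p t₁ φ a + S.comp0 p t₁ φ b :=
  by
  unfold comp0
  rw [MonoidAlgebra.coeff_add]
  exact Finsupp.sum_add_index' (fun h => zero_smul _ _) (fun h c₁ c₂ => add_smul _ _ _)

theorem comp0_smul (c : ZMod p) (a : Alg p Γ) : S.comp0 p t₁ φ (c • a) = c • S.comp0 p t₁ φ a := by
  unfold comp0
  rw [MonoidAlgebra.coeff_smul]
  refine (Finsupp.sum_smul_index' (h0 := fun h => ?_)).trans ?_
  · exact zero_smul (ZMod p) _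
  rw [Finsupp.smul_sum]
  refine Finsupp.sum_congr fun h _ => ?_
  rw [smul_eq_mul, mul_smul]

theorem comp0_gr (h : Γ) : S.comp0 p t₁ φ (gr p h) = gr p (h * (S.v t₁ ^ (φ h).val)⁻¹) := by
  unfold comp0
  have h1 : (gr p h).coeff = Finsupp.single h (1 : ZMod p) := rfl
  rw [h1]
  refine (Finsupp.sum_single_index ?_).trans ?_
  · exact zero_smul (ZMod p) _
  · exact one_smul (ZMod p) _

end rs

end WSys

end Pool.Agent.TLA
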