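import Pool.Agent.TLA.PresDefs

/-! Fox vectors. -/

set_option autoImplicit false

namespace Pool.Agent.TLA

variable (p : ℕ) {Γ : Type} [Group Γ]

namespace WSys

variable (S : WSys Γ)

/-- The filtration of the free module. -/
private def PresFoxF (R : WSys Γ) (c : ℝ) : Submodule (ZMod p) (R.T → Alg p Γ) where
  carrier := {f | ∀ q, f q ∈ R.M p (c / R.w q)}
  add_mem' := fun ha hb q => Submodule.add_mem _ (ha q) (hb q)
  zero_mem' := fun _ => Submodule.zero_mem _
  smul_mem' := fun x _ ha q => Submodule.smul_mem _ x (ha q)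

private theorem PresFox_mem (R : WSys Γ) (c : ℝ) (f : R.T → Alg p Γ) :
    f ∈ PresFoxF p R c ↔ ∀ q, f q ∈ R.M p (c / R.w q) := Iff.rfl

private theorem PresFox_mono (R : WSys Γ) : Monotone (PresFoxF p R) := by
  intro c d h f hf q
  exact R.M_mono p (div_le_div_of_nonneg_right h (R.w_pos q).le) (hf q)

/-- Multiplication as a bilinear map. -/
private noncomputable def PresFoxB (R : WSys Γ) :
    Alg p Γ →ₗ[ZMod p] (R.T → Alg p Γ) →ₗ[ZMod p] (R.T → Alg p Γ) :=
  LinearMap.mk₂ (ZMod p) (fun a f q => a * f q)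
    (fun a b f => by ext1 q; simp [add_mul])
    (fun c a f => by ext1 q; simp)
    (fun a f g => by ext1 q; simp [mul_add])
    (fun c a f => by ext1 q; simp)

private theorem PresFoxB_apply (R : WSys Γ) (a : Alg p Γ) (f : R.T → Alg p Γ) :
    PresFoxB p R a f = fun q => a * f q := rfl

private theorem PresFox_mul (R : WSys Γ) (c d : ℝ) (a : Alg p Γ) (f : R.T → Alg p Γ)
    (ha : a ∈ R.M p c) (hf : f ∈ PresFoxF p R d) :
    PresFoxB p R a f ∈ PresFoxF p R (c * d) := by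
  intro q
  have h := R.M_mul_mem p ha (hf q)
  rw [← mul_div_assoc] at h
  exact h

section rs

variable [Fact p.Prime] (t₁ : S.T)

variable (φ : Γ → ZMod p)

private theorem PresFox_zero (t : {t : S.T // t ≠ t₁}) (k : ℕ) (hk : k < p)
    (q : (S.rs p t₁).T) :
    S.Fv p t₁ t k 0 q = if q = some (t, ⟨k, hk⟩) then 1 else 0 := by
  simp only [Fv, dif_pos hk]

private theorem PresFox_succ (t : {t : S.T // t ≠ t₁}) (k i : ℕ) (q : (S.rs p t₁).T) :
    S.Fv p t₁ t k (i + 1) q =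
      S.Fv p t₁ t k i q + gr p (S.Zc t₁ t k i) * S.Fv p t₁ t (k + 1) i q := rfl

private theorem PresFox_zero_mem (t : {t : S.T // t ≠ t₁}) (k : ℕ) (hk : k < p) :
    S.Fv p t₁ t k 0 ∈ PresFoxF p (S.rs p t₁) (S.w t * S.w t₁ ^ k) := by
  intro q
  rw [PresFox_zero p S t₁ t k hk q]
  split_ifs with h
  · subst h
    have hw : (S.rs p t₁).w (some (t, ⟨k, hk⟩)) = S.w t * S.w t₁ ^ k := rfl
    rw [hw, div_self (mul_pos (S.w_pos _) (pow_pos (S.w_pos t₁) k)).ne',
      (S.rs p t₁).M_eq_sa p le_rfl]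
    exact one_mem_sa p _
  · exact Submodule.zero_mem _

variable (hφ : S.AddOn p φ) (h1 : φ (S.v t₁) = 1) (h0 : ∀ t, t ≠ t₁ → φ (S.v t) = 0)

include hφ h1 h0

theorem Fv_mem (t : {t : S.T // t ≠ t₁}) (k i : ℕ) (q : (S.rs p t₁).T) :
    S.Fv p t₁ t k i q ∈ sa p (S.rs p t₁).H := by
  induction i generalizing k with
  | zero =>
    simp only [Fv]
    split_ifs
    · exact one_mem_sa p _
    · exact Submodule.zero_mem _
    · exact Submodule.zero_mem _
  | succ i ih =>
    rw [PresFox_succ]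
    exact Submodule.add_mem _ (ih k) (sa_mul_mem p
      (gr_mem_sa p (S.Zc_mem_rs_H p t₁ φ hφ h1 h0 t t.2 k i)) (ih (k + 1)))

/-- The Fox vectors map to `Z_k(i) - 1`. -/
theorem d_Fv (t : {t : S.T // t ≠ t₁}) (k i : ℕ) (hk : k + i < p) :
    (S.rs p t₁).d p (S.Fv p t₁ t k i) = gr p (S.Zc t₁ t k i) - 1 := by
  induction i generalizing k with
  | zero =>
    have hk' : k < p := by omega
    obtain ⟨q₀, hq₀⟩ : ∃ q₀ : (S.rs p t₁).T, q₀ = some (t, ⟨k, hk'⟩) := ⟨_, rfl⟩
    have h2 : (S.rs p t₁).v q₀ = S.z t₁ t k := by rw [hq₀]; rfl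
    unfold WSys.d
    rw [Finset.sum_eq_single q₀]
    · rw [PresFox_zero p S t₁ t k hk', ← hq₀, if_pos rfl, one_mul, h2, Zc_zero]
    · intro b _ hb
      rw [PresFox_zero p S t₁ t k hk', ← hq₀, if_neg hb, zero_mul]
    · intro h
      exact absurd (Finset.mem_univ _) h
  | succ i ih =>
    have e : (S.rs p t₁).d p (S.Fv p t₁ t k (i + 1)) =
        (S.rs p t₁).d p (S.Fv p t₁ t k i) +
          gr p (S.Zc t₁ t k i) * (S.rs p t₁).d p (S.Fv p t₁ t (k + 1) i) := by
      simp only [WSys.d, PresFox_succ, add_mul, Finset.sum_add_distrib, Finset.mul_sum,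
        mul_assoc]
    rw [e, ih k (by omega), ih (k + 1) (by omega), Zc_succ, gr_mul]
    noncomm_ring

private theorem PresFox_cls (t : {t : S.T // t ≠ t₁}) (n : ℕ) : ∀ k : ℕ, k + n + 1 = p →
    Cls (PresFoxF p (S.rs p t₁)) (S.w t₁) (S.w t * S.w t₁ ^ k) n (S.Fv p t₁ t k) := by
  induction n with
  | zero =>
    intro k hk
    rw [cls_zero_iff]
    exact PresFox_zero_mem p S t₁ t k (by omega)
  | succ n ih =>
    intro k hk
    have h2 := ih (k + 1) (by omega)
    have hw0 : 0 ≤ S.w t₁ := (S.w_pos t₁).le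
    have hw1 : S.w t₁ ≤ 1 := (S.w_lt t₁).le
    have hZ : Cls ((S.rs p t₁).M p) (S.w t₁) 1 n (fun i => gr p (S.Zc t₁ t k i)) :=
      cls_mono _ (fun _ _ h => (S.rs p t₁).M_mono p h) hw0 le_rfl (by omega)
        (S.cls_Zc p t₁ φ hφ h1 h0 t t.2 k (by omega))
    have h3 := cls_mul _ _ _ (PresFoxB p (S.rs p t₁)) (PresFox_mul p (S.rs p t₁)) hZ h2
    rw [one_mul] at h3
    have e : (fun i => PresFoxB p (S.rs p t₁) (gr p (S.Zc t₁ t k i)) (S.Fv p t₁ t (k + 1) i)) =
        fwdDiff 1 (S.Fv p t₁ t k) := by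
      funext i q
      rw [fwdDiff, Pi.sub_apply, PresFox_succ, PresFoxB_apply, add_sub_cancel_left]
    rw [e] at h3
    rw [cls_succ_iff]
    refine ⟨fun i hi => ?_, ?_⟩
    · induction i with
      | zero => exact PresFox_zero_mem p S t₁ t k (by omega)
      | succ i ihi =>
        have h4 := ihi (by omega)
        have h5 : fwdDiff 1 (S.Fv p t₁ t k) i ∈
            PresFoxF p (S.rs p t₁) (S.w t * S.w t₁ ^ (k + 1)) := by
          have := h3 0 i (by omega)
          simpa using this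
        have h6 : S.w t * S.w t₁ ^ (k + 1) ≤ S.w t * S.w t₁ ^ k :=
          mul_le_mul_of_nonneg_left (pow_le_pow_of_le_one hw0 hw1 (by omega)) (S.w_pos t).le
        have h7 : S.Fv p t₁ t k (i + 1) = S.Fv p t₁ t k i + fwdDiff 1 (S.Fv p t₁ t k) i := by
          rw [fwdDiff]; abel
        rw [h7]
        exact Submodule.add_mem _ h4 (PresFox_mono p _ h6 h5)
    · rw [mul_assoc, ← pow_succ]
      exact h3

/-- The differences of the Fox vectors are small. -/
theorem fwdDiff_Fv_mem (t : {t : S.T // t ≠ t₁}) (k m i : ℕ) (hk : k + i + m < p)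
    (q : (S.rs p t₁).T) :
    (fwdDiff 1)^[m] (S.Fv p t₁ t k) i q ∈
      (S.rs p t₁).M p (S.w t * S.w t₁ ^ (k + m) / (S.rs p t₁).w q) := by
  have h := PresFox_cls p S t₁ φ hφ h1 h0 t (p - 1 - k) k (by omega) m i (by omega) q
  rw [mul_assoc, ← pow_add] at h
  exact h

end rs

end WSys

end Pool.Agent.TLA
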