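import Pool.Agent.TLA.PresSurj

/-! The new relations generate. -/

set_option autoImplicit false

namespace Pool.Agent.TLA

variable (p : ℕ) {Γ : Type} [Group Γ]

namespace WSys

variable (S : WSys Γ)

section rs

variable [Fact p.Prime] (t₁ : S.T)

variable (φ : Γ → ZMod p)

variable (hφ : S.AddOn p φ) (h1 : φ (S.v t₁) = 1) (h0 : ∀ t, t ≠ t₁ → φ (S.v t) = 0)

include hφ h1 h0

/-- The new relations generate. -/
theorem rs_gen {R : Type} (ρ : R → S.T → Alg p Γ) (hρ : S.Gen p ρ) :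
    (S.rs p t₁).Gen p (fun x : R × Fin p =>
      S.prm p t₁ φ (fun t => (gr p (S.v t₁) - 1) ^ (x.2 : ℕ) * ρ x.1 t)) := by
  obtain ⟨g1, g2, g3⟩ := hρ
  have hvH : S.v t₁ ∈ S.H := Subgroup.subset_closure ⟨t₁, rfl⟩
  have hu : gr p (S.v t₁) - 1 ∈ sa p S.H :=
    Submodule.sub_mem _ (gr_mem_sa p hvH) (one_mem_sa p S.H)
  have hupow : ∀ k : ℕ, (gr p (S.v t₁) - 1) ^ k ∈ sa p S.H := by
    intro k
    induction k with
    | zero =>
      rw [pow_zero]
      exact one_mem_sa p S.H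
    | succ k ih =>
      rw [pow_succ]
      exact sa_mul_mem p ih hu
  have hmem : ∀ (k : ℕ) (r : R) (t : S.T), (gr p (S.v t₁) - 1) ^ k * ρ r t ∈ sa p S.H :=
    fun k r t => sa_mul_mem p (hupow k) (g1 r t)
  refine ⟨fun x q => S.prm_mem p t₁ φ hφ h1 h0 _ (hmem x.2 x.1) q, fun x => ?_, ?_⟩
  · rw [S.d_prm p t₁ φ hφ h1 h0 _ (hmem x.2 x.1)]
    have e1 : S.d p (fun t => (gr p (S.v t₁) - 1) ^ (x.2 : ℕ) * ρ x.1 t) = 0 := by
      have e2 : S.d p (fun t => (gr p (S.v t₁) - 1) ^ (x.2 : ℕ) * ρ x.1 t) =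
          (gr p (S.v t₁) - 1) ^ (x.2 : ℕ) * S.d p (ρ x.1) := by
        unfold WSys.d
        rw [Finset.mul_sum]
        exact Finset.sum_congr rfl fun t _ => mul_assoc _ _ _
      rw [e2, g2, mul_zero]
    rw [e1]
    have e3 := S.comp0_smul p t₁ φ 0 0
    rw [zero_smul, zero_smul] at e3
    exact e3
  · intro a ha hd
    obtain ⟨b, hb, hdb, hab⟩ := S.prm_lift p t₁ φ hφ h1 h0 a ha hd
    set Q : Submodule (ZMod p) ((S.rs p t₁).T → Alg p Γ) :=
      Submodule.span (ZMod p) {b : (S.rs p t₁).T → Alg p Γ | ∃ h ∈ (S.rs p t₁).H,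
        ∃ x : R × Fin p, b = fun q => gr p h *
          S.prm p t₁ φ (fun t => (gr p (S.v t₁) - 1) ^ (x.2 : ℕ) * ρ x.1 t) q} with hQ
    have hmulQ : ∀ (c : Alg p Γ), c ∈ sa p (S.rs p t₁).H → ∀ x : R × Fin p,
        (fun q => c * S.prm p t₁ φ (fun t => (gr p (S.v t₁) - 1) ^ (x.2 : ℕ) * ρ x.1 t) q) ∈
          Q := by
      intro c hc x
      unfold sa at hc
      induction hc using Submodule.span_induction with
      | mem c hc =>
        obtain ⟨h, hh, rfl⟩ := hc
        exact Submodule.subset_span ⟨h, hh, x, rfl⟩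
      | zero =>
        have e : (fun q => (0 : Alg p Γ) * S.prm p t₁ φ
            (fun t => (gr p (S.v t₁) - 1) ^ (x.2 : ℕ) * ρ x.1 t) q) = 0 := by
          funext q
          exact zero_mul _
        rw [e]
        exact Submodule.zero_mem _
      | add c c' _ _ ih ih' =>
        have e : (fun q => (c + c') * S.prm p t₁ φ
            (fun t => (gr p (S.v t₁) - 1) ^ (x.2 : ℕ) * ρ x.1 t) q) =
            (fun q => c * S.prm p t₁ φ
              (fun t => (gr p (S.v t₁) - 1) ^ (x.2 : ℕ) * ρ x.1 t) q) +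
            (fun q => c' * S.prm p t₁ φ
              (fun t => (gr p (S.v t₁) - 1) ^ (x.2 : ℕ) * ρ x.1 t) q) := by
          funext q
          exact add_mul _ _ _
        rw [e]
        exact Submodule.add_mem _ ih ih'
      | smul s c _ ih =>
        have e : (fun q => (s • c) * S.prm p t₁ φ
            (fun t => (gr p (S.v t₁) - 1) ^ (x.2 : ℕ) * ρ x.1 t) q) =
            s • (fun q => c * S.prm p t₁ φ
              (fun t => (gr p (S.v t₁) - 1) ^ (x.2 : ℕ) * ρ x.1 t) q) := by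
          funext q
          exact smul_mul_assoc _ _ _
        rw [e]
        exact Submodule.smul_mem _ _ ih
    set L : (S.T → Alg p Γ) →ₗ[ZMod p] ((S.rs p t₁).T → Alg p Γ) :=
      { toFun := S.prm p t₁ φ
        map_add' := fun a b => S.prm_add p t₁ φ a b
        map_smul' := fun c a => S.prm_smul p t₁ φ c a } with hL
    have hb2 := g3 b hb hdb
    have hle : Submodule.span (ZMod p) {b : S.T → Alg p Γ | ∃ h ∈ S.H, ∃ r, b = fun t =>
        gr p h * ρ r t} ≤ Q.comap L := by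
      refine Submodule.span_le.2 ?_
      rintro _ ⟨h, hh, r, rfl⟩
      obtain ⟨β, hβ, hβ2⟩ := S.exists_comp p t₁ φ hφ h1 h0 (gr p h) (gr_mem_sa p hh)
      have e : (fun t => gr p h * ρ r t) = ∑ k : Fin p, (fun t => β k *
          ((gr p (S.v t₁) - 1) ^ (k : ℕ) * ρ r t)) := by
        funext t
        rw [Finset.sum_apply, hβ2, Finset.sum_mul]
        exact Finset.sum_congr rfl fun k _ => mul_assoc _ _ _
      show L (fun t => gr p h * ρ r t) ∈ Q
      rw [e, map_sum]
      refine Submodule.sum_mem _ fun k _ => ?_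
      have e2 : L (fun t => β k * ((gr p (S.v t₁) - 1) ^ (k : ℕ) * ρ r t)) =
          fun q => β k * S.prm p t₁ φ (fun t => (gr p (S.v t₁) - 1) ^ (k : ℕ) * ρ r t) q :=
        S.prm_mul p t₁ φ hφ h1 h0 (β k) (hβ k) _ (hmem k r)
      rw [e2]
      exact hmulQ (β k) (hβ k) (r, k)
    have h3 := hle hb2
    have h4 : S.prm p t₁ φ b ∈ Q := h3
    rw [hab] at h4
    exact h4

end rs

end WSys

end Pool.Agent.TLA
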