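import Pool.Agent.TLA.PresFox

/-! Linearity of the rewriting map. -/

set_option autoImplicit false

namespace Pool.Agent.TLA

variable (p : ℕ) {Γ : Type} [Group Γ]

namespace WSys

variable (S : WSys Γ)

private theorem PresLin_d_add (a b : S.T → Alg p Γ) : S.d p (a + b) = S.d p a + S.d p b := by
  unfold d
  rw [← Finset.sum_add_distrib]
  exact Finset.sum_congr rfl fun t _ => by rw [Pi.add_apply, add_mul]

private theorem PresLin_d_smul (c : ZMod p) (a : S.T → Alg p Γ) :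
    S.d p (c • a) = c • S.d p a := by
  unfold d
  rw [Finset.smul_sum]
  exact Finset.sum_congr rfl fun t _ => by rw [Pi.smul_apply, smul_mul_assoc]

private theorem PresLin_d_mul (b : Alg p Γ) (a : S.T → Alg p Γ) :
    S.d p (fun t => b * a t) = b * S.d p a := by
  unfold d
  rw [Finset.mul_sum]
  exact Finset.sum_congr rfl fun t _ => by rw [mul_assoc]

private theorem PresLin_ind (P : (S.T → Alg p Γ) → Prop) (hadd : ∀ a b, P a → P b → P (a + b))
    (hsmul : ∀ (c : ZMod p) a, P a → P (c • a)) (hz : P 0)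
    (hs : ∀ t, ∀ h ∈ S.H, P (Pi.single t (gr p h))) (a : S.T → Alg p Γ)
    (ha : ∀ t, a t ∈ sa p S.H) : P a := by
  have h1 : ∀ t, ∀ x ∈ sa p S.H, P (Pi.single t x) := by
    intro t x hx
    unfold sa at hx
    induction hx using Submodule.span_induction with
    | mem x hx =>
      obtain ⟨h, hh, rfl⟩ := hx
      exact hs t h hh
    | zero =>
      rw [Pi.single_zero]
      exact hz
    | add x y _ _ hx hy =>
      rw [Pi.single_add]
      exact hadd _ _ hx hy
    | smul r x _ hx =>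
      rw [Pi.single_smul]
      exact hsmul _ _ hx
  rw [← Finset.univ_sum_single a]
  exact Finset.sum_induction _ P hadd hz fun t _ => h1 t _ (ha t)

section rs

variable [Fact p.Prime] (t₁ : S.T)

variable (φ : Γ → ZMod p)

variable (hφ : S.AddOn p φ) (h1 : φ (S.v t₁) = 1) (h0 : ∀ t, t ≠ t₁ → φ (S.v t) = 0)

include hφ in
private theorem PresLin_phi_one : φ 1 = 0 := by
  have h := hφ 1 S.H.one_mem 1 S.H.one_mem
  rw [mul_one] at h
  have h2 : φ 1 + 0 = φ 1 + φ 1 := by rw [add_zero]; exact h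
  exact (add_left_cancel h2).symm

include hφ h1 in
private theorem PresLin_phi_pow (n : ℕ) : φ (S.v t₁ ^ n) = (n : ZMod p) := by
  induction n with
  | zero => rw [pow_zero, Nat.cast_zero]; exact S.PresLin_phi_one p φ hφ
  | succ n ih =>
    rw [pow_succ, hφ _ (S.H.pow_mem (S.v_mem_H t₁) n) _ (S.v_mem_H t₁), ih, h1, Nat.cast_succ]

include hφ h1 in
private theorem PresLin_phi_red {h : Γ} (hh : h ∈ S.H) :
    φ (h * (S.v t₁ ^ (φ h).val)⁻¹) = 0 := by
  have h2 : S.v t₁ ^ (φ h).val ∈ S.H := S.H.pow_mem (S.v_mem_H t₁) _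
  have h3 := hφ _ (S.H.mul_mem hh (S.H.inv_mem h2)) _ h2
  rw [inv_mul_cancel_right, S.PresLin_phi_pow p t₁ φ hφ h1, ZMod.natCast_zmod_val] at h3
  have h4 : (0 : ZMod p) + φ h = φ (h * (S.v t₁ ^ (φ h).val)⁻¹) + φ h := by
    rw [zero_add]; exact h3
  exact (add_right_cancel h4).symm

include hφ h1 h0

private theorem PresLin_red_mem {h : Γ} (hh : h ∈ S.H) :
    h * (S.v t₁ ^ (φ h).val)⁻¹ ∈ (S.rs p t₁).H := by
  rw [S.mem_rs_H p t₁ φ hφ h1 h0]
  exact ⟨S.H.mul_mem hh (S.H.inv_mem (S.H.pow_mem (S.v_mem_H t₁) _)),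
    S.PresLin_phi_red p t₁ φ hφ h1 hh⟩

private theorem PresLin_rwv_mem (t : S.T) {h : Γ} (hh : h ∈ S.H) (q : (S.rs p t₁).T) :
    S.rwv p t₁ φ t h q ∈ sa p (S.rs p t₁).H := by
  unfold rwv
  split_ifs with h2 h3
  · dsimp only
    split_ifs
    · exact gr_mem_sa p (S.PresLin_red_mem p t₁ φ hφ h1 h0 hh)
    · exact Submodule.zero_mem _
  · exact Submodule.zero_mem _
  · exact sa_mul_mem p (gr_mem_sa p (S.PresLin_red_mem p t₁ φ hφ h1 h0 hh))
      (S.Fv_mem p t₁ φ hφ h1 h0 _ _ _ _)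

omit h1 h0 in
private theorem PresLin_phi_mul {g h : Γ} (hg : g ∈ S.H ∧ φ g = 0) (hh : h ∈ S.H) :
    φ (g * h) = φ h := by
  rw [hφ g hg.1 h hh, hg.2, zero_add]

private theorem PresLin_rwv_mul (t : S.T) {g h : Γ} (hg : g ∈ (S.rs p t₁).H) (hh : h ∈ S.H) :
    S.rwv p t₁ φ t (g * h) = fun q => gr p g * S.rwv p t₁ φ t h q := by
  rw [S.mem_rs_H p t₁ φ hφ h1 h0] at hg
  have h2 := S.PresLin_phi_mul p φ hφ hg hh
  funext q
  unfold rwv
  rw [h2, mul_assoc]
  split_ifs with h2 h3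
  · dsimp only
    split_ifs
    · rw [gr_mul]
    · rw [mul_zero]
  · rw [Pi.zero_apply, mul_zero]
  · dsimp only
    rw [gr_mul, mul_assoc]

theorem prm_mem (a : S.T → Alg p Γ) (ha : ∀ t, a t ∈ sa p S.H) (q : (S.rs p t₁).T) :
    S.prm p t₁ φ a q ∈ sa p (S.rs p t₁).H := by
  revert q
  refine S.PresLin_ind p (fun a => ∀ q, S.prm p t₁ φ a q ∈ sa p (S.rs p t₁).H) ?_ ?_ ?_ ?_ a ha
  · intro a b ha hb q
    rw [S.prm_add p t₁ φ]
    exact Submodule.add_mem _ (ha q) (hb q)
  · intro c a ha q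
    rw [S.prm_smul p t₁ φ]
    exact Submodule.smul_mem _ _ (ha q)
  · intro q
    have h2 := S.prm_smul p t₁ φ 0 0
    rw [zero_smul, zero_smul] at h2
    rw [h2]
    exact Submodule.zero_mem _
  · intro t h hh q
    rw [S.prm_single p t₁ φ]
    exact S.PresLin_rwv_mem p t₁ φ hφ h1 h0 t hh q

/-- Left linearity over the smaller group algebra. -/
theorem prm_mul (b : Alg p Γ) (hb : b ∈ sa p (S.rs p t₁).H) (a : S.T → Alg p Γ)
    (ha : ∀ t, a t ∈ sa p S.H) :
    S.prm p t₁ φ (fun t => b * a t) = fun q => b * S.prm p t₁ φ a q := by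
  have hz : S.prm p t₁ φ 0 = 0 := by
    have h2 := S.prm_smul p t₁ φ 0 0
    rwa [zero_smul, zero_smul] at h2
  refine S.PresLin_ind p
    (fun a => S.prm p t₁ φ (fun t => b * a t) = fun q => b * S.prm p t₁ φ a q) ?_ ?_ ?_ ?_ a ha
  · intro a a' ha ha'
    have h2 : (fun t => b * (a + a') t) = (fun t => b * a t) + fun t => b * a' t := by
      funext t; simp [mul_add]
    rw [h2, S.prm_add p t₁ φ, S.prm_add p t₁ φ, ha, ha']
    funext q
    simp [mul_add]
  · intro c a ha
    have h2 : (fun t => b * (c • a) t) = c • fun t => b * a t := by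
      funext t; simp
    rw [h2, S.prm_smul p t₁ φ, S.prm_smul p t₁ φ, ha]
    funext q
    simp
  · have h2 : (fun t : S.T => b * (0 : S.T → Alg p Γ) t) = 0 := by
      funext t; simp
    rw [h2, hz]
    funext q
    simp
  · intro t h hh
    unfold sa at hb
    induction hb using Submodule.span_induction with
    | mem b hb =>
      obtain ⟨g, hg, rfl⟩ := hb
      have h2 : (fun t' => gr p g * (Pi.single t (gr p h) : S.T → Alg p Γ) t') =
          Pi.single t (gr p (g * h)) := by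
        funext t'
        rw [gr_mul]
        by_cases ht : t' = t
        · subst ht; simp
        · simp [Pi.single_eq_of_ne ht]
      rw [h2, S.prm_single p t₁ φ, S.prm_single p t₁ φ]
      exact S.PresLin_rwv_mul p t₁ φ hφ h1 h0 t hg hh
    | zero =>
      have h2 : (fun t' => 0 * (Pi.single t (gr p h) : S.T → Alg p Γ) t') = 0 := by
        funext t'; simp
      rw [h2, hz]
      funext q
      simp
    | add b b' _ _ hb hb' =>
      have h2 : (fun t' => (b + b') * (Pi.single t (gr p h) : S.T → Alg p Γ) t') =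
          (fun t' => b * (Pi.single t (gr p h) : S.T → Alg p Γ) t') +
          fun t' => b' * (Pi.single t (gr p h) : S.T → Alg p Γ) t' := by
        funext t'; simp [add_mul]
      rw [h2, S.prm_add p t₁ φ, hb, hb']
      funext q
      simp [add_mul]
    | smul c b _ hb =>
      have h2 : (fun t' => (c • b) * (Pi.single t (gr p h) : S.T → Alg p Γ) t') =
          c • fun t' => b * (Pi.single t (gr p h) : S.T → Alg p Γ) t' := by
        funext t'; simp
      rw [h2, S.prm_smul p t₁ φ, hb]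
      funext q
      simp

omit hφ h1 h0 in
private theorem PresLin_comp0_zero : S.comp0 p t₁ φ 0 = 0 := by
  have h2 := S.comp0_smul p t₁ φ 0 0
  rwa [zero_smul, zero_smul] at h2

omit hφ h1 h0 in
private theorem PresLin_comp0_sub (a b : Alg p Γ) :
    S.comp0 p t₁ φ (a - b) = S.comp0 p t₁ φ a - S.comp0 p t₁ φ b := by
  have h2 := S.comp0_add p t₁ φ (a - b) b
  rw [sub_add_cancel] at h2
  rw [h2, add_sub_cancel_right]

theorem comp0_mul (b : Alg p Γ) (hb : b ∈ sa p (S.rs p t₁).H) (a : Alg p Γ)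
    (ha : a ∈ sa p S.H) : S.comp0 p t₁ φ (b * a) = b * S.comp0 p t₁ φ a := by
  have hz := S.PresLin_comp0_zero p t₁ φ
  unfold sa at ha
  induction ha using Submodule.span_induction with
  | mem a ha =>
    obtain ⟨h, hh, rfl⟩ := ha
    unfold sa at hb
    induction hb using Submodule.span_induction with
    | mem b hb =>
      obtain ⟨g, hg, rfl⟩ := hb
      have hg' := (S.mem_rs_H p t₁ φ hφ h1 h0 g).1 hg
      rw [← gr_mul, S.comp0_gr p t₁ φ, S.comp0_gr p t₁ φ, S.PresLin_phi_mul p φ hφ hg' hh, mul_assoc,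
        gr_mul]
    | zero => rw [zero_mul, zero_mul, hz]
    | add b b' _ _ hb hb' => rw [add_mul, add_mul, S.comp0_add p t₁ φ, hb, hb']
    | smul c b _ hb => rw [smul_mul_assoc, smul_mul_assoc, S.comp0_smul p t₁ φ, hb]
  | zero => rw [mul_zero, hz, mul_zero]
  | add a a' _ _ ha ha' => rw [mul_add, S.comp0_add p t₁ φ, S.comp0_add p t₁ φ, ha, ha', mul_add]
  | smul c a _ ha => rw [mul_smul_comm, S.comp0_smul p t₁ φ, S.comp0_smul p t₁ φ, ha, mul_smul_comm]

omit h0 in
private theorem PresLin_comp0_pow (k : ℕ) : ∀ j, k + j < p →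
    S.comp0 p t₁ φ ((gr p (S.v t₁) - 1) ^ k * gr p (S.v t₁ ^ j)) = if k = 0 then 1 else 0 := by
  have hb : ∀ j, j < p → S.comp0 p t₁ φ (gr p (S.v t₁ ^ j)) = 1 := by
    intro j hj
    rw [S.comp0_gr p t₁ φ, S.PresLin_phi_pow p t₁ φ hφ h1, ZMod.val_natCast, Nat.mod_eq_of_lt hj,
      mul_inv_cancel, gr_one]
  induction k with
  | zero =>
    intro j hj
    rw [pow_zero, one_mul, if_pos rfl]
    exact hb j (by omega)
  | succ k ih =>
    intro j hj
    have h2 : (gr p (S.v t₁) - 1) ^ (k + 1) * gr p (S.v t₁ ^ j) =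
        (gr p (S.v t₁) - 1) ^ k * gr p (S.v t₁ ^ (j + 1)) -
        (gr p (S.v t₁) - 1) ^ k * gr p (S.v t₁ ^ j) := by
      rw [pow_succ (gr p (S.v t₁) - 1) k, mul_assoc, sub_mul, one_mul, ← gr_mul, ← pow_succ',
        mul_sub]
    rw [h2, S.PresLin_comp0_sub p t₁ φ, ih (j + 1) (by omega), ih j (by omega),
      sub_self, if_neg (Nat.succ_ne_zero k)]

/-- `comp0` is the component at `u^0`. -/
theorem comp0_sum (b : Fin p → Alg p Γ) (hb : ∀ k : Fin p, b k ∈ sa p (S.rs p t₁).H) :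
    S.comp0 p t₁ φ (∑ k : Fin p, b k * (gr p (S.v t₁) - 1) ^ (k : ℕ)) =
      b ⟨0, (Fact.out : p.Prime).pos⟩ := by
  have hz := S.PresLin_comp0_zero p t₁ φ
  have hsum : ∀ s : Finset (Fin p), ∀ f : Fin p → Alg p Γ,
      S.comp0 p t₁ φ (∑ k ∈ s, f k) = ∑ k ∈ s, S.comp0 p t₁ φ (f k) := by
    intro s f
    classical
    induction s using Finset.induction_on with
    | empty => rw [Finset.sum_empty, Finset.sum_empty, hz]
    | insert k s hk ih => rw [Finset.sum_insert hk, Finset.sum_insert hk, S.comp0_add p t₁ φ, ih]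
  have hu : (gr p (S.v t₁) - 1) ∈ sa p S.H :=
    Submodule.sub_mem _ (gr_mem_sa p (S.v_mem_H t₁)) (one_mem_sa p S.H)
  have hpow : ∀ k : ℕ, (gr p (S.v t₁) - 1) ^ k ∈ sa p S.H := by
    intro k
    induction k with
    | zero => rw [pow_zero]; exact one_mem_sa p S.H
    | succ k ih => rw [pow_succ]; exact sa_mul_mem p ih hu
  rw [hsum, Finset.sum_eq_single ⟨0, (Fact.out : p.Prime).pos⟩]
  · rw [S.comp0_mul p t₁ φ hφ h1 h0 _ (hb _) _ (hpow _)]
    have h2 := S.PresLin_comp0_pow p t₁ φ hφ h1 0 0 (Fact.out : p.Prime).pos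
    rw [pow_zero (S.v t₁), gr_one, mul_one, if_pos rfl] at h2
    change _ * S.comp0 p t₁ φ ((gr p (S.v t₁) - 1) ^ 0) = _
    rw [h2, mul_one]
  · intro k _ hk
    rw [S.comp0_mul p t₁ φ hφ h1 h0 _ (hb _) _ (hpow _)]
    have h2 := S.PresLin_comp0_pow p t₁ φ hφ h1 k 0 k.2
    have h3 : (k : ℕ) ≠ 0 := fun hc => hk (Fin.ext hc)
    rw [pow_zero (S.v t₁), gr_one, mul_one, if_neg h3] at h2
    rw [h2, mul_zero]
  · intro hc
    exact absurd (Finset.mem_univ _) hc

private theorem PresLin_d_single (t : S.T) (h : Γ) (hh : h ∈ S.H) :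
    (S.rs p t₁).d p (S.rwv p t₁ φ t h) =
      S.comp0 p t₁ φ (S.d p (Pi.single t (gr p h))) := by
  have hd : S.d p (Pi.single t (gr p h)) = gr p (h * S.v t) - gr p h := by
    unfold d
    rw [Finset.sum_eq_single t]
    · rw [Pi.single_eq_same, mul_sub, mul_one, gr_mul]
    · intro s _ hs
      rw [Pi.single_eq_of_ne hs, zero_mul]
    · intro hc
      exact absurd (Finset.mem_univ _) hc
  rw [hd, S.PresLin_comp0_sub p t₁ φ, S.comp0_gr p t₁ φ, S.comp0_gr p t₁ φ, hφ h hh _ (S.v_mem_H t)]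
  have hlt : (φ h).val < p := ZMod.val_lt _
  have hp : 1 < p := (Fact.out : p.Prime).one_lt
  unfold rwv
  split_ifs with h2 h3
  · subst h2
    rw [h1]
    have h4 : φ h + 1 = 0 := by
      have h5 : φ h = ((p - 1 : ℕ) : ZMod p) := by
        rw [← h3, ZMod.natCast_zmod_val]
      rw [h5, Nat.cast_sub hp.le, ZMod.natCast_self, Nat.cast_one]
      ring
    rw [h4, ZMod.val_zero, pow_zero, inv_one, mul_one]
    refine (Finset.sum_eq_single
      (show (S.rs p t).T from (none : Option ({s : S.T // s ≠ t} × Fin p))) ?_ ?_).trans ?_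
    · intro q _ hq
      dsimp only
      rw [if_neg hq, zero_mul]
    · intro hc
      exact absurd (Finset.mem_univ _) hc
    · dsimp only
      rw [if_pos rfl]
      change gr p (h * (S.v t ^ (φ h).val)⁻¹) * (gr p (S.v t ^ p) - 1) = _
      rw [mul_sub, mul_one, ← gr_mul]
      congr 2
      have h6 : p = (φ h).val + 1 := by omega
      have h7 : S.v t ^ p = S.v t ^ (φ h).val * S.v t := by
        rw [← pow_succ, ← h6]
      rw [h7]
      group
  · subst h2
    rw [h1]
    have h4 : (φ h + 1).val = (φ h).val + 1 := by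
      have h5 : φ h + 1 = (((φ h).val + 1 : ℕ) : ZMod p) := by
        rw [Nat.cast_succ, ZMod.natCast_zmod_val]
      rw [h5, ZMod.val_natCast, Nat.mod_eq_of_lt (by omega)]
    have h6 : (S.rs p t).d p (0 : (S.rs p t).T → Alg p Γ) = 0 := by
      unfold d
      exact Finset.sum_eq_zero fun q _ => by rw [Pi.zero_apply, zero_mul]
    rw [h6, h4]
    symm
    rw [sub_eq_zero]
    congr 1
    rw [pow_succ' (S.v t)]
    group
  · rw [h0 t h2, add_zero, (S.rs p t₁).PresLin_d_mul p,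
      S.d_Fv p t₁ φ hφ h1 h0 ⟨t, h2⟩ 0 _ (by omega), mul_sub, mul_one, ← gr_mul]
    congr 2
    simp only [Zc, z]
    group

/-- Compatibility of the rewriting with `d`. -/
theorem d_prm (a : S.T → Alg p Γ) (ha : ∀ t, a t ∈ sa p S.H) :
    (S.rs p t₁).d p (S.prm p t₁ φ a) = S.comp0 p t₁ φ (S.d p a) := by
  refine S.PresLin_ind p
    (fun a => (S.rs p t₁).d p (S.prm p t₁ φ a) = S.comp0 p t₁ φ (S.d p a)) ?_ ?_ ?_ ?_ a ha
  · intro a b ha hb
    rw [S.prm_add p t₁ φ, PresLin_d_add, PresLin_d_add, S.comp0_add p t₁ φ, ha, hb]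
  · intro c a ha
    rw [S.prm_smul p t₁ φ, PresLin_d_smul, PresLin_d_smul, S.comp0_smul p t₁ φ, ha]
  · have h2 := S.prm_smul p t₁ φ 0 0
    rw [zero_smul, zero_smul] at h2
    have h3 := S.PresLin_d_smul p 0 0
    rw [zero_smul, zero_smul] at h3
    have h4 := (S.rs p t₁).PresLin_d_smul p 0 0
    rw [zero_smul, zero_smul] at h4
    rw [h2, h3, h4, S.PresLin_comp0_zero p t₁ φ]
  · intro t h hh
    rw [S.prm_single p t₁ φ]
    exact S.PresLin_d_single p t₁ φ hφ h1 h0 t h hh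

end rs

end WSys

end Pool.Agent.TLA
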