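import Pool.Agent.TLA.PresPow

/-! The rewriting map preserves the filtration. -/

set_option autoImplicit false

namespace Pool.Agent.TLA

variable (p : ℕ) {Γ : Type} [Group Γ]

namespace WSys

variable (S : WSys Γ)

theorem PresM_u_pow (t₁ : S.T) (k : ℕ) : (gr p (S.v t₁) - 1) ^ k ∈ sa p S.H := by
  induction k with
  | zero =>
    rw [pow_zero]
    exact one_mem_sa p S.H
  | succ k ih =>
    rw [pow_succ]
    exact sa_mul_mem p ih
      ((sa p S.H).sub_mem (gr_mem_sa p (S.v_mem_H t₁)) (one_mem_sa p S.H))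

section rs

variable [Fact p.Prime] (t₁ : S.T)

variable (φ : Γ → ZMod p)

theorem PresM_sum {ι : Type} (s : Finset ι) (f : ι → S.T → Alg p Γ) :
    S.prm p t₁ φ (∑ i ∈ s, f i) = ∑ i ∈ s, S.prm p t₁ φ (f i) :=
  map_sum (AddMonoidHom.mk' (S.prm p t₁ φ) (S.prm_add p t₁ φ)) f s

variable (hφ : S.AddOn p φ) (h1 : φ (S.v t₁) = 1) (h0 : ∀ t, t ≠ t₁ → φ (S.v t) = 0)

include hφ h1 h0

/-- The rewriting preserves the filtration. -/
theorem prm_mem_M (c : ℝ) (a : S.T → Alg p Γ) (ha : ∀ t, a t ∈ S.M p (c / S.w t))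
    (q : (S.rs p t₁).T) :
    S.prm p t₁ φ a q ∈ (S.rs p t₁).M p (c / (S.rs p t₁).w q) := by
  classical
  have hdec := fun t => S.M_decomp p t₁ φ hφ h1 h0 (c / S.w t) (a t) (ha t)
  choose b hb hab using hdec
  have hw1 : S.w t₁ ≠ 0 := (S.w_pos t₁).ne'
  have key : ∀ (t : S.T) (k : Fin p),
      S.prm p t₁ φ (fun t' => b t k *
        (Pi.single t ((gr p (S.v t₁) - 1) ^ (k : ℕ)) : S.T → Alg p Γ) t') q ∈
        (S.rs p t₁).M p (c / (S.rs p t₁).w q) := by
    intro t k
    rw [S.prm_mul p t₁ φ hφ h1 h0 (b t k) ((S.rs p t₁).M_le_sa p _ (hb t k)) _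
      (fun t' => by
        by_cases h : t' = t
        · subst h
          rw [Pi.single_eq_same]
          exact S.PresM_u_pow p t₁ k
        · rw [Pi.single_eq_of_ne h]
          exact Submodule.zero_mem _)]
    by_cases ht : t = t₁
    · subst ht
      rw [S.prm_pow₁ p t φ hφ h1 h0 k k.2]
      by_cases hk : (k : ℕ) = p - 1
      · rw [if_pos hk]
        match q with
        | none =>
          show b t k * (Pi.single none 1 : (S.rs p t).T → Alg p Γ) none ∈ _
          rw [Pi.single_eq_same, mul_one]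
          have h2 := hb t k
          rw [hk, div_div, ← pow_succ', Nat.sub_add_cancel (Fact.out : p.Prime).one_lt.le] at h2
          exact h2
        | some q' =>
          show b t k * (Pi.single none 1 : (S.rs p t).T → Alg p Γ) (some q') ∈ _
          rw [Pi.single_eq_of_ne (by simp), mul_zero]
          exact Submodule.zero_mem _
      · rw [if_neg hk]
        show b t k * 0 ∈ _
        rw [mul_zero]
        exact Submodule.zero_mem _
    · rw [S.prm_pow p t₁ φ hφ h1 h0 ⟨t, ht⟩ k k.2]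
      have h2 := S.fwdDiff_Fv_mem p t₁ φ hφ h1 h0 ⟨t, ht⟩ 0 k 0 (by have := k.2; omega) q
      have h3 := (S.rs p t₁).M_mul_mem p (hb t k) h2
      have hwt : S.w t ≠ 0 := (S.w_pos t).ne'
      have hwq : (S.rs p t₁).w q ≠ 0 := ((S.rs p t₁).w_pos q).ne'
      have h4 : c / S.w t / S.w t₁ ^ (k : ℕ) *
          (S.w t * S.w t₁ ^ (0 + (k : ℕ)) / (S.rs p t₁).w q) = c / (S.rs p t₁).w q := by
        rw [zero_add]
        have h5 : S.w t₁ ^ (k : ℕ) ≠ 0 := pow_ne_zero _ hw1
        field_simp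
      rw [h4] at h3
      exact h3
  have hsum : a = ∑ t, ∑ k : Fin p, (fun t' => b t k *
      (Pi.single t ((gr p (S.v t₁) - 1) ^ (k : ℕ)) : S.T → Alg p Γ) t') := by
    funext t'
    rw [Finset.sum_apply, Finset.sum_eq_single t']
    · rw [Finset.sum_apply, hab t']
      refine Finset.sum_congr rfl fun k _ => ?_
      rw [Pi.single_eq_same]
    · intro t _ htt'
      rw [Finset.sum_apply]
      refine Finset.sum_eq_zero fun k _ => ?_
      rw [Pi.single_eq_of_ne (Ne.symm htt'), mul_zero]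
    · intro h
      exact absurd (Finset.mem_univ _) h
  rw [hsum, PresM_sum, Finset.sum_apply]
  refine Submodule.sum_mem _ fun t _ => ?_
  rw [PresM_sum, Finset.sum_apply]
  exact Submodule.sum_mem _ fun k _ => key t k

end rs

end WSys

end Pool.Agent.TLA
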