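import Pool.Agent.TLA.PresLin

/-! The rewriting map and powers of u. -/

set_option autoImplicit false

namespace Pool.Agent.TLA

variable (p : ℕ) {Γ : Type} [Group Γ]

namespace WSys

variable (S : WSys Γ)

section rs

variable [Fact p.Prime] (t₁ : S.T)

variable (φ : Γ → ZMod p)

/-- The rewriting map as a linear map. -/
private noncomputable def PresPow_L : (S.T → Alg p Γ) →ₗ[ZMod p] ((S.rs p t₁).T → Alg p Γ) where
  toFun := S.prm p t₁ φ
  map_add' := fun a b => S.prm_add p t₁ φ a b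
  map_smul' := fun c a => S.prm_smul p t₁ φ c a

private theorem PresPow_gr_pow (v : Γ) (i : ℕ) : gr p v ^ i = gr p (v ^ i) := by
  simp [gr, MonoidAlgebra.single_pow]

private theorem PresPow_binom (v : Γ) (k : ℕ) :
    (gr p v - 1) ^ k =
      ∑ i ∈ Finset.range (k + 1), ((-1 : ℤ) ^ (k - i) * (k.choose i : ℤ)) • gr p (v ^ i) := by
  rw [sub_eq_add_neg, Commute.add_pow (Commute.neg_right (Commute.one_right _))]
  refine Finset.sum_congr rfl fun i hi => ?_
  have e1 : gr p (v ^ i) * (-1) ^ (k - i) = (-1) ^ (k - i) * gr p (v ^ i) :=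
    ((Commute.one_right (gr p (v ^ i))).neg_right.pow_right (k - i)).eq
  rw [PresPow_gr_pow, zsmul_eq_mul, e1, mul_assoc,
    ← (Nat.cast_commute (k.choose i) (gr p (v ^ i))).eq, ← mul_assoc]
  push_cast
  rfl

private theorem PresPow_prm (t : S.T) (k : ℕ) :
    S.prm p t₁ φ (Pi.single t ((gr p (S.v t₁) - 1) ^ k)) =
      ∑ i ∈ Finset.range (k + 1), ((-1 : ℤ) ^ (k - i) * (k.choose i : ℤ)) •
        S.rwv p t₁ φ t (S.v t₁ ^ i) := by
  have h : (Pi.single t ((gr p (S.v t₁) - 1) ^ k) : S.T → Alg p Γ) =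
      ∑ i ∈ Finset.range (k + 1), ((-1 : ℤ) ^ (k - i) * (k.choose i : ℤ)) •
        (Pi.single t (gr p (S.v t₁ ^ i)) : S.T → Alg p Γ) := by
    rw [PresPow_binom]
    have := map_sum (AddMonoidHom.single (fun _ : S.T => Alg p Γ) t)
      (fun i => ((-1 : ℤ) ^ (k - i) * (k.choose i : ℤ)) • gr p (S.v t₁ ^ i))
      (Finset.range (k + 1))
    simpa only [AddMonoidHom.single_apply, map_zsmul] using this
  have h2 := map_sum (PresPow_L p S t₁ φ)
      (fun i => ((-1 : ℤ) ^ (k - i) * (k.choose i : ℤ)) •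
        (Pi.single t (gr p (S.v t₁ ^ i)) : S.T → Alg p Γ)) (Finset.range (k + 1))
  rw [← h] at h2
  simp only [map_zsmul] at h2
  refine h2.trans (Finset.sum_congr rfl fun i _ => ?_)
  congr 1
  exact S.prm_single p t₁ φ t _

variable (hφ : S.AddOn p φ) (h1 : φ (S.v t₁) = 1) (h0 : ∀ t, t ≠ t₁ → φ (S.v t) = 0)

include hφ h1

private theorem PresPow_phi (i : ℕ) : φ (S.v t₁ ^ i) = (i : ZMod p) := by
  induction i with
  | zero =>
    have h := hφ 1 (one_mem _) 1 (one_mem _)
    rw [mul_one] at h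
    have : φ 1 = 0 := by
      have h' : φ 1 + 0 = φ 1 + φ 1 := by rw [add_zero]; exact h
      exact (add_left_cancel h').symm
    simp [this]
  | succ i ih =>
    have hm : S.v t₁ ∈ S.H := Subgroup.subset_closure (Set.mem_range_self t₁)
    rw [pow_succ, hφ (S.v t₁ ^ i) (pow_mem hm i) (S.v t₁) hm, ih, h1]
    push_cast
    rfl

private theorem PresPow_val (i : ℕ) (hi : i < p) : (φ (S.v t₁ ^ i)).val = i := by
  rw [PresPow_phi p S t₁ φ hφ h1, ZMod.val_natCast, Nat.mod_eq_of_lt hi]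

include h0

/-- The rewriting of `u^k e_t`. -/
theorem prm_pow (t : {t : S.T // t ≠ t₁}) (k : ℕ) (hk : k < p) :
    S.prm p t₁ φ (Pi.single (t : S.T) ((gr p (S.v t₁) - 1) ^ k)) =
      (fwdDiff 1)^[k] (S.Fv p t₁ t 0) 0 := by
  rw [PresPow_prm, fwdDiff_iter_eq_sum_shift]
  refine Finset.sum_congr rfl fun i hi => ?_
  have hi' : i < p := by
    have := Finset.mem_range.1 hi
    omega
  congr 1
  unfold rwv
  rw [dif_neg t.2]
  funext q
  rw [PresPow_val p S t₁ φ hφ h1 i hi']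
  have h1' : gr p (S.v t₁ ^ i * (S.v t₁ ^ i)⁻¹) = (1 : Alg p Γ) := by
    rw [mul_inv_cancel]
    rfl
  rw [h1', one_mul, zero_add, smul_eq_mul, mul_one]

theorem prm_pow₁ (k : ℕ) (hk : k < p) :
    S.prm p t₁ φ (Pi.single t₁ ((gr p (S.v t₁) - 1) ^ k)) =
      if k = p - 1 then Pi.single none 1 else 0 := by
  rw [PresPow_prm]
  have hr : ∀ i ∈ Finset.range (k + 1), i ≠ k →
      ((-1 : ℤ) ^ (k - i) * (k.choose i : ℤ)) • S.rwv p t₁ φ t₁ (S.v t₁ ^ i) = 0 := by
    intro i hi h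
    have hi' : i < k + 1 := Finset.mem_range.1 hi
    have hip : i < p := by omega
    unfold rwv
    rw [dif_pos rfl, PresPow_val p S t₁ φ hφ h1 i hip, if_neg (by omega)]
    exact smul_zero _
  rw [Finset.sum_eq_single_of_mem k (Finset.self_mem_range_succ k) hr]
  simp only [Nat.sub_self, pow_zero, Nat.choose_self, Nat.cast_one, mul_one, one_smul]
  unfold rwv
  rw [dif_pos rfl, PresPow_val p S t₁ φ hφ h1 k hk]
  by_cases h' : k = p - 1
  · rw [if_pos h', if_pos h']
    funext q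
    by_cases hq : q = none
    · subst hq
      simp [gr, MonoidAlgebra.one_def]
    · rw [if_neg hq]
      symm
      exact Pi.single_eq_of_ne (M := fun _ => Alg p Γ) hq 1
  · rw [if_neg h', if_neg h']
    rfl

end rs

end WSys

end Pool.Agent.TLA
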