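import Pool.Agent.TLA.PresPow

/-! The rewriting map is onto. -/

set_option autoImplicit false

namespace Pool.Agent.TLA

variable (p : ℕ) {Γ : Type} [Group Γ]

namespace WSys

variable (S : WSys Γ)

section rs

variable [Fact p.Prime] (t₁ : S.T)

variable (φ : Γ → ZMod p)

variable (hφ : S.AddOn p φ) (h1 : φ (S.v t₁) = 1) (h0 : ∀ t, t ≠ t₁ → φ (S.v t) = 0)

include hφ h1 h0

omit h0 in
private theorem presSurj_phi_pow (i : ℕ) : φ (S.v t₁ ^ i) = (i : ZMod p) := by
  have hv : ∀ i : ℕ, S.v t₁ ^ i ∈ S.H := fun i => S.H.pow_mem (S.v_mem_H t₁) i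
  induction i with
  | zero =>
    have h2 := hφ 1 S.H.one_mem 1 S.H.one_mem
    rw [mul_one] at h2
    rw [pow_zero, Nat.cast_zero]
    simpa using h2
  | succ i ih => rw [pow_succ, hφ _ (hv i) _ (S.v_mem_H t₁), ih, h1, Nat.cast_succ]

omit hφ h1 h0 in
/-- The rewriting map as a linear map. -/
private noncomputable def presSurj_L :
    (S.T → Alg p Γ) →ₗ[ZMod p] ((S.rs p t₁).T → Alg p Γ) where
  toFun := S.prm p t₁ φ
  map_add' := S.prm_add p t₁ φ
  map_smul' := S.prm_smul p t₁ φ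

omit hφ h1 h0 in
private theorem presSurj_L_apply (a : S.T → Alg p Γ) :
    presSurj_L p S t₁ φ a = S.prm p t₁ φ a := rfl

omit hφ h1 h0 in
/-- The range of the rewriting map. -/
private def PresSurjR (c : (S.rs p t₁).T → Alg p Γ) : Prop :=
  ∃ b : S.T → Alg p Γ, (∀ t, b t ∈ sa p S.H) ∧ S.prm p t₁ φ b = c

omit hφ h1 h0 in
private theorem presSurj_add {c d : (S.rs p t₁).T → Alg p Γ} (hc : PresSurjR p S t₁ φ c)
    (hd : PresSurjR p S t₁ φ d) : PresSurjR p S t₁ φ (c + d) := by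
  obtain ⟨b, hb, rfl⟩ := hc
  obtain ⟨b', hb', rfl⟩ := hd
  exact ⟨b + b', fun t => (sa p S.H).add_mem (hb t) (hb' t), S.prm_add p t₁ φ b b'⟩

omit hφ h1 h0 in
private theorem presSurj_sub {c d : (S.rs p t₁).T → Alg p Γ} (hc : PresSurjR p S t₁ φ c)
    (hd : PresSurjR p S t₁ φ d) : PresSurjR p S t₁ φ (c - d) := by
  obtain ⟨b, hb, rfl⟩ := hc
  obtain ⟨b', hb', rfl⟩ := hd
  exact ⟨b - b', fun t => (sa p S.H).sub_mem (hb t) (hb' t),
    (presSurj_L p S t₁ φ).map_sub b b'⟩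

omit hφ h1 h0 in
private theorem presSurj_zero : PresSurjR p S t₁ φ 0 :=
  ⟨0, fun _ => (sa p S.H).zero_mem, (presSurj_L p S t₁ φ).map_zero⟩

private theorem presSurj_le : sa p (S.rs p t₁).H ≤ sa p S.H :=
  sa_mono p fun _ hx => ((S.mem_rs_H p t₁ φ hφ h1 h0 _).mp hx).1

private theorem presSurj_mul {x : Alg p Γ} (hx : x ∈ sa p (S.rs p t₁).H)
    {c : (S.rs p t₁).T → Alg p Γ} (hc : PresSurjR p S t₁ φ c) :
    PresSurjR p S t₁ φ (fun q => x * c q) := by
  obtain ⟨b, hb, rfl⟩ := hc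
  exact ⟨fun t => x * b t,
    fun t => sa_mul_mem p (presSurj_le p S t₁ φ hφ h1 h0 hx) (hb t),
    S.prm_mul p t₁ φ hφ h1 h0 x hx b hb⟩

private theorem presSurj_Fv (t : {t : S.T // t ≠ t₁}) (k : ℕ) :
    ∀ i, k + i < p → PresSurjR p S t₁ φ (S.Fv p t₁ t k i) := by
  classical
  induction k with
  | zero =>
    intro i hi
    have hi' : i < p := by omega
    have hval : (φ (S.v t₁ ^ i)).val = i := by
      rw [presSurj_phi_pow p S t₁ φ hφ h1 i, ZMod.val_natCast_of_lt hi']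
    refine ⟨Pi.single (t : S.T) (gr p (S.v t₁ ^ i)), ?_, ?_⟩
    · intro s
      rcases eq_or_ne s (t : S.T) with hs | hs
      · rw [hs, Pi.single_eq_same]
        exact gr_mem_sa p (S.H.pow_mem (S.v_mem_H t₁) i)
      · rw [Pi.single_eq_of_ne hs]
        exact (sa p S.H).zero_mem
    · rw [S.prm_single p t₁ φ]
      unfold rwv
      rw [dif_neg t.2, hval, mul_inv_cancel]
      funext q
      rw [gr_one, one_mul]
  | succ k ih =>
    intro i hi
    have h2 := ih (i + 1) (by omega)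
    have h3 := ih i (by omega)
    have h4 := presSurj_sub p S t₁ φ h2 h3
    have h5 := presSurj_mul p S t₁ φ hφ h1 h0
      (gr_mem_sa p ((S.rs p t₁).H.inv_mem
        (S.Zc_mem_rs_H p t₁ φ hφ h1 h0 (t : S.T) t.2 k i))) h4
    have h6 : (fun q => gr p (S.Zc t₁ t k i)⁻¹ *
        (S.Fv p t₁ t k (i + 1) - S.Fv p t₁ t k i) q) = S.Fv p t₁ t (k + 1) i := by
      funext q
      have h7 : S.Fv p t₁ t k (i + 1) q =
          S.Fv p t₁ t k i q + gr p (S.Zc t₁ t k i) * S.Fv p t₁ t (k + 1) i q := by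
        rw [Fv]
      rw [Pi.sub_apply, h7, add_sub_cancel_left, ← mul_assoc, ← gr_mul, inv_mul_cancel, gr_one,
        one_mul]
    rw [h6] at h5
    exact h5

private theorem presSurj_single (q : (S.rs p t₁).T) :
    PresSurjR p S t₁ φ (Pi.single q 1) := by
  classical
  have hp : 0 < p := (Fact.out : p.Prime).pos
  match q with
  | none =>
    have hval : (φ (S.v t₁ ^ (p - 1))).val = p - 1 := by
      rw [presSurj_phi_pow p S t₁ φ hφ h1 (p - 1), ZMod.val_natCast_of_lt (by omega)]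
    refine ⟨Pi.single t₁ (gr p (S.v t₁ ^ (p - 1))), ?_, ?_⟩
    · intro s
      rcases eq_or_ne s t₁ with hs | hs
      · rw [hs, Pi.single_eq_same]
        exact gr_mem_sa p (S.H.pow_mem (S.v_mem_H t₁) _)
      · rw [Pi.single_eq_of_ne hs]
        exact (sa p S.H).zero_mem
    · rw [S.prm_single p t₁ φ]
      unfold rwv
      rw [dif_pos rfl, if_pos hval, hval, mul_inv_cancel, gr_one]
      funext q
      rcases eq_or_ne q none with hq | hq
      · rw [if_pos hq, hq, Pi.single_eq_same]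
      · rw [if_neg hq, Pi.single_eq_of_ne hq]
  | some (t, ⟨k, hk⟩) =>
    have h2 := presSurj_Fv p S t₁ φ hφ h1 h0 t k 0 (by omega)
    have h3 : S.Fv p t₁ t k 0 = Pi.single (some (t, ⟨k, hk⟩)) 1 := by
      funext q
      have h4 : S.Fv p t₁ t k 0 q = if h : k < p then
          (if q = (some (t, ⟨k, h⟩) : (S.rs p t₁).T) then 1 else 0) else 0 := by
        rw [Fv]
      rw [h4, dif_pos hk]
      by_cases hq : q = (some (t, ⟨k, hk⟩) : (S.rs p t₁).T)
      · rw [if_pos hq, hq]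
        exact (Pi.single_eq_same (M := fun _ : (S.rs p t₁).T => Alg p Γ) _ _).symm
      · rw [if_neg hq]
        exact (Pi.single_eq_of_ne (M := fun _ : (S.rs p t₁).T => Alg p Γ) hq _).symm
    rw [h3] at h2
    exact h2

/-- The rewriting is onto. -/
theorem prm_surj (a : (S.rs p t₁).T → Alg p Γ) (ha : ∀ q, a q ∈ sa p (S.rs p t₁).H) :
    ∃ b : S.T → Alg p Γ, (∀ t, b t ∈ sa p S.H) ∧ S.prm p t₁ φ b = a := by
  classical
  have h2 : ∀ s : Finset (S.rs p t₁).T,
      PresSurjR p S t₁ φ (∑ q ∈ s, fun r => a q * (Pi.single q 1 :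
        (S.rs p t₁).T → Alg p Γ) r) := by
    intro s
    induction s using Finset.induction_on with
    | empty =>
      rw [Finset.sum_empty]
      exact presSurj_zero p S t₁ φ
    | insert q s hq ih =>
      rw [Finset.sum_insert hq]
      exact presSurj_add p S t₁ φ
        (presSurj_mul p S t₁ φ hφ h1 h0 (ha q) (presSurj_single p S t₁ φ hφ h1 h0 q)) ih
  have h3 : (∑ q : (S.rs p t₁).T, fun r => a q * (Pi.single q 1 :
      (S.rs p t₁).T → Alg p Γ) r) = a := by
    funext r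
    rw [Finset.sum_apply, Finset.sum_eq_single r]
    · rw [Pi.single_eq_same, mul_one]
    · intro q _ hq
      rw [Pi.single_eq_of_ne hq.symm, mul_zero]
    · intro h
      exact absurd (Finset.mem_univ r) h
  have h4 := h2 Finset.univ
  rw [h3] at h4
  exact h4

/-- Relations lift. -/
theorem prm_lift (a : (S.rs p t₁).T → Alg p Γ) (ha : ∀ q, a q ∈ sa p (S.rs p t₁).H)
    (hd : (S.rs p t₁).d p a = 0) :
    ∃ b : S.T → Alg p Γ, (∀ t, b t ∈ sa p S.H) ∧ S.d p b = 0 ∧ S.prm p t₁ φ b = a := by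
  classical
  have hp : 0 < p := (Fact.out : p.Prime).pos
  obtain ⟨a0, ha0, hprm⟩ := S.prm_surj p t₁ φ hφ h1 h0 a ha
  have hvs : ∀ t, gr p (S.v t) - 1 ∈ sa p S.H := fun t =>
    (sa p S.H).sub_mem (gr_mem_sa p (S.v_mem_H t)) (one_mem_sa p S.H)
  have hda : S.d p a0 ∈ sa p S.H :=
    Submodule.sum_mem _ fun t _ => sa_mul_mem p (ha0 t) (hvs t)
  obtain ⟨b, hb, hdb⟩ := S.exists_comp p t₁ φ hφ h1 h0 _ hda
  have hb0 : b ⟨0, hp⟩ = 0 := by
    rw [← S.comp0_sum p t₁ φ hφ h1 h0 b hb, ← hdb, ← S.d_prm p t₁ φ hφ h1 h0 a0 ha0, hprm, hd]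
  set u : Alg p Γ := gr p (S.v t₁) - 1 with hu
  have hus : u ∈ sa p S.H := hvs t₁
  have hupow : ∀ k : ℕ, u ^ k ∈ sa p S.H := by
    intro k
    induction k with
    | zero =>
      rw [pow_zero]
      exact one_mem_sa p S.H
    | succ k ih =>
      rw [pow_succ]
      exact sa_mul_mem p ih hus
  -- the correction
  set g : Alg p Γ := ∑ k : Fin p, b k * u ^ ((k : ℕ) - 1) with hg
  have hbS : ∀ k, b k ∈ sa p S.H := fun k => presSurj_le p S t₁ φ hφ h1 h0 (hb k)
  have hgs : g ∈ sa p S.H :=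
    Submodule.sum_mem _ fun k _ => sa_mul_mem p (hbS k) (hupow _)
  have hgu : g * u = S.d p a0 := by
    rw [hdb, hg, Finset.sum_mul]
    refine Finset.sum_congr rfl fun k _ => ?_
    rcases Nat.eq_zero_or_pos (k : ℕ) with hk | hk
    · have hk' : k = ⟨0, hp⟩ := Fin.ext hk
      rw [hk', hb0, zero_mul, zero_mul, zero_mul]
    · rw [mul_assoc, ← pow_succ, Nat.sub_add_cancel hk]
  have hsing : ∀ x ∈ sa p S.H, ∀ t, (Pi.single t₁ x : S.T → Alg p Γ) t ∈ sa p S.H := by
    intro x hx t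
    rcases eq_or_ne t t₁ with ht | ht
    · rw [ht, Pi.single_eq_same]
      exact hx
    · rw [Pi.single_eq_of_ne ht]
      exact (sa p S.H).zero_mem
  refine ⟨a0 - Pi.single t₁ g, ?_, ?_, ?_⟩
  · intro t
    exact (sa p S.H).sub_mem (ha0 t) (hsing g hgs t)
  · have h2 : S.d p (a0 - Pi.single t₁ g) = S.d p a0 - S.d p (Pi.single t₁ g) := by
      unfold d
      rw [← Finset.sum_sub_distrib]
      refine Finset.sum_congr rfl fun t _ => ?_
      rw [Pi.sub_apply, sub_mul]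
    have h3 : S.d p (Pi.single t₁ g) = g * u := by
      unfold d
      rw [Finset.sum_eq_single t₁]
      · rw [Pi.single_eq_same]
      · intro t _ ht
        rw [Pi.single_eq_of_ne ht, zero_mul]
      · intro h
        exact absurd (Finset.mem_univ t₁) h
    rw [h2, h3, hgu, sub_self]
  · have h2 : S.prm p t₁ φ (a0 - Pi.single t₁ g) =
        S.prm p t₁ φ a0 - S.prm p t₁ φ (Pi.single t₁ g) :=
      (presSurj_L p S t₁ φ).map_sub a0 (Pi.single t₁ g)
    have h3 : (Pi.single t₁ g : S.T → Alg p Γ) =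
        ∑ k : Fin p, fun t => b k * (Pi.single t₁ (u ^ ((k : ℕ) - 1)) : S.T → Alg p Γ) t := by
      funext t
      rw [Finset.sum_apply]
      rcases eq_or_ne t t₁ with ht | ht
      · rw [ht, Pi.single_eq_same, hg]
        refine Finset.sum_congr rfl fun k _ => ?_
        rw [Pi.single_eq_same]
      · rw [Pi.single_eq_of_ne ht]
        symm
        refine Finset.sum_eq_zero fun k _ => ?_
        rw [Pi.single_eq_of_ne ht, mul_zero]
    have h4 : S.prm p t₁ φ (Pi.single t₁ g) = 0 := by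
      rw [← presSurj_L_apply, h3, map_sum]
      refine Finset.sum_eq_zero fun k _ => ?_
      rw [presSurj_L_apply, S.prm_mul p t₁ φ hφ h1 h0 (b k) (hb k) _ (hsing _ (hupow _))]
      rcases Nat.eq_zero_or_pos (k : ℕ) with hk | hk
      · have hk' : k = ⟨0, hp⟩ := Fin.ext hk
        funext q
        rw [hk', hb0, zero_mul, Pi.zero_apply]
      · have hk2 : (k : ℕ) < p := k.2
        rw [hu, S.prm_pow₁ p t₁ φ hφ h1 h0 ((k : ℕ) - 1) (by omega), if_neg (by omega)]
        funext q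
        exact mul_zero (b k)
    rw [h2, h4, sub_zero, hprm]

end rs

end WSys

end Pool.Agent.TLA
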