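import Pool.Agent.TLA.Ball

/-! Scaling of the weights. -/

set_option autoImplicit false

namespace Pool.Agent.TLA

variable (p : ℕ) {Γ : Type} [Group Γ]

namespace WSys

variable (S : WSys Γ)

/-- Divide all weights by `lam ≥ 1`. -/
noncomputable def scale (lam : ℝ) (hl : 1 ≤ lam) : WSys Γ where
  T := S.T
  fin := S.fin
  dec := S.dec
  v := S.v
  w := fun t => S.w t / lam
  w_pos := fun t => div_pos (S.w_pos t) (by linarith)
  w_lt := fun t => (div_le_self (S.w_pos t).le hl).trans_lt (S.w_lt t)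

theorem scale_H (lam : ℝ) (hl : 1 ≤ lam) : (S.scale lam hl).H = S.H := rfl

private theorem scale_wt_le (lam : ℝ) (hl : 1 ≤ lam) (l : List (S.T × Bool)) :
    (S.scale lam hl).wt l ≤ S.wt l := by
  induction l with
  | nil => exact le_refl (1 : ℝ)
  | cons q l ih =>
    have h1 : (S.scale lam hl).wt (q :: l) = S.w q.1 / lam * (S.scale lam hl).wt l := rfl
    have h2 : S.wt (q :: l) = S.w q.1 * S.wt l := by
      unfold wt
      rw [List.map_cons, List.prod_cons]
    have h3 : S.w q.1 / lam * (S.scale lam hl).wt l ≤ S.w q.1 * S.wt l :=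
      mul_le_mul (div_le_self (S.w_pos q.1).le hl) ih ((S.scale lam hl).wt_pos l).le
        (S.w_pos q.1).le
    exact (h1.le.trans h3).trans h2.ge

theorem scale_M_le (lam : ℝ) (hl : 1 ≤ lam) (c : ℝ) : S.M p c ≤ (S.scale lam hl).M p c := by
  refine Submodule.span_le.mpr ?_
  rintro a ⟨l, hlc, rfl⟩
  refine Submodule.subset_span ⟨l, (S.scale_wt_le lam hl l).trans hlc, rfl⟩

/-- Elements of augmentation zero gain a factor `lam`. -/
theorem scale_mem {lam : ℝ} (hl : 1 ≤ lam) {c : ℝ} (hc : 0 < c) {a : Alg p Γ}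
    (ha : a ∈ S.M p c) (h0 : aug p a = 0) : a ∈ (S.scale lam hl).M p (c / lam) := by
  obtain ⟨b, hb, hd⟩ := S.exists_d_eq p hc ha h0
  have hlam : 0 < lam := by linarith
  have key : (S.scale lam hl).d p b ∈ (S.scale lam hl).M p (c / lam) := by
    refine (S.scale lam hl).d_mem_M p ?_
    intro t
    have h1 : c / lam / (S.scale lam hl).w t = c / S.w t := by
      have h2 : (S.scale lam hl).w t = S.w t / lam := rfl
      rw [h2]
      exact div_div_div_cancel_right₀ hlam.ne' c (S.w t)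
    rw [h1]
    exact S.scale_M_le p lam hl _ (hb t)
  have h3 : (S.scale lam hl).d p b = S.d p b := rfl
  rw [h3, hd] at key
  exact key

private theorem scale_aug (g : Γ) : aug p (gr p g - 1) = 0 := by
  rw [map_sub, aug_gr, aug_one, sub_self]

theorem scale_n_le {lam : ℝ} (hl : 1 ≤ lam) {g : Γ} (hg : g ∈ S.H) :
    (S.scale lam hl).n p g ≤ S.n p g / lam := by
  have hlam : 0 < lam := by linarith
  rw [le_div_iff₀ hlam]
  unfold n N
  refine le_csInf ?_ ?_
  · refine ⟨1, one_pos, ?_⟩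
    rw [S.M_eq_sa p le_rfl]
    exact (sa p S.H).sub_mem (gr_mem_sa p hg) (one_mem_sa p S.H)
  · rintro c ⟨hc, hmem⟩
    have h1 := S.scale_mem p hl hc hmem (scale_aug p g)
    have h2 : sInf {c : ℝ | 0 < c ∧ gr p g - 1 ∈ (S.scale lam hl).M p c} ≤ c / lam := by
      refine csInf_le ⟨0, ?_⟩ ⟨div_pos hc hlam, h1⟩
      rintro x ⟨hx, -⟩
      exact hx.le
    calc sInf {c : ℝ | 0 < c ∧ gr p g - 1 ∈ (S.scale lam hl).M p c} * lam ≤ c / lam * lam :=
          mul_le_mul_of_nonneg_right h2 hlam.le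
      _ = c := div_mul_cancel₀ c hlam.ne'

theorem scale_hasDef {lam : ℝ} (hl : 1 ≤ lam) {D : ℝ} (hD : S.HasDef p D) :
    (S.scale lam hl).HasDef p ((D + 1) / lam - 1) := by
  have hlam : 0 < lam := by linarith
  obtain ⟨R, hR, ρ, ν, hgen, hpos, hsum, hmem, hDeq⟩ := hD
  refine ⟨R, hR, ρ, fun r => ν r / lam, hgen, fun r => div_pos (hpos r) hlam,
    hsum.div_const lam, ?_, ?_⟩
  · intro r t
    have h1 : ν r / lam / (S.scale lam hl).w t = ν r / S.w t := by
      have h2 : (S.scale lam hl).w t = S.w t / lam := rfl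
      rw [h2]
      exact div_div_div_cancel_right₀ hlam.ne' (ν r) (S.w t)
    rw [h1]
    exact S.scale_M_le p lam hl _ (hmem r t)
  · have h1 : (∑ t, (S.scale lam hl).w t) = (∑ t, S.w t) / lam := by
      rw [Finset.sum_div]
      rfl
    rw [h1, tsum_div_const, hDeq]
    ring

theorem scale_inv {lam : ℝ} (hl : 1 ≤ lam) (hS : S.Inv p) : (S.scale lam hl).Inv p := by
  intro γ t
  exact S.scale_mem p hl (S.w_pos t) (hS γ t) (scale_aug p _)

end WSys

end Pool.Agent.TLA
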