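import Pool.Agent.TLA.SelDefs

/-! The measure preserving action on pairs (block D1). -/

set_option autoImplicit false

open MeasureTheory Filter

namespace Pool.Agent.TLA

variable {G : Type} [Group G] [Encodable G] [MeasurableSpace G] [DiscreteMeasurableSpace G]
  {Ω D : Type} [MeasurableSpace Ω] [MulAction G Ω] [MeasurableConstSMul G Ω] (ξ : Ω → D)
  (P : Measure Ω) [IsProbabilityMeasure P] [SMulInvariantMeasure G Ω P]
  (hξ : ∀ g h : G, MeasurableSet {ω | ξ (g • ω) = ξ (h • ω)})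

omit [MeasurableSpace G] [DiscreteMeasurableSpace G] [MeasurableSpace Ω]
  [MeasurableConstSMul G Ω] in
private theorem selA_encode_le (ω : Ω) (g h : G) (he : ξ (h • ω) = ξ (g • ω)) :
    Encodable.encode (rep ξ ω g) ≤ Encodable.encode h := by
  classical
  have h1 : Encodable.encode (rep ξ ω g) = Nat.find (rep_exists ξ ω g) :=
    (Nat.find_spec (rep_exists ξ ω g)).choose_spec.1
  rw [h1]
  exact Nat.find_min' _ ⟨h, rfl, he⟩

omit [MeasurableSpace G] [DiscreteMeasurableSpace G] [MeasurableSpace Ω]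
  [MeasurableConstSMul G Ω] in
private theorem selA_rep_iff (ω : Ω) (g h : G) :
    rep ξ ω g = h ↔ ξ (h • ω) = ξ (g • ω) ∧
      ∀ h' : G, Encodable.encode h' < Encodable.encode h → ¬ ξ (h' • ω) = ξ (g • ω) := by
  constructor
  · rintro rfl
    refine ⟨rep_spec ξ ω g, fun h' hlt he => ?_⟩
    exact absurd (selA_encode_le ξ ω g h' he) (not_le.2 hlt)
  · rintro ⟨h1, h2⟩
    have h3 := selA_encode_le ξ ω g h h1
    rcases h3.lt_or_eq with h4 | h4
    · exact absurd (rep_spec ξ ω g) (h2 _ h4)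
    · exact Encodable.encode_injective h4

omit [MeasurableSpace G] [DiscreteMeasurableSpace G] [MeasurableSpace Ω]
  [MeasurableConstSMul G Ω] in
private theorem selA_idem (ω : Ω) (g : G) : rep ξ ω (rep ξ ω g) = rep ξ ω g :=
  (rep_eq_iff ξ ω _ _).2 (rep_spec ξ ω g)

omit [MeasurableSpace G] [DiscreteMeasurableSpace G] [MeasurableSpace Ω]
  [MeasurableConstSMul G Ω] in
private theorem selA_swap (ω : Ω) (k g h : G) :
    (rep ξ ω g = g ∧ rep ξ (k • ω) (g * k⁻¹) = h) ↔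
      (rep ξ (k • ω) h = h ∧ rep ξ ω (h * k) = g) := by
  constructor
  · rintro ⟨h1, rfl⟩
    refine ⟨selA_idem ξ _ _, ?_⟩
    rw [← h1]
    refine (rep_eq_iff ξ _ _ _).2 ?_
    rw [mul_smul, rep_spec ξ (k • ω), smul_smul, inv_mul_cancel_right, h1]
  · rintro ⟨h1, rfl⟩
    refine ⟨selA_idem ξ _ _, ?_⟩
    conv_rhs => rw [← h1]
    refine (rep_eq_iff ξ _ _ _).2 ?_
    rw [smul_smul, inv_mul_cancel_right, rep_spec ξ ω, mul_smul]

include hξ

theorem measurable_rep (g : G) : Measurable (fun ω => rep ξ ω g) := by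
  refine measurable_to_countable' fun h => ?_
  have h1 : (fun ω => rep ξ ω g) ⁻¹' {h} = {ω | ξ (h • ω) = ξ (g • ω)} ∩
      ⋂ h' : G, ⋂ (_ : Encodable.encode h' < Encodable.encode h),
        {ω | ξ (h' • ω) = ξ (g • ω)}ᶜ := by
    ext ω
    simp only [Set.mem_preimage, Set.mem_singleton_iff, Set.mem_inter_iff, Set.mem_setOf_eq,
      Set.mem_iInter, Set.mem_compl_iff]
    exact selA_rep_iff ξ ω g h
  rw [h1]
  exact (hξ h g).inter (MeasurableSet.iInter fun h' => MeasurableSet.iInter fun _ =>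
    (hξ h' g).compl)

theorem measurableSet_ZZ : MeasurableSet (ZZ ξ : Set (Ω × G)) := by
  have h1 : (ZZ ξ : Set (Ω × G)) = ⋃ g : G, ((fun ω => rep ξ ω g) ⁻¹' {g}) ×ˢ {g} := by
    ext ⟨ω, g⟩
    simp only [ZZ, Set.mem_setOf_eq, Set.mem_iUnion, Set.mem_prod, Set.mem_preimage,
      Set.mem_singleton_iff]
    constructor
    · intro h
      exact ⟨g, h, rfl⟩
    · rintro ⟨g', h2, rfl⟩
      exact h2
  rw [h1]
  exact MeasurableSet.iUnion fun g =>
    (measurable_rep ξ hξ g (MeasurableSet.of_discrete)).prod (MeasurableSet.of_discrete)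

theorem measurable_tr (k : G) : Measurable (tr ξ k) := by
  refine measurable_from_prod_countable_left fun g => ?_
  exact (measurable_const_smul k).prodMk
    ((measurable_rep ξ hξ (g * k⁻¹)).comp (measurable_const_smul k))

private theorem selA_muZ {S : Set (Ω × G)} (hS : MeasurableSet S) :
    muZ ξ P S = ∑' g : G, P {ω | rep ξ ω g = g ∧ (ω, g) ∈ S} := by
  rw [muZ, Measure.restrict_apply hS,
    Measure.prod_apply_symm (hS.inter (measurableSet_ZZ ξ hξ)), lintegral_count]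
  refine tsum_congr fun g => ?_
  congr 1
  ext ω
  simp only [ZZ, Set.mem_preimage, Set.mem_inter_iff, Set.mem_setOf_eq]
  exact and_comm

omit hξ in
private theorem selA_split {E : Set Ω} (hE : MeasurableSet E) {f : Ω → G} (hf : Measurable f) :
    P E = ∑' h : G, P {ω | ω ∈ E ∧ f ω = h} := by
  have h1 : E = ⋃ h : G, {ω | ω ∈ E ∧ f ω = h} := by
    ext ω
    simp
  conv_lhs => rw [h1]
  refine measure_iUnion ?_ fun h => hE.inter (hf (MeasurableSet.of_discrete (s := {h})))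
  intro g h hgh
  refine Set.disjoint_left.2 ?_
  rintro ω ⟨-, h2⟩ ⟨-, h3⟩
  exact hgh (h2.symm.trans h3)

theorem measurePreserving_tr (k : G) : MeasurePreserving (tr ξ k) (muZ ξ P) (muZ ξ P) := by
  refine ⟨measurable_tr ξ hξ k, ?_⟩
  ext A hA
  have hmA : ∀ h : G, MeasurableSet {ω : Ω | (ω, h) ∈ A} := fun h =>
    hA.preimage measurable_prodMk_right
  rw [Measure.map_apply (measurable_tr ξ hξ k) hA,
    selA_muZ ξ P hξ (measurable_tr ξ hξ k hA), selA_muZ ξ P hξ hA]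
  have h1 : ∀ g : G, P {ω | rep ξ ω g = g ∧ (ω, g) ∈ tr ξ k ⁻¹' A} =
      ∑' h : G, P {ω | (rep ξ ω g = g ∧ (ω, g) ∈ tr ξ k ⁻¹' A) ∧
        rep ξ (k • ω) (g * k⁻¹) = h} := by
    intro g
    refine selA_split P (E := {ω | rep ξ ω g = g ∧ (ω, g) ∈ tr ξ k ⁻¹' A}) ?_
      ((measurable_rep ξ hξ (g * k⁻¹)).comp (measurable_const_smul k))
    exact (measurable_rep ξ hξ g (MeasurableSet.of_discrete (s := {g}))).inter
      ((measurable_tr ξ hξ k hA).preimage measurable_prodMk_right)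
  have h2 : ∀ h : G, P {ω | rep ξ ω h = h ∧ (ω, h) ∈ A} =
      ∑' g : G, P {ω | (rep ξ (k • ω) h = h ∧ (k • ω, h) ∈ A) ∧ rep ξ ω (h * k) = g} := by
    intro h
    have h3 : MeasurableSet {ω | rep ξ ω h = h ∧ (ω, h) ∈ A} :=
      (measurable_rep ξ hξ h (MeasurableSet.of_discrete (s := {h}))).inter (hmA h)
    rw [← measure_preimage_smul P k {ω | rep ξ ω h = h ∧ (ω, h) ∈ A}]
    exact selA_split P (E := {ω | rep ξ (k • ω) h = h ∧ (k • ω, h) ∈ A})
      (h3.preimage (measurable_const_smul k)) (measurable_rep ξ hξ (h * k))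
  rw [tsum_congr h1, tsum_congr h2, ENNReal.tsum_comm]
  refine tsum_congr fun h => tsum_congr fun g => ?_
  congr 1
  ext ω
  simp only [Set.mem_setOf_eq, Set.mem_preimage, tr]
  constructor
  · rintro ⟨⟨h3, h4⟩, h5⟩
    obtain ⟨h6, h7⟩ := (selA_swap ξ ω k g h).1 ⟨h3, h5⟩
    rw [h5] at h4
    exact ⟨⟨h6, h4⟩, h7⟩
  · rintro ⟨⟨h3, h4⟩, h5⟩
    obtain ⟨h6, h7⟩ := (selA_swap ξ ω k g h).2 ⟨h3, h5⟩
    refine ⟨⟨h6, ?_⟩, h7⟩
    rw [h7]
    exact h4

end Pool.Agent.TLA
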