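import Pool.Agent.TLA.SelA

/-! The invariant function given by the spectral gap (block D1). -/

set_option autoImplicit false

open MeasureTheory Filter

namespace Pool.Agent.TLA

variable {G : Type} [Group G] [Encodable G] [MeasurableSpace G] [DiscreteMeasurableSpace G]
  {Ω D : Type} [MeasurableSpace Ω] [MulAction G Ω] [MeasurableConstSMul G Ω] (ξ : Ω → D)
  (P : Measure Ω) [IsProbabilityMeasure P] [SMulInvariantMeasure G Ω P]
  (hξ : ∀ g h : G, MeasurableSet {ω | ξ (g • ω) = ξ (h • ω)})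

private theorem SelB_norm_sq {α : Type} [MeasurableSpace α] (μ : Measure α) (f : Lp ℝ 2 μ) :
    ENNReal.ofReal (‖f‖ ^ 2) = ∫⁻ q, ENNReal.ofReal ((f q) ^ 2) ∂μ := by
  have h1 : ‖f‖ ^ 2 = ∫ q, (f q) ^ 2 ∂μ := by
    rw [← real_inner_self_eq_norm_sq, L2.inner_def]
    refine integral_congr_ae (Eventually.of_forall fun q => ?_)
    simp only [real_inner_self_eq_norm_sq, Real.norm_eq_abs, sq_abs]
  have h2 : Integrable (fun q => (f q) ^ 2) μ := by
    refine (L2.integrable_inner (𝕜 := ℝ) f f).congr (Eventually.of_forall fun q => ?_)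
    simp only [real_inner_self_eq_norm_sq, Real.norm_eq_abs, sq_abs]
  rw [h1, ofReal_integral_eq_lintegral_ofReal h2 (Eventually.of_forall fun q => sq_nonneg _)]

include hξ

private theorem SelB_rep_eq (g h : G) : MeasurableSet {ω | rep ξ ω g = rep ξ ω h} := by
  have h1 : {ω | rep ξ ω g = rep ξ ω h} = {ω | ξ (g • ω) = ξ (h • ω)} := by
    ext ω
    exact rep_eq_iff ξ ω g h
  rw [h1]
  exact hξ g h

/-- The sets of pairs `(ω, g)` with `ξ (g • ω) = ξ (h • ω)`. -/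
private theorem SelB_meas (h : G) :
    MeasurableSet {q : Ω × G | rep ξ q.1 q.2 = rep ξ q.1 h} := by
  have h1 : {q : Ω × G | rep ξ q.1 q.2 = rep ξ q.1 h} =
      ⋃ g : G, {ω | rep ξ ω g = rep ξ ω h} ×ˢ {g} := by
    ext ⟨ω, g⟩
    simp
  rw [h1]
  exact MeasurableSet.iUnion fun g => (SelB_rep_eq ξ hξ g h).prod (MeasurableSet.of_discrete)

private theorem SelB_val {E : Set (Ω × G)} (hE : MeasurableSet E) (h : G) (A : Set Ω)
    (hEA : ∀ ω g, rep ξ ω g = g → ((ω, g) ∈ E ↔ g = rep ξ ω h ∧ ω ∈ A)) (hA : MeasurableSet A) :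
    muZ ξ P E = P A := by
  rw [muZ, Measure.restrict_apply hE, Measure.prod_apply (hE.inter (measurableSet_ZZ ξ hξ))]
  have h1 : ∀ ω, (Measure.count : Measure G) (Prod.mk ω ⁻¹' (E ∩ ZZ ξ)) =
      A.indicator (fun _ => 1) ω := by
    intro ω
    have h2 : rep ξ ω (rep ξ ω h) = rep ξ ω h := (rep_eq_iff ξ ω _ _).2 (rep_spec ξ ω h)
    by_cases hω : ω ∈ A
    · have h3 : Prod.mk ω ⁻¹' (E ∩ ZZ ξ) = {rep ξ ω h} := by
        ext g
        simp only [Set.mem_preimage, Set.mem_inter_iff, Set.mem_singleton_iff, ZZ,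
          Set.mem_setOf_eq]
        constructor
        · rintro ⟨h4, h5⟩
          exact ((hEA ω g h5).1 h4).1
        · rintro rfl
          exact ⟨(hEA ω _ h2).2 ⟨rfl, hω⟩, h2⟩
      rw [h3, Measure.count_singleton, Set.indicator_of_mem hω]
    · have h3 : Prod.mk ω ⁻¹' (E ∩ ZZ ξ) = ∅ := by
        ext g
        simp only [Set.mem_preimage, Set.mem_inter_iff, ZZ, Set.mem_setOf_eq,
          Set.mem_empty_iff_false, iff_false]
        rintro ⟨h4, h5⟩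
        exact hω ((hEA ω g h5).1 h4).2
      rw [h3, measure_empty, Set.indicator_of_notMem hω]
  rw [lintegral_congr h1, lintegral_indicator_const hA, one_mul]

private theorem SelB_total : muZ ξ P {q : Ω × G | rep ξ q.1 q.2 = rep ξ q.1 1} = 1 := by
  rw [SelB_val ξ P hξ (SelB_meas ξ hξ 1) 1 Set.univ ?_ MeasurableSet.univ, measure_univ]
  intro ω g hg
  simp only [Set.mem_setOf_eq, Set.mem_univ, and_true]
  rw [hg]

private theorem SelB_diff (h : G) :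
    muZ ξ P ({q : Ω × G | rep ξ q.1 q.2 = rep ξ q.1 1} \
      {q : Ω × G | rep ξ q.1 q.2 = rep ξ q.1 h}) = P {ω | ξ (h • ω) ≠ ξ ω} := by
  have hm : MeasurableSet {ω | ξ (h • ω) ≠ ξ ω} := by
    have h1 := (hξ h 1).compl
    simp only [one_smul] at h1
    exact h1
  refine SelB_val ξ P hξ ((SelB_meas ξ hξ 1).diff (SelB_meas ξ hξ h)) 1 _ ?_ hm
  intro ω g hg
  simp only [Set.mem_diff, Set.mem_setOf_eq]
  rw [hg]
  refine and_congr_right fun h1 => not_congr ?_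
  rw [h1, rep_eq_iff, one_smul]
  exact eq_comm

private theorem SelB_diff' (h : G) :
    muZ ξ P ({q : Ω × G | rep ξ q.1 q.2 = rep ξ q.1 h} \
      {q : Ω × G | rep ξ q.1 q.2 = rep ξ q.1 1}) = P {ω | ξ (h • ω) ≠ ξ ω} := by
  have hm : MeasurableSet {ω | ξ (h • ω) ≠ ξ ω} := by
    have h1 := (hξ h 1).compl
    simp only [one_smul] at h1
    exact h1
  refine SelB_val ξ P hξ ((SelB_meas ξ hξ h).diff (SelB_meas ξ hξ 1)) h _ ?_ hm
  intro ω g hg
  simp only [Set.mem_diff, Set.mem_setOf_eq]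
  rw [hg]
  refine and_congr_right fun h1 => not_congr ?_
  rw [h1, rep_eq_iff, one_smul]

private theorem SelB_lint (h : G) :
    ∫⁻ q, ENNReal.ofReal ((ind1 ξ q -
      Set.indicator {q : Ω × G | rep ξ q.1 q.2 = rep ξ q.1 h} (fun _ => 1) q) ^ 2) ∂(muZ ξ P) =
      2 * P {ω | ξ (h • ω) ≠ ξ ω} := by
  have e : ∀ q : Ω × G, ENNReal.ofReal ((ind1 ξ q -
      Set.indicator {q : Ω × G | rep ξ q.1 q.2 = rep ξ q.1 h} (fun _ => 1) q) ^ 2) =
      ({q : Ω × G | rep ξ q.1 q.2 = rep ξ q.1 1} \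
        {q : Ω × G | rep ξ q.1 q.2 = rep ξ q.1 h}).indicator (fun _ => 1) q +
      ({q : Ω × G | rep ξ q.1 q.2 = rep ξ q.1 h} \
        {q : Ω × G | rep ξ q.1 q.2 = rep ξ q.1 1}).indicator (fun _ => 1) q := by
    intro q
    unfold ind1
    have key : ∀ A B : Set (Ω × G), ENNReal.ofReal ((A.indicator (fun _ => (1 : ℝ)) q -
        B.indicator (fun _ => (1 : ℝ)) q) ^ 2) =
        (A \ B).indicator (fun _ => (1 : ENNReal)) q +
        (B \ A).indicator (fun _ => (1 : ENNReal)) q := by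
      intro A B
      by_cases h1 : q ∈ A <;> by_cases h2 : q ∈ B <;> simp [h1, h2]
    exact key _ _
  have hm1 := (SelB_meas ξ hξ 1).diff (SelB_meas ξ hξ h)
  have hm2 := (SelB_meas ξ hξ h).diff (SelB_meas ξ hξ 1)
  rw [lintegral_congr e, lintegral_add_left (measurable_const.indicator hm1),
    lintegral_indicator_const hm1, lintegral_indicator_const hm2, SelB_diff ξ P hξ h,
    SelB_diff' ξ P hξ h, one_mul, two_mul]

private theorem SelB_ind_sq (h : G) (f : Lp ℝ 2 (muZ ξ P))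
    (hf : ∀ᵐ q ∂(muZ ξ P), f q = ind1 ξ q -
      Set.indicator {q : Ω × G | rep ξ q.1 q.2 = rep ξ q.1 h} (fun _ => 1) q) :
    ‖f‖ ^ 2 = 2 * P.real {ω | ξ (h • ω) ≠ ξ ω} := by
  have h1 := SelB_norm_sq (muZ ξ P) f
  have h2 : ∫⁻ q, ENNReal.ofReal ((f q) ^ 2) ∂(muZ ξ P) =
      2 * P {ω | ξ (h • ω) ≠ ξ ω} := by
    rw [← SelB_lint ξ P hξ h]
    refine lintegral_congr_ae ?_
    filter_upwards [hf] with q hq
    rw [hq]
  rw [h2] at h1
  have h3 := congrArg ENNReal.toReal h1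
  rw [ENNReal.toReal_ofReal (sq_nonneg _), ENNReal.toReal_mul] at h3
  rw [h3]
  rfl

/-- The composition with `tr k⁻¹`. -/
private noncomputable def SelB_A (k : G) : Lp ℝ 2 (muZ (G := G) ξ P) →ₗᵢ[ℝ] Lp ℝ 2 (muZ (G := G) ξ P) :=
  Lp.compMeasurePreservingₗᵢ ℝ (tr ξ k⁻¹) (measurePreserving_tr ξ P hξ k⁻¹)

private theorem SelB_A_coe (k : G) (v : Lp ℝ 2 (muZ (G := G) ξ P)) :
    ∀ᵐ q ∂(muZ ξ P), SelB_A ξ P hξ k v q = v (tr ξ k⁻¹ q) :=
  Lp.coeFn_compMeasurePreserving v (measurePreserving_tr ξ P hξ k⁻¹)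

private theorem SelB_ae_ZZ : ∀ᵐ q ∂(muZ ξ P), q ∈ (ZZ ξ : Set (Ω × G)) :=
  ae_restrict_mem (measurableSet_ZZ ξ hξ)

private theorem SelB_A_one (v : Lp ℝ 2 (muZ (G := G) ξ P)) : SelB_A ξ P hξ 1 v = v := by
  refine Lp.ext ?_
  filter_upwards [SelB_A_coe ξ P hξ 1 v, SelB_ae_ZZ ξ P hξ] with q h1 h2
  rw [h1, inv_one, tr_one ξ h2]

private theorem SelB_A_mul (k l : G) (v : Lp ℝ 2 (muZ (G := G) ξ P)) :
    SelB_A ξ P hξ (k * l) v = SelB_A ξ P hξ k (SelB_A ξ P hξ l v) := by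
  refine Lp.ext ?_
  filter_upwards [SelB_A_coe ξ P hξ (k * l) v, SelB_A_coe ξ P hξ k (SelB_A ξ P hξ l v),
    (measurePreserving_tr ξ P hξ k⁻¹).quasiMeasurePreserving.ae (SelB_A_coe ξ P hξ l v)]
    with q h1 h2 h3
  rw [h1, h2, h3, mul_inv_rev, tr_mul]

private theorem SelB_A_inv (k : G) (v : Lp ℝ 2 (muZ (G := G) ξ P)) :
    SelB_A ξ P hξ k (SelB_A ξ P hξ k⁻¹ v) = v := by
  rw [← SelB_A_mul, mul_inv_cancel, SelB_A_one]

private theorem SelB_A_inv' (k : G) (v : Lp ℝ 2 (muZ (G := G) ξ P)) :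
    SelB_A ξ P hξ k⁻¹ (SelB_A ξ P hξ k v) = v := by
  rw [← SelB_A_mul, inv_mul_cancel, SelB_A_one]

private theorem SelB_surj (k : G) : Function.Surjective (SelB_A ξ P hξ k) :=
  fun v => ⟨SelB_A ξ P hξ k⁻¹ v, SelB_A_inv ξ P hξ k v⟩

/-- The Koopman representation. -/
private noncomputable def SelB_pi : G →* (Lp ℝ 2 (muZ (G := G) ξ P) ≃ₗᵢ[ℝ] Lp ℝ 2 (muZ (G := G) ξ P)) where
  toFun k := LinearIsometryEquiv.ofSurjective (SelB_A ξ P hξ k) (SelB_surj ξ P hξ k)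
  map_one' := by
    ext1 v
    exact (congrFun (LinearIsometryEquiv.coe_ofSurjective (SelB_A ξ P hξ 1) _) v).trans
      (SelB_A_one ξ P hξ v)
  map_mul' k l := by
    ext1 v
    refine (congrFun (LinearIsometryEquiv.coe_ofSurjective (SelB_A ξ P hξ (k * l)) _) v).trans ?_
    refine (SelB_A_mul ξ P hξ k l v).trans ?_
    change _ = LinearIsometryEquiv.ofSurjective (SelB_A ξ P hξ k) (SelB_surj ξ P hξ k)
      (LinearIsometryEquiv.ofSurjective (SelB_A ξ P hξ l) (SelB_surj ξ P hξ l) v)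
    exact (congrArg _ (congrFun (LinearIsometryEquiv.coe_ofSurjective (SelB_A ξ P hξ l) _)
      v).symm).trans
      (congrFun (LinearIsometryEquiv.coe_ofSurjective (SelB_A ξ P hξ k) _) _).symm

private theorem SelB_pi_apply (k : G) (v : Lp ℝ 2 (muZ (G := G) ξ P)) :
    SelB_pi ξ P hξ k v = SelB_A ξ P hξ k v :=
  congrFun (LinearIsometryEquiv.coe_ofSurjective (SelB_A ξ P hξ k) (SelB_surj ξ P hξ k)) v

/-- An invariant function close to the indicator of the pairs representing `ξ ω`. -/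
theorem exists_inv_fun {n : ℕ} (x : Fin n → G) {C : ℝ} (hT : HasGap x C) :
    ∃ c : Ω × G → ℝ, Measurable c ∧ (∀ k : G, ∀ᵐ q ∂(muZ ξ P), c (tr ξ k q) = c q) ∧
      ∫⁻ q, ENNReal.ofReal ((ind1 ξ q - c q) ^ 2) ∂(muZ ξ P) ≤
      ENNReal.ofReal (2 * C * ∑ i, P.real {ω | ξ (x i • ω) ≠ ξ ω}) := by
  have htot := SelB_total ξ P hξ
  have hne : muZ ξ P {q : Ω × G | rep ξ q.1 q.2 = rep ξ q.1 1} ≠ ⊤ := by
    rw [htot]
    exact ENNReal.one_ne_top
  let v : Lp ℝ 2 (muZ (G := G) ξ P) := indicatorConstLp 2 (SelB_meas ξ hξ 1) hne (1 : ℝ)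
  have hv : ∀ᵐ q ∂(muZ ξ P), v q = ind1 ξ q := indicatorConstLp_coeFn
  obtain ⟨v₀, hinv, hle⟩ := hT (Lp ℝ 2 (muZ (G := G) ξ P)) (SelB_pi ξ P hξ) v
  have hcm : Measurable (fun q : Ω × G => v₀ q) := (Lp.stronglyMeasurable v₀).measurable
  refine ⟨fun q => v₀ q, hcm, ?_, ?_⟩
  · intro k
    have h1 := SelB_A_coe ξ P hξ k⁻¹ v₀
    have h2 : SelB_A ξ P hξ k⁻¹ v₀ = v₀ := (SelB_pi_apply ξ P hξ k⁻¹ v₀).symm.trans (hinv k⁻¹)
    rw [h2] at h1
    filter_upwards [h1] with q hq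
    rw [inv_inv] at hq
    exact hq.symm
  · have h1 := SelB_norm_sq (muZ (G := G) ξ P) (v - v₀)
    have h2 : ∫⁻ q, ENNReal.ofReal (((v - v₀ : Lp ℝ 2 (muZ (G := G) ξ P)) q) ^ 2)
        ∂(muZ (G := G) ξ P) =
        ∫⁻ q, ENNReal.ofReal ((ind1 ξ q - v₀ q) ^ 2) ∂(muZ (G := G) ξ P) := by
      refine lintegral_congr_ae ?_
      filter_upwards [hv, Lp.coeFn_sub v v₀] with q h3 h4
      rw [h4, Pi.sub_apply, h3]
    rw [← h2, ← h1]
    refine ENNReal.ofReal_le_ofReal ?_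
    refine hle.trans (le_of_eq ?_)
    have h5 : ∀ i, ‖v - SelB_pi ξ P hξ (x i) v‖ ^ 2 =
        2 * P.real {ω | ξ (x i • ω) ≠ ξ ω} := by
      intro i
      have h6 : P.real {ω | ξ (x i • ω) ≠ ξ ω} = P.real {ω | ξ ((x i)⁻¹ • ω) ≠ ξ ω} := by
        have h7 : (fun ω : Ω => x i • ω) ⁻¹' {ω | ξ ((x i)⁻¹ • ω) ≠ ξ ω} =
            {ω | ξ (x i • ω) ≠ ξ ω} := by
          ext ω
          simp only [Set.mem_preimage, Set.mem_setOf_eq, inv_smul_smul]
          exact not_congr eq_comm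
        rw [← h7]
        unfold Measure.real
        rw [measure_preimage_smul]
      rw [h6]
      refine SelB_ind_sq ξ P hξ (x i)⁻¹ _ ?_
      filter_upwards [hv, Lp.coeFn_sub v (SelB_pi ξ P hξ (x i) v), SelB_A_coe ξ P hξ (x i) v,
        (measurePreserving_tr ξ P hξ (x i)⁻¹).quasiMeasurePreserving.ae hv] with q h8 h9 h10 h11
      rw [h9, Pi.sub_apply, h8, SelB_pi_apply, h10, h11]
      congr 1
      unfold ind1
      by_cases h12 : ξ (q.2 • q.1) = ξ ((x i)⁻¹ • q.1)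
      · rw [Set.indicator_of_mem, Set.indicator_of_mem]
        · exact (rep_eq_iff ξ _ _ _).2 h12
        · refine (rep_eq_iff ξ _ _ _).2 ?_
          change ξ (rep ξ ((x i)⁻¹ • q.1) (q.2 * (x i)⁻¹⁻¹) • (x i)⁻¹ • q.1) =
            ξ ((1 : G) • (x i)⁻¹ • q.1)
          rw [rep_spec ξ, smul_smul, inv_inv, mul_inv_cancel_right, one_smul]
          exact h12
      · rw [Set.indicator_of_notMem, Set.indicator_of_notMem]
        · exact fun h13 => h12 ((rep_eq_iff ξ _ _ _).1 h13)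
        · intro h13
          have h14 := (rep_eq_iff ξ _ _ _).1 h13
          change ξ (rep ξ ((x i)⁻¹ • q.1) (q.2 * (x i)⁻¹⁻¹) • (x i)⁻¹ • q.1) =
            ξ ((1 : G) • (x i)⁻¹ • q.1) at h14
          rw [rep_spec ξ, smul_smul, inv_inv, mul_inv_cancel_right, one_smul] at h14
          exact h12 h14
    simp only [h5]
    rw [← Finset.mul_sum]
    ring

end Pool.Agent.TLA
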