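import Pool.Agent.TLA.GroupDefs

/-! Selection of invariant values by the spectral gap (block D1): definitions. -/

set_option autoImplicit false

open MeasureTheory Filter

namespace Pool.Agent.TLA

/-- `R` is an invariant partial selection of the values `ξ (g • ω)`, which is almost everywhere
defined and equal to `ξ` with probability at least `3/4`. -/
structure Sel (G : Type) [Group G] {Ω D : Type} [MeasurableSpace Ω] [MulAction G Ω]
    (P : Measure Ω) (ξ : Ω → D) (R : Ω → Option D) : Prop where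
  inv : ∀ (g : G) ω, R (g • ω) = R ω
  ex : ∀ ω d, R ω = some d → ∃ g : G, d = ξ (g • ω)
  meas : ∀ g : G, MeasurableSet {ω | R ω = some (ξ (g • ω))}
  ae : ∀ᵐ ω ∂P, R ω ≠ none
  big : 3 / 4 ≤ P.real {ω | R ω = some (ξ ω)}

variable {G : Type} [Group G] [Encodable G] {Ω D : Type} [MulAction G Ω] (ξ : Ω → D)

theorem rep_exists (ω : Ω) (g : G) :
    ∃ n : ℕ, ∃ h : G, Encodable.encode h = n ∧ ξ (h • ω) = ξ (g • ω) := ⟨_, g, rfl, rfl⟩

open Classical in
/-- The first `h` (in the enumeration of `G`) with `ξ (h • ω) = ξ (g • ω)`. -/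
noncomputable def rep (ω : Ω) (g : G) : G := (Nat.find_spec (rep_exists ξ ω g)).choose

theorem rep_spec (ω : Ω) (g : G) : ξ (rep ξ ω g • ω) = ξ (g • ω) := by
  classical
  exact (Nat.find_spec (rep_exists ξ ω g)).choose_spec.2

private theorem selDefs_encode (ω : Ω) (g : G) :
    Encodable.encode (rep ξ ω g) = sInf {n : ℕ | ∃ h : G, Encodable.encode h = n ∧
      ξ (h • ω) = ξ (g • ω)} := by
  classical
  have h1 : Encodable.encode (rep ξ ω g) = Nat.find (rep_exists ξ ω g) :=
    (Nat.find_spec (rep_exists ξ ω g)).choose_spec.1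
  rw [h1]
  exact (Nat.sInf_def (rep_exists ξ ω g)).symm

theorem rep_eq_iff (ω : Ω) (g h : G) : rep ξ ω g = rep ξ ω h ↔ ξ (g • ω) = ξ (h • ω) := by
  constructor
  · intro he
    rw [← rep_spec ξ ω g, he, rep_spec ξ ω h]
  · intro he
    have h1 := selDefs_encode ξ ω g
    have h2 := selDefs_encode ξ ω h
    rw [he] at h1
    exact Encodable.encode_injective (h1.trans h2.symm)

/-- The action of `G` on the pairs `(ω, g)`. -/
noncomputable def tr (k : G) (q : Ω × G) : Ω × G := (k • q.1, rep ξ (k • q.1) (q.2 * k⁻¹))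

theorem tr_mul (k l : G) (q : Ω × G) : tr ξ (k * l) q = tr ξ k (tr ξ l q) := by
  refine Prod.ext ?_ ?_
  · exact mul_smul k l q.1
  · change rep ξ ((k * l) • q.1) (q.2 * (k * l)⁻¹) =
      rep ξ (k • l • q.1) (rep ξ (l • q.1) (q.2 * l⁻¹) * k⁻¹)
    rw [mul_smul k l q.1, rep_eq_iff]
    have h1 : (q.2 * (k * l)⁻¹) • k • l • q.1 = q.2 • q.1 := by
      rw [smul_smul, smul_smul]
      congr 1
      group
    have h2 : (rep ξ (l • q.1) (q.2 * l⁻¹) * k⁻¹) • k • l • q.1 =
        rep ξ (l • q.1) (q.2 * l⁻¹) • l • q.1 := by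
      rw [mul_smul, inv_smul_smul]
    rw [h1, h2, rep_spec ξ, mul_smul, inv_smul_smul]

/-- The set of pairs `(ω, g)` where `g` is its own representative. -/
def ZZ : Set (Ω × G) := {q | rep ξ q.1 q.2 = q.2}

theorem tr_mem (k : G) (q : Ω × G) : tr ξ k q ∈ ZZ ξ := by
  change rep ξ (k • q.1) (rep ξ (k • q.1) (q.2 * k⁻¹)) = rep ξ (k • q.1) (q.2 * k⁻¹)
  rw [rep_eq_iff]
  exact rep_spec ξ _ _

theorem tr_one {q : Ω × G} (hq : q ∈ ZZ ξ) : tr ξ 1 q = q := by
  refine Prod.ext ?_ ?_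
  · exact one_smul G q.1
  · change rep ξ ((1 : G) • q.1) (q.2 * (1 : G)⁻¹) = q.2
    rw [one_smul, inv_one, mul_one]
    exact hq

/-- The indicator of the pairs `(ω, g)` with `ξ (g • ω) = ξ ω`. -/
noncomputable def ind1 : Ω × G → ℝ :=
  Set.indicator {q : Ω × G | rep ξ q.1 q.2 = rep ξ q.1 1} (fun _ => 1)

variable [MeasurableSpace Ω] [MeasurableSpace G] (P : Measure Ω)

/-- The measure on pairs. -/
noncomputable def muZ : Measure (Ω × G) :=
  (P.prod (Measure.count : Measure G)).restrict (ZZ ξ)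

end Pool.Agent.TLA
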