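import Pool.Agent.TLA.CaseIdle
import Pool.Agent.TLA.CaseActive

/-! The stage (block B7). -/

set_option autoImplicit false

namespace Pool.Agent.TLA

variable {p : ℕ} {Γ : Type} [Group Γ]

/-- The stage: kill a normal subgroup such that a given finitely generated subgroup becomes of
finite index, or finite in the residual quotient. -/
theorem stage [Fact p.Prime] [Group.FG Γ] {K : Subgroup Γ} (hK : Good p K) (Λ : Subgroup Γ)
    (hΛ : Λ.FG) (m : ℕ) :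
    ∃ (N : Subgroup Γ) (_ : N.Normal) (K' : Subgroup Γ), N ≤ K' ∧ K' ≤ K ∧ m ≤ K'.index ∧
      Good p (K'.map (QuotientGroup.mk' N)) ∧ ((Λ ⊔ N).index ≠ 0 ∨
        ∃ L : Subgroup Γ, L ≤ Λ ∧ L.relIndex Λ ≠ 0 ∧
          ∀ U : Subgroup Γ, U.Normal → (∃ k, U.index = p ^ k) → N ≤ U → L ≤ U) := by
  classical
  obtain ⟨hKn, ⟨k, hk⟩, S, D, hSK, hpos, hD, hI⟩ := hK
  subst hSK
  have key : ∃ (N : Subgroup Γ) (_ : N.Normal) (K₁ : Subgroup Γ), N ≤ K₁ ∧ K₁ ≤ S.H ∧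
      Good p (K₁.map (QuotientGroup.mk' N)) ∧ ((Λ ⊔ N).index ≠ 0 ∨
        ∃ L : Subgroup Γ, L ≤ Λ ∧ L.relIndex Λ ≠ 0 ∧
          ∀ U : Subgroup Γ, U.Normal → (∃ k, U.index = p ^ k) → N ≤ U → L ≤ U) := by
    obtain ⟨C⟩ := exists_chain p S hD hpos
    by_cases hs : Summable (fun j => if C.Act Λ j then 0 else C.c j)
    · obtain ⟨N, hN, h1, h2, h3⟩ := case_idle S hKn k hk hI hD hpos Λ C hs
      exact ⟨N, hN, S.H, h1, le_rfl, h2, Or.inl h3⟩
    · obtain ⟨S', D', k', hle, hn', hk', hI', hpos', hD', ι, _, X, hX, hX1⟩ :=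
        case_active_reduce S k hk hI hD hpos Λ hΛ C hs
      obtain ⟨N, hN, h1, h2, h3⟩ := case_active_kill S' hn' k' hk' hI' hD' hpos' Λ X hX hX1
      exact ⟨N, hN, S'.H, h1, hle, h2, Or.inr h3⟩
  obtain ⟨N, hN, K₁, h1, h2, h3, h4⟩ := key
  obtain ⟨K'', h5, h6, h7⟩ := h3.deep m
  have hsurj : Function.Surjective (QuotientGroup.mk' N) := QuotientGroup.mk'_surjective N
  refine ⟨N, hN, K''.comap (QuotientGroup.mk' N), ?_, ?_, ?_, ?_, h4⟩
  · intro x hx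
    rw [Subgroup.mem_comap]
    rw [show (QuotientGroup.mk' N) x = 1 from (QuotientGroup.eq_one_iff x).mpr hx]
    exact K''.one_mem
  · intro x hx
    rw [Subgroup.mem_comap] at hx
    obtain ⟨y, hy, hyx⟩ := h5 hx
    have : x⁻¹ * y ∈ N := QuotientGroup.eq.mp hyx.symm
    have h8 : x = y * (x⁻¹ * y)⁻¹ := by group
    rw [h8]
    exact h2 (K₁.mul_mem hy (K₁.inv_mem (h1 this)))
  · rw [Subgroup.index_comap_of_surjective _ hsurj]
    exact h6
  · rw [Subgroup.map_comap_eq_self_of_surjective hsurj]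
    exact h7

end Pool.Agent.TLA
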