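import Pool.Agent.TLA.Stage

/-! The stage for normal subgroups of a fixed group. -/

set_option autoImplicit false

namespace Pool.Agent.TLA

/-- `R ≤ K` are normal subgroups of `F` and `K / R` is good in `F / R`. -/
def GoodF (p : ℕ) {F : Type} [Group F] (R K : Subgroup F) : Prop :=
  ∃ (Γ : Type) (_ : Group Γ) (π : F →* Γ), Function.Surjective π ∧ π.ker = R ∧ R ≤ K ∧
    Good p (K.map π)

variable {p : ℕ} {F : Type} [Group F]

theorem GoodF.normal {R K : Subgroup F} (h : GoodF p R K) :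
    R.Normal ∧ K.Normal ∧ ∃ k, K.index = p ^ k := by
  obtain ⟨Γ, _, π, hs, hker, hRK, hn, ⟨k, hk⟩, -⟩ := h
  subst hker
  have hK : (K.map π).comap π = K := Subgroup.comap_map_eq_self hRK
  refine ⟨inferInstance, ?_, k, ?_⟩
  · rw [← hK]
    exact hn.comap π
  · rw [← hK, Subgroup.index_comap_of_surjective _ hs, hk]

/-- The stage. -/
theorem stageF [Fact p.Prime] [Group.FG F] {R K : Subgroup F} (h : GoodF p R K)
    (Λ : Subgroup F) (hΛ : Λ.FG) (m : ℕ) :
    ∃ R' K' : Subgroup F, R ≤ R' ∧ K' ≤ K ∧ m ≤ K'.index ∧ GoodF p R' K' ∧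
      ((Λ ⊔ R').index ≠ 0 ∨ ∃ L : Subgroup F, L ≤ Λ ∧ L.relIndex Λ ≠ 0 ∧
        ∀ U : Subgroup F, U.Normal → (∃ k, U.index = p ^ k) → R' ≤ U → L ≤ U) := by
  obtain ⟨Γ, _, π, hs, hker, hRK, hg⟩ := h
  subst hker
  have hK : (K.map π).comap π = K := Subgroup.comap_map_eq_self hRK
  have hfg : Group.FG Γ := Group.fg_of_surjective hs
  have hΛ' : (Λ.map π).FG := by
    classical
    obtain ⟨T, hT⟩ := hΛ
    refine ⟨T.image π, ?_⟩
    rw [Finset.coe_image, ← MonoidHom.map_closure, hT]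
  obtain ⟨N, hN, K₁, h1, h2, h3, h4, h5⟩ := stage hg (Λ.map π) hΛ' m
  have hker' : π.ker ≤ N.comap π := by
    rw [← MonoidHom.comap_bot]
    exact Subgroup.comap_mono bot_le
  refine ⟨N.comap π, K₁.comap π, hker', ?_, ?_, ?_, ?_⟩
  · rw [← hK]
    exact Subgroup.comap_mono h2
  · rw [Subgroup.index_comap_of_surjective _ hs]
    exact h3
  · refine ⟨Γ ⧸ N, inferInstance, (QuotientGroup.mk' N).comp π, ?_, ?_, ?_, ?_⟩
    · rw [MonoidHom.coe_comp]
      exact (QuotientGroup.mk'_surjective N).comp hs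
    · rw [← MonoidHom.comap_ker, QuotientGroup.ker_mk']
    · exact Subgroup.comap_mono h1
    · rw [← Subgroup.map_map, Subgroup.map_comap_eq_self_of_surjective hs]
      exact h4
  · rcases h5 with h5 | ⟨L, hL, hL1, hL2⟩
    · left
      have e1 : (Λ ⊔ N.comap π).map π = Λ.map π ⊔ N := by
        rw [Subgroup.map_sup, Subgroup.map_comap_eq_self_of_surjective hs]
      have e2 : ((Λ ⊔ N.comap π).map π).comap π = Λ ⊔ N.comap π :=
        Subgroup.comap_map_eq_self (hker'.trans le_sup_right)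
      rw [← e2, Subgroup.index_comap_of_surjective _ hs, e1]
      exact h5
    · right
      refine ⟨L.comap π ⊓ Λ, inf_le_right, ?_, ?_⟩
      · rw [Subgroup.inf_relIndex_right, Subgroup.relIndex_comap]
        exact hL1
      · intro U hU hUk hRU
        have e2 : (U.map π).comap π = U := Subgroup.comap_map_eq_self (hker'.trans hRU)
        have hUn : (U.map π).Normal := hU.map π hs
        have hUi : ∃ k, (U.map π).index = p ^ k := by
          obtain ⟨k, hk⟩ := hUk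
          refine ⟨k, ?_⟩
          rw [← hk]
          nth_rewrite 2 [← e2]
          rw [Subgroup.index_comap_of_surjective _ hs]
        have hNU : N ≤ U.map π := by
          have := Subgroup.map_mono (f := π) hRU
          rwa [Subgroup.map_comap_eq_self_of_surjective hs] at this
        have hLU := hL2 (U.map π) hUn hUi hNU
        intro x hx
        rw [← e2]
        exact hLU hx.1

/-- The sequence of stages. -/
theorem exists_seq [Fact p.Prime] [Group.FG F] {R K : Subgroup F} (h : GoodF p R K)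
    (Λ : ℕ → Subgroup F) (hΛ : ∀ i, (Λ i).FG) :
    ∃ R' K' : ℕ → Subgroup F, R' 0 = R ∧ (∀ i, R' i ≤ R' (i + 1)) ∧ (∀ i, K' (i + 1) ≤ K' i) ∧
      (∀ i, R' i ≤ K' i) ∧ (∀ i, (K' i).Normal) ∧ (∀ i, ∃ k, (K' i).index = p ^ k) ∧
      (∀ i, i ≤ (K' (i + 1)).index) ∧
      ∀ i, ((Λ i ⊔ R' (i + 1)).index ≠ 0 ∨ ∃ L : Subgroup F, L ≤ Λ i ∧ L.relIndex (Λ i) ≠ 0 ∧
        ∀ U : Subgroup F, U.Normal → (∃ k, U.index = p ^ k) → R' (i + 1) ≤ U → L ≤ U) := by
  classical
  let P : Type := {q : Subgroup F × Subgroup F // GoodF p q.1 q.2}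
  have step : ∀ (i : ℕ) (q : P), ∃ q' : P, q.1.1 ≤ q'.1.1 ∧ q'.1.2 ≤ q.1.2 ∧ i ≤ q'.1.2.index ∧
      ((Λ i ⊔ q'.1.1).index ≠ 0 ∨ ∃ L : Subgroup F, L ≤ Λ i ∧ L.relIndex (Λ i) ≠ 0 ∧
        ∀ U : Subgroup F, U.Normal → (∃ k, U.index = p ^ k) → q'.1.1 ≤ U → L ≤ U) := by
    intro i q
    obtain ⟨R', K', h1, h2, h3, h4, h5⟩ := stageF q.2 (Λ i) (hΛ i) i
    exact ⟨⟨(R', K'), h4⟩, h1, h2, h3, h5⟩
  choose f hf1 hf2 hf3 hf4 using step
  let s : ℕ → P := fun n => Nat.rec ⟨(R, K), h⟩ (fun i q => f i q) n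
  have hs : ∀ i, s (i + 1) = f i (s i) := fun i => rfl
  refine ⟨fun i => (s i).1.1, fun i => (s i).1.2, rfl, ?_, ?_, ?_, ?_, ?_, ?_, ?_⟩
  · intro i
    exact hf1 i (s i)
  · intro i
    exact hf2 i (s i)
  · intro i
    obtain ⟨Γ, _, π, -, hker, hRK, -⟩ := (s i).2
    exact hRK
  · intro i
    exact (GoodF.normal (s i).2).2.1
  · intro i
    exact (GoodF.normal (s i).2).2.2
  · intro i
    exact hf3 i (s i)
  · intro i
    exact hf4 i (s i)

end Pool.Agent.TLA
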