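import Pool.Agent.TLA.StepDefs

/-! Change of generators. -/

set_option autoImplicit false

namespace Pool.Agent.TLA

variable (p : ℕ) {Γ : Type} [Group Γ]

namespace WSys

private theorem StepBC_M_le (S S' : WSys Γ)
    (h : ∀ q : S'.T × Bool, S'.letter p q ∈ S.M p (S'.w q.1)) (c : ℝ) :
    S'.M p c ≤ S.M p c := by
  have h1 : ∀ l : List (S'.T × Bool), S'.mono p l ∈ S.M p (S'.wt l) := by
    intro l
    induction l with
    | nil =>
      have := S.mono_mem p []
      simpa [mono, wt] using this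
    | cons q l ih =>
      have := S.M_mul_mem p (h q) ih
      simpa [mono, wt] using this
  refine Submodule.span_le.2 ?_
  rintro a ⟨l, hl, rfl⟩
  exact S.M_mono p hl (h1 l)

private theorem StepBC_letter (S : WSys Γ) {c : ℝ} {g : Γ} (hg : g ∈ S.H)
    (h : gr p g - 1 ∈ S.M p c) (b : Bool) :
    (if b then gr p g - 1 else gr p g⁻¹ - 1) ∈ S.M p c := by
  cases b
  · simpa using S.inv_mem_M p hg h
  · simpa using h

private theorem StepBC_pow (S : WSys Γ) {c : ℝ} {g : Γ} (hg : g ∈ S.H)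
    (h : gr p g - 1 ∈ S.M p c) (n : ℕ) : gr p (g ^ n) - 1 ∈ S.M p c := by
  induction n with
  | zero => simp [gr_one]
  | succ n ih =>
    rw [pow_succ]
    exact S.mul_mem_M' p (S.H.pow_mem hg n) hg ih h

variable (S : WSys Γ) (t₁ : S.T) (k : S.T → ℕ)

private theorem StepBC_v (t : S.T) : (S.bc t₁ k).v t =
    if t = t₁ then S.v t else S.v t * (S.v t₁ ^ k t)⁻¹ := rfl

private theorem StepBC_v₁ : (S.bc t₁ k).v t₁ = S.v t₁ := by
  rw [StepBC_v, if_pos rfl]

private theorem StepBC_v' (t : S.T) (ht : t ≠ t₁) :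
    S.v t = (S.bc t₁ k).v t * (S.v t₁ ^ k t) := by
  rw [StepBC_v, if_neg ht]
  group

private theorem StepBC_mem (t : S.T) : (S.bc t₁ k).v t ∈ S.H := by
  rw [StepBC_v]
  split_ifs with h
  · exact S.v_mem_H t
  · exact S.H.mul_mem (S.v_mem_H t) (S.H.inv_mem (S.H.pow_mem (S.v_mem_H t₁) _))

theorem bc_H : (S.bc t₁ k).H = S.H := by
  apply le_antisymm
  · refine (Subgroup.closure_le _).2 ?_
    rintro _ ⟨t, rfl⟩
    exact S.StepBC_mem t₁ k t
  · refine (Subgroup.closure_le _).2 ?_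
    rintro _ ⟨t, rfl⟩
    by_cases ht : t = t₁
    · subst ht
      have := (S.bc t k).v_mem_H t
      rwa [StepBC_v₁] at this
    · have h1 : S.v t₁ ∈ (S.bc t₁ k).H := by
        have := (S.bc t₁ k).v_mem_H t₁
        rwa [StepBC_v₁] at this
      rw [StepBC_v' S t₁ k t ht]
      exact (S.bc t₁ k).H.mul_mem ((S.bc t₁ k).v_mem_H t) ((S.bc t₁ k).H.pow_mem h1 _)

theorem bc_M (hk : ∀ t, k t ≠ 0 → S.w t₁ ≤ S.w t) (c : ℝ) : (S.bc t₁ k).M p c = S.M p c := by
  apply le_antisymm
  · refine StepBC_M_le p S (S.bc t₁ k) ?_ c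
    rintro ⟨t, b⟩
    refine StepBC_letter p S (S.StepBC_mem t₁ k t) ?_ b
    show gr p (if t = t₁ then S.v t else S.v t * (S.v t₁ ^ k t)⁻¹) - 1 ∈ S.M p (S.w t)
    split_ifs with h
    · exact S.v_mem_M p t
    · by_cases hkt : k t = 0
      · simpa [hkt] using S.v_mem_M p t
      · have h1 := S.M_mono p (hk t hkt) (S.v_mem_M p t₁)
        exact S.mul_mem_M' p (S.v_mem_H t) (S.H.inv_mem (S.H.pow_mem (S.v_mem_H t₁) _))
          (S.v_mem_M p t)
          (S.inv_mem_M p (S.H.pow_mem (S.v_mem_H t₁) _) (StepBC_pow p S (S.v_mem_H t₁) h1 _))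
  · refine StepBC_M_le p (S.bc t₁ k) S ?_ c
    rintro ⟨t, b⟩
    have hv1 : S.v t₁ ∈ (S.bc t₁ k).H := by rw [bc_H]; exact S.v_mem_H t₁
    refine StepBC_letter p (S.bc t₁ k) (g := S.v t) (by rw [bc_H]; exact S.v_mem_H t) ?_ b
    by_cases ht : t = t₁
    · subst ht
      have := (S.bc t k).v_mem_M p t
      rwa [StepBC_v₁] at this
    · rw [StepBC_v' S t₁ k t ht]
      by_cases hkt : k t = 0
      · rw [hkt, pow_zero, mul_one]
        exact (S.bc t₁ k).v_mem_M p t
      · have h0 := (S.bc t₁ k).v_mem_M p t₁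
        rw [StepBC_v₁] at h0
        have h1 : gr p (S.v t₁) - 1 ∈ (S.bc t₁ k).M p (S.w t) :=
          (S.bc t₁ k).M_mono p (hk t hkt) h0
        exact (S.bc t₁ k).mul_mem_M' p ((S.bc t₁ k).v_mem_H t)
          ((S.bc t₁ k).H.pow_mem hv1 _) ((S.bc t₁ k).v_mem_M p t)
          (StepBC_pow p (S.bc t₁ k) hv1 h1 _)

/-- The coefficient of the base change. -/
private noncomputable def StepBCco (t : S.T) : Alg p Γ :=
  if t = t₁ then 0 else
    gr p ((S.bc t₁ k).v t) * ∑ i ∈ Finset.range (k t), gr p (S.v t₁ ^ i)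

private theorem StepBCco_mem (t : S.T) : S.StepBCco p t₁ k t ∈ sa p S.H := by
  unfold StepBCco
  split_ifs with h
  · exact Submodule.zero_mem _
  · exact sa_mul_mem p (gr_mem_sa p (S.StepBC_mem t₁ k t))
      (Submodule.sum_mem _ fun i _ => gr_mem_sa p (S.H.pow_mem (S.v_mem_H t₁) i))

private theorem StepBCco_zero (t : S.T) (h : k t = 0) : S.StepBCco p t₁ k t = 0 := by
  unfold StepBCco
  split_ifs
  · rfl
  · simp [h]

private theorem StepBC_geom (g : Γ) (n : ℕ) :
    (∑ i ∈ Finset.range n, gr p (g ^ i)) * (gr p g - 1) = gr p (g ^ n) - 1 := by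
  induction n with
  | zero => simp [gr_one]
  | succ n ih =>
    rw [Finset.sum_range_succ, add_mul, ih, pow_succ, mul_sub, gr_mul, mul_one]
    abel

private theorem StepBCco_mul (t : S.T) :
    S.StepBCco p t₁ k t * (gr p (S.v t₁) - 1) =
      gr p (S.v t) - gr p ((S.bc t₁ k).v t) := by
  unfold StepBCco
  split_ifs with h
  · subst h
    rw [StepBC_v₁, zero_mul, sub_self]
  · rw [mul_assoc, StepBC_geom, mul_sub, mul_one, ← gr_mul, ← StepBC_v' S t₁ k t h]

/-- The base change with a sign. -/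
private noncomputable def StepBCth (s : ZMod p) :
    (S.T → Alg p Γ) →ₗ[ZMod p] (S.T → Alg p Γ) where
  toFun a := fun t => a t + if t = t₁ then s • ∑ t', a t' * S.StepBCco p t₁ k t' else 0
  map_add' a b := by
    funext t
    by_cases h : t = t₁
    · simp only [h, if_true, Pi.add_apply, add_mul, Finset.sum_add_distrib, smul_add]
      abel
    · simp [h]
  map_smul' c a := by
    funext t
    by_cases h : t = t₁
    · simp only [h, if_true, Pi.smul_apply, smul_mul_assoc, ← Finset.smul_sum, smul_add,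
        RingHom.id_apply, smul_comm s c]
    · simp [h]

private theorem StepBCth_apply (s : ZMod p) (a : S.T → Alg p Γ) (t : S.T) :
    S.StepBCth p t₁ k s a t =
      a t + if t = t₁ then s • ∑ t', a t' * S.StepBCco p t₁ k t' else 0 := rfl

private theorem StepBCco_self : S.StepBCco p t₁ k t₁ = 0 := by
  unfold StepBCco
  rw [if_pos rfl]

private theorem StepBCth_sum (s : ZMod p) (a : S.T → Alg p Γ) :
    ∑ t', S.StepBCth p t₁ k s a t' * S.StepBCco p t₁ k t' =
      ∑ t', a t' * S.StepBCco p t₁ k t' := by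
  refine Finset.sum_congr rfl fun t _ => ?_
  rw [StepBCth_apply]
  by_cases h : t = t₁
  · rw [h, StepBCco_self, mul_zero, mul_zero]
  · rw [if_neg h, add_zero]

private theorem StepBCth_inv (a : S.T → Alg p Γ) :
    S.StepBCth p t₁ k 1 (S.StepBCth p t₁ k (-1) a) = a := by
  funext t
  rw [StepBCth_apply, StepBCth_sum, StepBCth_apply]
  by_cases h : t = t₁
  · simp [h]
  · simp [h]

private theorem StepBCth_mem (s : ZMod p) (a : S.T → Alg p Γ) (h : ∀ t, a t ∈ sa p S.H)
    (t : S.T) : S.StepBCth p t₁ k s a t ∈ sa p S.H := by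
  rw [StepBCth_apply]
  refine Submodule.add_mem _ (h t) ?_
  split_ifs
  · exact Submodule.smul_mem _ _ (Submodule.sum_mem _ fun t' _ =>
      sa_mul_mem p (h t') (S.StepBCco_mem p t₁ k t'))
  · exact Submodule.zero_mem _

private theorem StepBCth_mul (s : ZMod p) (a : S.T → Alg p Γ) (x : Alg p Γ) :
    S.StepBCth p t₁ k s (fun t => x * a t) = fun t => x * S.StepBCth p t₁ k s a t := by
  funext t
  rw [StepBCth_apply, StepBCth_apply, mul_add]
  congr 1
  split_ifs
  · rw [mul_smul_comm, Finset.mul_sum]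
    simp only [mul_assoc]
  · rw [mul_zero]

private theorem StepBCth_d (a : S.T → Alg p Γ) :
    (S.bc t₁ k).d p (S.StepBCth p t₁ k 1 a) = S.d p a := by
  show ∑ t : S.T, S.StepBCth p t₁ k 1 a t * (gr p ((S.bc t₁ k).v t) - 1) =
    ∑ t : S.T, a t * (gr p (S.v t) - 1)
  have h1 : ∀ t : S.T, S.StepBCth p t₁ k 1 a t * (gr p ((S.bc t₁ k).v t) - 1) =
      a t * (gr p ((S.bc t₁ k).v t) - 1) + if t = t₁ then
        (∑ t', a t' * S.StepBCco p t₁ k t') * (gr p (S.v t₁) - 1) else 0 := by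
    intro t
    rw [StepBCth_apply, add_mul, one_smul]
    congr 1
    by_cases h : t = t₁
    · subst h
      rw [if_pos rfl, if_pos rfl, StepBC_v₁]
    · rw [if_neg h, if_neg h, zero_mul]
  rw [Finset.sum_congr rfl fun t _ => h1 t, Finset.sum_add_distrib,
    Finset.sum_ite_eq' Finset.univ t₁, if_pos (Finset.mem_univ _), Finset.sum_mul,
    ← Finset.sum_add_distrib]
  refine Finset.sum_congr rfl fun t _ => ?_
  rw [mul_assoc, StepBCco_mul, ← mul_add]
  congr 1
  abel

theorem bc_hasDef [Fact p.Prime] (hk : ∀ t, k t ≠ 0 → S.w t₁ ≤ S.w t) {D : ℝ}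
    (hD : S.HasDef p D) : (S.bc t₁ k).HasDef p D := by
  obtain ⟨R, hR, ρ, ν, ⟨hg1, hg2, hg3⟩, hν, hs, hM, hDe⟩ := hD
  refine ⟨R, hR, fun r => S.StepBCth p t₁ k 1 (ρ r), ν, ⟨?_, ?_, ?_⟩, hν, hs, ?_, hDe⟩
  · intro r t
    rw [bc_H]
    exact S.StepBCth_mem p t₁ k 1 (ρ r) (hg1 r) t
  · intro r
    rw [StepBCth_d]
    exact hg2 r
  · intro b hb hd
    rw [bc_H] at hb ⊢
    have h1 : S.d p (S.StepBCth p t₁ k (-1) b) = 0 := by
      rw [← StepBCth_d, StepBCth_inv]
      exact hd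
    have h2 := hg3 _ (fun t => S.StepBCth_mem p t₁ k (-1) b hb t) h1
    have h3 := Submodule.mem_map_of_mem (f := S.StepBCth p t₁ k 1) h2
    rw [StepBCth_inv, Submodule.map_span] at h3
    refine Submodule.span_mono ?_ h3
    rintro _ ⟨_, ⟨h, hh, r, rfl⟩, rfl⟩
    exact ⟨h, hh, r, S.StepBCth_mul p t₁ k 1 (ρ r) (gr p h)⟩
  · intro r t
    rw [bc_M p S t₁ k hk]
    show S.StepBCth p t₁ k 1 (ρ r) t ∈ S.M p (ν r / S.w t)
    rw [StepBCth_apply]
    refine Submodule.add_mem _ (hM r t) ?_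
    split_ifs with h
    · rw [h]
      refine Submodule.smul_mem _ _ (Submodule.sum_mem _ fun t' _ => ?_)
      by_cases hkt : k t' = 0
      · rw [StepBCco_zero p S t₁ k t' hkt, mul_zero]
        exact Submodule.zero_mem _
      · refine S.M_mul_mem_right p ?_ (S.StepBCco_mem p t₁ k t')
        exact S.M_mono p (div_le_div_of_nonneg_left (hν r).le (S.w_pos t₁) (hk t' hkt))
          (hM r t')
    · exact Submodule.zero_mem _

end WSys

end Pool.Agent.TLA
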