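import Pool.Agent.TLA.StepDefs

/-! Classes of functions with small iterated differences. -/

set_option autoImplicit false

namespace Pool.Agent.TLA

variable {p : ℕ}

/-- The iterated differences of `f` lie deeper and deeper in the filtration. -/
def Cls {V : Type} [AddCommGroup V] [Module (ZMod p) V] (F : ℝ → Submodule (ZMod p) V)
    (w d : ℝ) (n : ℕ) (f : ℕ → V) : Prop :=
  ∀ m i, i + m ≤ n → (fwdDiff 1)^[m] f i ∈ F (d * w ^ m)

section
variable {V V' V'' : Type} [AddCommGroup V] [Module (ZMod p) V] [AddCommGroup V']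
  [Module (ZMod p) V'] [AddCommGroup V''] [Module (ZMod p) V'']
  (F : ℝ → Submodule (ZMod p) V) (F' : ℝ → Submodule (ZMod p) V')
  (F'' : ℝ → Submodule (ZMod p) V'') {w : ℝ}

theorem cls_succ_iff (d : ℝ) (n : ℕ) (f : ℕ → V) :
    Cls F w d (n + 1) f ↔ (∀ i ≤ n + 1, f i ∈ F d) ∧ Cls F w (d * w) n (fwdDiff 1 f) := by
  constructor
  · intro h
    refine ⟨fun i hi => ?_, fun m i hmi => ?_⟩
    · have h1 := h 0 i (by omega)
      rwa [pow_zero, mul_one] at h1
    · have h1 := h (m + 1) i (by omega)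
      rw [Function.iterate_succ_apply, pow_succ'] at h1
      rwa [mul_assoc]
  · rintro ⟨h1, h2⟩ m i hmi
    rcases m with _ | m
    · rw [pow_zero, mul_one]
      exact h1 i (by omega)
    · rw [Function.iterate_succ_apply, pow_succ', ← mul_assoc]
      exact h2 m i (by omega)

theorem cls_zero_iff (d : ℝ) (f : ℕ → V) : Cls F w d 0 f ↔ f 0 ∈ F d := by
  constructor
  · intro h
    have h1 := h 0 0 (by omega)
    rwa [pow_zero, mul_one] at h1
  · intro h m i hmi
    obtain rfl : m = 0 := by omega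
    obtain rfl : i = 0 := by omega
    rw [pow_zero, mul_one]
    exact h

theorem cls_mono {d e : ℝ} {n k : ℕ} (hF : Monotone F) (hw : 0 ≤ w) (hde : d ≤ e) (hk : k ≤ n)
    {f : ℕ → V} (h : Cls F w d n f) : Cls F w e k f := by
  intro m i hmi
  exact hF (mul_le_mul_of_nonneg_right hde (pow_nonneg hw m)) (h m i (by omega))

theorem StepCls_iter_shift (m : ℕ) (f : ℕ → V) (i : ℕ) :
    (fwdDiff 1)^[m] (fun i => f (i + 1)) i = (fwdDiff 1)^[m] f (i + 1) := by
  induction m generalizing f with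
  | zero => rfl
  | succ m ih =>
    rw [Function.iterate_succ_apply, Function.iterate_succ_apply, ← ih]
    rfl

theorem cls_shift {d : ℝ} {n : ℕ} {f : ℕ → V} (h : Cls F w d (n + 1) f) :
    Cls F w d n (fun i => f (i + 1)) := by
  intro m i hmi
  rw [StepCls_iter_shift]
  exact h m (i + 1) (by omega)

theorem StepCls_add {d : ℝ} {n : ℕ} {f g : ℕ → V} (hf : Cls F w d n f) (hg : Cls F w d n g) :
    Cls F w d n (f + g) := by
  intro m i hmi
  rw [fwdDiff_iter_add]
  exact (F (d * w ^ m)).add_mem (hf m i hmi) (hg m i hmi)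

/-- Products (Leibniz rule). -/
theorem cls_mul (B : V →ₗ[ZMod p] V' →ₗ[ZMod p] V'')
    (hB : ∀ c d a b, a ∈ F c → b ∈ F' d → B a b ∈ F'' (c * d)) {d e : ℝ} {n : ℕ} {f : ℕ → V}
    {g : ℕ → V'} (hf : Cls F w d n f) (hg : Cls F' w e n g) :
    Cls F'' w (d * e) n (fun i => B (f i) (g i)) := by
  induction n generalizing f g d e with
  | zero =>
    rw [cls_zero_iff] at hf hg ⊢
    exact hB _ _ _ _ hf hg
  | succ n ih =>
    have hf1 := (cls_succ_iff F d n f).1 hf
    have hg1 := (cls_succ_iff F' e n g).1 hg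
    refine (cls_succ_iff F'' (d * e) n _).2
      ⟨fun i hi => hB _ _ _ _ (hf1.1 i hi) (hg1.1 i hi), ?_⟩
    have h1 : fwdDiff 1 (fun i => B (f i) (g i)) =
        (fun i => B (fwdDiff 1 f i) (g (i + 1))) + fun i => B (f i) (fwdDiff 1 g i) := by
      funext i
      simp only [fwdDiff, Pi.add_apply, map_sub, LinearMap.sub_apply]
      abel
    rw [h1]
    refine StepCls_add F'' ?_ ?_
    · have h2 := ih hf1.2 (cls_shift F' hg)
      have h3 : d * w * e = d * e * w := by ring
      rwa [h3] at h2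
    · have h2 := ih (f := f) (g := fwdDiff 1 g) (fun m i hmi => hf m i (by omega)) hg1.2
      have h3 : d * (e * w) = d * e * w := by ring
      rwa [h3] at h2

/-- Newton's formula. -/
theorem newton (f : ℕ → V) (n : ℕ) :
    f n = ∑ k ∈ Finset.range (n + 1), n.choose k • (fwdDiff 1)^[k] f 0 := by
  have h := shift_eq_sum_fwdDiff_iter 1 f n 0
  rwa [zero_add, smul_eq_mul, mul_one] at h

end

end Pool.Agent.TLA
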