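import Pool.Agent.TLA.StepLetter

/-! The decomposition of the filtration. -/

set_option autoImplicit false

namespace Pool.Agent.TLA

variable (p : ℕ) {Γ : Type} [Group Γ]

namespace WSys

variable (S : WSys Γ)

section rs

variable [Fact p.Prime] (t₁ : S.T) (φ : Γ → ZMod p) (hφ : S.AddOn p φ) (h1 : φ (S.v t₁) = 1)
  (h0 : ∀ t, t ≠ t₁ → φ (S.v t) = 0)

include hφ h1 h0

/-- The decomposition of the filtration. -/
theorem M_decomp (c : ℝ) (a : Alg p Γ) (ha : a ∈ S.M p c) :
    ∃ b : Fin p → Alg p Γ, (∀ k : Fin p, b k ∈ (S.rs p t₁).M p (c / S.w t₁ ^ (k : ℕ))) ∧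
      a = ∑ k : Fin p, b k * (gr p (S.v t₁) - 1) ^ (k : ℕ) := by
  have hp : 0 < p := (Fact.out : p.Prime).pos
  have key : ∀ l : List (S.T × Bool), ∃ b : Fin p → Alg p Γ,
      (∀ k : Fin p, b k ∈ (S.rs p t₁).M p (S.wt l / S.w t₁ ^ (k : ℕ))) ∧
      S.mono p l = ∑ k : Fin p, b k * (gr p (S.v t₁) - 1) ^ (k : ℕ) := by
    intro l
    induction l using List.reverseRecOn with
    | nil =>
      refine ⟨fun k => if k = ⟨0, hp⟩ then 1 else 0, fun k => ?_, ?_⟩
      · dsimp only
        split_ifs with hk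
        · subst hk
          have h := (S.rs p t₁).mono_mem p []
          simpa [wt, mono] using h
        · exact Submodule.zero_mem _
      · simp only [mono, List.map_nil, List.prod_nil, ite_mul, zero_mul, one_mul]
        rw [Finset.sum_ite_eq' Finset.univ (⟨0, hp⟩ : Fin p)]
        simp
    | append_singleton l q ih =>
      obtain ⟨b, hb, hab⟩ := S.decomp_letter p t₁ φ hφ h1 h0 (S.wt l) (S.mono p l) ih q
      refine ⟨b, fun k => ?_, ?_⟩
      · rw [wt_append]
        have e : S.wt [q] = S.w q.1 := by simp [wt]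
        rw [e]
        exact hb k
      · rw [mono_append]
        have e : S.mono p [q] = S.letter p q := by simp [mono]
        rw [e]
        exact hab
  have ha' := ha
  unfold M at ha'
  induction ha' using Submodule.span_induction with
  | mem x hx =>
    obtain ⟨l, hl, rfl⟩ := hx
    obtain ⟨b, hb, hab⟩ := key l
    refine ⟨b, fun k => ?_, hab⟩
    exact (S.rs p t₁).M_mono p
      (div_le_div_of_nonneg_right hl (pow_pos (S.w_pos t₁) _).le) (hb k)
  | zero =>
    exact ⟨fun _ => 0, fun k => Submodule.zero_mem _, by simp⟩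
  | add x y hx hy ihx ihy =>
    obtain ⟨b, hb, hab⟩ := ihx hx
    obtain ⟨b', hb', hab'⟩ := ihy hy
    refine ⟨fun k => b k + b' k, fun k => Submodule.add_mem _ (hb k) (hb' k), ?_⟩
    simp only [add_mul, Finset.sum_add_distrib]
    rw [← hab, ← hab']
  | smul r x hx ih =>
    obtain ⟨b, hb, hab⟩ := ih hx
    refine ⟨fun k => r • b k, fun k => Submodule.smul_mem _ _ (hb k), ?_⟩
    simp only [smul_mul_assoc]
    rw [← Finset.smul_sum, ← hab]

theorem rs_M_eq (c : ℝ) : (S.rs p t₁).M p c = S.M p c ⊓ sa p (S.rs p t₁).H := by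
  apply le_antisymm
  · exact le_inf (S.rs_M_le p t₁ φ hφ h1 h0 c) ((S.rs p t₁).M_le_sa p c)
  · intro a ha
    obtain ⟨b, hb, hab⟩ := S.M_decomp p t₁ φ hφ h1 h0 c a ha.1
    have hp : 0 < p := (Fact.out : p.Prime).pos
    have key := S.comp_unique p t₁ φ hφ h1 h0
      (fun k => b k - if k = ⟨0, hp⟩ then a else 0) (fun k => by
        refine Submodule.sub_mem _ ((S.rs p t₁).M_le_sa p _ (hb k)) ?_
        split_ifs
        · exact ha.2
        · exact Submodule.zero_mem _) (by
        simp only [sub_mul, Finset.sum_sub_distrib, ite_mul, zero_mul]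
        rw [← hab, Finset.sum_ite_eq' Finset.univ (⟨0, hp⟩ : Fin p)]
        simp) ⟨0, hp⟩
    simp only [if_true, sub_eq_zero] at key
    have := hb ⟨0, hp⟩
    simp only [pow_zero, div_one] at this
    rw [key] at this
    exact this

end rs

end WSys

end Pool.Agent.TLA
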