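import Pool.Agent.TLA.Ball

/-! Passing to a subgroup of index `p`: definitions. -/

set_option autoImplicit false

namespace Pool.Agent.TLA

variable (p : ℕ) {Γ : Type} [Group Γ]

namespace WSys

variable (S : WSys Γ)

/-- `φ` is additive on `S.H`. -/
def AddOn (φ : Γ → ZMod p) : Prop := ∀ x ∈ S.H, ∀ y ∈ S.H, φ (x * y) = φ x + φ y

/-- The elements `z_0 = v_t`, `z_{k+1} = z_k⁻¹ v_1 z_k v_1⁻¹`. -/
def z (t₁ t : S.T) : ℕ → Γ
  | 0 => S.v t
  | k + 1 => (z t₁ t k)⁻¹ * (S.v t₁ * z t₁ t k * (S.v t₁)⁻¹)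

/-- The Reidemeister-Schreier system for the kernel of `φ`, where `φ v_{t₁} = 1` and `φ v_t = 0`
for the other `t`. -/
noncomputable def rs [Fact p.Prime] (t₁ : S.T) : WSys Γ where
  T := Option ({t : S.T // t ≠ t₁} × Fin p)
  fin := inferInstance
  dec := inferInstance
  v := fun q => match q with
    | none => S.v t₁ ^ p
    | some q => S.z t₁ q.1 q.2
  w := fun q => match q with
    | none => S.w t₁ ^ p
    | some q => S.w q.1 * S.w t₁ ^ (q.2 : ℕ)
  w_pos := fun q => match q with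
    | none => pow_pos (S.w_pos t₁) p
    | some q => mul_pos (S.w_pos q.1) (pow_pos (S.w_pos t₁) _)
  w_lt := fun q => match q with
    | none => pow_lt_one₀ (S.w_pos t₁).le (S.w_lt t₁) (Fact.out : p.Prime).ne_zero
    | some q => by
        have h1 := S.w_lt q.1
        have h2 := S.w_pos q.1
        have h3 : S.w t₁ ^ (q.2 : ℕ) ≤ 1 := pow_le_one₀ (S.w_pos t₁).le (S.w_lt t₁).le
        have h4 : 0 < S.w t₁ ^ (q.2 : ℕ) := pow_pos (S.w_pos t₁) _
        show S.w q.1 * S.w t₁ ^ (q.2 : ℕ) < 1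
        nlinarith

/-- The base change `v_t ↦ v_t v_{t₁}^{-k t}`. -/
noncomputable def bc (t₁ : S.T) (k : S.T → ℕ) : WSys Γ where
  T := S.T
  fin := S.fin
  dec := S.dec
  v := fun t => if t = t₁ then S.v t else S.v t * (S.v t₁ ^ k t)⁻¹
  w := S.w
  w_pos := S.w_pos
  w_lt := S.w_lt

/-- The conjugates `v₁^i z_k v₁^{-i}`. -/
def Zc (t₁ t : S.T) (k i : ℕ) : Γ := S.v t₁ ^ i * S.z t₁ t k * (S.v t₁ ^ i)⁻¹

theorem Zc_zero (t₁ t : S.T) (k : ℕ) : S.Zc t₁ t k 0 = S.z t₁ t k := by simp [Zc]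

theorem Zc_succ (t₁ t : S.T) (k i : ℕ) :
    S.Zc t₁ t k (i + 1) = S.Zc t₁ t k i * S.Zc t₁ t (k + 1) i := by
  simp only [Zc, z, pow_succ]
  group

end WSys

end Pool.Agent.TLA
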