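import Pool.Agent.TLA.StepDefs

/-! The Reidemeister-Schreier system generates the kernel. -/

set_option autoImplicit false

namespace Pool.Agent.TLA

variable (p : ℕ) {Γ : Type} [Group Γ]

namespace WSys

variable (S : WSys Γ)

section gens

variable [Fact p.Prime] (t₁ : S.T)

theorem StepGen_none : S.v t₁ ^ p ∈ (S.rs p t₁).H :=
  Subgroup.subset_closure ⟨none, rfl⟩

theorem StepGen_some (t : S.T) (ht : t ≠ t₁) (k : ℕ) (hk : k < p) :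
    S.z t₁ t k ∈ (S.rs p t₁).H :=
  Subgroup.subset_closure ⟨some (⟨t, ht⟩, ⟨k, hk⟩), rfl⟩

theorem StepGen_Zc1 (t : S.T) (ht : t ≠ t₁) :
    ∀ i k : ℕ, k + i < p → S.Zc t₁ t k i ∈ (S.rs p t₁).H := by
  intro i
  induction i with
  | zero =>
    intro k hk
    rw [S.Zc_zero]
    exact S.StepGen_some p t₁ t ht k hk
  | succ i ih =>
    intro k hk
    rw [S.Zc_succ]
    exact Subgroup.mul_mem _ (ih k (by omega)) (ih (k + 1) (by omega))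

theorem StepGen_Zc2 (t : S.T) (ht : t ≠ t₁) :
    ∀ k i : ℕ, k + i ≤ p → S.Zc t₁ t k i ∈ (S.rs p t₁).H := by
  intro k
  induction k with
  | zero =>
    intro i hi
    rcases Nat.lt_or_ge i p with h | h
    · exact S.StepGen_Zc1 p t₁ t ht i 0 (by omega)
    · have hip : i = p := by omega
      subst hip
      have hv : S.z t₁ t 0 ∈ (S.rs i t₁).H :=
        S.StepGen_some i t₁ t ht 0 (Fact.out : i.Prime).pos
      exact Subgroup.mul_mem _ (Subgroup.mul_mem _ (S.StepGen_none i t₁) hv)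
        (Subgroup.inv_mem _ (S.StepGen_none i t₁))
  | succ k ih =>
    intro i hi
    have h1 := ih i (by omega)
    have h2 := ih (i + 1) (by omega)
    rw [S.Zc_succ] at h2
    exact (Subgroup.mul_mem_cancel_left _ h1).1 h2

theorem StepGen_conj {x : Γ} (hx : x ∈ (S.rs p t₁).H) :
    S.v t₁ * x * (S.v t₁)⁻¹ ∈ (S.rs p t₁).H := by
  have hle : (S.rs p t₁).H ≤
      ((S.rs p t₁).H).comap (MulAut.conj (S.v t₁)).toMonoidHom := by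
    refine (Subgroup.closure_le _).2 ?_
    rintro _ ⟨q, rfl⟩
    show MulAut.conj (S.v t₁) ((S.rs p t₁).v q) ∈ (S.rs p t₁).H
    rw [MulAut.conj_apply]
    match q with
    | none =>
      have : S.v t₁ * (S.rs p t₁).v none * (S.v t₁)⁻¹ = S.v t₁ ^ p := by
        show S.v t₁ * S.v t₁ ^ p * (S.v t₁)⁻¹ = S.v t₁ ^ p
        rw [← pow_succ', pow_succ, mul_inv_cancel_right]
      rw [this]
      exact S.StepGen_none p t₁
    | some (⟨t, ht⟩, ⟨k, hk⟩) =>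
      have h := S.StepGen_Zc2 p t₁ t ht k 1 (by omega)
      have : S.v t₁ * (S.rs p t₁).v (some (⟨t, ht⟩, ⟨k, hk⟩)) * (S.v t₁)⁻¹
          = S.Zc t₁ t k 1 := by
        show S.v t₁ * S.z t₁ t k * (S.v t₁)⁻¹ = S.Zc t₁ t k 1
        simp [Zc]
      rw [this]
      exact h
  have := hle hx
  simpa using this

theorem StepGen_conjpow {x : Γ} (hx : x ∈ (S.rs p t₁).H) (n : ℕ) :
    S.v t₁ ^ n * x * (S.v t₁ ^ n)⁻¹ ∈ (S.rs p t₁).H := by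
  induction n with
  | zero => simpa using hx
  | succ n ih =>
    have h := S.StepGen_conj p t₁ ih
    have e : S.v t₁ ^ (n + 1) * x * (S.v t₁ ^ (n + 1))⁻¹
        = S.v t₁ * (S.v t₁ ^ n * x * (S.v t₁ ^ n)⁻¹) * (S.v t₁)⁻¹ := by
      rw [pow_succ']
      group
    rw [e]
    exact h

theorem StepGen_conjinv {x : Γ} (hx : x ∈ (S.rs p t₁).H) :
    (S.v t₁)⁻¹ * x * S.v t₁ ∈ (S.rs p t₁).H := by
  have h := S.StepGen_conjpow p t₁ hx (p - 1)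
  have hp : 1 ≤ p := (Fact.out : p.Prime).one_lt.le
  have e : (S.v t₁)⁻¹ * x * S.v t₁
      = (S.v t₁ ^ p)⁻¹ * (S.v t₁ ^ (p - 1) * x * (S.v t₁ ^ (p - 1))⁻¹) * S.v t₁ ^ p := by
    have h2 : S.v t₁ ^ p = S.v t₁ ^ (p - 1) * S.v t₁ := by
      rw [← pow_succ, Nat.sub_add_cancel hp]
    rw [h2]
    group
  rw [e]
  exact Subgroup.mul_mem _ (Subgroup.mul_mem _
    (Subgroup.inv_mem _ (S.StepGen_none p t₁)) h) (S.StepGen_none p t₁)

theorem StepGen_conjzpow {x : Γ} (hx : x ∈ (S.rs p t₁).H) (n : ℤ) :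
    S.v t₁ ^ n * x * (S.v t₁ ^ n)⁻¹ ∈ (S.rs p t₁).H := by
  induction n with
  | zero => simpa using hx
  | succ n ih =>
    have h := S.StepGen_conj p t₁ ih
    have e : S.v t₁ ^ ((n : ℤ) + 1) * x * (S.v t₁ ^ ((n : ℤ) + 1))⁻¹
        = S.v t₁ * (S.v t₁ ^ (n : ℤ) * x * (S.v t₁ ^ (n : ℤ))⁻¹) * (S.v t₁)⁻¹ := by
      group
    rw [e]
    exact h
  | pred n ih =>
    have h := S.StepGen_conjinv p t₁ ih
    have e : S.v t₁ ^ (-(n : ℤ) - 1) * x * (S.v t₁ ^ (-(n : ℤ) - 1))⁻¹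
        = (S.v t₁)⁻¹ * (S.v t₁ ^ (-(n : ℤ)) * x * (S.v t₁ ^ (-(n : ℤ)))⁻¹) * S.v t₁ := by
      group
    rw [e]
    exact h

theorem StepGen_decomp {x : Γ} (hx : x ∈ S.H) :
    ∃ h ∈ (S.rs p t₁).H, ∃ n : ℤ, x = h * S.v t₁ ^ n := by
  refine Subgroup.closure_induction (p := fun y _ => ∃ h ∈ (S.rs p t₁).H, ∃ n : ℤ,
    y = h * S.v t₁ ^ n) ?_ ?_ ?_ ?_ hx
  · rintro _ ⟨t, rfl⟩
    by_cases ht : t = t₁
    · exact ⟨1, Subgroup.one_mem _, 1, by simp [ht]⟩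
    · exact ⟨S.z t₁ t 0, S.StepGen_some p t₁ t ht 0 (Fact.out : p.Prime).pos, 0, by simp [z]⟩
  · exact ⟨1, Subgroup.one_mem _, 0, by simp⟩
  · rintro _ _ _ _ ⟨h, hh, n, rfl⟩ ⟨h', hh', n', rfl⟩
    refine ⟨h * (S.v t₁ ^ n * h' * (S.v t₁ ^ n)⁻¹),
      Subgroup.mul_mem _ hh (S.StepGen_conjzpow p t₁ hh' n), n + n', ?_⟩
    rw [zpow_add]
    group
  · rintro _ _ ⟨h, hh, n, rfl⟩
    refine ⟨S.v t₁ ^ (-n) * h⁻¹ * (S.v t₁ ^ (-n))⁻¹,
      S.StepGen_conjzpow p t₁ (Subgroup.inv_mem _ hh) (-n), -n, ?_⟩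
    group

end gens

section rs

variable [Fact p.Prime] (t₁ : S.T) (φ : Γ → ZMod p) (hφ : S.AddOn p φ) (h1 : φ (S.v t₁) = 1)
  (h0 : ∀ t, t ≠ t₁ → φ (S.v t) = 0)

include hφ in
theorem StepGen_hom : ∃ ψ : S.H →* Multiplicative (ZMod p),
    ∀ x : S.H, ψ x = Multiplicative.ofAdd (φ x) := by
  refine ⟨MonoidHom.mk' (fun x => Multiplicative.ofAdd (φ x)) ?_, fun x => rfl⟩
  rintro ⟨x, hx⟩ ⟨y, hy⟩
  show Multiplicative.ofAdd (φ (x * y)) = _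
  rw [hφ x hx y hy, ofAdd_add]

include hφ in
theorem StepGen_one : φ 1 = 0 := by
  have h := hφ 1 (Subgroup.one_mem _) 1 (Subgroup.one_mem _)
  rw [mul_one] at h
  simpa using h

include hφ in
theorem StepGen_inv {x : Γ} (hx : x ∈ S.H) : φ x⁻¹ = - φ x := by
  have h := hφ x hx x⁻¹ (Subgroup.inv_mem _ hx)
  rw [mul_inv_cancel, S.StepGen_one p φ hφ] at h
  exact (neg_eq_of_add_eq_zero_right h.symm).symm

include hφ h1 in
theorem StepGen_zpow (n : ℤ) : φ (S.v t₁ ^ n) = n := by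
  obtain ⟨ψ, hψ⟩ := S.StepGen_hom p φ hφ
  have hv : S.v t₁ ∈ S.H := Subgroup.subset_closure ⟨t₁, rfl⟩
  have h2 := map_zpow ψ ⟨S.v t₁, hv⟩ n
  rw [hψ, hψ] at h2
  have h3 := congrArg Multiplicative.toAdd h2
  rw [toAdd_zpow] at h3
  simp only [toAdd_ofAdd, SubgroupClass.coe_zpow, h1, zsmul_eq_mul, mul_one] at h3
  exact h3

include hφ h1 h0 in
theorem StepGen_z (t : S.T) (ht : t ≠ t₁) (k : ℕ) :
    S.z t₁ t k ∈ S.H ∧ φ (S.z t₁ t k) = 0 := by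
  have ha : S.v t₁ ∈ S.H := Subgroup.subset_closure ⟨t₁, rfl⟩
  induction k with
  | zero => exact ⟨Subgroup.subset_closure ⟨t, rfl⟩, h0 t ht⟩
  | succ k ih =>
    obtain ⟨h2, h3⟩ := ih
    have h4 : S.v t₁ * S.z t₁ t k ∈ S.H := Subgroup.mul_mem _ ha h2
    have h5 : S.v t₁ * S.z t₁ t k * (S.v t₁)⁻¹ ∈ S.H :=
      Subgroup.mul_mem _ h4 (Subgroup.inv_mem _ ha)
    refine ⟨Subgroup.mul_mem _ (Subgroup.inv_mem _ h2) h5, ?_⟩
    show φ ((S.z t₁ t k)⁻¹ * (S.v t₁ * S.z t₁ t k * (S.v t₁)⁻¹)) = 0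
    rw [hφ _ (Subgroup.inv_mem _ h2) _ h5, hφ _ h4 _ (Subgroup.inv_mem _ ha), hφ _ ha _ h2,
      S.StepGen_inv p φ hφ h2, S.StepGen_inv p φ hφ ha, h3, h1]
    ring

include hφ h1 h0

/-- The Reidemeister-Schreier system generates the kernel. -/
theorem mem_rs_H (x : Γ) : x ∈ (S.rs p t₁).H ↔ x ∈ S.H ∧ φ x = 0 := by
  have ha : S.v t₁ ∈ S.H := Subgroup.subset_closure ⟨t₁, rfl⟩
  have hfw : ∀ y, y ∈ (S.rs p t₁).H → y ∈ S.H ∧ φ y = 0 := by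
    intro y hy
    refine Subgroup.closure_induction (p := fun y _ => y ∈ S.H ∧ φ y = 0) ?_ ?_ ?_ ?_ hy
    · rintro _ ⟨q, rfl⟩
      match q with
      | none =>
        refine ⟨Subgroup.pow_mem _ ha p, ?_⟩
        have h := S.StepGen_zpow p t₁ φ hφ h1 (p : ℤ)
        rw [zpow_natCast] at h
        show φ (S.v t₁ ^ p) = 0
        rw [h]
        simp
      | some (⟨t, ht⟩, ⟨k, hk⟩) => exact S.StepGen_z p t₁ φ hφ h1 h0 t ht k
    · exact ⟨Subgroup.one_mem _, S.StepGen_one p φ hφ⟩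
    · rintro a b _ _ ⟨ha1, ha2⟩ ⟨hb1, hb2⟩
      exact ⟨Subgroup.mul_mem _ ha1 hb1, by rw [hφ a ha1 b hb1, ha2, hb2, add_zero]⟩
    · rintro a _ ⟨ha1, ha2⟩
      exact ⟨Subgroup.inv_mem _ ha1, by rw [S.StepGen_inv p φ hφ ha1, ha2, neg_zero]⟩
  refine ⟨hfw x, ?_⟩
  rintro ⟨hx, hφx⟩
  obtain ⟨h, hh, n, rfl⟩ := S.StepGen_decomp p t₁ hx
  obtain ⟨hh1, hh2⟩ := hfw h hh
  rw [hφ h hh1 _ (Subgroup.zpow_mem _ ha n), hh2, zero_add,
    S.StepGen_zpow p t₁ φ hφ h1 n] at hφx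
  have hdvd : (p : ℤ) ∣ n := (ZMod.intCast_zmod_eq_zero_iff_dvd n p).1 hφx
  obtain ⟨m, rfl⟩ := hdvd
  refine Subgroup.mul_mem _ hh ?_
  rw [zpow_mul, zpow_natCast]
  exact Subgroup.zpow_mem _ (S.StepGen_none p t₁) m

theorem Zc_mem_rs_H (t : S.T) (ht : t ≠ t₁) (k i : ℕ) : S.Zc t₁ t k i ∈ (S.rs p t₁).H :=
  S.StepGen_conjpow p t₁ ((S.mem_rs_H p t₁ φ hφ h1 h0 _).2
    (S.StepGen_z p t₁ φ hφ h1 h0 t ht k)) i

end rs

end WSys

end Pool.Agent.TLA
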