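import Pool.Agent.TLA.StepZ

/-! The decomposed filtration is closed under letters. -/

set_option autoImplicit false

namespace Pool.Agent.TLA

variable (p : ℕ) {Γ : Type} [Group Γ]

private theorem stepLetter_shift {R : Type} [Ring R] (V : R) (Y : ℕ → R)
    (hY : ∀ i, V * Y i = Y (i + 1) * V) (m : ℕ) :
    ∀ i, V * (fwdDiff 1)^[m] Y i = (fwdDiff 1)^[m] Y (i + 1) * V := by
  induction m with
  | zero => intro i; simpa using hY i
  | succ m ih =>
    intro i
    rw [Function.iterate_succ_apply', fwdDiff, fwdDiff, mul_sub, sub_mul, ih, ih]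

private theorem stepLetter_pow_mul {R : Type} [Ring R] (V : R) (Y : ℕ → R)
    (hY : ∀ i, V * Y i = Y (i + 1) * V) (k : ℕ) :
    (V - 1) ^ k * Y 0 = ∑ l ∈ Finset.range (k + 1), (k.choose l : R) *
      (fwdDiff 1)^[k - l] Y l * (V - 1) ^ l := by
  induction k with
  | zero => simp
  | succ k ih =>
    have hu : ∀ m i, (V - 1) * (fwdDiff 1)^[m] Y i =
        (fwdDiff 1)^[m + 1] Y i + (fwdDiff 1)^[m] Y (i + 1) * (V - 1) := by
      intro m i
      rw [Function.iterate_succ_apply', fwdDiff, sub_mul, stepLetter_shift V Y hY m i, mul_sub,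
        one_mul, mul_one]
      abel
    rw [pow_succ', mul_assoc, ih, Finset.mul_sum]
    have h1 : ∀ l ∈ Finset.range (k + 1), (V - 1) * ((k.choose l : R) *
        (fwdDiff 1)^[k - l] Y l * (V - 1) ^ l) =
        (k.choose l : R) * (fwdDiff 1)^[k + 1 - l] Y l * (V - 1) ^ l +
        (k.choose l : R) * (fwdDiff 1)^[k - l] Y (l + 1) * (V - 1) ^ (l + 1) := by
      intro l hl
      have hl' : l ≤ k := Nat.lt_succ_iff.1 (Finset.mem_range.1 hl)
      have hc : (V - 1) * (k.choose l : R) = (k.choose l : R) * (V - 1) :=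
        (Nat.cast_commute _ _).eq.symm
      rw [← mul_assoc, ← mul_assoc, hc, mul_assoc (k.choose l : R), hu, Nat.sub_add_comm hl',
        pow_succ' (V - 1) l]
      simp only [mul_add, add_mul, mul_assoc]
    rw [Finset.sum_congr rfl h1, Finset.sum_add_distrib,
      Finset.sum_range_succ' (fun l => (((k + 1).choose l : ℕ) : R) *
        (fwdDiff 1)^[k + 1 - l] Y l * (V - 1) ^ l) (k + 1)]
    have h2 : ∀ l ∈ Finset.range (k + 1), (((k + 1).choose (l + 1) : ℕ) : R) *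
        (fwdDiff 1)^[k + 1 - (l + 1)] Y (l + 1) * (V - 1) ^ (l + 1) =
        (k.choose l : R) * (fwdDiff 1)^[k - l] Y (l + 1) * (V - 1) ^ (l + 1) +
        (k.choose (l + 1) : R) * (fwdDiff 1)^[k + 1 - (l + 1)] Y (l + 1) *
          (V - 1) ^ (l + 1) := by
      intro l _
      rw [Nat.choose_succ_succ, Nat.cast_add, Nat.add_sub_add_right, add_mul, add_mul]
    rw [Finset.sum_congr rfl h2, Finset.sum_add_distrib]
    have h3 : ∑ l ∈ Finset.range (k + 1), (k.choose l : R) * (fwdDiff 1)^[k + 1 - l] Y l *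
        (V - 1) ^ l = ∑ l ∈ Finset.range (k + 1), (k.choose (l + 1) : R) *
        (fwdDiff 1)^[k + 1 - (l + 1)] Y (l + 1) * (V - 1) ^ (l + 1) +
        (((k + 1).choose 0 : ℕ) : R) * (fwdDiff 1)^[k + 1 - 0] Y 0 * (V - 1) ^ 0 := by
      rw [Finset.sum_range_succ' (fun l => (k.choose l : R) * (fwdDiff 1)^[k + 1 - l] Y l *
        (V - 1) ^ l) k, Finset.sum_range_succ (fun l => (k.choose (l + 1) : R) *
        (fwdDiff 1)^[k + 1 - (l + 1)] Y (l + 1) * (V - 1) ^ (l + 1)) k]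
      simp
    rw [h3]
    abel

namespace WSys

variable (S : WSys Γ)

private theorem stepLetter_conj (t₁ : S.T) (x : Γ) (i : ℕ) :
    gr p (S.v t₁) * gr p (S.v t₁ ^ i * x * (S.v t₁ ^ i)⁻¹) =
      gr p (S.v t₁ ^ (i + 1) * x * (S.v t₁ ^ (i + 1))⁻¹) * gr p (S.v t₁) := by
  rw [← gr_mul, ← gr_mul]
  congr 1
  rw [pow_succ']
  group

/-- Moving a group element from the right of `u^k` to the left. -/
theorem pow_mul_gr (t₁ : S.T) (x : Γ) (k : ℕ) :
    (gr p (S.v t₁) - 1) ^ k * gr p x = ∑ l ∈ Finset.range (k + 1), (k.choose l : Alg p Γ) *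
      (fwdDiff 1)^[k - l] (fun i => gr p (S.v t₁ ^ i * x * (S.v t₁ ^ i)⁻¹)) l *
        (gr p (S.v t₁) - 1) ^ l := by
  have h := stepLetter_pow_mul (gr p (S.v t₁))
    (fun i => gr p (S.v t₁ ^ i * x * (S.v t₁ ^ i)⁻¹)) (S.stepLetter_conj p t₁ x) k
  simpa using h

section rs

variable [Fact p.Prime] (t₁ : S.T) (φ : Γ → ZMod p) (hφ : S.AddOn p φ) (h1 : φ (S.v t₁) = 1)
  (h0 : ∀ t, t ≠ t₁ → φ (S.v t) = 0)

/-- The decomposed filtration. -/
private def StepLetterW (c : ℝ) (a : Alg p Γ) : Prop :=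
  ∃ b : Fin p → Alg p Γ, (∀ k : Fin p, b k ∈ (S.rs p t₁).M p (c / S.w t₁ ^ (k : ℕ))) ∧
    a = ∑ k : Fin p, b k * (gr p (S.v t₁) - 1) ^ (k : ℕ)

private theorem stepLetterW_zero (c : ℝ) : S.StepLetterW p t₁ c 0 :=
  ⟨fun _ => 0, fun _ => Submodule.zero_mem _, by simp⟩

private theorem stepLetterW_add {c : ℝ} {a a' : Alg p Γ} (h : S.StepLetterW p t₁ c a)
    (h' : S.StepLetterW p t₁ c a') : S.StepLetterW p t₁ c (a + a') := by
  obtain ⟨b, hb, rfl⟩ := h
  obtain ⟨b', hb', rfl⟩ := h'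
  exact ⟨fun k => b k + b' k, fun k => Submodule.add_mem _ (hb k) (hb' k), by
    simp only [add_mul, Finset.sum_add_distrib]⟩

private theorem stepLetterW_neg {c : ℝ} {a : Alg p Γ} (h : S.StepLetterW p t₁ c a) :
    S.StepLetterW p t₁ c (-a) := by
  obtain ⟨b, hb, rfl⟩ := h
  exact ⟨fun k => -b k, fun k => Submodule.neg_mem _ (hb k), by
    simp only [neg_mul, Finset.sum_neg_distrib]⟩

private theorem stepLetterW_sum {ι : Type} (s : Finset ι) {c : ℝ} {a : ι → Alg p Γ}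
    (h : ∀ i ∈ s, S.StepLetterW p t₁ c (a i)) : S.StepLetterW p t₁ c (∑ i ∈ s, a i) := by
  classical
  induction s using Finset.induction_on with
  | empty => simpa using S.stepLetterW_zero p t₁ c
  | insert i s hi ih =>
    rw [Finset.sum_insert hi]
    exact S.stepLetterW_add p t₁ (h i (Finset.mem_insert_self _ _))
      (ih fun j hj => h j (Finset.mem_insert_of_mem hj))

private theorem stepLetterW_single {c : ℝ} (k : ℕ) (hk : k < p) {b : Alg p Γ}
    (hb : b ∈ (S.rs p t₁).M p (c / S.w t₁ ^ k)) :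
    S.StepLetterW p t₁ c (b * (gr p (S.v t₁) - 1) ^ k) := by
  classical
  refine ⟨fun j => if (j : ℕ) = k then b else 0, fun j => ?_, ?_⟩
  · by_cases h : (j : ℕ) = k
    · simpa [h] using hb
    · simp [h]
  · rw [Finset.sum_eq_single (⟨k, hk⟩ : Fin p)]
    · simp
    · intro j _ hj
      have : (j : ℕ) ≠ k := fun h => hj (Fin.ext h)
      simp [this]
    · intro h
      exact absurd (Finset.mem_univ _) h

/-- Multiplication by the value at `0` of a function in a class. -/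
private theorem stepLetterW_mul {c d : ℝ} {a : Alg p Γ} (ha : S.StepLetterW p t₁ c a)
    (Y : ℕ → Alg p Γ) (hY : ∀ i, gr p (S.v t₁) * Y i = Y (i + 1) * gr p (S.v t₁))
    (hc : Cls ((S.rs p t₁).M p) (S.w t₁) d (p - 1) Y) :
    S.StepLetterW p t₁ (c * d) (a * Y 0) := by
  obtain ⟨b, hb, rfl⟩ := ha
  rw [Finset.sum_mul]
  refine S.stepLetterW_sum p t₁ _ fun k _ => ?_
  rw [mul_assoc, stepLetter_pow_mul (gr p (S.v t₁)) Y hY k, Finset.mul_sum]
  refine S.stepLetterW_sum p t₁ _ fun l hl => ?_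
  have hl' : l ≤ (k : ℕ) := Nat.lt_succ_iff.1 (Finset.mem_range.1 hl)
  have hw : 0 < S.w t₁ := S.w_pos t₁
  rw [← mul_assoc]
  refine S.stepLetterW_single p t₁ l (lt_of_le_of_lt hl' k.2) ?_
  have hm := hc ((k : ℕ) - l) l (by have := k.2; omega)
  have hm2 := (S.rs p t₁).M_mul_mem p (hb k) hm
  have he : c / S.w t₁ ^ (k : ℕ) * (d * S.w t₁ ^ ((k : ℕ) - l)) = c * d / S.w t₁ ^ l := by
    have h2 : S.w t₁ ^ (k : ℕ) = S.w t₁ ^ ((k : ℕ) - l) * S.w t₁ ^ l := by
      rw [← pow_add, Nat.sub_add_cancel hl']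
    rw [h2]
    field_simp
  rw [he] at hm2
  have h3 : b k * ((((k : ℕ).choose l : ℕ) : Alg p Γ) * (fwdDiff 1)^[(k : ℕ) - l] Y l) =
      ((k : ℕ).choose l) • (b k * (fwdDiff 1)^[(k : ℕ) - l] Y l) := by
    rw [nsmul_eq_mul, ← mul_assoc, ← mul_assoc, (Nat.cast_commute _ _).eq]
  rw [h3]
  exact Submodule.smul_of_tower_mem _ _ hm2

private theorem stepLetterW_le {c d : ℝ} (h : c ≤ d) {a : Alg p Γ}
    (ha : S.StepLetterW p t₁ c a) : S.StepLetterW p t₁ d a := by
  obtain ⟨b, hb, rfl⟩ := ha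
  exact ⟨b, fun k => (S.rs p t₁).M_mono p
    (div_le_div_of_nonneg_right h (pow_pos (S.w_pos t₁) _).le) (hb k), rfl⟩

private theorem stepLetterW_neg_bound {c : ℝ} (hc : c < 0) {a : Alg p Γ}
    (ha : S.StepLetterW p t₁ c a) : a = 0 := by
  obtain ⟨b, hb, rfl⟩ := ha
  refine Finset.sum_eq_zero fun k _ => ?_
  have h := hb k
  rw [(S.rs p t₁).M_eq_bot p (div_neg_of_neg_of_pos hc (pow_pos (S.w_pos t₁) _)).le,
    Submodule.mem_bot] at h
  rw [h, zero_mul]

include hφ h1 h0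

private theorem stepLetterW_u {c : ℝ} {a : Alg p Γ} (ha : S.StepLetterW p t₁ c a) :
    S.StepLetterW p t₁ (c * S.w t₁) (a * (gr p (S.v t₁) - 1)) := by
  obtain ⟨b, hb, rfl⟩ := ha
  have hw : 0 < S.w t₁ := S.w_pos t₁
  have hp : p.Prime := Fact.out
  rw [Finset.sum_mul]
  refine S.stepLetterW_sum p t₁ _ fun k _ => ?_
  rw [mul_assoc, ← pow_succ]
  have : CharP (Alg p Γ) p :=
    charP_of_injective_algebraMap (algebraMap (ZMod p) (Alg p Γ)).injective p
  by_cases hk : (k : ℕ) + 1 < p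
  · refine S.stepLetterW_single p t₁ _ hk ?_
    have he : c * S.w t₁ / S.w t₁ ^ ((k : ℕ) + 1) = c / S.w t₁ ^ (k : ℕ) := by
      rw [pow_succ]; field_simp
    rw [he]
    exact hb k
  · have hk' : (k : ℕ) + 1 = p := by have := k.2; omega
    have h2 : (gr p (S.v t₁) - 1) ^ ((k : ℕ) + 1) = gr p (S.v t₁ ^ p) - 1 := by
      rw [hk', sub_pow_char_of_commute _ (Commute.one_right _), one_pow]
      congr 1
      have : ∀ n : ℕ, gr p (S.v t₁) ^ n = gr p (S.v t₁ ^ n) := by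
        intro n
        induction n with
        | zero => rw [pow_zero, pow_zero, gr_one]
        | succ n ih => rw [pow_succ, pow_succ, ih, gr_mul]
      exact this p
    have h3 := (S.rs p t₁).M_mul_mem p (hb k) ((S.rs p t₁).v_mem_M p none)
    have h4 := S.stepLetterW_single p t₁ (c := c * S.w t₁) 0 hp.pos
      (b := b k * (gr p (S.v t₁ ^ p) - 1)) (by
        have he : c * S.w t₁ / S.w t₁ ^ 0 = c / S.w t₁ ^ (k : ℕ) * S.w t₁ ^ p := by
          have hpow : S.w t₁ ^ p = S.w t₁ ^ (k : ℕ) * S.w t₁ := by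
            rw [← pow_succ]; exact congrArg _ hk'.symm
          rw [hpow, pow_zero]; field_simp
        rw [he]
        exact h3)
    rw [h2]
    simpa using h4

private theorem stepLetterW_V {c : ℝ} {a : Alg p Γ} (ha : S.StepLetterW p t₁ c a) :
    S.StepLetterW p t₁ c (a * gr p (S.v t₁)) := by
  rcases lt_or_ge c 0 with hc | hc
  · rw [S.stepLetterW_neg_bound p t₁ hc ha, zero_mul]
    exact S.stepLetterW_zero p t₁ c
  · have h2 := S.stepLetterW_u p t₁ φ hφ h1 h0 ha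
    have h3 : c * S.w t₁ ≤ c := by
      have := (S.w_lt t₁).le
      nlinarith
    have h4 := S.stepLetterW_add p t₁ (S.stepLetterW_le p t₁ h3 h2) ha
    have h5 : a * gr p (S.v t₁) = a * (gr p (S.v t₁) - 1) + a := by
      rw [mul_sub, mul_one, sub_add_cancel]
    rw [h5]
    exact h4

private theorem stepLetterW_Vinv {c : ℝ} {a : Alg p Γ} (ha : S.StepLetterW p t₁ c a) :
    S.StepLetterW p t₁ c (a * gr p (S.v t₁)⁻¹) := by
  have hp : p.Prime := Fact.out
  have h2 : ∀ n : ℕ, S.StepLetterW p t₁ c (a * gr p (S.v t₁ ^ n)) := by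
    intro n
    induction n with
    | zero => rw [pow_zero, gr_one, mul_one]; exact ha
    | succ n ih =>
      rw [pow_succ, gr_mul, ← mul_assoc]
      exact S.stepLetterW_V p t₁ φ hφ h1 h0 ih
  obtain ⟨b, hb, hab⟩ := h2 (p - 1)
  have h3 : gr p (S.v t₁)⁻¹ = gr p (S.v t₁ ^ (p - 1)) * gr p (S.v t₁ ^ p)⁻¹ := by
    rw [← gr_mul]
    congr 1
    have h4 : S.v t₁ ^ p = S.v t₁ * S.v t₁ ^ (p - 1) := by
      rw [← pow_succ', Nat.sub_add_cancel hp.one_le]
    rw [h4]
    group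
  have h5 : gr p (S.v t₁ ^ p)⁻¹ ∈ sa p (S.rs p t₁).H := by
    refine gr_mem_sa p (Subgroup.inv_mem _ ?_)
    exact (S.rs p t₁).v_mem_H none
  have h6 : Commute (gr p (S.v t₁ ^ p)⁻¹) (gr p (S.v t₁) - 1) := by
    refine Commute.sub_right ?_ (Commute.one_right _)
    show gr p (S.v t₁ ^ p)⁻¹ * gr p (S.v t₁) = gr p (S.v t₁) * gr p (S.v t₁ ^ p)⁻¹
    rw [← gr_mul, ← gr_mul]
    congr 1
    exact (((Commute.refl (S.v t₁)).pow_left p).inv_left).eq
  rw [h3, ← mul_assoc, hab, Finset.sum_mul]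
  refine ⟨fun k => b k * gr p (S.v t₁ ^ p)⁻¹, fun k =>
    (S.rs p t₁).M_mul_mem_right p (hb k) h5, Finset.sum_congr rfl fun k _ => ?_⟩
  rw [mul_assoc, mul_assoc, (h6.pow_right _).eq]

/-- The decomposed filtration is closed under multiplication by letters. -/
theorem decomp_letter (c : ℝ) (a : Alg p Γ)
    (ha : ∃ b : Fin p → Alg p Γ, (∀ k : Fin p, b k ∈ (S.rs p t₁).M p (c / S.w t₁ ^ (k : ℕ))) ∧
      a = ∑ k : Fin p, b k * (gr p (S.v t₁) - 1) ^ (k : ℕ)) (q : S.T × Bool) :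
    ∃ b : Fin p → Alg p Γ,
      (∀ k : Fin p, b k ∈ (S.rs p t₁).M p (c * S.w q.1 / S.w t₁ ^ (k : ℕ))) ∧
      a * S.letter p q = ∑ k : Fin p, b k * (gr p (S.v t₁) - 1) ^ (k : ℕ) := by
  have ha' : S.StepLetterW p t₁ c a := ha
  show S.StepLetterW p t₁ (c * S.w q.1) (a * S.letter p q)
  have hp : p.Prime := Fact.out
  obtain ⟨t, e⟩ := q
  show S.StepLetterW p t₁ (c * S.w t) (a * S.letter p (t, e))
  by_cases ht : t = t₁
  · subst ht
    cases e with
    | true =>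
      have h2 : S.letter p (t, true) = gr p (S.v t) - 1 := by simp [letter]
      rw [h2]
      exact S.stepLetterW_u p t φ hφ h1 h0 ha'
    | false =>
      have h2 : S.letter p (t, false) = -((gr p (S.v t) - 1) * gr p (S.v t)⁻¹) := by
        rw [sub_mul, ← gr_mul, mul_inv_cancel, gr_one, one_mul, neg_sub]
        simp [letter]
      rw [h2, mul_neg, ← mul_assoc]
      exact S.stepLetterW_neg p t (S.stepLetterW_Vinv p t φ hφ h1 h0
        (S.stepLetterW_u p t φ hφ h1 h0 ha'))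
  · have hZ := S.cls_Zc_sub_one p t₁ φ hφ h1 h0 t ht 0 hp.pos
    have hI := S.cls_Zc_inv p t₁ φ hφ h1 h0 t ht 0 hp.pos
    rw [pow_zero, mul_one, Nat.sub_zero] at hZ
    rw [Nat.sub_zero] at hI
    have hz : ∀ i, S.Zc t₁ t 0 i = S.v t₁ ^ i * S.v t * (S.v t₁ ^ i)⁻¹ := fun i => rfl
    have hY1 : ∀ i, gr p (S.v t₁) * (gr p (S.Zc t₁ t 0 i) - 1) =
        (gr p (S.Zc t₁ t 0 (i + 1)) - 1) * gr p (S.v t₁) := by
      intro i
      rw [mul_sub, sub_mul, hz, hz, S.stepLetter_conj p t₁ (S.v t) i, mul_one, one_mul]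
    have hY2 : ∀ i, gr p (S.v t₁) * gr p (S.Zc t₁ t 0 i)⁻¹ =
        gr p (S.Zc t₁ t 0 (i + 1))⁻¹ * gr p (S.v t₁) := by
      intro i
      have h3 : ∀ j, (S.Zc t₁ t 0 j)⁻¹ = S.v t₁ ^ j * (S.v t)⁻¹ * (S.v t₁ ^ j)⁻¹ := by
        intro j
        rw [hz]
        group
      rw [h3, h3, S.stepLetter_conj p t₁ (S.v t)⁻¹ i]
    have hv : S.Zc t₁ t 0 0 = S.v t := by rw [Zc_zero]; rfl
    have h4 := S.stepLetterW_mul p t₁ ha' _ hY1 hZ
    simp only [hv] at h4
    cases e with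
    | true =>
      have h2 : S.letter p (t, true) = gr p (S.v t) - 1 := by simp [letter]
      rw [h2]
      exact h4
    | false =>
      have h2 : S.letter p (t, false) = -((gr p (S.v t) - 1) * gr p (S.v t)⁻¹) := by
        rw [sub_mul, ← gr_mul, mul_inv_cancel, gr_one, one_mul, neg_sub]
        simp [letter]
      have h5 := S.stepLetterW_mul p t₁ h4 _ hY2 hI
      simp only [hv, mul_one] at h5
      rw [h2, mul_neg, ← mul_assoc]
      exact S.stepLetterW_neg p t₁ h5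

end rs

end WSys

end Pool.Agent.TLA
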