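import Pool.Agent.TLA.StepPres
import Pool.Agent.TLA.StepBC

/-! The index `p` step. -/

set_option autoImplicit false

namespace Pool.Agent.TLA

variable (p : ℕ) {Γ : Type} [Group Γ]

namespace WSys

variable (S : WSys Γ)

/-- The linear functional with values `φ g` on the group elements. -/
private noncomputable def stepMainPsi (φ : Γ → ZMod p) : Alg p Γ →ₗ[ZMod p] ZMod p where
  toFun a := Finsupp.linearCombination (ZMod p) φ a.coeff
  map_add' a b := by rw [MonoidAlgebra.coeff_add, map_add]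
  map_smul' r a := by rw [MonoidAlgebra.coeff_smul, map_smul]; rfl

private theorem stepMain_psi_gr (φ : Γ → ZMod p) (g : Γ) :
    stepMainPsi p φ (gr p g) = φ g := by
  show Finsupp.linearCombination (ZMod p) φ (gr p g).coeff = φ g
  have e : (gr p g).coeff = Finsupp.single g 1 := rfl
  rw [e, Finsupp.linearCombination_single, one_smul]

private theorem stepMain_psi_mul (φ : Γ → ZMod p) (hφ : S.AddOn p φ) {v : Γ} (hv : v ∈ S.H)
    {a : Alg p Γ} (ha : a ∈ sa p S.H) :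
    stepMainPsi p φ (a * (gr p v - 1)) = aug p a * φ v := by
  unfold sa at ha
  induction ha using Submodule.span_induction with
  | mem a ha =>
    obtain ⟨g, hg, rfl⟩ := ha
    rw [mul_sub, mul_one, ← gr_mul, map_sub, stepMain_psi_gr, stepMain_psi_gr, aug_gr,
      hφ g hg v hv, one_mul]
    ring
  | zero => rw [zero_mul, map_zero, map_zero, zero_mul]
  | add a b _ _ ha hb => rw [add_mul, map_add, ha, hb, map_add, add_mul]
  | smul k a _ ha => rw [smul_mul_assoc, map_smul, ha, map_smul, smul_mul_assoc]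

/-- A generator outside the kernel whose weight is exactly the norm of an element outside. -/
theorem exists_t₁ [Fact p.Prime] (φ : Γ → ZMod p) (hφ : S.AddOn p φ) {c : ℝ} (hc : 0 < c)
    (hout : ∀ h ∈ S.H, φ h ≠ 0 → c ≤ S.n p h)
    {h₀ : Γ} (hh₀ : h₀ ∈ S.H) (hφ₀ : φ h₀ ≠ 0) (hn₀ : S.n p h₀ ≤ c) :
    ∃ t₁ : S.T, φ (S.v t₁) ≠ 0 ∧ S.w t₁ = c ∧ ∀ t, φ (S.v t) ≠ 0 → c ≤ S.w t := by
  classical
  have hmin : ∀ t, φ (S.v t) ≠ 0 → c ≤ S.w t := fun t ht =>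
    (hout _ (S.v_mem_H t) ht).trans (S.n_v_le p t)
  have hM : gr p h₀ - 1 ∈ S.M p c := (S.n_le_iff p hc hh₀).1 hn₀
  have haug : aug p (gr p h₀ - 1) = 0 := by rw [map_sub, aug_gr, aug_one, sub_self]
  obtain ⟨b, hb, hd⟩ := S.exists_d_eq p hc hM haug
  have hφ1 : φ 1 = 0 := by
    have h := hφ 1 S.H.one_mem 1 S.H.one_mem
    rw [mul_one] at h
    exact left_eq_add.1 h
  have h1 : stepMainPsi p φ (S.d p b) = φ h₀ := by
    rw [hd, map_sub, stepMain_psi_gr, ← gr_one, stepMain_psi_gr, hφ1, sub_zero]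
  have h2 : stepMainPsi p φ (S.d p b) = ∑ t, aug p (b t) * φ (S.v t) := by
    unfold d
    rw [map_sum]
    exact Finset.sum_congr rfl fun t _ =>
      stepMain_psi_mul p S φ hφ (S.v_mem_H t) (S.M_le_sa p _ (hb t))
  have h3 : ∑ t, aug p (b t) * φ (S.v t) ≠ 0 := by
    rw [← h2, h1]
    exact hφ₀
  obtain ⟨t, -, ht⟩ := Finset.exists_ne_zero_of_sum_ne_zero h3
  have ht1 : φ (S.v t) ≠ 0 := right_ne_zero_of_mul ht
  have ht2 : aug p (b t) ≠ 0 := left_ne_zero_of_mul ht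
  refine ⟨t, ht1, le_antisymm ?_ (hmin t ht1), hmin⟩
  by_contra hlt
  have hlt' : c < S.w t := not_le.1 hlt
  exact ht2 (S.aug_eq_zero p ((div_lt_one (S.w_pos t)).2 hlt') (hb t))

/-- The index `p` step. -/
theorem exists_step [Fact p.Prime] {D : ℝ} (hD : S.HasDef p D) (φ : Γ → ZMod p)
    (hφ : S.AddOn p φ) {c : ℝ} (hc : 0 < c) (hout : ∀ h ∈ S.H, φ h ≠ 0 → c ≤ S.n p h)
    {h₀ : Γ} (hh₀ : h₀ ∈ S.H) (hφ₀ : φ h₀ ≠ 0) (hn₀ : S.n p h₀ ≤ c) :
    ∃ S' : WSys Γ, (∀ x, x ∈ S'.H ↔ x ∈ S.H ∧ φ x = 0) ∧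
      (∀ d, S'.M p d = S.M p d ⊓ sa p S'.H) ∧ S'.HasDef p (D * tau p c) := by
  classical
  obtain ⟨t₁, ht₁, hw, hmin⟩ := S.exists_t₁ p φ hφ hc hout hh₀ hφ₀ hn₀
  set φ' : Γ → ZMod p := fun x => φ x * (φ (S.v t₁))⁻¹ with hφ'
  have hadd : S.AddOn p φ' := by
    intro x hx y hy
    simp only [hφ', hφ x hx y hy, add_mul]
  have hone : φ' 1 = 0 := by
    have := hadd 1 S.H.one_mem 1 S.H.one_mem
    simpa using this
  have hinv : ∀ x ∈ S.H, φ' x⁻¹ = - φ' x := by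
    intro x hx
    have := hadd x hx x⁻¹ (S.H.inv_mem hx)
    rw [mul_inv_cancel, hone] at this
    rw [eq_neg_iff_add_eq_zero, add_comm]; exact this.symm
  have hpow : ∀ x ∈ S.H, ∀ n : ℕ, φ' (x ^ n) = n * φ' x := by
    intro x hx n
    induction n with
    | zero => simp [hone]
    | succ n ih =>
      rw [pow_succ, hadd _ (S.H.pow_mem hx n) _ hx, ih]
      push_cast; ring
  set k : S.T → ℕ := fun t => if t = t₁ then 0 else (φ' (S.v t)).val with hk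
  have hφ1 : φ' (S.v t₁) = 1 := by
    simp only [hφ']; exact mul_inv_cancel₀ ht₁
  have hkw : ∀ t, k t ≠ 0 → S.w t₁ ≤ S.w t := by
    intro t hkt
    rw [hw]
    apply hmin
    intro h0
    apply hkt
    simp only [hk]
    split_ifs
    · rfl
    · simp [hφ', h0]
  have hadd1 : (S.bc t₁ k).AddOn p φ' := by
    intro x hx y hy
    rw [S.bc_H t₁ k] at hx hy
    exact hadd x hx y hy
  have h11 : φ' ((S.bc t₁ k).v t₁) = 1 := by
    simp [WSys.bc, hφ1]
  have h10 : ∀ t, t ≠ t₁ → φ' ((S.bc t₁ k).v t) = 0 := by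
    intro t ht
    simp only [WSys.bc, if_neg ht]
    rw [hadd _ (S.v_mem_H t) _ (S.H.inv_mem (S.H.pow_mem (S.v_mem_H t₁) _)),
      hinv _ (S.H.pow_mem (S.v_mem_H t₁) _), hpow _ (S.v_mem_H t₁), hφ1]
    simp [hk, ht]
  refine ⟨(S.bc t₁ k).rs p t₁, ?_, ?_, ?_⟩
  · intro x
    rw [(S.bc t₁ k).mem_rs_H p t₁ φ' hadd1 h11 h10 x, S.bc_H t₁ k]
    simp [hφ', ht₁]
  · intro d
    rw [(S.bc t₁ k).rs_M_eq p t₁ φ' hadd1 h11 h10 d, S.bc_M p t₁ k hkw d]
  · have := (S.bc t₁ k).rs_hasDef p t₁ φ' hadd1 h11 h10 (S.bc_hasDef p t₁ k hkw hD)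
    rw [show (S.bc t₁ k).w t₁ = c from hw] at this
    exact this

end WSys

end Pool.Agent.TLA
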