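import Pool.Agent.TLA.PresGen
import Pool.Agent.TLA.PresM

/-! The presentation of the Reidemeister-Schreier system. -/

set_option autoImplicit false

namespace Pool.Agent.TLA

variable (p : ℕ) {Γ : Type} [Group Γ]

namespace WSys

variable (S : WSys Γ)

section rs

variable [Fact p.Prime] (t₁ : S.T)

variable (φ : Γ → ZMod p)

variable (hφ : S.AddOn p φ) (h1 : φ (S.v t₁) = 1) (h0 : ∀ t, t ≠ t₁ → φ (S.v t) = 0)

include hφ h1 h0

/-- The new system has a presentation, of deficiency multiplied by `tau`. -/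
theorem rs_hasDef {D : ℝ} (hD : S.HasDef p D) :
    (S.rs p t₁).HasDef p (D * tau p (S.w t₁)) := by
  obtain ⟨R, hR, ρ, ν, hG, hν, hs, hm, rfl⟩ := hD
  have hw0 : 0 < S.w t₁ := S.w_pos t₁
  have hfin : Summable (fun k : Fin p => S.w t₁ ^ (k : ℕ)) := (hasSum_fintype _).summable
  have hprod : Summable (fun x : R × Fin p => ν x.1 * S.w t₁ ^ (x.2 : ℕ)) :=
    Summable.mul_of_nonneg hs hfin (fun r => (hν r).le) (fun k => pow_nonneg hw0.le _)
  refine ⟨R × Fin p, inferInstance, fun x : R × Fin p =>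
      S.prm p t₁ φ (fun t => (gr p (S.v t₁) - 1) ^ (x.2 : ℕ) * ρ x.1 t),
      fun x => ν x.1 * S.w t₁ ^ (x.2 : ℕ), S.rs_gen p t₁ φ hφ h1 h0 ρ hG,
      fun x => mul_pos (hν _) (pow_pos hw0 _), hprod, ?_, ?_⟩
  · intro x q
    apply S.prm_mem_M p t₁ φ hφ h1 h0 (ν x.1 * S.w t₁ ^ (x.2 : ℕ))
    intro t
    have h2 := S.M_mul_mem p (S.filt_pow_mem p (S.v_mem_M p t₁) x.2) (hm x.1 t)
    have h3 : S.w t₁ ^ (x.2 : ℕ) * (ν x.1 / S.w t) = ν x.1 * S.w t₁ ^ (x.2 : ℕ) / S.w t := by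
      ring
    rw [h3] at h2
    exact h2
  · have htau : ∑ k : Fin p, S.w t₁ ^ (k : ℕ) = tau p (S.w t₁) :=
      Fin.sum_univ_eq_sum_range (fun k => S.w t₁ ^ k) p
    have hgeo : tau p (S.w t₁) * (S.w t₁ - 1) = S.w t₁ ^ p - 1 := geom_sum_mul _ _
    have hsum : ∑ q, (S.rs p t₁).w q =
        S.w t₁ ^ p + (∑ t : {t : S.T // t ≠ t₁}, S.w t) * tau p (S.w t₁) := by
      have e1 : ∑ q, (S.rs p t₁).w q = ∑ q : Option ({t : S.T // t ≠ t₁} × Fin p),
          (match q with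
            | none => S.w t₁ ^ p
            | some q => S.w q.1 * S.w t₁ ^ (q.2 : ℕ)) := rfl
      rw [e1, Fintype.sum_option, Fintype.sum_prod_type, Finset.sum_mul]
      congr 1
      refine Finset.sum_congr rfl fun t _ => ?_
      rw [← htau, Finset.mul_sum]
    have hW : ∑ t, S.w t = S.w t₁ + ∑ t : {t : S.T // t ≠ t₁}, S.w t :=
      Fintype.sum_eq_add_sum_subtype_ne S.w t₁
    have hts : ∑' x : R × Fin p, ν x.1 * S.w t₁ ^ (x.2 : ℕ) =
        (∑' r, ν r) * tau p (S.w t₁) := by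
      have e2 : ∑' k : Fin p, S.w t₁ ^ (k : ℕ) = tau p (S.w t₁) := by
        rw [tsum_fintype, htau]
      rw [← hs.tsum_mul_tsum hfin hprod, e2]
    rw [hsum, hW, hts]
    linear_combination hgeo

end rs

end WSys

end Pool.Agent.TLA
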