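import Pool.Agent.TLA.StepGen

/-! The decomposition of the group algebra. -/

set_option autoImplicit false

namespace Pool.Agent.TLA

variable (p : ℕ) {Γ : Type} [Group Γ]

namespace WSys

variable (S : WSys Γ)

section StepRSHelpers

variable (t₁ : S.T) (φ : Γ → ZMod p)

private theorem StepRS_phi_one (hφ : S.AddOn p φ) : φ 1 = 0 := by
  have h := hφ 1 S.H.one_mem 1 S.H.one_mem
  rw [mul_one] at h
  exact left_eq_add.1 h

private theorem StepRS_phi_inv (hφ : S.AddOn p φ) {x : Γ} (hx : x ∈ S.H) : φ x⁻¹ = -φ x := by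
  have h := hφ x hx x⁻¹ (S.H.inv_mem hx)
  rw [mul_inv_cancel, StepRS_phi_one p S φ hφ] at h
  exact (neg_eq_of_add_eq_zero_right h.symm).symm

private theorem StepRS_phi_pow (hφ : S.AddOn p φ) (h1 : φ (S.v t₁) = 1) (i : ℕ) :
    φ (S.v t₁ ^ i) = i := by
  induction i with
  | zero => rw [pow_zero, StepRS_phi_one p S φ hφ, Nat.cast_zero]
  | succ i ih =>
    rw [pow_succ, hφ _ (S.H.pow_mem (S.v_mem_H t₁) i) _ (S.v_mem_H t₁), ih, h1, Nat.cast_succ]

/-- The binomial expansion of a power of `v_1`. -/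
private theorem StepRS_binom (g : Γ) (i : ℕ) (hi : i < p) :
    gr p (g ^ i) = ∑ k : Fin p, (i.choose k) • (gr p g - 1) ^ (k : ℕ) := by
  have e1 : gr p (g ^ i) = ((gr p g - 1) + 1) ^ i := by
    rw [sub_add_cancel, WSys.filt_gr_pow]
  rw [e1, (Commute.one_right _).add_pow]
  rw [Fin.sum_univ_eq_sum_range (fun k => (i.choose k) • (gr p g - 1) ^ k) p]
  rw [← Finset.sum_subset (Finset.range_subset_range.2 (Nat.succ_le_of_lt hi))]
  · refine Finset.sum_congr rfl fun k _ => ?_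
    rw [one_pow, mul_one, nsmul_eq_mul]
    exact (Nat.cast_commute _ _).symm
  · intro k _ hk
    have hk' : i < k := by
      by_contra hlt
      exact hk (Finset.mem_range.2 (by omega))
    rw [Nat.choose_eq_zero_of_lt hk', zero_smul]

/-- The recursion for the coefficients of `b u^(k+1)`. -/
private theorem StepRS_coeff_succ (b : Alg p Γ) (v g : Γ) (k : ℕ) :
    (b * (gr p v - 1) ^ (k + 1)).coeff g =
      (b * (gr p v - 1) ^ k).coeff (g * v⁻¹) - (b * (gr p v - 1) ^ k).coeff g := by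
  rw [pow_succ, ← mul_assoc, mul_sub, mul_one]
  rw [MonoidAlgebra.coeff_sub, Finsupp.sub_apply]
  unfold gr
  rw [MonoidAlgebra.coeff_mul_single_apply, mul_one]

/-- `b u^k` is supported on the cosets `K v^i`, `i ≤ k`. -/
private theorem StepRS_supp (hφ : S.AddOn p φ) (h1 : φ (S.v t₁) = 1)
    {K : Subgroup Γ} (hK : ∀ x, x ∈ K ↔ x ∈ S.H ∧ φ x = 0) (b : Alg p Γ) (hb : b ∈ sa p K)
    (k : ℕ) : ∀ g : Γ, (g ∉ S.H ∨ ∀ i : ℕ, i ≤ k → φ g ≠ i) →
      (b * (gr p (S.v t₁) - 1) ^ k).coeff g = 0 := by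
  induction k with
  | zero =>
    intro g hg
    rw [pow_zero, mul_one]
    refine (mem_sa_iff p b).1 hb g ?_
    intro hgK
    rcases hg with hg | hg
    · exact hg ((hK g).1 hgK).1
    · refine hg 0 le_rfl ?_
      rw [((hK g).1 hgK).2, Nat.cast_zero]
  | succ k ih =>
    intro g hg
    rw [StepRS_coeff_succ]
    have hv : (S.v t₁)⁻¹ ∈ S.H := S.H.inv_mem (S.v_mem_H t₁)
    have e1 : (b * (gr p (S.v t₁) - 1) ^ k).coeff (g * (S.v t₁)⁻¹) = 0 := by
      refine ih _ ?_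
      by_cases hgH : g ∈ S.H
      · right
        intro i hi he
        rcases hg with hg | hg
        · exact hg hgH
        · refine hg (i + 1) (by omega) ?_
          rw [hφ g hgH _ hv, StepRS_phi_inv p S φ hφ (S.v_mem_H t₁), h1] at he
          rw [Nat.cast_succ, ← he]
          ring
      · left
        intro h
        refine hgH ?_
        have := S.H.mul_mem h (S.v_mem_H t₁)
        rwa [inv_mul_cancel_right] at this
    have e2 : (b * (gr p (S.v t₁) - 1) ^ k).coeff g = 0 := by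
      refine ih _ ?_
      rcases hg with hg | hg
      · exact Or.inl hg
      · exact Or.inr fun i hi => hg i (by omega)
    rw [e1, e2, sub_zero]

/-- The top coefficients of `b u^k`. -/
private theorem StepRS_top [Fact p.Prime] (hφ : S.AddOn p φ) (h1 : φ (S.v t₁) = 1)
    {K : Subgroup Γ} (hK : ∀ x, x ∈ K ↔ x ∈ S.H ∧ φ x = 0) (b : Alg p Γ) (hb : b ∈ sa p K)
    (k : ℕ) (hk : k < p) (h : Γ) (hh : h ∈ K) :
    (b * (gr p (S.v t₁) - 1) ^ k).coeff (h * S.v t₁ ^ k) = b.coeff h := by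
  induction k with
  | zero => rw [pow_zero, mul_one, pow_zero, mul_one]
  | succ k ih =>
    rw [StepRS_coeff_succ]
    have e1 : h * S.v t₁ ^ (k + 1) * (S.v t₁)⁻¹ = h * S.v t₁ ^ k := by
      rw [pow_succ, ← mul_assoc, mul_inv_cancel_right]
    rw [e1, ih (by omega)]
    have e2 : (b * (gr p (S.v t₁) - 1) ^ k).coeff (h * S.v t₁ ^ (k + 1)) = 0 := by
      refine StepRS_supp p S t₁ φ hφ h1 hK b hb k _ (Or.inr ?_)
      intro i hi he
      obtain ⟨hH, h00⟩ := (hK h).1 hh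
      rw [hφ h hH _ (S.H.pow_mem (S.v_mem_H t₁) _), h00, zero_add,
        StepRS_phi_pow p S t₁ φ hφ h1] at he
      rw [ZMod.natCast_eq_natCast_iff'] at he
      rw [Nat.mod_eq_of_lt hk, Nat.mod_eq_of_lt (by omega)] at he
      omega
    rw [e2, sub_zero]

private theorem StepRS_z_mem_H (t : S.T) (k : ℕ) : S.z t₁ t k ∈ S.H := by
  induction k with
  | zero => exact S.v_mem_H t
  | succ k ih =>
    exact S.H.mul_mem (S.H.inv_mem ih)
      (S.H.mul_mem (S.H.mul_mem (S.v_mem_H t₁) ih) (S.H.inv_mem (S.v_mem_H t₁)))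

private theorem StepRS_z_mem_M (t : S.T) (k : ℕ) :
    gr p (S.z t₁ t k) - 1 ∈ S.M p (S.w t * S.w t₁ ^ k) := by
  induction k with
  | zero =>
    rw [pow_zero, mul_one]
    exact S.v_mem_M p t
  | succ k ih =>
    have hz := StepRS_z_mem_H S t₁ t k
    have h := S.comm_mem_M p (S.H.inv_mem hz) (S.v_mem_H t₁) (S.inv_mem_M p hz ih)
      (S.v_mem_M p t₁)
    have e : S.z t₁ t (k + 1) =
        (S.z t₁ t k)⁻¹ * S.v t₁ * (S.z t₁ t k)⁻¹⁻¹ * (S.v t₁)⁻¹ := by
      show (S.z t₁ t k)⁻¹ * (S.v t₁ * S.z t₁ t k * (S.v t₁)⁻¹) = _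
      group
    rw [e, pow_succ, ← mul_assoc]
    exact h

private theorem StepRS_v_mem_H [Fact p.Prime] (q : (S.rs p t₁).T) : (S.rs p t₁).v q ∈ S.H := by
  rcases q with _ | q
  · exact S.H.pow_mem (S.v_mem_H t₁) p
  · exact StepRS_z_mem_H S t₁ q.1 q.2

private theorem StepRS_v_mem_M [Fact p.Prime] (q : (S.rs p t₁).T) :
    gr p ((S.rs p t₁).v q) - 1 ∈ S.M p ((S.rs p t₁).w q) := by
  rcases q with _ | q
  · exact S.pow_mem_M p (S.v_mem_M p t₁)
  · exact StepRS_z_mem_M p S t₁ q.1 q.2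

private theorem StepRS_letter_mem [Fact p.Prime] (q : (S.rs p t₁).T × Bool) :
    (S.rs p t₁).letter p q ∈ S.M p ((S.rs p t₁).w q.1) := by
  unfold letter
  split_ifs
  · exact StepRS_v_mem_M p S t₁ q.1
  · exact S.inv_mem_M p (StepRS_v_mem_H p S t₁ q.1) (StepRS_v_mem_M p S t₁ q.1)

private theorem StepRS_mono_mem [Fact p.Prime] (l : List ((S.rs p t₁).T × Bool)) :
    (S.rs p t₁).mono p l ∈ S.M p ((S.rs p t₁).wt l) := by
  induction l with
  | nil =>
    have e1 : (S.rs p t₁).mono p [] = 1 := by simp [mono]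
    have e2 : (S.rs p t₁).wt [] = 1 := by simp [wt]
    rw [e1, e2, S.M_eq_sa p le_rfl]
    exact one_mem_sa p _
  | cons q l ih =>
    have e1 : (S.rs p t₁).mono p (q :: l) = (S.rs p t₁).letter p q * (S.rs p t₁).mono p l := by
      simp [mono]
    have e2 : (S.rs p t₁).wt (q :: l) = (S.rs p t₁).w q.1 * (S.rs p t₁).wt l := by simp [wt]
    rw [e1, e2]
    exact S.M_mul_mem p (StepRS_letter_mem p S t₁ q) ih

end StepRSHelpers

section rs

variable [Fact p.Prime] (t₁ : S.T) (φ : Γ → ZMod p) (hφ : S.AddOn p φ) (h1 : φ (S.v t₁) = 1)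
  (h0 : ∀ t, t ≠ t₁ → φ (S.v t) = 0)

include hφ h1 h0

/-- Every element of the group algebra of `S.H` is uniquely `∑ a_k u^k`. -/
theorem exists_comp (a : Alg p Γ) (ha : a ∈ sa p S.H) :
    ∃ b : Fin p → Alg p Γ, (∀ k : Fin p, b k ∈ sa p (S.rs p t₁).H) ∧
      a = ∑ k : Fin p, b k * (gr p (S.v t₁) - 1) ^ (k : ℕ) := by
  have hK := S.mem_rs_H p t₁ φ hφ h1 h0
  induction ha using Submodule.span_induction with
  | mem a ha =>
    obtain ⟨h, hh, rfl⟩ := ha
    have hh' : h ∈ S.H := hh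
    have hi : (φ h).val < p := ZMod.val_lt _
    have hpow : S.v t₁ ^ (φ h).val ∈ S.H := S.H.pow_mem (S.v_mem_H t₁) _
    have hk : h * (S.v t₁ ^ (φ h).val)⁻¹ ∈ (S.rs p t₁).H := by
      rw [hK]
      refine ⟨S.H.mul_mem hh' (S.H.inv_mem hpow), ?_⟩
      rw [hφ _ hh' _ (S.H.inv_mem hpow), StepRS_phi_inv p S φ hφ hpow,
        StepRS_phi_pow p S t₁ φ hφ h1, ZMod.natCast_val, ZMod.cast_id', id, add_neg_cancel]
    refine ⟨fun k => ((φ h).val.choose k) • gr p (h * (S.v t₁ ^ (φ h).val)⁻¹),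
      fun k => Submodule.smul_of_tower_mem _ _ (gr_mem_sa p hk), ?_⟩
    have e1 : gr p h = gr p (h * (S.v t₁ ^ (φ h).val)⁻¹) * gr p (S.v t₁ ^ (φ h).val) := by
      rw [← gr_mul, inv_mul_cancel_right]
    rw [e1, StepRS_binom p (S.v t₁) _ hi, Finset.mul_sum]
    refine Finset.sum_congr rfl fun k _ => ?_
    rw [smul_mul_assoc, mul_smul_comm]
  | zero =>
    exact ⟨fun _ => 0, fun _ => zero_mem _, by simp⟩
  | add a a' _ _ iha iha' =>
    obtain ⟨b, hb, e⟩ := iha
    obtain ⟨b', hb', e'⟩ := iha'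
    refine ⟨fun k => b k + b' k, fun k => add_mem (hb k) (hb' k), ?_⟩
    rw [e, e', ← Finset.sum_add_distrib]
    exact Finset.sum_congr rfl fun k _ => (add_mul _ _ _).symm
  | smul c a _ iha =>
    obtain ⟨b, hb, e⟩ := iha
    refine ⟨fun k => c • b k, fun k => Submodule.smul_mem _ _ (hb k), ?_⟩
    rw [e, Finset.smul_sum]
    exact Finset.sum_congr rfl fun k _ => (smul_mul_assoc _ _ _).symm

theorem comp_unique (b : Fin p → Alg p Γ) (hb : ∀ k : Fin p, b k ∈ sa p (S.rs p t₁).H)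
    (h : ∑ k : Fin p, b k * (gr p (S.v t₁) - 1) ^ (k : ℕ) = 0) (k : Fin p) : b k = 0 := by
  have hK := S.mem_rs_H p t₁ φ hφ h1 h0
  classical
  by_contra hne
  let A : Finset (Fin p) := Finset.univ.filter fun j => b j ≠ 0
  have hA : A.Nonempty := ⟨k, Finset.mem_filter.2 ⟨Finset.mem_univ _, hne⟩⟩
  obtain ⟨k₀, hk₀, hmax⟩ := A.exists_max_image (fun j : Fin p => (j : ℕ)) hA
  have hb0 : b k₀ ≠ 0 := (Finset.mem_filter.1 hk₀).2
  refine hb0 ?_
  have hz : ∀ j : Fin p, k₀ < j → b j = 0 := by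
    intro j hj
    by_contra hj0
    have := hmax j (Finset.mem_filter.2 ⟨Finset.mem_univ _, hj0⟩)
    exact absurd this (not_le.2 hj)
  have hcoef : ∀ g : Γ, (b k₀).coeff g = 0 := by
    intro g
    by_cases hg : g ∈ (S.rs p t₁).H
    · have e0 := congrArg (fun a : Alg p Γ => a.coeff (g * S.v t₁ ^ (k₀ : ℕ))) h
      have e1 : (∑ j : Fin p, b j * (gr p (S.v t₁) - 1) ^ (j : ℕ)).coeff
          (g * S.v t₁ ^ (k₀ : ℕ)) =
          ∑ j : Fin p, (b j * (gr p (S.v t₁) - 1) ^ (j : ℕ)).coeff (g * S.v t₁ ^ (k₀ : ℕ)) := by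
        rw [MonoidAlgebra.coeff_sum, Finsupp.finsetSum_apply]
      rw [e1, Finset.sum_eq_single k₀] at e0
      · rw [StepRS_top p S t₁ φ hφ h1 hK (b k₀) (hb k₀) k₀ k₀.2 g hg] at e0
        rw [e0]
        rfl
      · intro j _ hj
        rcases lt_or_gt_of_ne hj with hlt | hgt
        · refine StepRS_supp p S t₁ φ hφ h1 hK (b j) (hb j) j _ (Or.inr ?_)
          intro i hi he
          obtain ⟨hH, h00⟩ := (hK g).1 hg
          rw [hφ g hH _ (S.H.pow_mem (S.v_mem_H t₁) _), h00, zero_add,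
            StepRS_phi_pow p S t₁ φ hφ h1] at he
          rw [ZMod.natCast_eq_natCast_iff'] at he
          have hjk : (j : ℕ) < k₀ := hlt
          have hkp : (k₀ : ℕ) < p := k₀.2
          rw [Nat.mod_eq_of_lt hkp, Nat.mod_eq_of_lt (by omega)] at he
          omega
        · rw [hz j hgt, zero_mul]
          rfl
      · intro h
        exact absurd (Finset.mem_univ _) h
    · exact (mem_sa_iff p (b k₀)).1 (hb k₀) g hg
  apply MonoidAlgebra.ext
  ext g
  rw [hcoef g]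
  rfl

/-- The new filtration is contained in the old one. -/
theorem rs_M_le (c : ℝ) : (S.rs p t₁).M p c ≤ S.M p c := by
  have hK := S.mem_rs_H p t₁ φ hφ h1 h0
  clear hK
  refine Submodule.span_le.2 ?_
  rintro a ⟨l, hl, rfl⟩
  exact S.M_mono p hl (StepRS_mono_mem p S t₁ l)

end rs

end WSys

end Pool.Agent.TLA
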