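import Pool.Agent.TLA.StepCls
import Pool.Agent.TLA.StepRS

/-! Differences of the conjugates. -/

set_option autoImplicit false

namespace Pool.Agent.TLA

variable (p : ℕ) {Γ : Type} [Group Γ]

namespace WSys

variable (S : WSys Γ)

section StepZHelpers

variable [Fact p.Prime] (t₁ : S.T)

private theorem StepZ_mem (t : S.T) (ht : t ≠ t₁) (i : ℕ) : ∀ k : ℕ, k + i < p →
    S.Zc t₁ t k i ∈ (S.rs p t₁).H ∧
      gr p (S.Zc t₁ t k i) - 1 ∈ (S.rs p t₁).M p (S.w t * S.w t₁ ^ k) := by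
  induction i with
  | zero =>
    intro k hk
    rw [Zc_zero]
    exact ⟨(S.rs p t₁).v_mem_H (some (⟨t, ht⟩, ⟨k, by omega⟩)),
      (S.rs p t₁).v_mem_M p (some (⟨t, ht⟩, ⟨k, by omega⟩))⟩
  | succ i ih =>
    intro k hk
    obtain ⟨a1, a2⟩ := ih k (by omega)
    obtain ⟨b1, b2⟩ := ih (k + 1) (by omega)
    rw [Zc_succ]
    refine ⟨(S.rs p t₁).H.mul_mem a1 b1, (S.rs p t₁).mul_mem_M' p a1 b1 a2 ?_⟩
    refine (S.rs p t₁).M_mono p ?_ b2
    refine mul_le_mul_of_nonneg_left ?_ (S.w_pos t).le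
    exact pow_le_pow_of_le_one (S.w_pos t₁).le (S.w_lt t₁).le (Nat.le_succ k)

private theorem StepZ_diff (t : S.T) (k : ℕ) :
    fwdDiff 1 (fun i => gr p (S.Zc t₁ t k i) - 1) = fun i =>
      gr p (S.Zc t₁ t k i) * (gr p (S.Zc t₁ t (k + 1) i) - 1) := by
  funext i
  show (gr p (S.Zc t₁ t k (i + 1)) - 1) - (gr p (S.Zc t₁ t k i) - 1) = _
  rw [Zc_succ, gr_mul, mul_sub, mul_one]
  abel

private theorem StepZ_diff_inv (t : S.T) (k : ℕ) :
    fwdDiff 1 (fun i => gr p (S.Zc t₁ t k i)⁻¹) = fun i =>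
      -(gr p (S.Zc t₁ t (k + 1) i)⁻¹ *
        ((gr p (S.Zc t₁ t (k + 1) i) - 1) * gr p (S.Zc t₁ t k i)⁻¹)) := by
  funext i
  show gr p (S.Zc t₁ t k (i + 1))⁻¹ - gr p (S.Zc t₁ t k i)⁻¹ = _
  have h : gr p (S.Zc t₁ t (k + 1) i)⁻¹ * gr p (S.Zc t₁ t (k + 1) i) = 1 := by
    rw [← gr_mul, inv_mul_cancel, gr_one]
  rw [Zc_succ, mul_inv_rev, gr_mul, ← mul_assoc, mul_sub, h, mul_one, sub_mul, one_mul]
  abel

private theorem StepZ_const (w : ℝ) (n : ℕ) :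
    Cls ((S.rs p t₁).M p) w 1 n (fun _ => (1 : Alg p Γ)) := by
  intro m i _
  rcases m with _ | m
  · rw [pow_zero, mul_one, (S.rs p t₁).M_eq_sa p le_rfl]
    exact one_mem_sa p _
  · have h : fwdDiff 1 (fun _ : ℕ => (1 : Alg p Γ)) = fun _ => 0 := by
      funext j
      exact sub_self _
    have h0 : ∀ m : ℕ, (fwdDiff 1)^[m] (fun _ : ℕ => (0 : Alg p Γ)) = fun _ => 0 := by
      intro m
      induction m with
      | zero => rfl
      | succ m ih =>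
        rw [Function.iterate_succ_apply]
        have h1 : fwdDiff 1 (fun _ : ℕ => (0 : Alg p Γ)) = fun _ => 0 := by
          funext j
          exact sub_self _
        rw [h1, ih]
    rw [Function.iterate_succ_apply, h, h0]
    exact zero_mem _

private theorem StepZ_wle (t : S.T) (k : ℕ) : S.w t * S.w t₁ ^ k ≤ 1 :=
  mul_le_one₀ (S.w_lt t).le (pow_nonneg (S.w_pos t₁).le k)
    (pow_le_one₀ (S.w_pos t₁).le (S.w_lt t₁).le)

private theorem StepZ_add_one (t : S.T) (k n : ℕ)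
    (h : Cls ((S.rs p t₁).M p) (S.w t₁) (S.w t * S.w t₁ ^ k) n
      (fun i => gr p (S.Zc t₁ t k i) - 1)) :
    Cls ((S.rs p t₁).M p) (S.w t₁) 1 n (fun i => gr p (S.Zc t₁ t k i)) := by
  have h1 := cls_mono ((S.rs p t₁).M p) (fun _ _ h => (S.rs p t₁).M_mono p h)
    (S.w_pos t₁).le (S.StepZ_wle t₁ t k) le_rfl h
  have h2 := StepCls_add ((S.rs p t₁).M p) h1 (S.StepZ_const p t₁ (S.w t₁) n)
  have e : (fun i => gr p (S.Zc t₁ t k i)) =
      (fun i => gr p (S.Zc t₁ t k i) - 1) + fun _ => (1 : Alg p Γ) := by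
    funext i
    exact (sub_add_cancel _ _).symm
  rw [e]
  exact h2

private theorem StepZ_cls (t : S.T) (ht : t ≠ t₁) (n : ℕ) : ∀ k : ℕ, k + n < p →
    Cls ((S.rs p t₁).M p) (S.w t₁) (S.w t * S.w t₁ ^ k) n
      (fun i => gr p (S.Zc t₁ t k i) - 1) := by
  induction n with
  | zero =>
    intro k hk
    rw [cls_zero_iff]
    exact (S.StepZ_mem p t₁ t ht 0 k hk).2
  | succ n ih =>
    intro k hk
    rw [cls_succ_iff]
    refine ⟨fun i hi => (S.StepZ_mem p t₁ t ht i k (by omega)).2, ?_⟩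
    rw [StepZ_diff]
    have h1 := S.StepZ_add_one p t₁ t k n (ih k (by omega))
    have h2 := ih (k + 1) (by omega)
    have h3 := cls_mul ((S.rs p t₁).M p) ((S.rs p t₁).M p) ((S.rs p t₁).M p)
      (LinearMap.mul (ZMod p) (Alg p Γ))
      (fun c d a b ha hb => (S.rs p t₁).M_mul_mem p ha hb) h1 h2
    have e : 1 * (S.w t * S.w t₁ ^ (k + 1)) = S.w t * S.w t₁ ^ k * S.w t₁ := by
      rw [pow_succ]
      ring
    rw [e] at h3
    exact h3

private theorem StepZ_cls_inv (t : S.T) (ht : t ≠ t₁) (n : ℕ) : ∀ k : ℕ, k + n < p →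
    Cls ((S.rs p t₁).M p) (S.w t₁) 1 n (fun i => gr p (S.Zc t₁ t k i)⁻¹) := by
  have hv : ∀ i k : ℕ, k + i < p → gr p (S.Zc t₁ t k i)⁻¹ ∈ (S.rs p t₁).M p 1 := by
    intro i k hk
    rw [(S.rs p t₁).M_eq_sa p le_rfl]
    exact gr_mem_sa p ((S.rs p t₁).H.inv_mem (S.StepZ_mem p t₁ t ht i k hk).1)
  induction n with
  | zero =>
    intro k hk
    rw [cls_zero_iff]
    exact hv 0 k hk
  | succ n ih =>
    intro k hk
    rw [cls_succ_iff]
    refine ⟨fun i hi => hv i k (by omega), ?_⟩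
    rw [StepZ_diff_inv]
    have h1 := ih k (by omega)
    have h2 := ih (k + 1) (by omega)
    have h3 := S.StepZ_cls p t₁ t ht n (k + 1) (by omega)
    have h4 := cls_mul ((S.rs p t₁).M p) ((S.rs p t₁).M p) ((S.rs p t₁).M p)
      (LinearMap.mul (ZMod p) (Alg p Γ))
      (fun c d a b ha hb => (S.rs p t₁).M_mul_mem p ha hb) h3 h1
    have h5 := cls_mul ((S.rs p t₁).M p) ((S.rs p t₁).M p) ((S.rs p t₁).M p)
      (-(LinearMap.mul (ZMod p) (Alg p Γ)))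
      (fun c d a b ha hb => neg_mem ((S.rs p t₁).M_mul_mem p ha hb)) h2 h4
    refine cls_mono ((S.rs p t₁).M p) (fun _ _ h => (S.rs p t₁).M_mono p h)
      (S.w_pos t₁).le ?_ le_rfl h5
    have e : 1 * (S.w t * S.w t₁ ^ (k + 1) * 1) = S.w t * S.w t₁ ^ k * S.w t₁ := by
      rw [pow_succ]
      ring
    rw [e]
    exact mul_le_mul_of_nonneg_right (S.StepZ_wle t₁ t k) (S.w_pos t₁).le

end StepZHelpers

section rs

variable [Fact p.Prime] (t₁ : S.T) (φ : Γ → ZMod p) (hφ : S.AddOn p φ) (h1 : φ (S.v t₁) = 1)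
  (h0 : ∀ t, t ≠ t₁ → φ (S.v t) = 0)

include hφ h1 h0

/-- The values: `Z_k(i) - 1` has norm at most `w_t w_1^k` when `k + i < p`. -/
theorem Zc_sub_one_mem (t : S.T) (ht : t ≠ t₁) (k i : ℕ) (hk : k + i < p) :
    gr p (S.Zc t₁ t k i) - 1 ∈ (S.rs p t₁).M p (S.w t * S.w t₁ ^ k) :=
  (S.StepZ_mem p t₁ t ht i k hk).2

/-- All differences of `Z_k - 1` are small. -/
theorem cls_Zc_sub_one (t : S.T) (ht : t ≠ t₁) (k : ℕ) (hk : k < p) :
    Cls ((S.rs p t₁).M p) (S.w t₁) (S.w t * S.w t₁ ^ k) (p - 1 - k)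
      (fun i => gr p (S.Zc t₁ t k i) - 1) :=
  S.StepZ_cls p t₁ t ht (p - 1 - k) k (by omega)

theorem cls_Zc (t : S.T) (ht : t ≠ t₁) (k : ℕ) (hk : k < p) :
    Cls ((S.rs p t₁).M p) (S.w t₁) 1 (p - 1 - k) (fun i => gr p (S.Zc t₁ t k i)) :=
  S.StepZ_add_one p t₁ t k (p - 1 - k) (S.StepZ_cls p t₁ t ht (p - 1 - k) k (by omega))

theorem cls_Zc_inv (t : S.T) (ht : t ≠ t₁) (k : ℕ) (hk : k < p) :
    Cls ((S.rs p t₁).M p) (S.w t₁) 1 (p - 1 - k) (fun i => gr p (S.Zc t₁ t k i)⁻¹) :=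
  S.StepZ_cls_inv p t₁ t ht (p - 1 - k) k (by omega)

end rs

end WSys

end Pool.Agent.TLA
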