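import Pool.Agent.TLA.Clos
import Pool.Agent.TLA.GroupCase

/-! The transport for close times (block D4 (c)). -/

set_option autoImplicit false

open MeasureTheory Filter
open scoped Pointwise

namespace Pool.Agent.TLA

variable {G Z : Type} [Group G] [Countable G] [MeasurableSpace Z] (ζ : Measure Z)
  [IsProbabilityMeasure ζ]

/-- The quotient. -/
private abbrev TransClose_Q (Cn : ℕ → Subgroup G) : Type :=
  nst Cn ⧸ (⨅ i, Cn i : Subgroup G).subgroupOf (nst Cn)

private theorem TransClose_countable (Cn : ℕ → Subgroup G) : Countable (TransClose_Q Cn) :=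
  Quotient.countable

/-- The relation defining the transport. -/
private def TransClose_T (f : Bern G Z → Set G) (Cn : ℕ → Subgroup G) (k : Bern G Z → G)
    (s t : ℝ) (R : Om G Z → Option (Set (Set G × Set G))) (ω : Om G Z)
    (q : nst Cn ⧸ (⨅ i, Cn i : Subgroup G).subgroupOf (nst Cn)) : Prop :=
  ∃ h : nst Cn, (h : nst Cn ⧸ (⨅ i, Cn i : Subgroup G).subgroupOf (nst Cn)) = q ∧
    ∃ d, R ω = some d ∧
      (k (path s ω) • f (path s ω), (h : G) • (k (path t ω) • f (path t ω))) ∈ d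

omit [MeasurableSpace Z] [Countable G] in
private theorem TransClose_closed [MeasurableSpace Z] (f : Bern G Z → Set G) (s t : ℝ)
    (ω : Om G Z) {a b : Set G} (l : G) (h : (a, b) ∈ xi f s t ω) :
    (l • a, l • b) ∈ xi f s t ω := by
  obtain ⟨k, hk⟩ := h
  have h1 := congrArg Prod.fst hk
  have h2 := congrArg Prod.snd hk
  simp only at h1 h2
  exact ⟨l * k, by rw [h1, h2, smul_smul, smul_smul]⟩

omit [MeasurableSpace Z] [Countable G] in
private theorem TransClose_orbit [MeasurableSpace Z] (f : Bern G Z → Set G) (s t : ℝ)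
    (ω : Om G Z) {a b c d : Set G} (h : (a, b) ∈ xi f s t ω) (h' : (c, d) ∈ xi f s t ω) :
    ∃ l : G, c = l • a ∧ d = l • b := by
  obtain ⟨k, hk⟩ := h
  obtain ⟨m, hm⟩ := h'
  have h1 := congrArg Prod.fst hk
  have h2 := congrArg Prod.snd hk
  have h3 := congrArg Prod.fst hm
  have h4 := congrArg Prod.snd hm
  simp only at h1 h2 h3 h4
  refine ⟨m * k⁻¹, ?_, ?_⟩
  · rw [h3, h1, smul_smul, inv_mul_cancel_right]
  · rw [h4, h2, smul_smul, inv_mul_cancel_right]

omit [Countable G] in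
private theorem TransClose_unique {p : ℕ} (N : ℕ → Subgroup G) (hN : Cof p N)
    (f : Bern G Z → Set G) (Cn : ℕ → Subgroup G)
    (hfin : Finite (⨅ i, Cn i : Subgroup G)) (k : Bern G Z → G)
    [((⨅ i, Cn i : Subgroup G).subgroupOf (nst Cn)).Normal]
    (s t : ℝ) (R : Om G Z → Option (Set (Set G × Set G))) (ω : Om G Z)
    (hex : ∀ d, R ω = some d → ∃ g : G, d = xi f s t (g • ω))
    (hs : ∀ i, cl N i (k (path s ω) • f (path s ω)) = Cn i)
    (ht : ∀ i, cl N i (k (path t ω) • f (path t ω)) = Cn i)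
    {q q' : nst Cn ⧸ (⨅ i, Cn i : Subgroup G).subgroupOf (nst Cn)}
    (h : TransClose_T f Cn k s t R ω q) (h' : TransClose_T f Cn k s t R ω q') : q = q' := by
  obtain ⟨a, ha, d, hd, had⟩ := h
  obtain ⟨b, hb, e, he, hbe⟩ := h'
  have hde : e = d := by
    rw [hd] at he
    exact (Option.some_inj.1 he).symm
  rw [hde] at hbe
  obtain ⟨g, hg⟩ := hex d hd
  rw [hg] at had hbe
  obtain ⟨l, h1, h2⟩ := TransClose_orbit f s t (g • ω) had hbe
  have hSs := stab_eq_of_finite N hN Cn _ hs hfin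
  have hSt := stab_eq_of_finite N hN Cn _ ht hfin
  have hl : l ∈ (⨅ i, Cn i : Subgroup G) := by
    rw [← hSs, MulAction.mem_stabilizer_iff]
    exact h1.symm
  have hm : (a : G)⁻¹ * l⁻¹ * b ∈ (⨅ i, Cn i : Subgroup G) := by
    rw [← hSt, MulAction.mem_stabilizer_iff, mul_smul, h2, smul_smul, smul_smul]
    have : (a : G)⁻¹ * l⁻¹ * l * a = 1 := by group
    rw [this, one_smul]
  have hln : l ∈ nst Cn := iInf_le_nst N Cn hl
  have h3 : ((⟨l, hln⟩ : nst Cn) : nst Cn ⧸ (⨅ i, Cn i : Subgroup G).subgroupOf (nst Cn)) = 1 :=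
    (QuotientGroup.eq_one_iff _).2 (Subgroup.mem_subgroupOf.2 hl)
  have h4 : ((a⁻¹ * (⟨l, hln⟩ : nst Cn)⁻¹ * b : nst Cn) :
      nst Cn ⧸ (⨅ i, Cn i : Subgroup G).subgroupOf (nst Cn)) = 1 :=
    (QuotientGroup.eq_one_iff _).2 (Subgroup.mem_subgroupOf.2 hm)
  rw [QuotientGroup.mk_mul, QuotientGroup.mk_mul, QuotientGroup.mk_inv, QuotientGroup.mk_inv,
    h3, inv_one, mul_one] at h4
  rw [← ha, ← hb]
  exact inv_mul_eq_one.1 h4

private theorem TransClose_measT (f : Bern G Z → Set G) (hf : Measurable f)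
    (Cn : ℕ → Subgroup G) (k : Bern G Z → G) (hk : ∀ g, MeasurableSet (k ⁻¹' {g}))
    (P : Measure (Om G Z)) (s t : ℝ) (R : Om G Z → Option (Set (Set G × Set G)))
    (hR : Sel G P (xi f s t) R)
    (q : nst Cn ⧸ (⨅ i, Cn i : Subgroup G).subgroupOf (nst Cn)) :
    MeasurableSet {ω | TransClose_T f Cn k s t R ω q} := by
  have hfp : ∀ (r : ℝ) (g : G), Measurable fun ω : Om G Z => f (path r (g • ω)) := fun r g =>
    hf.comp ((measurable_const_smul g).comp (measurable_path r))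
  have hfp1 : ∀ r : ℝ, Measurable fun ω : Om G Z => f (path r ω) := fun r =>
    hf.comp (measurable_path r)
  have hkp : ∀ (r : ℝ) (c : G), MeasurableSet {ω : Om G Z | k (path r ω) = c} := fun r c =>
    (measurable_path r) (hk c)
  have key : ∀ (r : ℝ) (g l m : G),
      MeasurableSet {ω : Om G Z | m • (k (path r ω) • f (path r ω)) = l • f (path r (g • ω))} := by
    intro r g l m
    have : {ω : Om G Z | m • (k (path r ω) • f (path r ω)) = l • f (path r (g • ω))} =
        ⋃ c : G, {ω : Om G Z | k (path r ω) = c} ∩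
          {ω : Om G Z | (m * c) • f (path r ω) = l • f (path r (g • ω))} := by
      ext ω
      simp only [Set.mem_ofPred_eq, Set.mem_iUnion, Set.mem_inter_iff]
      constructor
      · intro h
        exact ⟨_, rfl, by rw [mul_smul]; exact h⟩
      · rintro ⟨c, rfl, h⟩
        rw [mul_smul] at h
        exact h
    rw [this]
    exact MeasurableSet.iUnion fun c => (hkp r c).inter
      (measurableSet_eq_smul (hfp1 r) (hfp r g) (m * c) l)
  have : {ω | TransClose_T f Cn k s t R ω q} = ⋃ h : {h : nst Cn //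
      (h : nst Cn ⧸ (⨅ i, Cn i : Subgroup G).subgroupOf (nst Cn)) = q}, ⋃ g : G, ⋃ l : G,
      {ω | R ω = some (xi f s t (g • ω))} ∩
      ({ω : Om G Z | (1 : G) • (k (path s ω) • f (path s ω)) = l • f (path s (g • ω))} ∩
      {ω : Om G Z | ((h : nst Cn) : G) • (k (path t ω) • f (path t ω)) =
        l • f (path t (g • ω))}) := by
    ext ω
    simp only [Set.mem_ofPred_eq, Set.mem_iUnion, Set.mem_inter_iff]
    constructor
    · rintro ⟨h, hq, d, hd, hmem⟩
      obtain ⟨g, rfl⟩ := hR.ex ω d hd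
      obtain ⟨l, hl⟩ := hmem
      have h1 := congrArg Prod.fst hl
      have h2 := congrArg Prod.snd hl
      simp only at h1 h2
      exact ⟨⟨h, hq⟩, g, l, hd, by rw [one_smul]; exact h1, h2⟩
    · rintro ⟨⟨h, hq⟩, g, l, hd, h1, h2⟩
      rw [one_smul] at h1
      exact ⟨h, hq, _, hd, l, Prod.ext h1 h2⟩
  rw [this]
  exact MeasurableSet.iUnion fun h => MeasurableSet.iUnion fun g => MeasurableSet.iUnion fun l =>
    (hR.meas g).inter ((key s g l 1).inter (key t g l _))

/-- The transport between `x_s` and `x_t` for close times. -/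
theorem exists_transport_close [Infinite G] {p : ℕ} (N : ℕ → Subgroup G) (hN : Cof p N)
    (f : Bern G Z → Set G) (hf : Measurable f) (Cn : ℕ → Subgroup G)
    (hfin : Finite (⨅ i, Cn i : Subgroup G)) (k : Bern G Z → G)
    (hk : ∀ g, MeasurableSet (k ⁻¹' {g}))
    (hCn : ∀ᵐ x ∂(Bern.mu G ζ), ∀ i, cl N i (k x • f x) = Cn i)
    [((⨅ i, Cn i : Subgroup G).subgroupOf (nst Cn)).Normal]
    (α : G → Bern G Z → nst Cn ⧸ (⨅ i, Cn i : Subgroup G).subgroupOf (nst Cn))
    (hα : ∀ g, ∀ᵐ x ∂(Bern.mu G ζ), ∀ h : nst Cn,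
      (h : nst Cn ⧸ (⨅ i, Cn i : Subgroup G).subgroupOf (nst Cn)) = α g x ↔
        k (g • x) • f (g • x) = (h : G) • (k x • f x))
    (s t : ℝ) (R : Om G Z → Option (Set (Set G × Set G))) (hR : Sel G (PP G ζ) (xi f s t) R)
    (hcl : ∀ᵐ ω ∂(PP G ζ), ∃ d, R ω = some d ∧ ∀ i, ∀ q ∈ d, cl N i q.1 = cl N i q.2) :
    ∃ h : Om G Z → nst Cn ⧸ (⨅ i, Cn i : Subgroup G).subgroupOf (nst Cn),
      (∀ q, MeasurableSet (h ⁻¹' {q})) ∧
      ∀ g, ∀ᵐ ω ∂(PP G ζ), α g (path s ω) * h ω = h (g • ω) * α g (path t ω) := by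
  classical
  have hQc : Countable (TransClose_Q Cn) := TransClose_countable Cn
  let T : Om G Z → TransClose_Q Cn → Prop := TransClose_T f Cn k s t R
  let U : Om G Z → TransClose_Q Cn → Prop := fun ω q => T ω q ∧ ∀ q', T ω q' → q' = q
  have hUuniq : ∀ ω q q', U ω q → U ω q' → q = q' := fun ω q q' h h' => h'.2 q h.1
  let hh : Om G Z → TransClose_Q Cn := fun ω => if h : ∃ q, U ω q then h.choose else 1
  have hhU : ∀ ω q, U ω q → hh ω = q := by
    intro ω q h
    have hex : ∃ q, U ω q := ⟨q, h⟩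
    have h1 : hh ω = hex.choose := dif_pos hex
    rw [h1]
    exact hUuniq ω _ _ hex.choose_spec h
  have hTm : ∀ q, MeasurableSet {ω | T ω q} := fun q =>
    TransClose_measT f hf Cn k hk (PP G ζ) s t R hR q
  have hUm : ∀ q, MeasurableSet {ω | U ω q} := by
    intro q
    have : {ω | U ω q} = {ω | T ω q} ∩ ⋂ q' : {q' : TransClose_Q Cn // q' ≠ q}, {ω | T ω q'}ᶜ := by
      ext ω
      simp only [Set.mem_ofPred_eq, Set.mem_inter_iff, Set.mem_iInter, Set.mem_compl_iff]
      constructor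
      · rintro ⟨h1, h2⟩
        exact ⟨h1, fun q' h3 => q'.2 (h2 _ h3)⟩
      · rintro ⟨h1, h2⟩
        refine ⟨h1, fun q' h3 => ?_⟩
        by_contra hne
        exact h2 ⟨q', hne⟩ h3
    rw [this]
    exact (hTm q).inter (MeasurableSet.iInter fun q' => (hTm q').compl)
  refine ⟨hh, fun q => ?_, fun g => ?_⟩
  · have : hh ⁻¹' {q} = {ω | U ω q} ∪
        ((⋃ q', {ω | U ω q'})ᶜ ∩ {_ω | (1 : TransClose_Q Cn) = q}) := by
      ext ω
      simp only [Set.mem_preimage, Set.mem_singleton_iff, Set.mem_union, Set.mem_inter_iff,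
        Set.mem_compl_iff, Set.mem_iUnion, Set.mem_ofPred_eq]
      by_cases hex : ∃ q, U ω q
      · obtain ⟨q₁, hq₁⟩ := hex
        rw [hhU ω q₁ hq₁]
        constructor
        · rintro rfl
          exact Or.inl hq₁
        · rintro (h | h)
          · exact hUuniq ω _ _ hq₁ h
          · exact absurd ⟨q₁, hq₁⟩ h.1
      · have h1 : hh ω = 1 := dif_neg hex
        rw [h1]
        constructor
        · intro h
          exact Or.inr ⟨hex, h⟩
        · rintro (h | h)
          · exact absurd ⟨q, h⟩ hex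
          · exact h.2
    rw [this]
    exact (hUm q).union ((MeasurableSet.iUnion fun q' => hUm q').compl.inter
      (MeasurableSet.const _))
  · -- the generic points
    have hB : ∀ᵐ x ∂(Bern.mu G ζ), ∀ l : G, ∀ i, cl N i (k (l • x) • f (l • x)) = Cn i := by
      rw [ae_all_iff]
      intro l
      exact (measurePreserving_smul l (Bern.mu G ζ)).quasiMeasurePreserving.ae hCn
    have hA : ∀ᵐ x ∂(Bern.mu G ζ), ∀ l : G, ∀ h : nst Cn,
        (h : nst Cn ⧸ (⨅ i, Cn i : Subgroup G).subgroupOf (nst Cn)) = α l x ↔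
          k (l • x) • f (l • x) = (h : G) • (k x • f x) := ae_all_iff.2 hα
    have qs := (measurePreserving_path (G := G) ζ s).quasiMeasurePreserving
    have qt := (measurePreserving_path (G := G) ζ t).quasiMeasurePreserving
    filter_upwards [qs.ae hB, qt.ae hB, qs.ae hA, qt.ae hA, hcl] with ω hBs hBt hAs hAt hd
    obtain ⟨d, hd, hdc⟩ := hd
    have hBs1 : ∀ i, cl N i (k (path s ω) • f (path s ω)) = Cn i := fun i => by
      have := hBs 1 i
      rwa [one_smul] at this
    have hBt1 : ∀ i, cl N i (k (path t ω) • f (path t ω)) = Cn i := fun i => by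
      have := hBt 1 i
      rwa [one_smul] at this
    have huniq1 : ∀ q q', T ω q → T ω q' → q = q' := fun q q' h h' =>
      TransClose_unique N hN f Cn hfin k s t R ω (hR.ex ω) hBs1 hBt1 h h'
    have huniq2 : ∀ q q', T (g • ω) q → T (g • ω) q' → q = q' := fun q q' h h' =>
      TransClose_unique N hN f Cn hfin k s t R (g • ω) (hR.ex (g • ω)) (hBs g) (hBt g) h h'
    obtain ⟨l, hl⟩ := hR.ex ω d hd
    -- existence
    have hrep : ∀ (y : Bern G Z), (∀ l : G, ∀ h : nst Cn,
        (h : nst Cn ⧸ (⨅ i, Cn i : Subgroup G).subgroupOf (nst Cn)) = α l y ↔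
          k (l • y) • f (l • y) = (h : G) • (k y • f y)) → ∀ m : G, ∃ h : nst Cn,
          (h : nst Cn ⧸ (⨅ i, Cn i : Subgroup G).subgroupOf (nst Cn)) = α m y ∧
          k (m • y) • f (m • y) = (h : G) • (k y • f y) := by
      intro y hy m
      obtain ⟨h, hh⟩ := QuotientGroup.mk_surjective (α m y)
      exact ⟨h, hh, (hy m h).1 hh⟩
    obtain ⟨a, -, ha⟩ := hrep _ hAs l
    obtain ⟨b, -, hb⟩ := hrep _ hAt l
    have hmem0 : (f (path s (l • ω)), f (path t (l • ω))) ∈ xi f s t (l • ω) :=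
      ⟨1, by rw [one_smul, one_smul]⟩
    have hbase : ∀ c : G, ((a : G)⁻¹ * k (l • path s ω)) • f (path s (l • ω)) =
        k (path s ω) • f (path s ω) := by
      intro _
      rw [mul_smul, path_smul, ha, inv_smul_smul]
    have hmem1 := TransClose_closed f s t (l • ω) ((a : G)⁻¹ * k (l • path s ω)) hmem0
    rw [hbase 1] at hmem1
    have hft : f (path t (l • ω)) =
        ((k (l • path t ω))⁻¹ * (b : G)) • (k (path t ω) • f (path t ω)) := by
      rw [mul_smul, ← hb, inv_smul_smul, path_smul]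
    rw [hft, smul_smul] at hmem1
    set q₀ : G := (a : G)⁻¹ * k (l • path s ω) * ((k (l • path t ω))⁻¹ * (b : G)) with hq₀
    have hmem2 : (k (path s ω) • f (path s ω), q₀ • (k (path t ω) • f (path t ω))) ∈ d := by
      rw [hl]
      exact hmem1
    have hq₀n : q₀ ∈ nst Cn := by
      refine mem_nst N hN Cn (k (path t ω) • f (path t ω)) q₀ hBt1 fun i => ?_
      rw [← hdc i _ hmem2]
      exact hBs1 i
    have hT : T ω ((⟨q₀, hq₀n⟩ : nst Cn) : TransClose_Q Cn) := ⟨⟨q₀, hq₀n⟩, rfl, d, hd, hmem2⟩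
    have hval : hh ω = ((⟨q₀, hq₀n⟩ : nst Cn) : TransClose_Q Cn) :=
      hhU ω _ ⟨hT, fun q' h' => huniq1 _ _ h' hT⟩
    -- equivariance
    obtain ⟨a', ha'1, ha'2⟩ := hrep _ hAs g
    obtain ⟨b', hb'1, hb'2⟩ := hrep _ hAt g
    have hT' : T (g • ω) ((a' * ⟨q₀, hq₀n⟩ * b'⁻¹ : nst Cn) : TransClose_Q Cn) := by
      refine ⟨a' * ⟨q₀, hq₀n⟩ * b'⁻¹, rfl, d, by rw [hR.inv]; exact hd, ?_⟩
      have h1 := TransClose_closed f s t (l • ω) (a' : G) (hl ▸ hmem2)
      rw [path_smul, path_smul, ha'2, hb'2, hl]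
      have h2 : ((a' * ⟨q₀, hq₀n⟩ * b'⁻¹ : nst Cn) : G) •
          ((b' : G) • (k (path t ω) • f (path t ω))) =
          (a' : G) • (q₀ • (k (path t ω) • f (path t ω))) := by
        rw [smul_smul, smul_smul (a' : G)]
        congr 1
        show (a' : G) * q₀ * (b' : G)⁻¹ * b' = a' * q₀
        group
      rw [h2]
      exact h1
    have hval' : hh (g • ω) = ((a' * ⟨q₀, hq₀n⟩ * b'⁻¹ : nst Cn) : TransClose_Q Cn) :=
      hhU (g • ω) _ ⟨hT', fun q' h' => huniq2 _ _ h' hT'⟩
    rw [hval, hval', ← ha'1, ← hb'1]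
    rw [← QuotientGroup.mk_mul, ← QuotientGroup.mk_mul, inv_mul_cancel_right]


end Pool.Agent.TLA
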