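import Pool.Agent.TLA.TransClose
import Pool.Agent.TLA.Cocycle

/-! The transport along the path (block D4 (c)). -/

set_option autoImplicit false

open MeasureTheory Filter
open scoped Pointwise

namespace Pool.Agent.TLA

variable {G Z : Type} [Group G] [Countable G] [MeasurableSpace Z] (ζ : Measure Z)
  [IsProbabilityMeasure ζ]

/-- The transport between the end points. -/
theorem exists_transport [Infinite G] {p n : ℕ} (hp : 0 < p) (x : Fin n → G) {C : ℝ}
    (hC : 0 ≤ C) (hT : HasGap x C) (N : ℕ → Subgroup G) (hN : Cof p N)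
    (f : Bern G Z → Set G) (hf : Measurable f) (ho : OrbPres f) (Cn : ℕ → Subgroup G)
    (hfin : Finite (⨅ i, Cn i : Subgroup G)) (k : Bern G Z → G)
    (hk : ∀ g, MeasurableSet (k ⁻¹' {g}))
    (hCn : ∀ᵐ x ∂(Bern.mu G ζ), ∀ i, cl N i (k x • f x) = Cn i)
    [((⨅ i, Cn i : Subgroup G).subgroupOf (nst Cn)).Normal]
    (α : G → Bern G Z → nst Cn ⧸ (⨅ i, Cn i : Subgroup G).subgroupOf (nst Cn))
    (hα : ∀ g, ∀ᵐ x ∂(Bern.mu G ζ), ∀ h : nst Cn,
      (h : nst Cn ⧸ (⨅ i, Cn i : Subgroup G).subgroupOf (nst Cn)) = α g x ↔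
        k (g • x) • f (g • x) = (h : G) • (k x • f x)) :
    ∃ h : Om G Z → nst Cn ⧸ (⨅ i, Cn i : Subgroup G).subgroupOf (nst Cn),
      (∀ q, MeasurableSet (h ⁻¹' {q})) ∧
      ∀ g, ∀ᵐ ω ∂(PP G ζ), α g ω.1 * h ω = h (g • ω) * α g ω.2.1 := by
  have hc1 : Countable (nst Cn) := (nst Cn).subtype_injective.countable
  have hc2 : Countable (nst Cn ⧸ (⨅ i, Cn i : Subgroup G).subgroupOf (nst Cn)) :=
    (QuotientGroup.mk_surjective
      (s := (⨅ i, Cn i : Subgroup G).subgroupOf (nst Cn))).countable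
  obtain ⟨r₀, hr₀, hsel⟩ := pair_sel ζ x hC hT f hf ho
  have hclose : ∀ s ∈ Set.Icc (0 : ℝ) 1, ∀ t ∈ Set.Icc (0 : ℝ) 1, |s - t| ≤ r₀ →
      ∃ h : Om G Z → nst Cn ⧸ (⨅ i, Cn i : Subgroup G).subgroupOf (nst Cn),
        (∀ q, MeasurableSet (h ⁻¹' {q})) ∧
        ∀ g, ∀ᵐ ω ∂(PP G ζ), α g (path s ω) * h ω = h (g • ω) * α g (path t ω) := by
    intro s hs t ht hst
    obtain ⟨R, hR⟩ := hsel s hs t ht hst
    exact exists_transport_close ζ N hN f hf Cn hfin k hk hCn α hα s t R hR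
      (clos_pair ζ N hN hp f hf r₀ hr₀ hsel s hs t ht hst R hR)
  obtain ⟨m, hm⟩ := exists_nat_gt (1 / r₀)
  have hm0 : (0 : ℝ) < m := lt_trans (by positivity) hm
  have hstep : (1 : ℝ) / m ≤ r₀ := by
    rw [div_le_iff₀ hm0]
    rw [div_lt_iff₀ hr₀] at hm
    linarith
  have key : ∀ j : ℕ, j ≤ m →
      ∃ h : Om G Z → nst Cn ⧸ (⨅ i, Cn i : Subgroup G).subgroupOf (nst Cn),
        (∀ q, MeasurableSet (h ⁻¹' {q})) ∧
        ∀ g, ∀ᵐ ω ∂(PP G ζ),
          α g (path 0 ω) * h ω = h (g • ω) * α g (path ((j : ℝ) / m) ω) := by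
    intro j
    induction j with
    | zero =>
      intro _
      refine ⟨fun _ => 1, fun q => ?_, fun g => ?_⟩
      · by_cases hq : (1 : nst Cn ⧸ (⨅ i, Cn i : Subgroup G).subgroupOf (nst Cn)) = q
        · have h1 : (fun _ : Om G Z =>
              (1 : nst Cn ⧸ (⨅ i, Cn i : Subgroup G).subgroupOf (nst Cn))) ⁻¹' {q} =
              Set.univ := by
            ext ω
            simp [hq]
          rw [h1]
          exact MeasurableSet.univ
        · have h1 : (fun _ : Om G Z =>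
              (1 : nst Cn ⧸ (⨅ i, Cn i : Subgroup G).subgroupOf (nst Cn))) ⁻¹' {q} =
              ∅ := by
            ext ω
            simp [hq]
          rw [h1]
          exact MeasurableSet.empty
      · refine Filter.Eventually.of_forall fun ω => ?_
        rw [Nat.cast_zero, zero_div, mul_one, one_mul]
    | succ j ih =>
      intro hj
      obtain ⟨h, h1, h2⟩ := ih (by omega)
      have hjm : ((j : ℝ) + 1) ≤ m := by
        have h3 : ((j + 1 : ℕ) : ℝ) ≤ m := by exact_mod_cast hj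
        push_cast at h3
        exact h3
      have hj0 : (0 : ℝ) ≤ j := Nat.cast_nonneg j
      obtain ⟨h', h1', h2'⟩ := hclose ((j : ℝ) / m)
        ⟨div_nonneg hj0 hm0.le, (div_le_one hm0).2 (by linarith)⟩ (((j + 1 : ℕ) : ℝ) / m)
        ⟨div_nonneg (Nat.cast_nonneg _) hm0.le, (div_le_one hm0).2 (by push_cast; linarith)⟩
        (by
          have h3 : (j : ℝ) / m - ((j + 1 : ℕ) : ℝ) / m = -(1 / m) := by
            push_cast
            ring
          rw [h3, abs_neg, abs_of_pos (by positivity)]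
          exact hstep)
      refine ⟨fun ω => h ω * h' ω, fun q => ?_, fun g => ?_⟩
      · have h3 : (fun ω => h ω * h' ω) ⁻¹' {q} = ⋃ a, h ⁻¹' {a} ∩ h' ⁻¹' {a⁻¹ * q} := by
          ext ω
          simp only [Set.mem_preimage, Set.mem_singleton_iff, Set.mem_iUnion, Set.mem_inter_iff]
          constructor
          · intro h4
            refine ⟨h ω, rfl, ?_⟩
            rw [← h4, inv_mul_cancel_left]
          · rintro ⟨a, h4, h5⟩
            rw [h4, h5, mul_inv_cancel_left]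
        rw [h3]
        exact MeasurableSet.iUnion fun a => (h1 a).inter (h1' _)
      · filter_upwards [h2 g, h2' g] with ω h3 h4
        rw [← mul_assoc, h3, mul_assoc, h4, mul_assoc]
  obtain ⟨h, h1, h2⟩ := key m le_rfl
  refine ⟨h, h1, fun g => ?_⟩
  filter_upwards [h2 g, path_zero ζ] with ω h3 h4
  rw [h4, div_self hm0.ne', path_one] at h3
  exact h3

end Pool.Agent.TLA
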